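import Mathlib

open Finset ENNReal

namespace Pool.Agent.Results.MP_3a3582_co.AlmostAll

/-- `L = [n_r, …, n_1]` is a type (listed in decreasing order): all entries are at least `2` and
every entry is divisible by all later ones. -/
def IsTypeList (L : List ℕ) : Prop := (∀ n ∈ L, 2 ≤ n) ∧ L.Pairwise fun a b => b ∣ a

/-- Types of length `s + 1`. -/
def TL (s : ℕ) : Type := {L : List ℕ // L.length = s + 1 ∧ IsTypeList L}

/-- weight `1 / (h ^ q * prod)` with `h` the head -/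
noncomputable def wt (q : ℕ) (L : List ℕ) : ℝ≥0∞ := ((L.headI : ℝ≥0∞) ^ q * (L.prod : ℝ≥0∞))⁻¹

lemma IsTypeList.head_ge {L : List ℕ} (h : IsTypeList L) (hne : L ≠ []) : 2 ≤ L.headI := by
  cases L with
  | nil => exact absurd rfl hne
  | cons a l => exact h.1 a (List.mem_cons_self)

lemma IsTypeList.prod_pos {L : List ℕ} (h : IsTypeList L) : 0 < L.prod := by
  apply List.prod_pos
  intro n hn
  have := h.1 n hn
  omega

lemma IsTypeList.tail {a : ℕ} {l : List ℕ} (h : IsTypeList (a :: l)) : IsTypeList l :=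
  ⟨fun n hn => h.1 n (List.mem_cons_of_mem _ hn), (List.pairwise_cons.mp h.2).2⟩

lemma IsTypeList.cons {l : List ℕ} (h : IsTypeList l) (hne : l ≠ []) (m : ℕ) :
    IsTypeList ((m + 1) * l.headI :: l) := by
  have hh := h.head_ge hne
  constructor
  · intro n hn
    rcases List.mem_cons.mp hn with rfl | hn
    · nlinarith
    · exact h.1 n hn
  · rw [List.pairwise_cons]
    refine ⟨?_, h.2⟩
    intro b hb
    cases l with
    | nil => exact absurd rfl hne
    | cons a l =>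
      simp only [List.headI_cons]
      rcases List.mem_cons.mp hb with rfl | hb
      · exact Dvd.intro_left _ rfl
      · exact Dvd.dvd.mul_left ((List.pairwise_cons.mp h.2).1 b hb) _

/-- Adding a first entry. -/
def addHead (s : ℕ) (p : ℕ × TL s) : TL (s + 1) :=
  ⟨(p.1 + 1) * p.2.1.headI :: p.2.1, by simp [p.2.2.1],
    p.2.2.2.cons (by intro h; have := p.2.2.1; rw [h] at this; simp at this) _⟩

lemma addHead_surj (s : ℕ) : Function.Surjective (addHead s) := by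
  rintro ⟨L, hlen, hL⟩
  cases L with
  | nil => simp at hlen
  | cons a l =>
    have hl : l.length = s + 1 := by simpa using hlen
    cases l with
    | nil => simp at hl
    | cons b l =>
      have hdvd : b ∣ a := (List.pairwise_cons.mp hL.2).1 b List.mem_cons_self
      obtain ⟨m, hm⟩ := hdvd
      have ha : 2 ≤ a := hL.1 a List.mem_cons_self
      have hm0 : m ≠ 0 := by
        rintro rfl
        omega
      refine ⟨(m - 1, ⟨b :: l, hl, hL.tail⟩), ?_⟩
      apply Subtype.ext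
      simp only [addHead, List.headI_cons]
      rw [Nat.sub_add_cancel (Nat.one_le_iff_ne_zero.mpr hm0), hm, mul_comm]

lemma wt_cons (q m : ℕ) (L : List ℕ) :
    wt q ((m + 1) * L.headI :: L) = ((m + 1 : ℕ) : ℝ≥0∞)⁻¹ ^ (q + 1) * wt (q + 1) L := by
  unfold wt
  rw [List.headI_cons, List.prod_cons, ← ENNReal.inv_pow, ← ENNReal.mul_inv]
  · congr 1
    simp only [Nat.cast_mul]
    ring
  · left
    exact pow_ne_zero _ (by exact_mod_cast Nat.succ_ne_zero m)
  · left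
    exact ENNReal.pow_ne_top (ENNReal.natCast_ne_top _)

/-- `ζ(2)` in `ℝ≥0∞`. -/
noncomputable def Z : ℝ≥0∞ := ∑' m : ℕ, (((m + 1 : ℕ) : ℝ≥0∞)⁻¹) ^ 2

lemma Z_lt_two : Z < 2 := by
  have h1 : HasSum (fun n : ℕ => 1 / ((n : ℝ) + 1) ^ 2) (Real.pi ^ 2 / 6) := by
    have := hasSum_zeta_two
    rw [← hasSum_nat_add_iff' 1] at this
    simpa using this
  have h2 : Z = ENNReal.ofReal (Real.pi ^ 2 / 6) := by
    unfold Z
    rw [← h1.tsum_eq, ENNReal.ofReal_tsum_of_nonneg (fun n => by positivity) h1.summable]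
    refine tsum_congr fun n => ?_
    rw [ENNReal.ofReal_div_of_pos (by positivity), ENNReal.ofReal_pow (by positivity)]
    rw [ENNReal.ofReal_one, one_div, ← ENNReal.inv_pow]
    congr 3
    have : ((n : ℝ) + 1) = ((n + 1 : ℕ) : ℝ) := by push_cast; ring
    rw [this, ENNReal.ofReal_natCast]
  rw [h2]
  have h3 : Real.pi ^ 2 / 6 < 2 := by nlinarith [Real.pi_lt_d2, Real.pi_pos]
  calc ENNReal.ofReal (Real.pi ^ 2 / 6) < ENNReal.ofReal 2 :=
        (ENNReal.ofReal_lt_ofReal_iff (by norm_num)).mpr h3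
    _ = 2 := by simp

lemma natCast_inv_le_half {m : ℕ} : ((m + 2 : ℕ) : ℝ≥0∞)⁻¹ ≤ 2⁻¹ := by
  rw [ENNReal.inv_le_inv]
  exact_mod_cast Nat.le_add_left 2 m

lemma natCast_inv_le_one {m : ℕ} : ((m + 1 : ℕ) : ℝ≥0∞)⁻¹ ≤ 1 := by
  rw [ENNReal.inv_le_one]
  exact_mod_cast Nat.le_add_left 1 m

lemma zeta_le (q : ℕ) : ∑' m : ℕ, (((m + 1 : ℕ) : ℝ≥0∞)⁻¹) ^ (q + 2) ≤ Z := by
  refine ENNReal.tsum_le_tsum fun m => ?_
  rw [pow_add]
  calc (((m + 1 : ℕ) : ℝ≥0∞)⁻¹) ^ q * (((m + 1 : ℕ) : ℝ≥0∞)⁻¹) ^ 2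
      ≤ 1 ^ q * (((m + 1 : ℕ) : ℝ≥0∞)⁻¹) ^ 2 := by
        gcongr
        exact natCast_inv_le_one
    _ = _ := by rw [one_pow, one_mul]

/-- the sum over types of length one -/
lemma sum_base (q : ℕ) : ∑' L : TL 0, wt (q + 1) L.1 ≤ 2⁻¹ ^ q * Z := by
  have hsurj : Function.Surjective (fun m : ℕ => (⟨[m + 2], by simp, by simp [IsTypeList]⟩ : TL 0)) := by
    rintro ⟨L, hlen, hL⟩
    obtain ⟨a, rfl⟩ := List.length_eq_one_iff.mp hlen
    have ha : 2 ≤ a := hL.1 a List.mem_cons_self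
    refine ⟨a - 2, Subtype.ext ?_⟩
    simp only
    rw [Nat.sub_add_cancel ha]
  refine (ENNReal.tsum_le_tsum_comp_of_surjective hsurj _).trans ?_
  rw [Z, ← ENNReal.tsum_mul_left]
  refine ENNReal.tsum_le_tsum fun m => ?_
  simp only [wt, List.headI_cons, List.prod_cons, List.prod_nil, mul_one]
  rw [← pow_succ, ENNReal.inv_pow, add_assoc q 1 1, pow_add]
  gcongr
  · exact_mod_cast Nat.le_add_left 2 m
  · exact Nat.le_succ _

lemma sum_le (s : ℕ) : ∀ q : ℕ, ∑' L : TL s, wt (q + 1) L.1 ≤ Z ^ s * (2⁻¹ ^ (q + s) * Z) := by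
  induction s with
  | zero =>
    intro q
    simpa using sum_base q
  | succ s ih =>
    intro q
    calc ∑' L : TL (s + 1), wt (q + 1) L.1
        ≤ ∑' p : ℕ × TL s, wt (q + 1) (addHead s p).1 :=
          ENNReal.tsum_le_tsum_comp_of_surjective (addHead_surj s) _
      _ = ∑' (m : ℕ) (L : TL s), (((m + 1 : ℕ) : ℝ≥0∞)⁻¹) ^ (q + 2) * wt (q + 2) L.1 := by
          rw [← ENNReal.tsum_prod]
          refine tsum_congr fun p => ?_
          exact wt_cons (q + 1) p.1 p.2.1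
      _ = (∑' m : ℕ, (((m + 1 : ℕ) : ℝ≥0∞)⁻¹) ^ (q + 2)) * ∑' L : TL s, wt (q + 2) L.1 := by
          simp_rw [ENNReal.tsum_mul_left, ENNReal.tsum_mul_right]
      _ ≤ Z * (Z ^ s * (2⁻¹ ^ (q + 1 + s) * Z)) := by
          gcongr
          · exact zeta_le q
          · exact ih (q + 1)
      _ = Z ^ (s + 1) * (2⁻¹ ^ (q + (s + 1)) * Z) := by
          have : q + 1 + s = q + (s + 1) := by ring
          rw [this]
          ring

/-- The index set: nonempty types. -/
def NT : Type := {L : List ℕ // L ≠ [] ∧ IsTypeList L}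

lemma total_lt_top : ∑' L : NT, wt 1 L.1 ≠ ∞ := by
  have hsurj : Function.Surjective (fun p : (Σ s, TL s) =>
      (⟨p.2.1, by intro h; have := p.2.2.1; rw [h] at this; simp at this, p.2.2.2⟩ : NT)) := by
    rintro ⟨L, hne, hL⟩
    have hlen : L.length = (L.length - 1) + 1 := by
      have := List.length_pos_iff.mpr hne
      omega
    exact ⟨⟨L.length - 1, L, hlen, hL⟩, rfl⟩
  have h1 : ∑' L : NT, wt 1 L.1 ≤ ∑' s, Z ^ s * (2⁻¹ ^ (0 + s) * Z) := by
    refine (ENNReal.tsum_le_tsum_comp_of_surjective hsurj _).trans ?_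
    rw [ENNReal.tsum_sigma']
    exact ENNReal.tsum_le_tsum fun s => sum_le s 0
  have h2 : ∑' s, Z ^ s * (2⁻¹ ^ (0 + s) * Z) = (1 - Z * 2⁻¹)⁻¹ * Z := by
    rw [← ENNReal.tsum_geometric, ← ENNReal.tsum_mul_right]
    refine tsum_congr fun s => ?_
    rw [zero_add, mul_pow, mul_assoc]
  have hZ2 : Z * 2⁻¹ < 1 := by
    rw [← div_eq_mul_inv]
    exact (ENNReal.div_lt_iff (by left; norm_num) (by left; norm_num)).mpr (by simpa using Z_lt_two)
  have h3 : (1 - Z * 2⁻¹)⁻¹ * Z ≠ ∞ := by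
    refine ENNReal.mul_ne_top ?_ (Z_lt_two.trans_le le_top).ne
    rw [ENNReal.inv_ne_top]
    exact (tsub_pos_of_lt hZ2).ne'
  exact ne_top_of_le_ne_top (h2 ▸ h3) h1

end Pool.Agent.Results.MP_3a3582_co.AlmostAll
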