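import Pool.Agent.Helper934.BRank
import Pool.Agent.Helper934.AA1

open Finset
open Pool.Agent.Results.MP_3a3582_co.BoundedRank

namespace Pool.Agent.Results.MP_3a3582_co.AlmostAll

theorem lowerP (r : ℕ) (n : Fin r → ℕ) (c : ℕ) (L k : ℕ) (hn : ∀ i, 1 ≤ n i) (hL : 1 ≤ L)
    (h1 : (1 + 1 / (L : ℝ)) ^ (2 * r) * 2 ^ k ≤ (((∏ i, n i) * c : ℕ) : ℝ))
    (h2 : (∏ i, n i) * c < 2 ^ (k + 2)) (h3 : 2 * (2 * L) ^ (r + 1) * k ≤ c)
    (G : Type) [AddCommGroup G] [Fintype G] (e : G ≃+ (∀ i, ZMod (n i)) × ZMod c) :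
    k ≤ tau G := by
  rcases Nat.eq_zero_or_pos k with rfl | hk
  · exact Nat.zero_le _
  set s : Fin r → ℕ := fun i => Nat.clog 2 (L * n i) with hs
  set P : ℕ := ∏ i : Fin r, n i with hP
  have hLn : ∀ i : Fin r, 1 ≤ L * n i := fun i => Nat.mul_pos hL (hn _)
  have hSg : 2 ^ (∑ i, s i) ≤ (2 * L) ^ r * P := by
    calc 2 ^ (∑ i, s i) = ∏ i, 2 ^ s i := (Finset.prod_pow_eq_pow_sum _ _ _).symm
      _ ≤ ∏ i : Fin r, (2 * L) * n i := by
          refine Finset.prod_le_prod' fun i _ => ?_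
          rw [mul_assoc]
          exact two_pow_clog_le (hLn i)
      _ = (2 * L) ^ r * P := by
          rw [Finset.prod_mul_distrib, Finset.prod_const, Finset.card_univ, Fintype.card_fin]
  have key : L * k * 2 ^ (∑ i, s i) < 2 ^ k := by
    have a1 : 4 * (L * k * 2 ^ (∑ i, s i)) ≤ P * c := by
      calc 4 * (L * k * 2 ^ (∑ i, s i)) ≤ 4 * (L * k * ((2 * L) ^ r * P)) := by gcongr
        _ = P * (2 * (2 * L) ^ (r + 1) * k) := by ring
        _ ≤ P * c := Nat.mul_le_mul_left _ h3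
    have a2 : P * c < 4 * 2 ^ k := by
      calc P * c < 2 ^ (k + 2) := h2
        _ = 4 * 2 ^ k := by ring
    omega
  have hLk : 1 ≤ L * k := Nat.mul_pos hL hk
  have hlt : ∑ i, s i < k := by
    have : 2 ^ (∑ i, s i) < 2 ^ k := lt_of_le_of_lt (Nat.le_mul_of_pos_left _ hLk) key
    exact (Nat.pow_lt_pow_iff_right (by norm_num)).mp this
  set m := k - ∑ i, s i with hm
  have hmk : m + ∑ i, s i = k := by omega
  have hm2 : L * k ≤ 2 ^ m := by
    have : L * k * 2 ^ (∑ i, s i) ≤ 2 ^ m * 2 ^ (∑ i, s i) := by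
      rw [← pow_add, hmk]
      exact key.le
    exact Nat.le_of_mul_le_mul_right this (by positivity)
  obtain ⟨ι, hι, W, hcard, -, hWP, hpack⟩ := packs L hL m r n s
    (fun i => hn _) (fun i => Nat.le_pow_clog (by norm_num) _) (fun i => by
      have : s i ≤ ∑ i, s i := Finset.single_le_sum (fun _ _ => Nat.zero_le _) (Finset.mem_univ i)
      calc L * s i ≤ L * k := Nat.mul_le_mul_left _ (by omega)
        _ ≤ 2 ^ m := hm2)
  rw [hmk] at hcard hWP
  have hP0 : 0 < P := Finset.prod_pos fun i _ => hn _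
  have hWc : W ≤ c := by
    have b1 : (W : ℝ) * P ≤ (c : ℝ) * P := by
      have : ((∏ i : Fin r, (n i : ℝ))) = (P : ℝ) := by rw [hP]; push_cast; rfl
      rw [this] at hWP
      calc (W : ℝ) * P ≤ _ := hWP
        _ ≤ (((P) * c : ℕ) : ℝ) := h1
        _ = (c : ℝ) * P := by push_cast; ring
    have b2 : (W : ℝ) ≤ c := le_of_mul_le_mul_right b1 (by exact_mod_cast hP0)
    exact_mod_cast b2
  rw [← hcard]
  exact hpack.card_le_tau hWc e

/-- The group `ℤ_{n_1} × ⋯ × ℤ_{n_r}` with the given list of cyclic factors. -/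
abbrev Grp (L : List ℕ) : Type := ∀ i : Fin L.length, ZMod (L.get i)

/-- Splitting off the first factor. -/
def consEquiv (c : ℕ) (l : List ℕ) : Grp (c :: l) ≃+ Grp l × ZMod c where
  toFun f := (fun i => f i.succ, f 0)
  invFun p := Fin.cons (α := fun i : Fin (l.length + 1) => ZMod ((c :: l).get i)) p.2 p.1
  left_inv f := by
    funext i
    refine Fin.cases ?_ (fun i => ?_) i <;> rfl
  right_inv p := rfl
  map_add' p q := rfl

/-- `ext m L` is the type with one more (largest) entry `(m + 1) * head`. -/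
def ext (m : ℕ) (L : List ℕ) : List ℕ := (m + 1) * L.headI :: L

/-- head times product -/
def D (L : List ℕ) : ℕ := L.headI * L.prod

lemma ext_prod (m : ℕ) (L : List ℕ) : (ext m L).prod = (m + 1) * D L := by
  simp [ext, D, mul_assoc]

lemma prod_get (L : List ℕ) : ∏ i : Fin L.length, L.get i = L.prod := by
  simp [Fin.prod_univ_getElem]

theorem tau_eventually (L : List ℕ) (hne : L ≠ []) (hL : IsTypeList L) (q : ℕ) (hq : 1 ≤ q) :
    ∃ n₀ : ℕ, ∀ m : ℕ, n₀ ≤ (m + 1) * D L →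
      (q + 1) * 2 ^ Nat.log 2 ((m + 1) * D L) ≤ q * ((m + 1) * D L) →
      tau (Grp (ext m L)) = Nat.log 2 ((m + 1) * D L) := by
  set r := L.length with hr
  have hhead : 2 ≤ L.headI := hL.head_ge hne
  have hprod : 0 < L.prod := hL.prod_pos
  have hq0 : (0 : ℝ) < q := by exact_mod_cast hq
  -- choose `K`
  have hε' : (1 : ℝ) < 1 + 1 / (q : ℝ) := by
    have : (0 : ℝ) < 1 / (q : ℝ) := by positivity
    linarith
  have hlim : Filter.Tendsto (fun K : ℕ => (1 + 1 / (K : ℝ)) ^ (2 * r)) Filter.atTop (nhds 1) := by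
    have h1 : Filter.Tendsto (fun K : ℕ => (1 : ℝ) / (K : ℝ)) Filter.atTop (nhds 0) :=
      tendsto_one_div_atTop_nhds_zero_nat
    have h2 := (h1.const_add 1).pow (2 * r)
    simpa using h2
  obtain ⟨K, hK⟩ := ((hlim.eventually_lt_const hε').and (Filter.eventually_ge_atTop 1)).exists
  obtain ⟨n₀, hn₀⟩ := eventually_log (2 * (2 * K) ^ (r + 1) * L.prod) 0
  refine ⟨n₀, fun m hm hwin => ?_⟩
  have hc2 : 2 ≤ (m + 1) * L.headI := by nlinarith
  have hget : ∀ i : Fin (ext m L).length, 2 ≤ (ext m L).get i := by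
    intro i
    exact (hL.cons hne m).1 _ (List.get_mem _ _)
  have hne' : ∀ i : Fin (ext m L).length, NeZero ((ext m L).get i) := fun i =>
    ⟨by have := hget i; omega⟩
  have hcard : Fintype.card (Grp (ext m L)) = (m + 1) * D L := by
    rw [Fintype.card_pi, ← ext_prod, ← prod_get]
    exact Finset.prod_congr rfl fun i _ => ZMod.card _
  set N := (m + 1) * D L with hN
  have hNe : N = L.prod * ((m + 1) * L.headI) := by
    rw [hN, D]
    ring
  set k := Nat.log 2 N with hk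
  have hN0 : N ≠ 0 := by
    rw [← hcard]
    exact Fintype.card_ne_zero
  apply le_antisymm
  · have := two_pow_tau_le (G := Grp (ext m L))
    rw [hcard] at this
    exact Nat.le_log_of_pow_le (by norm_num) this
  · refine lowerP r (fun i => L.get i) ((m + 1) * L.headI) K k ?_ hK.2 ?_ ?_ ?_ _
      (consEquiv ((m + 1) * L.headI) L)
    · intro i
      exact le_trans (by norm_num) (hL.1 _ (List.get_mem _ _))
    · rw [prod_get, ← hNe]
      have h1 : ((q : ℝ) + 1) * 2 ^ k ≤ q * N := by exact_mod_cast hwin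
      calc (1 + 1 / (K : ℝ)) ^ (2 * r) * 2 ^ k ≤ (1 + 1 / (q : ℝ)) * 2 ^ k :=
            mul_le_mul_of_nonneg_right hK.1.le (by positivity)
        _ = (((q : ℝ) + 1) * 2 ^ k) / q := by
            field_simp
        _ ≤ (q * N) / q := by gcongr
        _ = N := by field_simp
    · rw [prod_get, ← hNe]
      exact (Nat.lt_pow_succ_log_self (by norm_num) _).trans_le
        (Nat.pow_le_pow_right (by norm_num) (by omega))
    · have h1 := hn₀ N hm
      rw [zero_add, pow_one] at h1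
      have h2 : L.prod * (2 * (2 * K) ^ (r + 1) * k) ≤ L.prod * ((m + 1) * L.headI) := by
        rw [← hNe]
        calc L.prod * (2 * (2 * K) ^ (r + 1) * k) = 2 * (2 * K) ^ (r + 1) * L.prod * k := by ring
          _ ≤ N := h1
      exact Nat.le_of_mul_le_mul_left h2 hprod

/-- The exceptional multipliers. -/
def E (L : List ℕ) (x : ℕ) : Set ℕ :=
  {m | (m + 1) * D L ≤ x ∧ tau (Grp (ext m L)) ≠ Nat.log 2 ((m + 1) * D L)}

lemma D_pos {L : List ℕ} (hne : L ≠ []) (hL : IsTypeList L) : 0 < D L :=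
  Nat.mul_pos (by have := hL.head_ge hne; omega) hL.prod_pos

lemma E_subset {L : List ℕ} (hne : L ≠ []) (hL : IsTypeList L) (x : ℕ) :
    E L x ⊆ ((Finset.range (x / D L) : Finset ℕ) : Set ℕ) := by
  rintro m ⟨hm, -⟩
  rw [Finset.coe_range, Set.mem_Iio]
  have : m + 1 ≤ x / D L := (Nat.le_div_iff_mul_le (D_pos hne hL)).mpr hm
  omega

lemma E_finite {L : List ℕ} (hne : L ≠ []) (hL : IsTypeList L) (x : ℕ) : (E L x).Finite :=
  (Finset.finite_toSet _).subset (E_subset hne hL x)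

lemma E_ncard_le {L : List ℕ} (hne : L ≠ []) (hL : IsTypeList L) (x : ℕ) :
    (E L x).ncard ≤ x / D L := by
  have := Set.ncard_le_ncard (E_subset hne hL x) (Finset.finite_toSet _)
  rwa [Set.ncard_coe_finset, Finset.card_range] at this

lemma window {Dd q p y : ℕ} (hD : 0 < Dd) (h1 : p ≤ y * Dd) (hq : 1 ≤ q)
    (h2 : q * (y * Dd) < (q + 1) * p) :
    y ∈ Finset.Icc ((p + Dd - 1) / Dd) ((p + Dd - 1) / Dd + p / q) := by
  rw [Finset.mem_Icc]
  constructor
  · have : (p + Dd - 1) / Dd < y + 1 := by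
      rw [Nat.div_lt_iff_lt_mul hD]
      calc p + Dd - 1 < p + Dd := by omega
        _ ≤ (y + 1) * Dd := by rw [add_mul, one_mul]; omega
    omega
  · by_contra hcon
    push Not at hcon
    set a := (p + Dd - 1) / Dd with ha
    have h3 : p ≤ a * Dd := by
      have := Nat.lt_div_mul_add (a := p + Dd - 1) hD
      rw [← ha] at this
      omega
    have h4' : a ≤ y := le_trans (Nat.le_add_right _ _) hcon.le
    obtain ⟨t, ht⟩ : ∃ t, y = a + t := ⟨y - a, by omega⟩
    have h4 : p / q < t := by rw [ht] at hcon; exact Nat.lt_of_add_lt_add_left hcon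
    have h5 : p < t * q := (Nat.div_lt_iff_lt_mul (by omega)).mp h4
    have h6 : q * (y * Dd) = q * (a * Dd) + t * q * Dd := by rw [ht]; ring
    have h7 : q * p ≤ q * (a * Dd) := Nat.mul_le_mul_left _ h3
    have h8 : t * q ≤ t * q * Dd := Nat.le_mul_of_pos_right _ hD
    rw [add_mul, one_mul] at h2
    omega

lemma E_card_bound {L : List ℕ} (hne : L ≠ []) (hL : IsTypeList L) (q : ℕ) (hq : 1 ≤ q) :
    ∃ n₀ : ℕ, ∀ x : ℕ, 1 ≤ x → q * (E L x).ncard ≤ q * (n₀ + Nat.log 2 x + 1) + 2 * x := by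
  classical
  obtain ⟨n₀, hn₀⟩ := tau_eventually L hne hL q hq
  have hD := D_pos hne hL
  refine ⟨n₀, fun x hx => ?_⟩
  set I : ℕ → Finset ℕ := fun k =>
    (Finset.Icc ((2 ^ k + D L - 1) / D L) ((2 ^ k + D L - 1) / D L + 2 ^ k / q)).image (· - 1)
    with hI
  have hsub : E L x ⊆ ((Finset.range n₀ ∪ (Finset.range (Nat.log 2 x + 1)).biUnion I : Finset ℕ) :
      Set ℕ) := by
    rintro m ⟨hm, htau⟩
    rw [Finset.mem_coe, Finset.mem_union]
    by_cases hmn : n₀ ≤ (m + 1) * D L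
    · right
      have h0 : ¬ (q + 1) * 2 ^ Nat.log 2 ((m + 1) * D L) ≤ q * ((m + 1) * D L) :=
        fun h => htau (hn₀ m hmn h)
      push Not at h0
      rw [Finset.mem_biUnion]
      refine ⟨Nat.log 2 ((m + 1) * D L), ?_, ?_⟩
      · rw [Finset.mem_range]
        exact Nat.lt_succ_of_le (Nat.log_mono_right hm)
      · rw [hI, Finset.mem_image]
        refine ⟨m + 1, window hD (Nat.pow_log_le_self 2 ?_) hq h0, by simp⟩
        exact (Nat.mul_pos (Nat.succ_pos m) hD).ne'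
    · left
      push Not at hmn
      rw [Finset.mem_range]
      calc m < m + 1 := Nat.lt_succ_self m
        _ ≤ (m + 1) * D L := Nat.le_mul_of_pos_right _ hD
        _ < n₀ := hmn
  have h1 := Set.ncard_le_ncard hsub (Finset.finite_toSet _)
  rw [Set.ncard_coe_finset] at h1
  have h2 : (Finset.range n₀ ∪ (Finset.range (Nat.log 2 x + 1)).biUnion I).card ≤
      n₀ + ∑ k ∈ Finset.range (Nat.log 2 x + 1), (2 ^ k / q + 1) := by
    refine (Finset.card_union_le _ _).trans ?_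
    rw [Finset.card_range]
    gcongr
    refine Finset.card_biUnion_le.trans (Finset.sum_le_sum fun k _ => ?_)
    refine Finset.card_image_le.trans ?_
    rw [Nat.card_Icc]
    have : ∀ a b : ℕ, a + b + 1 - a ≤ b + 1 := fun a b => by omega
    exact this _ _
  have h3 : q * ∑ k ∈ Finset.range (Nat.log 2 x + 1), (2 ^ k / q + 1) ≤
      2 * x + q * (Nat.log 2 x + 1) := by
    rw [Finset.sum_add_distrib, mul_add, Finset.mul_sum]
    have a1 : ∑ k ∈ Finset.range (Nat.log 2 x + 1), q * (2 ^ k / q) ≤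
        ∑ k ∈ Finset.range (Nat.log 2 x + 1), 2 ^ k :=
      Finset.sum_le_sum fun k _ => Nat.mul_div_le _ _
    have a2 : ∑ k ∈ Finset.range (Nat.log 2 x + 1), 2 ^ k < 2 ^ (Nat.log 2 x + 1) := by
      exact Nat.geomSum_lt (by norm_num) (fun k hk => Finset.mem_range.mp hk)
    have a3 : 2 ^ (Nat.log 2 x + 1) ≤ 2 * x := by
      rw [pow_succ']
      exact Nat.mul_le_mul_left _ (Nat.pow_log_le_self 2 (by omega))
    simp only [Finset.sum_const, Finset.card_range, smul_eq_mul, mul_one]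
    omega
  calc q * (E L x).ncard ≤ q * (n₀ + ∑ k ∈ Finset.range (Nat.log 2 x + 1), (2 ^ k / q + 1)) :=
        Nat.mul_le_mul_left _ (h1.trans h2)
    _ = q * n₀ + q * ∑ k ∈ Finset.range (Nat.log 2 x + 1), (2 ^ k / q + 1) := mul_add _ _ _
    _ ≤ q * n₀ + (2 * x + q * (Nat.log 2 x + 1)) := by omega
    _ = q * (n₀ + Nat.log 2 x + 1) + 2 * x := by ring

lemma E_tendsto {L : List ℕ} (hne : L ≠ []) (hL : IsTypeList L) :
    Filter.Tendsto (fun x : ℕ => ((E L x).ncard : ℝ) / x) Filter.atTop (nhds 0) := by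
  rw [Metric.tendsto_atTop]
  intro δ hδ
  obtain ⟨q, hq⟩ := exists_nat_gt (max (8 / δ) 1)
  have hq1 : (1 : ℝ) < q := lt_of_le_of_lt (le_max_right _ _) hq
  have hqδ : 8 / δ < q := lt_of_le_of_lt (le_max_left _ _) hq
  have hq1' : 1 ≤ q := by exact_mod_cast hq1.le
  have hqδ' : 8 < δ * q := by
    rw [div_lt_iff₀ hδ] at hqδ
    linarith
  obtain ⟨n₀, hn₀⟩ := E_card_bound hne hL q hq1'
  obtain ⟨n₁, hn₁⟩ := eventually_log q 0
  refine ⟨max (max n₁ (q * (n₀ + 1))) 1, fun x hx => ?_⟩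
  have hx1 : 1 ≤ x := le_trans (le_max_right _ _) hx
  have hxa : n₁ ≤ x := le_trans ((le_max_left _ _).trans (le_max_left _ _)) hx
  have hxb : q * (n₀ + 1) ≤ x := le_trans ((le_max_right _ _).trans (le_max_left _ _)) hx
  have h1 := hn₀ x hx1
  have h2 := hn₁ x hxa
  rw [zero_add, pow_one] at h2
  have hx0 : (0 : ℝ) < x := by exact_mod_cast hx1
  have h3 : q * (E L x).ncard ≤ 4 * x := by
    calc q * (E L x).ncard ≤ q * (n₀ + Nat.log 2 x + 1) + 2 * x := h1
      _ = q * (n₀ + 1) + q * Nat.log 2 x + 2 * x := by ring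
      _ ≤ 4 * x := by omega
  have h4 : (q : ℝ) * (E L x).ncard ≤ 4 * x := by exact_mod_cast h3
  rw [Real.dist_eq, sub_zero, abs_of_nonneg (by positivity), div_lt_iff₀ hx0]
  have h5 : (q : ℝ) * (E L x).ncard < q * (δ * x) := by
    calc (q : ℝ) * (E L x).ncard ≤ 4 * x := h4
      _ < (δ * q) * x := by nlinarith
      _ = q * (δ * x) := by ring
  exact lt_of_mul_lt_mul_left h5 (by positivity)

end Pool.Agent.Results.MP_3a3582_co.AlmostAll
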