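import Pool.Agent.Helper934.AA2

open Finset
open Pool.Agent.Results.MP_3a3582_co.BoundedRank

namespace Pool.Agent.Results.MP_3a3582_co.AlmostAll

/-- The types of the noncyclic groups of order at most `x`. -/
def Types (x : ℕ) : Set (List ℕ) := {L | 2 ≤ L.length ∧ IsTypeList L ∧ L.prod ≤ x}

/-- The types of the noncyclic groups `G` of order at most `x` with `τ(G) ≠ ⌊log₂ |G|⌋`. -/
def Exceptions (x : ℕ) : Set (List ℕ) := {L ∈ Types x | tau (Grp L) ≠ Nat.log 2 L.prod}

lemma Types_finite (x : ℕ) : (Types x).Finite := by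
  refine ((List.finite_length_le (Fin (x + 1)) x).image (List.map Fin.val)).subset ?_
  rintro L ⟨-, hL, hprod⟩
  have hent : ∀ n ∈ L, n < x + 1 := by
    intro n hn
    have := Nat.le_of_dvd hL.prod_pos (List.dvd_prod hn)
    omega
  have hlen : L.length ≤ x := by
    have h1 := List.pow_card_le_prod L 2 hL.1
    have h2 : L.length < 2 ^ L.length := Nat.lt_two_pow_self
    omega
  refine ⟨L.pmap (fun n hn => ⟨n, hn⟩) hent, ?_, ?_⟩
  · simpa using hlen
  · rw [List.map_pmap]
    simp

lemma Exceptions_finite (x : ℕ) : (Exceptions x).Finite :=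
  (Types_finite x).subset fun _ h => h.1

lemma types_lower (x : ℕ) : x / 4 ≤ (Types x).ncard := by
  have hsub : (((Finset.range (x / 4)).image fun m => [2 * (m + 1), 2] : Finset (List ℕ)) :
      Set (List ℕ)) ⊆ Types x := by
    intro L hL
    rw [Finset.mem_coe, Finset.mem_image] at hL
    obtain ⟨m, hm, rfl⟩ := hL
    rw [Finset.mem_range] at hm
    refine ⟨by simp, ⟨?_, ?_⟩, ?_⟩
    · intro n hn
      simp only [List.mem_cons, List.not_mem_nil, or_false] at hn
      rcases hn with rfl | rfl <;> omega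
    · simp
    · simp only [List.prod_cons, List.prod_nil, mul_one]
      omega
  have h1 := Set.ncard_le_ncard hsub (Types_finite x)
  rw [Set.ncard_coe_finset, Finset.card_image_of_injective, Finset.card_range] at h1
  · exact h1
  · intro a b hab
    simp at hab
    exact hab

/-- Constructor. -/
def NT.mk' (L : List ℕ) (h : L ≠ [] ∧ IsTypeList L) : NT := ⟨L, h⟩

/-- The tail of a list, as an element of `NT`. -/
noncomputable def tl (L : List ℕ) : NT :=
  open Classical in
  if h : L.tail ≠ [] ∧ IsTypeList L.tail then NT.mk' L.tail h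
  else NT.mk' [2] ⟨by simp, by simp [IsTypeList]⟩

lemma exceptions_eq {L : List ℕ} {x : ℕ} (hL : L ∈ Exceptions x) :
    ∃ m ∈ E (tl L).1 x, L = ext m (tl L).1 := by
  obtain ⟨⟨hlen, hty, hprod⟩, htau⟩ := hL
  cases L with
  | nil => simp at hlen
  | cons a l =>
    cases l with
    | nil => simp at hlen
    | cons b l =>
      have htl : (tl (a :: b :: l)).1 = b :: l := by
        unfold tl
        rw [dif_pos (show (a :: b :: l).tail ≠ [] ∧ IsTypeList (a :: b :: l).tail from
          ⟨by simp, hty.tail⟩)]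
        rfl
      rw [htl]
      have hdvd : b ∣ a := (List.pairwise_cons.mp hty.2).1 b List.mem_cons_self
      obtain ⟨m, hm⟩ := hdvd
      have ha : 2 ≤ a := hty.1 a List.mem_cons_self
      have hm0 : m ≠ 0 := by
        rintro rfl
        omega
      have hext : a :: b :: l = ext (m - 1) (b :: l) := by
        unfold ext
        rw [List.headI_cons, Nat.sub_add_cancel (Nat.one_le_iff_ne_zero.mpr hm0), hm, mul_comm]
      refine ⟨m - 1, ⟨?_, ?_⟩, hext⟩
      · rw [← ext_prod, ← hext]
        exact hprod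
      · rw [← ext_prod, ← hext]
        exact htau

lemma exceptions_le (x : ℕ) : ∃ S : Finset NT,
    (Exceptions x).ncard ≤ ∑ L ∈ S, (E L.1 x).ncard := by
  classical
  set X := (Exceptions_finite x).toFinset with hX
  refine ⟨X.image tl, ?_⟩
  rw [Set.ncard_eq_toFinset_card _ (Exceptions_finite x), ← hX,
    Finset.card_eq_sum_card_image tl X]
  refine Finset.sum_le_sum fun b _ => ?_
  have hsub : (((X.filter fun a => tl a = b) : Finset (List ℕ)) : Set (List ℕ)) ⊆
      (fun m => ext m b.1) '' E b.1 x := by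
    intro L hL
    rw [Finset.mem_coe, Finset.mem_filter, hX, Set.Finite.mem_toFinset] at hL
    obtain ⟨hL, rfl⟩ := hL
    obtain ⟨m, hm, hm2⟩ := exceptions_eq hL
    exact ⟨m, hm, hm2.symm⟩
  have hfin := E_finite b.2.1 b.2.2 x
  rw [← Set.ncard_coe_finset]
  exact (Set.ncard_le_ncard hsub (hfin.image _)).trans (Set.ncard_image_le hfin)

lemma summable_inv : Summable fun L : NT => ((D L.1 : ℝ))⁻¹ := by
  have h := ENNReal.summable_toReal total_lt_top
  refine h.congr fun L => ?_
  unfold wt D
  rw [pow_one, ENNReal.toReal_inv, ENNReal.toReal_mul, ENNReal.toReal_natCast,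
    ENNReal.toReal_natCast, Nat.cast_mul]

lemma F_bound (x : ℕ) (L : NT) : ((E L.1 x).ncard : ℝ) / x ≤ ((D L.1 : ℝ))⁻¹ := by
  rcases Nat.eq_zero_or_pos x with rfl | hx
  · simp
  · have h1 := E_ncard_le L.2.1 L.2.2 x
    have hD : (0 : ℝ) < D L.1 := by exact_mod_cast D_pos L.2.1 L.2.2
    have hx' : (0 : ℝ) < x := by exact_mod_cast hx
    rw [div_le_iff₀ hx', ← div_eq_inv_mul]
    calc ((E L.1 x).ncard : ℝ) ≤ ((x / D L.1 : ℕ) : ℝ) := by exact_mod_cast h1
      _ ≤ (x : ℝ) / D L.1 := Nat.cast_div_le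

lemma sum_tendsto :
    Filter.Tendsto (fun x : ℕ => ∑' L : NT, ((E L.1 x).ncard : ℝ) / x) Filter.atTop (nhds 0) := by
  have h := tendsto_tsum_of_dominated_convergence (𝓕 := Filter.atTop)
    (f := fun (x : ℕ) (L : NT) => ((E L.1 x).ncard : ℝ) / x) (g := fun _ => (0 : ℝ))
    (bound := fun L : NT => ((D L.1 : ℝ))⁻¹) summable_inv
    (fun L => E_tendsto L.2.1 L.2.2) (Filter.Eventually.of_forall fun x L => by
      rw [Real.norm_of_nonneg (by positivity)]
      exact F_bound x L)
  simpa using h

lemma exceptions_tendsto :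
    Filter.Tendsto (fun x : ℕ => ((Exceptions x).ncard : ℝ) / x) Filter.atTop (nhds 0) := by
  refine squeeze_zero (fun x => by positivity) (fun x => ?_) sum_tendsto
  obtain ⟨S, hS⟩ := exceptions_le x
  have hsum : Summable fun L : NT => ((E L.1 x).ncard : ℝ) / x :=
    Summable.of_nonneg_of_le (fun L => by positivity) (fun L => F_bound x L) summable_inv
  calc ((Exceptions x).ncard : ℝ) / x ≤ (∑ L ∈ S, ((E L.1 x).ncard : ℝ)) / x := by
        gcongr
        exact_mod_cast hS
    _ = ∑ L ∈ S, ((E L.1 x).ncard : ℝ) / x := Finset.sum_div _ _ _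
    _ ≤ _ := hsum.sum_le_tsum S fun L _ => by positivity

theorem density : Filter.Tendsto
    (fun x : ℕ => ((Exceptions x).ncard : ℝ) / ((Types x).ncard : ℝ)) Filter.atTop (nhds 0) := by
  have h := exceptions_tendsto.const_mul 8
  rw [mul_zero] at h
  refine squeeze_zero' (Filter.Eventually.of_forall fun x => by positivity) ?_ h
  filter_upwards [Filter.eventually_ge_atTop 8] with x hx
  have hx0 : (0 : ℝ) < x := by exact_mod_cast (by omega : 0 < x)
  have h1 := types_lower x
  have h2 : x ≤ 8 * (Types x).ncard := by omega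
  have h3 : (x : ℝ) ≤ 8 * (Types x).ncard := by exact_mod_cast h2
  have h4 : (0 : ℝ) < (Types x).ncard := by nlinarith
  rw [div_le_iff₀ h4]
  have h5 : (0 : ℝ) ≤ ((Exceptions x).ncard : ℝ) / x := by positivity
  calc ((Exceptions x).ncard : ℝ) = (((Exceptions x).ncard : ℝ) / x) * x := by
        field_simp
    _ ≤ (((Exceptions x).ncard : ℝ) / x) * (8 * (Types x).ncard) :=
        mul_le_mul_of_nonneg_left h3 h5
    _ = 8 * (((Exceptions x).ncard : ℝ) / x) * (Types x).ncard := by ring

end Pool.Agent.Results.MP_3a3582_co.AlmostAll
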