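import Pool.Agent.Helper934.AA3

open Finset
open Pool.Agent.Results.MP_3a3582_co.BoundedRank

namespace Pool.Agent.Results.MP_3a3582_co.AlmostAll

theorem fixed_rank (R : ℕ) (ε : ℝ) (hε : 0 < ε) : ∃ n₀ : ℕ, ∀ L : List ℕ, IsTypeList L →
    L.length ≤ R → n₀ ≤ L.prod →
    (tau (Grp L) = Nat.log 2 L.prod ∨ tau (Grp L) + 1 = Nat.log 2 L.prod) ∧
    ((1 + ε) * 2 ^ Nat.log 2 L.prod ≤ (L.prod : ℝ) → tau (Grp L) = Nat.log 2 L.prod) := by
  have hε' : (1 : ℝ) < 1 + min ε 1 := by
    have : 0 < min ε 1 := lt_min hε one_pos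
    linarith
  have hlim : Filter.Tendsto (fun K : ℕ => (1 + 1 / (K : ℝ)) ^ (2 * R)) Filter.atTop (nhds 1) := by
    have h1 : Filter.Tendsto (fun K : ℕ => (1 : ℝ) / (K : ℝ)) Filter.atTop (nhds 0) :=
      tendsto_one_div_atTop_nhds_zero_nat
    have h2 := (h1.const_add 1).pow (2 * R)
    simpa using h2
  obtain ⟨K, hK⟩ := ((hlim.eventually_lt_const hε').and (Filter.eventually_ge_atTop 1)).exists
  obtain ⟨n₀, hn₀⟩ := eventually_log (2 * (2 * K) ^ (R + 1)) R
  refine ⟨max n₀ 2, ?_⟩
  intro L hL hlen hN
  cases L with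
  | nil =>
    rw [List.prod_nil] at hN
    omega
  | cons c l =>
    have hr : l.length + 1 ≤ R := by simpa using hlen
    have hK0 : (0 : ℝ) < K := by exact_mod_cast hK.2
    have hX1 : (1 : ℝ) ≤ 1 + 1 / (K : ℝ) := by
      have : (0 : ℝ) ≤ 1 / (K : ℝ) := by positivity
      linarith
    have hX : (1 + 1 / (K : ℝ)) ^ (2 * l.length) ≤ 1 + min ε 1 :=
      (pow_le_pow_right₀ hX1 (by omega)).trans hK.1.le
    have hne : ∀ i : Fin (c :: l).length, NeZero ((c :: l).get i) := fun i =>
      ⟨by have := hL.1 _ (List.get_mem (c :: l) i); omega⟩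
    have hcard : Fintype.card (Grp (c :: l)) = (c :: l).prod := by
      rw [Fintype.card_pi, ← prod_get]
      exact Finset.prod_congr rfl fun i _ => ZMod.card _
    set N := (c :: l).prod with hNdef
    have hNe : N = l.prod * c := by rw [hNdef, List.prod_cons, mul_comm]
    set k := Nat.log 2 N with hk
    have hN0 : N ≠ 0 := by
      rw [← hcard]
      exact Fintype.card_ne_zero
    have hup : tau (Grp (c :: l)) ≤ k := by
      have := two_pow_tau_le (G := Grp (c :: l))
      rw [hcard] at this
      exact Nat.le_log_of_pow_le (by norm_num) this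
    have hk1 : 2 ^ k ≤ N := Nat.pow_log_le_self 2 hN0
    have hk2 : N < 2 ^ (k + 1) := Nat.lt_pow_succ_log_self (by norm_num) _
    -- the largest entry
    have hcN : N ≤ c ^ (R + 1) := by
      have hc1 : 1 ≤ c := le_trans (by norm_num) (hL.1 c List.mem_cons_self)
      have h1 : N ≤ c ^ (c :: l).length := by
        refine List.prod_le_pow_card (c :: l) c fun x hx => ?_
        rcases List.mem_cons.mp hx with rfl | hx
        · exact le_rfl
        · exact Nat.le_of_dvd hc1 ((List.pairwise_cons.mp hL.2).1 x hx)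
      exact h1.trans (Nat.pow_le_pow_right hc1 (by omega))
    have hc : 2 * (2 * K) ^ (R + 1) * k ≤ c := by
      have := (hn₀ N (le_trans (le_max_left _ _) hN)).trans hcN
      exact (Nat.pow_le_pow_iff_left (by omega)).mp this
    have hlow : ∀ k' : ℕ, k' ≤ k → k ≤ k' + 1 →
        (1 + 1 / (K : ℝ)) ^ (2 * l.length) * 2 ^ k' ≤ (N : ℝ) → k' ≤ tau (Grp (c :: l)) := by
      intro k' h1 h2 h3
      refine lowerP l.length (fun i => l.get i) c K k' ?_ hK.2 ?_ ?_ ?_ _ (consEquiv c l)
      · intro i
        exact le_trans (by norm_num) (hL.1 _ (List.mem_cons_of_mem _ (List.get_mem _ _)))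
      · rw [prod_get, ← hNe]
        exact h3
      · rw [prod_get, ← hNe]
        exact hk2.trans_le (Nat.pow_le_pow_right (by norm_num) (by omega))
      · refine le_trans ?_ hc
        refine Nat.mul_le_mul (Nat.mul_le_mul_left _ (Nat.pow_le_pow_right ?_ (by omega))) h1
        have := hK.2
        omega
    constructor
    · have h4 : k - 1 ≤ tau (Grp (c :: l)) := by
        rcases Nat.eq_zero_or_pos k with h0 | h0
        · omega
        · refine hlow (k - 1) (by omega) (by omega) ?_
          calc (1 + 1 / (K : ℝ)) ^ (2 * l.length) * 2 ^ (k - 1) ≤ 2 * 2 ^ (k - 1) := by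
                refine mul_le_mul_of_nonneg_right (hX.trans ?_) (by positivity)
                linarith [min_le_right ε 1]
            _ = 2 ^ k := by
                rw [← pow_succ']
                congr 1
                omega
            _ ≤ _ := by exact_mod_cast hk1
      omega
    · intro h
      refine le_antisymm hup (hlow k le_rfl (by omega) (le_trans ?_ h))
      refine mul_le_mul_of_nonneg_right (hX.trans ?_) (by positivity)
      linarith [min_le_left ε 1]

end Pool.Agent.Results.MP_3a3582_co.AlmostAll
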