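import Pool.Agent.Helper934.AA4

open Finset
open Pool.Agent.Results.MP_3a3582_co.BoundedRank

namespace Pool.Agent.Results.MP_3a3582_co.AlmostAll

/-- The explicit lower bound for one type. -/
lemma explicit_list (c : ℕ) (l : List ℕ) (hL : IsTypeList (c :: l)) (R : ℕ)
    (hr : l.length + 1 ≤ R) (K : ℕ) (hK : 1 ≤ K)
    (hc : 2 * (2 * K) ^ R * Nat.log 2 (c :: l).prod ≤ c)
    (h : (1 + 1 / (K : ℝ)) ^ (2 * R) * 2 ^ Nat.log 2 (c :: l).prod ≤ ((c :: l).prod : ℝ)) :
    tau (Grp (c :: l)) = Nat.log 2 (c :: l).prod := by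
  have hK0 : (0 : ℝ) < K := by exact_mod_cast hK
  have hX1 : (1 : ℝ) ≤ 1 + 1 / (K : ℝ) := by
    have : (0 : ℝ) ≤ 1 / (K : ℝ) := by positivity
    linarith
  have hne : ∀ i : Fin (c :: l).length, NeZero ((c :: l).get i) := fun i =>
    ⟨by have := hL.1 _ (List.get_mem (c :: l) i); omega⟩
  have hcard : Fintype.card (Grp (c :: l)) = (c :: l).prod := by
    rw [Fintype.card_pi, ← prod_get]
    exact Finset.prod_congr rfl fun i _ => ZMod.card _
  set N := (c :: l).prod with hNdef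
  have hNe : N = l.prod * c := by rw [hNdef, List.prod_cons, mul_comm]
  set k := Nat.log 2 N with hk
  have hN0 : N ≠ 0 := by
    rw [← hcard]
    exact Fintype.card_ne_zero
  have hup : tau (Grp (c :: l)) ≤ k := by
    have := two_pow_tau_le (G := Grp (c :: l))
    rw [hcard] at this
    exact Nat.le_log_of_pow_le (by norm_num) this
  have hk2 : N < 2 ^ (k + 1) := Nat.lt_pow_succ_log_self (by norm_num) _
  refine le_antisymm hup ?_
  refine lowerP l.length (fun i => l.get i) c K k ?_ hK ?_ ?_ ?_ _ (consEquiv c l)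
  · intro i
    exact le_trans (by norm_num) (hL.1 _ (List.mem_cons_of_mem _ (List.get_mem _ _)))
  · rw [prod_get, ← hNe]
    refine le_trans ?_ h
    exact mul_le_mul_of_nonneg_right (pow_le_pow_right₀ hX1 (by omega)) (by positivity)
  · rw [prod_get, ← hNe]
    exact hk2.trans_le (Nat.pow_le_pow_right (by norm_num) (by omega))
  · refine le_trans ?_ hc
    exact Nat.mul_le_mul_right _ (Nat.mul_le_mul_left _ (Nat.pow_le_pow_right (by omega) hr))

lemma one_add_pow_le {x : ℝ} (h0 : 0 ≤ x) (h1 : x ≤ 1) (m : ℕ) :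
    (1 + x) ^ m ≤ 1 + (2 ^ m - 1) * x := by
  induction m with
  | zero => simp
  | succ m ih =>
    have h2 : (1 : ℝ) ≤ 2 ^ m := one_le_pow₀ (by norm_num)
    calc (1 + x) ^ (m + 1) = (1 + x) ^ m * (1 + x) := pow_succ _ _
      _ ≤ (1 + (2 ^ m - 1) * x) * (1 + x) := mul_le_mul_of_nonneg_right ih (by linarith)
      _ ≤ 1 + (2 ^ (m + 1) - 1) * x := by
          rw [pow_succ]
          nlinarith [mul_nonneg (sub_nonneg.mpr h2) (mul_nonneg h0 (sub_nonneg.mpr h1))]

lemma eventually_log_rpow (M : ℝ) (hM : 0 < M) (r : ℝ) (hr : 0 < r) :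
    ∀ᶠ N : ℕ in Filter.atTop, M * (Nat.log 2 N : ℝ) ≤ (N : ℝ) ^ r := by
  have hl2 : 0 < Real.log 2 := Real.log_pos (by norm_num)
  have h := (isLittleO_log_rpow_atTop hr).def (c := Real.log 2 / M) (by positivity)
  have h' := (tendsto_natCast_atTop_atTop (R := ℝ)).eventually h
  filter_upwards [h', Filter.eventually_ge_atTop 1] with N h1 hN
  have hNr : (1 : ℝ) ≤ N := by exact_mod_cast hN
  have hlog0 : 0 ≤ Real.log N := Real.log_nonneg hNr
  rw [Real.norm_of_nonneg hlog0, Real.norm_of_nonneg (by positivity)] at h1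
  have h2 : (Nat.log 2 N : ℝ) ≤ Real.log N / Real.log 2 := by
    have := Real.natLog_le_logb N 2
    simpa [Real.logb] using this
  calc M * (Nat.log 2 N : ℝ) ≤ M * (Real.log N / Real.log 2) :=
        mul_le_mul_of_nonneg_left h2 hM.le
    _ ≤ M * ((Real.log 2 / M * (N : ℝ) ^ r) / Real.log 2) := by gcongr
    _ = (N : ℝ) ^ r := by field_simp

theorem fixed_rank_power (R : ℕ) (hR : 1 ≤ R) (δ : ℝ) (hδ : 0 < δ) : ∃ n₀ : ℕ, ∀ L : List ℕ,
    IsTypeList L → L.length ≤ R → n₀ ≤ L.prod →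
    (tau (Grp L) = Nat.log 2 L.prod ∨ tau (Grp L) + 1 = Nat.log 2 L.prod) ∧
    (2 ^ Nat.log 2 L.prod + (L.prod : ℝ) ^ (1 - 1 / (R : ℝ) ^ 2 + δ) ≤ (L.prod : ℝ) →
      tau (Grp L) = Nat.log 2 L.prod) := by
  obtain ⟨n₁, hn₁⟩ := fixed_rank R 1 one_pos
  have hR0 : (0 : ℝ) < R := by exact_mod_cast hR
  obtain ⟨n₂, hn₂⟩ := Filter.eventually_atTop.mp
    (eventually_log_rpow (2 * 4 ^ R) (by positivity) (R * (δ / 2)) (by positivity))
  have htend : Filter.Tendsto (fun N : ℕ => (N : ℝ) ^ (δ / 2)) Filter.atTop Filter.atTop :=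
    (tendsto_rpow_atTop (by positivity)).comp tendsto_natCast_atTop_atTop
  obtain ⟨n₃, hn₃⟩ := Filter.eventually_atTop.mp (htend.eventually_ge_atTop ((4 : ℝ) ^ R))
  refine ⟨max (max n₁ n₂) (max n₃ 2), ?_⟩
  intro L hL hlen hN
  have hN1 : n₁ ≤ L.prod := le_trans ((le_max_left _ _).trans (le_max_left _ _)) hN
  have hN2 : n₂ ≤ L.prod := le_trans ((le_max_right _ _).trans (le_max_left _ _)) hN
  have hN3 : n₃ ≤ L.prod := le_trans ((le_max_left _ _).trans (le_max_right _ _)) hN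
  have hN4 : 2 ≤ L.prod := le_trans ((le_max_right _ _).trans (le_max_right _ _)) hN
  refine ⟨(hn₁ L hL hlen hN1).1, fun h => ?_⟩
  have e1 := hn₂ _ hN2
  have e2 := hn₃ _ hN3
  cases L with
  | nil =>
    rw [List.prod_nil] at hN4
    omega
  | cons c l =>
    have hr : l.length + 1 ≤ R := by simpa using hlen
    set N := (c :: l).prod with hNdef
    set k := Nat.log 2 N with hk
    have hNr : (1 : ℝ) < N := by exact_mod_cast (by omega : 1 < N)
    have hN0 : (0 : ℝ) < N := by linarith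
    have hc1 : 1 ≤ c := le_trans (by norm_num) (hL.1 c List.mem_cons_self)
    set α : ℝ := 1 / (R : ℝ) ^ 2 with hα
    -- the case of large `δ` is void
    rcases le_or_gt α δ with hαδ | hαδ
    · exfalso
      have h1 : (N : ℝ) ^ (1 : ℝ) ≤ (N : ℝ) ^ (1 - α + δ) :=
        Real.rpow_le_rpow_of_exponent_le hNr.le (by linarith)
      rw [Real.rpow_one] at h1
      have h2 : (0 : ℝ) < 2 ^ k := by positivity
      linarith
    set β : ℝ := α - δ / 2 with hβ
    have hβ0 : 0 < β := by rw [hβ]; linarith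
    have hNβ : (1 : ℝ) ≤ (N : ℝ) ^ β := Real.one_le_rpow hNr.le hβ0.le
    set K : ℕ := ⌈(N : ℝ) ^ β⌉₊ with hKdef
    have hK1 : (N : ℝ) ^ β ≤ K := Nat.le_ceil _
    have hK2 : (K : ℝ) ≤ 2 * (N : ℝ) ^ β := by
      have := (Nat.ceil_lt_add_one (by positivity : (0 : ℝ) ≤ (N : ℝ) ^ β)).le
      rw [← hKdef] at this
      linarith
    have hK : 1 ≤ K := by
      have : (1 : ℝ) ≤ K := hNβ.trans hK1
      exact_mod_cast this
    have hK0 : (0 : ℝ) < K := by exact_mod_cast hK
    -- the largest entry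
    have hcN : (N : ℝ) ^ (1 / (R : ℝ)) ≤ c := by
      have h1 : N ≤ c ^ R := by
        have h1 : N ≤ c ^ (c :: l).length := by
          refine List.prod_le_pow_card (c :: l) c fun x hx => ?_
          rcases List.mem_cons.mp hx with rfl | hx
          · exact le_rfl
          · exact Nat.le_of_dvd hc1 ((List.pairwise_cons.mp hL.2).1 x hx)
        exact h1.trans (Nat.pow_le_pow_right hc1 hlen)
      have h2 : (N : ℝ) ≤ (c : ℝ) ^ R := by exact_mod_cast h1
      calc (N : ℝ) ^ (1 / (R : ℝ)) ≤ ((c : ℝ) ^ R) ^ (1 / (R : ℝ)) :=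
            Real.rpow_le_rpow hN0.le h2 (by positivity)
        _ = c := by
            rw [one_div, Real.pow_rpow_inv_natCast (Nat.cast_nonneg _) (by omega)]
    have hcond : 2 * (2 * K) ^ R * k ≤ c := by
      have h1 : ((2 * (2 * K) ^ R * k : ℕ) : ℝ) ≤ c := by
        push_cast
        have hKK : 2 * (K : ℝ) ≤ 4 * (N : ℝ) ^ β := by linarith
        calc 2 * (2 * (K : ℝ)) ^ R * (k : ℝ) ≤ 2 * (4 * (N : ℝ) ^ β) ^ R * k :=
              mul_le_mul_of_nonneg_right (mul_le_mul_of_nonneg_left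
                (pow_le_pow_left₀ (by positivity) hKK R) (by norm_num)) (Nat.cast_nonneg _)
          _ = (2 * 4 ^ R * (k : ℝ)) * (N : ℝ) ^ (β * R) := by
              rw [mul_pow, ← Real.rpow_natCast ((N : ℝ) ^ β) R, ← Real.rpow_mul hN0.le]
              ring
          _ ≤ (N : ℝ) ^ (R * (δ / 2)) * (N : ℝ) ^ (β * R) :=
              mul_le_mul_of_nonneg_right e1 (by positivity)
          _ = (N : ℝ) ^ (1 / (R : ℝ)) := by
              rw [← Real.rpow_add hN0]
              congr 1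
              rw [hβ, hα]
              field_simp
              ring
          _ ≤ c := hcN
      exact_mod_cast h1
    refine explicit_list c l hL R hr K hK hcond ?_
    have hx0 : (0 : ℝ) ≤ 1 / (K : ℝ) := by positivity
    have hx1 : 1 / (K : ℝ) ≤ 1 := by
      rw [div_le_one hK0]
      exact_mod_cast hK
    have hk1 : (2 : ℝ) ^ k ≤ N := by
      have : 2 ^ k ≤ N := Nat.pow_log_le_self 2 (by omega)
      exact_mod_cast this
    calc (1 + 1 / (K : ℝ)) ^ (2 * R) * 2 ^ k
        ≤ (1 + (2 ^ (2 * R) - 1) * (1 / (K : ℝ))) * 2 ^ k :=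
          mul_le_mul_of_nonneg_right (one_add_pow_le hx0 hx1 _) (by positivity)
      _ ≤ (1 + 4 ^ R * (1 / (K : ℝ))) * 2 ^ k := by
          gcongr
          rw [pow_mul]
          norm_num
      _ = 2 ^ k + 4 ^ R * (2 ^ k / K) := by ring
      _ ≤ 2 ^ k + (N : ℝ) ^ (δ / 2) * ((N : ℝ) / (N : ℝ) ^ β) := by
          gcongr
      _ = 2 ^ k + (N : ℝ) ^ (1 - α + δ) := by
          congr 1
          rw [mul_div_assoc', ← Real.rpow_add_one hN0.ne', ← Real.rpow_sub hN0]
          congr 1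
          rw [hβ]
          ring
      _ ≤ N := h

end Pool.Agent.Results.MP_3a3582_co.AlmostAll
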