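import Pool.Agent.Helper934.AA5

open Finset
open Pool.Agent.Results.MP_3a3582_co.BoundedRank

namespace Pool.Agent.Results.MP_3a3582_co.AlmostAll

theorem fixed_rank_sharp (R : ℕ) (hR : 1 ≤ R) (δ : ℝ) (hδ : 0 < δ) : ∃ n₀ : ℕ, ∀ L : List ℕ,
    IsTypeList L → L.length ≤ R → n₀ ≤ L.prod →
    (tau (Grp L) = Nat.log 2 L.prod ∨ tau (Grp L) + 1 = Nat.log 2 L.prod) ∧
    (2 ^ Nat.log 2 L.prod + (L.prod : ℝ) ^ (1 + δ) / (L.headI : ℝ) ^ (1 / (R : ℝ)) ≤
      (L.prod : ℝ) → tau (Grp L) = Nat.log 2 L.prod) := by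
  obtain ⟨n₁, hn₁⟩ := fixed_rank R 1 one_pos
  have hR0 : (0 : ℝ) < R := by exact_mod_cast hR
  obtain ⟨n₂, hn₂⟩ := Filter.eventually_atTop.mp
    (eventually_log_rpow (2 * 4 ^ R) (by positivity) (R * (δ / 2)) (by positivity))
  have htend : Filter.Tendsto (fun N : ℕ => (N : ℝ) ^ (δ / 2)) Filter.atTop Filter.atTop :=
    (tendsto_rpow_atTop (by positivity)).comp tendsto_natCast_atTop_atTop
  obtain ⟨n₃, hn₃⟩ := Filter.eventually_atTop.mp (htend.eventually_ge_atTop ((4 : ℝ) ^ R))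
  refine ⟨max (max n₁ n₂) (max n₃ 2), ?_⟩
  intro L hL hlen hN
  have hN1 : n₁ ≤ L.prod := le_trans ((le_max_left _ _).trans (le_max_left _ _)) hN
  have hN2 : n₂ ≤ L.prod := le_trans ((le_max_right _ _).trans (le_max_left _ _)) hN
  have hN3 : n₃ ≤ L.prod := le_trans ((le_max_left _ _).trans (le_max_right _ _)) hN
  have hN4 : 2 ≤ L.prod := le_trans ((le_max_right _ _).trans (le_max_right _ _)) hN
  refine ⟨(hn₁ L hL hlen hN1).1, fun h => ?_⟩
  have e1 := hn₂ _ hN2
  have e2 := hn₃ _ hN3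
  cases L with
  | nil =>
    rw [List.prod_nil] at hN4
    omega
  | cons c l =>
    have hr : l.length + 1 ≤ R := by simpa using hlen
    rw [List.headI_cons] at h
    set N := (c :: l).prod with hNdef
    set k := Nat.log 2 N with hk
    have hNr : (1 : ℝ) < N := by exact_mod_cast (by omega : 1 < N)
    have hN0 : (0 : ℝ) < N := by linarith
    have hc1 : 1 ≤ c := le_trans (by norm_num) (hL.1 c List.mem_cons_self)
    have hc0 : (0 : ℝ) < c := by exact_mod_cast hc1
    set γ : ℝ := (c : ℝ) ^ (1 / (R : ℝ)) with hγ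
    have hγ0 : 0 < γ := Real.rpow_pos_of_pos hc0 _
    have hγR : γ ^ R = c := by
      rw [hγ, one_div, Real.rpow_inv_natCast_pow hc0.le (by omega)]
    set ν : ℝ := (N : ℝ) ^ (δ / 2) with hν
    have hν0 : 0 < ν := Real.rpow_pos_of_pos hN0 _
    have hν1 : 1 ≤ ν := Real.one_le_rpow hNr.le (by positivity)
    have hνν : (N : ℝ) ^ (1 + δ) = N * (ν * ν) := by
      rw [hν, ← Real.rpow_add hN0, Real.rpow_add hN0, Real.rpow_one]
      congr 2
      ring
    have hνR : (N : ℝ) ^ (R * (δ / 2)) = ν ^ R := by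
      rw [hν, ← Real.rpow_natCast, ← Real.rpow_mul hN0.le]
      congr 1
      ring
    rw [hνν] at h
    -- the case of a small largest entry is void
    rcases le_or_gt γ ν with hγν | hγν
    · exfalso
      have h1 : (N : ℝ) ≤ N * (ν * ν) / γ := by
        rw [le_div_iff₀ hγ0]
        refine mul_le_mul_of_nonneg_left ?_ hN0.le
        nlinarith
      have h2 : (0 : ℝ) < 2 ^ k := by positivity
      linarith
    have hβ : 1 ≤ γ / ν := by
      rw [le_div_iff₀ hν0]
      linarith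
    set K : ℕ := ⌈γ / ν⌉₊ with hKdef
    have hK1 : γ / ν ≤ K := Nat.le_ceil _
    have hK2 : (K : ℝ) ≤ 2 * (γ / ν) := by
      have := (Nat.ceil_lt_add_one (by positivity : (0 : ℝ) ≤ γ / ν)).le
      rw [← hKdef] at this
      linarith
    have hK : 1 ≤ K := by
      have : (1 : ℝ) ≤ K := hβ.trans hK1
      exact_mod_cast this
    have hK0 : (0 : ℝ) < K := by exact_mod_cast hK
    have hcond : 2 * (2 * K) ^ R * k ≤ c := by
      have h1 : ((2 * (2 * K) ^ R * k : ℕ) : ℝ) ≤ c := by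
        push_cast
        have hKK : 2 * (K : ℝ) ≤ 4 * (γ / ν) := by linarith
        calc 2 * (2 * (K : ℝ)) ^ R * (k : ℝ) ≤ 2 * (4 * (γ / ν)) ^ R * k :=
              mul_le_mul_of_nonneg_right (mul_le_mul_of_nonneg_left
                (pow_le_pow_left₀ (by positivity) hKK R) (by norm_num)) (Nat.cast_nonneg _)
          _ = (2 * 4 ^ R * (k : ℝ)) * (γ ^ R / ν ^ R) := by
              rw [mul_pow, div_pow]
              ring
          _ ≤ ν ^ R * (γ ^ R / ν ^ R) := by
              rw [← hνR]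
              exact mul_le_mul_of_nonneg_right e1 (by positivity)
          _ = c := by
              rw [mul_div_cancel₀ _ (pow_pos hν0 R).ne', hγR]
      exact_mod_cast h1
    refine explicit_list c l hL R hr K hK hcond ?_
    have hx0 : (0 : ℝ) ≤ 1 / (K : ℝ) := by positivity
    have hx1 : 1 / (K : ℝ) ≤ 1 := by
      rw [div_le_one hK0]
      exact_mod_cast hK
    have hk1 : (2 : ℝ) ^ k ≤ N := by
      have : 2 ^ k ≤ N := Nat.pow_log_le_self 2 (by omega)
      exact_mod_cast this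
    calc (1 + 1 / (K : ℝ)) ^ (2 * R) * 2 ^ k
        ≤ (1 + (2 ^ (2 * R) - 1) * (1 / (K : ℝ))) * 2 ^ k :=
          mul_le_mul_of_nonneg_right (one_add_pow_le hx0 hx1 _) (by positivity)
      _ ≤ (1 + 4 ^ R * (1 / (K : ℝ))) * 2 ^ k := by
          gcongr
          rw [pow_mul]
          norm_num
      _ = 2 ^ k + 4 ^ R * (2 ^ k / K) := by ring
      _ ≤ 2 ^ k + ν * ((N : ℝ) / (γ / ν)) := by
          gcongr
      _ = 2 ^ k + N * (ν * ν) / γ := by
          congr 1
          field_simp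
      _ ≤ N := h

end Pool.Agent.Results.MP_3a3582_co.AlmostAll
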