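import Pool.Agent.Helper934.AA3

open Finset
open Pool.Agent.Results.MP_3a3582_co.BoundedRank

namespace Pool.Agent.Results.MP_3a3582_co.AlmostAll

/-- With the smaller factors fixed, the exceptional multipliers have density zero. -/
theorem fibre (L : List ℕ) (hne : L ≠ []) (hL : IsTypeList L) : Filter.Tendsto
    (fun x : ℕ => (({m : ℕ | 1 ≤ m ∧ m ≤ x ∧ tau (Grp ((m * L.headI) :: L)) ≠
      Nat.log 2 ((m * L.headI) :: L).prod} : Set ℕ).ncard : ℝ) / x) Filter.atTop (nhds 0) := by
  have hD := D_pos hne hL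
  have hD' : (0 : ℝ) < D L := by exact_mod_cast hD
  have hmul : Filter.Tendsto (fun x : ℕ => x * D L) Filter.atTop Filter.atTop :=
    Filter.tendsto_atTop_mono (fun x => Nat.le_mul_of_pos_right x hD) Filter.tendsto_id
  have h := ((E_tendsto hne hL).comp hmul).const_mul (D L : ℝ)
  rw [mul_zero] at h
  refine squeeze_zero (fun x => by positivity) (fun x => ?_) h
  have hsub : ({m : ℕ | 1 ≤ m ∧ m ≤ x ∧ tau (Grp ((m * L.headI) :: L)) ≠
      Nat.log 2 ((m * L.headI) :: L).prod} : Set ℕ) ⊆ (fun m => m + 1) '' E L (x * D L) := by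
    rintro m ⟨h1, h2, h3⟩
    obtain ⟨m', rfl⟩ : ∃ m', m = m' + 1 := ⟨m - 1, by omega⟩
    refine ⟨m', ⟨Nat.mul_le_mul_right _ h2, ?_⟩, rfl⟩
    have h4 := ext_prod m' L
    unfold AlmostAll.ext at h4
    rw [← h4]
    exact h3
  have hfin := E_finite hne hL (x * D L)
  have h5 := (Set.ncard_le_ncard hsub (hfin.image _)).trans (Set.ncard_image_le hfin)
  rcases Nat.eq_zero_or_pos x with rfl | hx
  · simp
  · have hx' : (0 : ℝ) < x := by exact_mod_cast hx
    simp only [Function.comp]
    rw [Nat.cast_mul, ← mul_div_assoc, mul_comm (x : ℝ), mul_div_mul_left _ _ hD'.ne']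
    gcongr

/-- The types of the groups of order at most `x` whose odd part is noncyclic: some odd prime
divides the second largest entry. -/
def NoncyclicOdd (x : ℕ) : Set (List ℕ) :=
  {L ∈ Types x | ∃ p : ℕ, p.Prime ∧ p ≠ 2 ∧ p ∣ L.tail.headI}

lemma nco_finite (x : ℕ) : (NoncyclicOdd x).Finite :=
  (Types_finite x).subset fun _ h => h.1

lemma nco_lower (x : ℕ) : x / 9 ≤ (NoncyclicOdd x).ncard := by
  have hsub : (((Finset.range (x / 9)).image fun m => [3 * (m + 1), 3] : Finset (List ℕ)) :
      Set (List ℕ)) ⊆ NoncyclicOdd x := by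
    intro L hL
    rw [Finset.mem_coe, Finset.mem_image] at hL
    obtain ⟨m, hm, rfl⟩ := hL
    rw [Finset.mem_range] at hm
    refine ⟨⟨by simp, ⟨?_, ?_⟩, ?_⟩, 3, Nat.prime_three, by norm_num, by simp⟩
    · intro n hn
      simp only [List.mem_cons, List.not_mem_nil, or_false] at hn
      rcases hn with rfl | rfl <;> omega
    · simp
    · simp only [List.prod_cons, List.prod_nil, mul_one]
      omega
  have h1 := Set.ncard_le_ncard hsub (nco_finite x)
  rw [Set.ncard_coe_finset, Finset.card_image_of_injective, Finset.card_range] at h1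
  · exact h1
  · intro a b hab
    simp at hab
    exact hab

theorem density_nco : Filter.Tendsto
    (fun x : ℕ => ((Exceptions x).ncard : ℝ) / ((NoncyclicOdd x).ncard : ℝ))
    Filter.atTop (nhds 0) := by
  have h := exceptions_tendsto.const_mul 18
  rw [mul_zero] at h
  refine squeeze_zero' (Filter.Eventually.of_forall fun x => by positivity) ?_ h
  filter_upwards [Filter.eventually_ge_atTop 18] with x hx
  have hx0 : (0 : ℝ) < x := by exact_mod_cast (by omega : 0 < x)
  have h1 := nco_lower x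
  have h2 : x ≤ 18 * (NoncyclicOdd x).ncard := by omega
  have h3 : (x : ℝ) ≤ 18 * (NoncyclicOdd x).ncard := by exact_mod_cast h2
  have h4 : (0 : ℝ) < (NoncyclicOdd x).ncard := by nlinarith
  rw [div_le_iff₀ h4]
  have h5 : (0 : ℝ) ≤ ((Exceptions x).ncard : ℝ) / x := by positivity
  calc ((Exceptions x).ncard : ℝ) = (((Exceptions x).ncard : ℝ) / x) * x := by
        field_simp
    _ ≤ (((Exceptions x).ncard : ℝ) / x) * (18 * (NoncyclicOdd x).ncard) :=
        mul_le_mul_of_nonneg_left h3 h5
    _ = 18 * (((Exceptions x).ncard : ℝ) / x) * (NoncyclicOdd x).ncard := by ring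

end Pool.Agent.Results.MP_3a3582_co.AlmostAll
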