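import Mathlib

open MeasureTheory Set
open scoped ENNReal

namespace Pool.Agent.Helper934.Ann

/-- A finite family of planks of the plane, the i-th one being the set of the points
`(x, y)` with `|a i * x + b i * y - c i| ≤ d i`. -/
structure Fam (n : ℕ) where
  a : Fin n → ℝ
  b : Fin n → ℝ
  c : Fin n → ℝ
  d : Fin n → ℝ
  nz : ∀ i, 0 < a i ^ 2 + b i ^ 2
  dn : ∀ i, 0 ≤ d i

variable {n : ℕ}

/-- The i-th plank. -/
def Fam.pl (F : Fam n) (i : Fin n) : Set (ℝ × ℝ) :=
  {p | |F.a i * p.1 + F.b i * p.2 - F.c i| ≤ F.d i}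

open Classical in
/-- The number of planks through a point. -/
noncomputable def Fam.N (F : Fam n) (p : ℝ × ℝ) : ℕ :=
  (Finset.univ.filter (fun i => p ∈ F.pl i)).card

/-- The overlap `N - 1` (zero if uncovered). -/
noncomputable def Fam.ov (F : Fam n) (p : ℝ × ℝ) : ℝ≥0∞ := ((F.N p - 1 : ℕ) : ℝ≥0∞)

/-- The covered set. -/
def Fam.cov (F : Fam n) : Set (ℝ × ℝ) := {p | ∃ i, p ∈ F.pl i}

/-- Norm of the covector. -/
noncomputable def Fam.nm (F : Fam n) (i : Fin n) : ℝ := √(F.a i ^ 2 + F.b i ^ 2)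

/-- Width of the part of plank i between its two supporting parallels of the disc of radius
`R` about `p` (the clipped width). -/
noncomputable def Fam.cw (F : Fam n) (i : Fin n) (p : ℝ × ℝ) (R : ℝ) : ℝ :=
  max 0 (min ((F.c i + F.d i - (F.a i * p.1 + F.b i * p.2)) / F.nm i) R -
    max ((F.c i - F.d i - (F.a i * p.1 + F.b i * p.2)) / F.nm i) (-R))

/-- Invertible affine maps of the plane. -/
structure Aff where
  x0 : ℝ
  y0 : ℝ
  m11 : ℝ
  m12 : ℝ
  m21 : ℝ
  m22 : ℝ
  det_ne : m11 * m22 - m12 * m21 ≠ 0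

/-- The map. -/
def Aff.map (A : Aff) (p : ℝ × ℝ) : ℝ × ℝ :=
  (A.x0 + A.m11 * p.1 + A.m12 * p.2, A.y0 + A.m21 * p.1 + A.m22 * p.2)

/-- The determinant. -/
def Aff.det (A : Aff) : ℝ := A.m11 * A.m22 - A.m12 * A.m21

/-- Pull back of a family under an affine map. -/
def Fam.pull (F : Fam n) (A : Aff) : Fam n where
  a := fun i => F.a i * A.m11 + F.b i * A.m21
  b := fun i => F.a i * A.m12 + F.b i * A.m22
  c := fun i => F.c i - F.a i * A.x0 - F.b i * A.y0
  d := F.d
  nz := by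
    intro i
    by_contra h
    push Not at h
    have h1 : F.a i * A.m11 + F.b i * A.m21 = 0 := by nlinarith [sq_nonneg (F.a i * A.m11 + F.b i * A.m21), sq_nonneg (F.a i * A.m12 + F.b i * A.m22)]
    have h2 : F.a i * A.m12 + F.b i * A.m22 = 0 := by nlinarith [sq_nonneg (F.a i * A.m11 + F.b i * A.m21), sq_nonneg (F.a i * A.m12 + F.b i * A.m22)]
    have hdet := A.det_ne
    have h3 : F.a i * (A.m11 * A.m22 - A.m12 * A.m21) = 0 := by linear_combination A.m22 * h1 - A.m21 * h2
    have h4 : F.b i * (A.m11 * A.m22 - A.m12 * A.m21) = 0 := by linear_combination A.m11 * h2 - A.m12 * h1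
    have h5 : F.a i = 0 := by
      rcases mul_eq_zero.mp h3 with h | h
      · exact h
      · exact absurd h hdet
    have h6 : F.b i = 0 := by
      rcases mul_eq_zero.mp h4 with h | h
      · exact h
      · exact absurd h hdet
    have := F.nz i
    rw [h5, h6] at this
    norm_num at this
  dn := F.dn

/-- The sheared ellipse chart of level m with base point (0,y) and slope u. -/
noncomputable def elAff (y u : ℝ) (m : ℕ) : Aff where
  x0 := 2
  y0 := y + 2 * u
  m11 := 1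
  m12 := 0
  m21 := u
  m22 := (1 / 2) ^ m
  det_ne := by simp

/-- The family seen in the chart. -/
noncomputable def Fam.el (F : Fam n) (y u : ℝ) (m : ℕ) : Fam n := F.pull (elAff y u m)

/-- The closed unit disc. -/
def dsk (p : ℝ × ℝ) (R : ℝ) : Set (ℝ × ℝ) := {q | (q.1 - p.1) ^ 2 + (q.2 - p.2) ^ 2 ≤ R ^ 2}

/-- The rectangle. -/
def QQ : Set (ℝ × ℝ) := Icc (1:ℝ) 3 ×ˢ Icc (-(3/2):ℝ) (3/2)

end Pool.Agent.Helper934.Ann
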