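import Mathlib
import Pool.Agent.Helper934.AnnDefs

open MeasureTheory Set
open scoped ENNReal

namespace Pool.Agent.Helper934.Ann

variable {n : ℕ}

/-- The scale of level m. -/
noncomputable def lam (m : ℕ) : ℝ := (1 / 2) ^ m

open Classical in
/-- The planks whose slope differs from `u'` by more than `η`. -/
noncomputable def Fam.bad (F : Fam n) (u' η : ℝ) : Finset (Fin n) :=
  Finset.univ.filter (fun i => η * |F.b i| < |F.a i + F.b i * u'|)

open Classical in
/-- The planks whose normal differs from `± e` by more than `1/1500`. -/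
noncomputable def Fam.far (F : Fam n) (e : ℝ × ℝ) : Finset (Fin n) :=
  Finset.univ.filter (fun i => (1 / 1500) * F.nm i ≤ |F.a i * e.2 - F.b i * e.1|)

/-- `u'` is the slope of most planks in the chart `(y, u, m)`. -/
def Good (F : Fam n) (y u : ℝ) (m : ℕ) (u' : ℝ) : Prop :=
  |u' - u| ≤ lam m / 250 ∧
    ∑ i ∈ F.bad u' (lam m / 1000), (F.el y u m).cw i (0, 0) (1 / 2) ≤ 1 / 20

/-- threshold for the overlap -/
noncomputable def kap : ℝ := 1 / 10 ^ 8

end Pool.Agent.Helper934.Ann
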