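import Mathlib
import Pool.Agent.Helper934.AnnDefs
import Pool.Agent.Helper934.AnnGODefs

open MeasureTheory Set
open scoped ENNReal

namespace Pool.Agent.Helper934.Ann

variable {n : ℕ}

/-- The scale ratio (to the power 1/4). -/
noncomputable def bb : ℝ := 399 / 400

/-- The density of the thin shell, seen from above; the unit disc is centred at (0,1). -/
noncomputable def psi (τ : ℝ) (p : ℝ × ℝ) : ℝ≥0∞ :=
  ENNReal.ofReal (√(1 - (p.1 ^ 2 + (p.2 - 1) ^ 2)) - √((1 - τ) ^ 2 - (p.1 ^ 2 + (p.2 - 1) ^ 2)))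

/-- The telescoping kernel. -/
noncomputable def kk (k : ℕ) (y : ℝ) : ℝ :=
  √(√y) / (bb ^ (k + 1) + √(√y)) - √(√y) / (bb ^ k + √(√y))

/-- The k-th layer. -/
def Lay (k : ℕ) : Set (ℝ × ℝ) :=
  {p | 21 / 20 * bb ^ (4 * (k + 1)) < p.2 ∧ p.2 ≤ 21 / 20 * bb ^ (4 * k)}

/-- A configuration: the unit disc is centred at (0,1), the hole is the disc of radius `ε` about `(0, η)`,
and the planks cover the rest. -/
structure Cfg (n : ℕ) where
  F : Fam n
  η : ℝ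
  ε : ℝ
  hε : 0 < ε
  hηε : ε < η
  hη : η ≤ 1
  hcov : ∀ x y : ℝ, x ^ 2 + y ^ 2 ≤ 2 * y → ε ^ 2 < x ^ 2 + (y - η) ^ 2 → (x, y) ∈ F.cov

/-- The chart of index j, possibly mirrored. -/
noncomputable def chart (j : ℕ) (neg : Bool) : Aff where
  x0 := 0
  y0 := 0
  m11 := (if neg then -1 else 1) * bb ^ (2 * j)
  m12 := 0
  m21 := 0
  m22 := bb ^ (4 * j)
  det_ne := by
    have h : (0:ℝ) < bb := by norm_num [bb]
    have h1 : (0:ℝ) < bb ^ (2 * j) := pow_pos h _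
    have h2 : (0:ℝ) < bb ^ (4 * j) := pow_pos h _
    cases neg <;> simp [h1.ne', h2.ne']

/-- The family in the chart. -/
noncomputable def Cfg.ch (C : Cfg n) (j : ℕ) (neg : Bool) : Fam n := C.F.pull (chart j neg)

/-- The region of the charts where everything takes place. -/
def Reg : Set (ℝ × ℝ) :=
  {p | 3 / 100 ≤ p.2 ∧ p.2 ≤ 33 / 25 ∧ p.1 ^ 2 + p.2 ^ 2 + 1 / 100 ≤ 2 * p.2}

/-- The gap. -/
def Cfg.G (C : Cfg n) : Set (ℝ × ℝ) := {p | p.1 ^ 2 + p.2 ^ 2 ≤ 2 * p.2 ∧ p ∉ C.F.cov}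

/-- first property of the selected layer -/
def Cfg.P1 (C : Cfg n) (k : ℕ) (g : ℝ) : Prop :=
  ∀ j ≤ k, ∀ neg, ∀ S ⊆ Reg, MeasurableSet S →
    ∫⁻ p in S, (C.ch j neg).ov p ≤ ENNReal.ofReal (20000 * g / (bb ^ (4 * j) * bb ^ (k - j)))

/-- second property of the selected layer -/
def Cfg.P2 (C : Cfg n) (k : ℕ) (g : ℝ) : Prop :=
  ENNReal.ofReal g ≤ ENNReal.ofReal (2 / bb ^ (2 * k)) * volume (C.G ∩ Lay k)

open Classical in
/-- The planks whose normal differs from `± e` by more than `1/20000`. -/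
noncomputable def Fam.far2 (F : Fam n) (e : ℝ × ℝ) : Finset (Fin n) :=
  Finset.univ.filter (fun i => (1 / 20000) * F.nm i ≤ |F.a i * e.2 - F.b i * e.1|)

/-- `e` is the dominant normal direction at all the points of `S`. -/
def DirOn (G : Fam n) (S : Set (ℝ × ℝ)) (e : ℝ × ℝ) : Prop :=
  e.1 ^ 2 + e.2 ^ 2 = 1 ∧ ∀ c ∈ S, ∑ i ∈ G.far2 e, G.cw i c (1 / 40) ≤ 1 / 4000

/-- The set of reference centres on the right. -/
def SR : Set (ℝ × ℝ) := Icc (29 / 100 : ℝ) (31 / 100) ×ˢ Icc (14 / 100 : ℝ) (5 / 4)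

/-- Frame of the first kind. -/
noncomputable def xfr (X0 Yc s : ℝ) : Aff where
  x0 := X0
  y0 := Yc
  m11 := 3 / 20
  m12 := 0
  m21 := 3 / 20 * s
  m22 := 1 / 40
  det_ne := by norm_num

/-- Frame of the second kind. -/
noncomputable def yfr (Y0 ρ : ℝ) : Aff where
  x0 := 0
  y0 := Y0
  m11 := 3 / 40 * ρ
  m12 := 1 / 40
  m21 := 3 / 40
  m22 := 0
  det_ne := by norm_num

/-- threshold for the uniform direction lemma -/
noncomputable def kud : ℝ := 1 / 10 ^ 20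

end Pool.Agent.Helper934.Ann
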