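import Mathlib
import Pool.Agent.Helper934.AnnDefs

open MeasureTheory Set
open scoped ENNReal

namespace Pool.Agent.Helper934.Ann

variable {n : ℕ}

namespace J2a

lemma inner_int (a : ℝ) : ∫⁻ t : ℝ, ENNReal.ofReal (√(a - t ^ 2)) = ENNReal.ofReal (Real.pi / 2 * max a 0) := by
  rcases le_or_gt a 0 with ha | ha
  · have : ∀ t : ℝ, ENNReal.ofReal (√(a - t ^ 2)) = 0 := by
      intro t
      rw [Real.sqrt_eq_zero_of_nonpos (by nlinarith [sq_nonneg t])]
      simp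
    simp [this, max_eq_right ha]
  · rw [max_eq_left ha.le]
    set ρ := √a with hρ
    have hρ0 : 0 < ρ := Real.sqrt_pos.2 ha
    have hρ2 : ρ ^ 2 = a := Real.sq_sqrt ha.le
    have h1 : ∫⁻ t : ℝ, ENNReal.ofReal (√(a - t ^ 2)) = ∫⁻ t in Ioc (-ρ) ρ, ENNReal.ofReal (√(a - t ^ 2)) := by
      rw [← lintegral_indicator measurableSet_Ioc]
      congr 1
      ext t
      by_cases ht : t ∈ Ioc (-ρ) ρ
      · rw [indicator_of_mem ht]
      · rw [indicator_of_notMem ht, Real.sqrt_eq_zero_of_nonpos, ENNReal.ofReal_zero]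
        simp only [mem_Ioc, not_and_or, not_lt, not_le] at ht
        rcases ht with ht | ht
        · nlinarith
        · nlinarith
    have hc : Continuous fun t : ℝ => √(a - t ^ 2) := by fun_prop
    rw [h1, ← ofReal_integral_eq_lintegral_ofReal ((hc.integrableOn_Icc (a := -ρ) (b := ρ)).mono_set Ioc_subset_Icc_self)
      (Filter.Eventually.of_forall fun t => Real.sqrt_nonneg _),
      ← intervalIntegral.integral_of_le (by linarith)]
    congr 1
    have h2 := intervalIntegral.integral_comp_mul_left (a := -1) (b := 1) (fun t => √(a - t ^ 2)) hρ0.ne'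
    have h3 : ∀ x : ℝ, √(a - (ρ * x) ^ 2) = ρ * √(1 - x ^ 2) := by
      intro x
      rw [show a - (ρ * x) ^ 2 = ρ ^ 2 * (1 - x ^ 2) by rw [← hρ2]; ring, Real.sqrt_mul (sq_nonneg _),
        Real.sqrt_sq hρ0.le]
    simp only [h3] at h2
    rw [intervalIntegral.integral_const_mul, integral_sqrt_one_sub_sq] at h2
    rw [smul_eq_mul, mul_neg_one, mul_one] at h2
    have h4 : ρ * (ρ * (Real.pi / 2)) = ∫ (x : ℝ) in -ρ..ρ, √(a - x ^ 2) := by
      rw [h2]
      field_simp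
    rw [← h4, ← hρ2]; ring

lemma slab_int (r A B : ℝ) (hAB : A ≤ B) :
    ∫⁻ p in {p : ℝ × ℝ | p.1 ∈ Ioc A B}, ENNReal.ofReal (√(r ^ 2 - (p.1 ^ 2 + p.2 ^ 2))) =
      ENNReal.ofReal (Real.pi / 2 * ∫ s in A..B, max (r ^ 2 - s ^ 2) 0) := by
  have hm : MeasurableSet {p : ℝ × ℝ | p.1 ∈ Ioc A B} := measurable_fst measurableSet_Ioc
  have hg : Measurable fun p : ℝ × ℝ => ENNReal.ofReal (√(r ^ 2 - (p.1 ^ 2 + p.2 ^ 2))) := by fun_prop
  rw [← lintegral_indicator hm, Measure.volume_eq_prod, lintegral_prod _ (hg.indicator hm).aemeasurable]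
  have h1 : ∀ x : ℝ, ∫⁻ y : ℝ, {p : ℝ × ℝ | p.1 ∈ Ioc A B}.indicator
      (fun p : ℝ × ℝ => ENNReal.ofReal (√(r ^ 2 - (p.1 ^ 2 + p.2 ^ 2)))) (x, y) =
      (Ioc A B).indicator (fun x => ENNReal.ofReal (Real.pi / 2 * max (r ^ 2 - x ^ 2) 0)) x := by
    intro x
    by_cases hx : x ∈ Ioc A B
    · rw [indicator_of_mem hx, ← inner_int]
      congr 1
      ext y
      rw [indicator_of_mem (by exact hx)]
      simp only
      congr 2
      ring
    · rw [indicator_of_notMem hx]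
      have : ∀ y : ℝ, {p : ℝ × ℝ | p.1 ∈ Ioc A B}.indicator
        (fun p : ℝ × ℝ => ENNReal.ofReal (√(r ^ 2 - (p.1 ^ 2 + p.2 ^ 2)))) (x, y) = 0 := by
        intro y
        rw [indicator_of_notMem (by exact hx)]
      rw [lintegral_congr this, lintegral_zero]
  simp_rw [h1]
  rw [lintegral_indicator measurableSet_Ioc]
  have hc : Continuous fun t : ℝ => Real.pi / 2 * max (r ^ 2 - t ^ 2) 0 := by fun_prop
  rw [← ofReal_integral_eq_lintegral_ofReal ((hc.integrableOn_Icc (a := A) (b := B)).mono_set Ioc_subset_Icc_self)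
      (Filter.Eventually.of_forall fun t => by positivity),
      ← intervalIntegral.integral_of_le hAB, intervalIntegral.integral_const_mul]

lemma slab_int' (r A B : ℝ) (hAB : A ≤ B) :
    ∫⁻ p in {p : ℝ × ℝ | p.1 ∈ Icc A B}, ENNReal.ofReal (√(r ^ 2 - (p.1 ^ 2 + p.2 ^ 2))) =
      ENNReal.ofReal (Real.pi / 2 * ∫ s in A..B, max (r ^ 2 - s ^ 2) 0) := by
  rw [← slab_int r A B hAB]
  apply setLIntegral_congr
  have h1 : {p : ℝ × ℝ | p.1 ∈ Icc A B} = Icc A B ×ˢ (univ : Set ℝ) := by ext p; simp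
  have h2 : {p : ℝ × ℝ | p.1 ∈ Ioc A B} = Ioc A B ×ˢ (univ : Set ℝ) := by ext p; simp
  rw [h1, h2, Measure.volume_eq_prod]
  exact Measure.set_prod_ae_eq Ioc_ae_eq_Icc.symm (ae_eq_refl _)

theorem plank_int (α β c d r : ℝ) (h : 0 < α ^ 2 + β ^ 2) (hd : 0 ≤ d) (hr : 0 ≤ r) :
    ∫⁻ p in {p : ℝ × ℝ | |α * p.1 + β * p.2 - c| ≤ d}, ENNReal.ofReal (√(r ^ 2 - (p.1 ^ 2 + p.2 ^ 2))) =
      ENNReal.ofReal (Real.pi / 2 * ∫ s in ((c - d) / √(α ^ 2 + β ^ 2))..((c + d) / √(α ^ 2 + β ^ 2)),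
        max (r ^ 2 - s ^ 2) 0) := by
  set ν := √(α ^ 2 + β ^ 2) with hν
  have hν0 : 0 < ν := Real.sqrt_pos.2 h
  have hν2 : ν ^ 2 = α ^ 2 + β ^ 2 := Real.sq_sqrt h.le
  set f := Matrix.toLin (Module.Basis.finTwoProd ℝ) (Module.Basis.finTwoProd ℝ) !![α / ν, β / ν; -β / ν, α / ν] with hf
  have hfa : ∀ p : ℝ × ℝ, f p = (α / ν * p.1 + β / ν * p.2, -β / ν * p.1 + α / ν * p.2) := by
    intro p
    rw [hf, Matrix.toLin_finTwoProd_apply]
  have hdet : LinearMap.det f = 1 := by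
    rw [hf, LinearMap.det_toLin, Matrix.det_fin_two_of]
    field_simp
    rw [hν2]; ring
  have hmp : MeasurePreserving f (volume : Measure (ℝ × ℝ)) volume := by
    refine ⟨?_, ?_⟩
    · exact (LinearMap.continuous_of_finiteDimensional f).measurable
    · rw [Measure.map_linearMap_addHaar_eq_smul_addHaar _ (by rw [hdet]; exact one_ne_zero), hdet]
      simp
  have hAB : (c - d) / ν ≤ (c + d) / ν := by
    apply div_le_div_of_nonneg_right _ hν0.le
    linarith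
  rw [← slab_int' r _ _ hAB]
  have hm : MeasurableSet {p : ℝ × ℝ | p.1 ∈ Icc ((c - d) / ν) ((c + d) / ν)} := measurable_fst measurableSet_Icc
  have hm' : MeasurableSet {p : ℝ × ℝ | |α * p.1 + β * p.2 - c| ≤ d} :=
    measurableSet_le (by fun_prop) (by fun_prop)
  have hg : Measurable fun p : ℝ × ℝ => ENNReal.ofReal (√(r ^ 2 - (p.1 ^ 2 + p.2 ^ 2))) := by fun_prop
  rw [← lintegral_indicator hm, ← hmp.lintegral_comp (hg.indicator hm), ← lintegral_indicator hm']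
  congr 1
  ext p
  have hs : (f p).1 ^ 2 + (f p).2 ^ 2 = p.1 ^ 2 + p.2 ^ 2 := by
    rw [hfa]
    simp only
    field_simp
    rw [hν2]; ring
  have hiff : f p ∈ {p : ℝ × ℝ | p.1 ∈ Icc ((c - d) / ν) ((c + d) / ν)} ↔
      p ∈ {p : ℝ × ℝ | |α * p.1 + β * p.2 - c| ≤ d} := by
    rw [hfa]
    simp only [mem_ofPred_eq, mem_Icc, abs_le]
    rw [show α / ν * p.1 + β / ν * p.2 = (α * p.1 + β * p.2) / ν by ring,
      div_le_div_iff_of_pos_right hν0, div_le_div_iff_of_pos_right hν0]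
    constructor
    · rintro ⟨h1, h2⟩; constructor <;> linarith
    · rintro ⟨h1, h2⟩; constructor <;> linarith
  by_cases hp : p ∈ {p : ℝ × ℝ | |α * p.1 + β * p.2 - c| ≤ d}
  · rw [indicator_of_mem hp, indicator_of_mem (hiff.2 hp), hs]
  · rw [indicator_of_notMem hp, indicator_of_notMem (fun h => hp (hiff.1 h))]

theorem disc_int (r : ℝ) (hr : 0 ≤ r) :
    ∫⁻ p : ℝ × ℝ, ENNReal.ofReal (√(r ^ 2 - (p.1 ^ 2 + p.2 ^ 2))) =
      ENNReal.ofReal (2 * Real.pi / 3 * r ^ 3) := by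
  have h1 := slab_int' r (-r) r (by linarith)
  have hm : MeasurableSet {p : ℝ × ℝ | p.1 ∈ Icc (-r) r} := measurable_fst measurableSet_Icc
  rw [← lintegral_indicator hm] at h1
  have h2 : ({p : ℝ × ℝ | p.1 ∈ Icc (-r) r}.indicator fun p : ℝ × ℝ => ENNReal.ofReal (√(r ^ 2 - (p.1 ^ 2 + p.2 ^ 2)))) =
      fun p : ℝ × ℝ => ENNReal.ofReal (√(r ^ 2 - (p.1 ^ 2 + p.2 ^ 2))) := by
    ext p
    by_cases hp : p ∈ {p : ℝ × ℝ | p.1 ∈ Icc (-r) r}
    · rw [indicator_of_mem hp]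
    · rw [indicator_of_notMem hp, Real.sqrt_eq_zero_of_nonpos, ENNReal.ofReal_zero]
      simp only [mem_ofPred_eq, mem_Icc, not_and_or, not_le] at hp
      rcases hp with hp | hp
      · nlinarith [sq_nonneg p.2]
      · nlinarith [sq_nonneg p.2]
  rw [h2] at h1
  rw [h1]
  congr 1
  have h3 : ∫ s in (-r)..r, max (r ^ 2 - s ^ 2) 0 = ∫ s in (-r)..r, (r ^ 2 - s ^ 2) := by
    apply intervalIntegral.integral_congr
    intro s hs
    rw [uIcc_of_le (by linarith)] at hs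
    simp only
    rw [max_eq_left]
    nlinarith [hs.1, hs.2]
  rw [h3, intervalIntegral.integral_sub (by simp) (by simp), integral_pow]
  simp
  ring

end J2a

alias plank_int := J2a.plank_int

alias disc_int := J2a.disc_int

end Pool.Agent.Helper934.Ann
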