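import Mathlib
import Pool.Agent.Helper934.AnnDefs

open MeasureTheory Set
open scoped ENNReal

namespace Pool.Agent.Helper934.Ann

variable {n : ℕ}

theorem isClosed_pl (F : Fam n) (i : Fin n) : IsClosed (F.pl i) := by
  unfold Fam.pl
  exact isClosed_le (by fun_prop) continuous_const

theorem pull_pl (F : Fam n) (A : Aff) (i : Fin n) (p : ℝ × ℝ) :
    p ∈ (F.pull A).pl i ↔ A.map p ∈ F.pl i := by
  unfold Fam.pl Fam.pull Aff.map
  simp only [Set.mem_ofPred_eq]
  have : (F.a i * A.m11 + F.b i * A.m21) * p.1 + (F.a i * A.m12 + F.b i * A.m22) * p.2 -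
      (F.c i - F.a i * A.x0 - F.b i * A.y0) =
      F.a i * (A.x0 + A.m11 * p.1 + A.m12 * p.2) + F.b i * (A.y0 + A.m21 * p.1 + A.m22 * p.2) -
        F.c i := by ring
  rw [this]

/-- The linear part of an affine map. -/

noncomputable def Aff.lin (A : Aff) : ℝ × ℝ →L[ℝ] ℝ × ℝ :=
  LinearMap.toContinuousLinearMap (Matrix.toLin (Module.Basis.finTwoProd ℝ) (Module.Basis.finTwoProd ℝ)
    !![A.m11, A.m12; A.m21, A.m22])

theorem Aff.lin_apply (A : Aff) (p : ℝ × ℝ) :
    A.lin p = (A.m11 * p.1 + A.m12 * p.2, A.m21 * p.1 + A.m22 * p.2) := by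
  unfold Aff.lin
  rw [LinearMap.coe_toContinuousLinearMap', Matrix.toLin_finTwoProd_apply]

theorem Aff.lin_det (A : Aff) : A.lin.det = A.det := by
  unfold Aff.lin Aff.det
  rw [LinearMap.det_toContinuousLinearMap, LinearMap.det_toLin, Matrix.det_fin_two_of]

theorem Aff.map_eq (A : Aff) (p : ℝ × ℝ) : A.map p = (A.x0, A.y0) + A.lin p := by
  rw [A.lin_apply]
  unfold Aff.map
  ext <;> simp <;> ring

theorem Aff.hasFDerivAt (A : Aff) (p : ℝ × ℝ) : HasFDerivAt A.map A.lin p := by
  have h : A.map = fun p => (A.x0, A.y0) + A.lin p := funext A.map_eq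
  rw [h]
  exact A.lin.hasFDerivAt.const_add _

theorem Aff.map_injective (A : Aff) : Function.Injective A.map := by
  intro p q h
  unfold Aff.map at h
  have h1 := congrArg Prod.fst h
  have h2 := congrArg Prod.snd h
  simp only at h1 h2
  have hd := A.det_ne
  have e1 : (A.m11 * A.m22 - A.m12 * A.m21) * (p.1 - q.1) = 0 := by
    linear_combination A.m22 * h1 - A.m12 * h2
  have e2 : (A.m11 * A.m22 - A.m12 * A.m21) * (p.2 - q.2) = 0 := by
    linear_combination A.m11 * h2 - A.m21 * h1
  rcases mul_eq_zero.1 e1 with h | h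
  · exact absurd h hd
  rcases mul_eq_zero.1 e2 with h' | h'
  · exact absurd h' hd
  exact Prod.ext (sub_eq_zero.1 h) (sub_eq_zero.1 h')

theorem lintegral_map (A : Aff) (g : ℝ × ℝ → ℝ≥0∞) (hg : Measurable g) (S : Set (ℝ × ℝ))
    (hS : MeasurableSet S) :
    ∫⁻ p in S, g (A.map p) = ENNReal.ofReal |A.det|⁻¹ * ∫⁻ q in A.map '' S, g q := by
  have h := lintegral_image_eq_lintegral_abs_det_fderiv_mul (volume : Measure (ℝ × ℝ)) hS
    (f := A.map) (f' := fun _ => A.lin) (fun p _ => (A.hasFDerivAt p).hasFDerivWithinAt)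
    A.map_injective.injOn g
  have hm : Measurable fun p => g (A.map p) := by
    refine hg.comp ?_
    have : Continuous A.map := by unfold Aff.map; fun_prop
    exact this.measurable
  simp only [A.lin_det] at h
  rw [lintegral_const_mul _ hm] at h
  rw [h, ← mul_assoc, ← ENNReal.ofReal_mul (by positivity), inv_mul_cancel₀, ENNReal.ofReal_one,
    one_mul]
  exact abs_ne_zero.2 A.det_ne

theorem measurable_ov (F : Fam n) : Measurable F.ov := by
  classical
  have h1 : Measurable F.N := by
    have : F.N = fun p => ∑ i, if p ∈ F.pl i then 1 else 0 := by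
      funext p
      unfold Fam.N
      rw [Finset.card_filter]
    rw [this]
    exact Finset.measurable_sum _ (fun i _ =>
      Measurable.ite (isClosed_pl F i).measurableSet measurable_const measurable_const)
  exact (measurable_from_nat (f := fun k : ℕ => ((k - 1 : ℕ) : ℝ≥0∞))).comp h1

theorem pull_ov (F : Fam n) (A : Aff) (p : ℝ × ℝ) : (F.pull A).ov p = F.ov (A.map p) := by
  have h : (F.pull A).N p = F.N (A.map p) := by
    unfold Fam.N
    congr 1
    ext i
    simp only [Finset.mem_filter, Finset.mem_univ, true_and]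
    exact pull_pl F A i p
  unfold Fam.ov
  rw [h]

theorem pull_cov (F : Fam n) (A : Aff) (p : ℝ × ℝ) : p ∈ (F.pull A).cov ↔ A.map p ∈ F.cov := by
  unfold Fam.cov
  simp only [Set.mem_ofPred_eq, pull_pl]

theorem isClosed_cov (F : Fam n) : IsClosed F.cov := by
  have : F.cov = ⋃ i, F.pl i := by
    ext p
    simp [Fam.cov]
  rw [this]
  exact isClosed_iUnion_of_finite (fun i => isClosed_pl F i)

end Pool.Agent.Helper934.Ann
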