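import Mathlib
import Pool.Agent.Helper934.AnnDefs
import Pool.Agent.Helper934.AnnGODefs
import Pool.Agent.Helper934.AnnGeoDefs
import Pool.Agent.Helper934.AnnJ3
import Pool.Agent.Helper934.AnnJ2a

open MeasureTheory Set
open scoped ENNReal

namespace Pool.Agent.Helper934.Ann

variable {n : ℕ}

namespace A1

/-- the square root density -/

noncomputable def sqd (r : ℝ) (p : ℝ × ℝ) : ℝ≥0∞ :=
  ENNReal.ofReal (√(r ^ 2 - (p.1 ^ 2 + (p.2 - 1) ^ 2)))

theorem sqd_meas (r : ℝ) : Measurable (sqd r) := by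
  unfold sqd
  fun_prop

theorem psi_meas (τ : ℝ) : Measurable (psi τ) := by
  unfold psi
  fun_prop

theorem psi_add (τ : ℝ) (h0 : 0 < τ) (h1 : τ < 1) (p : ℝ × ℝ) :
    psi τ p + sqd (1 - τ) p = sqd 1 p := by
  unfold psi sqd
  rw [← ENNReal.ofReal_add, one_pow, sub_add_cancel]
  · rw [sub_nonneg]
    exact Real.sqrt_le_sqrt (by nlinarith)
  · exact Real.sqrt_nonneg _

theorem pl_meas (F : Fam n) (i : Fin n) : MeasurableSet (F.pl i) := by
  apply IsClosed.measurableSet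
  unfold Fam.pl
  exact isClosed_le (by fun_prop) (by fun_prop)

theorem sqd_plank (F : Fam n) (i : Fin n) (r : ℝ) (hr : 0 ≤ r) :
    ∫⁻ p in F.pl i, sqd r p = ENNReal.ofReal (Real.pi / 2 *
      ∫ s in ((F.c i - F.b i - F.d i) / F.nm i)..((F.c i - F.b i + F.d i) / F.nm i),
        max (r ^ 2 - s ^ 2) 0) := by
  have h := plank_int (F.a i) (F.b i) (F.c i - F.b i) (F.d i) r (F.nz i) (F.dn i) hr
  have hm : MeasurableSet {p : ℝ × ℝ | |F.a i * p.1 + F.b i * p.2 - (F.c i - F.b i)| ≤ F.d i} := by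
    apply IsClosed.measurableSet
    exact isClosed_le (by fun_prop) (by fun_prop)
  rw [Fam.nm, ← h]
  rw [← lintegral_indicator (pl_meas F i), ← lintegral_indicator hm]
  rw [← lintegral_add_right_eq_self _ ((0, 1) : ℝ × ℝ)]
  congr 1
  funext p
  have h1 : (p + ((0, 1) : ℝ × ℝ)) ∈ F.pl i ↔
      p ∈ {p : ℝ × ℝ | |F.a i * p.1 + F.b i * p.2 - (F.c i - F.b i)| ≤ F.d i} := by
    unfold Fam.pl
    simp only [mem_ofPred_eq, Prod.fst_add, Prod.snd_add, add_zero]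
    rw [show F.a i * p.1 + F.b i * (p.2 + 1) - F.c i
      = F.a i * p.1 + F.b i * p.2 - (F.c i - F.b i) by ring]
  by_cases h2 : p ∈ {p : ℝ × ℝ | |F.a i * p.1 + F.b i * p.2 - (F.c i - F.b i)| ≤ F.d i}
  · rw [indicator_of_mem h2, indicator_of_mem (h1.2 h2)]
    unfold sqd
    simp
  · rw [indicator_of_notMem h2, indicator_of_notMem (fun h3 => h2 (h1.1 h3))]

theorem sqd_total (r : ℝ) (hr : 0 ≤ r) :
    ∫⁻ p, sqd r p = ENNReal.ofReal (2 * Real.pi / 3 * r ^ 3) := by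
  rw [← disc_int r hr, ← lintegral_add_right_eq_self _ ((0, 1) : ℝ × ℝ)]
  congr 1
  funext p
  unfold sqd
  simp

theorem psi_total (τ : ℝ) (h0 : 0 < τ) (h1 : τ < 1) :
    ∫⁻ p, psi τ p = ENNReal.ofReal (2 * Real.pi / 3 * (1 - (1 - τ) ^ 3)) := by
  have h2 : (∫⁻ p, psi τ p) + ∫⁻ p, sqd (1 - τ) p = ∫⁻ p, sqd 1 p := by
    rw [← lintegral_add_right _ (sqd_meas _)]
    exact lintegral_congr fun p => psi_add τ h0 h1 p
  rw [sqd_total _ (by linarith), sqd_total _ (by norm_num)] at h2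
  have hp := Real.pi_pos
  have h3 : (1 - τ) ^ 3 ≤ 1 := pow_le_one₀ (by linarith) (by linarith)
  have h4 : ENNReal.ofReal (2 * Real.pi / 3 * 1 ^ 3)
      = ENNReal.ofReal (2 * Real.pi / 3 * (1 - (1 - τ) ^ 3))
        + ENNReal.ofReal (2 * Real.pi / 3 * (1 - τ) ^ 3) := by
    rw [← ENNReal.ofReal_add]
    · congr 1
      ring
    · have : 0 ≤ 1 - (1 - τ) ^ 3 := by linarith
      positivity
    · have : 0 ≤ 1 - τ := by linarith
      positivity
  rw [h4] at h2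
  exact (ENNReal.add_left_inj ENNReal.ofReal_ne_top).1 h2

theorem psi_plank (F : Fam n) (i : Fin n) (τ : ℝ) (h0 : 0 < τ) (h1 : τ < 1) :
    ∫⁻ p in F.pl i, psi τ p
      ≤ ENNReal.ofReal (Real.pi / 2 * (2 * τ - τ ^ 2) * (2 * F.d i / F.nm i)) := by
  have h2 : (∫⁻ p in F.pl i, psi τ p) + ∫⁻ p in F.pl i, sqd (1 - τ) p
      = ∫⁻ p in F.pl i, sqd 1 p := by
    rw [← lintegral_add_right _ (sqd_meas _)]
    exact lintegral_congr fun p => psi_add τ h0 h1 p
  rw [sqd_plank F i _ (by linarith), sqd_plank F i _ (by norm_num)] at h2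
  have hp := Real.pi_pos
  have hnm : 0 < F.nm i := Real.sqrt_pos.2 (F.nz i)
  have hd := F.dn i
  obtain ⟨A, hA⟩ : ∃ A, A = (F.c i - F.b i - F.d i) / F.nm i := ⟨_, rfl⟩
  obtain ⟨B, hB⟩ : ∃ B, B = (F.c i - F.b i + F.d i) / F.nm i := ⟨_, rfl⟩
  rw [← hA, ← hB] at h2
  have hAB : A ≤ B := by
    rw [hA, hB]
    exact div_le_div_of_nonneg_right (by linarith) hnm.le
  have hlen : B - A = 2 * F.d i / F.nm i := by
    rw [hA, hB]
    ring
  have hT : 0 ≤ 2 * τ - τ ^ 2 := by nlinarith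
  have h5 : ∫ s in A..B, max ((1 : ℝ) ^ 2 - s ^ 2) 0
      ≤ (2 * τ - τ ^ 2) * (2 * F.d i / F.nm i) + ∫ s in A..B, max ((1 - τ) ^ 2 - s ^ 2) 0 := by
    have h6 : ∫ s in A..B, ((2 * τ - τ ^ 2) + max ((1 - τ) ^ 2 - s ^ 2) 0)
        = (2 * τ - τ ^ 2) * (2 * F.d i / F.nm i)
          + ∫ s in A..B, max ((1 - τ) ^ 2 - s ^ 2) 0 := by
      rw [intervalIntegral.integral_add, intervalIntegral.integral_const, hlen]
      · rw [smul_eq_mul]
        ring
      · exact intervalIntegrable_const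
      · exact Continuous.intervalIntegrable (by fun_prop) _ _
    rw [← h6]
    apply intervalIntegral.integral_mono_on hAB
    · exact Continuous.intervalIntegrable (by fun_prop) _ _
    · exact Continuous.intervalIntegrable (by fun_prop) _ _
    · intro s _
      apply max_le
      · have := le_max_left ((1 - τ) ^ 2 - s ^ 2) 0
        nlinarith
      · have := le_max_right ((1 - τ) ^ 2 - s ^ 2) 0
        linarith
  have h7 : 0 ≤ ∫ s in A..B, max ((1 - τ) ^ 2 - s ^ 2) 0 :=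
    intervalIntegral.integral_nonneg hAB fun s _ => le_max_right _ _
  have h8 : ENNReal.ofReal (Real.pi / 2 * ∫ s in A..B, max ((1 : ℝ) ^ 2 - s ^ 2) 0)
      ≤ ENNReal.ofReal (Real.pi / 2 * (2 * τ - τ ^ 2) * (2 * F.d i / F.nm i))
        + ENNReal.ofReal (Real.pi / 2 * ∫ s in A..B, max ((1 - τ) ^ 2 - s ^ 2) 0) := by
    rw [← ENNReal.ofReal_add (by positivity) (by positivity)]
    apply ENNReal.ofReal_le_ofReal
    calc Real.pi / 2 * ∫ s in A..B, max ((1 : ℝ) ^ 2 - s ^ 2) 0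
        ≤ Real.pi / 2 * ((2 * τ - τ ^ 2) * (2 * F.d i / F.nm i)
          + ∫ s in A..B, max ((1 - τ) ^ 2 - s ^ 2) 0) :=
          mul_le_mul_of_nonneg_left h5 (by positivity)
      _ = _ := by ring
  rw [← h2] at h8
  exact (ENNReal.add_le_add_iff_right ENNReal.ofReal_ne_top).1 h8

theorem ov_id (F : Fam n) (p : ℝ × ℝ) :
    1 + F.ov p = ∑ i, (F.pl i).indicator (fun _ => (1 : ℝ≥0∞)) p
      + (F.covᶜ).indicator (fun _ => (1 : ℝ≥0∞)) p := by
  classical
  have h1 : ∑ i, (F.pl i).indicator (fun _ => (1 : ℝ≥0∞)) p = (F.N p : ℝ≥0∞) := by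
    unfold Fam.N
    rw [Finset.card_filter, Nat.cast_sum]
    refine Finset.sum_congr rfl fun i _ => ?_
    by_cases h : p ∈ F.pl i
    · simp [h]
    · simp [h]
  rw [h1]
  by_cases h : p ∈ F.cov
  · have h2 : p ∉ F.covᶜ := fun h' => h' h
    rw [indicator_of_notMem h2, add_zero]
    have h3 : 1 ≤ F.N p := by
      unfold Fam.N
      obtain ⟨i, hi⟩ := h
      exact Finset.card_pos.2 ⟨i, by simp [hi]⟩
    unfold Fam.ov
    have h4 : F.N p = 1 + (F.N p - 1) := by omega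
    conv_rhs => rw [h4]
    push_cast
    rfl
  · rw [indicator_of_mem (show p ∈ F.covᶜ from h)]
    have h3 : F.N p = 0 := by
      unfold Fam.N
      rw [Finset.card_eq_zero, Finset.filter_eq_empty_iff]
      intro i _ hi
      exact h ⟨i, hi⟩
    unfold Fam.ov
    simp [h3]

theorem shell_ineq (F : Fam n) (hw : ∑ i, 2 * F.d i / F.nm i < 2) :
    ∃ τ0 > 0, ∀ τ, 0 < τ → τ < τ0 → ∫⁻ p, F.ov p * psi τ p < ∫⁻ p in F.covᶜ, psi τ p := by
  obtain ⟨s, hs⟩ : ∃ s, s = ∑ i, 2 * F.d i / F.nm i := ⟨_, rfl⟩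
  have hs0 : 0 ≤ s := by
    rw [hs]
    refine Finset.sum_nonneg fun i _ => ?_
    have hnm : 0 < F.nm i := Real.sqrt_pos.2 (F.nz i)
    have hd := F.dn i
    positivity
  rw [← hs] at hw
  refine ⟨min 1 ((2 - s) / 2), lt_min one_pos (by linarith), ?_⟩
  intro τ h0 hτ
  have h1 : τ < 1 := lt_of_lt_of_le hτ (min_le_left _ _)
  have h2 : τ < (2 - s) / 2 := lt_of_lt_of_le hτ (min_le_right _ _)
  have hp := Real.pi_pos
  have hcovm : MeasurableSet F.covᶜ := (isClosed_cov F).measurableSet.compl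

  have hid : (∫⁻ p, psi τ p) + ∫⁻ p, F.ov p * psi τ p
      = (∑ i, ∫⁻ p in F.pl i, psi τ p) + ∫⁻ p in F.covᶜ, psi τ p := by
    rw [← lintegral_add_left (psi_meas τ)]
    have e1 : ∀ i, ∫⁻ p in F.pl i, psi τ p
        = ∫⁻ p, (F.pl i).indicator (fun _ => (1 : ℝ≥0∞)) p * psi τ p := by
      intro i
      rw [← lintegral_indicator (pl_meas F i)]
      congr 1
      funext p
      by_cases h : p ∈ F.pl i <;> simp [h]
    have e2 : ∫⁻ p in F.covᶜ, psi τ p
        = ∫⁻ p, (F.covᶜ).indicator (fun _ => (1 : ℝ≥0∞)) p * psi τ p := by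
      rw [← lintegral_indicator hcovm]
      congr 1
      funext p
      by_cases h : p ∈ F.covᶜ
      · rw [indicator_of_mem h, indicator_of_mem h, one_mul]
      · rw [indicator_of_notMem h, indicator_of_notMem h, zero_mul]
    rw [e2, Finset.sum_congr rfl fun i _ => e1 i]
    have m1 : ∀ i ∈ (Finset.univ : Finset (Fin n)),
        Measurable fun p => (F.pl i).indicator (fun _ => (1 : ℝ≥0∞)) p * psi τ p := fun i _ =>
      (measurable_const.indicator (pl_meas F i)).mul (psi_meas τ)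
    have m2 : Measurable fun p => (F.covᶜ).indicator (fun _ => (1 : ℝ≥0∞)) p * psi τ p :=
      (measurable_const.indicator hcovm).mul (psi_meas τ)
    rw [← lintegral_finsetSum _ m1, ← lintegral_add_right _ m2]
    congr 1
    funext p
    rw [← Finset.sum_mul, ← add_mul, ← ov_id, add_mul, one_mul]
  have hT : 0 ≤ 2 * τ - τ ^ 2 := by nlinarith
  have hsum : ∑ i, ∫⁻ p in F.pl i, psi τ p
      ≤ ENNReal.ofReal (Real.pi / 2 * (2 * τ - τ ^ 2) * s) := by
    refine (Finset.sum_le_sum fun i _ => psi_plank F i τ h0 h1).trans ?_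
    rw [← ENNReal.ofReal_sum_of_nonneg, ← Finset.mul_sum, ← hs]
    intro i _
    have hnm : 0 < F.nm i := Real.sqrt_pos.2 (F.nz i)
    have hd := F.dn i
    positivity
  have htot := psi_total τ h0 h1
  have hlt : Real.pi / 2 * (2 * τ - τ ^ 2) * s < 2 * Real.pi / 3 * (1 - (1 - τ) ^ 3) := by
    have e : 2 * Real.pi / 3 * (1 - (1 - τ) ^ 3) - Real.pi / 2 * (2 * τ - τ ^ 2) * s
        = Real.pi * τ * ((2 - 2 * τ - s) + 2 / 3 * τ ^ 2 + s * τ / 2) := by ring
    have h3 : 0 < 2 - 2 * τ - s := by linarith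
    have : 0 < Real.pi * τ * ((2 - 2 * τ - s) + 2 / 3 * τ ^ 2 + s * τ / 2) := by positivity
    linarith
  have hlt' : ENNReal.ofReal (Real.pi / 2 * (2 * τ - τ ^ 2) * s) < ∫⁻ p, psi τ p := by
    rw [htot]
    apply (ENNReal.ofReal_lt_ofReal_iff_of_nonneg (by positivity)).2 hlt
  have hfin : ∫⁻ p, psi τ p ≠ ⊤ := by
    rw [htot]
    exact ENNReal.ofReal_ne_top
  have hyfin : ∫⁻ p in F.covᶜ, psi τ p ≠ ⊤ :=
    ne_top_of_le_ne_top hfin (setLIntegral_le_lintegral _ _)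
  by_contra hcon
  push Not at hcon
  have hle : (∫⁻ p, psi τ p) + ∫⁻ p, F.ov p * psi τ p
      ≤ ENNReal.ofReal (Real.pi / 2 * (2 * τ - τ ^ 2) * s) + ∫⁻ p in F.covᶜ, psi τ p := by
    rw [hid]
    gcongr
  have hxfin : ∫⁻ p, F.ov p * psi τ p ≠ ⊤ :=
    ne_top_of_le_ne_top (ENNReal.add_ne_top.2 ⟨ENNReal.ofReal_ne_top, hyfin⟩)
      (le_trans le_add_self hle)
  have hle2 : (∫⁻ p, psi τ p) + ∫⁻ p, F.ov p * psi τ p
      ≤ ENNReal.ofReal (Real.pi / 2 * (2 * τ - τ ^ 2) * s) + ∫⁻ p, F.ov p * psi τ p :=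
    hle.trans (by gcongr)
  exact absurd ((ENNReal.add_le_add_iff_right hxfin).1 hle2) (not_le.2 hlt')

end A1

alias shell_ineq := A1.shell_ineq

end Pool.Agent.Helper934.Ann
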