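import Mathlib
import Pool.Agent.Helper934.AnnDefs
import Pool.Agent.Helper934.AnnGODefs
import Pool.Agent.Helper934.AnnGeoDefs

open MeasureTheory Set
open scoped ENNReal

namespace Pool.Agent.Helper934.Ann

variable {n : ℕ}

namespace A2

theorem bb_pos : (0:ℝ) < bb := by norm_num [bb]

theorem bb_lt : bb < 1 := by norm_num [bb]

theorem kk_nonneg (k : ℕ) (y : ℝ) : 0 ≤ kk k y := by
  unfold kk
  have hw : 0 ≤ √(√y) := Real.sqrt_nonneg _
  have h1 : 0 < bb ^ (k+1) := pow_pos bb_pos _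
  have h2 : 0 < bb ^ k := pow_pos bb_pos _
  have h3 : bb ^ (k+1) ≤ bb ^ k := by
    rw [pow_succ]; nlinarith [bb_lt]
  rw [sub_nonneg]
  exact div_le_div_of_nonneg_left hw (by linarith) (by linarith)

theorem kk_sum (K : ℕ) (y : ℝ) :
    ∑ k ∈ Finset.range K, kk k y = √(√y) / (bb ^ K + √(√y)) - √(√y) / (1 + √(√y)) := by
  induction K with
  | zero => simp
  | succ K ih =>
    rw [Finset.sum_range_succ, ih]; unfold kk; ring

theorem kk_sum_le (K : ℕ) (y : ℝ) : ∑ k ∈ Finset.range K, kk k y ≤ 1 := by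
  rw [kk_sum]
  have hw : 0 ≤ √(√y) := Real.sqrt_nonneg _
  have h1 : 0 < bb ^ K := pow_pos bb_pos _
  have h2 : √(√y) / (bb ^ K + √(√y)) ≤ 1 := by
    rw [div_le_one (by linarith)]; linarith
  have h3 : 0 ≤ √(√y) / (1 + √(√y)) := by positivity
  linarith

theorem Lay_meas (k : ℕ) : MeasurableSet (Lay k) := by
  unfold Lay
  exact (measurableSet_lt measurable_const measurable_snd).inter
    (measurableSet_le measurable_snd measurable_const)

theorem Lay_cov (K : ℕ) (p : ℝ × ℝ) (h1 : 21 / 20 * bb ^ (4 * K) < p.2) (h2 : p.2 ≤ 21 / 20) :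
    ∃ k < K, p ∈ Lay k := by
  classical
  have hex : ∃ k, 21 / 20 * bb ^ (4 * k) < p.2 := ⟨K, h1⟩
  have hs := Nat.find_spec hex
  have hm : Nat.find hex ≤ K := Nat.find_min' hex h1
  have h0 : Nat.find hex ≠ 0 := by
    intro h
    rw [h] at hs
    norm_num at hs
    linarith
  obtain ⟨k, hk⟩ := Nat.exists_eq_succ_of_ne_zero h0
  refine ⟨k, by omega, ?_, ?_⟩
  · rw [hk] at hs; exact hs
  · have := Nat.find_min hex (m := k) (by omega)
    linarith

theorem pigeon (g1 g2 : ℝ × ℝ → ℝ≥0∞) (hg1 : Measurable g1) (hg2 : Measurable g2)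
    (G : Set (ℝ × ℝ)) (hG : MeasurableSet G) (K : ℕ)
    (hGK : ∀ p ∈ G, 21 / 20 * bb ^ (4 * K) < p.2 ∧ p.2 ≤ 21 / 20)
    (h : ∫⁻ p, g1 p < ∫⁻ p in G, g2 p) :
    ∃ k < K, ∫⁻ p, g1 p * ENNReal.ofReal (kk k p.2) < ∫⁻ p in G ∩ Lay k, g2 p := by
  classical
  by_contra hcon
  push Not at hcon
  have hkm : ∀ k, Measurable (fun p : ℝ × ℝ => kk k p.2) := by
    intro k
    unfold kk
    fun_prop
  have s1 : ∫⁻ p in G, g2 p ≤ ∑ k ∈ Finset.range K, ∫⁻ p in G ∩ Lay k, g2 p := by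
    rw [← lintegral_indicator hG]
    have : ∀ k ∈ Finset.range K, ∫⁻ p in G ∩ Lay k, g2 p = ∫⁻ p, (G ∩ Lay k).indicator g2 p := by
      intro k _
      rw [lintegral_indicator (hG.inter (Lay_meas k))]
    rw [Finset.sum_congr rfl this, ← lintegral_finsetSum _
      (fun k _ => hg2.indicator (hG.inter (Lay_meas k)))]
    apply lintegral_mono
    intro p
    by_cases hp : p ∈ G
    · obtain ⟨k, hk, hpk⟩ := Lay_cov K p (hGK p hp).1 (hGK p hp).2
      have hpm : p ∈ G ∩ Lay k := ⟨hp, hpk⟩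
      have e1 : (G ∩ Lay k).indicator g2 p = g2 p := Set.indicator_of_mem hpm _
      simp only [Set.indicator_of_mem hp]
      rw [← e1]
      exact Finset.single_le_sum (f := fun k => (G ∩ Lay k).indicator g2 p) (fun _ _ => zero_le)
        (Finset.mem_range.2 hk)
    · simp only [Set.indicator_of_notMem hp]
      exact zero_le
  have s2 : ∑ k ∈ Finset.range K, ∫⁻ p, g1 p * ENNReal.ofReal (kk k p.2) ≤ ∫⁻ p, g1 p := by
    have hm : ∀ k ∈ Finset.range K, Measurable (fun p : ℝ × ℝ => g1 p * ENNReal.ofReal (kk k p.2)) :=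
      fun k _ => hg1.mul (hkm k).ennreal_ofReal
    rw [← lintegral_finsetSum _ hm]
    apply lintegral_mono
    intro p
    show ∑ k ∈ Finset.range K, g1 p * ENNReal.ofReal (kk k p.2) ≤ g1 p
    rw [← Finset.mul_sum, ← ENNReal.ofReal_sum_of_nonneg (fun k _ => kk_nonneg k p.2)]
    calc g1 p * ENNReal.ofReal (∑ k ∈ Finset.range K, kk k p.2) ≤ g1 p * 1 := by
          gcongr
          rw [ENNReal.ofReal_le_one]
          exact kk_sum_le K p.2
      _ = g1 p := mul_one _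
  have s3 : ∑ k ∈ Finset.range K, ∫⁻ p in G ∩ Lay k, g2 p
      ≤ ∑ k ∈ Finset.range K, ∫⁻ p, g1 p * ENNReal.ofReal (kk k p.2) :=
    Finset.sum_le_sum (fun k hk => hcon k (Finset.mem_range.1 hk))
  exact absurd h (not_lt.2 (s1.trans (s3.trans s2)))

end A2

alias pigeon := A2.pigeon

end Pool.Agent.Helper934.Ann
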