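import Mathlib
import Pool.Agent.Helper934.AnnDefs
import Pool.Agent.Helper934.AnnGODefs
import Pool.Agent.Helper934.AnnGeoDefs
import Pool.Agent.Helper934.AnnJ3
import Pool.Agent.Helper934.AnnA1
import Pool.Agent.Helper934.AnnA2

open MeasureTheory Set
open scoped ENNReal

namespace Pool.Agent.Helper934.Ann

variable {n : ℕ}

theorem bb_pos : (0:ℝ) < bb := by norm_num [bb]

theorem bb_lt : bb < 1 := by norm_num [bb]

theorem bbp_pos (k : ℕ) : (0:ℝ) < bb ^ k := pow_pos bb_pos k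

theorem bbp_le (k : ℕ) : bb ^ k ≤ 1 := pow_le_one₀ bb_pos.le bb_lt.le

theorem psi_eq (τ : ℝ) (p : ℝ × ℝ) : psi τ p = ENNReal.ofReal
    (√(2 * p.2 - p.1 ^ 2 - p.2 ^ 2) - √(2 * p.2 - p.1 ^ 2 - p.2 ^ 2 - (2 * τ - τ ^ 2))) := by
  unfold psi
  have h1 : 1 - (p.1 ^ 2 + (p.2 - 1) ^ 2) = 2 * p.2 - p.1 ^ 2 - p.2 ^ 2 := by ring
  have h2 : (1 - τ) ^ 2 - (p.1 ^ 2 + (p.2 - 1) ^ 2) =
      2 * p.2 - p.1 ^ 2 - p.2 ^ 2 - (2 * τ - τ ^ 2) := by ring
  rw [h1, h2]

theorem sq_up {D T : ℝ} (hD : 0 < D) (hT : 0 ≤ T) : √D - √(D - T) ≤ T / √D := by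
  have hs : 0 < √D := Real.sqrt_pos.2 hD
  have hs2 : √D * √D = D := Real.mul_self_sqrt hD.le
  rw [le_div_iff₀ hs]
  rcases le_total T D with h | h
  · have ht2 : √(D - T) * √(D - T) = D - T := Real.mul_self_sqrt (by linarith)
    have ht0 : 0 ≤ √(D - T) := Real.sqrt_nonneg _
    have hle : √(D - T) ≤ √D := Real.sqrt_le_sqrt (by linarith)
    nlinarith
  · have ht0 : √(D - T) = 0 := Real.sqrt_eq_zero_of_nonpos (by linarith)
    rw [ht0]
    linarith

theorem sq_lo {D T : ℝ} (hD : 0 < D) (hT : 0 ≤ T) (h : T ≤ D) : T / (2 * √D) ≤ √D - √(D - T) := by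
  have hs : 0 < √D := Real.sqrt_pos.2 hD
  have hs2 : √D * √D = D := Real.mul_self_sqrt hD.le
  rw [div_le_iff₀ (by positivity)]
  have ht2 : √(D - T) * √(D - T) = D - T := Real.mul_self_sqrt (by linarith)
  have ht0 : 0 ≤ √(D - T) := Real.sqrt_nonneg _
  have hle : √(D - T) ≤ √D := Real.sqrt_le_sqrt (by linarith)
  nlinarith

theorem psi_up {τ : ℝ} (h0 : 0 ≤ 2 * τ - τ ^ 2) (p : ℝ × ℝ)
    (hD : 0 < 2 * p.2 - p.1 ^ 2 - p.2 ^ 2) :
    psi τ p ≤ ENNReal.ofReal ((2 * τ - τ ^ 2) / √(2 * p.2 - p.1 ^ 2 - p.2 ^ 2)) := by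
  rw [psi_eq]
  exact ENNReal.ofReal_le_ofReal (sq_up hD h0)

theorem psi_lo {τ : ℝ} (h0 : 0 ≤ 2 * τ - τ ^ 2) (p : ℝ × ℝ)
    (hD : 0 < 2 * p.2 - p.1 ^ 2 - p.2 ^ 2) (h : 2 * τ - τ ^ 2 ≤ 2 * p.2 - p.1 ^ 2 - p.2 ^ 2) :
    ENNReal.ofReal ((2 * τ - τ ^ 2) / (2 * √(2 * p.2 - p.1 ^ 2 - p.2 ^ 2))) ≤ psi τ p := by
  rw [psi_eq]
  exact ENNReal.ofReal_le_ofReal (sq_lo hD h0 h)

theorem psi_out {τ : ℝ} (h0 : 0 ≤ 2 * τ - τ ^ 2) (p : ℝ × ℝ)
    (hD : 2 * p.2 - p.1 ^ 2 - p.2 ^ 2 < 0) : psi τ p = 0 := by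
  rw [psi_eq, Real.sqrt_eq_zero_of_nonpos hD.le, Real.sqrt_eq_zero_of_nonpos (by linarith)]
  simp

theorem measurable_psi (τ : ℝ) : Measurable (psi τ) := by
  unfold psi
  fun_prop

theorem measurable_kk (k : ℕ) : Measurable (fun p : ℝ × ℝ => ENNReal.ofReal (kk k p.2)) := by
  unfold kk
  fun_prop

theorem kk_lo {j k : ℕ} (hjk : j ≤ k) {Y : ℝ} (h1 : 3 / 100 ≤ Y) (h2 : Y ≤ 33 / 25) :
    bb ^ (k - j) / 2000 ≤ kk k (bb ^ (4 * j) * Y) := by
  have hj := bbp_pos j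
  have hY0 : (0:ℝ) ≤ Y := by linarith
  set v : ℝ := √(√Y) with hv
  have hv1 : (2:ℝ) / 5 ≤ v := by
    rw [hv]
    apply Real.le_sqrt_of_sq_le
    apply Real.le_sqrt_of_sq_le
    norm_num
    linarith
  have hv2 : v ≤ 2 := by
    rw [hv, Real.sqrt_le_left (by norm_num), Real.sqrt_le_left (by norm_num)]
    norm_num
    linarith
  have hw : √(√(bb ^ (4 * j) * Y)) = bb ^ j * v := by
    have e1 : bb ^ (4 * j) = (bb ^ (2 * j)) ^ 2 := by rw [← pow_mul]; congr 1; ring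
    have e2 : bb ^ (2 * j) = (bb ^ j) ^ 2 := by rw [← pow_mul]; congr 1; ring
    rw [e1, Real.sqrt_mul (by positivity), Real.sqrt_sq (bbp_pos _).le, e2,
      Real.sqrt_mul (by positivity), Real.sqrt_sq hj.le]
  set e : ℝ := bb ^ (k - j) with he
  have he0 : 0 < e := bbp_pos _
  have he1 : e ≤ 1 := bbp_le _
  have hk : bb ^ k = bb ^ j * e := by
    rw [he, ← pow_add]; congr 1; omega
  have hk1 : bb ^ (k + 1) = bb ^ j * (bb * e) := by
    rw [pow_succ, hk]; ring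
  have hb0 := bb_pos
  have hb1 := bb_lt
  have hv0 : 0 < v := by linarith
  have hmain : kk k (bb ^ (4 * j) * Y) = v * e * (1 - bb) / ((bb * e + v) * (e + v)) := by
    unfold kk
    rw [hw, hk, hk1]
    have p1 : (0:ℝ) < bb * e + v := by positivity
    have p2 : (0:ℝ) < e + v := by positivity
    have d1 : bb ^ j * (bb * e) + bb ^ j * v = bb ^ j * (bb * e + v) := by ring
    have d2 : bb ^ j * e + bb ^ j * v = bb ^ j * (e + v) := by ring
    rw [d1, d2, mul_div_mul_left _ _ hj.ne', mul_div_mul_left _ _ hj.ne']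
    field_simp
    ring
  rw [hmain, le_div_iff₀ (by positivity)]
  have hbb : 1 - bb = 1 / 400 := by norm_num [bb]
  rw [hbb]
  have h3 : (bb * e + v) * (e + v) ≤ (1 + v) * (1 + v) := by
    apply mul_le_mul
    · nlinarith
    · linarith
    · positivity
    · positivity
  have h4 : (1 + v) * (1 + v) ≤ 5 * v := by nlinarith
  nlinarith

theorem Cfg.G_prop (C : Cfg n) (hε : C.ε ≤ 1 / 20) {p : ℝ × ℝ} (hp : p ∈ C.G) :
    C.η - C.ε ≤ p.2 ∧ p.2 ≤ 21 / 20 ∧ 17 / 20 * p.2 ≤ 2 * p.2 - p.1 ^ 2 - p.2 ^ 2 := by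
  have h1 := C.hε
  have h2 := C.hηε
  have h3 := C.hη
  obtain ⟨h4, h5⟩ := hp
  have h6 : p.1 ^ 2 + (p.2 - C.η) ^ 2 ≤ C.ε ^ 2 := by
    by_contra hc
    push Not at hc
    exact h5 (C.hcov p.1 p.2 h4 hc)
  have h7 : |p.2 - C.η| ≤ C.ε := by
    apply abs_le_of_sq_le_sq _ h1.le
    nlinarith [sq_nonneg p.1]
  rw [abs_le] at h7
  have h8 : C.η - C.ε ≤ p.2 := by linarith
  have h9 : p.2 ≤ 21 / 20 := by linarith
  have h10 : 0 < p.2 := by linarith
  refine ⟨h8, h9, ?_⟩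
  have h11 : p.1 ^ 2 ≤ (p.2 - (C.η - C.ε)) * (C.η + C.ε - p.2) := by nlinarith
  have h12 : (p.2 - (C.η - C.ε)) * (C.η + C.ε - p.2) ≤ p.2 * (2 * C.ε) := by
    apply mul_le_mul <;> linarith
  nlinarith

theorem Cfg.measurableSet_G (C : Cfg n) : MeasurableSet C.G := by
  have h1 : MeasurableSet {p : ℝ × ℝ | p.1 ^ 2 + p.2 ^ 2 ≤ 2 * p.2} :=
    (isClosed_le (by fun_prop) (by fun_prop)).measurableSet
  exact h1.inter (isClosed_cov C.F).measurableSet.compl

theorem Cfg.vol_G (C : Cfg n) (hε : C.ε ≤ 1 / 20) : volume C.G < ⊤ := by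
  have h : C.G ⊆ Icc ((-2 : ℝ), (-2 : ℝ)) ((2 : ℝ), (2 : ℝ)) := by
    intro p hp
    have h1 := C.G_prop hε hp
    have h2 := C.hηε
    have h3 := hp.1
    rw [mem_Icc, Prod.le_def, Prod.le_def]
    refine ⟨⟨?_, ?_⟩, ⟨?_, ?_⟩⟩
    · show -2 ≤ p.1
      nlinarith [sq_nonneg (p.2 - 1)]
    · show -2 ≤ p.2
      linarith
    · show p.1 ≤ 2
      nlinarith [sq_nonneg (p.2 - 1)]
    · show p.2 ≤ 2
      linarith
  exact lt_of_le_of_lt (measure_mono h) isCompact_Icc.measure_lt_top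

theorem stageA (C : Cfg n) (hε : C.ε ≤ 1 / 20) (hw : ∑ i, 2 * C.F.d i / C.F.nm i < 2) :
    ∃ (k : ℕ) (g : ℝ), 0 < g ∧ C.P1 k g ∧ C.P2 k g := by
  obtain ⟨τ0, hτ0, hshell⟩ := shell_ineq C.F hw
  have hb0 := bb_pos
  have hb1 := bb_lt
  have hηε := C.hηε
  obtain ⟨K, hK⟩ : ∃ K : ℕ, 21 / 20 * bb ^ (4 * K) < C.η - C.ε := by
    have h1 : (0:ℝ) < (C.η - C.ε) / (21 / 20) := by
      apply div_pos <;> linarith
    obtain ⟨K, hK⟩ := exists_pow_lt_of_lt_one h1 hb1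
    refine ⟨K, ?_⟩
    have h2 : bb ^ (4 * K) ≤ bb ^ K := pow_le_pow_of_le_one hb0.le hb1.le (by omega)
    have h3 : bb ^ (4 * K) < (C.η - C.ε) / (21 / 20) := lt_of_le_of_lt h2 hK
    rw [lt_div_iff₀ (by norm_num)] at h3
    linarith
  obtain ⟨τ, hτpos, hττ0, hτK⟩ : ∃ τ : ℝ, 0 < τ ∧ τ < τ0 ∧ τ ≤ bb ^ (4 * K) / 200 := by
    have h1 := bbp_pos (4 * K)
    refine ⟨min (τ0 / 2) (bb ^ (4 * K) / 200), ?_, ?_, min_le_right _ _⟩
    · apply lt_min <;> linarith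
    · exact lt_of_le_of_lt (min_le_left _ _) (by linarith)
  have hτ1 : τ ≤ 1 / 200 := by
    have := bbp_le (4 * K)
    linarith
  have hT0 : 0 < 2 * τ - τ ^ 2 := by nlinarith
  have hTK : 2 * τ - τ ^ 2 ≤ bb ^ (4 * K) / 100 := by nlinarith
  have hsh := hshell τ hτpos hττ0

  have hgap : ∫⁻ p in C.F.covᶜ, psi τ p ≤ ∫⁻ p in C.G, psi τ p := by
    rw [← lintegral_indicator (isClosed_cov C.F).measurableSet.compl,
      ← lintegral_indicator C.measurableSet_G]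
    apply lintegral_mono
    intro p
    by_cases hp : p ∈ C.F.covᶜ
    · rw [indicator_of_mem hp]
      by_cases hD : p.1 ^ 2 + p.2 ^ 2 ≤ 2 * p.2
      · rw [indicator_of_mem (show p ∈ C.G from ⟨hD, hp⟩)]
      · rw [psi_out hT0.le p (by linarith)]
        exact bot_le
    · rw [indicator_of_notMem hp]
      exact bot_le
  obtain ⟨k, hkK, hk⟩ := pigeon (fun p => C.F.ov p * psi τ p) (psi τ)
    ((measurable_ov C.F).mul (measurable_psi τ)) (measurable_psi τ) C.G C.measurableSet_G K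
    (fun p hp => by
      have h := C.G_prop hε hp
      exact ⟨by linarith [h.1], h.2.1⟩)
    (lt_of_lt_of_le hsh hgap)
  set T : ℝ := 2 * τ - τ ^ 2 with hT
  set γ : ℝ≥0∞ := ∫⁻ p in C.G ∩ Lay k, psi τ p with hγ

  have hγle : γ ≤ ENNReal.ofReal (T * (2 / bb ^ (2 * k))) * volume (C.G ∩ Lay k) := by
    rw [hγ, ← setLIntegral_const]
    refine setLIntegral_mono' ?_ ?_
    · refine C.measurableSet_G.inter ?_
      have h1 : MeasurableSet {p : ℝ × ℝ | 21 / 20 * bb ^ (4 * (k + 1)) < p.2} :=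
        (isOpen_lt (by fun_prop) (by fun_prop)).measurableSet
      have h2 : MeasurableSet {p : ℝ × ℝ | p.2 ≤ 21 / 20 * bb ^ (4 * k)} :=
        (isClosed_le (by fun_prop) (by fun_prop)).measurableSet
      exact h1.inter h2
    · intro p hp
      obtain ⟨h1, h2, h3⟩ := C.G_prop hε hp.1
      have h4 : 21 / 20 * bb ^ (4 * (k + 1)) < p.2 := hp.2.1
      have h5 : bb ^ (4 * (k + 1)) = bb ^ 4 * (bb ^ (2 * k)) ^ 2 := by
        rw [← pow_mul, ← pow_add]; congr 1; ring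
      have h6 : (9:ℝ) / 10 ≤ bb ^ 4 := by norm_num [bb]
      have h7 := bbp_pos (2 * k)
      have h8 : (bb ^ (2 * k) / 2) ^ 2 ≤ 2 * p.2 - p.1 ^ 2 - p.2 ^ 2 := by
        have h9 : 0 < (bb ^ (2 * k)) ^ 2 := by positivity
        nlinarith
      have hD : 0 < 2 * p.2 - p.1 ^ 2 - p.2 ^ 2 := lt_of_lt_of_le (by positivity) h8
      refine (psi_up hT0.le p hD).trans (ENNReal.ofReal_le_ofReal ?_)
      have h10 : bb ^ (2 * k) / 2 ≤ √(2 * p.2 - p.1 ^ 2 - p.2 ^ 2) := Real.le_sqrt_of_sq_le h8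
      have h11 : T / √(2 * p.2 - p.1 ^ 2 - p.2 ^ 2) ≤ T / (bb ^ (2 * k) / 2) :=
        div_le_div_of_nonneg_left hT0.le (by positivity) h10
      refine h11.trans (le_of_eq ?_)
      field_simp
  have hvol : volume (C.G ∩ Lay k) < ⊤ :=
    lt_of_le_of_lt (measure_mono inter_subset_left) (C.vol_G hε)
  have hγtop : γ ≠ ⊤ := by
    refine ne_of_lt (lt_of_le_of_lt hγle ?_)
    exact ENNReal.mul_lt_top ENNReal.ofReal_lt_top hvol
  have hγpos : 0 < γ := lt_of_le_of_lt bot_le hk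
  have hγr : 0 < γ.toReal := ENNReal.toReal_pos hγpos.ne' hγtop
  have hγofR : ENNReal.ofReal γ.toReal = γ := ENNReal.ofReal_toReal hγtop
  refine ⟨k, γ.toReal / T, by positivity, ?_, ?_⟩
  · intro j hjk neg S hS hSm
    have hj2 := bbp_pos (2 * j)
    have hj4 := bbp_pos (4 * j)
    have he0 := bbp_pos (k - j)
    set A : Aff := chart j neg with hA
    have hAmap : ∀ p : ℝ × ℝ, (A.map p).2 = bb ^ (4 * j) * p.2 ∧
        (A.map p).1 ^ 2 = bb ^ (4 * j) * p.1 ^ 2 := by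
      intro p
      have h44 : bb ^ (4 * j) = (bb ^ (2 * j)) ^ 2 := by rw [← pow_mul]; congr 1; ring
      constructor
      · simp [hA, Aff.map, chart]
      · simp only [hA, Aff.map, chart]
        rw [h44]
        cases neg <;> simp <;> ring
    have hdet : |A.det| = bb ^ (2 * j) * bb ^ (4 * j) := by
      simp only [hA, Aff.det, chart]
      cases neg
      · simp [abs_mul, abs_of_pos hb0]
      · simp [abs_mul, abs_of_pos hb0]
    set M : ℝ := 8000 * bb ^ (2 * j) / (T * bb ^ (k - j)) with hM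
    have hM0 : 0 < M := by positivity

    have hpt : ∀ p ∈ S, (C.ch j neg).ov p ≤ ENNReal.ofReal M *
        (C.F.ov (A.map p) * psi τ (A.map p) * ENNReal.ofReal (kk k (A.map p).2)) := by
      intro p hp
      obtain ⟨r1, r2, r3⟩ := hS hp
      obtain ⟨a1, a2⟩ := hAmap p
      have hov : (C.ch j neg).ov p = C.F.ov (A.map p) := pull_ov C.F A p
      rw [hov]
      have hkk : bb ^ (k - j) / 2000 ≤ kk k (A.map p).2 := by
        rw [a1]; exact kk_lo hjk r1 r2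
      have hDeq : 2 * (A.map p).2 - (A.map p).1 ^ 2 - (A.map p).2 ^ 2 =
          bb ^ (4 * j) * (2 * p.2 - p.1 ^ 2 - bb ^ (4 * j) * p.2 ^ 2) := by
        rw [a2, a1]; ring
      have hle1 := bbp_le (4 * j)
      have hlow : 1 / 100 ≤ 2 * p.2 - p.1 ^ 2 - bb ^ (4 * j) * p.2 ^ 2 := by
        nlinarith [sq_nonneg p.2]
      have hup : 2 * p.2 - p.1 ^ 2 - bb ^ (4 * j) * p.2 ^ 2 ≤ 4 := by
        nlinarith [sq_nonneg p.1, sq_nonneg p.2, mul_nonneg hj4.le (sq_nonneg p.2)]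
      have hD0 : 0 < 2 * (A.map p).2 - (A.map p).1 ^ 2 - (A.map p).2 ^ 2 := by
        rw [hDeq]; apply mul_pos hj4; linarith
      have hTle : T ≤ 2 * (A.map p).2 - (A.map p).1 ^ 2 - (A.map p).2 ^ 2 := by
        have h1 : bb ^ (4 * K) ≤ bb ^ (4 * j) := pow_le_pow_of_le_one hb0.le hb1.le (by omega)
        rw [hDeq]
        nlinarith
      have hpsi := psi_lo hT0.le (A.map p) hD0 hTle
      have hsq : √(2 * (A.map p).2 - (A.map p).1 ^ 2 - (A.map p).2 ^ 2) ≤ 2 * bb ^ (2 * j) := by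
        rw [Real.sqrt_le_left (by positivity), hDeq]
        have h44 : bb ^ (4 * j) = (bb ^ (2 * j)) ^ 2 := by rw [← pow_mul]; congr 1; ring
        have h5 : bb ^ (4 * j) * (2 * p.2 - p.1 ^ 2 - bb ^ (4 * j) * p.2 ^ 2) ≤
            bb ^ (4 * j) * 4 := mul_le_mul_of_nonneg_left hup hj4.le
        refine h5.trans (le_of_eq ?_)
        rw [h44]; ring
      have hsq0 : 0 < √(2 * (A.map p).2 - (A.map p).1 ^ 2 - (A.map p).2 ^ 2) :=
        Real.sqrt_pos.2 hD0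
      have hpsi2 : ENNReal.ofReal (T / (4 * bb ^ (2 * j))) ≤ psi τ (A.map p) := by
        refine le_trans (ENNReal.ofReal_le_ofReal ?_) hpsi
        apply div_le_div_of_nonneg_left hT0.le (by positivity)
        linarith
      have hone : (1 : ℝ≥0∞) ≤ ENNReal.ofReal M * (psi τ (A.map p) *
          ENNReal.ofReal (kk k (A.map p).2)) := by
        have h1 : ENNReal.ofReal M * (ENNReal.ofReal (T / (4 * bb ^ (2 * j))) *
            ENNReal.ofReal (bb ^ (k - j) / 2000)) = 1 := by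
          rw [← ENNReal.ofReal_mul (by positivity), ← ENNReal.ofReal_mul hM0.le,
            ← ENNReal.ofReal_one]
          congr 1
          rw [hM]
          field_simp
          norm_num
        rw [← h1]
        gcongr
      calc C.F.ov (A.map p) = C.F.ov (A.map p) * 1 := (mul_one _).symm
        _ ≤ C.F.ov (A.map p) * (ENNReal.ofReal M * (psi τ (A.map p) *
          ENNReal.ofReal (kk k (A.map p).2))) := by gcongr
        _ = _ := by ring
    have hmeas : Measurable (fun q : ℝ × ℝ => C.F.ov q * psi τ q *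
        ENNReal.ofReal (kk k q.2)) :=
      ((measurable_ov C.F).mul (measurable_psi τ)).mul (measurable_kk k)
    have hint : ∫⁻ p in S, (C.ch j neg).ov p ≤ ENNReal.ofReal M *
        (ENNReal.ofReal |A.det|⁻¹ * γ) := by
      calc ∫⁻ p in S, (C.ch j neg).ov p
          ≤ ∫⁻ p in S, ENNReal.ofReal M *
            (C.F.ov (A.map p) * psi τ (A.map p) * ENNReal.ofReal (kk k (A.map p).2)) :=
            setLIntegral_mono' hSm hpt
        _ = ENNReal.ofReal M * ∫⁻ p in S,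
            (C.F.ov (A.map p) * psi τ (A.map p) * ENNReal.ofReal (kk k (A.map p).2)) :=
            lintegral_const_mul' _ _ ENNReal.ofReal_ne_top
        _ = ENNReal.ofReal M * (ENNReal.ofReal |A.det|⁻¹ * ∫⁻ q in A.map '' S,
            (C.F.ov q * psi τ q * ENNReal.ofReal (kk k q.2))) := by
            rw [lintegral_map A (fun q : ℝ × ℝ => C.F.ov q * psi τ q *
              ENNReal.ofReal (kk k q.2)) hmeas S hSm]
        _ ≤ ENNReal.ofReal M * (ENNReal.ofReal |A.det|⁻¹ * γ) := by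
            gcongr
            exact (setLIntegral_le_lintegral _ _).trans hk.le
    refine hint.trans ?_
    have hγ2 : ENNReal.ofReal |A.det|⁻¹ * γ = ENNReal.ofReal (|A.det|⁻¹ * γ.toReal) := by
      rw [ENNReal.ofReal_mul (by positivity), hγofR]
    rw [hγ2, hdet, ← ENNReal.ofReal_mul hM0.le]
    apply ENNReal.ofReal_le_ofReal
    rw [hM]
    have hgg : 0 ≤ γ.toReal / T / (bb ^ (4 * j) * bb ^ (k - j)) := by positivity
    have e1 : 8000 * bb ^ (2 * j) / (T * bb ^ (k - j)) *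
        ((bb ^ (2 * j) * bb ^ (4 * j))⁻¹ * γ.toReal) =
        8000 * (γ.toReal / T / (bb ^ (4 * j) * bb ^ (k - j))) := by
      field_simp
    have e2 : 20000 * (γ.toReal / T) / (bb ^ (4 * j) * bb ^ (k - j)) =
        20000 * (γ.toReal / T / (bb ^ (4 * j) * bb ^ (k - j))) := by
      ring
    rw [e1, e2]
    linarith
  · unfold Cfg.P2
    rw [ENNReal.ofReal_div_of_pos hT0, hγofR]
    refine ENNReal.div_le_of_le_mul ?_
    refine hγle.trans (le_of_eq ?_)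
    rw [ENNReal.ofReal_mul hT0.le]
    ring

end Pool.Agent.Helper934.Ann
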