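import Mathlib
import Pool.Agent.Helper934.AnnDefs
import Pool.Agent.Helper934.AnnGODefs
import Pool.Agent.Helper934.AnnGeoDefs
import Pool.Agent.Helper934.AnnJ3

open MeasureTheory Set
open scoped ENNReal

namespace Pool.Agent.Helper934.Ann

variable {n : ℕ}

namespace B1a

theorem reg_cov (C : Cfg n) (j : ℕ) (neg : Bool) (p : ℝ × ℝ) (hr : p.1 ^ 2 + p.2 ^ 2 ≤ 2 * p.2)
    (hh : 2 * C.ε * p.2 < p.1 ^ 2) : p ∈ (C.ch j neg).cov := by
  unfold Cfg.ch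
  rw [pull_cov]
  obtain ⟨x, y⟩ := p
  simp only at hr hh
  have hb0 : (0:ℝ) < bb ^ j := pow_pos (by norm_num [bb]) _
  have hb1 : bb ^ j ≤ 1 := pow_le_one₀ (by norm_num [bb]) (by norm_num [bb])
  set B : ℝ := bb ^ j with hB
  have e2 : bb ^ (2 * j) = B ^ 2 := by rw [hB, ← pow_mul, mul_comm]
  have e4 : bb ^ (4 * j) = B ^ 4 := by rw [hB, ← pow_mul, mul_comm]
  have hB4 : B ^ 4 ≤ 1 := pow_le_one₀ hb0.le hb1
  have hB40 : 0 < B ^ 4 := pow_pos hb0 4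
  have hm : (chart j neg).map (x, y) = ((if neg then -1 else 1) * B ^ 2 * x, B ^ 4 * y) := by
    simp only [Aff.map, chart, e2, e4]
    ext <;> simp
  rw [hm]
  have hX : ((if neg then -1 else 1) * B ^ 2 * x) ^ 2 = B ^ 4 * x ^ 2 := by
    cases neg <;> simp <;> ring
  apply C.hcov
  · rw [hX]
    have hy2 : 0 ≤ y ^ 2 := sq_nonneg y
    nlinarith [mul_le_mul_of_nonneg_left hr hB40.le, mul_nonneg (mul_nonneg hB40.le hy2) (sub_nonneg.2 hB4)]
  · rw [hX]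
    by_contra hcon
    push Not at hcon
    have h1 : B ^ 4 * (2 * C.ε * y) < B ^ 4 * x ^ 2 := mul_lt_mul_of_pos_left hh hB40
    have hε := C.hε
    have hηε := C.hηε
    have hx2 : 0 ≤ B ^ 4 * x ^ 2 := by positivity
    have h2 : (B ^ 4 * y - C.η) ^ 2 ≤ C.ε ^ 2 := by linarith
    have h3 := abs_le_of_sq_le_sq' h2 hε.le
    set Y := B ^ 4 * y with hY
    have h4 : B ^ 4 * (2 * C.ε * y) = 2 * C.ε * Y := by rw [hY]; ring
    rw [h4] at h1
    nlinarith [mul_nonneg (sub_nonneg.2 h3.1) (sub_nonneg.2 h3.2), mul_pos hε (sub_pos.2 hηε)]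

theorem reg_cov0 (C : Cfg n) (neg : Bool) (p : ℝ × ℝ) (hr : p.1 ^ 2 + p.2 ^ 2 ≤ 2 * p.2)
    (hh : C.η + C.ε < p.2) : p ∈ (C.ch 0 neg).cov := by
  unfold Cfg.ch
  rw [pull_cov]
  obtain ⟨x, y⟩ := p
  simp only at hr hh
  have hm : (chart 0 neg).map (x, y) = ((if neg then -1 else 1) * x, y) := by
    simp only [Aff.map, chart]
    ext <;> simp
  rw [hm]
  have hX : ((if neg then -1 else 1) * x) ^ 2 = x ^ 2 := by
    cases neg <;> simp
  apply C.hcov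
  · rw [hX]; exact hr
  · rw [hX]
    have hε := C.hε
    nlinarith [sq_nonneg x]

theorem g_bound (C : Cfg n) (k : ℕ) (g : ℝ) (h2 : C.P2 k g) : g ≤ √C.ε * bb ^ (4 * k) := by
  unfold Cfg.P2 at h2
  have hε := C.hε
  have hηε := C.hηε
  have hb0 : (0:ℝ) < bb ^ k := pow_pos (by norm_num [bb]) _
  set B : ℝ := bb ^ k with hB
  have e2 : bb ^ (2 * k) = B ^ 2 := by rw [hB, ← pow_mul, mul_comm]
  have e4 : bb ^ (4 * k) = B ^ 4 := by rw [hB, ← pow_mul, mul_comm]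
  have e44 : bb ^ (4 * (k + 1)) = B ^ 4 * bb ^ 4 := by
    rw [mul_add, pow_add, e4]
  have hs0 : 0 < √C.ε := Real.sqrt_pos.2 hε
  have hss : √C.ε ^ 2 = C.ε := Real.sq_sqrt hε.le
  set s : ℝ := √C.ε with hs

  have hsub : C.G ∩ Lay k ⊆ Icc (-(3 / 2 * s * B ^ 2)) (3 / 2 * s * B ^ 2) ×ˢ
      Icc (21 / 20 * (B ^ 4 * bb ^ 4)) (21 / 20 * B ^ 4) := by
    rintro ⟨x, y⟩ ⟨⟨h1, hn⟩, hl1, hl2⟩
    simp only at h1 hl1 hl2
    rw [e44] at hl1
    rw [e4] at hl2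
    have hc : x ^ 2 + (y - C.η) ^ 2 ≤ C.ε ^ 2 := by
      by_contra hcon
      push Not at hcon
      exact hn (C.hcov x y h1 hcon)
    have h2' : (y - C.η) ^ 2 ≤ C.ε ^ 2 := by nlinarith [sq_nonneg x]
    have h3 := abs_le_of_sq_le_sq' h2' hε.le
    have hx : x ^ 2 ≤ 2 * C.ε * y := by
      nlinarith [mul_nonneg (sub_nonneg.2 h3.1) (sub_nonneg.2 h3.2), mul_pos hε (sub_pos.2 hηε)]
    have hx2 : x ^ 2 ≤ (3 / 2 * s * B ^ 2) ^ 2 := by
      have : (3 / 2 * s * B ^ 2) ^ 2 = 9 / 4 * C.ε * B ^ 4 := by rw [← hss]; ring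
      rw [this]
      have hB4 : 0 < B ^ 4 := pow_pos hb0 4
      nlinarith [mul_le_mul_of_nonneg_left hl2 hε.le, mul_pos hε hB4]
    have h5 := abs_le_of_sq_le_sq' hx2 (by positivity)
    exact ⟨⟨h5.1, h5.2⟩, ⟨hl1.le, hl2⟩⟩
  have hvol : volume (C.G ∩ Lay k) ≤ ENNReal.ofReal (3 * s * B ^ 2 * (21 / 20 * B ^ 4 * (1 - bb ^ 4))) := by
    refine (measure_mono hsub).trans ?_
    rw [Measure.volume_eq_prod, Measure.prod_prod, Real.volume_Icc, Real.volume_Icc,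
      ← ENNReal.ofReal_mul (by have : 0 ≤ s * B ^ 2 := by positivity
                               linarith)]
    apply ENNReal.ofReal_le_ofReal
    apply le_of_eq
    ring
  have h3 : ENNReal.ofReal g ≤ ENNReal.ofReal (2 / B ^ 2 * (3 * s * B ^ 2 * (21 / 20 * B ^ 4 * (1 - bb ^ 4)))) := by
    rw [ENNReal.ofReal_mul (by positivity)]
    rw [e2] at h2
    exact h2.trans (by gcongr)
  have hbb : 1 - bb ^ 4 ≤ 1 / 100 := by norm_num [bb]
  have hbb0 : 0 ≤ 1 - bb ^ 4 := by norm_num [bb]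
  rw [ENNReal.ofReal_le_ofReal_iff (by positivity)] at h3
  have h4 : 2 / B ^ 2 * (3 * s * B ^ 2 * (21 / 20 * B ^ 4 * (1 - bb ^ 4))) =
      s * B ^ 4 * (63 / 10 * (1 - bb ^ 4)) := by
    field_simp
    ring
  rw [h4] at h3
  rw [e4]
  refine h3.trans ?_
  have h5 : 0 ≤ s * B ^ 4 := by positivity
  nlinarith

end B1a

alias reg_cov := B1a.reg_cov

alias reg_cov0 := B1a.reg_cov0

alias g_bound := B1a.g_bound

end Pool.Agent.Helper934.Ann
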