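import Mathlib
import Pool.Agent.Helper934.AnnDefs
import Pool.Agent.Helper934.AnnGODefs
import Pool.Agent.Helper934.AnnGeoDefs

open MeasureTheory Set
open scoped ENNReal

namespace Pool.Agent.Helper934.Ann

variable {n : ℕ}

namespace B1b

lemma reg_of (X Y A B : ℝ) (h1 : |X| ≤ A) (h2 : B ≤ Y) (h3 : Y ≤ 33 / 25) (h4 : 3 / 100 ≤ B)
    (h5 : B ≤ 1) (h6 : A ^ 2 + 1 / 100 ≤ 2 * B - B ^ 2) (h7 : A ^ 2 + 1 / 100 ≤ 8 / 10) :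
    (X, Y) ∈ Reg := by
  have hX : X ^ 2 ≤ A ^ 2 := by
    rw [← sq_abs X]; exact pow_le_pow_left₀ (abs_nonneg _) h1 2
  refine ⟨h4.trans h2, h3, ?_⟩
  show X ^ 2 + Y ^ 2 + 1 / 100 ≤ 2 * Y
  rcases le_total Y 1 with h | h
  · nlinarith [mul_nonneg (sub_nonneg.mpr h2) (show (0:ℝ) ≤ 2 - Y - B by linarith)]
  · nlinarith [mul_nonneg (sub_nonneg.mpr h3) (show (0:ℝ) ≤ 33 / 25 + Y - 2 by linarith)]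

lemma eps_of (ε X Y A : ℝ) (hε0 : 0 < ε) (hε : ε ≤ 1 / 10 ^ 6) (hY : Y ≤ 33 / 25)
    (hA : 1 / 10 ≤ A) (h1 : A ≤ X) : 2 * ε * Y < X ^ 2 := by
  have h2 : 2 * ε * Y ≤ 2 * ε * (33 / 25) := mul_le_mul_of_nonneg_left hY (by positivity)
  have h3 : (1 / 10 : ℝ) ^ 2 ≤ X ^ 2 := pow_le_pow_left₀ (by norm_num) (hA.trans h1) 2
  norm_num at h2 h3 hε ⊢
  linarith

theorem xgeo_a (ε X0 Yc s : ℝ) (hε0 : 0 < ε) (hε : ε ≤ 1 / 10 ^ 6) (hX : |X0| ≤ 1 / 1000) (hY1 : 103 / 100 ≤ Yc)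
    (hY2 : Yc ≤ 21 / 20) (hs : |s| ≤ 1 / 2) :
    ∀ p ∈ (xfr X0 Yc s).map '' QQ, p ∈ Reg ∧ 2 * ε * p.2 < p.1 ^ 2 := by
  rintro _ ⟨⟨t, η⟩, ⟨⟨ht1, ht2⟩, hη1, hη2⟩, rfl⟩
  simp only at ht1 ht2 hη1 hη2
  rw [abs_le] at hX hs
  have e1 : ((xfr X0 Yc s).map (t, η)) = (X0 + 3 / 20 * t, Yc + 3 / 20 * s * t + 1 / 40 * η) := by
    simp [Aff.map, xfr]
  rw [e1]
  have hst1 : -(1 / 2 * 3) ≤ s * t := by nlinarith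
  have hst2 : s * t ≤ 1 / 2 * 3 := by nlinarith
  refine ⟨reg_of _ _ (451 / 1000) (3 / 4) ?_ ?_ ?_ ?_ ?_ ?_ ?_, eps_of _ _ _ (149 / 1000) hε0 hε ?_ ?_ ?_⟩
  · rw [abs_le]; constructor <;> linarith
  · nlinarith
  · nlinarith
  · norm_num
  · norm_num
  · norm_num
  · norm_num
  · show Yc + 3 / 20 * s * t + 1 / 40 * η ≤ 33 / 25
    nlinarith
  · norm_num
  · show _ ≤ X0 + 3 / 20 * t
    linarith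

theorem xgeo_b (ε X0 Yc s : ℝ) (hε0 : 0 < ε) (hε : ε ≤ 1 / 10 ^ 6) (hX : |X0| ≤ 1 / 1000) (hY1 : 0 ≤ Yc)
    (hY2 : Yc ≤ 21 / 20) (hs1 : 49 / 100 ≤ s) (hs2 : s ≤ 51 / 100) :
    ∀ p ∈ (xfr X0 Yc s).map '' QQ, p ∈ Reg ∧ 2 * ε * p.2 < p.1 ^ 2 := by
  rintro _ ⟨⟨t, η⟩, ⟨⟨ht1, ht2⟩, hη1, hη2⟩, rfl⟩
  simp only at ht1 ht2 hη1 hη2
  rw [abs_le] at hX
  have e1 : ((xfr X0 Yc s).map (t, η)) = (X0 + 3 / 20 * t, Yc + 3 / 20 * s * t + 1 / 40 * η) := by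
    simp [Aff.map, xfr]
  rw [e1]
  have hst1 : 49 / 100 * t ≤ s * t := by nlinarith
  have hst2 : s * t ≤ 51 / 100 * 3 := by nlinarith
  have hpar := mul_nonneg (sub_nonneg.mpr ht1) (sub_nonneg.mpr ht2)
  refine ⟨reg_of _ _ (1 / 1000 + 3 / 20 * t) (147 / 2000 * t - 3 / 80) ?_ ?_ ?_ ?_ ?_ ?_ ?_,
    eps_of _ _ _ (149 / 1000) hε0 hε ?_ ?_ ?_⟩
  · rw [abs_le]; constructor <;> linarith
  · nlinarith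
  · nlinarith
  · linarith
  · linarith
  · nlinarith
  · nlinarith
  · show Yc + 3 / 20 * s * t + 1 / 40 * η ≤ 33 / 25
    nlinarith
  · norm_num
  · show _ ≤ X0 + 3 / 20 * t
    linarith

theorem ygeo_b (ε Y0 ρ : ℝ) (hε0 : 0 < ε) (hε : ε ≤ 1 / 10 ^ 6) (hY1 : 0 ≤ Y0)
    (hY2 : Y0 ≤ 21 / 20) (hs1 : 100 / 51 ≤ ρ) (hs2 : ρ ≤ 100 / 49) :
    ∀ p ∈ (yfr Y0 ρ).map '' QQ, p ∈ Reg ∧ 2 * ε * p.2 < p.1 ^ 2 := by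
  rintro _ ⟨⟨t, η⟩, ⟨⟨ht1, ht2⟩, hη1, hη2⟩, rfl⟩
  simp only at ht1 ht2 hη1 hη2
  have e1 : ((yfr Y0 ρ).map (t, η)) = (3 / 40 * ρ * t + 1 / 40 * η, Y0 + 3 / 40 * t) := by
    simp [Aff.map, yfr]
  rw [e1]
  have hst1 : 100 / 51 * 1 ≤ ρ * t := by nlinarith
  have hst2 : ρ * t ≤ 100 / 49 * t := by nlinarith
  have hpar := mul_nonneg (sub_nonneg.mpr ht1) (sub_nonneg.mpr ht2)
  refine ⟨reg_of _ _ (75 / 490 * t + 3 / 80) (3 / 40 * t) ?_ ?_ ?_ ?_ ?_ ?_ ?_,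
    eps_of _ _ _ (1 / 10) hε0 hε ?_ ?_ ?_⟩
  · rw [abs_le]; constructor <;> nlinarith
  · linarith
  · linarith
  · linarith
  · linarith
  · nlinarith
  · nlinarith
  · show Y0 + 3 / 40 * t ≤ 33 / 25
    linarith
  · norm_num
  · show _ ≤ 3 / 40 * ρ * t + 1 / 40 * η
    nlinarith

theorem ygeo_0 (Y0 ρ : ℝ) (hY1 : 0 ≤ Y0) (hY2 : Y0 ≤ 21 / 20) (hρ : |ρ| ≤ 41 / 20) :
    ∀ p ∈ (yfr Y0 ρ).map '' QQ, p ∈ Reg ∧ Y0 + 3 / 40 ≤ p.2 := by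
  rintro _ ⟨⟨t, η⟩, ⟨⟨ht1, ht2⟩, hη1, hη2⟩, rfl⟩
  simp only at ht1 ht2 hη1 hη2
  rw [abs_le] at hρ
  have e1 : ((yfr Y0 ρ).map (t, η)) = (3 / 40 * ρ * t + 1 / 40 * η, Y0 + 3 / 40 * t) := by
    simp [Aff.map, yfr]
  rw [e1]
  have hst1 : -(41 / 20 * t) ≤ ρ * t := by nlinarith
  have hst2 : ρ * t ≤ 41 / 20 * t := by nlinarith
  have hpar := mul_nonneg (sub_nonneg.mpr ht1) (sub_nonneg.mpr ht2)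
  refine ⟨reg_of _ _ (123 / 800 * t + 3 / 80) (3 / 40 * t) ?_ ?_ ?_ ?_ ?_ ?_ ?_, ?_⟩
  · rw [abs_le]; constructor <;> nlinarith
  · linarith
  · linarith
  · linarith
  · linarith
  · nlinarith
  · nlinarith
  · show _ ≤ Y0 + 3 / 40 * t
    linarith

lemma dsk_bd {c p : ℝ × ℝ} (hp : p ∈ dsk c (1 / 20)) :
    |p.1 - c.1| ≤ 1 / 20 ∧ |p.2 - c.2| ≤ 1 / 20 := by
  have hp' : (p.1 - c.1) ^ 2 + (p.2 - c.2) ^ 2 ≤ (1 / 20) ^ 2 := hp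
  constructor
  · apply abs_le_of_sq_le_sq _ (by norm_num)
    nlinarith [sq_nonneg (p.2 - c.2)]
  · apply abs_le_of_sq_le_sq _ (by norm_num)
    nlinarith [sq_nonneg (p.1 - c.1)]

theorem sr_geo (ε : ℝ) (hε0 : 0 < ε) (hε : ε ≤ 1 / 10 ^ 6) (c : ℝ × ℝ) (hc : c ∈ SR) :
    ∀ p ∈ dsk c (1 / 20), p ∈ Reg ∧ 2 * ε * p.2 < p.1 ^ 2 := by
  intro p hp
  obtain ⟨h1, h2⟩ := dsk_bd hp
  obtain ⟨⟨c1, c2⟩, c3, c4⟩ := hc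
  rw [abs_le] at h1 h2
  refine ⟨reg_of p.1 p.2 (36 / 100) (9 / 100) ?_ ?_ ?_ ?_ ?_ ?_ ?_,
    eps_of _ _ _ (1 / 10) hε0 hε ?_ ?_ ?_⟩
  · rw [abs_le]; constructor <;> linarith
  · linarith
  · linarith
  · norm_num
  · norm_num
  · norm_num
  · norm_num
  · linarith
  · norm_num
  · linarith

theorem s2_geo (c : ℝ × ℝ) (h1 : |c.1| ≤ 31 / 100) (h2 : 15 / 100 ≤ c.2) (h3 : c.2 ≤ 6 / 5) :
    ∀ p ∈ dsk c (1 / 20), p ∈ Reg ∧ c.2 - 1 / 20 ≤ p.2 := by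
  intro p hp
  obtain ⟨h4, h5⟩ := dsk_bd hp
  rw [abs_le] at h1 h4 h5
  refine ⟨reg_of p.1 p.2 (36 / 100) (1 / 10) ?_ ?_ ?_ ?_ ?_ ?_ ?_, ?_⟩
  · rw [abs_le]; constructor <;> linarith
  · linarith
  · linarith
  · norm_num
  · norm_num
  · norm_num
  · norm_num
  · linarith

end B1b

alias xgeo_a := B1b.xgeo_a

alias xgeo_b := B1b.xgeo_b

alias ygeo_b := B1b.ygeo_b

alias ygeo_0 := B1b.ygeo_0

alias sr_geo := B1b.sr_geo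

alias s2_geo := B1b.s2_geo

end Pool.Agent.Helper934.Ann
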