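import Mathlib
import Pool.Agent.Helper934.AnnDefs

open MeasureTheory Set
open scoped ENNReal

namespace Pool.Agent.Helper934.Ann

variable {n : ℕ}

namespace J1

/-- Bang's sign argument in the plane. -/

theorem bang_sign (α β w m : Fin n → ℝ) (hu : ∀ i, α i ^ 2 + β i ^ 2 = 1)
    (_hw : ∀ i, 0 ≤ w i) :
    ∃ σ : Fin n → Bool, ∀ i, 0 < w i →
      w i / 2 ≤ |α i * (∑ j, (if σ j then (1:ℝ) else -1) * (w j / 2) * α j) +
        β i * (∑ j, (if σ j then (1:ℝ) else -1) * (w j / 2) * β j) - m i| := by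
  classical
  let sg : (Fin n → Bool) → Fin n → ℝ := fun σ i => if σ i then 1 else -1
  have hsg2 : ∀ σ i, sg σ i * sg σ i = 1 := by
    intro σ i
    simp only [sg]
    split_ifs <;> norm_num
  let X : (Fin n → Bool) → ℝ := fun σ => ∑ j, sg σ j * (w j / 2) * α j
  let Y : (Fin n → Bool) → ℝ := fun σ => ∑ j, sg σ j * (w j / 2) * β j
  let Φ : (Fin n → Bool) → ℝ := fun σ => X σ ^ 2 + Y σ ^ 2 - ∑ i, sg σ i * w i * m i
  obtain ⟨σ, _, hσ⟩ := Finset.exists_max_image (Finset.univ : Finset (Fin n → Bool))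
      Φ ⟨fun _ => true, Finset.mem_univ _⟩
  refine ⟨σ, fun i hi => ?_⟩
  change w i / 2 ≤ |α i * X σ + β i * Y σ - m i|
  let τ : Fin n → Bool := Function.update σ i (!(σ i))
  have hτi : sg τ i = - sg σ i := by
    simp only [sg, τ, Function.update_self]
    cases σ i <;> simp
  have hτj : ∀ j, j ≠ i → sg τ j = sg σ j := by
    intro j hj
    simp only [sg, τ, Function.update_of_ne hj]
  have hgen : ∀ g : Fin n → ℝ, ∑ j, sg τ j * g j = ∑ j, sg σ j * g j - 2 * (sg σ i * g i) := by
    intro g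
    rw [← Finset.add_sum_erase _ _ (Finset.mem_univ i),
      ← Finset.add_sum_erase _ (fun j => sg σ j * g j) (Finset.mem_univ i), hτi]
    have : ∑ j ∈ Finset.univ.erase i, sg τ j * g j =
        ∑ j ∈ Finset.univ.erase i, sg σ j * g j := by
      apply Finset.sum_congr rfl
      intro j hj
      rw [hτj j (Finset.ne_of_mem_erase hj)]
    rw [this]
    ring
  have hX : X τ = X σ - sg σ i * w i * α i := by
    have h := hgen (fun j => w j / 2 * α j)
    have e1 : X τ = ∑ j, sg τ j * (w j / 2 * α j) :=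
      Finset.sum_congr rfl fun j _ => by ring
    have e2 : X σ = ∑ j, sg σ j * (w j / 2 * α j) :=
      Finset.sum_congr rfl fun j _ => by ring
    rw [e1, e2, h]
    ring
  have hY : Y τ = Y σ - sg σ i * w i * β i := by
    have h := hgen (fun j => w j / 2 * β j)
    have e1 : Y τ = ∑ j, sg τ j * (w j / 2 * β j) :=
      Finset.sum_congr rfl fun j _ => by ring
    have e2 : Y σ = ∑ j, sg σ j * (w j / 2 * β j) :=
      Finset.sum_congr rfl fun j _ => by ring
    rw [e1, e2, h]
    ring
  have hS : ∑ j, sg τ j * w j * m j = ∑ j, sg σ j * w j * m j - 2 * (sg σ i * w i * m i) := by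
    have h := hgen (fun j => w j * m j)
    have e1 : ∑ j, sg τ j * w j * m j = ∑ j, sg τ j * (w j * m j) :=
      Finset.sum_congr rfl fun j _ => by ring
    have e2 : ∑ j, sg σ j * w j * m j = ∑ j, sg σ j * (w j * m j) :=
      Finset.sum_congr rfl fun j _ => by ring
    rw [e1, e2, h]
    ring
  have h1 : Φ τ ≤ Φ σ := hσ τ (Finset.mem_univ _)
  simp only [Φ] at h1
  rw [hX, hY, hS] at h1
  have h7 : sg σ i = 1 ∨ sg σ i = -1 := by
    simp only [sg]
    split_ifs <;> simp
  have hui : w i ^ 2 * (α i ^ 2 + β i ^ 2) = w i ^ 2 := by rw [hu i, mul_one]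
  rcases h7 with h7 | h7
  · rw [h7] at h1
    have h2 : w i * (w i - 2 * (α i * X σ + β i * Y σ - m i)) ≤ 0 := by linarith
    have h3 : w i - 2 * (α i * X σ + β i * Y σ - m i) ≤ 0 := by
      by_contra hcon
      push Not at hcon
      have := mul_pos hi hcon
      linarith
    exact le_trans (by linarith) (le_abs_self _)
  · rw [h7] at h1
    have h2 : w i * (w i + 2 * (α i * X σ + β i * Y σ - m i)) ≤ 0 := by linarith
    have h3 : w i + 2 * (α i * X σ + β i * Y σ - m i) ≤ 0 := by
      by_contra hcon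
      push Not at hcon
      have := mul_pos hi hcon
      linarith
    exact le_trans (by linarith) (neg_le_abs _)

theorem bang (F : Fam n) {R : ℝ} (hR : 0 < R) (p0 : ℝ × ℝ) (hcov : dsk p0 R ⊆ F.cov) :
    ∃ e : ℝ × ℝ, e.1 ^ 2 + e.2 ^ 2 = 1 ∧
      2 * R ≤ ∑ i, F.cw i p0 R * (|F.a i * e.1 + F.b i * e.2| / F.nm i) := by
  classical
  have hnm : ∀ i, 0 < F.nm i := fun i => Real.sqrt_pos.2 (F.nz i)
  have hnm2 : ∀ i, F.nm i ^ 2 = F.a i ^ 2 + F.b i ^ 2 := fun i => Real.sq_sqrt (F.nz i).le
  set α : Fin n → ℝ := fun i => F.a i / F.nm i with hα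
  set β : Fin n → ℝ := fun i => F.b i / F.nm i with hβ
  have hu : ∀ i, α i ^ 2 + β i ^ 2 = 1 := by
    intro i
    simp only [hα, hβ]
    rw [div_pow, div_pow, ← add_div, ← hnm2, div_self (pow_pos (hnm i) 2).ne']
  set L : Fin n → ℝ := fun i =>
    max ((F.c i - F.d i - (F.a i * p0.1 + F.b i * p0.2)) / F.nm i) (-R) with hL
  set U : Fin n → ℝ := fun i =>
    min ((F.c i + F.d i - (F.a i * p0.1 + F.b i * p0.2)) / F.nm i) R with hU
  have hcw : ∀ i, F.cw i p0 R = max 0 (U i - L i) := fun i => rfl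
  have hcw0 : ∀ i, 0 ≤ F.cw i p0 R := fun i => by rw [hcw]; exact le_max_left _ _
  let sg : (Fin n → Bool) → Fin n → ℝ := fun σ i => if σ i then 1 else -1
  have hsgabs : ∀ σ i, |sg σ i| = 1 := by
    intro σ i
    simp only [sg]
    split_ifs <;> simp
  let X : ℝ → (Fin n → Bool) → ℝ := fun t σ =>
    ∑ j, sg σ j * ((if L j ≤ U j then F.cw j p0 R + 2 * t else 0) / 2) * α j
  let Y : ℝ → (Fin n → Bool) → ℝ := fun t σ =>
    ∑ j, sg σ j * ((if L j ≤ U j then F.cw j p0 R + 2 * t else 0) / 2) * β j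
  by_cases hbig : ∃ σ, R ^ 2 ≤ X 0 σ ^ 2 + Y 0 σ ^ 2
  · obtain ⟨σ, hσ⟩ := hbig
    set ρ := √(X 0 σ ^ 2 + Y 0 σ ^ 2) with hρ
    have hpos : 0 < X 0 σ ^ 2 + Y 0 σ ^ 2 := lt_of_lt_of_le (pow_pos hR 2) hσ
    have hρ0 : 0 < ρ := Real.sqrt_pos.2 hpos
    have hρ2 : ρ ^ 2 = X 0 σ ^ 2 + Y 0 σ ^ 2 := Real.sq_sqrt hpos.le
    have hRρ : R ≤ ρ := Real.le_sqrt_of_sq_le hσ
    refine ⟨(X 0 σ / ρ, Y 0 σ / ρ), ?_, ?_⟩
    · simp only
      rw [div_pow, div_pow, ← add_div, ← hρ2, div_self (pow_pos hρ0 2).ne']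
    · have h1 : 2 * ρ = ∑ j, F.cw j p0 R * (sg σ j *
          ((F.a j * (X 0 σ / ρ) + F.b j * (Y 0 σ / ρ)) / F.nm j)) := by
        have h2 : 2 * ρ = 2 * (X 0 σ * (X 0 σ / ρ) + Y 0 σ * (Y 0 σ / ρ)) := by
          have : X 0 σ * (X 0 σ / ρ) + Y 0 σ * (Y 0 σ / ρ) = ρ := by
            rw [← mul_div_assoc, ← mul_div_assoc, ← add_div, ← sq, ← sq, ← hρ2, sq,
              mul_div_assoc, div_self hρ0.ne', mul_one]
          rw [this]
        rw [h2]
        have hcwif : ∀ j, (if L j ≤ U j then F.cw j p0 R + 2 * (0:ℝ) else 0) = F.cw j p0 R := by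
          intro j
          split_ifs with h
          · ring
          · rw [hcw, max_eq_left]
            push Not at h
            linarith
        have hXs : X 0 σ * (X 0 σ / ρ) = ∑ j, sg σ j * (F.cw j p0 R / 2) * α j * (X 0 σ / ρ) := by
          rw [← Finset.sum_mul]
          congr 1
          exact Finset.sum_congr rfl fun j _ => by rw [hcwif]
        have hYs : Y 0 σ * (Y 0 σ / ρ) = ∑ j, sg σ j * (F.cw j p0 R / 2) * β j * (Y 0 σ / ρ) := by
          rw [← Finset.sum_mul]
          congr 1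
          exact Finset.sum_congr rfl fun j _ => by rw [hcwif]
        rw [hXs, hYs, ← Finset.sum_add_distrib, Finset.mul_sum]
        refine Finset.sum_congr rfl fun j _ => ?_
        simp only [hα, hβ]
        ring
      calc 2 * R ≤ 2 * ρ := by linarith
        _ = _ := h1
        _ ≤ _ := by
          refine Finset.sum_le_sum fun j _ => ?_
          refine mul_le_mul_of_nonneg_left ?_ (hcw0 j)
          refine (le_abs_self _).trans ?_
          rw [abs_mul, hsgabs, one_mul, abs_div, abs_of_pos (hnm j)]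
  · exfalso
    push Not at hbig
    have hcont : ∀ σ, Continuous fun t => X t σ ^ 2 + Y t σ ^ 2 := by
      intro σ
      have hw : ∀ j, Continuous fun t : ℝ => (if L j ≤ U j then F.cw j p0 R + 2 * t else 0) := by
        intro j
        split_ifs
        · fun_prop
        · fun_prop
      have hX : Continuous fun t => X t σ := by
        refine continuous_finsetSum _ fun j _ => ?_
        exact (continuous_const.mul ((hw j).div_const 2)).mul continuous_const
      have hY : Continuous fun t => Y t σ := by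
        refine continuous_finsetSum _ fun j _ => ?_
        exact (continuous_const.mul ((hw j).div_const 2)).mul continuous_const
      exact (hX.pow 2).add (hY.pow 2)
    have hev : ∀ᶠ t in nhds (0:ℝ), ∀ σ, X t σ ^ 2 + Y t σ ^ 2 < R ^ 2 := by
      rw [Filter.eventually_all]
      intro σ
      exact (hcont σ).continuousAt.eventually_lt continuousAt_const (hbig σ)
    have hev2 : ∀ᶠ t in nhdsWithin (0:ℝ) (Ioi 0), ∀ σ, X t σ ^ 2 + Y t σ ^ 2 < R ^ 2 :=
      hev.filter_mono nhdsWithin_le_nhds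
    obtain ⟨t, hts, ht⟩ := (hev2.and self_mem_nhdsWithin).exists
    have ht0 : 0 < t := ht
    obtain ⟨σ, hσ⟩ := bang_sign α β (fun j => if L j ≤ U j then F.cw j p0 R + 2 * t else 0)
      (fun j => (L j + U j) / 2) hu (by
        intro j
        split_ifs
        · have := hcw0 j
          linarith
        · exact le_rfl)
    have hlt := hts σ
    set x := X t σ with hx
    set y := Y t σ with hy
    have hmem : (p0.1 + x, p0.2 + y) ∈ dsk p0 R := by
      simp only [dsk, mem_ofPred_eq]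
      have : (p0.1 + x - p0.1) ^ 2 + (p0.2 + y - p0.2) ^ 2 = x ^ 2 + y ^ 2 := by ring
      rw [this]
      exact hlt.le
    obtain ⟨i, hi⟩ := hcov hmem
    simp only [Fam.pl, mem_ofPred_eq] at hi
    rw [abs_le] at hi
    set v := α i * x + β i * y with hv
    have hvR : |v| ≤ R := by
      refine abs_le_of_sq_le_sq ?_ hR.le
      have h1 : v ^ 2 ≤ (α i ^ 2 + β i ^ 2) * (x ^ 2 + y ^ 2) := by
        rw [hv]
        nlinarith [sq_nonneg (α i * y - β i * x)]
      rw [hu i, one_mul] at h1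
      linarith
    have hvnm : v * F.nm i = F.a i * x + F.b i * y := by
      simp only [hv, hα, hβ]
      field_simp [(hnm i).ne']
    have hLv : L i ≤ v := by
      simp only [hL]
      refine max_le ?_ (abs_le.1 hvR).1
      rw [div_le_iff₀ (hnm i)]
      nlinarith [hi.1]
    have hvU : v ≤ U i := by
      simp only [hU]
      refine le_min ?_ (abs_le.1 hvR).2
      rw [le_div_iff₀ (hnm i)]
      nlinarith [hi.2]
    have hLU : L i ≤ U i := hLv.trans hvU
    have hcwi : F.cw i p0 R = U i - L i := by rw [hcw, max_eq_right]; linarith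
    have h := hσ i
    simp only [hLU, if_true] at h
    have h2 := h (by rw [hcwi]; linarith)
    change (F.cw i p0 R + 2 * t) / 2 ≤ |α i * x + β i * y - (L i + U i) / 2| at h2
    rw [← hv, hcwi] at h2
    have h3 : |v - (L i + U i) / 2| ≤ (U i - L i) / 2 := by
      rw [abs_le]
      constructor <;> linarith
    linarith

end J1

alias bang := J1.bang

end Pool.Agent.Helper934.Ann
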