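import Mathlib
import Pool.Agent.Helper934.AnnDefs

open MeasureTheory Set
open scoped ENNReal

namespace Pool.Agent.Helper934.Ann

variable {n : ℕ}

namespace J2b

theorem cw_pos {x : ℝ} (hx : 0 ≤ x) :
    ∫ μ in (0:ℝ)..1, 2 * μ * min x μ = min x 1 - (min x 1) ^ 3 / 3 := by
  set c := min x 1 with hc
  have hc0 : 0 ≤ c := le_min hx zero_le_one
  have hcx : c ≤ x := min_le_left _ _
  have hc1 : c ≤ 1 := min_le_right _ _
  have hcont : Continuous fun μ : ℝ => 2 * μ * min x μ := by fun_prop
  rw [← intervalIntegral.integral_add_adjacent_intervals (hcont.intervalIntegrable 0 c)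
    (hcont.intervalIntegrable c 1)]
  have h1 : ∫ μ in (0:ℝ)..c, 2 * μ * min x μ = ∫ μ in (0:ℝ)..c, 2 * μ ^ 2 := by
    apply intervalIntegral.integral_congr
    intro μ hμ
    rw [uIcc_of_le hc0] at hμ
    simp only
    rw [min_eq_right (hμ.2.trans hcx)]
    ring
  have h2 : ∫ μ in c..1, 2 * μ * min x μ = ∫ μ in c..1, (2 * c) * μ := by
    apply intervalIntegral.integral_congr
    intro μ hμ
    rw [uIcc_of_le hc1] at hμ
    simp only
    have : min x μ = c := by
      apply le_antisymm
      · exact le_min (min_le_left _ _) ((min_le_right _ _).trans hμ.2)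
      · exact le_min hcx hμ.1
    rw [this]
    ring
  rw [h1, h2, intervalIntegral.integral_const_mul, intervalIntegral.integral_const_mul,
    integral_pow, integral_id]
  norm_num
  ring

theorem sq_pos_case {x : ℝ} (hx : 0 ≤ x) :
    ∫ s in (0:ℝ)..x, max (1 - s ^ 2) 0 = min x 1 - (min x 1) ^ 3 / 3 := by
  have hcont : Continuous fun s : ℝ => max (1 - s ^ 2) 0 := by fun_prop
  have key : ∀ c : ℝ, 0 ≤ c → c ≤ 1 → ∫ s in (0:ℝ)..c, max (1 - s ^ 2) 0 = c - c ^ 3 / 3 := by
    intro c hc0 hc1
    have h1 : ∫ s in (0:ℝ)..c, max (1 - s ^ 2) 0 = ∫ s in (0:ℝ)..c, (1 - s ^ 2) := by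
      apply intervalIntegral.integral_congr
      intro s hs
      rw [uIcc_of_le hc0] at hs
      simp only
      apply max_eq_left
      nlinarith [hs.1, hs.2]
    rw [h1, intervalIntegral.integral_sub (by simp) ((continuous_pow 2).intervalIntegrable _ _),
      integral_pow]
    simp
    norm_num
  rcases le_total x 1 with h | h
  · rw [min_eq_left h]
    exact key x hx h
  · rw [min_eq_right h, ← intervalIntegral.integral_add_adjacent_intervals
      (hcont.intervalIntegrable 0 1) (hcont.intervalIntegrable 1 x), key 1 zero_le_one le_rfl]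
    have h2 : ∫ s in (1:ℝ)..x, max (1 - s ^ 2) 0 = ∫ s in (1:ℝ)..x, (0 : ℝ) := by
      apply intervalIntegral.integral_congr
      intro s hs
      rw [uIcc_of_le h] at hs
      simp only
      apply max_eq_right
      nlinarith [hs.1]
    rw [h2]
    simp

theorem clamp_int (x : ℝ) :
    ∫ μ in (0:ℝ)..1, 2 * μ * max (-μ) (min x μ) = ∫ s in (0:ℝ)..x, max (1 - s ^ 2) 0 := by
  rcases le_total 0 x with hx | hx
  · rw [sq_pos_case hx, ← cw_pos hx]
    apply intervalIntegral.integral_congr
    intro μ hμ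
    rw [uIcc_of_le zero_le_one] at hμ
    simp only
    rw [max_eq_right]
    exact le_min (by linarith [hμ.1]) (by linarith [hμ.1])
  · have hx' : 0 ≤ -x := by linarith
    have h1 : ∫ s in (0:ℝ)..x, max (1 - s ^ 2) 0 = -∫ s in (0:ℝ)..(-x), max (1 - s ^ 2) 0 := by
      have := intervalIntegral.integral_comp_neg (a := 0) (b := -x) (fun s : ℝ => max (1 - s ^ 2) 0)
      simp only [neg_sq, neg_neg, neg_zero] at this
      rw [this, intervalIntegral.integral_symm]
    rw [h1, sq_pos_case hx', ← cw_pos hx', ← intervalIntegral.integral_neg]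
    apply intervalIntegral.integral_congr
    intro μ hμ
    rw [uIcc_of_le zero_le_one] at hμ
    simp only
    rw [min_eq_left (by linarith [hμ.1] : x ≤ μ)]
    have : min (-x) μ = -max (-μ) x := by
      rw [← min_neg_neg, neg_neg, min_comm]
    rw [this]
    ring

theorem cw_int (a b : ℝ) (hab : a ≤ b) :
    ∫ μ in (0:ℝ)..1, 2 * μ * max 0 (min b μ - max a (-μ)) = ∫ s in a..b, max (1 - s ^ 2) 0 := by
  have hcont : Continuous fun s : ℝ => max (1 - s ^ 2) 0 := by fun_prop
  have hg : ∀ x : ℝ, Continuous fun μ : ℝ => 2 * μ * max (-μ) (min x μ) := fun x => by fun_prop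
  have h1 : ∫ s in a..b, max (1 - s ^ 2) 0 =
      (∫ s in (0:ℝ)..b, max (1 - s ^ 2) 0) - ∫ s in (0:ℝ)..a, max (1 - s ^ 2) 0 := by
    have := intervalIntegral.integral_add_adjacent_intervals (μ := volume) (hcont.intervalIntegrable 0 a)
      (hcont.intervalIntegrable a b)
    linarith
  rw [h1, ← clamp_int a, ← clamp_int b, ← intervalIntegral.integral_sub
    ((hg b).intervalIntegrable _ _) ((hg a).intervalIntegrable _ _)]
  apply intervalIntegral.integral_congr
  intro μ hμ
  rw [uIcc_of_le zero_le_one] at hμ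
  simp only
  rw [← mul_sub]
  congr 1
  have h0 := hμ.1
  simp only [max_def, min_def]
  split_ifs <;> linarith

end J2b

alias cw_int := J2b.cw_int

end Pool.Agent.Helper934.Ann
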