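import Mathlib
import Pool.Agent.Helper934.AnnDefs
import Pool.Agent.Helper934.AnnJ1
import Pool.Agent.Helper934.AnnJ2a
import Pool.Agent.Helper934.AnnJ2b

open MeasureTheory Set
open scoped ENNReal

namespace Pool.Agent.Helper934.Ann

variable {n : ℕ}

namespace J2c

theorem cw_zero (F : Fam n) (i : Fin n) (μ : ℝ) :
    F.cw i (0, 0) μ = max 0 (min ((F.c i + F.d i) / √(F.a i ^ 2 + F.b i ^ 2)) μ -
      max ((F.c i - F.d i) / √(F.a i ^ 2 + F.b i ^ 2)) (-μ)) := by
  simp [Fam.cw, Fam.nm]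

theorem cw_cont (F : Fam n) (i : Fin n) : Continuous (fun μ => F.cw i (0, 0) μ) := by
  simp only [cw_zero]
  fun_prop

theorem cw_nonneg (F : Fam n) (i : Fin n) (p : ℝ × ℝ) (μ : ℝ) : 0 ≤ F.cw i p μ := le_max_left _ _

theorem cw_mono (F : Fam n) (i : Fin n) {μ ν : ℝ} (h : μ ≤ ν) :
    F.cw i (0, 0) μ ≤ F.cw i (0, 0) ν := by
  simp only [cw_zero]
  apply max_le_max le_rfl
  apply sub_le_sub
  · exact min_le_min le_rfl h
  · exact max_le_max le_rfl (by linarith)

theorem pl_meas (F : Fam n) (i : Fin n) : MeasurableSet (F.pl i) := by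
  apply IsClosed.measurableSet
  exact isClosed_le (by fun_prop) continuous_const

theorem dsk_meas (R : ℝ) : MeasurableSet (dsk (0, 0) R) := by
  apply IsClosed.measurableSet
  exact isClosed_le (by fun_prop) continuous_const

theorem nm_pos (F : Fam n) (i : Fin n) : 0 < F.nm i := Real.sqrt_pos.mpr (F.nz i)

theorem t_le (F : Fam n) (i : Fin n) (e : ℝ × ℝ) (he : e.1 ^ 2 + e.2 ^ 2 = 1) :
    |F.a i * e.1 + F.b i * e.2| / F.nm i ≤ 1 := by
  rw [div_le_one (nm_pos F i)]
  apply Real.abs_le_sqrt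
  have h : (F.a i ^ 2 + F.b i ^ 2) * (e.1 ^ 2 + e.2 ^ 2) = (F.a i * e.1 + F.b i * e.2) ^ 2 +
    (F.a i * e.2 - F.b i * e.1) ^ 2 := by ring
  rw [he, mul_one] at h
  nlinarith [sq_nonneg (F.a i * e.2 - F.b i * e.1)]

theorem coh (F : Fam n) (hcov : dsk (0, 0) 1 ⊆ F.cov) {κ : ℝ} (hκ0 : 0 ≤ κ)
    (hκ : ∫⁻ p in dsk (0, 0) 1, F.ov p ≤ ENNReal.ofReal κ) :
    ∃ e : ℝ × ℝ, e.1 ^ 2 + e.2 ^ 2 = 1 ∧
      ∑ i, F.cw i (0, 0) (1 / 2) * (1 - |F.a i * e.1 + F.b i * e.2| / F.nm i) ≤ κ := by
  classical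
  set ρ : ℝ × ℝ → ℝ≥0∞ := fun p => ENNReal.ofReal (√(1 - (p.1 ^ 2 + p.2 ^ 2))) with hρ
  have hρm : Measurable ρ := by
    have : Continuous ρ := by
      simp only [hρ]
      exact ENNReal.continuous_ofReal.comp (by fun_prop)
    exact this.measurable
  have hπ := Real.pi_gt_three

  have h1 : ∑ i, ∫⁻ p in F.pl i, ρ p = ∫⁻ p, ∑ i, (F.pl i).indicator ρ p := by
    rw [lintegral_finsetSum]
    · apply Finset.sum_congr rfl
      intro i _
      rw [lintegral_indicator (pl_meas F i)]
    · intro i _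
      exact hρm.indicator (pl_meas F i)
  have h2 : ∀ p, ∑ i, (F.pl i).indicator ρ p = (F.N p : ℝ≥0∞) * ρ p := by
    intro p
    simp only [Set.indicator_apply]
    rw [← Finset.sum_filter, Finset.sum_const, nsmul_eq_mul, Fam.N]
  have h3 : ∀ p, (F.N p : ℝ≥0∞) * ρ p ≤ ρ p + (dsk (0, 0) 1).indicator F.ov p := by
    intro p
    by_cases hp : p ∈ dsk (0, 0) 1
    · rw [Set.indicator_of_mem hp]
      have hN : 1 ≤ F.N p := by
        obtain ⟨i, hi⟩ := hcov hp
        rw [Fam.N]
        apply Finset.card_pos.mpr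
        exact ⟨i, by simp [hi]⟩
      have hρ1 : ρ p ≤ 1 := by
        simp only [hρ]
        rw [← ENNReal.ofReal_one]
        apply ENNReal.ofReal_le_ofReal
        rw [Real.sqrt_le_iff]
        refine ⟨by norm_num, ?_⟩
        nlinarith [sq_nonneg p.1, sq_nonneg p.2]
      have hNe : (F.N p : ℝ≥0∞) = 1 + F.ov p := by
        rw [Fam.ov]
        have : F.N p = 1 + (F.N p - 1) := by omega
        conv_lhs => rw [this]
        push_cast
        rfl
      rw [hNe, add_mul, one_mul]
      gcongr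
      calc F.ov p * ρ p ≤ F.ov p * 1 := by gcongr
        _ = F.ov p := mul_one _
    · have hρ0 : ρ p = 0 := by
        simp only [hρ]
        rw [ENNReal.ofReal_eq_zero]
        apply le_of_eq
        apply Real.sqrt_eq_zero_of_nonpos
        simp only [dsk, Set.mem_ofPred_eq, not_le, sub_zero, one_pow] at hp
        linarith
      rw [hρ0, mul_zero]
      exact zero_le
  have h4 : ∑ i, ∫⁻ p in F.pl i, ρ p ≤ ENNReal.ofReal (2 * Real.pi / 3 + κ) := by
    rw [h1, ENNReal.ofReal_add (by positivity) hκ0]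
    calc ∫⁻ p, ∑ i, (F.pl i).indicator ρ p ≤ ∫⁻ p, (ρ p + (dsk (0, 0) 1).indicator F.ov p) := by
          apply lintegral_mono
          intro p
          simp only
          rw [h2]
          exact h3 p
      _ = (∫⁻ p, ρ p) + ∫⁻ p, (dsk (0, 0) 1).indicator F.ov p := lintegral_add_left hρm _
      _ ≤ _ := by
          apply add_le_add
          · have := disc_int 1 (by norm_num)
            simp only [one_pow, mul_one] at this
            rw [← this]
          · rw [lintegral_indicator (dsk_meas 1)]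
            exact hκ
  set lo : Fin n → ℝ := fun i => (F.c i - F.d i) / √(F.a i ^ 2 + F.b i ^ 2) with hlo
  set hi : Fin n → ℝ := fun i => (F.c i + F.d i) / √(F.a i ^ 2 + F.b i ^ 2) with hhi
  have hlohi : ∀ i, lo i ≤ hi i := by
    intro i
    simp only [hlo, hhi]
    apply div_le_div_of_nonneg_right _ (Real.sqrt_nonneg _)
    linarith [F.dn i]
  have hI0 : ∀ i, 0 ≤ ∫ s in (lo i)..(hi i), max (1 - s ^ 2) 0 := by
    intro i
    apply intervalIntegral.integral_nonneg (hlohi i)
    intro s _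
    exact le_max_right _ _
  have h5 : ∀ i, ∫⁻ p in F.pl i, ρ p =
      ENNReal.ofReal (Real.pi / 2 * ∫ s in (lo i)..(hi i), max (1 - s ^ 2) 0) := by
    intro i
    have := plank_int (F.a i) (F.b i) (F.c i) (F.d i) 1 (F.nz i) (F.dn i) (by norm_num)
    simp only [one_pow] at this
    exact this
  have h6 : ∑ i, Real.pi / 2 * ∫ s in (lo i)..(hi i), max (1 - s ^ 2) 0 ≤ 2 * Real.pi / 3 + κ := by
    have h7 : ENNReal.ofReal (∑ i, Real.pi / 2 * ∫ s in (lo i)..(hi i), max (1 - s ^ 2) 0) ≤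
        ENNReal.ofReal (2 * Real.pi / 3 + κ) := by
      rw [ENNReal.ofReal_sum_of_nonneg]
      · refine le_trans (le_of_eq ?_) h4
        apply Finset.sum_congr rfl
        intro i _
        exact (h5 i).symm
      · intro i _
        exact mul_nonneg (by positivity) (hI0 i)
    exact (ENNReal.ofReal_le_ofReal_iff (by positivity)).mp h7

  set W : ℝ → ℝ := fun μ => ∑ i, F.cw i (0, 0) μ with hW
  have hWc : Continuous W := by
    simp only [hW]
    exact continuous_finsetSum _ (fun i _ => cw_cont F i)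
  have h8 : ∫ μ in (0:ℝ)..1, 2 * μ * W μ = ∑ i, ∫ s in (lo i)..(hi i), max (1 - s ^ 2) 0 := by
    have : ∀ μ, 2 * μ * W μ = ∑ i, 2 * μ * F.cw i (0, 0) μ := by
      intro μ
      simp only [hW]
      rw [Finset.mul_sum]
    simp only [this]
    rw [intervalIntegral.integral_finsetSum]
    · apply Finset.sum_congr rfl
      intro i _
      simp only [cw_zero]
      exact cw_int (lo i) (hi i) (hlohi i)
    · intro i _
      apply Continuous.intervalIntegrable
      have := cw_cont F i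
      fun_prop
  have h9 : Real.pi / 2 * ∫ μ in (0:ℝ)..1, 2 * μ * W μ ≤ 2 * Real.pi / 3 + κ := by
    rw [h8, Finset.mul_sum]
    exact h6
  have h10 : ∫ μ in (0:ℝ)..1, 2 * μ * (2 * μ) = 4 / 3 := by
    have : ∀ μ : ℝ, 2 * μ * (2 * μ) = 4 * μ ^ 2 := by intro μ; ring
    simp only [this]
    rw [intervalIntegral.integral_const_mul, integral_pow]
    norm_num
  set g : ℝ → ℝ := fun μ => 2 * μ * (W μ - 2 * μ) with hg
  have hgc : Continuous g := by
    simp only [hg]
    fun_prop
  have h11 : ∫ μ in (0:ℝ)..1, g μ = (∫ μ in (0:ℝ)..1, 2 * μ * W μ) - 4 / 3 := by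
    rw [← h10, ← intervalIntegral.integral_sub]
    · apply intervalIntegral.integral_congr
      intro μ _
      simp only [hg]
      ring
    · apply Continuous.intervalIntegrable
      fun_prop
    · apply Continuous.intervalIntegrable
      fun_prop
  have h12 : Real.pi / 2 * ∫ μ in (0:ℝ)..1, g μ ≤ κ := by
    rw [h11]
    have : Real.pi / 2 * ((∫ μ in (0:ℝ)..1, 2 * μ * W μ) - 4 / 3) =
      Real.pi / 2 * (∫ μ in (0:ℝ)..1, 2 * μ * W μ) - 2 * Real.pi / 3 := by ring
    rw [this]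
    linarith
  have hbang : ∀ μ, 0 < μ → μ ≤ 1 → ∃ e : ℝ × ℝ, e.1 ^ 2 + e.2 ^ 2 = 1 ∧
      2 * μ ≤ ∑ i, F.cw i (0, 0) μ * (|F.a i * e.1 + F.b i * e.2| / F.nm i) := by
    intro μ h0 h1
    apply bang F h0 (0, 0)
    refine subset_trans ?_ hcov
    intro p hp
    simp only [dsk, Set.mem_ofPred_eq] at hp ⊢
    nlinarith
  have hW2 : ∀ μ, 0 < μ → μ ≤ 1 → 2 * μ ≤ W μ := by
    intro μ h0 h1
    obtain ⟨e, he, h⟩ := hbang μ h0 h1
    refine le_trans h ?_
    simp only [hW]
    apply Finset.sum_le_sum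
    intro i _
    calc _ ≤ F.cw i (0, 0) μ * 1 := by
          apply mul_le_mul_of_nonneg_left (t_le F i e he) (cw_nonneg F i _ _)
      _ = _ := mul_one _
  have hex : ∃ μ, 1 / 2 ≤ μ ∧ μ ≤ 1 ∧ W μ - 2 * μ ≤ κ := by
    by_contra hcon
    push Not at hcon
    have ha : ∫ μ in (0:ℝ)..1, g μ = (∫ μ in (0:ℝ)..(1/2), g μ) + ∫ μ in (1/2:ℝ)..1, g μ := by
      rw [intervalIntegral.integral_add_adjacent_intervals]
      · exact hgc.intervalIntegrable _ _
      · exact hgc.intervalIntegrable _ _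
    have hb : 0 ≤ ∫ μ in (0:ℝ)..(1/2), g μ := by
      apply intervalIntegral.integral_nonneg (by norm_num)
      intro μ hμ
      simp only [hg]
      rcases hμ.1.eq_or_lt with h0 | h0
      · rw [← h0]; simp
      · have := hW2 μ h0 (by linarith [hμ.2])
        apply mul_nonneg (by linarith) (by linarith)
    have hc : 0 < ∫ μ in (1/2:ℝ)..1, (g μ - 2 * μ * κ) := by
      apply intervalIntegral.intervalIntegral_pos_of_pos_on
      · apply Continuous.intervalIntegrable
        fun_prop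
      · intro μ hμ
        have := hcon μ hμ.1.le hμ.2.le
        simp only [hg]
        have h0 : 0 < 2 * μ := by linarith [hμ.1]
        nlinarith
      · norm_num
    have hd : ∫ μ in (1/2:ℝ)..1, (g μ - 2 * μ * κ) = (∫ μ in (1/2:ℝ)..1, g μ) - 3 / 4 * κ := by
      rw [intervalIntegral.integral_sub]
      · congr 1
        rw [intervalIntegral.integral_mul_const, intervalIntegral.integral_const_mul, integral_id]
        norm_num
      · exact hgc.intervalIntegrable _ _
      · apply Continuous.intervalIntegrable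
        fun_prop
    rw [hd] at hc
    have he : 3 / 4 * κ < ∫ μ in (0:ℝ)..1, g μ := by linarith
    have hf : Real.pi / 2 * (3 / 4 * κ) < κ := by
      refine lt_of_lt_of_le ?_ h12
      apply mul_lt_mul_of_pos_left he (by positivity)
    nlinarith
  obtain ⟨μ, hμ1, hμ2, hμ⟩ := hex
  obtain ⟨e, he, hs⟩ := hbang μ (by linarith) hμ2
  refine ⟨e, he, ?_⟩
  calc ∑ i, F.cw i (0, 0) (1 / 2) * (1 - |F.a i * e.1 + F.b i * e.2| / F.nm i)
      ≤ ∑ i, F.cw i (0, 0) μ * (1 - |F.a i * e.1 + F.b i * e.2| / F.nm i) := by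
        apply Finset.sum_le_sum
        intro i _
        apply mul_le_mul_of_nonneg_right (cw_mono F i hμ1)
        linarith [t_le F i e he]
    _ = W μ - ∑ i, F.cw i (0, 0) μ * (|F.a i * e.1 + F.b i * e.2| / F.nm i) := by
        simp only [hW]
        rw [← Finset.sum_sub_distrib]
        apply Finset.sum_congr rfl
        intro i _
        ring
    _ ≤ κ := by linarith

end J2c

alias coh := J2c.coh

end Pool.Agent.Helper934.Ann
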