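import Mathlib
import Pool.Agent.Helper934.AnnDefs
import Pool.Agent.Helper934.AnnGODefs
import Pool.Agent.Helper934.AnnJ1
import Pool.Agent.Helper934.AnnJ2c

open MeasureTheory Set
open scoped ENNReal

namespace Pool.Agent.Helper934.Ann

variable {n : ℕ}

namespace K1

theorem nm_pos (F : Fam n) (i : Fin n) : 0 < F.nm i := by
  unfold Fam.nm
  exact Real.sqrt_pos.2 (F.nz i)

theorem cw_nonneg (F : Fam n) (i : Fin n) (p : ℝ × ℝ) (R : ℝ) : 0 ≤ F.cw i p R := by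
  unfold Fam.cw
  exact le_max_left _ _

theorem cw_mono (F : Fam n) (i : Fin n) (p : ℝ × ℝ) {R S : ℝ} (h : R ≤ S) :
    F.cw i p R ≤ F.cw i p S := by
  unfold Fam.cw
  exact max_le_max le_rfl (sub_le_sub (min_le_min le_rfl h) (max_le_max le_rfl (neg_le_neg h)))

theorem nm_sq (F : Fam n) (i : Fin n) : F.nm i ^ 2 = F.a i ^ 2 + F.b i ^ 2 := by
  unfold Fam.nm
  exact Real.sq_sqrt (F.nz i).le

theorem cw_pos_meets (F : Fam n) (i : Fin n) (p : ℝ × ℝ) {R : ℝ} (hR : 0 ≤ R) (h : 0 < F.cw i p R) :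
    ∃ q ∈ dsk p R, q ∈ F.pl i := by
  have hn := nm_pos F i
  have hn2 := nm_sq F i
  unfold Fam.cw at h
  rcases lt_max_iff.1 h with h | h
  · exact absurd h (lt_irrefl _)
  · have h1 : max ((F.c i - F.d i - (F.a i * p.1 + F.b i * p.2)) / F.nm i) (-R) <
        min ((F.c i + F.d i - (F.a i * p.1 + F.b i * p.2)) / F.nm i) R := by linarith
    obtain ⟨t, ht⟩ : ∃ t, t = max ((F.c i - F.d i - (F.a i * p.1 + F.b i * p.2)) / F.nm i) (-R) :=
      ⟨_, rfl⟩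
    rw [← ht] at h1
    have h2 : (F.c i - F.d i - (F.a i * p.1 + F.b i * p.2)) / F.nm i ≤ t := by
      rw [ht]; exact le_max_left _ _
    have h3 : -R ≤ t := by
      rw [ht]; exact le_max_right _ _
    have h4 : t < (F.c i + F.d i - (F.a i * p.1 + F.b i * p.2)) / F.nm i :=
      lt_of_lt_of_le h1 (min_le_left _ _)
    have h5 : t < R := lt_of_lt_of_le h1 (min_le_right _ _)
    rw [div_le_iff₀ hn] at h2
    rw [lt_div_iff₀ hn] at h4
    refine ⟨(p.1 + t * F.a i / F.nm i, p.2 + t * F.b i / F.nm i), ?_, ?_⟩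
    · show (p.1 + t * F.a i / F.nm i - p.1) ^ 2 + (p.2 + t * F.b i / F.nm i - p.2) ^ 2 ≤ R ^ 2
      have e : (p.1 + t * F.a i / F.nm i - p.1) ^ 2 + (p.2 + t * F.b i / F.nm i - p.2) ^ 2 =
          t ^ 2 := by
        have e1 : (p.1 + t * F.a i / F.nm i - p.1) ^ 2 + (p.2 + t * F.b i / F.nm i - p.2) ^ 2 =
          t ^ 2 * ((F.a i ^ 2 + F.b i ^ 2) / F.nm i ^ 2) := by ring
        rw [e1, ← hn2, div_self (by positivity), mul_one]
      rw [e]
      nlinarith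
    · show |F.a i * (p.1 + t * F.a i / F.nm i) + F.b i * (p.2 + t * F.b i / F.nm i) - F.c i| ≤
        F.d i
      have e : F.a i * (p.1 + t * F.a i / F.nm i) + F.b i * (p.2 + t * F.b i / F.nm i) - F.c i =
          F.a i * p.1 + F.b i * p.2 + t * F.nm i - F.c i := by
        have e1 : F.a i * (p.1 + t * F.a i / F.nm i) + F.b i * (p.2 + t * F.b i / F.nm i) - F.c i
          = F.a i * p.1 + F.b i * p.2 + t * ((F.a i ^ 2 + F.b i ^ 2) / F.nm i) - F.c i := by ring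
        rw [e1, ← hn2, pow_two, mul_div_assoc, div_self hn.ne', mul_one]
      rw [e, abs_le]
      constructor <;> linarith

theorem cw_mul (F : Fam n) (i : Fin n) (p : ℝ × ℝ) (ρ : ℝ) :
    F.cw i p ρ * F.nm i = max 0 (min (F.c i + F.d i - (F.a i * p.1 + F.b i * p.2)) (ρ * F.nm i) -
      max (F.c i - F.d i - (F.a i * p.1 + F.b i * p.2)) (-(ρ * F.nm i))) := by
  have hn := nm_pos F i
  unfold Fam.cw
  rw [max_mul_of_nonneg _ _ hn.le, sub_mul, min_mul_of_nonneg _ _ hn.le,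
    max_mul_of_nonneg _ _ hn.le, div_mul_cancel₀ _ hn.ne', div_mul_cancel₀ _ hn.ne', zero_mul,
    neg_mul]

theorem cw_cmp (F G : Fam n) (i : Fin n) (p q : ℝ × ℝ) (ρ σ : ℝ) (hd : F.d i = G.d i)
    (h : |(F.c i - F.a i * p.1 - F.b i * p.2) - (G.c i - G.a i * q.1 - G.b i * q.2)| +
      ρ * F.nm i ≤ σ * G.nm i) :
    F.cw i p ρ * F.nm i ≤ G.cw i q σ * G.nm i := by
  rw [cw_mul, cw_mul]
  apply max_le_max le_rfl
  obtain ⟨δ, hδ⟩ : ∃ δ, δ = (F.c i - F.a i * p.1 - F.b i * p.2) -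
    (G.c i - G.a i * q.1 - G.b i * q.2) := ⟨_, rfl⟩
  rw [← hδ] at h
  have ha := le_abs_self δ
  have hb := neg_abs_le δ
  have h1 : min (F.c i + F.d i - (F.a i * p.1 + F.b i * p.2)) (ρ * F.nm i) - δ ≤
      min (G.c i + G.d i - (G.a i * q.1 + G.b i * q.2)) (σ * G.nm i) := by
    apply le_min
    · have := min_le_left (F.c i + F.d i - (F.a i * p.1 + F.b i * p.2)) (ρ * F.nm i)
      linarith
    · have := min_le_right (F.c i + F.d i - (F.a i * p.1 + F.b i * p.2)) (ρ * F.nm i)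
      linarith
  have h2 : max (G.c i - G.d i - (G.a i * q.1 + G.b i * q.2)) (-(σ * G.nm i)) ≤
      max (F.c i - F.d i - (F.a i * p.1 + F.b i * p.2)) (-(ρ * F.nm i)) - δ := by
    apply max_le
    · have := le_max_left (F.c i - F.d i - (F.a i * p.1 + F.b i * p.2)) (-(ρ * F.nm i))
      linarith
    · have := le_max_right (F.c i - F.d i - (F.a i * p.1 + F.b i * p.2)) (-(ρ * F.nm i))
      linarith
  linarith

theorem dot_le_nm (F : Fam n) (i : Fin n) (e : ℝ × ℝ) (he : e.1 ^ 2 + e.2 ^ 2 = 1) :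
    |F.a i * e.1 + F.b i * e.2| ≤ F.nm i := by
  unfold Fam.nm
  apply Real.abs_le_sqrt
  have h1 : F.a i ^ 2 + F.b i ^ 2 = (F.a i ^ 2 + F.b i ^ 2) * (e.1 ^ 2 + e.2 ^ 2) := by
    rw [he, mul_one]
  rw [h1]
  nlinarith [sq_nonneg (F.a i * e.2 - F.b i * e.1)]

theorem bang_sum (F : Fam n) {R : ℝ} (hR : 0 < R) (p0 : ℝ × ℝ) (hcov : dsk p0 R ⊆ F.cov) :
    2 * R ≤ ∑ i, F.cw i p0 R := by
  obtain ⟨e, he, h⟩ := bang F hR p0 hcov
  refine h.trans (Finset.sum_le_sum (fun i _ => ?_))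
  have h1 : |F.a i * e.1 + F.b i * e.2| / F.nm i ≤ 1 := by
    rw [div_le_one (nm_pos F i)]
    exact dot_le_nm F i e he
  calc F.cw i p0 R * (|F.a i * e.1 + F.b i * e.2| / F.nm i)
      ≤ F.cw i p0 R * 1 := mul_le_mul_of_nonneg_left h1 (cw_nonneg F i p0 R)
    _ = F.cw i p0 R := mul_one _

theorem link (w1 w2 : Fin n → ℝ) (S1 S2 : Finset (Fin n)) (R K η1 η2 : ℝ) (hK : 0 ≤ K)
    (h0 : ∀ i, 0 ≤ w1 i) (h2 : ∀ i, 0 ≤ w2 i) (hsum : 2 * R ≤ ∑ i, w1 i)
    (hS1 : ∑ i ∈ S1, w1 i ≤ η1) (hS2 : ∑ i ∈ S2, w2 i ≤ η2)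
    (hc : ∀ i ∉ S1, w1 i ≤ K * w2 i) (hlt : η1 + K * η2 < 2 * R) :
    ∃ i, i ∉ S1 ∧ i ∉ S2 ∧ 0 < w1 i := by
  classical
  by_contra hcon
  push Not at hcon
  have hpt : ∀ i, w1 i ≤ (if i ∈ S1 then w1 i else 0) + (if i ∈ S2 then K * w2 i else 0) := by
    intro i
    by_cases hi1 : i ∈ S1
    · rw [if_pos hi1]
      by_cases hi2 : i ∈ S2
      · rw [if_pos hi2]
        have := mul_nonneg hK (h2 i)
        linarith
      · rw [if_neg hi2, add_zero]
    · rw [if_neg hi1, zero_add]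
      by_cases hi2 : i ∈ S2
      · rw [if_pos hi2]
        exact hc i hi1
      · rw [if_neg hi2]
        exact hcon i hi1 hi2
  have h3 : ∑ i, w1 i ≤ ∑ i ∈ S1, w1 i + K * ∑ i ∈ S2, w2 i := by
    calc ∑ i, w1 i ≤ ∑ i, ((if i ∈ S1 then w1 i else 0) + (if i ∈ S2 then K * w2 i else 0)) :=
          Finset.sum_le_sum (fun i _ => hpt i)
      _ = ∑ i ∈ S1, w1 i + K * ∑ i ∈ S2, w2 i := by
          rw [Finset.sum_add_distrib, Finset.sum_ite_mem, Finset.sum_ite_mem,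
            Finset.univ_inter, Finset.univ_inter, Finset.mul_sum]
  have h4 : K * ∑ i ∈ S2, w2 i ≤ K * η2 := mul_le_mul_of_nonneg_left hS2 hK
  linarith

theorem far_of_coh (F : Fam n) (hcov : dsk (0, 0) 1 ⊆ F.cov)
    (hκ : ∫⁻ p in dsk (0, 0) 1, F.ov p ≤ ENNReal.ofReal kap) :
    ∃ e : ℝ × ℝ, e.1 ^ 2 + e.2 ^ 2 = 1 ∧ ∑ i ∈ F.far e, F.cw i (0, 0) (1 / 2) ≤ 1 / 20 := by
  have hk0 : 0 ≤ kap := by unfold kap; positivity
  obtain ⟨e, he, h⟩ := coh F hcov hk0 hκ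
  refine ⟨e, he, ?_⟩
  have hpt : ∀ i ∈ F.far e, F.cw i (0, 0) (1 / 2) * (1 / (2 * 1500 ^ 2)) ≤
      F.cw i (0, 0) (1 / 2) * (1 - |F.a i * e.1 + F.b i * e.2| / F.nm i) := by
    intro i hi
    apply mul_le_mul_of_nonneg_left _ (cw_nonneg F i _ _)
    have hn := nm_pos F i
    have hn2 := nm_sq F i
    unfold Fam.far at hi
    rw [Finset.mem_filter] at hi
    have hi2 := hi.2
    have hdot := dot_le_nm F i e he
    obtain ⟨c, hc⟩ : ∃ c, c = |F.a i * e.1 + F.b i * e.2| / F.nm i := ⟨_, rfl⟩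
    obtain ⟨s, hs⟩ : ∃ s, s = |F.a i * e.2 - F.b i * e.1| / F.nm i := ⟨_, rfl⟩
    have hc0 : 0 ≤ c := by rw [hc]; positivity
    have hc1 : c ≤ 1 := by rw [hc, div_le_one hn]; exact hdot
    have hs1 : 1 / 1500 ≤ s := by rw [hs, le_div_iff₀ hn]; exact hi2
    have hcs : c ^ 2 + s ^ 2 = 1 := by
      rw [hc, hs, div_pow, div_pow, sq_abs, sq_abs, ← add_div, div_eq_one_iff_eq (by positivity),
        hn2]
      have : (F.a i * e.1 + F.b i * e.2) ^ 2 + (F.a i * e.2 - F.b i * e.1) ^ 2 =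
        (F.a i ^ 2 + F.b i ^ 2) * (e.1 ^ 2 + e.2 ^ 2) := by ring
      rw [this, he, mul_one]
    rw [← hc]
    have h5 : (1 / 1500 : ℝ) ^ 2 ≤ s ^ 2 := pow_le_pow_left₀ (by norm_num) hs1 2
    nlinarith
  have h6 : (∑ i ∈ F.far e, F.cw i (0, 0) (1 / 2)) * (1 / (2 * 1500 ^ 2)) ≤ kap := by
    rw [Finset.sum_mul]
    refine (Finset.sum_le_sum hpt).trans (le_trans ?_ h)
    apply Finset.sum_le_sum_of_subset_of_nonneg (Finset.subset_univ _)
    intro i _ _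
    apply mul_nonneg (cw_nonneg F i _ _)
    have h1 : |F.a i * e.1 + F.b i * e.2| / F.nm i ≤ 1 := by
      rw [div_le_one (nm_pos F i)]
      exact dot_le_nm F i e he
    linarith
  unfold kap at h6
  norm_num at h6 ⊢
  linarith

theorem nm_le (F : Fam n) (i : Fin n) : F.nm i ≤ |F.a i| + |F.b i| := by
  unfold Fam.nm
  rw [Real.sqrt_le_left (by positivity)]
  have h1 := sq_abs (F.a i)
  have h2 := sq_abs (F.b i)
  nlinarith [abs_nonneg (F.a i), abs_nonneg (F.b i), mul_nonneg (abs_nonneg (F.a i)) (abs_nonneg (F.b i))]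

theorem slope_of_dir (F : Fam n) (e : ℝ × ℝ) (he : e.1 ^ 2 + e.2 ^ 2 = 1)
    (hfar : ∑ i ∈ F.far e, F.cw i (0, 0) (1 / 2) ≤ 1 / 20) (i0 : Fin n)
    (h1 : |F.a i0| ≤ 1 / 500 * |F.b i0|) (h2 : i0 ∉ F.far e) :
    ∃ z, |z| ≤ 1 / 250 ∧ ∑ i ∈ F.bad z (1 / 1000), F.cw i (0, 0) (1 / 2) ≤ 1 / 20 := by
  have h2' : |F.a i0 * e.2 - F.b i0 * e.1| < (1 / 1500) * F.nm i0 := by
    by_contra hcon
    push Not at hcon
    apply h2
    unfold Fam.far
    rw [Finset.mem_filter]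
    exact ⟨Finset.mem_univ _, hcon⟩
  have hb0 : 0 < |F.b i0| := by
    rw [abs_pos]
    intro hb
    have hnz := F.nz i0
    rw [hb, abs_zero, mul_zero] at h1
    have ha : F.a i0 = 0 := abs_eq_zero.1 (le_antisymm h1 (abs_nonneg _))
    rw [ha, hb] at hnz
    norm_num at hnz
  have hnm := nm_le F i0
  have he1 : |e.1| ^ 2 + |e.2| ^ 2 = 1 := by rw [sq_abs, sq_abs]; exact he
  have he2 : |e.2| ≤ 1 := by
    have := abs_nonneg e.1
    have := abs_nonneg e.2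
    nlinarith [sq_nonneg |e.1|]
  have h3 : |F.b i0| * |e.1| ≤ |F.a i0| * |e.2| + |F.a i0 * e.2 - F.b i0 * e.1| := by
    rw [← abs_mul, ← abs_mul]
    have : F.b i0 * e.1 = F.a i0 * e.2 - (F.a i0 * e.2 - F.b i0 * e.1) := by ring
    calc |F.b i0 * e.1| = |F.a i0 * e.2 - (F.a i0 * e.2 - F.b i0 * e.1)| := by rw [← this]
      _ ≤ _ := abs_sub _ _
  have h4 : |F.a i0| * |e.2| ≤ |F.a i0| := by
    have := mul_le_mul_of_nonneg_left he2 (abs_nonneg (F.a i0))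
    linarith
  have h5 : |e.1| ≤ 3 / 1000 := by
    by_contra hcon
    push Not at hcon
    have : |F.b i0| * (3 / 1000) < |F.b i0| * |e.1| := mul_lt_mul_of_pos_left hcon hb0
    linarith
  have h6 : 99 / 100 ≤ |e.2| := by
    by_contra hcon
    push Not at hcon
    have := abs_nonneg e.1
    have := abs_nonneg e.2
    nlinarith
  have he2ne : e.2 ≠ 0 := by
    intro h0
    rw [h0, abs_zero] at h6
    norm_num at h6
  have he2pos : 0 < |e.2| := by linarith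
  have hz : |-e.1 / e.2| ≤ 1 / 250 := by
    rw [abs_div, abs_neg, div_le_iff₀ he2pos]
    linarith
  refine ⟨-e.1 / e.2, hz, le_trans ?_ hfar⟩
  apply Finset.sum_le_sum_of_subset_of_nonneg
  · intro i hi
    unfold Fam.bad at hi
    unfold Fam.far
    rw [Finset.mem_filter] at hi ⊢
    refine ⟨Finset.mem_univ _, ?_⟩
    have hi2 := hi.2
    have e1 : F.a i * e.2 - F.b i * e.1 = e.2 * (F.a i + F.b i * (-e.1 / e.2)) := by
      field_simp
      ring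
    rw [e1, abs_mul]
    obtain ⟨z, hzz⟩ : ∃ z, z = -e.1 / e.2 := ⟨_, rfl⟩
    rw [← hzz] at hi2 hz ⊢
    have h7 := nm_le F i
    have h8 : |F.a i| ≤ |F.a i + F.b i * z| + |F.b i| * |z| := by
      rw [← abs_mul]
      calc |F.a i| = |(F.a i + F.b i * z) - F.b i * z| := by congr 1; ring
        _ ≤ _ := abs_sub _ _
    have h9 : |F.b i| * |z| ≤ |F.b i| * (1 / 250) :=
      mul_le_mul_of_nonneg_left hz (abs_nonneg _)
    have h10 : 99 / 100 * |F.a i + F.b i * z| ≤ |e.2| * |F.a i + F.b i * z| :=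
      mul_le_mul_of_nonneg_right h6 (abs_nonneg _)
    have h11 := abs_nonneg (F.a i + F.b i * z)
    linarith
  · intro i _ _
    exact cw_nonneg F i _ _

end K1

alias nm_pos := K1.nm_pos

alias cw_nonneg := K1.cw_nonneg

alias cw_mono := K1.cw_mono

alias cw_pos_meets := K1.cw_pos_meets

alias cw_cmp := K1.cw_cmp

alias bang_sum := K1.bang_sum

alias link := K1.link

alias far_of_coh := K1.far_of_coh

alias slope_of_dir := K1.slope_of_dir

end Pool.Agent.Helper934.Ann
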