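import Mathlib
import Pool.Agent.Helper934.AnnDefs
import Pool.Agent.Helper934.AnnGODefs
import Pool.Agent.Helper934.AnnGeoDefs
import Pool.Agent.Helper934.AnnJ3
import Pool.Agent.Helper934.AnnJ2c
import Pool.Agent.Helper934.AnnK1

open MeasureTheory Set
open scoped ENNReal

namespace Pool.Agent.Helper934.Ann

variable {n : ℕ}

/-- threshold for the directions -/

noncomputable def dud : ℝ := 1 / (8 * 10 ^ 6)

/-- wedge -/

def wdg (u v : ℝ × ℝ) : ℝ := u.1 * v.2 - u.2 * v.1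

theorem wdg_tri (u v w : ℝ × ℝ) (N : ℝ) (hN : 0 ≤ N) (hu : u.1 ^ 2 + u.2 ^ 2 ≤ N ^ 2)
    (hv : v.1 ^ 2 + v.2 ^ 2 = 1) (hw : w.1 ^ 2 + w.2 ^ 2 = 1) :
    |wdg u w| ≤ |wdg u v| + N * |wdg v w| := by
  have h1 : wdg u w = wdg u v * (v.1 * w.1 + v.2 * w.2) + (u.1 * v.1 + u.2 * v.2) * wdg v w := by
    unfold wdg
    linear_combination (-(u.1 * w.2 - u.2 * w.1)) * hv
  have h2 : |v.1 * w.1 + v.2 * w.2| ≤ 1 := by
    rw [abs_le_one_iff_mul_self_le_one]
    nlinarith [sq_nonneg (v.1 * w.2 - v.2 * w.1)]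
  have h3 : |u.1 * v.1 + u.2 * v.2| ≤ N := by
    apply abs_le_of_sq_le_sq _ hN
    nlinarith [sq_nonneg (u.1 * v.2 - u.2 * v.1)]
  rw [h1]
  calc |wdg u v * (v.1 * w.1 + v.2 * w.2) + (u.1 * v.1 + u.2 * v.2) * wdg v w|
      ≤ |wdg u v * (v.1 * w.1 + v.2 * w.2)| + |(u.1 * v.1 + u.2 * v.2) * wdg v w| := abs_add_le _ _
    _ = |wdg u v| * |v.1 * w.1 + v.2 * w.2| + |u.1 * v.1 + u.2 * v.2| * |wdg v w| := by
        rw [abs_mul, abs_mul]
    _ ≤ |wdg u v| * 1 + N * |wdg v w| := by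
        gcongr
    _ = _ := by rw [mul_one]

theorem wdg_symm (u v : ℝ × ℝ) : |wdg u v| = |wdg v u| := by
  unfold wdg
  rw [← abs_neg]
  congr 1
  ring

open Classical in

/-- far planks at the fine threshold -/

noncomputable def Fam.farU (F : Fam n) (e : ℝ × ℝ) : Finset (Fin n) :=
  Finset.univ.filter (fun i => dud * F.nm i ≤ |F.a i * e.2 - F.b i * e.1|)

/-- translated and scaled chart -/

noncomputable def scA (c : ℝ × ℝ) : Aff where
  x0 := c.1
  y0 := c.2
  m11 := 1 / 20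
  m12 := 0
  m21 := 0
  m22 := 1 / 20
  det_ne := by norm_num

theorem nm_sq (F : Fam n) (i : Fin n) : F.nm i ^ 2 = F.a i ^ 2 + F.b i ^ 2 := by
  unfold Fam.nm
  exact Real.sq_sqrt (F.nz i).le

theorem scA_nm (G : Fam n) (c : ℝ × ℝ) (i : Fin n) : (G.pull (scA c)).nm i = G.nm i / 20 := by
  unfold Fam.nm Fam.pull scA
  simp only
  rw [show (G.a i * (1 / 20) + G.b i * 0) ^ 2 + (G.a i * 0 + G.b i * (1 / 20)) ^ 2 =
    (G.a i ^ 2 + G.b i ^ 2) * (1 / 20) ^ 2 by ring, Real.sqrt_mul (G.nz i).le,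
    Real.sqrt_sq (by norm_num)]
  ring

theorem dsk_closed (p : ℝ × ℝ) (R : ℝ) : IsClosed (dsk p R) := by
  unfold dsk
  exact isClosed_le (by fun_prop) (by fun_prop)

theorem local_dir (G : Fam n) (c : ℝ × ℝ) (hcov : dsk c (1 / 20) ⊆ G.cov)
    (hov : ∫⁻ p in dsk c (1 / 20), G.ov p ≤ ENNReal.ofReal kud) :
    ∃ e : ℝ × ℝ, e.1 ^ 2 + e.2 ^ 2 = 1 ∧ ∑ i ∈ G.farU e, G.cw i c (1 / 40) ≤ 3 / 10 ^ 5 := by
  have himg : (scA c).map '' dsk (0, 0) 1 = dsk c (1 / 20) := by
    ext q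
    simp only [mem_image, dsk, mem_ofPred_eq, Aff.map, scA]
    constructor
    · rintro ⟨p, hp, rfl⟩
      simp only
      nlinarith
    · intro hq
      refine ⟨(20 * (q.1 - c.1), 20 * (q.2 - c.2)), ?_, ?_⟩
      · simp only
        nlinarith
      · ext
        · simp only; ring
        · simp only; ring
  have hdet : |(scA c).det| = 1 / 400 := by
    unfold Aff.det scA
    norm_num
  have hc1 : dsk (0, 0) 1 ⊆ (G.pull (scA c)).cov := by
    intro p hp
    rw [pull_cov]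
    apply hcov
    rw [← himg]
    exact ⟨p, hp, rfl⟩
  have ho1 : ∫⁻ p in dsk (0, 0) 1, (G.pull (scA c)).ov p ≤ ENNReal.ofReal (400 * kud) := by
    simp_rw [pull_ov]
    rw [lintegral_map _ _ (measurable_ov G) _ (dsk_closed _ _).measurableSet, himg, hdet]
    calc ENNReal.ofReal (1 / 400)⁻¹ * ∫⁻ p in dsk c (1 / 20), G.ov p
        ≤ ENNReal.ofReal (1 / 400)⁻¹ * ENNReal.ofReal kud := by gcongr
      _ = ENNReal.ofReal (400 * kud) := by
        rw [← ENNReal.ofReal_mul (by norm_num)]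
        norm_num
  have hk : 0 ≤ 400 * kud := by unfold kud; positivity
  obtain ⟨e, he, hs⟩ := coh _ hc1 hk ho1
  refine ⟨e, he, ?_⟩
  have hterm : ∀ i, 0 ≤ (G.pull (scA c)).cw i (0, 0) (1 / 2) *
      (1 - |(G.pull (scA c)).a i * e.1 + (G.pull (scA c)).b i * e.2| / (G.pull (scA c)).nm i) := by
    intro i
    apply mul_nonneg (cw_nonneg _ _ _ _)
    have hnp := nm_pos (G.pull (scA c)) i
    rw [sub_nonneg, div_le_one hnp]
    apply abs_le_of_sq_le_sq _ hnp.le
    rw [nm_sq]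
    nlinarith [sq_nonneg ((G.pull (scA c)).a i * e.2 - (G.pull (scA c)).b i * e.1)]
  have hfar : ∀ i ∈ G.farU e, G.cw i c (1 / 40) * (10 * dud ^ 2) ≤
      (G.pull (scA c)).cw i (0, 0) (1 / 2) *
      (1 - |(G.pull (scA c)).a i * e.1 + (G.pull (scA c)).b i * e.2| / (G.pull (scA c)).nm i) := by
    intro i hi
    have hi2 : dud * G.nm i ≤ |G.a i * e.2 - G.b i * e.1| := by
      simpa [Fam.farU] using hi
    have hnp := nm_pos G i
    have hcmp : G.cw i c (1 / 40) ≤ (G.pull (scA c)).cw i (0, 0) (1 / 2) / 20 := by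
      have h1 := cw_cmp G (G.pull (scA c)) i c (0, 0) (1 / 40) (1 / 2) rfl (by
        rw [scA_nm]
        have : (G.c i - G.a i * c.1 - G.b i * c.2) -
          ((G.pull (scA c)).c i - (G.pull (scA c)).a i * ((0 : ℝ), (0 : ℝ)).1 -
            (G.pull (scA c)).b i * ((0 : ℝ), (0 : ℝ)).2) = 0 := by
          simp [Fam.pull, scA]
        rw [this, abs_zero]
        linarith)
      rw [scA_nm] at h1
      have h2 : G.cw i c (1 / 40) * G.nm i ≤
        ((G.pull (scA c)).cw i (0, 0) (1 / 2) / 20) * G.nm i := by linarith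
      exact le_of_mul_le_mul_right h2 hnp
    have hdot : |(G.pull (scA c)).a i * e.1 + (G.pull (scA c)).b i * e.2| / (G.pull (scA c)).nm i
        = |G.a i * e.1 + G.b i * e.2| / G.nm i := by
      rw [scA_nm]
      have : (G.pull (scA c)).a i * e.1 + (G.pull (scA c)).b i * e.2 =
        (G.a i * e.1 + G.b i * e.2) * (1 / 20) := by
        simp only [Fam.pull, scA]; ring
      rw [this, abs_mul, abs_of_pos (show (0 : ℝ) < 1 / 20 by norm_num)]
      field_simp
    rw [hdot]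
    have hx : dud ^ 2 / 2 ≤ 1 - |G.a i * e.1 + G.b i * e.2| / G.nm i := by
      set x := |G.a i * e.1 + G.b i * e.2| / G.nm i with hxd
      have hx0 : 0 ≤ x := by positivity
      have hxN : x * G.nm i = |G.a i * e.1 + G.b i * e.2| := by
        rw [hxd]; field_simp
      have hsq : x ^ 2 * G.nm i ^ 2 = (G.a i * e.1 + G.b i * e.2) ^ 2 := by
        rw [← mul_pow, hxN, sq_abs]
      have hid : (G.a i * e.1 + G.b i * e.2) ^ 2 + (G.a i * e.2 - G.b i * e.1) ^ 2 = G.nm i ^ 2 := by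
        rw [nm_sq]
        linear_combination (G.a i ^ 2 + G.b i ^ 2) * he
      have hd0 : 0 ≤ dud * G.nm i := by unfold dud; positivity
      have hwsq : (dud * G.nm i) ^ 2 ≤ (G.a i * e.2 - G.b i * e.1) ^ 2 := by
        rw [← sq_abs (G.a i * e.2 - G.b i * e.1)]
        gcongr
      have hx2 : x ^ 2 ≤ 1 - dud ^ 2 := by
        have hN2 : 0 < G.nm i ^ 2 := by positivity
        have : x ^ 2 * G.nm i ^ 2 ≤ (1 - dud ^ 2) * G.nm i ^ 2 := by nlinarith
        exact le_of_mul_le_mul_right this hN2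
      nlinarith [sq_nonneg (1 - x)]
    have hcw0 := cw_nonneg G i c (1 / 40)
    have hcwp := cw_nonneg (G.pull (scA c)) i (0, 0) (1 / 2)
    calc G.cw i c (1 / 40) * (10 * dud ^ 2)
        ≤ (G.pull (scA c)).cw i (0, 0) (1 / 2) / 20 * (10 * dud ^ 2) := by gcongr
      _ = (G.pull (scA c)).cw i (0, 0) (1 / 2) * (dud ^ 2 / 2) := by ring
      _ ≤ _ := by gcongr
  have hsum : (∑ i ∈ G.farU e, G.cw i c (1 / 40)) * (10 * dud ^ 2) ≤ 400 * kud := by
    rw [Finset.sum_mul]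
    refine (Finset.sum_le_sum hfar).trans ?_
    refine (Finset.sum_le_sum_of_subset_of_nonneg (Finset.subset_univ _) ?_).trans hs
    intro i _ _
    exact hterm i
  have hd2 : (0 : ℝ) < 10 * dud ^ 2 := by unfold dud; positivity
  rw [← le_div_iff₀ hd2] at hsum
  refine hsum.trans ?_
  unfold kud dud
  norm_num

theorem neighbour (G : Fam n) (c c' e e' : ℝ × ℝ) (hcov : dsk c (1 / 20) ⊆ G.cov)
    (hd : (c.1 - c'.1) ^ 2 + (c.2 - c'.2) ^ 2 ≤ (1 / 80) ^ 2)
    (he : e.1 ^ 2 + e.2 ^ 2 = 1) (he' : e'.1 ^ 2 + e'.2 ^ 2 = 1)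
    (h1 : ∑ i ∈ G.farU e, G.cw i c (1 / 40) ≤ 3 / 10 ^ 5)
    (h2 : ∑ i ∈ G.farU e', G.cw i c' (1 / 40) ≤ 3 / 10 ^ 5) : |wdg e e'| ≤ 2 * dud := by
  have hb := bang_sum G (R := 1 / 80) (by norm_num) c (by
    refine Subset.trans ?_ hcov
    intro q hq
    simp only [dsk, mem_ofPred_eq] at hq ⊢
    linarith)
  obtain ⟨i, hi1, hi2, -⟩ := link (fun i => G.cw i c (1 / 80)) (fun i => G.cw i c' (1 / 40))
    (G.farU e) (G.farU e') (1 / 80) 1 (3 / 10 ^ 5) (3 / 10 ^ 5) (by norm_num)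
    (fun i => cw_nonneg _ _ _ _) (fun i => cw_nonneg _ _ _ _) hb
    ((Finset.sum_le_sum (fun i _ => cw_mono G i c (by norm_num))).trans h1) h2
    (fun i _ => by
      have hnp := nm_pos G i
      have := cw_cmp G G i c c' (1 / 80) (1 / 40) rfl (by
        have h3 : |(G.c i - G.a i * c.1 - G.b i * c.2) - (G.c i - G.a i * c'.1 - G.b i * c'.2)|
            ≤ 1 / 80 * G.nm i := by
          apply abs_le_of_sq_le_sq _ (by positivity)
          rw [mul_pow, nm_sq]
          have h4 : 0 ≤ G.a i ^ 2 + G.b i ^ 2 := (G.nz i).le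
          have h5 : ((G.c i - G.a i * c.1 - G.b i * c.2) - (G.c i - G.a i * c'.1 - G.b i * c'.2)) ^ 2
            ≤ (G.a i ^ 2 + G.b i ^ 2) * ((c.1 - c'.1) ^ 2 + (c.2 - c'.2) ^ 2) := by
            nlinarith [sq_nonneg (G.a i * (c.2 - c'.2) - G.b i * (c.1 - c'.1))]
          have h6 : (G.a i ^ 2 + G.b i ^ 2) * ((c.1 - c'.1) ^ 2 + (c.2 - c'.2) ^ 2) ≤
            (G.a i ^ 2 + G.b i ^ 2) * (1 / 80) ^ 2 := by gcongr
          linarith
        linarith)
      show G.cw i c (1 / 80) ≤ 1 * G.cw i c' (1 / 40)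
      rw [one_mul]
      exact le_of_mul_le_mul_right this hnp)
    (by norm_num)
  have hi1' : |G.a i * e.2 - G.b i * e.1| < dud * G.nm i := by
    simpa [Fam.farU] using hi1
  have hi2' : |G.a i * e'.2 - G.b i * e'.1| < dud * G.nm i := by
    simpa [Fam.farU] using hi2
  have hnp := nm_pos G i

  set v : ℝ × ℝ := (G.a i / G.nm i, G.b i / G.nm i) with hv
  have hv1 : v.1 ^ 2 + v.2 ^ 2 = 1 := by
    simp only [hv]
    rw [div_pow, div_pow, ← add_div, nm_sq]
    exact div_self (G.nz i).ne'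
  have h3 := wdg_tri e v e' 1 zero_le_one (by rw [he]; norm_num) hv1 he'
  have h4 : |wdg e v| ≤ dud := by
    rw [wdg_symm]
    have : wdg v e = (G.a i * e.2 - G.b i * e.1) / G.nm i := by
      simp only [wdg, hv]; ring
    rw [this, abs_div, abs_of_pos hnp, div_le_iff₀ hnp]
    exact hi1'.le
  have h5 : |wdg v e'| ≤ dud := by
    have : wdg v e' = (G.a i * e'.2 - G.b i * e'.1) / G.nm i := by
      simp only [wdg, hv]; ring
    rw [this, abs_div, abs_of_pos hnp, div_le_iff₀ hnp]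
    exact hi2'.le
  linarith

theorem ud (G : Fam n) (S : Set (ℝ × ℝ)) (hS : Convex ℝ S) (hne : S.Nonempty)
    (hdiam : ∀ p ∈ S, ∀ q ∈ S, (p.1 - q.1) ^ 2 + (p.2 - q.2) ^ 2 ≤ (5 / 4) ^ 2)
    (hcov : ∀ c ∈ S, dsk c (1 / 20) ⊆ G.cov)
    (hov : ∀ c ∈ S, ∫⁻ p in dsk c (1 / 20), G.ov p ≤ ENNReal.ofReal kud) :
    ∃ e, DirOn G S e := by
  obtain ⟨c0, hc0⟩ := hne
  have hloc : ∀ c ∈ S, ∃ e : ℝ × ℝ, e.1 ^ 2 + e.2 ^ 2 = 1 ∧
      ∑ i ∈ G.farU e, G.cw i c (1 / 40) ≤ 3 / 10 ^ 5 :=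
    fun c hc => local_dir G c (hcov c hc) (hov c hc)
  choose! e he1 he2 using hloc
  have hd0 : (0 : ℝ) ≤ dud := by unfold dud; positivity
  have hchain : ∀ c ∈ S, |wdg (e c0) (e c)| ≤ 200 * dud := by
    intro c hc
    set p : ℕ → ℝ × ℝ := fun k => (c0.1 + (k : ℝ) / 100 * (c.1 - c0.1), c0.2 + (k : ℝ) / 100 * (c.2 - c0.2)) with hp
    have hpS : ∀ k ≤ 100, p k ∈ S := by
      intro k hk
      have hk' : (k : ℝ) / 100 ≤ 1 := by
        rw [div_le_one (by norm_num)]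
        exact_mod_cast hk
      have h1 := hS hc0 hc (a := 1 - (k : ℝ) / 100) (b := (k : ℝ) / 100) (by linarith)
        (by positivity) (by ring)
      have h2 : (1 - (k : ℝ) / 100) • c0 + ((k : ℝ) / 100) • c = p k := by
        ext
        · simp only [hp, Prod.fst_add, Prod.smul_fst, smul_eq_mul]; ring
        · simp only [hp, Prod.snd_add, Prod.smul_snd, smul_eq_mul]; ring
      rwa [h2] at h1
    have hstep : ∀ k, k ≤ 100 → |wdg (e c0) (e (p k))| ≤ 2 * k * dud := by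
      intro k
      induction k with
      | zero =>
        intro _
        have : p 0 = c0 := by simp [hp]
        rw [this]
        have : wdg (e c0) (e c0) = 0 := by unfold wdg; ring
        rw [this]; simp
      | succ k ih =>
        intro hk
        have h1 := ih (by omega)
        have hn := neighbour G (p k) (p (k + 1)) (e (p k)) (e (p (k + 1)))
          (hcov _ (hpS k (by omega))) (by
            have h2 := hdiam c hc c0 hc0
            simp only [hp]
            push_cast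
            nlinarith) (he1 _ (hpS k (by omega))) (he1 _ (hpS (k + 1) hk))
          (he2 _ (hpS k (by omega))) (he2 _ (hpS (k + 1) hk))
        have h3 := wdg_tri (e c0) (e (p k)) (e (p (k + 1))) 1 zero_le_one
          (by rw [he1 c0 hc0]; norm_num) (he1 _ (hpS k (by omega))) (he1 _ (hpS (k + 1) hk))
        push_cast
        linarith
    have h100 := hstep 100 le_rfl
    have hpc : p 100 = c := by
      ext
      · simp only [hp]; push_cast; ring
      · simp only [hp]; push_cast; ring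
    rw [hpc] at h100
    push_cast at h100
    linarith
  refine ⟨e c0, he1 c0 hc0, ?_⟩
  intro c hc
  have hsub : G.far2 (e c0) ⊆ G.farU (e c) := by
    intro i hi
    have hi' : 1 / 20000 * G.nm i ≤ |G.a i * (e c0).2 - G.b i * (e c0).1| := by
      have := (Finset.mem_filter.1 hi).2
      exact this
    have hnp := nm_pos G i
    have h1 := wdg_tri (G.a i, G.b i) (e c) (e c0) (G.nm i) hnp.le (by rw [nm_sq]) (he1 c hc)
      (he1 c0 hc0)
    have h2 := hchain c hc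
    rw [wdg_symm] at h2
    have h3 : |wdg (G.a i, G.b i) (e c0)| = |G.a i * (e c0).2 - G.b i * (e c0).1| := rfl
    have h4 : |wdg (G.a i, G.b i) (e c)| = |G.a i * (e c).2 - G.b i * (e c).1| := rfl
    rw [h3, h4] at h1
    have h5 : G.nm i * |wdg (e c) (e c0)| ≤ G.nm i * (200 * dud) := by gcongr
    refine Finset.mem_filter.2 ⟨Finset.mem_univ _, ?_⟩
    have h6 : dud = 1 / (8 * 10 ^ 6) := rfl
    rw [h6] at h5 ⊢
    nlinarith
  calc ∑ i ∈ G.far2 (e c0), G.cw i c (1 / 40) ≤ ∑ i ∈ G.farU (e c), G.cw i c (1 / 40) :=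
        Finset.sum_le_sum_of_subset_of_nonneg hsub (fun i _ _ => cw_nonneg _ _ _ _)
    _ ≤ 3 / 10 ^ 5 := he2 c hc
    _ ≤ 1 / 4000 := by norm_num

end Pool.Agent.Helper934.Ann
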