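import Mathlib
import Pool.Agent.Helper934.AnnDefs
import Pool.Agent.Helper934.AnnGODefs
import Pool.Agent.Helper934.AnnGeoDefs
import Pool.Agent.Helper934.AnnJ3
import Pool.Agent.Helper934.AnnK1

open MeasureTheory Set
open scoped ENNReal

namespace Pool.Agent.Helper934.Ann

variable {n : ℕ}

namespace B3a

theorem adj_arA (x y e1 e2 nm : ℝ) (hnm : 0 < nm) (h : e1 ^ 2 + e2 ^ 2 = 1) (hn : nm ≤ |x| + |y|)
    (hxy : |x * e2 - y * e1| < 1 / 20000 * nm) (hs : 1 / 2 * |e2| < |e1|) : 499 / 1000 * |y| ≤ |x| := by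
  have h1 : |y| * |e1| - |x| * |e2| ≤ |x * e2 - y * e1| := by
    rw [← abs_mul, ← abs_mul, abs_sub_comm]
    exact abs_sub_abs_le_abs_sub _ _
  have hp : |e1| ^ 2 + |e2| ^ 2 = 1 := by rw [sq_abs, sq_abs]; exact h
  have hX := abs_nonneg x
  have hY := abs_nonneg y
  have hp0 := abs_nonneg e1
  have hq0 := abs_nonneg e2
  generalize |x| = X at *
  generalize |y| = Y at *
  generalize |e1| = p at *
  generalize |e2| = q at *
  by_contra hc
  push Not at hc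
  have hY0 : 0 < Y := by linarith
  have h2 : Y * p < X * q + (X + Y) / 20000 := by linarith
  have h3 : X * q ≤ 499 / 1000 * Y * q := mul_le_mul_of_nonneg_right hc.le hq0
  have h4 : Y * p < Y * (499 / 1000 * q + 1 / 10000) := by nlinarith
  have h5 : p < 499 / 1000 * q + 1 / 10000 := lt_of_mul_lt_mul_left h4 hY0.le
  have h6 : q < 1 / 10 := by linarith
  have h7 : p < 1 / 10 := by linarith
  nlinarith

theorem adj_arB (x y e1 e2 nm : ℝ) (hnm : 0 < nm) (h : e1 ^ 2 + e2 ^ 2 = 1) (hn : nm ≤ |x| + |y|)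
    (hxy : |x * e2 - y * e1| < 1 / 20000 * nm) (hs : 496 / 1000 * |y| ≤ |x|) :
    494 / 1000 * |e2| ≤ |e1| := by
  have h1 : |x| * |e2| - |y| * |e1| ≤ |x * e2 - y * e1| := by
    rw [← abs_mul, ← abs_mul]
    exact abs_sub_abs_le_abs_sub _ _
  have hp : |e1| ^ 2 + |e2| ^ 2 = 1 := by rw [sq_abs, sq_abs]; exact h
  have hX := abs_nonneg x
  have hY := abs_nonneg y
  have hp0 := abs_nonneg e1
  have hq0 := abs_nonneg e2
  generalize |x| = X at *
  generalize |y| = Y at *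
  generalize |e1| = p at *
  generalize |e2| = q at *
  by_contra hc
  push Not at hc
  have hX0 : 0 < X := by
    by_contra hX0
    have : X = 0 := le_antisymm (not_lt.mp hX0) hX
    have : Y ≤ 0 := by linarith
    linarith
  have h2 : X * q < Y * p + (X + Y) / 20000 := by linarith
  have hYX : Y ≤ 1000 / 496 * X := by linarith
  have h3 : Y * p ≤ Y * (494 / 1000 * q) := mul_le_mul_of_nonneg_left hc.le hY
  have h3' : Y * (494 / 1000 * q) ≤ 1000 / 496 * X * (494 / 1000 * q) :=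
    mul_le_mul_of_nonneg_right hYX (by positivity)
  have h4 : X * q < X * (494 / 496 * q + 1 / 5000) := by nlinarith
  have h5 : q < 494 / 496 * q + 1 / 5000 := lt_of_mul_lt_mul_left h4 hX0.le
  have h6 : q < 1 / 10 := by linarith
  have h7 : p < 1 / 10 := by linarith
  nlinarith

theorem adj_nm_le (F : Fam n) (i : Fin n) : F.nm i ≤ |F.a i| + |F.b i| := by
  unfold Fam.nm
  rw [Real.sqrt_le_left (by positivity)]
  have := abs_nonneg (F.a i)
  have := abs_nonneg (F.b i)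
  have h1 := sq_abs (F.a i)
  have h2 := sq_abs (F.b i)
  nlinarith [mul_nonneg (abs_nonneg (F.a i)) (abs_nonneg (F.b i))]

theorem adj_a (C : Cfg n) (j : ℕ) (neg : Bool) (i : Fin n) :
    (C.ch (j + 1) neg).a i = bb ^ 2 * (C.ch j neg).a i := by
  simp only [Cfg.ch, Fam.pull, chart]
  rw [show 2 * (j + 1) = 2 * j + 2 by ring, pow_add]
  ring

theorem adj_b (C : Cfg n) (j : ℕ) (neg : Bool) (i : Fin n) :
    (C.ch (j + 1) neg).b i = bb ^ 4 * (C.ch j neg).b i := by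
  simp only [Cfg.ch, Fam.pull, chart]
  rw [show 4 * (j + 1) = 4 * j + 4 by ring, pow_add]
  ring

theorem adj_c (C : Cfg n) (j : ℕ) (neg : Bool) (i : Fin n) :
    (C.ch (j + 1) neg).c i = (C.ch j neg).c i := by
  simp only [Cfg.ch, Fam.pull, chart]

theorem adj_d (C : Cfg n) (j : ℕ) (neg : Bool) (i : Fin n) :
    (C.ch (j + 1) neg).d i = (C.ch j neg).d i := by
  simp only [Cfg.ch, Fam.pull]

theorem adj_nm1 (C : Cfg n) (j : ℕ) (neg : Bool) (i : Fin n) :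
    (C.ch (j + 1) neg).nm i ≤ (C.ch j neg).nm i := by
  unfold Fam.nm
  apply Real.sqrt_le_sqrt
  rw [adj_a, adj_b]
  have h1 : (bb ^ 2 * (C.ch j neg).a i) ^ 2 ≤ (C.ch j neg).a i ^ 2 := by
    rw [mul_pow]
    have : (bb ^ 2) ^ 2 ≤ 1 := by norm_num [bb]
    nlinarith [sq_nonneg ((C.ch j neg).a i)]
  have h2 : (bb ^ 4 * (C.ch j neg).b i) ^ 2 ≤ (C.ch j neg).b i ^ 2 := by
    rw [mul_pow]
    have : (bb ^ 4) ^ 2 ≤ 1 := by norm_num [bb]
    nlinarith [sq_nonneg ((C.ch j neg).b i)]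
  linarith

theorem adj_nm2 (C : Cfg n) (j : ℕ) (neg : Bool) (i : Fin n) :
    (C.ch j neg).nm i ≤ 102 / 100 * (C.ch (j + 1) neg).nm i := by
  unfold Fam.nm
  rw [Real.sqrt_le_left (by positivity), mul_pow, Real.sq_sqrt (by positivity)]
  rw [adj_a, adj_b, mul_pow, mul_pow]
  have h1 : (C.ch j neg).a i ^ 2 ≤ (102 / 100) ^ 2 * ((bb ^ 2) ^ 2 * (C.ch j neg).a i ^ 2) := by
    have : 1 ≤ (102 / 100) ^ 2 * (bb ^ 2) ^ 2 := by norm_num [bb]
    nlinarith [sq_nonneg ((C.ch j neg).a i)]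
  have h2 : (C.ch j neg).b i ^ 2 ≤ (102 / 100) ^ 2 * ((bb ^ 4) ^ 2 * (C.ch j neg).b i ^ 2) := by
    have : 1 ≤ (102 / 100) ^ 2 * (bb ^ 4) ^ 2 := by norm_num [bb]
    nlinarith [sq_nonneg ((C.ch j neg).b i)]
  linarith

theorem adj (C : Cfg n) (j : ℕ) (neg : Bool) (e e' : ℝ × ℝ) (h : DirOn (C.ch (j + 1) neg) SR e)
    (h' : DirOn (C.ch j neg) SR e')
    (hcov : dsk (3 / 10, 1 / 2) (1 / 20) ⊆ (C.ch (j + 1) neg).cov)
    (hs : 1 / 2 * |e.2| < |e.1|) : 494 / 1000 * |e'.2| ≤ |e'.1| := by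
  classical
  set c : ℝ × ℝ := (3 / 10, 1 / 2) with hc
  set c' : ℝ × ℝ := (3 / 10 * bb ^ 2, 1 / 2 * bb ^ 4) with hc'
  have hcS : c ∈ SR := by
    refine ⟨⟨?_, ?_⟩, ⟨?_, ?_⟩⟩ <;> simp only [hc] <;> norm_num
  have hcS' : c' ∈ SR := by
    refine ⟨⟨?_, ?_⟩, ⟨?_, ?_⟩⟩ <;> simp only [hc', bb] <;> norm_num
  have hsum : 2 * (1 / 80 : ℝ) ≤ ∑ i, (C.ch (j + 1) neg).cw i c (1 / 80) := by
    apply bang_sum _ (by norm_num)
    refine Set.Subset.trans ?_ hcov
    intro q hq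
    simp only [dsk, Set.mem_ofPred_eq] at hq ⊢
    have : (1 / 80 : ℝ) ^ 2 ≤ (1 / 20) ^ 2 := by norm_num
    exact le_trans hq this
  have hS1 : ∑ i ∈ (C.ch (j + 1) neg).far2 e, (C.ch (j + 1) neg).cw i c (1 / 80) ≤ 1 / 4000 :=
    le_trans (Finset.sum_le_sum fun i _ => cw_mono _ i c (by norm_num)) (h.2 c hcS)
  have hS2 : ∑ i ∈ (C.ch j neg).far2 e', (C.ch j neg).cw i c' (1 / 40) ≤ 1 / 4000 := h'.2 c' hcS'
  have hcond : ∀ i ∉ (C.ch (j + 1) neg).far2 e, (C.ch (j + 1) neg).cw i c (1 / 80) ≤ 102 / 100 * (C.ch j neg).cw i c' (1 / 40) := by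
    intro i _
    have hn1 := nm_pos (C.ch (j + 1) neg) i
    have hcmp := cw_cmp (C.ch (j + 1) neg) (C.ch j neg) i c c' (1 / 80) (1 / 40) (adj_d C j neg i) (by
      have h0 : ((C.ch (j + 1) neg).c i - (C.ch (j + 1) neg).a i * c.1 - (C.ch (j + 1) neg).b i * c.2) -
          ((C.ch j neg).c i - (C.ch j neg).a i * c'.1 - (C.ch j neg).b i * c'.2) = 0 := by
        rw [adj_a, adj_b, adj_c, hc, hc']
        ring
      rw [h0, abs_zero, zero_add]
      have := adj_nm1 C j neg i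
      have := nm_pos (C.ch j neg) i
      linarith)
    have hw2 := cw_nonneg (C.ch j neg) i c' (1 / 40)
    have h2 := adj_nm2 C j neg i
    have h3 : (C.ch (j + 1) neg).cw i c (1 / 80) * (C.ch (j + 1) neg).nm i ≤
        (102 / 100 * (C.ch j neg).cw i c' (1 / 40)) * (C.ch (j + 1) neg).nm i := by
      calc _ ≤ (C.ch j neg).cw i c' (1 / 40) * (C.ch j neg).nm i := hcmp
        _ ≤ (C.ch j neg).cw i c' (1 / 40) * (102 / 100 * (C.ch (j + 1) neg).nm i) :=
          mul_le_mul_of_nonneg_left h2 hw2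
        _ = _ := by ring
    exact le_of_mul_le_mul_right h3 hn1
  obtain ⟨i, hi1, hi2, -⟩ := link (fun i => (C.ch (j + 1) neg).cw i c (1 / 80))
    (fun i => (C.ch j neg).cw i c' (1 / 40)) _ _ (1 / 80) (102 / 100) (1 / 4000) (1 / 4000)
    (by norm_num) (fun i => cw_nonneg _ _ _ _) (fun i => cw_nonneg _ _ _ _) hsum hS1 hS2 hcond
    (by norm_num)
  have hn1 := nm_pos (C.ch (j + 1) neg) i
  have hn0 := nm_pos (C.ch j neg) i
  simp only [Fam.far2, Finset.mem_filter, Finset.mem_univ, true_and, not_le] at hi1 hi2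
  have hA := adj_arA _ _ _ _ _ hn1 h.1 (adj_nm_le _ i) hi1 hs
  rw [adj_a, adj_b, abs_mul, abs_mul] at hA
  have hb2 : |bb ^ 2| = bb ^ 2 := abs_of_nonneg (by norm_num [bb])
  have hb4 : |bb ^ 4| = bb ^ 4 := abs_of_nonneg (by norm_num [bb])
  rw [hb2, hb4] at hA
  refine adj_arB _ _ _ _ _ hn0 h'.1 (adj_nm_le _ i) hi2 ?_
  have hY := abs_nonneg ((C.ch j neg).b i)
  have hX := abs_nonneg ((C.ch j neg).a i)
  generalize |(C.ch j neg).b i| = Y at *
  generalize |(C.ch j neg).a i| = X at *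
  have e2 : bb ^ 2 = 159201 / 160000 := by norm_num [bb]
  have e4 : bb ^ 4 = (159201 / 160000) * (159201 / 160000) := by norm_num [bb]
  rw [e2, e4] at hA
  have : 499 / 1000 * (159201 / 160000 * Y) ≤ X := by
    nlinarith
  nlinarith

end B3a

alias adj := B3a.adj

end Pool.Agent.Helper934.Ann
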