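import Mathlib
import Pool.Agent.Helper934.AnnDefs
import Pool.Agent.Helper934.AnnGODefs
import Pool.Agent.Helper934.AnnGeoDefs
import Pool.Agent.Helper934.AnnJ3
import Pool.Agent.Helper934.AnnK1

open MeasureTheory Set
open scoped ENNReal

namespace Pool.Agent.Helper934.Ann

variable {n : ℕ}

namespace B3b

private theorem B3b_cross {a b e1 e2 f1 f2 ν δ : ℝ} (hν : 0 < ν) (hn : ν ^ 2 = a ^ 2 + b ^ 2)
    (he : e1 ^ 2 + e2 ^ 2 = 1) (hf : f1 ^ 2 + f2 ^ 2 = 1) (h1 : |a * e2 - b * e1| ≤ δ * ν)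
    (h2 : |a * f2 - b * f1| ≤ δ * ν) : |e1 * f2 - e2 * f1| ≤ 2 * δ := by
  have hP : |a * e1 + b * e2| ≤ ν := by
    apply abs_le_of_sq_le_sq _ hν.le
    have : (a * e1 + b * e2) ^ 2 + (a * e2 - b * e1) ^ 2 = ν ^ 2 := by
      rw [hn]; linear_combination (a ^ 2 + b ^ 2) * he
    nlinarith [sq_nonneg (a * e2 - b * e1)]
  have hQ : |a * f1 + b * f2| ≤ ν := by
    apply abs_le_of_sq_le_sq _ hν.le
    have : (a * f1 + b * f2) ^ 2 + (a * f2 - b * f1) ^ 2 = ν ^ 2 := by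
      rw [hn]; linear_combination (a ^ 2 + b ^ 2) * hf
    nlinarith [sq_nonneg (a * f2 - b * f1)]
  have hid : ν ^ 2 * (e1 * f2 - e2 * f1) =
      (a * e1 + b * e2) * (a * f2 - b * f1) - (a * e2 - b * e1) * (a * f1 + b * f2) := by
    rw [hn]; ring
  have h3 : |ν ^ 2 * (e1 * f2 - e2 * f1)| ≤ ν * (δ * ν) + δ * ν * ν := by
    rw [hid]
    refine (abs_sub _ _).trans ?_
    rw [abs_mul, abs_mul]
    gcongr
    · exact (abs_nonneg _).trans h1
  rw [abs_mul, abs_of_pos (by positivity : (0:ℝ) < ν ^ 2)] at h3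
  have h4 : ν ^ 2 * |e1 * f2 - e2 * f1| ≤ ν ^ 2 * (2 * δ) := by nlinarith
  exact le_of_mul_le_mul_left h4 (by positivity)

private theorem B3b_nmsq (F : Fam n) (i : Fin n) : F.nm i ^ 2 = F.a i ^ 2 + F.b i ^ 2 := by
  unfold Fam.nm
  exact Real.sq_sqrt (by positivity)

private theorem B3b_notfar {F : Fam n} {e : ℝ × ℝ} {i : Fin n} (h : i ∉ F.far2 e) :
    |F.a i * e.2 - F.b i * e.1| ≤ 1 / 20000 * F.nm i := by
  unfold Fam.far2 at h
  simp only [Finset.mem_filter, Finset.mem_univ, true_and, not_le] at h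
  exact h.le

private theorem B3b_dsk {p : ℝ × ℝ} {R S : ℝ} (hR : 0 ≤ R) (h : R ≤ S) : dsk p R ⊆ dsk p S := by
  intro q hq
  have h1 : (q.1 - p.1) ^ 2 + (q.2 - p.2) ^ 2 ≤ R ^ 2 := hq
  show (q.1 - p.1) ^ 2 + (q.2 - p.2) ^ 2 ≤ S ^ 2
  nlinarith

theorem tr (C : Cfg n) (j : ℕ) (e e' : ℝ × ℝ) (h : DirOn (C.ch j false) SR e)
    (h' : DirOn (C.ch j true) SR e')
    (hcov : dsk (3 / 10, 1 / 2) (1 / 20) ⊆ (C.ch j false).cov)
    (hs : |e.1| ≤ 1 / 2 * |e.2|) : |e.1 * e'.2 + e.2 * e'.1| ≤ 1 / 2500 := by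
  obtain ⟨he, hS⟩ := h
  obtain ⟨he', hS'⟩ := h'
  have hsq : e.1 ^ 2 ≤ 1 / 4 * e.2 ^ 2 := by
    have h1 : |e.1| ^ 2 ≤ (1 / 2 * |e.2|) ^ 2 := by gcongr
    rw [mul_pow, sq_abs, sq_abs] at h1
    linarith
  have he2 : 4 / 5 ≤ e.2 ^ 2 := by linarith
  have he2abs : 3 / 5 ≤ |e.2| := by
    by_contra hcon
    push Not at hcon
    have : |e.2| ^ 2 < (3 / 5) ^ 2 := by gcongr
    rw [sq_abs] at this
    linarith
  have he0 : e.2 ≠ 0 := by
    intro h0
    rw [h0, abs_zero] at he2abs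
    linarith
  obtain ⟨s, hs0⟩ : ∃ s : ℝ, s * e.2 = -e.1 := ⟨-e.1 / e.2, by field_simp⟩
  have hs1 : |s| ≤ 1 / 2 := by
    have h1 : |s| * |e.2| = |e.1| := by rw [← abs_mul, hs0, abs_neg]
    have h2 : |s| * |e.2| ≤ 1 / 2 * |e.2| := by rw [h1]; exact hs
    exact le_of_mul_le_mul_right h2 (by linarith)
  have hs2 := abs_le.1 hs1
  have hcS : ((3 / 10, 1 / 2) : ℝ × ℝ) ∈ SR := by
    simp only [SR, Set.mem_prod, Set.mem_Icc]
    norm_num
  have hcS' : ((3 / 10, 1 / 2 - 3 / 5 * s) : ℝ × ℝ) ∈ SR := by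
    simp only [SR, Set.mem_prod, Set.mem_Icc]
    refine ⟨⟨by norm_num, by norm_num⟩, by linarith [hs2.2], by linarith [hs2.1]⟩
  have ha : ∀ i, (C.ch j true).a i = -(C.ch j false).a i := by
    intro i; simp [Cfg.ch, Fam.pull, chart]
  have hb : ∀ i, (C.ch j true).b i = (C.ch j false).b i := by
    intro i; simp [Cfg.ch, Fam.pull, chart]
  have hc : ∀ i, (C.ch j true).c i = (C.ch j false).c i := by
    intro i; simp [Cfg.ch, Fam.pull, chart]
  have hd : ∀ i, (C.ch j false).d i = (C.ch j true).d i := by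
    intro i; simp [Cfg.ch, Fam.pull]
  have hnm : ∀ i, (C.ch j true).nm i = (C.ch j false).nm i := by
    intro i
    unfold Fam.nm
    rw [ha, hb, neg_sq]
  obtain ⟨i, hi1, hi2, -⟩ := link (fun i => (C.ch j false).cw i (3 / 10, 1 / 2) (1 / 80))
    (fun i => (C.ch j true).cw i (3 / 10, 1 / 2 - 3 / 5 * s) (1 / 40))
    ((C.ch j false).far2 e) ((C.ch j true).far2 e') (1 / 80) 1 (1 / 4000) (1 / 4000)
    zero_le_one (fun i => cw_nonneg _ _ _ _) (fun i => cw_nonneg _ _ _ _)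
    (bang_sum _ (by norm_num) _ ((B3b_dsk (by norm_num) (by norm_num)).trans hcov))
    ((Finset.sum_le_sum fun i _ => cw_mono _ _ _ (by norm_num)).trans (hS _ hcS))
    (hS' _ hcS')
    (by
      intro i hi
      have h1 := B3b_notfar hi
      have hnp := nm_pos (C.ch j false) i
      have h2 := cw_cmp (C.ch j false) (C.ch j true) i (3 / 10, 1 / 2) (3 / 10, 1 / 2 - 3 / 5 * s)
        (1 / 80) (1 / 40) (hd i) (by
          rw [ha, hb, hc, hnm]
          have h3 : (C.ch j false).c i - (C.ch j false).a i * (3 / 10) -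
              (C.ch j false).b i * (1 / 2) - ((C.ch j false).c i -
              -(C.ch j false).a i * (3 / 10) - (C.ch j false).b i * (1 / 2 - 3 / 5 * s)) =
              -(3 / 5 * ((C.ch j false).a i + (C.ch j false).b i * s)) := by ring
          simp only []
          rw [h3, abs_neg, abs_mul, abs_of_pos (by norm_num : (0:ℝ) < 3 / 5)]
          have h4 : |(C.ch j false).a i * e.2 - (C.ch j false).b i * e.1| =
              |(C.ch j false).a i + (C.ch j false).b i * s| * |e.2| := by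
            rw [← abs_mul]
            congr 1
            linear_combination -(C.ch j false).b i * hs0
          rw [h4] at h1
          have h5 : 3 / 5 * |(C.ch j false).a i + (C.ch j false).b i * s| ≤
              |(C.ch j false).a i + (C.ch j false).b i * s| * |e.2| := by
            rw [mul_comm (3 / 5 : ℝ)]
            gcongr
          linarith)
      rw [hnm] at h2
      rw [one_mul]
      exact le_of_mul_le_mul_right h2 hnp)
    (by norm_num)
  have h1 := B3b_notfar hi1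
  have h2 := B3b_notfar hi2
  rw [ha, hb, hnm] at h2
  have h3 := B3b_cross (f1 := -e'.1) (f2 := e'.2) (nm_pos (C.ch j false) i) (B3b_nmsq _ i) he
    (by rw [neg_sq]; exact he') h1 (by
      have : (C.ch j false).a i * e'.2 - (C.ch j false).b i * -e'.1 =
          -(-(C.ch j false).a i * e'.2 - (C.ch j false).b i * e'.1) := by ring
      rw [this, abs_neg]
      exact h2)
  have h4 : e.1 * e'.2 - e.2 * -e'.1 = e.1 * e'.2 + e.2 * e'.1 := by ring
  rw [h4] at h3
  linarith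

theorem dir_link (G : Fam n) (S S' : Set (ℝ × ℝ)) (e e' : ℝ × ℝ) (h : DirOn G S e) (h' : DirOn G S' e')
    (c : ℝ × ℝ) (hc : c ∈ S) (hc' : c ∈ S') (hcov : dsk c (1 / 20) ⊆ G.cov) :
    |e.1 * e'.2 - e.2 * e'.1| ≤ 1 / 10000 := by
  obtain ⟨he, hS⟩ := h
  obtain ⟨he', hS'⟩ := h'
  obtain ⟨i, hi1, hi2, -⟩ := link (fun i => G.cw i c (1 / 80)) (fun i => G.cw i c (1 / 40))
    (G.far2 e) (G.far2 e') (1 / 80) 1 (1 / 4000) (1 / 4000) zero_le_one
    (fun i => cw_nonneg _ _ _ _) (fun i => cw_nonneg _ _ _ _)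
    (bang_sum _ (by norm_num) _ ((B3b_dsk (by norm_num) (by norm_num)).trans hcov))
    ((Finset.sum_le_sum fun i _ => cw_mono _ _ _ (by norm_num)).trans (hS _ hc))
    (hS' _ hc')
    (fun i _ => by rw [one_mul]; exact cw_mono _ _ _ (by norm_num))
    (by norm_num)
  have h3 := B3b_cross (nm_pos G i) (B3b_nmsq _ i) he he' (B3b_notfar hi1) (B3b_notfar hi2)
  linarith

end B3b

alias tr := B3b.tr

alias dir_link := B3b.dir_link

end Pool.Agent.Helper934.Ann
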