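import Mathlib
import Pool.Agent.Helper934.AnnGODefs

namespace Pool.Agent.Helper934.Ann

variable {n : ℕ}

/-- chains -/
def Chain (F : Fam n) (y : ℝ) (M : ℕ) (U : ℕ → ℝ) : Prop :=
  U 0 = 0 ∧ ∀ i < M, Good F y (U i) i (U (i + 1))

end Pool.Agent.Helper934.Ann
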