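import Mathlib
import Pool.Agent.Helper934.AnnGODefs
import Pool.Agent.Helper934.AnnChain
import Pool.Agent.Helper934.AnnJ3

open MeasureTheory Set
open scoped ENNReal

namespace Pool.Agent.Helper934.Ann

variable {n : ℕ}

namespace K4a

theorem chain_bound (F : Fam n) (y : ℝ) (M : ℕ) (U : ℕ → ℝ) (h : Chain F y M U) :
    ∀ m ≤ M, |U m| ≤ 1 / 125 := by
  have key : ∀ m ≤ M, |U m| ≤ (2 - 2 * (1 / 2) ^ m) / 250 := by
    intro m
    induction m with
    | zero => intro _; rw [h.1]; norm_num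
    | succ m ih =>
      intro hm
      have h1 := ih (by omega)
      have h2 := (h.2 m (by omega)).1
      unfold lam at h2
      have h3 : |U (m + 1)| ≤ |U (m + 1) - U m| + |U m| := by
        have := abs_add_le (U (m + 1) - U m) (U m)
        rwa [sub_add_cancel] at this
      have h4 : ((1 : ℝ) / 2) ^ (m + 1) = (1 / 2) ^ m * (1 / 2) := pow_succ _ _
      rw [h4]
      linarith
  intro m hm
  have h1 := key m hm
  have h2 : (0 : ℝ) ≤ (1 / 2) ^ m := by positivity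
  linarith

theorem el_subset_QQ (y u : ℝ) (m : ℕ) (hy : |y| ≤ 1 / 4) (hu : |u| ≤ 1 / 125) :
    (elAff y u m).map '' dsk (0, 0) 1 ⊆ QQ := by
  rintro _ ⟨q, hq, rfl⟩
  have hq' : (q.1 - 0) ^ 2 + (q.2 - 0) ^ 2 ≤ 1 ^ 2 := hq
  have h1 : |q.1| ≤ 1 := abs_le_of_sq_le_sq (by nlinarith [sq_nonneg q.2]) (by norm_num)
  have h2 : |q.2| ≤ 1 := abs_le_of_sq_le_sq (by nlinarith [sq_nonneg q.1]) (by norm_num)
  have h3 : (0 : ℝ) ≤ (1 / 2) ^ m := by positivity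
  have h4 : ((1 : ℝ) / 2) ^ m ≤ 1 := pow_le_one₀ (by norm_num) (by norm_num)
  have h5 : |u * q.1| ≤ 1 / 125 := by
    rw [abs_mul]
    have := abs_nonneg u
    have := abs_nonneg q.1
    nlinarith
  have h6 : |(1 / 2 : ℝ) ^ m * q.2| ≤ 1 := by
    rw [abs_mul, abs_of_nonneg h3]
    have := abs_nonneg q.2
    nlinarith
  rw [abs_le] at h1 hy hu h5 h6
  refine ⟨⟨?_, ?_⟩, ⟨?_, ?_⟩⟩
  · show (1 : ℝ) ≤ 2 + 1 * q.1 + 0 * q.2
    linarith [h1.1]
  · show 2 + 1 * q.1 + 0 * q.2 ≤ 3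
    linarith [h1.2]
  · show -(3 / 2 : ℝ) ≤ y + 2 * u + u * q.1 + (1 / 2) ^ m * q.2
    linarith [hy.1, hu.1, h5.1, h6.1]
  · show y + 2 * u + u * q.1 + (1 / 2) ^ m * q.2 ≤ 3 / 2
    linarith [hy.2, hu.2, h5.2, h6.2]

end K4a

alias chain_bound := K4a.chain_bound

alias el_subset_QQ := K4a.el_subset_QQ

end Pool.Agent.Helper934.Ann
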