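import Mathlib
import Pool.Agent.Helper934.AnnGODefs
import Pool.Agent.Helper934.AnnJ3
import Pool.Agent.Helper934.AnnK1

open MeasureTheory Set
open scoped ENNReal

namespace Pool.Agent.Helper934.Ann

variable {n : ℕ}

namespace K3

theorem not_bad_iff733 (F : Fam n) (i : Fin n) (v η : ℝ) (h : i ∉ F.bad v η) :
    |F.a i + F.b i * v| ≤ η * |F.b i| := by
  classical
  unfold Fam.bad at h
  simpa using h

theorem b_pos733 (F : Fam n) (i : Fin n) (v η : ℝ) (h : i ∉ F.bad v η) :
    0 < |F.b i| := by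
  have h1 := not_bad_iff733 F i v η h
  rcases eq_or_ne (F.b i) 0 with hb | hb
  · exfalso
    have hnz := F.nz i
    rw [hb] at h1 hnz
    simp only [zero_mul, add_zero, abs_zero, mul_zero] at h1
    have : F.a i = 0 := abs_nonpos_iff.mp h1
    rw [this] at hnz
    norm_num at hnz
  · exact abs_pos.mpr hb

theorem lam_pos733 (m : ℕ) : 0 < lam m := by
  unfold lam; positivity

theorem good_gap (F : Fam n) (y u : ℝ) (m : ℕ) (u' : ℝ) (hg : Good F y u m u')
    (hcov : dsk (0, 0) 1 ⊆ (F.el y u m).cov) :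
    ∃ y', |y' - y| ≤ lam m / 4 ∧ ((0 : ℝ), y') ∈ F.cov := by
  have hlam := lam_pos733 m
  obtain ⟨hu, hsum⟩ := hg
  have hsub : dsk (0, 0) (1 / 8) ⊆ (F.el y u m).cov := by
    refine Set.Subset.trans ?_ hcov
    intro q hq
    simp only [dsk, mem_setOf_eq] at hq ⊢
    nlinarith
  have hb := bang_sum (F.el y u m) (by norm_num : (0:ℝ) < 1 / 8) (0, 0) hsub
  have hex : ∃ i, i ∉ F.bad u' (lam m / 1000) ∧ 0 < (F.el y u m).cw i (0, 0) (1 / 8) := by
    by_contra hcon
    push Not at hcon
    have h1 : ∑ i, (F.el y u m).cw i (0, 0) (1 / 8) ≤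
        ∑ i ∈ F.bad u' (lam m / 1000), (F.el y u m).cw i (0, 0) (1 / 2) := by
      classical
      rw [← Finset.sum_filter_add_sum_filter_not Finset.univ (fun i => i ∈ F.bad u' (lam m / 1000))]
      have h2 : ∑ i ∈ Finset.univ.filter (fun i => ¬ i ∈ F.bad u' (lam m / 1000)),
          (F.el y u m).cw i (0, 0) (1 / 8) ≤ 0 := by
        apply Finset.sum_nonpos
        intro i hi
        rw [Finset.mem_filter] at hi
        exact hcon i hi.2
      have h3 : ∑ i ∈ Finset.univ.filter (fun i => i ∈ F.bad u' (lam m / 1000)),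
          (F.el y u m).cw i (0, 0) (1 / 8) ≤
          ∑ i ∈ F.bad u' (lam m / 1000), (F.el y u m).cw i (0, 0) (1 / 2) := by
        have h4 : Finset.univ.filter (fun i => i ∈ F.bad u' (lam m / 1000)) = F.bad u' (lam m / 1000) := by
          ext i; simp
        rw [h4]
        apply Finset.sum_le_sum
        intro i _
        exact cw_mono _ i _ (by norm_num)
      linarith
    linarith
  obtain ⟨i, hi, hpos⟩ := hex
  obtain ⟨q, hq, hqp⟩ := cw_pos_meets (F.el y u m) i (0, 0) (by norm_num : (0:ℝ) ≤ 1 / 8) hpos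
  have hbp := b_pos733 F i _ _ hi
  have hnb := not_bad_iff733 F i _ _ hi
  have hb0 : F.b i ≠ 0 := abs_pos.mp hbp
  obtain ⟨r, hr⟩ : ∃ r, F.a i = r * F.b i := ⟨F.a i / F.b i, by field_simp⟩
  have hr' : |r + u'| ≤ lam m / 1000 := by
    have : |F.a i + F.b i * u'| = |r + u'| * |F.b i| := by
      rw [hr, ← abs_mul]; congr 1; ring
    rw [this] at hnb
    exact le_of_mul_le_mul_right hnb hbp
  simp only [dsk, mem_setOf_eq, sub_zero] at hq
  have hq1 : |q.1| ≤ 1 / 8 := by
    apply abs_le_of_sq_le_sq _ (by norm_num)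
    nlinarith [sq_nonneg q.2]
  have hq2 : |q.2| ≤ 1 / 8 := by
    apply abs_le_of_sq_le_sq _ (by norm_num)
    nlinarith [sq_nonneg q.1]
  simp only [Fam.pl, Fam.el, Fam.pull, elAff, mem_setOf_eq] at hqp
  refine ⟨y + u * (2 + q.1) + lam m * q.2 + r * (2 + q.1), ?_, i, ?_⟩
  · have e1 : y + u * (2 + q.1) + lam m * q.2 + r * (2 + q.1) - y =
        (2 + q.1) * ((r + u') - (u' - u)) + lam m * q.2 := by ring
    rw [e1]
    have hA : |(r + u') - (u' - u)| ≤ lam m / 1000 + lam m / 250 :=
      (abs_sub _ _).trans (add_le_add hr' hu)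
    have hB : |2 + q.1| ≤ 17 / 8 := by
      rw [abs_le] at hq1 ⊢
      constructor <;> linarith [hq1.1, hq1.2]
    have hC : |lam m * q.2| ≤ lam m * (1 / 8) := by
      rw [abs_mul, abs_of_pos hlam]
      exact mul_le_mul_of_nonneg_left hq2 hlam.le
    have hD : |(2 + q.1) * ((r + u') - (u' - u))| ≤ (17 / 8) * (lam m / 1000 + lam m / 250) := by
      rw [abs_mul]
      exact mul_le_mul hB hA (abs_nonneg _) (by norm_num)
    calc |(2 + q.1) * ((r + u') - (u' - u)) + lam m * q.2|
        ≤ |(2 + q.1) * ((r + u') - (u' - u))| + |lam m * q.2| := abs_add_le _ _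
      _ ≤ lam m / 4 := by nlinarith
  · simp only [Fam.pl, mem_setOf_eq]
    have e2 : F.a i * 0 + F.b i * (y + u * (2 + q.1) + lam m * q.2 + r * (2 + q.1)) - F.c i =
        (F.a i * 1 + F.b i * u) * q.1 + (F.a i * 0 + F.b i * (1 / 2) ^ m) * q.2 -
          (F.c i - F.a i * 2 - F.b i * (y + 2 * u)) := by
      unfold lam
      rw [hr]; ring
    rw [e2]
    exact hqp

theorem nm_el733 (F : Fam n) (y u : ℝ) (m : ℕ) (i : Fin n) :
    (F.el y u m).nm i = √((F.a i + F.b i * u) ^ 2 + (F.b i * lam m) ^ 2) := by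
  unfold Fam.nm Fam.el Fam.pull elAff lam
  simp

theorem good_compare (F : Fam n) (y y' u u' : ℝ) (m : ℕ) (v v' : ℝ)
    (hg : Good F y u m v) (hg' : Good F y' u' m v')
    (hcov : dsk (0, 0) 1 ⊆ (F.el y u m).cov)
    (hy : |y - y'| ≤ lam m / 8) (hu : |u - u'| ≤ lam m / 100) :
    |v - v'| ≤ lam m / 500 := by
  have hlam := lam_pos733 m
  obtain ⟨hv, hsum⟩ := hg
  obtain ⟨hv', hsum'⟩ := hg'
  have hsub : dsk (0, 0) (1 / 8) ⊆ (F.el y u m).cov := by
    refine Set.Subset.trans ?_ hcov
    intro q hq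
    simp only [dsk, mem_setOf_eq] at hq ⊢
    nlinarith
  have hb := bang_sum (F.el y u m) (by norm_num : (0:ℝ) < 1 / 8) (0, 0) hsub
  have hS1 : ∑ i ∈ F.bad v (lam m / 1000), (F.el y u m).cw i (0, 0) (1 / 8) ≤ 1 / 20 := by
    refine le_trans (Finset.sum_le_sum ?_) hsum
    intro i _
    exact cw_mono _ i _ (by norm_num)
  obtain ⟨i, hi1, hi2, -⟩ := link (fun i => (F.el y u m).cw i (0, 0) (1 / 8))
    (fun i => (F.el y' u' m).cw i (0, 0) (1 / 2)) (F.bad v (lam m / 1000)) (F.bad v' (lam m / 1000))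
    (1 / 8) 2 (1 / 20) (1 / 20) (by norm_num) (fun i => cw_nonneg _ i _ _)
    (fun i => cw_nonneg _ i _ _) hb hS1 hsum' (by
      intro i hi
      have hbp := b_pos733 F i _ _ hi
      have hnb := not_bad_iff733 F i _ _ hi
      have hbl : 0 < |F.b i| * lam m := mul_pos hbp hlam
      have hau : |F.a i + F.b i * u| ≤ |F.b i| * lam m * (1 / 200) := by
        have e : F.a i + F.b i * u = (F.a i + F.b i * v) - F.b i * (v - u) := by ring
        rw [e]
        have h1 : |F.b i * (v - u)| ≤ |F.b i| * (lam m / 250) := by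
          rw [abs_mul]
          exact mul_le_mul_of_nonneg_left hv (abs_nonneg _)
        calc |(F.a i + F.b i * v) - F.b i * (v - u)| ≤ |F.a i + F.b i * v| + |F.b i * (v - u)| := abs_sub _ _
          _ ≤ lam m / 1000 * |F.b i| + |F.b i| * (lam m / 250) := add_le_add hnb h1
          _ = |F.b i| * lam m * (1 / 200) := by ring
      have hau' : |F.a i + F.b i * u'| ≤ |F.b i| * lam m * (3 / 200) := by
        have e : F.a i + F.b i * u' = (F.a i + F.b i * u) - F.b i * (u - u') := by ring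
        rw [e]
        have h1 : |F.b i * (u - u')| ≤ |F.b i| * (lam m / 100) := by
          rw [abs_mul]
          exact mul_le_mul_of_nonneg_left hu (abs_nonneg _)
        calc |(F.a i + F.b i * u) - F.b i * (u - u')| ≤ |F.a i + F.b i * u| + |F.b i * (u - u')| := abs_sub _ _
          _ ≤ |F.b i| * lam m * (1 / 200) + |F.b i| * (lam m / 100) := add_le_add hau h1
          _ = |F.b i| * lam m * (3 / 200) := by ring
      have hblsq : (F.b i * lam m) ^ 2 = (|F.b i| * lam m) ^ 2 := by
        rw [mul_pow, mul_pow, sq_abs]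
      have hn1 : (F.el y u m).nm i ≤ |F.b i| * lam m * (11 / 10) := by
        rw [nm_el733, hblsq]
        apply Real.sqrt_le_iff.mpr
        refine ⟨by positivity, ?_⟩
        have := sq_le_sq' (by linarith [neg_abs_le (F.a i + F.b i * u)]) ((le_abs_self _).trans hau)
        nlinarith [sq_nonneg (|F.b i| * lam m)]
      have hn2 : (F.el y' u' m).nm i ≤ |F.b i| * lam m * (11 / 10) := by
        rw [nm_el733, hblsq]
        apply Real.sqrt_le_iff.mpr
        refine ⟨by positivity, ?_⟩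
        have := sq_le_sq' (by linarith [neg_abs_le (F.a i + F.b i * u')]) ((le_abs_self _).trans hau')
        nlinarith [sq_nonneg (|F.b i| * lam m)]
      have hn1' : |F.b i| * lam m ≤ (F.el y u m).nm i := by
        rw [nm_el733, hblsq]
        apply Real.le_sqrt_of_sq_le
        nlinarith [sq_nonneg (F.a i + F.b i * u)]
      have hn2' : |F.b i| * lam m ≤ (F.el y' u' m).nm i := by
        rw [nm_el733, hblsq]
        apply Real.le_sqrt_of_sq_le
        nlinarith [sq_nonneg (F.a i + F.b i * u')]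
      have hcmp := cw_cmp (F.el y u m) (F.el y' u' m) i (0, 0) (0, 0) (1 / 8) (1 / 2) rfl (by
        have e : ((F.el y u m).c i - (F.el y u m).a i * ((0:ℝ), (0:ℝ)).1 - (F.el y u m).b i * ((0:ℝ), (0:ℝ)).2) -
            ((F.el y' u' m).c i - (F.el y' u' m).a i * ((0:ℝ), (0:ℝ)).1 - (F.el y' u' m).b i * ((0:ℝ), (0:ℝ)).2)
            = F.b i * (-((y - y') + 2 * (u - u'))) := by
          simp only [Fam.el, Fam.pull, elAff]
          ring
        rw [e, abs_mul, abs_neg]
        have h1 : |(y - y') + 2 * (u - u')| ≤ lam m / 8 + 2 * (lam m / 100) := by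
          refine (abs_add_le _ _).trans (add_le_add hy ?_)
          rw [abs_mul, abs_of_pos (by norm_num : (0:ℝ) < 2)]
          linarith
        have h2 := mul_le_mul_of_nonneg_left h1 (abs_nonneg (F.b i))
        nlinarith)
      have hw1 := cw_nonneg (F.el y u m) i (0, 0) (1 / 8)
      have hw2 := cw_nonneg (F.el y' u' m) i (0, 0) (1 / 2)
      show (F.el y u m).cw i (0, 0) (1 / 8) ≤ 2 * (F.el y' u' m).cw i (0, 0) (1 / 2)
      have h3 : (F.el y u m).cw i (0, 0) (1 / 8) * (|F.b i| * lam m) ≤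
          (2 * (F.el y' u' m).cw i (0, 0) (1 / 2)) * (|F.b i| * lam m) := by
        have h4 : (F.el y u m).cw i (0, 0) (1 / 8) * (|F.b i| * lam m) ≤
          (F.el y u m).cw i (0, 0) (1 / 8) * (F.el y u m).nm i := mul_le_mul_of_nonneg_left hn1' hw1
        have h5 : (F.el y' u' m).cw i (0, 0) (1 / 2) * (F.el y' u' m).nm i ≤
          (F.el y' u' m).cw i (0, 0) (1 / 2) * (|F.b i| * lam m * (11 / 10)) :=
            mul_le_mul_of_nonneg_left hn2 hw2
        nlinarith [mul_nonneg hw2 hbl.le]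
      exact le_of_mul_le_mul_right h3 hbl) (by norm_num)
  have hbp := b_pos733 F i _ _ hi1
  have h1 := not_bad_iff733 F i _ _ hi1
  have h2 := not_bad_iff733 F i _ _ hi2
  have h3 : |v - v'| * |F.b i| ≤ lam m / 500 * |F.b i| := by
    have e : |v - v'| * |F.b i| = |(F.a i + F.b i * v) - (F.a i + F.b i * v')| := by
      rw [← abs_mul]; congr 1; ring
    rw [e]
    calc |(F.a i + F.b i * v) - (F.a i + F.b i * v')| ≤ |F.a i + F.b i * v| + |F.a i + F.b i * v'| := abs_sub _ _
      _ ≤ lam m / 1000 * |F.b i| + lam m / 1000 * |F.b i| := add_le_add h1 h2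
      _ = lam m / 500 * |F.b i| := by ring
  exact le_of_mul_le_mul_right h3 hbp

end K3

alias good_gap := K3.good_gap

alias good_compare := K3.good_compare

end Pool.Agent.Helper934.Ann
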