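import Mathlib
import Pool.Agent.Helper934.AnnGODefs
import Pool.Agent.Helper934.AnnChain
import Pool.Agent.Helper934.AnnJ3
import Pool.Agent.Helper934.AnnK3
import Pool.Agent.Helper934.AnnK4a

open MeasureTheory Set
open scoped ENNReal

namespace Pool.Agent.Helper934.Ann

variable {n : ℕ}

namespace K4b

theorem lam_pos (m : ℕ) : 0 < lam m := by unfold lam; positivity

theorem lam_succ (m : ℕ) : lam (m + 1) = lam m / 2 := by
  unfold lam; rw [pow_succ]; ring

theorem lam_anti {a b : ℕ} (h : a ≤ b) : lam b ≤ lam a := by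
  unfold lam
  exact pow_le_pow_of_le_one (by norm_num) (by norm_num) h

theorem chain_tail (F : Fam n) (y : ℝ) (M : ℕ) (U : ℕ → ℝ) (h : Chain F y M U) (j : ℕ) :
    ∀ k, j + k ≤ M → |U (j + k) - U j| ≤ 2 * (lam j - lam (j + k)) / 250 := by
  intro k
  induction k with
  | zero => intro _; simp
  | succ k ih =>
    intro hk
    have h1 := ih (by omega)
    have h2 := (h.2 (j + k) (by omega)).1
    have h3 := lam_succ (j + k)
    have h4 : U (j + (k + 1)) - U j = (U (j + k + 1) - U (j + k)) + (U (j + k) - U j) := by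
      rw [← add_assoc]; ring
    have h5 : lam (j + (k + 1)) = lam (j + k) / 2 := by rw [← add_assoc]; exact h3
    rw [h4, h5]
    calc |(U (j + k + 1) - U (j + k)) + (U (j + k) - U j)|
        ≤ |U (j + k + 1) - U (j + k)| + |U (j + k) - U j| := abs_add_le _ _
      _ ≤ lam (j + k) / 250 + 2 * (lam j - lam (j + k)) / 250 := add_le_add h2 h1
      _ = 2 * (lam j - lam (j + k) / 2) / 250 := by ring

theorem chain_tail' (F : Fam n) (y : ℝ) (M : ℕ) (U : ℕ → ℝ) (h : Chain F y M U) (j : ℕ)
    (hj : j ≤ M) : |U M - U j| ≤ 2 * lam j / 250 := by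
  obtain ⟨k, rfl⟩ := Nat.exists_eq_add_of_le hj
  have h1 := chain_tail F y (j + k) U h j k le_rfl
  have h2 := lam_pos (j + k)
  refine h1.trans ?_
  linarith

theorem chain_disjoint (F : Fam n) (hQ : QQ ⊆ F.cov) (y y' : ℝ) (hy : |y| ≤ 1 / 4)
    (hy' : |y'| ≤ 1 / 4) (M M' : ℕ) (U U' : ℕ → ℝ) (h : Chain F y M U) (h' : Chain F y' M' U')
    (hsep : 4 * (lam M + lam M') ≤ |y - y'|) :
    Disjoint ((elAff y (U M) M).map '' dsk (0, 0) 1) ((elAff y' (U' M') M').map '' dsk (0, 0) 1) := by
  have hlM := lam_pos M
  have hlM' := lam_pos M'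
  have hkey : |U M - U' M'| ≤ 0.16 * |y - y'| := by
    have hb := chain_bound F y M U h
    have hb' := chain_bound F y' M' U' h'
    by_cases hc : 1 < 8 * |y - y'|
    · have e1 := hb M le_rfl
      have e2 := hb' M' le_rfl
      calc |U M - U' M'| ≤ |U M| + |U' M'| := abs_sub _ _
        _ ≤ 1 / 125 + 1 / 125 := add_le_add e1 e2
        _ ≤ 0.16 * |y - y'| := by linarith
    · push Not at hc

      have hex : ∃ j, lam (j + 1) < 8 * |y - y'| :=
        ⟨M, lt_of_le_of_lt (lam_anti (Nat.le_succ M)) (by linarith)⟩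
      classical
      let j := Nat.find hex
      have hj1 : lam (j + 1) < 8 * |y - y'| := Nat.find_spec hex
      have hj0 : 8 * |y - y'| ≤ lam j := by
        rcases Nat.eq_zero_or_pos j with h0 | h0
        · rw [h0]; unfold lam; simpa using hc
        · have := Nat.find_min hex (m := j - 1) (by omega)
          push Not at this
          rwa [Nat.sub_add_cancel h0] at this
      have hjM : j < M := by
        by_contra hcon
        push Not at hcon
        have := lam_anti hcon
        linarith
      have hjM' : j < M' := by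
        by_contra hcon
        push Not at hcon
        have := lam_anti hcon
        linarith
      have hind : ∀ i, i ≤ j + 1 → |U i - U' i| ≤ lam i / 250 := by
        intro i
        induction i with
        | zero =>
          intro _
          rw [h.1, h'.1]
          have := lam_pos 0
          simp only [sub_self, abs_zero]
          positivity
        | succ i ih =>
          intro hi
          have h1 := ih (by omega)
          have hg := h.2 i (by omega)
          have hg' := h'.2 i (by omega)
          have hcov : dsk (0, 0) 1 ⊆ (F.el y (U i) i).cov := by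
            intro p hp
            rw [Fam.el, pull_cov]
            exact hQ (el_subset_QQ y (U i) i hy (hb i (by omega)) ⟨p, hp, rfl⟩)
          have hl := lam_pos i
          have hli : lam j ≤ lam i := lam_anti (by omega)
          have h2 := good_compare F y y' (U i) (U' i) i (U (i + 1)) (U' (i + 1)) hg hg' hcov
            (by linarith) (by linarith)
          rw [lam_succ]
          linarith
      have e1 := hind (j + 1) le_rfl
      have e2 := chain_tail' F y M U h (j + 1) hjM
      have e3 := chain_tail' F y' M' U' h' (j + 1) hjM'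
      have e4 : U M - U' M' = (U M - U (j + 1)) + (U (j + 1) - U' (j + 1)) - (U' M' - U' (j + 1)) := by
        ring
      rw [e4]
      calc |(U M - U (j + 1)) + (U (j + 1) - U' (j + 1)) - (U' M' - U' (j + 1))|
          ≤ |(U M - U (j + 1)) + (U (j + 1) - U' (j + 1))| + |U' M' - U' (j + 1)| := abs_sub _ _
        _ ≤ |U M - U (j + 1)| + |U (j + 1) - U' (j + 1)| + |U' M' - U' (j + 1)| := by
            gcongr; exact abs_add_le _ _
        _ ≤ 2 * lam (j + 1) / 250 + lam (j + 1) / 250 + 2 * lam (j + 1) / 250 := by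
            gcongr
        _ ≤ 0.16 * |y - y'| := by linarith
  rw [Set.disjoint_left]
  rintro q ⟨p, hp, hpq⟩ ⟨p', hp', hpq'⟩
  have hq1 : (elAff y (U M) M).map p = (elAff y' (U' M') M').map p' := by rw [hpq, hpq']
  simp only [Aff.map, elAff, Prod.mk.injEq] at hq1
  obtain ⟨e1, e2⟩ := hq1
  simp only [dsk, Set.mem_setOf_eq, sub_zero, one_pow] at hp hp'
  have hp1 : |p.1| ≤ 1 := abs_le.mpr ⟨by nlinarith [sq_nonneg p.2], by nlinarith [sq_nonneg p.2]⟩
  have hp2 : |p.2| ≤ 1 := abs_le.mpr ⟨by nlinarith [sq_nonneg p.1], by nlinarith [sq_nonneg p.1]⟩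
  have hp2' : |p'.2| ≤ 1 := abs_le.mpr ⟨by nlinarith [sq_nonneg p'.1], by nlinarith [sq_nonneg p'.1]⟩
  have e3 : p.1 = p'.1 := by linarith
  have e4 : y - y' = (2 + p.1) * (U' M' - U M) + lam M' * p'.2 - lam M * p.2 := by
    unfold lam
    rw [← e3] at e2
    linear_combination e2
  have ha : |y - y'| ≤ 3 * (0.16 * |y - y'|) + lam M' + lam M := by
    have h2p : |2 + p.1| ≤ 3 := by
      rw [abs_le] at hp1 ⊢
      constructor <;> linarith [hp1.1, hp1.2]
    calc |y - y'| = |(2 + p.1) * (U' M' - U M) + lam M' * p'.2 - lam M * p.2| := by rw [← e4]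
      _ ≤ |(2 + p.1) * (U' M' - U M) + lam M' * p'.2| + |lam M * p.2| := abs_sub _ _
      _ ≤ |(2 + p.1) * (U' M' - U M)| + |lam M' * p'.2| + |lam M * p.2| := by
          gcongr; exact abs_add_le _ _
      _ = |2 + p.1| * |U M - U' M'| + lam M' * |p'.2| + lam M * |p.2| := by
          rw [abs_mul, abs_mul, abs_mul, abs_of_pos hlM, abs_of_pos hlM', abs_sub_comm (U' M')]
      _ ≤ 3 * (0.16 * |y - y'|) + lam M' * 1 + lam M * 1 := by
          gcongr
      _ = _ := by ring
  nlinarith

end K4b

alias chain_disjoint := K4b.chain_disjoint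

end Pool.Agent.Helper934.Ann
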