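import Mathlib
import Pool.Agent.Helper934.AnnGODefs
import Pool.Agent.Helper934.AnnJ3
import Pool.Agent.Helper934.AnnK1

open MeasureTheory Set
open scoped ENNReal

namespace Pool.Agent.Helper934.Ann

variable {n : ℕ}

namespace K2

theorem el_a (F : Fam n) (y u : ℝ) (m : ℕ) (i : Fin n) : (F.el y u m).a i = F.a i + F.b i * u := by
  show F.a i * 1 + F.b i * u = _
  ring

theorem el_b (F : Fam n) (y u : ℝ) (m : ℕ) (i : Fin n) : (F.el y u m).b i = F.b i * lam m := by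
  show F.a i * 0 + F.b i * (1 / 2) ^ m = _
  unfold lam
  ring

theorem el_c (F : Fam n) (y u : ℝ) (m : ℕ) (i : Fin n) :
    (F.el y u m).c i = F.c i - F.a i * 2 - F.b i * (y + 2 * u) := rfl

theorem el_d (F : Fam n) (y u : ℝ) (m : ℕ) (i : Fin n) : (F.el y u m).d i = F.d i := rfl

theorem lam_pos (m : ℕ) : 0 < lam m := by unfold lam; positivity

theorem lam_succ (m : ℕ) : lam (m + 1) = lam m / 2 := by unfold lam; rw [pow_succ]; ring

theorem nm_sq (F : Fam n) (i : Fin n) : F.nm i ^ 2 = F.a i ^ 2 + F.b i ^ 2 := by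
  unfold Fam.nm
  exact Real.sq_sqrt (F.nz i).le

theorem abs_b_le (F : Fam n) (i : Fin n) : |F.b i| ≤ F.nm i := by
  apply abs_le_of_sq_le_sq
  · rw [nm_sq]; nlinarith [sq_nonneg (F.a i)]
  · exact (nm_pos F i).le

theorem nm_le_of (F G : Fam n) (i : Fin n) (C : ℝ) (hC : 0 ≤ C)
    (h : F.a i ^ 2 + F.b i ^ 2 ≤ C ^ 2 * (G.a i ^ 2 + G.b i ^ 2)) : F.nm i ≤ C * G.nm i := by
  have h1 := nm_pos F i
  have h2 := nm_pos G i
  have : F.nm i ^ 2 ≤ (C * G.nm i) ^ 2 := by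
    rw [mul_pow, nm_sq, nm_sq]; exact h
  exact (pow_le_pow_iff_left₀ h1.le (by positivity) two_ne_zero).1 this

theorem bad_el (F : Fam n) (y u' : ℝ) (m : ℕ) (z : ℝ) :
    F.bad (u' + z * lam m) (lam m / 1000) = (F.el y u' m).bad z (1 / 1000) := by
  classical
  unfold Fam.bad
  ext i
  simp only [Finset.mem_filter, Finset.mem_univ, true_and]
  rw [el_a, el_b, abs_mul, abs_of_pos (lam_pos m)]
  have e1 : F.a i + F.b i * (u' + z * lam m) = F.a i + F.b i * u' + F.b i * lam m * z := by ring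
  rw [e1]
  have e2 : lam m / 1000 * |F.b i| = 1 / 1000 * (|F.b i| * lam m) := by ring
  rw [e2]

theorem good_step (F : Fam n) (y u : ℝ) (m : ℕ) (u' : ℝ) (hg : Good F y u m u')
    (hcov : dsk (0, 0) 1 ⊆ (F.el y u' (m + 1)).cov)
    (hov : ∫⁻ p in dsk (0, 0) 1, (F.el y u' (m + 1)).ov p ≤ ENNReal.ofReal kap) :
    ∃ u'', Good F y u' (m + 1) u'' := by
  obtain ⟨hu, hbad⟩ := hg
  set G := F.el y u' (m + 1) with hG
  set E := F.el y u m with hE
  obtain ⟨e, he, hfar⟩ := far_of_coh G hcov hov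

  have hGa : ∀ i, G.a i = E.a i + F.b i * (u' - u) := by
    intro i; rw [hG, hE, el_a, el_a]; ring
  have hGb : ∀ i, G.b i = E.b i / 2 := by
    intro i; rw [hG, hE, el_b, el_b, lam_succ]; ring
  have hEb : ∀ i, |E.b i| = |F.b i| * lam m := by
    intro i; rw [hE, el_b, abs_mul, abs_of_pos (lam_pos m)]
  have hdel : ∀ i, |F.b i * (u' - u)| ≤ |E.b i| / 250 := by
    intro i
    rw [abs_mul, hEb]
    have := mul_le_mul_of_nonneg_left hu (abs_nonneg (F.b i))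
    linarith
  have hnm1 : ∀ i, G.nm i ≤ 1.1 * E.nm i := by
    intro i
    apply nm_le_of _ _ _ _ (by norm_num)
    rw [hGa, hGb]
    have h1 := hdel i
    set δ := F.b i * (u' - u)
    have h2 : δ ^ 2 ≤ (E.b i) ^ 2 / 62500 := by
      have := sq_abs δ
      have h3 := sq_abs (E.b i)
      nlinarith [abs_nonneg δ, abs_nonneg (E.b i)]
    have h3 : 2 * E.a i * δ ≤ (E.a i)^2 / 100 + 100 * δ ^ 2 := by
      nlinarith [sq_nonneg (E.a i / 10 - 10 * δ)]
    nlinarith [sq_nonneg (E.a i), sq_nonneg (E.b i)]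
  have hnm2 : ∀ i, E.nm i ≤ 3.1 * G.nm i := by
    intro i
    apply nm_le_of _ _ _ _ (by norm_num)
    rw [hGa, hGb]
    have h1 := hdel i
    set δ := F.b i * (u' - u)
    have h2 : δ ^ 2 ≤ (E.b i) ^ 2 / 62500 := by
      have := sq_abs δ
      have h3 := sq_abs (E.b i)
      nlinarith [abs_nonneg δ, abs_nonneg (E.b i)]
    have h3 : -(2 * E.a i * δ) ≤ (E.a i)^2 / 2 + 2 * δ ^ 2 := by
      nlinarith [sq_nonneg (E.a i + 2 * δ)]
    nlinarith [sq_nonneg (E.a i), sq_nonneg (E.b i)]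
  have hcmp : ∀ i, G.cw i (0, 0) (1 / 8) ≤ 3.1 * E.cw i (0, 0) (1 / 2) := by
    intro i
    have h1 : |(G.c i - G.a i * ((0:ℝ), (0:ℝ)).1 - G.b i * ((0:ℝ), (0:ℝ)).2) -
        (E.c i - E.a i * ((0:ℝ), (0:ℝ)).1 - E.b i * ((0:ℝ), (0:ℝ)).2)| +
        1 / 8 * G.nm i ≤ 1 / 2 * E.nm i := by
      have h2 : (G.c i - G.a i * ((0:ℝ), (0:ℝ)).1 - G.b i * ((0:ℝ), (0:ℝ)).2) -
        (E.c i - E.a i * ((0:ℝ), (0:ℝ)).1 - E.b i * ((0:ℝ), (0:ℝ)).2) = -(2 * (F.b i * (u' - u))) := by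
        rw [hG, hE, el_c, el_c]
        simp only [mul_zero, sub_zero]
        ring
      rw [h2, abs_neg, abs_mul, abs_of_pos (show (0:ℝ) < 2 by norm_num)]
      have h3 := hdel i
      have h4 := abs_b_le E i
      have h5 := hnm1 i
      have h6 := nm_pos E i
      linarith
    have h7 := cw_cmp G E i (0, 0) (0, 0) (1 / 8) (1 / 2) rfl h1
    have h8 := hnm2 i
    have h9 := cw_nonneg E i (0, 0) (1 / 2)
    have h10 := nm_pos G i
    have h11 : G.cw i (0, 0) (1 / 8) * G.nm i ≤ (3.1 * E.cw i (0, 0) (1 / 2)) * G.nm i := by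
      calc G.cw i (0, 0) (1 / 8) * G.nm i ≤ E.cw i (0, 0) (1 / 2) * E.nm i := h7
        _ ≤ E.cw i (0, 0) (1 / 2) * (3.1 * G.nm i) := mul_le_mul_of_nonneg_left h8 h9
        _ = (3.1 * E.cw i (0, 0) (1 / 2)) * G.nm i := by ring
    exact le_of_mul_le_mul_right h11 h10
  obtain ⟨i0, hi1, hi2, hi3⟩ := link (fun i => G.cw i (0, 0) (1 / 8)) (fun i => G.cw i (0, 0) (1 / 2))
    (F.bad u' (lam m / 1000)) (G.far e) (1 / 8) 1 (3.1 / 20) (1 / 20) (by norm_num)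
    (fun i => cw_nonneg _ _ _ _) (fun i => cw_nonneg _ _ _ _)
    (bang_sum G (by norm_num) (0, 0) (fun p hp => hcov (by
      simp only [dsk, mem_ofPred_eq] at hp ⊢
      linarith)))
    (by
      calc ∑ i ∈ F.bad u' (lam m / 1000), G.cw i (0, 0) (1 / 8)
          ≤ ∑ i ∈ F.bad u' (lam m / 1000), 3.1 * E.cw i (0, 0) (1 / 2) :=
            Finset.sum_le_sum (fun i _ => hcmp i)
        _ = 3.1 * ∑ i ∈ F.bad u' (lam m / 1000), E.cw i (0, 0) (1 / 2) := by rw [Finset.mul_sum]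
        _ ≤ 3.1 * (1 / 20) := by
            apply mul_le_mul_of_nonneg_left hbad (by norm_num)
        _ = 3.1 / 20 := by ring)
    hfar
    (fun i _ => by
      show G.cw i (0, 0) (1 / 8) ≤ 1 * G.cw i (0, 0) (1 / 2)
      rw [one_mul]
      exact cw_mono _ _ _ (by norm_num))
    (by norm_num)
  have hdir : |G.a i0| ≤ 1 / 500 * |G.b i0| := by
    unfold Fam.bad at hi1
    simp only [Finset.mem_filter, Finset.mem_univ, true_and, not_lt] at hi1
    rw [hG, el_a, el_b, abs_mul, abs_of_pos (lam_pos (m+1)), lam_succ]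
    calc |F.a i0 + F.b i0 * u'| ≤ lam m / 1000 * |F.b i0| := hi1
      _ = 1 / 500 * (|F.b i0| * (lam m / 2)) := by ring
  obtain ⟨z, hz, hzs⟩ := slope_of_dir G e he hfar i0 hdir hi2
  refine ⟨u' + z * lam (m + 1), ?_, ?_⟩
  · have e1 : u' + z * lam (m + 1) - u' = z * lam (m + 1) := by ring
    rw [e1, abs_mul, abs_of_pos (lam_pos (m + 1))]
    have := mul_le_mul_of_nonneg_right hz (lam_pos (m+1)).le
    linarith
  · rw [bad_el F y u' (m + 1) z]
    exact hzs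

theorem good_base (F : Fam n) (y : ℝ) (hy : |y| ≤ 1 / 4)
    (hcov : dsk (0, 0) 1 ⊆ (F.el y 0 0).cov)
    (hov : ∫⁻ p in dsk (0, 0) 1, (F.el y 0 0).ov p ≤ ENNReal.ofReal kap)
    (hdir : ∑ i ∈ F.bad 0 (1 / 500), F.cw i (2, 0) (1 / 8) ≤ 1 / 16) :
    ∃ u', Good F y 0 0 u' := by
  have hlam : lam 0 = 1 := by unfold lam; norm_num
  have hcovF : dsk (2, 0) (1 / 8) ⊆ F.cov := by
    intro q hq
    have h1 : ((q.1 - 2, q.2 - y) : ℝ × ℝ) ∈ (F.el y 0 0).cov := by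
      apply hcov
      simp only [dsk, mem_ofPred_eq] at hq ⊢
      have h2 : (q.2 - 0) ^ 2 ≤ (1 / 8) ^ 2 := by nlinarith [sq_nonneg (q.1 - 2)]
      have h3 : |q.2 - 0| ≤ 1 / 8 := abs_le_of_sq_le_sq h2 (by norm_num)
      have h4 := abs_le.1 h3
      have h5 := abs_le.1 hy
      nlinarith
    unfold Fam.el at h1
    rw [pull_cov] at h1
    have h2 : (elAff y 0 0).map (q.1 - 2, q.2 - y) = q := by
      simp only [elAff, Aff.map]
      ext <;> simp
    rwa [h2] at h1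
  set G := F.el y 0 0 with hG
  obtain ⟨e, he, hfar⟩ := far_of_coh G hcov hov
  have hGa : ∀ i, G.a i = F.a i := by intro i; rw [hG, el_a]; ring
  have hGb : ∀ i, G.b i = F.b i := by intro i; rw [hG, el_b, hlam]; ring
  have hnm : ∀ i, G.nm i = F.nm i := by intro i; unfold Fam.nm; rw [hGa, hGb]
  have hcmp : ∀ i, F.cw i (2, 0) (1 / 8) ≤ G.cw i (0, 0) (1 / 2) := by
    intro i
    have h1 : |(F.c i - F.a i * ((2:ℝ), (0:ℝ)).1 - F.b i * ((2:ℝ), (0:ℝ)).2) -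
        (G.c i - G.a i * ((0:ℝ), (0:ℝ)).1 - G.b i * ((0:ℝ), (0:ℝ)).2)| +
        1 / 8 * F.nm i ≤ 1 / 2 * G.nm i := by
      have h2 : (F.c i - F.a i * ((2:ℝ), (0:ℝ)).1 - F.b i * ((2:ℝ), (0:ℝ)).2) -
        (G.c i - G.a i * ((0:ℝ), (0:ℝ)).1 - G.b i * ((0:ℝ), (0:ℝ)).2) = F.b i * y := by
        rw [hG, el_c]
        simp only [mul_zero, sub_zero]
        ring
      rw [h2, hnm, abs_mul]
      have h4 := abs_b_le F i
      have h6 := nm_pos F i
      have h7 : |F.b i| * |y| ≤ F.nm i * (1 / 4) := mul_le_mul h4 hy (abs_nonneg _) h6.le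
      linarith
    have h7 := cw_cmp F G i (2, 0) (0, 0) (1 / 8) (1 / 2) rfl h1
    rw [hnm] at h7
    exact le_of_mul_le_mul_right h7 (nm_pos F i)
  obtain ⟨i0, hi1, hi2, hi3⟩ := link (fun i => F.cw i (2, 0) (1 / 8)) (fun i => G.cw i (0, 0) (1 / 2))
    (F.bad 0 (1 / 500)) (G.far e) (1 / 8) 1 (1 / 16) (1 / 20) (by norm_num)
    (fun i => cw_nonneg _ _ _ _) (fun i => cw_nonneg _ _ _ _)
    (bang_sum F (by norm_num) (2, 0) hcovF) hdir hfar
    (fun i _ => by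
      show F.cw i (2, 0) (1 / 8) ≤ 1 * G.cw i (0, 0) (1 / 2)
      rw [one_mul]
      exact hcmp i)
    (by norm_num)
  have hd : |G.a i0| ≤ 1 / 500 * |G.b i0| := by
    unfold Fam.bad at hi1
    simp only [Finset.mem_filter, Finset.mem_univ, true_and, not_lt, mul_zero, add_zero] at hi1
    rw [hGa, hGb]
    exact hi1
  obtain ⟨z, hz, hzs⟩ := slope_of_dir G e he hfar i0 hd hi2
  refine ⟨z, ?_, ?_⟩
  · rw [hlam, sub_zero]; exact hz
  · have h1 := bad_el F y 0 0 z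
    rw [hlam] at h1 ⊢
    rw [zero_add, mul_one] at h1
    rw [h1]
    exact hzs

end K2

alias good_step := K2.good_step

alias good_base := K2.good_base

end Pool.Agent.Helper934.Ann
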