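import Mathlib
import Pool.Agent.Helper934.AnnGODefs
import Pool.Agent.Helper934.AnnChain
import Pool.Agent.Helper934.AnnJ3
import Pool.Agent.Helper934.AnnK2
import Pool.Agent.Helper934.AnnK3
import Pool.Agent.Helper934.AnnK4a

open MeasureTheory Set
open scoped ENNReal

namespace Pool.Agent.Helper934.Ann

variable {n : ℕ}

namespace K5

theorem dsk_meas (p : ℝ × ℝ) (R : ℝ) : MeasurableSet (dsk p R) := by
  apply IsClosed.measurableSet
  unfold dsk
  exact isClosed_le (by fun_prop) continuous_const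

theorem lam_pos (m : ℕ) : 0 < lam m := by unfold lam; positivity

theorem chart_cov (F : Fam n) (hQ : QQ ⊆ F.cov) (y u : ℝ) (m : ℕ) (hy : |y| ≤ 1 / 4)
    (hu : |u| ≤ 1 / 125) : dsk (0, 0) 1 ⊆ (F.el y u m).cov := by
  intro p hp
  unfold Fam.el
  rw [pull_cov]
  exact hQ (el_subset_QQ y u m hy hu ⟨p, hp, rfl⟩)

theorem chart_ov (F : Fam n) (y u : ℝ) (m : ℕ)
    (h : ∫⁻ p in (elAff y u m).map '' dsk (0, 0) 1, F.ov p ≤ ENNReal.ofReal (kap * lam m)) :
    ∫⁻ p in dsk (0, 0) 1, (F.el y u m).ov p ≤ ENNReal.ofReal kap := by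
  have h1 : ∫⁻ p in dsk (0, 0) 1, (F.el y u m).ov p =
      ∫⁻ p in dsk (0, 0) 1, F.ov ((elAff y u m).map p) := by
    apply lintegral_congr
    intro p
    exact pull_ov F _ p
  have hdet : (elAff y u m).det = lam m := by
    unfold Aff.det elAff lam
    simp
  rw [h1, lintegral_map _ _ (measurable_ov F) _ (dsk_meas _ _), hdet,
    abs_of_pos (lam_pos m)]
  calc ENNReal.ofReal (lam m)⁻¹ * ∫⁻ q in (elAff y u m).map '' dsk (0, 0) 1, F.ov q
      ≤ ENNReal.ofReal (lam m)⁻¹ * ENNReal.ofReal (kap * lam m) := by gcongr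
    _ = ENNReal.ofReal kap := by
      rw [← ENNReal.ofReal_mul (by have := lam_pos m; positivity)]
      congr 1
      have := (lam_pos m).ne'
      field_simp

theorem exists_stop (F : Fam n) (hQ : QQ ⊆ F.cov)
    (hov : ∫⁻ p in QQ, F.ov p ≤ ENNReal.ofReal kap)
    (hdir : ∑ i ∈ F.bad 0 (1 / 500), F.cw i (2, 0) (1 / 8) ≤ 1 / 16)
    (y : ℝ) (hy : |y| ≤ 1 / 4) (hnc : ((0 : ℝ), y) ∉ F.cov) :
    ∃ M U, Chain F y M U ∧ ENNReal.ofReal (kap * lam M) <
      ∫⁻ p in (elAff y (U M) M).map '' dsk (0, 0) 1, F.ov p := by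
  by_contra hcon
  push Not at hcon
  have hext : ∀ M, ∃ U, Chain F y M U := by
    intro M
    induction M with
    | zero => exact ⟨fun _ => 0, rfl, fun i hi => absurd hi (Nat.not_lt_zero i)⟩
    | succ M ih =>
      obtain ⟨U, hU⟩ := ih
      have hub := chain_bound F y M U hU M le_rfl
      have hcv := chart_cov F hQ y (U M) M hy hub
      have ho := chart_ov F y (U M) M (hcon M U hU)
      obtain ⟨u', hu'⟩ : ∃ u', Good F y (U M) M u' := by
        rcases M with _ | m
        · rw [hU.1] at hcv ho ⊢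
          exact good_base F y hy hcv ho hdir
        · exact good_step F y (U m) m (U (m + 1)) (hU.2 m (Nat.lt_succ_self m)) hcv ho
      refine ⟨Function.update U (M + 1) u', ?_, ?_⟩
      · rw [Function.update_of_ne (by omega)]
        exact hU.1
      · intro i hi
        rcases Nat.lt_succ_iff_lt_or_eq.1 hi with h | h
        · rw [Function.update_of_ne (by omega), Function.update_of_ne (by omega)]
          exact hU.2 i h
        · subst h
          rw [Function.update_of_ne (by omega), Function.update_self]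
          exact hu'
  have hopen : IsOpen (F.cov)ᶜ := (isClosed_cov F).isOpen_compl
  obtain ⟨ε, hε, hball⟩ := Metric.isOpen_iff.1 hopen (0, y) hnc
  obtain ⟨m, hm⟩ := exists_pow_lt_of_lt_one hε (by norm_num : (1 / 2 : ℝ) < 1)
  obtain ⟨U, hU⟩ := hext (m + 1)
  have hub := chain_bound F y (m + 1) U hU m (Nat.le_succ m)
  obtain ⟨y', hy1, hy2⟩ := good_gap F y (U m) m (U (m + 1)) (hU.2 m (Nat.lt_succ_self m))
    (chart_cov F hQ y (U m) m hy hub)
  have hl := lam_pos m
  have hlam : lam m = (1 / 2 : ℝ) ^ m := rfl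
  have : ((0 : ℝ), y') ∈ Metric.ball ((0 : ℝ), y) ε := by
    rw [Metric.mem_ball, Prod.dist_eq, dist_self, Real.dist_eq]
    apply max_lt hε
    have : lam m / 4 < ε := by rw [hlam] at hl ⊢; linarith
    exact lt_of_le_of_lt hy1 this
  exact hball this hy2

end K5

alias exists_stop := K5.exists_stop

end Pool.Agent.Helper934.Ann
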