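import Mathlib
import Pool.Agent.Helper934.AnnGODefs
import Pool.Agent.Helper934.AnnChain
import Pool.Agent.Helper934.AnnJ3
import Pool.Agent.Helper934.AnnK4a
import Pool.Agent.Helper934.AnnK4b
import Pool.Agent.Helper934.AnnK5

open MeasureTheory Set
open scoped ENNReal

namespace Pool.Agent.Helper934.Ann

variable {n : ℕ}

namespace K6

theorem go (F : Fam n) (hQ : QQ ⊆ F.cov)
    (hov : ∫⁻ p in QQ, F.ov p ≤ ENNReal.ofReal kap)
    (hdir : ∑ i ∈ F.bad 0 (1 / 500), F.cw i (2, 0) (1 / 8) ≤ 1 / 16) :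
    volume {y : ℝ | |y| ≤ 1 / 4 ∧ ((0 : ℝ), y) ∉ F.cov} ≤
      ENNReal.ofReal (10 ^ 11) * ∫⁻ p in QQ, F.ov p := by
  classical
  set G : Set ℝ := {y : ℝ | |y| ≤ 1 / 4 ∧ ((0 : ℝ), y) ∉ F.cov} with hG
  have hlampos : ∀ m : ℕ, 0 < lam m := fun m => by unfold lam; positivity
  have hlamle : ∀ m : ℕ, lam m ≤ 1 := fun m => by
    unfold lam; exact pow_le_one₀ (by norm_num) (by norm_num)
  have hkpos : (0 : ℝ) < kap := by unfold kap; norm_num

  have hch : ∀ y : ℝ, ∃ (M : ℕ) (U : ℕ → ℝ), y ∈ G → Chain F y M U ∧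
      ENNReal.ofReal (kap * lam M) <
        ∫⁻ p in (elAff y (U M) M).map '' dsk (0, 0) 1, F.ov p := by
    intro y
    by_cases h : y ∈ G
    · obtain ⟨M, U, h1⟩ := exists_stop F hQ hov hdir y h.1 h.2
      exact ⟨M, U, fun _ => h1⟩
    · exact ⟨0, fun _ => 0, fun h' => absurd h' h⟩
  choose M U hMU using hch
  set r : ℝ → ℝ := fun y => 4 * lam (M y) with hr
  have hrpos : ∀ y, 0 < r y := fun y => by simp only [hr]; have := hlampos (M y); linarith
  obtain ⟨u, huG, hudis, hucov⟩ := Vitali.exists_disjoint_subfamily_covering_enlargement_closedBall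
    G (fun y => y) r 4 (fun a _ => by simp only [hr]; have := hlamle (M a); linarith) 5 (by norm_num)
  have hucount : u.Countable := by
    refine hudis.countable_of_nonempty_interior fun a _ => ?_
    refine ⟨a, ?_⟩
    have : Metric.ball a (r a) ⊆ interior (Metric.closedBall a (r a)) :=
      Metric.ball_subset_interior_closedBall
    exact this (Metric.mem_ball_self (hrpos a))
  set E : ℝ → Set (ℝ × ℝ) := fun y => (elAff y (U y (M y)) (M y)).map '' dsk (0, 0) 1 with hE

  have hdskc : IsCompact (dsk (0, 0) 1) := by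
    have hcl : IsClosed (dsk (0, 0) 1) := by
      unfold dsk
      exact isClosed_le (by fun_prop) (by fun_prop)
    refine IsCompact.of_isClosed_subset ((isCompact_Icc (a := (-1 : ℝ)) (b := 1)).prod
      (isCompact_Icc (a := (-1 : ℝ)) (b := 1))) hcl ?_
    intro q hq
    have hq' : (q.1 - 0) ^ 2 + (q.2 - 0) ^ 2 ≤ (1 : ℝ) ^ 2 := hq
    constructor
    · constructor
      · nlinarith [sq_nonneg q.1, sq_nonneg q.2, sq_nonneg (q.1 + 1)]
      · nlinarith [sq_nonneg q.1, sq_nonneg q.2, sq_nonneg (q.1 - 1)]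
    · constructor
      · nlinarith [sq_nonneg q.1, sq_nonneg q.2, sq_nonneg (q.2 + 1)]
      · nlinarith [sq_nonneg q.1, sq_nonneg q.2, sq_nonneg (q.2 - 1)]
  have hEmeas : ∀ y, MeasurableSet (E y) := by
    intro y
    have hcont : Continuous (elAff y (U y (M y)) (M y)).map := by
      unfold Aff.map
      fun_prop
    exact (hdskc.image hcont).isClosed.measurableSet
  have hEQ : ∀ y ∈ G, E y ⊆ QQ := by
    intro y hy
    exact el_subset_QQ y _ _ hy.1 (chain_bound F y (M y) (U y) (hMU y hy).1 (M y) le_rfl)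
  have hEdis : ∀ y ∈ u, ∀ y' ∈ u, y ≠ y' → Disjoint (E y) (E y') := by
    intro y hy y' hy' hne
    have h1 : Disjoint (Metric.closedBall y (r y)) (Metric.closedBall y' (r y')) :=
      hudis hy hy' hne
    rw [disjoint_closedBall_closedBall_iff (hrpos y).le (hrpos y').le, Real.dist_eq] at h1
    refine chain_disjoint F hQ y y' (huG hy).1 (huG hy').1 (M y) (M y') (U y) (U y')
      (hMU y (huG hy)).1 (hMU y' (huG hy')).1 ?_
    simp only [hr] at h1
    linarith
  have hGsub : G ⊆ ⋃ b ∈ u, Metric.closedBall b (5 * r b) := by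
    intro y hy
    obtain ⟨b, hb, hsub⟩ := hucov y hy
    exact mem_biUnion hb (hsub (Metric.mem_closedBall_self (hrpos y).le))
  have : Countable u := hucount.to_subtype
  have hstep : ∀ b : u, volume (Metric.closedBall (b : ℝ) (5 * r b)) ≤
      ENNReal.ofReal (10 ^ 11) * ∫⁻ p in E b, F.ov p := by
    intro b
    rw [Real.volume_closedBall]
    have h1 : 2 * (5 * r b) = (40 / kap) * (kap * lam (M b)) := by
      simp only [hr]; field_simp; ring
    rw [h1, ENNReal.ofReal_mul (by positivity)]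
    refine mul_le_mul' (ENNReal.ofReal_le_ofReal ?_) (hMU b (huG b.2)).2.le
    unfold kap; norm_num
  calc volume G ≤ volume (⋃ b ∈ u, Metric.closedBall b (5 * r b)) := measure_mono hGsub
    _ ≤ ∑' b : u, volume (Metric.closedBall (b : ℝ) (5 * r b)) :=
        measure_biUnion_le volume hucount _
    _ ≤ ∑' b : u, ENNReal.ofReal (10 ^ 11) * ∫⁻ p in E b, F.ov p := ENNReal.tsum_le_tsum hstep
    _ = ENNReal.ofReal (10 ^ 11) * ∑' b : u, ∫⁻ p in E b, F.ov p := ENNReal.tsum_mul_left
    _ = ENNReal.ofReal (10 ^ 11) * ∫⁻ p in ⋃ b : u, E b, F.ov p := by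
        congr 1
        refine (lintegral_iUnion (s := fun b : u => E b) (fun b => hEmeas b) ?_ _).symm
        intro b b' hne
        exact hEdis b b.2 b' b'.2 (fun h => hne (Subtype.ext h))
    _ ≤ ENNReal.ofReal (10 ^ 11) * ∫⁻ p in QQ, F.ov p := by
        refine mul_le_mul' le_rfl (lintegral_mono_set ?_)
        exact iUnion_subset fun b => hEQ b (huG b.2)

end K6

alias go := K6.go

end Pool.Agent.Helper934.Ann
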