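import Mathlib
import Pool.Agent.Helper934.AnnDefs
import Pool.Agent.Helper934.AnnGODefs
import Pool.Agent.Helper934.AnnGeoDefs
import Pool.Agent.Helper934.AnnJ3
import Pool.Agent.Helper934.AnnK1
import Pool.Agent.Helper934.AnnK6

open MeasureTheory Set
open scoped ENNReal

namespace Pool.Agent.Helper934.Ann

variable {n : ℕ}

namespace B4a

theorem xf_aux_e2 (e : ℝ × ℝ) (he : e.1 ^ 2 + e.2 ^ 2 = 1) (hs : |e.1| ≤ 51 / 100 * |e.2|) :
    89 / 100 ≤ |e.2| := by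
  by_contra h
  push Not at h
  have h1 : |e.1| ^ 2 ≤ (51 / 100 * |e.2|) ^ 2 := by gcongr
  have h2 : |e.2| ^ 2 < (89 / 100) ^ 2 := by gcongr
  rw [sq_abs] at h1
  rw [mul_pow, sq_abs] at h1
  rw [sq_abs] at h2
  norm_num at h1 h2
  linarith

theorem xf_aux_s (e : ℝ × ℝ) (he : e.1 ^ 2 + e.2 ^ 2 = 1) (hs : |e.1| ≤ 51 / 100 * |e.2|) (s : ℝ)
    (hsdef : s = -e.1 / e.2) : |s| ≤ 51 / 100 := by
  have h := xf_aux_e2 e he hs
  rw [hsdef, abs_div, abs_neg, div_le_iff₀ (by linarith)]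
  exact hs

theorem xf_aux_nm (G : Fam n) (X0 Yc s : ℝ) (hs : |s| ≤ 51 / 100) (i : Fin n) :
    1 / 8 * (G.pull (xfr X0 Yc s)).nm i ≤ 1 / 40 * G.nm i ∧
      G.nm i ≤ 62 * (G.pull (xfr X0 Yc s)).nm i := by
  have hs2 : s ^ 2 ≤ (51 / 100) ^ 2 := by
    rw [← sq_abs]
    gcongr
  have hF : (G.pull (xfr X0 Yc s)).nm i =
      √((G.a i * (3 / 20) + G.b i * (3 / 20 * s)) ^ 2 + (G.a i * 0 + G.b i * (1 / 40)) ^ 2) := rfl
  have hG : G.nm i = √(G.a i ^ 2 + G.b i ^ 2) := rfl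
  set a := G.a i
  set b := G.b i
  constructor
  · have h1 : (G.pull (xfr X0 Yc s)).nm i ≤ 1 / 5 * G.nm i := by
      rw [hF, hG]
      apply Real.sqrt_le_iff.2
      refine ⟨by positivity, ?_⟩
      rw [mul_pow, Real.sq_sqrt (by positivity)]
      nlinarith [sq_nonneg (a * s - b), sq_nonneg a, sq_nonneg b,
        mul_nonneg (sq_nonneg a) (sub_nonneg.2 hs2), mul_nonneg (sq_nonneg b) (sub_nonneg.2 hs2)]
    linarith
  · rw [hF, hG]
    apply Real.sqrt_le_iff.2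
    refine ⟨by positivity, ?_⟩
    rw [mul_pow, Real.sq_sqrt (by positivity)]
    have e1 : a ^ 2 + b ^ 2 = (a + b * s) ^ 2 - 2 * ((a + b * s) * (b * s)) + b ^ 2 * s ^ 2 + b ^ 2 := by
      ring
    have e2 : (a * (3 / 20) + b * (3 / 20 * s)) ^ 2 + (a * 0 + b * (1 / 40)) ^ 2 =
        9 / 400 * (a + b * s) ^ 2 + b ^ 2 / 1600 := by ring
    rw [e1, e2]
    nlinarith [sq_nonneg (2 * (a + b * s) + b * s), sq_nonneg (a + b * s), sq_nonneg b,
      mul_nonneg (sq_nonneg b) (sub_nonneg.2 hs2)]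

theorem xf_aux_cw (G : Fam n) (X0 Yc s : ℝ) (hs : |s| ≤ 51 / 100) (i : Fin n) :
    (G.pull (xfr X0 Yc s)).cw i (2, 0) (1 / 8) ≤
      62 * G.cw i (X0 + 3 / 10, Yc + 3 / 10 * s) (1 / 40) := by
  obtain ⟨h1, h2⟩ := xf_aux_nm G X0 Yc s hs i
  have h3 := cw_cmp (G.pull (xfr X0 Yc s)) G i (2, 0) (X0 + 3 / 10, Yc + 3 / 10 * s) (1 / 8)
    (1 / 40) rfl (by
      have e : ((G.pull (xfr X0 Yc s)).c i - (G.pull (xfr X0 Yc s)).a i * ((2 : ℝ), (0 : ℝ)).1 -
          (G.pull (xfr X0 Yc s)).b i * ((2 : ℝ), (0 : ℝ)).2) -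
          (G.c i - G.a i * (X0 + 3 / 10, Yc + 3 / 10 * s).1 -
            G.b i * (X0 + 3 / 10, Yc + 3 / 10 * s).2) = 0 := by
        simp only [Fam.pull, xfr]
        ring
      rw [e, abs_zero, zero_add]
      exact h1)
  have h4 := cw_nonneg G i (X0 + 3 / 10, Yc + 3 / 10 * s) (1 / 40)
  have h5 := nm_pos (G.pull (xfr X0 Yc s)) i
  have h6 : (G.pull (xfr X0 Yc s)).cw i (2, 0) (1 / 8) * (G.pull (xfr X0 Yc s)).nm i ≤
      (62 * G.cw i (X0 + 3 / 10, Yc + 3 / 10 * s) (1 / 40)) * (G.pull (xfr X0 Yc s)).nm i := by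
    refine h3.trans ?_
    nlinarith
  exact le_of_mul_le_mul_right h6 h5

theorem xf_aux_bad (G : Fam n) (X0 Yc : ℝ) (e : ℝ × ℝ) (he : e.1 ^ 2 + e.2 ^ 2 = 1)
    (hs : |e.1| ≤ 51 / 100 * |e.2|) (s : ℝ) (hsdef : s = -e.1 / e.2) :
    (G.pull (xfr X0 Yc s)).bad 0 (1 / 500) ⊆ G.far2 e := by
  classical
  intro i hi
  have h2 := xf_aux_e2 e he hs
  have hs' := xf_aux_s e he hs s hsdef
  have he2 : e.2 ≠ 0 := by
    intro h
    rw [h, abs_zero] at h2
    linarith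
  simp only [Fam.bad, Finset.mem_filter, Finset.mem_univ, true_and] at hi
  simp only [Fam.far2, Finset.mem_filter, Finset.mem_univ, true_and]
  have e1 : e.1 = -s * e.2 := by
    rw [hsdef]
    field_simp
  have hF : |(G.pull (xfr X0 Yc s)).b i| = 1 / 40 * |G.b i| := by
    have : (G.pull (xfr X0 Yc s)).b i = 1 / 40 * G.b i := by
      simp only [Fam.pull, xfr]
      ring
    rw [this, abs_mul, abs_of_pos (by norm_num : (0 : ℝ) < 1 / 40)]
  have hF2 : |(G.pull (xfr X0 Yc s)).a i + (G.pull (xfr X0 Yc s)).b i * 0| =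
      3 / 20 * |G.a i + G.b i * s| := by
    have : (G.pull (xfr X0 Yc s)).a i + (G.pull (xfr X0 Yc s)).b i * 0 =
        3 / 20 * (G.a i + G.b i * s) := by
      simp only [Fam.pull, xfr]
      ring
    rw [this, abs_mul, abs_of_pos (by norm_num : (0 : ℝ) < 3 / 20)]
  rw [hF, hF2] at hi
  have e3 : |G.a i * e.2 - G.b i * e.1| = |e.2| * |G.a i + G.b i * s| := by
    rw [← abs_mul, e1]
    congr 1
    ring
  rw [e3]
  have h3 : G.nm i ≤ |G.a i| + |G.b i| := by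
    unfold Fam.nm
    apply Real.sqrt_le_iff.2
    refine ⟨by positivity, ?_⟩
    nlinarith [sq_abs (G.a i), sq_abs (G.b i), abs_nonneg (G.a i), abs_nonneg (G.b i),
      mul_nonneg (abs_nonneg (G.a i)) (abs_nonneg (G.b i))]
  have h4 : |G.a i| ≤ |G.a i + G.b i * s| + 51 / 100 * |G.b i| := by
    have e4 : G.a i = (G.a i + G.b i * s) - G.b i * s := by ring
    calc |G.a i| = |(G.a i + G.b i * s) - G.b i * s| := by rw [← e4]
      _ ≤ |G.a i + G.b i * s| + |G.b i * s| := abs_sub _ _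
      _ ≤ |G.a i + G.b i * s| + 51 / 100 * |G.b i| := by
        rw [abs_mul]
        have := mul_le_mul_of_nonneg_left hs' (abs_nonneg (G.b i))
        linarith
  have h5 : 89 / 100 * |G.a i + G.b i * s| ≤ |e.2| * |G.a i + G.b i * s| := by
    gcongr
  have h6 := abs_nonneg (G.a i + G.b i * s)
  linarith

theorem xf (G : Fam n) (X0 Yc : ℝ) (e : ℝ × ℝ) (he : e.1 ^ 2 + e.2 ^ 2 = 1)
    (hs : |e.1| ≤ 51 / 100 * |e.2|) (s : ℝ) (hsdef : s = -e.1 / e.2)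
    (hcov : (xfr X0 Yc s).map '' QQ ⊆ G.cov)
    (hov : ∫⁻ p in (xfr X0 Yc s).map '' QQ, G.ov p ≤ ENNReal.ofReal (1 / 10 ^ 11))
    (hdir : ∑ i ∈ G.far2 e, G.cw i (X0 + 3 / 10, Yc + 3 / 10 * s) (1 / 40) ≤ 1 / 4000) :
    volume {Y : ℝ | |Y - Yc| ≤ 1 / 160 ∧ (X0, Y) ∉ G.cov} ≤
      ENNReal.ofReal (10 ^ 12) * ∫⁻ p in (xfr X0 Yc s).map '' QQ, G.ov p := by
  have hs' := xf_aux_s e he hs s hsdef
  have hQQ : MeasurableSet QQ := measurableSet_Icc.prod measurableSet_Icc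
  have hint : ∫⁻ p in QQ, (G.pull (xfr X0 Yc s)).ov p =
      ENNReal.ofReal (800 / 3) * ∫⁻ p in (xfr X0 Yc s).map '' QQ, G.ov p := by
    have h1 : ∫⁻ p in QQ, (G.pull (xfr X0 Yc s)).ov p =
        ∫⁻ p in QQ, G.ov ((xfr X0 Yc s).map p) := by
      refine lintegral_congr fun p => pull_ov _ _ _
    rw [h1, lintegral_map (xfr X0 Yc s) G.ov (measurable_ov G) QQ hQQ]
    congr 2
    have : (xfr X0 Yc s).det = 3 / 800 := by
      simp only [Aff.det, xfr]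
      norm_num
    rw [this, abs_of_pos (by norm_num)]
    norm_num
  have hgo := go (G.pull (xfr X0 Yc s)) (fun p hp => (pull_cov _ _ _).2 (hcov ⟨p, hp, rfl⟩)) (by
      rw [hint]
      calc ENNReal.ofReal (800 / 3) * ∫⁻ p in (xfr X0 Yc s).map '' QQ, G.ov p
          ≤ ENNReal.ofReal (800 / 3) * ENNReal.ofReal (1 / 10 ^ 11) := by gcongr
        _ = ENNReal.ofReal (800 / 3 * (1 / 10 ^ 11)) := by
          rw [← ENNReal.ofReal_mul (by norm_num)]
        _ ≤ ENNReal.ofReal kap := by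
          apply ENNReal.ofReal_le_ofReal
          unfold kap
          norm_num) (by
      calc ∑ i ∈ (G.pull (xfr X0 Yc s)).bad 0 (1 / 500), (G.pull (xfr X0 Yc s)).cw i (2, 0) (1 / 8)
          ≤ ∑ i ∈ (G.pull (xfr X0 Yc s)).bad 0 (1 / 500),
            62 * G.cw i (X0 + 3 / 10, Yc + 3 / 10 * s) (1 / 40) :=
            Finset.sum_le_sum fun i _ => xf_aux_cw G X0 Yc s hs' i
        _ ≤ ∑ i ∈ G.far2 e, 62 * G.cw i (X0 + 3 / 10, Yc + 3 / 10 * s) (1 / 40) := by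
            apply Finset.sum_le_sum_of_subset_of_nonneg (xf_aux_bad G X0 Yc e he hs s hsdef)
            intro i _ _
            have := cw_nonneg G i (X0 + 3 / 10, Yc + 3 / 10 * s) (1 / 40)
            positivity
        _ = 62 * ∑ i ∈ G.far2 e, G.cw i (X0 + 3 / 10, Yc + 3 / 10 * s) (1 / 40) := by
            rw [Finset.mul_sum]
        _ ≤ 1 / 16 := by linarith)
  rw [hint] at hgo
  set I := ∫⁻ p in (xfr X0 Yc s).map '' QQ, G.ov p with hI
  set T : Set ℝ := {Y : ℝ | |Y - Yc| ≤ 1 / 160 ∧ (X0, Y) ∉ G.cov} with hT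
  have hpre : {y : ℝ | |y| ≤ 1 / 4 ∧ ((0 : ℝ), y) ∉ (G.pull (xfr X0 Yc s)).cov} =
      (fun y : ℝ => (1 / 40 : ℝ) * y) ⁻¹' ((fun z : ℝ => Yc + z) ⁻¹' T) := by
    ext y
    simp only [mem_setOf_eq, mem_preimage, hT]
    rw [pull_cov]
    have e1 : (xfr X0 Yc s).map (0, y) = (X0, Yc + 1 / 40 * y) := by
      simp only [Aff.map, xfr]
      ext <;> simp
    rw [e1]
    have e2 : |Yc + 1 / 40 * y - Yc| = 1 / 40 * |y| := by
      rw [add_sub_cancel_left, abs_mul, abs_of_pos (by norm_num : (0 : ℝ) < 1 / 40)]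
    rw [e2]
    constructor
    · rintro ⟨h1, h2⟩
      exact ⟨by linarith, h2⟩
    · rintro ⟨h1, h2⟩
      exact ⟨by linarith, h2⟩
  rw [hpre, Real.volume_preimage_mul_left (by norm_num), measure_preimage_add] at hgo
  have h40 : |(1 / 40 : ℝ)⁻¹| = 40 := by
    rw [abs_of_pos (by norm_num)]
    norm_num
  rw [h40] at hgo
  calc volume T = ENNReal.ofReal (1 / 40) * (ENNReal.ofReal 40 * volume T) := by
        rw [← mul_assoc, ← ENNReal.ofReal_mul (by norm_num)]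
        norm_num
    _ ≤ ENNReal.ofReal (1 / 40) * (ENNReal.ofReal (10 ^ 11) * (ENNReal.ofReal (800 / 3) * I)) := by
        gcongr
    _ = ENNReal.ofReal (1 / 40 * (10 ^ 11 * (800 / 3))) * I := by
        rw [ENNReal.ofReal_mul (by norm_num), ENNReal.ofReal_mul (by norm_num)]
        simp only [mul_assoc]
    _ ≤ ENNReal.ofReal (10 ^ 12) * I := by
        gcongr
        norm_num

end B4a

alias xf := B4a.xf

end Pool.Agent.Helper934.Ann
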