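import Mathlib
import Pool.Agent.Helper934.AnnDefs
import Pool.Agent.Helper934.AnnGODefs
import Pool.Agent.Helper934.AnnGeoDefs
import Pool.Agent.Helper934.AnnJ3
import Pool.Agent.Helper934.AnnK1
import Pool.Agent.Helper934.AnnK6

open MeasureTheory Set
open scoped ENNReal

namespace Pool.Agent.Helper934.Ann

variable {n : ℕ}

namespace B4b

theorem yf_e1 (e : ℝ × ℝ) (he : e.1 ^ 2 + e.2 ^ 2 = 1) (hs : |e.2| ≤ 41 / 20 * |e.1|) :
    (43 / 100 : ℝ) ≤ |e.1| := by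
  by_contra h
  push Not at h
  have h1 : e.1 ^ 2 = |e.1| ^ 2 := (sq_abs _).symm
  have h2 : e.2 ^ 2 = |e.2| ^ 2 := (sq_abs _).symm
  have h3 := abs_nonneg e.1
  have h4 := abs_nonneg e.2
  have h5 : |e.1| ^ 2 < (43 / 100) ^ 2 := by nlinarith
  have h6 : |e.2| ^ 2 ≤ (41 / 20) ^ 2 * |e.1| ^ 2 := by nlinarith
  nlinarith

theorem yf_nm_upper (a b ρ nmF nmG : ℝ) (hρ : ρ ^ 2 ≤ (41 / 20) ^ 2)
    (hF : nmF ^ 2 = (3 / 40 * (a * ρ + b)) ^ 2 + (a / 40) ^ 2) (hG : nmG ^ 2 = a ^ 2 + b ^ 2)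
    (hF0 : 0 < nmF) (hG0 : 0 < nmG) : 1 / 8 * nmF ≤ 1 / 40 * nmG := by
  have h1 : (a * ρ + b) ^ 2 ≤ (ρ ^ 2 + 1) * (a ^ 2 + b ^ 2) := by
    nlinarith [sq_nonneg (a - ρ * b)]
  have h2 : nmF ^ 2 ≤ (1 / 5 * nmG) ^ 2 := by
    rw [hF, mul_pow, mul_pow, hG]
    nlinarith [sq_nonneg a, sq_nonneg b, mul_nonneg (sub_nonneg.2 hρ) (add_nonneg (sq_nonneg a) (sq_nonneg b))]
  have h3 : nmF ≤ 1 / 5 * nmG := abs_le_of_sq_le_sq' h2 (by positivity) |>.2
  linarith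

theorem yf_nm_lower (a b ρ nmF nmG : ℝ) (hρ : ρ ^ 2 ≤ (41 / 20) ^ 2)
    (hF : nmF ^ 2 = (3 / 40 * (a * ρ + b)) ^ 2 + (a / 40) ^ 2) (hG : nmG ^ 2 = a ^ 2 + b ^ 2)
    (hF0 : 0 < nmF) (hG0 : 0 < nmG) : nmG ≤ 124 * nmF := by
  have h2 : nmG ^ 2 ≤ (124 * nmF) ^ 2 := by
    rw [mul_pow, hF, hG]
    have h1 : b ^ 2 ≤ 2 * (a * ρ + b) ^ 2 + 2 * (ρ ^ 2 * a ^ 2) := by
      nlinarith [sq_nonneg (a * ρ + b + a * ρ)]
    nlinarith [sq_nonneg (a * ρ + b), mul_nonneg (sub_nonneg.2 hρ) (sq_nonneg a), sq_nonneg a]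
  exact abs_le_of_sq_le_sq' h2 (by positivity) |>.2

theorem yf_far (a b e1 e2 nmG : ℝ) (he : e1 ^ 2 + e2 ^ 2 = 1) (h1 : (43 / 100 : ℝ) ≤ |e1|)
    (hG : nmG ^ 2 = a ^ 2 + b ^ 2) (hG0 : 0 < nmG)
    (hbad : 1 / 1500 * |a| * |e1| < |a * e2 - b * e1|) :
    1 / 20000 * nmG ≤ |a * e2 - b * e1| := by
  by_contra h
  push Not at h
  set δ := |a * e2 - b * e1| with hδ
  have hδ0 : 0 ≤ δ := abs_nonneg _
  set t := a * e1 + b * e2 with ht
  have h3 : nmG ^ 2 = t ^ 2 + δ ^ 2 := by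
    rw [hG, hδ, sq_abs, ht]
    linear_combination (-(a ^ 2 + b ^ 2)) * he
  have h4 : (99 / 100 * nmG) ≤ |t| := by
    apply abs_le_of_sq_le_sq' _ (abs_nonneg t) |>.2
    rw [sq_abs]
    nlinarith
  have h5 : a = t * e1 + (a * e2 - b * e1) * e2 := by
    rw [ht]
    linear_combination (-a) * he
  have he2 : |e2| ≤ 1 := by
    rw [← sq_le_one_iff_abs_le_one]
    nlinarith [sq_nonneg e1]
  have h6 : |t| * |e1| - δ ≤ |a| := by
    have h7 : |t * e1| - |(a * e2 - b * e1) * e2| ≤ |a| := by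
      have h8 : t * e1 = a - (a * e2 - b * e1) * e2 := by linarith
      have h9 : |t * e1| ≤ |a| + |(a * e2 - b * e1) * e2| := by
        rw [h8]
        exact abs_sub _ _
      linarith
    rw [abs_mul, abs_mul, ← hδ] at h7
    have h10 : δ * |e2| ≤ δ := by nlinarith
    linarith
  have h7 : 99 / 100 * nmG * (43 / 100) ≤ |t| * |e1| := by
    apply mul_le_mul h4 h1 (by norm_num) (abs_nonneg _)
  have h8 : (4 / 10) * nmG ≤ |a| := by nlinarith
  have h9 : (4 / 10) * nmG * (43 / 100) ≤ |a| * |e1| :=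
    mul_le_mul h8 h1 (by norm_num) (abs_nonneg _)
  nlinarith

theorem yf (G : Fam n) (Y0 : ℝ) (e : ℝ × ℝ) (he : e.1 ^ 2 + e.2 ^ 2 = 1)
    (hs : |e.2| ≤ 41 / 20 * |e.1|) (ρ : ℝ) (hρdef : ρ = -e.2 / e.1)
    (hcov : (yfr Y0 ρ).map '' QQ ⊆ G.cov)
    (hov : ∫⁻ p in (yfr Y0 ρ).map '' QQ, G.ov p ≤ ENNReal.ofReal (1 / 10 ^ 11))
    (hdir : ∑ i ∈ G.far2 e, G.cw i (3 / 20 * ρ, Y0 + 3 / 20) (1 / 40) ≤ 1 / 4000) :
    volume {X : ℝ | |X| ≤ 1 / 160 ∧ (X, Y0) ∉ G.cov} ≤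
      ENNReal.ofReal (2 * 10 ^ 12) * ∫⁻ p in (yfr Y0 ρ).map '' QQ, G.ov p := by
  classical
  set A := yfr Y0 ρ with hA
  set F := G.pull A with hF
  have hQm : MeasurableSet QQ := measurableSet_Icc.prod measurableSet_Icc
  have he1 := yf_e1 e he hs
  have he1' : e.1 ≠ 0 := by
    intro h
    rw [h] at he1
    norm_num at he1
  have hρabs : |ρ| ≤ 41 / 20 := by
    rw [hρdef, abs_div, abs_neg, div_le_iff₀ (by linarith)]
    exact hs
  have hρ2 : ρ ^ 2 ≤ (41 / 20) ^ 2 := sq_le_sq' (by linarith [(abs_le.1 hρabs).1]) (abs_le.1 hρabs).2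
  have hint : ∫⁻ p in QQ, F.ov p = ENNReal.ofReal (1600 / 3) * ∫⁻ q in A.map '' QQ, G.ov q := by
    have h1 : ∀ p, F.ov p = G.ov (A.map p) := fun p => pull_ov G A p
    simp_rw [h1]
    rw [lintegral_map A G.ov (measurable_ov G) QQ hQm]
    congr 2
    have h2 : A.det = -(3 / 1600) := by
      rw [hA]
      simp only [Aff.det, yfr]
      ring
    rw [h2, abs_neg, abs_of_pos (by norm_num)]
    norm_num
  have hFa : ∀ i, F.a i = 3 / 40 * (G.a i * ρ + G.b i) := by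
    intro i
    simp only [hF, hA, Fam.pull, yfr]
    ring
  have hFb : ∀ i, F.b i = G.a i / 40 := by
    intro i
    simp only [hF, hA, Fam.pull, yfr]
    ring
  have hFc : ∀ i, F.c i = G.c i - G.b i * Y0 := by
    intro i
    simp only [hF, hA, Fam.pull, yfr]
    ring
  have hFnm : ∀ i, F.nm i ^ 2 = (3 / 40 * (G.a i * ρ + G.b i)) ^ 2 + (G.a i / 40) ^ 2 := by
    intro i
    rw [Fam.nm, Real.sq_sqrt (F.nz i).le, hFa, hFb]
  have hGnm : ∀ i, G.nm i ^ 2 = G.a i ^ 2 + G.b i ^ 2 := by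
    intro i
    rw [Fam.nm, Real.sq_sqrt (G.nz i).le]
  have key := go F ?_ ?_ ?_
  · rw [hint] at key
    have hset : {X : ℝ | |X| ≤ 1 / 160 ∧ (X, Y0) ∉ G.cov} =
        (fun x : ℝ => 40 * x) ⁻¹' {y : ℝ | |y| ≤ 1 / 4 ∧ ((0 : ℝ), y) ∉ F.cov} := by
      ext X
      simp only [mem_setOf_eq, mem_preimage]
      have h1 : ((0 : ℝ), 40 * X) ∈ F.cov ↔ (X, Y0) ∈ G.cov := by
        rw [hF, pull_cov]
        have : A.map ((0 : ℝ), 40 * X) = (X, Y0) := by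
          simp only [hA, Aff.map, yfr]
          ext
          · simp only
            ring
          · simp only
            ring
        rw [this]
      rw [h1, abs_mul, abs_of_pos (by norm_num : (0:ℝ) < 40)]
      constructor
      · rintro ⟨h2, h3⟩
        exact ⟨by linarith, h3⟩
      · rintro ⟨h2, h3⟩
        exact ⟨by linarith, h3⟩
    rw [hset, Real.volume_preimage_mul_left (by norm_num : (40:ℝ) ≠ 0)]
    calc ENNReal.ofReal |(40:ℝ)⁻¹| * volume {y : ℝ | |y| ≤ 1 / 4 ∧ ((0 : ℝ), y) ∉ F.cov}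
        ≤ ENNReal.ofReal |(40:ℝ)⁻¹| * (ENNReal.ofReal (10 ^ 11) *
            (ENNReal.ofReal (1600 / 3) * ∫⁻ q in A.map '' QQ, G.ov q)) := by
          gcongr
      _ = ENNReal.ofReal (|(40:ℝ)⁻¹| * (10 ^ 11 * (1600 / 3))) * ∫⁻ q in A.map '' QQ, G.ov q := by
          rw [ENNReal.ofReal_mul (abs_nonneg _), ENNReal.ofReal_mul (by positivity)]
          ring
      _ ≤ ENNReal.ofReal (2 * 10 ^ 12) * ∫⁻ q in A.map '' QQ, G.ov q := by
          apply mul_le_mul' _ le_rfl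
          apply ENNReal.ofReal_le_ofReal
          rw [abs_of_pos (by norm_num)]
          norm_num
  · intro p hp
    rw [hF, pull_cov]
    exact hcov ⟨p, hp, rfl⟩
  · rw [hint]
    calc ENNReal.ofReal (1600 / 3) * ∫⁻ q in A.map '' QQ, G.ov q
        ≤ ENNReal.ofReal (1600 / 3) * ENNReal.ofReal (1 / 10 ^ 11) := by gcongr
      _ = ENNReal.ofReal (1600 / 3 * (1 / 10 ^ 11)) := by
          rw [ENNReal.ofReal_mul (by norm_num)]
      _ ≤ ENNReal.ofReal kap := by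
          apply ENNReal.ofReal_le_ofReal
          rw [kap]
          norm_num
  · have hsub : F.bad 0 (1 / 500) ⊆ G.far2 e := by
      intro i hi
      simp only [Fam.bad, Finset.mem_filter, Finset.mem_univ, true_and] at hi
      simp only [Fam.far2, Finset.mem_filter, Finset.mem_univ, true_and]
      apply yf_far (G.a i) (G.b i) e.1 e.2 (G.nm i) he he1 (hGnm i) (nm_pos G i)
      rw [hFa, hFb, mul_zero, add_zero] at hi
      have h1 : G.a i * ρ + G.b i = -(G.a i * e.2 - G.b i * e.1) / e.1 := by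
        rw [hρdef]
        field_simp
        ring
      have h2 : |(40:ℝ)| = 40 := abs_of_pos (by norm_num)
      have h3 : |(3:ℝ)| = 3 := abs_of_pos (by norm_num)
      rw [h1] at hi
      simp only [abs_div, abs_mul, abs_neg, h2, h3] at hi
      have h4 : 0 < |e.1| := by linarith
      have h5 : 1 / 500 * (|G.a i| / 40) * |e.1| <
          3 / 40 * (|G.a i * e.2 - G.b i * e.1| / |e.1|) * |e.1| :=
        mul_lt_mul_of_pos_right hi h4
      have h6 : 3 / 40 * (|G.a i * e.2 - G.b i * e.1| / |e.1|) * |e.1| =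
          3 / 40 * |G.a i * e.2 - G.b i * e.1| := by
        field_simp
      rw [h6] at h5
      nlinarith
    have hcw : ∀ i, F.cw i (2, 0) (1 / 8) ≤ 124 * G.cw i (3 / 20 * ρ, Y0 + 3 / 20) (1 / 40) := by
      intro i
      have h1 := yf_nm_upper (G.a i) (G.b i) ρ (F.nm i) (G.nm i) hρ2 (hFnm i) (hGnm i)
        (nm_pos F i) (nm_pos G i)
      have h2 := yf_nm_lower (G.a i) (G.b i) ρ (F.nm i) (G.nm i) hρ2 (hFnm i) (hGnm i)
        (nm_pos F i) (nm_pos G i)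
      have h3 := cw_cmp F G i (2, 0) (3 / 20 * ρ, Y0 + 3 / 20) (1 / 8) (1 / 40) rfl (by
        have h4 : (F.c i - F.a i * ((2:ℝ), (0:ℝ)).1 - F.b i * ((2:ℝ), (0:ℝ)).2) -
            (G.c i - G.a i * (3 / 20 * ρ, Y0 + 3 / 20).1 - G.b i * (3 / 20 * ρ, Y0 + 3 / 20).2) = 0 := by
          simp only
          rw [hFa, hFb, hFc]
          ring
        rw [h4, abs_zero, zero_add]
        exact h1)
      have h4 := cw_nonneg G i (3 / 20 * ρ, Y0 + 3 / 20) (1 / 40)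
      have h5 := nm_pos F i
      have h6 : F.cw i (2, 0) (1 / 8) * F.nm i ≤
          (124 * G.cw i (3 / 20 * ρ, Y0 + 3 / 20) (1 / 40)) * F.nm i := by
        calc _ ≤ _ := h3
          _ ≤ G.cw i (3 / 20 * ρ, Y0 + 3 / 20) (1 / 40) * (124 * F.nm i) := by gcongr
          _ = _ := by ring
      exact le_of_mul_le_mul_right h6 h5
    calc ∑ i ∈ F.bad 0 (1 / 500), F.cw i (2, 0) (1 / 8)
        ≤ ∑ i ∈ G.far2 e, F.cw i (2, 0) (1 / 8) :=
          Finset.sum_le_sum_of_subset_of_nonneg hsub (fun i _ _ => cw_nonneg _ _ _ _)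
      _ ≤ ∑ i ∈ G.far2 e, 124 * G.cw i (3 / 20 * ρ, Y0 + 3 / 20) (1 / 40) :=
          Finset.sum_le_sum (fun i _ => hcw i)
      _ = 124 * ∑ i ∈ G.far2 e, G.cw i (3 / 20 * ρ, Y0 + 3 / 20) (1 / 40) := by
          rw [Finset.mul_sum]
      _ ≤ 124 * (1 / 4000) := by gcongr
      _ ≤ 1 / 16 := by norm_num

end B4b

alias yf := B4b.yf

end Pool.Agent.Helper934.Ann
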