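import Mathlib
import Pool.Agent.Helper934.AnnDefs
import Pool.Agent.Helper934.AnnGODefs
import Pool.Agent.Helper934.AnnGeoDefs
import Pool.Agent.Helper934.AnnJ3

open MeasureTheory Set
open scoped ENNReal

namespace Pool.Agent.Helper934.Ann

variable {n : ℕ}

namespace B5a

theorem caseX (C : Cfg n) (hε : C.ε ≤ 1 / 10 ^ 7) (k : ℕ) (g : ℝ) (h2 : C.P2 k g) (j : ℕ) (hj : j ≤ k)
    (neg : Bool) (V : ℝ) (hV0 : 0 ≤ V)
    (hV : ∀ X0 : ℝ, |X0| ≤ 1 / 1000 → volume {Y : ℝ | (X0, Y) ∉ (C.ch j neg).cov ∧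
      21 / 20 * bb ^ (4 * (k - j + 1)) < Y ∧ Y ≤ 21 / 20 * bb ^ (4 * (k - j))} ≤ ENNReal.ofReal V) :
    g ≤ 2 / bb ^ (2 * k) * bb ^ (6 * j) * (2 * √(21 / 10 * C.ε) * bb ^ (2 * (k - j))) * V := by
  have hbb : (0:ℝ) < bb := by norm_num [bb]
  have hbb1 : bb ≤ 1 := by norm_num [bb]
  have hεpos := C.hε
  set A := chart j neg with hA
  set U : Set (ℝ × ℝ) := C.G ∩ Lay k with hU
  have hUm : MeasurableSet U := by
    apply MeasurableSet.inter
    · have h1 : IsClosed {p : ℝ × ℝ | p.1 ^ 2 + p.2 ^ 2 ≤ 2 * p.2} :=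
        isClosed_le (by fun_prop) (by fun_prop)
      exact h1.measurableSet.inter (isClosed_cov C.F).measurableSet.compl
    · have h1 : MeasurableSet {p : ℝ × ℝ | 21 / 20 * bb ^ (4 * (k + 1)) < p.2} :=
        measurableSet_lt measurable_const measurable_snd
      have h2 : MeasurableSet {p : ℝ × ℝ | p.2 ≤ 21 / 20 * bb ^ (4 * k)} :=
        measurableSet_le measurable_snd measurable_const
      exact h1.inter h2
  have hmapm : Measurable A.map := by
    unfold Aff.map
    fun_prop
  set T : Set (ℝ × ℝ) := A.map ⁻¹' U with hT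
  have hTm : MeasurableSet T := hmapm hUm
  have hm11 : A.m11 = (if neg then -1 else 1) * bb ^ (2 * j) := rfl
  have hm22 : A.m22 = bb ^ (4 * j) := rfl
  have hsgn : ((if neg then -1 else 1 : ℝ)) ^ 2 = 1 := by cases neg <;> simp
  have hsgn0 : ((if neg then -1 else 1 : ℝ)) ≠ 0 := by cases neg <;> simp
  have habs : |((if neg then -1 else 1 : ℝ))| = 1 := by cases neg <;> simp
  have hmap : ∀ p : ℝ × ℝ, A.map p =
      ((if neg then -1 else 1) * bb ^ (2 * j) * p.1, bb ^ (4 * j) * p.2) := by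
    intro p
    simp only [hA, Aff.map, chart]
    ext <;> simp
  have hdet : |A.det| = bb ^ (6 * j) := by
    have : A.det = (if neg then -1 else 1) * bb ^ (6 * j) := by
      simp only [hA, Aff.det, chart]
      rw [show 6 * j = 2 * j + 4 * j by ring, pow_add]
      ring
    rw [this, abs_mul, habs, one_mul, abs_of_pos (pow_pos hbb _)]
  have himg : A.map '' T = U := by
    apply image_preimage_eq
    intro q
    refine ⟨((if neg then -1 else 1) * q.1 / bb ^ (2 * j), q.2 / bb ^ (4 * j)), ?_⟩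
    rw [hmap]
    have h1 : bb ^ (2 * j) ≠ 0 := (pow_pos hbb _).ne'
    have h2 : bb ^ (4 * j) ≠ 0 := (pow_pos hbb _).ne'
    ext
    · simp only
      calc (if neg then -1 else 1 : ℝ) * bb ^ (2 * j) * ((if neg then -1 else 1) * q.1 / bb ^ (2 * j))
          = (if neg then -1 else 1 : ℝ) ^ 2 * q.1 := by field_simp
        _ = q.1 := by rw [hsgn, one_mul]
    · simp only
      field_simp
  have hvol : volume U = ENNReal.ofReal (bb ^ (6 * j)) * volume T := by
    have h1 := lintegral_map A (fun _ => 1) measurable_const T hTm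
    rw [himg] at h1
    simp only [lintegral_one, Measure.restrict_apply MeasurableSet.univ, univ_inter] at h1
    rw [h1, ← mul_assoc, ← ENNReal.ofReal_mul (by positivity), hdet,
      mul_inv_cancel₀ (pow_pos hbb _).ne', ENNReal.ofReal_one, one_mul]
  set w : ℝ := √(21 / 10 * C.ε) * bb ^ (2 * (k - j)) with hw
  have hw0 : 0 ≤ w := by positivity
  have hw1 : w ≤ 1 / 1000 := by
    have h1 : √(21 / 10 * C.ε) ≤ 1 / 1000 := by
      rw [Real.sqrt_le_left (by norm_num)]
      nlinarith
    have h2 : bb ^ (2 * (k - j)) ≤ 1 := pow_le_one₀ hbb.le hbb1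
    have h3 : 0 < bb ^ (2 * (k - j)) := pow_pos hbb _
    have h4 : 0 ≤ √(21 / 10 * C.ε) := Real.sqrt_nonneg _
    calc w ≤ 1 / 1000 * 1 := mul_le_mul h1 h2 h3.le (by norm_num)
      _ = 1 / 1000 := by ring

  have hTf : ∀ X Y : ℝ, (X, Y) ∈ T → (X, Y) ∉ (C.ch j neg).cov ∧
      21 / 20 * bb ^ (4 * (k - j + 1)) < Y ∧ Y ≤ 21 / 20 * bb ^ (4 * (k - j)) ∧ |X| ≤ w := by
    intro X Y hp
    have hp' : A.map (X, Y) ∈ U := hp
    obtain ⟨⟨hd, hnc⟩, hl1, hl2⟩ := hp'
    have hb4 : 0 < bb ^ (4 * j) := pow_pos hbb _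
    have hb2 : 0 < bb ^ (2 * j) := pow_pos hbb _
    rw [hmap] at hd hl1 hl2
    simp only at hd hl1 hl2
    have e1 : bb ^ (4 * (k + 1)) = bb ^ (4 * j) * bb ^ (4 * (k - j + 1)) := by
      rw [← pow_add]; congr 1; omega
    have e2 : bb ^ (4 * k) = bb ^ (4 * j) * bb ^ (4 * (k - j)) := by
      rw [← pow_add]; congr 1; omega
    have hY1 : 21 / 20 * bb ^ (4 * (k - j + 1)) < Y := by
      rw [e1] at hl1
      have : bb ^ (4 * j) * (21 / 20 * bb ^ (4 * (k - j + 1))) < bb ^ (4 * j) * Y := by linarith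
      exact lt_of_mul_lt_mul_left this hb4.le
    have hY2 : Y ≤ 21 / 20 * bb ^ (4 * (k - j)) := by
      rw [e2] at hl2
      have : bb ^ (4 * j) * Y ≤ bb ^ (4 * j) * (21 / 20 * bb ^ (4 * (k - j))) := by linarith
      exact le_of_mul_le_mul_left this hb4
    refine ⟨?_, hY1, hY2, ?_⟩
    · intro hc
      apply hnc
      exact (pull_cov C.F A (X, Y)).mp hc
    ·
      set x : ℝ := (if neg then -1 else 1) * bb ^ (2 * j) * X with hx
      set y : ℝ := bb ^ (4 * j) * Y with hy
      have hxy : A.map (X, Y) = (x, y) := hmap _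
      have hhole : x ^ 2 + (y - C.η) ^ 2 ≤ C.ε ^ 2 := by
        by_contra hcon
        push Not at hcon
        apply hnc
        rw [hxy]
        exact C.hcov x y hd hcon
      have hYpos : 0 < Y := lt_trans (by positivity) hY1
      have hypos : 0 < y := by positivity
      have habsd : |y - C.η| ≤ C.ε := by
        apply abs_le_of_sq_le_sq _ hεpos.le
        nlinarith [sq_nonneg x]
      obtain ⟨h3, h4⟩ := abs_le.mp habsd
      have hx2 : x ^ 2 ≤ 2 * C.ε * y := by
        have h5 : x ^ 2 ≤ (C.ε - (y - C.η)) * (C.ε + (y - C.η)) := by nlinarith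
        have h6 : C.ε + (y - C.η) ≤ y := by linarith [C.hηε]
        have h7 : C.ε - (y - C.η) ≤ 2 * C.ε := by linarith
        have h8 : 0 ≤ C.ε + (y - C.η) := by linarith
        have h9 : 0 ≤ C.ε - (y - C.η) := by linarith
        calc x ^ 2 ≤ (C.ε - (y - C.η)) * (C.ε + (y - C.η)) := h5
          _ ≤ (2 * C.ε) * y := mul_le_mul h7 h6 h8 (by linarith)
      have hx3 : x ^ 2 = bb ^ (4 * j) * X ^ 2 := by
        rw [hx, mul_pow, mul_pow, hsgn, one_mul, ← pow_mul]
        congr 2
        ring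
      have hX2 : X ^ 2 ≤ 2 * C.ε * Y := by
        have : bb ^ (4 * j) * X ^ 2 ≤ bb ^ (4 * j) * (2 * C.ε * Y) := by
          rw [← hx3]
          calc x ^ 2 ≤ 2 * C.ε * y := hx2
            _ = bb ^ (4 * j) * (2 * C.ε * Y) := by rw [hy]; ring
        exact le_of_mul_le_mul_left this hb4
      have hw2 : w ^ 2 = 21 / 10 * C.ε * bb ^ (4 * (k - j)) := by
        rw [hw, mul_pow, Real.sq_sqrt (by positivity), ← pow_mul]
        congr 2
        ring
      apply abs_le_of_sq_le_sq _ hw0
      rw [hw2]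
      have : 2 * C.ε * Y ≤ 2 * C.ε * (21 / 20 * bb ^ (4 * (k - j))) :=
        mul_le_mul_of_nonneg_left hY2 (by linarith)
      linarith
  have hTvol : volume T ≤ ENNReal.ofReal (2 * w * V) := by
    rw [Measure.volume_eq_prod, Measure.prod_apply hTm]
    calc ∫⁻ X, volume (Prod.mk X ⁻¹' T)
        ≤ ∫⁻ X, (Icc (-w) w).indicator (fun _ => ENNReal.ofReal V) X := by
          apply lintegral_mono
          intro X
          by_cases hX : X ∈ Icc (-w) w
          · simp only [indicator_of_mem hX]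
            refine le_trans (measure_mono ?_) (hV X ?_)
            · intro Y hY
              obtain ⟨h1, h2, h3, -⟩ := hTf X Y hY
              exact ⟨h1, h2, h3⟩
            · exact (abs_le.mpr hX).trans hw1
          · simp only [indicator_of_notMem hX]
            have : Prod.mk X ⁻¹' T = ∅ := by
              apply eq_empty_of_forall_notMem
              intro Y hY
              obtain ⟨-, -, -, h4⟩ := hTf X Y hY
              exact hX (abs_le.mp h4)
            rw [this, measure_empty]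
      _ = ENNReal.ofReal V * ENNReal.ofReal (w - -w) := by
          rw [lintegral_indicator measurableSet_Icc, setLIntegral_const, Real.volume_Icc]
      _ = ENNReal.ofReal (2 * w * V) := by
          rw [← ENNReal.ofReal_mul hV0]
          congr 1; ring
  have hfin : ENNReal.ofReal g ≤ ENNReal.ofReal (2 / bb ^ (2 * k) * bb ^ (6 * j) *
      (2 * √(21 / 10 * C.ε) * bb ^ (2 * (k - j))) * V) := by
    calc ENNReal.ofReal g ≤ ENNReal.ofReal (2 / bb ^ (2 * k)) * volume U := h2
      _ = ENNReal.ofReal (2 / bb ^ (2 * k)) * (ENNReal.ofReal (bb ^ (6 * j)) * volume T) := by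
          rw [hvol]
      _ ≤ ENNReal.ofReal (2 / bb ^ (2 * k)) * (ENNReal.ofReal (bb ^ (6 * j)) *
            ENNReal.ofReal (2 * w * V)) := by
          gcongr
      _ = _ := by
          rw [← ENNReal.ofReal_mul (by positivity), ← ENNReal.ofReal_mul (by positivity)]
          congr 1
          rw [hw]; ring
  exact (ENNReal.ofReal_le_ofReal_iff (by positivity)).mp hfin

end B5a

alias caseX := B5a.caseX

end Pool.Agent.Helper934.Ann
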