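import Mathlib
import Pool.Agent.Helper934.AnnDefs
import Pool.Agent.Helper934.AnnGODefs
import Pool.Agent.Helper934.AnnGeoDefs
import Pool.Agent.Helper934.AnnJ3

open MeasureTheory Set
open scoped ENNReal

namespace Pool.Agent.Helper934.Ann

variable {n : ℕ}

namespace B5b

lemma cY_bb_pos : (0:ℝ) < bb := by norm_num [bb]

lemma cY_bb_le_one : bb ≤ 1 := by norm_num [bb]

lemma cY_chart_det_abs (j : ℕ) (neg : Bool) : |(chart j neg).det| = bb ^ (6 * j) := by
  have h := cY_bb_pos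
  have h1 : (0:ℝ) < bb ^ (6 * j) := pow_pos h _
  have h2 : bb ^ (2 * j) * bb ^ (4 * j) = bb ^ (6 * j) := by rw [← pow_add]; congr 1; ring
  unfold Aff.det chart
  cases neg
  · simp only [Bool.false_eq_true, if_false, one_mul, mul_zero, sub_zero]
    rw [h2, abs_of_pos h1]
  · simp only [if_true, mul_zero, sub_zero]
    rw [mul_assoc, h2, abs_mul, abs_of_pos h1]
    norm_num

lemma cY_chart_map_snd (j : ℕ) (neg : Bool) (p : ℝ × ℝ) : ((chart j neg).map p).2 = bb ^ (4 * j) * p.2 := by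
  simp [Aff.map, chart]

lemma cY_chart_map_fst_sq (j : ℕ) (neg : Bool) (p : ℝ × ℝ) :
    ((chart j neg).map p).1 ^ 2 = bb ^ (4 * j) * p.1 ^ 2 := by
  have h2 : bb ^ (2 * j) * bb ^ (2 * j) = bb ^ (4 * j) := by rw [← pow_add]; congr 1; ring
  rw [← h2]
  cases neg <;> simp [Aff.map, chart] <;> ring

lemma cY_chart_surj (j : ℕ) (neg : Bool) (q : ℝ × ℝ) : ∃ p, (chart j neg).map p = q := by
  have h := cY_bb_pos
  have h1 : (0:ℝ) < bb ^ (2 * j) := pow_pos h _
  have h2 : (0:ℝ) < bb ^ (4 * j) := pow_pos h _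
  refine ⟨((if neg then -1 else 1) * q.1 / bb ^ (2 * j), q.2 / bb ^ (4 * j)), ?_⟩
  cases neg
  · apply Prod.ext <;> simp [Aff.map, chart] <;> field_simp
  · apply Prod.ext <;> simp [Aff.map, chart] <;> field_simp

lemma cY_chart_cont (j : ℕ) (neg : Bool) : Continuous (chart j neg).map := by
  unfold Aff.map
  fun_prop

lemma cY_measurableSet_GLay (C : Cfg n) (k : ℕ) : MeasurableSet (C.G ∩ Lay k) := by
  have h1 : MeasurableSet {p : ℝ × ℝ | p.1 ^ 2 + p.2 ^ 2 ≤ 2 * p.2} :=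
    measurableSet_le (by fun_prop) (by fun_prop)
  have h2 : MeasurableSet (C.F.cov)ᶜ := (isClosed_cov C.F).measurableSet.compl
  have h3 : MeasurableSet {p : ℝ × ℝ | 21 / 20 * bb ^ (4 * (k + 1)) < p.2} :=
    measurableSet_lt (by fun_prop) (by fun_prop)
  have h4 : MeasurableSet {p : ℝ × ℝ | p.2 ≤ 21 / 20 * bb ^ (4 * k)} :=
    measurableSet_le (by fun_prop) (by fun_prop)
  exact (h1.inter h2).inter (h3.inter h4)

theorem caseY (C : Cfg n) (hε : C.ε ≤ 1 / 10 ^ 7) (k : ℕ) (g : ℝ) (h2 : C.P2 k g) (j : ℕ) (hj : j ≤ k)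
    (neg : Bool) (V : ℝ) (hV0 : 0 ≤ V)
    (hV : ∀ Y0 : ℝ, 0 < Y0 → Y0 ≤ 21 / 20 → |bb ^ (4 * j) * Y0 - C.η| ≤ C.ε →
      volume {X : ℝ | |X| ≤ 1 / 160 ∧ (X, Y0) ∉ (C.ch j neg).cov} ≤ ENNReal.ofReal V) :
    g ≤ 2 / bb ^ (2 * k) * bb ^ (6 * j) *
      (min (21 / 20 * (1 - bb ^ 4) * bb ^ (4 * (k - j))) (2 * C.ε / bb ^ (4 * j))) * V := by
  have hb := cY_bb_pos
  have hb1 := cY_bb_le_one
  have hεp := C.hε
  have p2k : (0:ℝ) < bb ^ (2 * k) := pow_pos hb _
  have p6j : (0:ℝ) < bb ^ (6 * j) := pow_pos hb _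
  have p4j : (0:ℝ) < bb ^ (4 * j) := pow_pos hb _
  have p4kj : (0:ℝ) < bb ^ (4 * (k - j)) := pow_pos hb _
  set A := chart j neg with hA
  set S : Set (ℝ × ℝ) := A.map ⁻¹' (C.G ∩ Lay k) with hS
  have hSm : MeasurableSet S := (cY_chart_cont j neg).measurable (cY_measurableSet_GLay C k)
  have himg : A.map '' S = C.G ∩ Lay k := by
    rw [hS, Set.image_preimage_eq]
    intro q
    exact cY_chart_surj j neg q

  have hvol : volume (C.G ∩ Lay k) = ENNReal.ofReal (bb ^ (6 * j)) * volume S := by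
    have h1 := lintegral_map A (fun _ => (1 : ℝ≥0∞)) measurable_const S hSm
    rw [himg, cY_chart_det_abs] at h1
    simp only [lintegral_const, Measure.restrict_apply MeasurableSet.univ, univ_inter, one_mul] at h1
    rw [h1, ← mul_assoc, ← ENNReal.ofReal_mul p6j.le, mul_inv_cancel₀ p6j.ne', ENNReal.ofReal_one,
      one_mul]
  set m : ℝ := min (21 / 20 * (1 - bb ^ 4) * bb ^ (4 * (k - j))) (2 * C.ε / bb ^ (4 * j)) with hm
  have hbb4 : bb ^ 4 ≤ 1 := pow_le_one₀ hb.le hb1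
  have hm0 : 0 ≤ m := by
    rw [hm]
    apply le_min
    · have : 0 ≤ 1 - bb ^ 4 := by linarith
      positivity
    · positivity
  set T : Set ℝ := Ioc (21 / 20 * bb ^ (4 * (k - j + 1))) (21 / 20 * bb ^ (4 * (k - j))) ∩
    Icc ((C.η - C.ε) / bb ^ (4 * j)) ((C.η + C.ε) / bb ^ (4 * j)) with hT
  have hTm : MeasurableSet T := measurableSet_Ioc.inter measurableSet_Icc
  have hTvol : volume T ≤ ENNReal.ofReal m := by
    rw [hm]
    have h1 : volume T ≤ ENNReal.ofReal (21 / 20 * (1 - bb ^ 4) * bb ^ (4 * (k - j))) := by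
      refine (measure_mono inter_subset_left).trans ?_
      rw [Real.volume_Ioc]
      apply le_of_eq
      congr 1
      rw [mul_add, mul_one, pow_add]
      ring
    have h2 : volume T ≤ ENNReal.ofReal (2 * C.ε / bb ^ (4 * j)) := by
      refine (measure_mono inter_subset_right).trans ?_
      rw [Real.volume_Icc]
      apply le_of_eq
      congr 1
      ring
    rcases min_choice (21 / 20 * (1 - bb ^ 4) * bb ^ (4 * (k - j))) (2 * C.ε / bb ^ (4 * j)) with
      h | h <;> rw [h] <;> assumption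

  have hslice : ∀ X Y : ℝ, (X, Y) ∈ S → Y ∈ T ∧ 0 < Y ∧ Y ≤ 21 / 20 ∧
      |bb ^ (4 * j) * Y - C.η| ≤ C.ε ∧ |X| ≤ 1 / 160 ∧ (X, Y) ∉ (C.ch j neg).cov := by
    intro X Y hXY
    obtain ⟨⟨hd, hnc⟩, hl1, hl2⟩ := hXY
    have e1 : (A.map (X, Y)).2 = bb ^ (4 * j) * Y := cY_chart_map_snd j neg (X, Y)
    have e2 : (A.map (X, Y)).1 ^ 2 = bb ^ (4 * j) * X ^ 2 := cY_chart_map_fst_sq j neg (X, Y)
    have hhole : (A.map (X, Y)).1 ^ 2 + ((A.map (X, Y)).2 - C.η) ^ 2 ≤ C.ε ^ 2 := by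
      by_contra hcon
      push Not at hcon
      exact hnc (C.hcov _ _ hd hcon)
    rw [e1, e2] at hhole
    rw [e1] at hl1 hl2
    have hpk : bb ^ (4 * k) = bb ^ (4 * j) * bb ^ (4 * (k - j)) := by
      rw [← pow_add]; congr 1; omega
    have hpk1 : bb ^ (4 * (k + 1)) = bb ^ (4 * j) * bb ^ (4 * (k - j + 1)) := by
      rw [← pow_add]; congr 1; omega
    rw [hpk] at hl2
    rw [hpk1] at hl1
    have hY1 : 21 / 20 * bb ^ (4 * (k - j + 1)) < Y := by
      have : bb ^ (4 * j) * (21 / 20 * bb ^ (4 * (k - j + 1))) < bb ^ (4 * j) * Y := by linarith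
      exact lt_of_mul_lt_mul_left this p4j.le
    have hY2 : Y ≤ 21 / 20 * bb ^ (4 * (k - j)) := by
      have : bb ^ (4 * j) * Y ≤ bb ^ (4 * j) * (21 / 20 * bb ^ (4 * (k - j))) := by linarith
      exact le_of_mul_le_mul_left this p4j
    have hYp : 0 < Y := lt_trans (by positivity) hY1
    have hp1 : bb ^ (4 * (k - j)) ≤ 1 := pow_le_one₀ hb.le hb1
    have hY3 : Y ≤ 21 / 20 := by linarith
    have habs : |bb ^ (4 * j) * Y - C.η| ≤ C.ε := by
      apply abs_le_of_sq_le_sq _ hεp.le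
      have : 0 ≤ bb ^ (4 * j) * X ^ 2 := by positivity
      linarith
    have habs' := abs_le.1 habs
    have hX : X ^ 2 ≤ 2 * C.ε * Y := by
      have h1 : bb ^ (4 * j) * X ^ 2 ≤ bb ^ (4 * j) * (2 * C.ε * Y) := by
        have h3 : bb ^ (4 * j) * X ^ 2 ≤ (C.ε + C.η - bb ^ (4 * j) * Y) * (C.ε - C.η + bb ^ (4 * j) * Y) := by
          nlinarith
        have h4 : (C.ε + C.η - bb ^ (4 * j) * Y) * (C.ε - C.η + bb ^ (4 * j) * Y) ≤
            (2 * C.ε) * (bb ^ (4 * j) * Y) := by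
          apply mul_le_mul
          · linarith
          · have := C.hηε
            linarith
          · linarith
          · linarith
        linarith
      exact le_of_mul_le_mul_left h1 p4j
    refine ⟨⟨⟨hY1, hY2⟩, ?_, ?_⟩, hYp, hY3, habs, ?_, ?_⟩
    · rw [div_le_iff₀ p4j]; linarith
    · rw [le_div_iff₀ p4j]; linarith
    · apply abs_le_of_sq_le_sq _ (by norm_num)
      have : 2 * C.ε * Y ≤ 2 * (1 / 10 ^ 7) * (21 / 20) := by
        apply mul_le_mul <;> linarith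
      norm_num at this ⊢
      linarith
    · intro hc
      exact hnc ((pull_cov C.F A (X, Y)).1 hc)
  have hSvol : volume S ≤ ENNReal.ofReal V * ENNReal.ofReal m := by
    have h1 : volume S = ∫⁻ y : ℝ, volume ((fun x : ℝ => (x, y)) ⁻¹' S) := by
      rw [Measure.volume_eq_prod, Measure.prod_apply_symm hSm]
    rw [h1]
    have h3 : ∀ y : ℝ, volume ((fun x : ℝ => (x, y)) ⁻¹' S) ≤
        T.indicator (fun _ => ENNReal.ofReal V) y := by
      intro y
      by_cases hy : ∃ x, (x, y) ∈ S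
      · obtain ⟨x, hx⟩ := hy
        obtain ⟨k1, k2, k3, k4, -, -⟩ := hslice x y hx
        rw [indicator_of_mem k1]
        refine (measure_mono ?_).trans (hV y k2 k3 k4)
        intro x' hx'
        obtain ⟨-, -, -, -, k5, k6⟩ := hslice x' y hx'
        exact ⟨k5, k6⟩
      · push Not at hy
        have : (fun x : ℝ => (x, y)) ⁻¹' S = ∅ := by
          ext x
          simp [hy x]
        rw [this]
        simp
    calc ∫⁻ y : ℝ, volume ((fun x : ℝ => (x, y)) ⁻¹' S)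
        ≤ ∫⁻ y : ℝ, T.indicator (fun _ => ENNReal.ofReal V) y := lintegral_mono h3
      _ = ENNReal.ofReal V * volume T := by
        rw [lintegral_indicator hTm, setLIntegral_const]
      _ ≤ _ := by gcongr
  have hfin : ENNReal.ofReal g ≤ ENNReal.ofReal (2 / bb ^ (2 * k) * bb ^ (6 * j) * m * V) := by
    refine h2.trans ?_
    rw [hvol]
    have e : 2 / bb ^ (2 * k) * bb ^ (6 * j) * m * V = 2 / bb ^ (2 * k) * (bb ^ (6 * j) * (V * m)) := by
      ring
    rw [e, ENNReal.ofReal_mul (by positivity), ENNReal.ofReal_mul (by positivity),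
      ENNReal.ofReal_mul hV0]
    gcongr
  rwa [ENNReal.ofReal_le_ofReal_iff (by positivity)] at hfin

end B5b

alias caseY := B5b.caseY

end Pool.Agent.Helper934.Ann
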