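import Mathlib
import Pool.Agent.Helper934.AnnJ3
import Pool.Agent.Helper934.AnnA3
import Pool.Agent.Helper934.AnnB1a
import Pool.Agent.Helper934.AnnB1b
import Pool.Agent.Helper934.AnnB2
import Pool.Agent.Helper934.AnnB3a
import Pool.Agent.Helper934.AnnB3b
import Pool.Agent.Helper934.AnnB4a
import Pool.Agent.Helper934.AnnB4b
import Pool.Agent.Helper934.AnnB5a
import Pool.Agent.Helper934.AnnB5b

open MeasureTheory Set
open scoped ENNReal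

namespace Pool.Agent.Helper934.Ann

variable {n : ℕ}

theorem frame_meas (A : Aff) : MeasurableSet (A.map '' QQ) := by
  have hc : Continuous A.map := by
    unfold Aff.map
    fun_prop
  exact ((isCompact_Icc.prod isCompact_Icc).image hc).measurableSet

theorem dsk_meas (c : ℝ × ℝ) (R : ℝ) : MeasurableSet (dsk c R) := (dsk_closed c R).measurableSet

theorem bb4_lo : (99 / 100 : ℝ) < bb ^ 4 := by norm_num [bb]

theorem bb4_hi : bb ^ 4 < (991 / 1000 : ℝ) := by norm_num [bb]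

/-- bound of the overlap in the chart j -/
theorem ov_bound (C : Cfg n) (k : ℕ) (g : ℝ) (h2 : C.P2 k g) (j : ℕ) (hj : j ≤ k) :
    20000 * g / (bb ^ (4 * j) * bb ^ (k - j)) ≤ 20000 * √C.ε := by
  have hg := g_bound C k g h2
  obtain ⟨i, rfl⟩ : ∃ i, k = j + i := ⟨k - j, by omega⟩
  rw [Nat.add_sub_cancel_left]
  have hj4 := bbp_pos (4 * j)
  have hi := bbp_pos i
  rw [div_le_iff₀ (mul_pos hj4 hi)]
  have e1 : bb ^ (4 * (j + i)) = bb ^ (4 * j) * bb ^ i * bb ^ (3 * i) := by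
    rw [← pow_add, ← pow_add]
    congr 1
    ring
  rw [e1] at hg
  have h3 := bbp_le (3 * i)
  have hs := Real.sqrt_nonneg C.ε
  calc 20000 * g ≤ 20000 * (√C.ε * (bb ^ (4 * j) * bb ^ i * bb ^ (3 * i))) := by linarith
    _ ≤ 20000 * (√C.ε * (bb ^ (4 * j) * bb ^ i * 1)) := by gcongr
    _ = _ := by ring

theorem sqrt_small (C : Cfg n) (hε : C.ε ≤ 1 / 10 ^ 70) : √C.ε ≤ 1 / 10 ^ 35 := by
  rw [Real.sqrt_le_iff]
  constructor
  · positivity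
  · calc C.ε ≤ 1 / 10 ^ 70 := hε
      _ = (1 / 10 ^ 35) ^ 2 := by norm_num

theorem ov_kud (C : Cfg n) (hε : C.ε ≤ 1 / 10 ^ 70) (k : ℕ) (g : ℝ) (h2 : C.P2 k g) (j : ℕ)
    (hj : j ≤ k) : 20000 * g / (bb ^ (4 * j) * bb ^ (k - j)) ≤ kud := by
  have h3 := ov_bound C k g h2 j hj
  have h4 := sqrt_small C hε
  have h5 : (20000 : ℝ) * (1 / 10 ^ 35) ≤ kud := by
    unfold kud
    norm_num
  linarith

theorem ov_11 (C : Cfg n) (hε : C.ε ≤ 1 / 10 ^ 70) (k : ℕ) (g : ℝ) (h2 : C.P2 k g) (j : ℕ)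
    (hj : j ≤ k) : 20000 * g / (bb ^ (4 * j) * bb ^ (k - j)) ≤ 1 / 10 ^ 11 := by
  have h3 := ov_kud C hε k g h2 j hj
  have h5 : kud ≤ 1 / 10 ^ 11 := by
    unfold kud
    norm_num
  linarith

theorem dirSR (C : Cfg n) (hε : C.ε ≤ 1 / 10 ^ 70) (k : ℕ) (g : ℝ) (h1 : C.P1 k g)
    (h2 : C.P2 k g) (j : ℕ) (hj : j ≤ k) (neg : Bool) : ∃ e, DirOn (C.ch j neg) SR e := by
  have hε6 : C.ε ≤ 1 / 10 ^ 6 := hε.trans (by norm_num)
  apply ud
  · exact (convex_Icc _ _).prod (convex_Icc _ _)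
  · exact ⟨(3 / 10, 1 / 2), by unfold SR; constructor <;> constructor <;> norm_num⟩
  · rintro p ⟨⟨hp1, hp1'⟩, ⟨hp2, hp2'⟩⟩ q ⟨⟨hq1, hq1'⟩, ⟨hq2, hq2'⟩⟩
    have a1 : |p.1 - q.1| ≤ 2 / 100 := by rw [abs_le]; constructor <;> linarith
    have a2 : |p.2 - q.2| ≤ 111 / 100 := by rw [abs_le]; constructor <;> linarith
    have b1 := sq_le_sq' (by linarith [neg_abs_le (p.1 - q.1)]) ((le_abs_self _).trans a1)
    have b2 := sq_le_sq' (by linarith [neg_abs_le (p.2 - q.2)]) ((le_abs_self _).trans a2)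
    norm_num at b1 b2 ⊢
    linarith
  · intro c hc p hp
    obtain ⟨h3, h4⟩ := sr_geo C.ε C.hε hε6 c hc p hp
    exact reg_cov C j neg p (by have := h3.2.2; linarith) h4
  · intro c hc
    refine (h1 j hj neg (dsk c (1 / 20)) (fun p hp => (sr_geo C.ε C.hε hε6 c hc p hp).1)
      (dsk_meas _ _)).trans ?_
    exact ENNReal.ofReal_le_ofReal (ov_kud C hε k g h2 j hj)

theorem useX (C : Cfg n) (hε : C.ε ≤ 1 / 10 ^ 70) (k : ℕ) (g : ℝ) (hg : 0 < g) (h1 : C.P1 k g)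
    (h2 : C.P2 k g) (j : ℕ) (hj : j ≤ k) (neg : Bool) (e : ℝ × ℝ)
    (he : DirOn (C.ch j neg) SR e) (s : ℝ) (hs : s = -e.1 / e.2) (hs1 : |e.1| ≤ 51 / 100 * |e.2|)
    (Yc : ℝ) (hYc : Yc = 21 / 20 * bb ^ (4 * (k - j)) * (1 + bb ^ 4) / 2)
    (hgeo : ∀ X0 : ℝ, |X0| ≤ 1 / 1000 → ∀ p ∈ (xfr X0 Yc s).map '' QQ,
      p ∈ Reg ∧ 2 * C.ε * p.2 < p.1 ^ 2)
    (hsr : ∀ X0 : ℝ, |X0| ≤ 1 / 1000 → (X0 + 3 / 10, Yc + 3 / 10 * s) ∈ SR)
    (hsmall : 8 * 10 ^ 16 * √(21 / 10 * C.ε) < bb ^ (k - j)) : False := by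
  have hj4 := bbp_pos (4 * j)
  have hi := bbp_pos (k - j)
  have hV := caseX C (hε.trans (by norm_num)) k g h2 j hj neg
    (10 ^ 12 * (20000 * g / (bb ^ (4 * j) * bb ^ (k - j)))) (by positivity) ?_
  · obtain ⟨i, rfl⟩ : ∃ i, k = j + i := ⟨k - j, by omega⟩
    rw [Nat.add_sub_cancel_left] at hV hsmall hi
    have hS := Real.sqrt_nonneg (21 / 10 * C.ε)
    have hbb : bb ≠ 0 := bb_pos.ne'
    have e1 : 2 / bb ^ (2 * (j + i)) * bb ^ (6 * j) * (2 * √(21 / 10 * C.ε) * bb ^ (2 * i)) *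
        (10 ^ 12 * (20000 * g / (bb ^ (4 * j) * bb ^ i))) =
        8 * 10 ^ 16 * √(21 / 10 * C.ε) * g / bb ^ i := by
      field_simp
      ring
    rw [e1, le_div_iff₀ hi] at hV
    nlinarith
  · intro X0 hX0
    have hcov : (xfr X0 Yc s).map '' QQ ⊆ (C.ch j neg).cov := by
      intro p hp
      obtain ⟨h3, h4⟩ := hgeo X0 hX0 p hp
      exact reg_cov C j neg p (by have := h3.2.2; linarith) h4
    have hP := h1 j hj neg ((xfr X0 Yc s).map '' QQ) (fun p hp => (hgeo X0 hX0 p hp).1)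
      (frame_meas _)
    have hx := xf (C.ch j neg) X0 Yc e he.1 hs1 s hs hcov
      (hP.trans (ENNReal.ofReal_le_ofReal (ov_11 C hε k g h2 j hj))) (he.2 _ (hsr X0 hX0))
    refine (measure_mono ?_).trans (hx.trans ?_)
    · rintro Y ⟨hY1, hY2, hY3⟩
      refine ⟨?_, hY1⟩
      have e2 : bb ^ (4 * (k - j + 1)) = bb ^ (4 * (k - j)) * bb ^ 4 := by
        rw [← pow_add]
        congr 1
      rw [e2] at hY2
      have h5 := bb4_lo
      have h6 := bb4_hi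
      have h7 := bbp_pos (4 * (k - j))
      have h8 := bbp_le (4 * (k - j))
      rw [hYc, abs_le]
      constructor <;> nlinarith
    · calc ENNReal.ofReal (10 ^ 12) * ∫⁻ p in (xfr X0 Yc s).map '' QQ, (C.ch j neg).ov p
          ≤ ENNReal.ofReal (10 ^ 12) *
            ENNReal.ofReal (20000 * g / (bb ^ (4 * j) * bb ^ (k - j))) := by gcongr
        _ = _ := (ENNReal.ofReal_mul (by norm_num)).symm

theorem useY (C : Cfg n) (hε : C.ε ≤ 1 / 10 ^ 70) (k : ℕ) (g : ℝ) (hg : 0 < g) (h1 : C.P1 k g)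
    (h2 : C.P2 k g) (j : ℕ) (hj : j ≤ k) (neg : Bool)
    (hE : ∀ Y0 : ℝ, 0 < Y0 → Y0 ≤ 21 / 20 → |bb ^ (4 * j) * Y0 - C.η| ≤ C.ε →
      ∃ (e : ℝ × ℝ) (ρ : ℝ), e.1 ^ 2 + e.2 ^ 2 = 1 ∧ |e.2| ≤ 41 / 20 * |e.1| ∧ ρ = -e.2 / e.1 ∧
        (yfr Y0 ρ).map '' QQ ⊆ (C.ch j neg).cov ∧ (yfr Y0 ρ).map '' QQ ⊆ Reg ∧
        ∑ i ∈ (C.ch j neg).far2 e, (C.ch j neg).cw i (3 / 20 * ρ, Y0 + 3 / 20) (1 / 40) ≤ 1 / 4000)
    (hsmall : 8 * 10 ^ 16 * (min (21 / 20 * (1 - bb ^ 4) * bb ^ (4 * (k - j)))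
      (2 * C.ε / bb ^ (4 * j))) < bb ^ (3 * (k - j))) : False := by
  have hj4 := bbp_pos (4 * j)
  have hi := bbp_pos (k - j)
  have hV := caseY C (hε.trans (by norm_num)) k g h2 j hj neg
    (2 * 10 ^ 12 * (20000 * g / (bb ^ (4 * j) * bb ^ (k - j)))) (by positivity) ?_
  · obtain ⟨i, rfl⟩ : ∃ i, k = j + i := ⟨k - j, by omega⟩
    rw [Nat.add_sub_cancel_left] at hV hsmall hi
    set M := min (21 / 20 * (1 - bb ^ 4) * bb ^ (4 * i)) (2 * C.ε / bb ^ (4 * j)) with hM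
    have hbb : bb ≠ 0 := bb_pos.ne'
    have hi3 := bbp_pos (3 * i)
    have e1 : 2 / bb ^ (2 * (j + i)) * bb ^ (6 * j) * M *
        (2 * 10 ^ 12 * (20000 * g / (bb ^ (4 * j) * bb ^ i))) =
        8 * 10 ^ 16 * M * g / bb ^ (3 * i) := by
      field_simp
      ring
    rw [e1, le_div_iff₀ hi3] at hV
    nlinarith
  · intro Y0 hY0 hY1 hYη
    obtain ⟨e, ρ, he, hr, hρ, hcov, hreg, hdir⟩ := hE Y0 hY0 hY1 hYη
    have hP := h1 j hj neg ((yfr Y0 ρ).map '' QQ) hreg (frame_meas _)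
    have hx := yf (C.ch j neg) Y0 e he hr ρ hρ hcov
      (hP.trans (ENNReal.ofReal_le_ofReal (ov_11 C hε k g h2 j hj))) hdir
    refine hx.trans ?_
    calc ENNReal.ofReal (2 * 10 ^ 12) * ∫⁻ p in (yfr Y0 ρ).map '' QQ, (C.ch j neg).ov p
          ≤ ENNReal.ofReal (2 * 10 ^ 12) *
            ENNReal.ofReal (20000 * g / (bb ^ (4 * j) * bb ^ (k - j))) := by gcongr
        _ = _ := (ENNReal.ofReal_mul (by norm_num)).symm

end Pool.Agent.Helper934.Ann
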