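import Mathlib
import Pool.Agent.Helper934.AnnC1

open MeasureTheory Set
open scoped ENNReal

namespace Pool.Agent.Helper934.Ann

variable {n : ℕ}

theorem unit_lo2 (e : ℝ × ℝ) (he : e.1 ^ 2 + e.2 ^ 2 = 1) (h : |e.1| ≤ 1 / 2 * |e.2|) :
    89 / 100 ≤ |e.2| := by
  have h1 := sq_abs e.1
  have h2 := sq_abs e.2
  have h3 := abs_nonneg e.1
  have h4 := abs_nonneg e.2
  by_contra h5
  push Not at h5
  nlinarith

/-- A dominant direction of moderate slope, on one side or on the other one. -/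
theorem tilt (C : Cfg n) (j : ℕ) (e e' : ℝ × ℝ) (h : DirOn (C.ch j false) SR e)
    (h' : DirOn (C.ch j true) SR e')
    (hcov : dsk (3 / 10, 1 / 2) (1 / 20) ⊆ (C.ch j false).cov)
    (hs : |e.1| ≤ 1 / 2 * |e.2|) (hs2 : 494 / 1000 * |e.2| ≤ |e.1|) :
    ∃ (neg : Bool) (f : ℝ × ℝ), DirOn (C.ch j neg) SR f ∧ f.2 ≠ 0 ∧
      49 / 100 ≤ -f.1 / f.2 ∧ -f.1 / f.2 ≤ 51 / 100 := by
  have hl := unit_lo2 e h.1 hs
  have he2 : e.2 ≠ 0 := by
    intro h0
    rw [h0, abs_zero] at hl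
    norm_num at hl
  have hS : |(-e.1 / e.2)| = |e.1| / |e.2| := by rw [abs_div, abs_neg]
  have hS1 : |(-e.1 / e.2)| ≤ 1 / 2 := by
    rw [hS, div_le_iff₀ (by linarith)]
    exact hs
  have hS2 : 494 / 1000 ≤ |(-e.1 / e.2)| := by
    rw [hS, le_div_iff₀ (by linarith)]
    exact hs2
  rcases le_or_gt 0 (-e.1 / e.2) with hpos | hneg
  · rw [abs_of_nonneg hpos] at hS1 hS2
    exact ⟨false, e, h, he2, by linarith, by linarith⟩
  · rw [abs_of_neg hneg] at hS1 hS2
    have ht := tr C j e e' h h' hcov hs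
    have h'1 := h'.1

    have a1 : |e.2| * |e'.1| ≤ 1 / 2500 + |e.1| * |e'.2| := by
      rw [← abs_mul, ← abs_mul]
      have := abs_sub_abs_le_abs_sub (e.2 * e'.1) (-(e.1 * e'.2))
      rw [abs_neg] at this
      have h9 : e.2 * e'.1 - -(e.1 * e'.2) = e.1 * e'.2 + e.2 * e'.1 := by ring
      rw [h9] at this
      linarith
    have q1 := sq_abs e'.1
    have q2 := sq_abs e'.2
    have q3 := abs_nonneg e'.1
    have q4 := abs_nonneg e'.2
    have a2 : |e'.1| ≤ 1 / 2000 + 1 / 2 * |e'.2| := by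
      have : |e.1| * |e'.2| ≤ 1 / 2 * |e.2| * |e'.2| := by gcongr
      by_contra h5
      push Not at h5
      have : |e.2| * (1 / 2000 + 1 / 2 * |e'.2|) < |e.2| * |e'.1| :=
        mul_lt_mul_of_pos_left h5 (by linarith)
      nlinarith
    have a3 : 4 / 5 ≤ |e'.2| := by
      by_contra h5
      push Not at h5
      nlinarith
    have he'2 : e'.2 ≠ 0 := by
      intro h0
      rw [h0, abs_zero] at a3
      norm_num at a3
    have key : |(-e.1 / e.2) + (-e'.1 / e'.2)| ≤ 6 / 10000 := by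
      have e1 : (-e.1 / e.2) + (-e'.1 / e'.2) = -(e.1 * e'.2 + e.2 * e'.1) / (e.2 * e'.2) := by
        field_simp
        ring
      rw [e1, abs_div, abs_neg, abs_mul, div_le_iff₀ (by positivity)]
      nlinarith
    rw [abs_le] at key
    exact ⟨true, e', h', he'2, by linarith [key.1, key.2], by linarith [key.1, key.2]⟩

theorem stageB_caseB (K1 : ℕ) (hK1 : bb ^ K1 < 1 / 10 ^ 15) (C : Cfg n) (hε : C.ε ≤ 1 / 10 ^ 70)
    (hε2 : √C.ε ≤ bb ^ K1 / 10 ^ 18) (k : ℕ) (g : ℝ) (hg : 0 < g) (h1 : C.P1 k g) (h2 : C.P2 k g)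
    (j : ℕ) (hj : j ≤ k) (neg : Bool) (f : ℝ × ℝ) (hf : DirOn (C.ch j neg) SR f) (hf2 : f.2 ≠ 0)
    (hs1 : 49 / 100 ≤ -f.1 / f.2) (hs2 : -f.1 / f.2 ≤ 51 / 100) : False := by
  have hε6 : C.ε ≤ 1 / 10 ^ 6 := hε.trans (by norm_num)
  have h5 := bb4_lo
  have h6 := bb4_hi
  have h7 := bbp_pos (4 * (k - j))
  have h8 := bbp_le (4 * (k - j))
  have hf2' : 0 < |f.2| := abs_pos.mpr hf2
  have hS : |(-f.1 / f.2)| = |f.1| / |f.2| := by rw [abs_div, abs_neg]
  rw [abs_of_nonneg (by linarith)] at hS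
  rcases lt_or_ge (k - j) K1 with hi | hi
  ·
    set Yc : ℝ := 21 / 20 * bb ^ (4 * (k - j)) * (1 + bb ^ 4) / 2 with hYc
    have hY0 : 0 ≤ Yc := by positivity
    have hY1 : Yc ≤ 21 / 20 := by
      rw [hYc]
      nlinarith
    refine useX C hε k g hg h1 h2 j hj neg f hf _ rfl ?_ Yc hYc ?_ ?_ ?_
    · have : |f.1| / |f.2| ≤ 51 / 100 := by rw [← hS]; exact hs2
      rwa [div_le_iff₀ hf2'] at this
    · intro X0 hX0
      exact xgeo_b C.ε X0 Yc _ C.hε hε6 hX0 hY0 hY1 hs1 hs2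
    · intro X0 hX0
      rw [abs_le] at hX0
      unfold SR
      constructor <;> constructor <;> simp only <;> linarith
    · have e1 : √(21 / 10 * C.ε) ≤ 2 * √C.ε := by
        rw [show (2:ℝ) * √C.ε = √(4 * C.ε) by
          rw [Real.sqrt_mul (by norm_num), show (4:ℝ) = 2 ^ 2 by norm_num,
            Real.sqrt_sq (by norm_num)]]
        apply Real.sqrt_le_sqrt
        linarith [C.hε]
      have e2 : bb ^ K1 ≤ bb ^ (k - j) := pow_le_pow_of_le_one bb_pos.le bb_lt.le hi.le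
      have e3 := bbp_pos K1
      calc 8 * 10 ^ 16 * √(21 / 10 * C.ε) ≤ 8 * 10 ^ 16 * (2 * (bb ^ K1 / 10 ^ 18)) := by
            gcongr
            exact e1.trans (by gcongr)
        _ < bb ^ K1 := by
            have : 8 * 10 ^ 16 * (2 * (bb ^ K1 / 10 ^ 18)) = 16 / 100 * bb ^ K1 := by ring
            rw [this]
            linarith
        _ ≤ _ := e2
  ·
    have hf1 : f.1 ≠ 0 := by
      intro h0
      rw [h0] at hs1
      norm_num at hs1
    have hf1' : 0 < |f.1| := abs_pos.mpr hf1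
    have hρ : -f.2 / f.1 = 1 / (-f.1 / f.2) := by
      field_simp
    have hρ1 : 100 / 51 ≤ -f.2 / f.1 := by
      rw [hρ, le_div_iff₀ (by linarith)]
      linarith
    have hρ2 : -f.2 / f.1 ≤ 100 / 49 := by
      rw [hρ, div_le_iff₀ (by linarith)]
      linarith
    refine useY C hε k g hg h1 h2 j hj neg ?_ ?_
    · intro Y0 hY0 hY1 hYη
      have hgeo := ygeo_b C.ε Y0 (-f.2 / f.1) C.hε hε6 hY0.le hY1 hρ1 hρ2
      refine ⟨f, -f.2 / f.1, hf.1, ?_, rfl, ?_, fun p hp => (hgeo p hp).1, hf.2 _ ?_⟩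
      · have h9 : |(-f.2 / f.1)| = |f.2| / |f.1| := by rw [abs_div, abs_neg]
        rw [abs_of_nonneg (by linarith)] at h9
        have : |f.2| / |f.1| ≤ 41 / 20 := by rw [← h9]; linarith
        rwa [div_le_iff₀ hf1'] at this
      · intro p hp
        obtain ⟨h3, h4⟩ := hgeo p hp
        exact reg_cov C j neg p (by have := h3.2.2; linarith) h4
      · unfold SR
        constructor <;> constructor <;> simp only <;> linarith
    · have e2 : bb ^ (k - j) ≤ bb ^ K1 := pow_le_pow_of_le_one bb_pos.le bb_lt.le hi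
      have hi0 := bbp_pos (k - j)
      have hi3 := bbp_pos (3 * (k - j))
      have e4 : bb ^ (4 * (k - j)) = bb ^ (3 * (k - j)) * bb ^ (k - j) := by
        rw [← pow_add]
        congr 1
        ring
      calc 8 * 10 ^ 16 * min (21 / 20 * (1 - bb ^ 4) * bb ^ (4 * (k - j))) (2 * C.ε / bb ^ (4 * j))
          ≤ 8 * 10 ^ 16 * (21 / 20 * (1 - bb ^ 4) * bb ^ (4 * (k - j))) := by
            gcongr
            exact min_le_left _ _
        _ ≤ 8 * 10 ^ 16 * (21 / 20 * (1 / 100) * bb ^ (4 * (k - j))) := by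
            gcongr
            linarith
        _ = (84 / 100 * 10 ^ 15 * bb ^ (k - j)) * bb ^ (3 * (k - j)) := by
            rw [e4]
            ring
        _ < 1 * bb ^ (3 * (k - j)) := by
            apply mul_lt_mul_of_pos_right _ hi3
            have : bb ^ (k - j) < 1 / 10 ^ 15 := lt_of_le_of_lt e2 hK1
            norm_num at this ⊢
            linarith
        _ = _ := one_mul _

theorem stageB_caseA (C : Cfg n) (hε : C.ε ≤ 1 / 10 ^ 70) (k : ℕ) (g : ℝ) (hg : 0 < g)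
    (h1 : C.P1 k g) (h2 : C.P2 k g) (f : ℝ × ℝ) (hf : DirOn (C.ch k false) SR f)
    (hs : |f.1| ≤ 1 / 2 * |f.2|) : False := by
  have hε6 : C.ε ≤ 1 / 10 ^ 6 := hε.trans (by norm_num)
  have h5 := bb4_lo
  have h6 := bb4_hi
  have hl := unit_lo2 f hf.1 hs
  have hS : |(-f.1 / f.2)| = |f.1| / |f.2| := by rw [abs_div, abs_neg]
  have hS1 : |(-f.1 / f.2)| ≤ 1 / 2 := by
    rw [hS, div_le_iff₀ (by linarith)]
    exact hs
  have hS1' := abs_le.mp hS1
  set Yc : ℝ := 21 / 20 * bb ^ (4 * (k - k)) * (1 + bb ^ 4) / 2 with hYc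
  have hYc' : Yc = 21 / 20 * (1 + bb ^ 4) / 2 := by
    rw [hYc, Nat.sub_self, mul_zero, pow_zero, mul_one]
  have hY0 : 103 / 100 ≤ Yc := by
    rw [hYc']
    linarith
  have hY1 : Yc ≤ 21 / 20 := by
    rw [hYc']
    linarith
  refine useX C hε k g hg h1 h2 k le_rfl false f hf _ rfl ?_ Yc hYc ?_ ?_ ?_
  · linarith [abs_nonneg f.2]
  · intro X0 hX0
    exact xgeo_a C.ε X0 Yc _ C.hε hε6 hX0 hY0 hY1 hS1
  · intro X0 hX0
    rw [abs_le] at hX0
    unfold SR
    constructor <;> constructor <;> simp only <;> linarith [hS1'.1, hS1'.2]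
  · rw [Nat.sub_self, pow_zero]
    have e1 : √(21 / 10 * C.ε) ≤ 2 * √C.ε := by
      rw [show (2:ℝ) * √C.ε = √(4 * C.ε) by
        rw [Real.sqrt_mul (by norm_num), show (4:ℝ) = 2 ^ 2 by norm_num,
          Real.sqrt_sq (by norm_num)]]
      apply Real.sqrt_le_sqrt
      linarith [C.hε]
    have e2 := sqrt_small C hε
    calc 8 * 10 ^ 16 * √(21 / 10 * C.ε) ≤ 8 * 10 ^ 16 * (2 * (1 / 10 ^ 35)) := by
          gcongr
          exact e1.trans (by gcongr)
      _ < 1 := by norm_num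

theorem stageB_caseC (C : Cfg n) (hε : C.ε ≤ 1 / 10 ^ 70) (k : ℕ) (g : ℝ) (hg : 0 < g)
    (h1 : C.P1 k g) (h2 : C.P2 k g) (f : ℝ × ℝ) (hf : DirOn (C.ch 0 false) SR f)
    (hs : 1 / 2 * |f.2| < |f.1|) : False := by
  have hε6 : C.ε ≤ 1 / 10 ^ 6 := hε.trans (by norm_num)
  have h5 := bb4_lo
  have h6 := bb4_hi
  refine useY C hε k g hg h1 h2 0 (Nat.zero_le _) false ?_ ?_
  · intro Y0 hY0 hY1 hYη
    rw [mul_zero, pow_zero, one_mul] at hYη
    rw [abs_le] at hYη
    have hηY : C.η + C.ε ≤ Y0 + 2 * C.ε := by linarith [hYη.1]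

    set S2 : Set (ℝ × ℝ) := Icc (-(31 / 100) : ℝ) (31 / 100) ×ˢ {Y0 + 3 / 20} with hS2
    have hmem : ∀ c ∈ S2, |c.1| ≤ 31 / 100 ∧ c.2 = Y0 + 3 / 20 := by
      rintro c ⟨⟨hc1, hc1'⟩, hc2⟩
      exact ⟨abs_le.mpr ⟨by linarith, hc1'⟩, hc2⟩
    have hgeoc : ∀ c ∈ S2, ∀ p ∈ dsk c (1 / 20), p ∈ Reg ∧ C.η + C.ε < p.2 := by
      intro c hc p hp
      obtain ⟨hc1, hc2⟩ := hmem c hc
      obtain ⟨h3, h4⟩ := s2_geo c hc1 (by rw [hc2]; linarith) (by rw [hc2]; linarith) p hp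
      refine ⟨h3, ?_⟩
      rw [hc2] at h4
      have : C.ε ≤ 1 / 10 ^ 6 := hε6
      norm_num at this
      linarith
    obtain ⟨e, he⟩ : ∃ e, DirOn (C.ch 0 false) S2 e := by
      apply ud
      · exact (convex_Icc _ _).prod (convex_singleton _)
      · exact ⟨(0, Y0 + 3 / 20), by rw [hS2]; exact ⟨⟨by norm_num, by norm_num⟩, rfl⟩⟩
      · intro p hp q hq
        obtain ⟨a1, a2⟩ := hmem p hp
        obtain ⟨b1, b2⟩ := hmem q hq
        rw [abs_le] at a1 b1
        rw [a2, b2, sub_self]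
        nlinarith [a1.1, a1.2, b1.1, b1.2]
      · intro c hc p hp
        obtain ⟨h3, h4⟩ := hgeoc c hc p hp
        exact reg_cov0 C false p (by have := h3.2.2; linarith) h4
      · intro c hc
        refine (h1 0 (Nat.zero_le _) false (dsk c (1 / 20)) (fun p hp => (hgeoc c hc p hp).1)
          (dsk_meas _ _)).trans ?_
        exact ENNReal.ofReal_le_ofReal (ov_kud C hε k g h2 0 (Nat.zero_le _))

    have hc1 : ((3 / 10 : ℝ), Y0 + 3 / 20) ∈ SR := by
      unfold SR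
      constructor <;> constructor <;> simp only <;> linarith
    have hc2 : ((3 / 10 : ℝ), Y0 + 3 / 20) ∈ S2 := by
      rw [hS2]
      exact ⟨⟨by norm_num, by norm_num⟩, rfl⟩
    have hlink := dir_link (C.ch 0 false) SR S2 f e hf he _ hc1 hc2 (by
      intro p hp
      obtain ⟨h3, h4⟩ := hgeoc _ hc2 p hp
      exact reg_cov0 C false p (by have := h3.2.2; linarith) h4)
    have hf1 := hf.1
    have he1 := he.1
    have r1 := sq_abs f.1
    have r2 := sq_abs f.2
    have r3 := abs_nonneg f.1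
    have r4 := abs_nonneg f.2
    have q1 := sq_abs e.1
    have q2 := sq_abs e.2
    have q3 := abs_nonneg e.1
    have q4 := abs_nonneg e.2
    have t1 : 44 / 100 ≤ |f.1| := by
      by_contra h9
      push Not at h9
      nlinarith
    have t2 : |f.1| * |e.2| ≤ 1 / 10000 + |f.2| * |e.1| := by
      rw [← abs_mul, ← abs_mul]
      have := abs_sub_abs_le_abs_sub (f.1 * e.2) (f.2 * e.1)
      linarith
    have t3 : |e.2| ≤ 1 / 4000 + 2 * |e.1| := by
      by_contra h9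
      push Not at h9
      have u1 : |f.1| * (1 / 4000 + 2 * |e.1|) < |f.1| * |e.2| :=
        mul_lt_mul_of_pos_left h9 (by linarith)
      have u2 : |f.2| * |e.1| ≤ 2 * |f.1| * |e.1| := by
        apply mul_le_mul_of_nonneg_right _ q3
        linarith
      nlinarith
    have t4 : 1 / 100 ≤ |e.1| := by
      by_contra h9
      push Not at h9
      nlinarith
    have hratio : |e.2| ≤ 41 / 20 * |e.1| := by linarith
    have hρ : |(-e.2 / e.1)| ≤ 41 / 20 := by
      rw [abs_div, abs_neg, div_le_iff₀ (by linarith)]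
      exact hratio
    have hρ' := abs_le.mp hρ
    have hgeo := ygeo_0 Y0 (-e.2 / e.1) hY0.le hY1 hρ
    refine ⟨e, -e.2 / e.1, he.1, hratio, rfl, ?_, fun p hp => (hgeo p hp).1, he.2 _ ?_⟩
    · intro p hp
      obtain ⟨h3, h4⟩ := hgeo p hp
      refine reg_cov0 C false p (by have := h3.2.2; linarith) ?_
      have : C.ε ≤ 1 / 10 ^ 6 := hε6
      norm_num at this
      linarith
    · rw [hS2]
      refine ⟨⟨?_, ?_⟩, rfl⟩ <;> simp only <;> linarith [hρ'.1, hρ'.2]
  · rw [Nat.sub_zero, mul_zero, pow_zero, div_one]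
    have hi0 := bbp_pos k
    have hi3 := bbp_pos (3 * k)
    have hi4 := bbp_pos (4 * k)
    rcases lt_or_ge (bb ^ k) (1 / 10 ^ 15) with hk | hk
    · have e4 : bb ^ (4 * k) = bb ^ (3 * k) * bb ^ k := by
        rw [← pow_add]
        congr 1
        ring
      calc 8 * 10 ^ 16 * min (21 / 20 * (1 - bb ^ 4) * bb ^ (4 * k)) (2 * C.ε)
          ≤ 8 * 10 ^ 16 * (21 / 20 * (1 - bb ^ 4) * bb ^ (4 * k)) := by
            gcongr
            exact min_le_left _ _
        _ ≤ 8 * 10 ^ 16 * (21 / 20 * (1 / 100) * bb ^ (4 * k)) := by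
            gcongr
            linarith
        _ = (84 / 100 * 10 ^ 15 * bb ^ k) * bb ^ (3 * k) := by
            rw [e4]
            ring
        _ < 1 * bb ^ (3 * k) := by
            apply mul_lt_mul_of_pos_right _ hi3
            norm_num at hk ⊢
            linarith
        _ = _ := one_mul _
    · calc 8 * 10 ^ 16 * min (21 / 20 * (1 - bb ^ 4) * bb ^ (4 * k)) (2 * C.ε)
          ≤ 8 * 10 ^ 16 * (2 * C.ε) := by
            gcongr
            exact min_le_right _ _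
        _ ≤ 8 * 10 ^ 16 * (2 * (1 / 10 ^ 70)) := by gcongr
        _ < (1 / 10 ^ 15) ^ 3 := by norm_num
        _ ≤ (bb ^ k) ^ 3 := by gcongr
        _ = bb ^ (3 * k) := by rw [← pow_mul, mul_comm]

theorem stageB : ∃ ε0 : ℝ, 0 < ε0 ∧ ∀ (n : ℕ) (C : Cfg n), C.ε ≤ ε0 →
    ∀ (k : ℕ) (g : ℝ), 0 < g → C.P1 k g → C.P2 k g → False := by
  obtain ⟨K1, hK1⟩ := exists_pow_lt_of_lt_one (show (0:ℝ) < 1 / 10 ^ 15 by norm_num) bb_lt
  have hb := bbp_pos K1
  refine ⟨min (1 / 10 ^ 70) ((bb ^ K1 / 10 ^ 18) ^ 2), by positivity, ?_⟩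
  intro n C hε k g hg h1 h2
  have hε1 : C.ε ≤ 1 / 10 ^ 70 := hε.trans (min_le_left _ _)
  have hε2 : √C.ε ≤ bb ^ K1 / 10 ^ 18 := by
    rw [Real.sqrt_le_iff]
    exact ⟨by positivity, hε.trans (min_le_right _ _)⟩
  have hε6 : C.ε ≤ 1 / 10 ^ 6 := hε1.trans (by norm_num)
  have hE : ∀ j ≤ k, ∀ neg, ∃ e, DirOn (C.ch j neg) SR e :=
    fun j hj neg => dirSR C hε1 k g h1 h2 j hj neg
  have hcen : ((3 / 10 : ℝ), (1 / 2 : ℝ)) ∈ SR := by
    unfold SR
    constructor <;> constructor <;> norm_num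
  have hcen_cov : ∀ j neg, dsk (3 / 10, 1 / 2) (1 / 20) ⊆ (C.ch j neg).cov := by
    intro j neg p hp
    obtain ⟨h3, h4⟩ := sr_geo C.ε C.hε hε6 _ hcen p hp
    exact reg_cov C j neg p (by have := h3.2.2; linarith) h4
  choose! E hE using hE
  have hsteep : ∀ j ≤ k, 1 / 2 * |(E j false).2| < |(E j false).1| := by
    intro j hj
    induction' hm : k - j with m ih generalizing j
    ·
      obtain rfl : j = k := by omega
      by_contra hns
      push Not at hns
      exact stageB_caseA C hε1 j g hg h1 h2 _ (hE j le_rfl false) hns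
    · have hj1 := ih (j + 1) (by omega) (by omega)
      by_contra hns
      push Not at hns
      have ha := adj C j false _ _ (hE (j + 1) (by omega) false) (hE j hj false)
        (hcen_cov (j + 1) false) hj1
      obtain ⟨neg, f, hf, hf2, hs1, hs2⟩ := tilt C j _ _ (hE j hj false) (hE j hj true)
        (hcen_cov j false) hns ha
      exact stageB_caseB K1 hK1 C hε1 hε2 k g hg h1 h2 j hj neg f hf hf2 hs1 hs2
  exact stageB_caseC C hε1 k g hg h1 h2 _ (hE 0 (Nat.zero_le _) false) (hsteep 0 (Nat.zero_le _))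

end Pool.Agent.Helper934.Ann
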