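import Mathlib

open MeasureTheory Set

namespace Pool.Agent.Helper934.BP

theorem bang_volume {d n : ℕ} (hd : 2 ≤ d) (u : Fin n → EuclideanSpace ℝ (Fin d))
    (a w : Fin n → ℝ) (hu : ∀ i, ‖u i‖ = 1) (hw : ∀ i, 0 ≤ w i) :
    volume {x : EuclideanSpace ℝ (Fin d) | ∀ ε : Fin n → ℝ, (∀ i, |ε i| ≤ 1) →
        ‖x + ∑ i, (ε i * (w i / 2)) • u i‖ ≤ 1} ≤
      volume (Metric.closedBall (0 : EuclideanSpace ℝ (Fin d)) 1 \
        ⋃ i, {x : EuclideanSpace ℝ (Fin d) |
          a i < inner ℝ (u i) x ∧ inner ℝ (u i) x < a i + w i}) := by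
  classical
  let sg : (Fin n → Bool) → Fin n → ℝ := fun σ i => if σ i then 1 else -1
  have hsg : ∀ σ i, |sg σ i| = 1 := by
    intro σ i
    simp only [sg]
    split_ifs <;> simp
  have hsg2 : ∀ σ i, sg σ i * sg σ i = 1 := by
    intro σ i
    rw [← abs_mul_abs_self, hsg, one_mul]
  let z : (Fin n → Bool) → EuclideanSpace ℝ (Fin d) := fun σ => ∑ i, (sg σ i * (w i / 2)) • u i
  let Φ : (Fin n → Bool) → EuclideanSpace ℝ (Fin d) → ℝ := fun σ x =>
    ‖z σ‖ ^ 2 + 2 * inner ℝ x (z σ) - ∑ i, sg σ i * w i * (a i + w i / 2)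
  have hmax : ∀ x, ∃ σ, ∀ τ, Φ τ x ≤ Φ σ x := by
    intro x
    obtain ⟨σ, _, hσ⟩ := Finset.exists_max_image (Finset.univ : Finset (Fin n → Bool))
      (fun σ => Φ σ x) ⟨fun _ => true, Finset.mem_univ _⟩
    exact ⟨σ, fun τ => hσ τ (Finset.mem_univ _)⟩
  choose e he using hmax
  let T : EuclideanSpace ℝ (Fin d) → EuclideanSpace ℝ (Fin d) := fun x => x + z (e x)
  have hanti : AntilipschitzWith 1 T := by
    apply AntilipschitzWith.of_le_mul_dist
    intro x y
    rw [NNReal.coe_one, one_mul, dist_eq_norm, dist_eq_norm]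
    have h1 := he x (e y)
    have h2 := he y (e x)
    have h3 : 0 ≤ inner ℝ (x - y) (z (e x) - z (e y)) := by
      rw [inner_sub_left, inner_sub_right, inner_sub_right]
      simp only [Φ] at h1 h2
      linarith
    have h4 : T x - T y = (x - y) + (z (e x) - z (e y)) := by
      simp only [T]; abel
    rw [h4]
    have h5 : ‖x - y‖ ^ 2 ≤ ‖(x - y) + (z (e x) - z (e y))‖ ^ 2 := by
      rw [norm_add_sq_real]
      nlinarith [sq_nonneg ‖z (e x) - z (e y)‖]
    exact le_of_sq_le_sq h5 (norm_nonneg _)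
  have hslab : ∀ x i, ¬ (a i < inner ℝ (u i) (T x) ∧ inner ℝ (u i) (T x) < a i + w i) := by
    intro x i hcon
    have hwi : 0 < w i := by linarith [hcon.1, hcon.2]
    let τ : Fin n → Bool := Function.update (e x) i (!(e x i))
    have hτi : sg τ i = - sg (e x) i := by
      simp only [sg, τ, Function.update_self]
      cases e x i <;> simp
    have hτj : ∀ j, j ≠ i → sg τ j = sg (e x) j := by
      intro j hj
      simp only [sg, τ, Function.update_of_ne hj]
    have hz : z τ = z (e x) - (sg (e x) i * w i) • u i := by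
      simp only [z]
      rw [← Finset.add_sum_erase _ _ (Finset.mem_univ i),
        ← Finset.add_sum_erase _ (fun j => (sg (e x) j * (w j / 2)) • u j) (Finset.mem_univ i), hτi]
      have : ∑ j ∈ Finset.univ.erase i, (sg τ j * (w j / 2)) • u j =
          ∑ j ∈ Finset.univ.erase i, (sg (e x) j * (w j / 2)) • u j := by
        apply Finset.sum_congr rfl
        intro j hj
        rw [hτj j (Finset.ne_of_mem_erase hj)]
      rw [this]
      module
    have hs : ∑ j, sg τ j * w j * (a j + w j / 2) =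
        ∑ j, sg (e x) j * w j * (a j + w j / 2) - 2 * (sg (e x) i * w i * (a i + w i / 2)) := by
      rw [← Finset.add_sum_erase _ _ (Finset.mem_univ i),
        ← Finset.add_sum_erase _ (fun j => sg (e x) j * w j * (a j + w j / 2))
          (Finset.mem_univ i), hτi]
      have : ∑ j ∈ Finset.univ.erase i, sg τ j * w j * (a j + w j / 2) =
          ∑ j ∈ Finset.univ.erase i, sg (e x) j * w j * (a j + w j / 2) := by
        apply Finset.sum_congr rfl
        intro j hj
        rw [hτj j (Finset.ne_of_mem_erase hj)]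
      rw [this]
      ring
    have h1 := he x τ
    simp only [Φ] at h1
    rw [hz, hs] at h1
    have h2 : ‖z (e x) - (sg (e x) i * w i) • u i‖ ^ 2 =
        ‖z (e x)‖ ^ 2 - 2 * (sg (e x) i * w i) * inner ℝ (u i) (z (e x)) + w i ^ 2 := by
      rw [norm_sub_sq_real, norm_smul, hu, mul_one, inner_smul_right, real_inner_comm,
        Real.norm_eq_abs, sq_abs, mul_pow, sq (sg (e x) i), hsg2]
      ring
    rw [h2, inner_sub_right, inner_smul_right] at h1
    have h3 : inner ℝ (u i) (T x) = inner ℝ (u i) x + inner ℝ (u i) (z (e x)) := by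
      simp only [T]
      rw [inner_add_right]
    have h4 : inner ℝ x (u i) = inner ℝ (u i) x := real_inner_comm _ _
    rw [h4] at h1
    set p := inner ℝ (u i) x
    set q := inner ℝ (u i) (z (e x))
    have h5 : 0 ≤ w i * (2 * sg (e x) i * (q + p - (a i + w i / 2)) - w i) := by
      nlinarith
    have h6 : 0 ≤ 2 * sg (e x) i * (q + p - (a i + w i / 2)) - w i :=
      nonneg_of_mul_nonneg_right h5 hwi
    rw [h3] at hcon
    have h7 : sg (e x) i = 1 ∨ sg (e x) i = -1 := by
      simp only [sg]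
      split_ifs <;> simp
    rcases h7 with h7 | h7
    · rw [h7] at h6
      linarith [hcon.2]
    · rw [h7] at h6
      linarith [hcon.1]
  -- comparison of measures
  set K := {x : EuclideanSpace ℝ (Fin d) | ∀ ε : Fin n → ℝ, (∀ i, |ε i| ≤ 1) →
        ‖x + ∑ i, (ε i * (w i / 2)) • u i‖ ≤ 1} with hK
  have hTK : T '' K ⊆ (Metric.closedBall (0 : EuclideanSpace ℝ (Fin d)) 1 \
        ⋃ i, {x : EuclideanSpace ℝ (Fin d) |
          a i < inner ℝ (u i) x ∧ inner ℝ (u i) x < a i + w i}) := by
    rintro _ ⟨x, hx, rfl⟩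
    refine ⟨?_, ?_⟩
    · rw [mem_closedBall_zero_iff]
      exact hx (sg (e x)) (fun i => (hsg _ i).le)
    · rw [Set.mem_iUnion]
      rintro ⟨i, hi⟩
      exact hslab x i hi
  refine le_trans ?_ (measure_mono hTK)
  let μ : Measure (EuclideanSpace ℝ (Fin d)) :=
    μH[Module.finrank ℝ (EuclideanSpace ℝ (Fin d))]
  have hμ : (volume : Measure (EuclideanSpace ℝ (Fin d))) =
      Measure.addHaarScalarFactor volume μ • μ := Measure.isAddLeftInvariant_eq_smul _ _
  rw [hμ, Measure.smul_apply, Measure.smul_apply]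
  have := hanti.le_hausdorffMeasure_image
    (d := (Module.finrank ℝ (EuclideanSpace ℝ (Fin d)) : ℝ)) (by positivity) K
  simp only [ENNReal.coe_one, ENNReal.one_rpow, one_mul] at this
  gcongr

end Pool.Agent.Helper934.BP
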