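import Mathlib

open MeasureTheory Set intervalIntegral

namespace Pool.Agent.Helper934.BP

/-- `(1 - t^2/4)^{k/2}`; it is `0` for `|t| ≥ 2` when `k ≥ 1`. -/
noncomputable def prof (k : ℕ) (t : ℝ) : ℝ := (Real.sqrt (1 - t ^ 2 / 4)) ^ k

/-- normalised lens volume -/
noncomputable def lensf (k : ℕ) (t : ℝ) : ℝ := ∫ x in t..2, prof k x

/-- volume of the unit ball of `ℝ^k` -/
noncomputable def kap (k : ℕ) : ℝ := (volume {y : Fin k → ℝ | ∑ i, y i ^ 2 ≤ 1}).toReal

end Pool.Agent.Helper934.BP
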