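import Mathlib

open MeasureTheory Set Metric
open scoped Pointwise

namespace Pool.Agent.Helper934.BP

variable {d n : ℕ}

/-- The ball of radius `r` eroded by the zonotope with generators `w i • u i`. -/
def K (u : Fin n → EuclideanSpace ℝ (Fin d)) (w : Fin n → ℝ) (r : ℝ) :
    Set (EuclideanSpace ℝ (Fin d)) :=
  {x | ∀ ε : Fin n → ℝ, (∀ i, |ε i| ≤ 1) → ‖x + ∑ i, (ε i * (w i / 2)) • u i‖ ≤ r}

lemma mem_K {u : Fin n → EuclideanSpace ℝ (Fin d)} {w : Fin n → ℝ} {r : ℝ}
    {x : EuclideanSpace ℝ (Fin d)} : x ∈ K u w r ↔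
    ∀ ε : Fin n → ℝ, (∀ i, |ε i| ≤ 1) → ‖x + ∑ i, (ε i * (w i / 2)) • u i‖ ≤ r := Iff.rfl

lemma isClosed_K (u : Fin n → EuclideanSpace ℝ (Fin d)) (w : Fin n → ℝ) (r : ℝ) :
    IsClosed (K u w r) := by
  have : K u w r = ⋂ ε : Fin n → ℝ, ⋂ _ : (∀ i, |ε i| ≤ 1),
      {x | ‖x + ∑ i, (ε i * (w i / 2)) • u i‖ ≤ r} := by
    ext x; simp [mem_K]
  rw [this]
  refine isClosed_iInter fun ε => isClosed_iInter fun _ => ?_
  exact isClosed_le (by fun_prop) continuous_const

lemma K_subset_closedBall (u : Fin n → EuclideanSpace ℝ (Fin d)) (w : Fin n → ℝ) (r : ℝ) :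
    K u w r ⊆ closedBall 0 r := by
  intro x hx
  have := hx (fun _ => 0) (by simp)
  simpa using this

lemma isCompact_K (u : Fin n → EuclideanSpace ℝ (Fin d)) (w : Fin n → ℝ) (r : ℝ) :
    IsCompact (K u w r) :=
  (isCompact_closedBall 0 r).of_isClosed_subset (isClosed_K u w r) (K_subset_closedBall u w r)

lemma convex_K (u : Fin n → EuclideanSpace ℝ (Fin d)) (w : Fin n → ℝ) (r : ℝ) :
    Convex ℝ (K u w r) := by
  have : K u w r = ⋂ ε : Fin n → ℝ, ⋂ _ : (∀ i, |ε i| ≤ 1),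
      {x | ‖x + ∑ i, (ε i * (w i / 2)) • u i‖ ≤ r} := by
    ext x; simp [mem_K]
  rw [this]
  refine convex_iInter fun ε => convex_iInter fun _ => ?_
  have h2 : {x : EuclideanSpace ℝ (Fin d) | ‖x + ∑ i, (ε i * (w i / 2)) • u i‖ ≤ r} =
      closedBall (-(∑ i, (ε i * (w i / 2)) • u i)) r := by
    ext x
    simp only [mem_ofPred_eq, mem_closedBall, dist_eq_norm, sub_neg_eq_add]
  rw [h2]
  exact convex_closedBall _ _

lemma K_zero (u : Fin n → EuclideanSpace ℝ (Fin d)) (r : ℝ) :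
    K u 0 r = closedBall 0 r := by
  apply Subset.antisymm (K_subset_closedBall u 0 r)
  intro x hx ε _
  simpa using hx

lemma K_anti_w {u : Fin n → EuclideanSpace ℝ (Fin d)} {w w' : Fin n → ℝ} {r : ℝ}
    (hw : ∀ i, 0 ≤ w i) (hww : ∀ i, w i ≤ w' i) : K u w' r ⊆ K u w r := by
  intro x hx ε hε
  have := hx (fun i => ε i * (w i / w' i)) (by
    intro i
    rw [abs_mul]
    have h1 : |w i / w' i| ≤ 1 := by
      rw [abs_of_nonneg (div_nonneg (hw i) ((hw i).trans (hww i)))]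
      exact div_le_one_of_le₀ (hww i) ((hw i).trans (hww i))
    calc |ε i| * |w i / w' i| ≤ 1 * 1 := by
          apply mul_le_mul (hε i) h1 (abs_nonneg _) (by norm_num)
      _ = 1 := by norm_num)
  have h2 : ∀ i, (ε i * (w i / w' i)) * (w' i / 2) = ε i * (w i / 2) := by
    intro i
    by_cases h : w' i = 0
    · have : w i = 0 := le_antisymm (h ▸ hww i) (hw i)
      simp [h, this]
    · field_simp
  simp only [h2] at this
  exact this

lemma K_mono_r {u : Fin n → EuclideanSpace ℝ (Fin d)} {w : Fin n → ℝ} {r r' : ℝ}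
    (h : r ≤ r') : K u w r ⊆ K u w r' := fun _ hx ε hε => (hx ε hε).trans h

/-- Two-sided erosion in one direction. -/
def er (S : Set (EuclideanSpace ℝ (Fin d))) (e : EuclideanSpace ℝ (Fin d)) (τ : ℝ) :
    Set (EuclideanSpace ℝ (Fin d)) :=
  {x | x + (τ / 2) • e ∈ S ∧ x - (τ / 2) • e ∈ S}

lemma K_cons_subset (u : Fin n → EuclideanSpace ℝ (Fin d)) (w : Fin n → ℝ) (r : ℝ)
    (e : EuclideanSpace ℝ (Fin d)) (τ : ℝ) :
    K (Fin.cons e u : Fin (n+1) → EuclideanSpace ℝ (Fin d)) (Fin.cons τ w : Fin (n+1) → ℝ) r ⊆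
      er (K u w r) e τ := by
  intro x hx
  constructor
  · intro ε hε
    have := hx (Fin.cons 1 ε : Fin (n+1) → ℝ) (by
      intro i
      refine Fin.cases ?_ ?_ i
      · simp
      · intro j; simpa using hε j)
    rw [Fin.sum_univ_succ] at this
    simp only [Fin.cons_zero, Fin.cons_succ, one_mul] at this
    rw [← add_assoc] at this
    exact this
  · intro ε hε
    have := hx (Fin.cons (-1) ε : Fin (n+1) → ℝ) (by
      intro i
      refine Fin.cases ?_ ?_ i
      · simp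
      · intro j; simpa using hε j)
    rw [Fin.sum_univ_succ] at this
    simp only [Fin.cons_zero, Fin.cons_succ] at this
    rw [← add_assoc, show (-1 * (τ / 2)) • e = -((τ/2) • e) by rw [← neg_smul]; ring_nf,
      ← sub_eq_add_neg] at this
    exact this

lemma er_subset_K_add (u : Fin n → EuclideanSpace ℝ (Fin d)) (w : Fin n → ℝ) (r : ℝ)
    (i : Fin n) (τ : ℝ) (hτ : 0 ≤ τ) (hw : 0 ≤ w i) :
    er (K u w r) (u i) τ ⊆ K u (w + Pi.single i τ) r := by
  intro x hx ε hε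
  -- the point x + ε i (τ/2) u i is in K by convexity
  have hseg : x + (ε i * (τ / 2)) • u i ∈ K u w r := by
    have h1 := abs_le.mp (hε i)
    have := (convex_K u w r) hx.1 hx.2 (a := (1 + ε i) / 2) (b := (1 - ε i) / 2)
      (by linarith) (by linarith) (by ring)
    convert this using 1
    module
  have := hseg ε hε
  have h2 : x + ∑ j, (ε j * ((w + Pi.single i τ : Fin n → ℝ) j / 2)) • u j =
      x + (ε i * (τ / 2)) • u i + ∑ j, (ε j * (w j / 2)) • u j := by
    have : ∀ j, (ε j * ((w + Pi.single i τ : Fin n → ℝ) j / 2)) • u j =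
        (ε j * (w j / 2)) • u j + (if j = i then (ε i * (τ / 2)) • u i else 0) := by
      intro j
      by_cases h : j = i
      · subst h
        simp only [Pi.add_apply, Pi.single_eq_same, if_true]
        module
      · simp [Pi.add_apply, Pi.single_eq_of_ne h, h]
    simp only [this, Finset.sum_add_distrib, Finset.sum_ite_eq', Finset.mem_univ, if_true]
    abel
  rw [h2]
  exact this

lemma K_smul (u : Fin n → EuclideanSpace ℝ (Fin d)) (w : Fin n → ℝ) {r : ℝ} (hr : 0 < r) :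
    K u w r = r • K u (fun i => w i / r) 1 := by
  ext x
  rw [mem_smul_set_iff_inv_smul_mem₀ hr.ne']
  constructor
  · intro hx ε hε
    have h1 := hx ε hε
    have h2 : r⁻¹ • x + ∑ i, (ε i * (w i / r / 2)) • u i =
        r⁻¹ • (x + ∑ i, (ε i * (w i / 2)) • u i) := by
      rw [smul_add, Finset.smul_sum]
      congr 1
      apply Finset.sum_congr rfl
      intro i _
      rw [smul_smul]; congr 1; field_simp
    rw [h2, norm_smul, Real.norm_eq_abs, abs_of_pos (inv_pos.mpr hr), inv_mul_le_iff₀ hr]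
    linarith
  · intro hx ε hε
    have h1 := hx ε hε
    have h2 : r⁻¹ • x + ∑ i, (ε i * (w i / r / 2)) • u i =
        r⁻¹ • (x + ∑ i, (ε i * (w i / 2)) • u i) := by
      rw [smul_add, Finset.smul_sum]
      congr 1
      apply Finset.sum_congr rfl
      intro i _
      rw [smul_smul]; congr 1; field_simp
    rw [h2, norm_smul, Real.norm_eq_abs, abs_of_pos (inv_pos.mpr hr), inv_mul_le_iff₀ hr] at h1
    linarith

/-- real-valued volume of the eroded unit ball -/
noncomputable def V (u : Fin n → EuclideanSpace ℝ (Fin d)) (w : Fin n → ℝ) : ℝ :=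
  (volume (K u w 1)).toReal

lemma volume_K_ne_top (u : Fin n → EuclideanSpace ℝ (Fin d)) (w : Fin n → ℝ) (r : ℝ) :
    volume (K u w r) ≠ ⊤ := (isCompact_K u w r).measure_ne_top

lemma volume_K_scale (u : Fin n → EuclideanSpace ℝ (Fin d)) (w : Fin n → ℝ) {r : ℝ}
    (hr : 0 < r) : (volume (K u w r)).toReal = r ^ d * V u (fun i => w i / r) := by
  rw [K_smul u w hr, Measure.addHaar_smul, ENNReal.toReal_mul, V]
  simp only [finrank_euclideanSpace, Fintype.card_fin]
  rw [ENNReal.toReal_ofReal (abs_nonneg _), abs_of_pos (pow_pos hr d)]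

/-- Chord extension: how much longer the chord becomes when the radius grows from `1` to `r`. -/
lemma chord_ext (u : Fin n → EuclideanSpace ℝ (Fin d)) (w : Fin n → ℝ) (hw : ∀ i, 0 ≤ w i)
    (e x : EuclideanSpace ℝ (Fin d)) (he : ‖e‖ = 1) (a b : ℝ) (hab : a ≤ b)
    (hC : {t : ℝ | x + t • e ∈ K u w 1} = Icc a b) (r : ℝ) (hr : 1 ≤ r) (σ : ℝ)
    (hσ : ∑ i, w i * |inner ℝ e (u i)| ≤ σ) :
    ∃ a' b', a' ≤ b' ∧ Icc a' b' ⊆ {t : ℝ | x + t • e ∈ K u w r} ∧
      √((b - a + σ) ^ 2 + 4 * (r ^ 2 - 1)) - σ ≤ b' - a' := by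
  set β : ℝ := (∑ i, w i * |inner ℝ e (u i)|) / 2 with hβ
  have hβσ : 2 * β ≤ σ := by rw [hβ]; linarith
  have hR : 0 ≤ r ^ 2 - 1 := by nlinarith
  -- bound for the zonotope in direction e
  have hz : ∀ ε : Fin n → ℝ, (∀ i, |ε i| ≤ 1) →
      |inner ℝ e (∑ i, (ε i * (w i / 2)) • u i)| ≤ β := by
    intro ε hε
    rw [inner_sum, hβ, Finset.sum_div]
    refine (Finset.abs_sum_le_sum_abs _ _).trans (Finset.sum_le_sum ?_)
    intro i _
    rw [inner_smul_right, abs_mul, abs_mul, abs_of_nonneg (by linarith [hw i] : 0 ≤ w i / 2)]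
    have : |ε i| * (w i / 2) * |inner ℝ e (u i)| ≤ 1 * (w i / 2) * |inner ℝ e (u i)| := by
      apply mul_le_mul_of_nonneg_right _ (abs_nonneg _)
      apply mul_le_mul_of_nonneg_right (hε i) (by linarith [hw i])
    linarith
  have hnorm : ∀ (t : ℝ) (y : EuclideanSpace ℝ (Fin d)), ‖y + t • e‖ ^ 2 =
      ‖y‖ ^ 2 + 2 * t * inner ℝ e y + t ^ 2 := by
    intro t y
    rw [norm_add_sq_real, inner_smul_right, norm_smul, he, real_inner_comm]
    simp only [Real.norm_eq_abs, mul_one, sq_abs]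
    ring
  have ha : x + a • e ∈ K u w 1 := by
    have : a ∈ {t : ℝ | x + t • e ∈ K u w 1} := by rw [hC]; exact left_mem_Icc.mpr hab
    exact this
  have hb : x + b • e ∈ K u w 1 := by
    have : b ∈ {t : ℝ | x + t • e ∈ K u w 1} := by rw [hC]; exact right_mem_Icc.mpr hab
    exact this
  set m : ℝ := inner ℝ e x with hm
  set p : ℝ := m + b + β with hp
  set q : ℝ := -m - a + β with hq
  have hinner : ∀ t : ℝ, inner ℝ e (x + t • e) = m + t := by
    intro t
    rw [inner_add_right, inner_smul_right, real_inner_self_eq_norm_sq, he, hm]; ring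
  -- upper side bound
  have hup : ∀ s : ℝ, 0 ≤ s → ∀ ε : Fin n → ℝ, (∀ i, |ε i| ≤ 1) →
      ‖x + (b + s) • e + ∑ i, (ε i * (w i / 2)) • u i‖ ^ 2 ≤ 1 + 2 * s * p + s ^ 2 := by
    intro s hs ε hε
    have h1 : x + (b + s) • e + ∑ i, (ε i * (w i / 2)) • u i =
        (x + b • e + ∑ i, (ε i * (w i / 2)) • u i) + s • e := by module
    rw [h1, hnorm, inner_add_right, hinner]
    have h2 := hb ε hε
    have h3 : ‖x + b • e + ∑ i, (ε i * (w i / 2)) • u i‖ ^ 2 ≤ 1 := by
      have := norm_nonneg (x + b • e + ∑ i, (ε i * (w i / 2)) • u i)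
      nlinarith
    have h4 := (abs_le.mp (hz ε hε)).2
    have : s * (m + b + inner ℝ e (∑ i, (ε i * (w i / 2)) • u i)) ≤ s * p := by
      apply mul_le_mul_of_nonneg_left _ hs
      rw [hp]; linarith
    nlinarith
  have hdn : ∀ s : ℝ, 0 ≤ s → ∀ ε : Fin n → ℝ, (∀ i, |ε i| ≤ 1) →
      ‖x + (a - s) • e + ∑ i, (ε i * (w i / 2)) • u i‖ ^ 2 ≤ 1 + 2 * s * q + s ^ 2 := by
    intro s hs ε hε
    have h1 : x + (a - s) • e + ∑ i, (ε i * (w i / 2)) • u i =
        (x + a • e + ∑ i, (ε i * (w i / 2)) • u i) + (-s) • e := by module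
    rw [h1, hnorm, inner_add_right, hinner]
    have h2 := ha ε hε
    have h3 : ‖x + a • e + ∑ i, (ε i * (w i / 2)) • u i‖ ^ 2 ≤ 1 := by
      have := norm_nonneg (x + a • e + ∑ i, (ε i * (w i / 2)) • u i)
      nlinarith
    have h4 := (abs_le.mp (hz ε hε)).1
    have : s * (-(m + a + inner ℝ e (∑ i, (ε i * (w i / 2)) • u i))) ≤ s * q := by
      apply mul_le_mul_of_nonneg_left _ hs
      rw [hq]; linarith
    nlinarith
  -- p, q nonneg
  have hp0 : 0 ≤ p := by
    by_contra hneg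
    push Not at hneg
    have hmem : b + (-p) ∈ {t : ℝ | x + t • e ∈ K u w 1} := by
      intro ε hε
      have := hup (-p) (by linarith) ε hε
      have h5 : ‖x + (b + -p) • e + ∑ i, (ε i * (w i / 2)) • u i‖ ^ 2 ≤ 1 ^ 2 := by nlinarith
      exact (sq_le_sq₀ (norm_nonneg _) (by norm_num)).mp h5
    rw [hC] at hmem
    linarith [hmem.2]
  have hq0 : 0 ≤ q := by
    by_contra hneg
    push Not at hneg
    have hmem : a - (-q) ∈ {t : ℝ | x + t • e ∈ K u w 1} := by
      intro ε hε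
      have := hdn (-q) (by linarith) ε hε
      have h5 : ‖x + (a - -q) • e + ∑ i, (ε i * (w i / 2)) • u i‖ ^ 2 ≤ 1 ^ 2 := by nlinarith
      exact (sq_le_sq₀ (norm_nonneg _) (by norm_num)).mp h5
    rw [hC] at hmem
    linarith [hmem.1]
  set δ : ℝ := √(p ^ 2 + (r ^ 2 - 1)) - p with hδ
  set δ' : ℝ := √(q ^ 2 + (r ^ 2 - 1)) - q with hδ'
  have hδ0 : 0 ≤ δ := by
    rw [hδ, sub_nonneg]
    apply Real.le_sqrt_of_sq_le; linarith
  have hδ'0 : 0 ≤ δ' := by
    rw [hδ', sub_nonneg]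
    apply Real.le_sqrt_of_sq_le; linarith
  have hδsq : 2 * δ * p + δ ^ 2 = r ^ 2 - 1 := by
    have := Real.sq_sqrt (by positivity : 0 ≤ p ^ 2 + (r ^ 2 - 1))
    rw [hδ]; nlinarith
  have hδ'sq : 2 * δ' * q + δ' ^ 2 = r ^ 2 - 1 := by
    have := Real.sq_sqrt (by positivity : 0 ≤ q ^ 2 + (r ^ 2 - 1))
    rw [hδ']; nlinarith
  refine ⟨a - δ', b + δ, by linarith, ?_, ?_⟩
  · intro t ht
    rcases le_or_gt t b with htb | htb
    · rcases le_or_gt a t with hta | hta
      · have : t ∈ {t : ℝ | x + t • e ∈ K u w 1} := by rw [hC]; exact ⟨hta, htb⟩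
        exact K_mono_r hr this
      · intro ε hε
        have h1 := hdn (a - t) (by linarith) ε hε
        have h2 : a - (a - t) = t := by ring
        rw [h2] at h1
        have h3 : a - t ≤ δ' := by linarith [ht.1]
        have h4 : 1 + 2 * (a - t) * q + (a - t) ^ 2 ≤ r ^ 2 := by
          have : (a - t) * q ≤ δ' * q := mul_le_mul_of_nonneg_right h3 hq0
          nlinarith
        exact (sq_le_sq₀ (norm_nonneg _) (by linarith)).mp (h1.trans h4)
    · intro ε hε
      have h1 := hup (t - b) (by linarith) ε hε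
      have h2 : b + (t - b) = t := by ring
      rw [h2] at h1
      have h3 : t - b ≤ δ := by linarith [ht.2]
      have h4 : 1 + 2 * (t - b) * p + (t - b) ^ 2 ≤ r ^ 2 := by
        have : (t - b) * p ≤ δ * p := mul_le_mul_of_nonneg_right h3 hp0
        nlinarith
      exact (sq_le_sq₀ (norm_nonneg _) (by linarith)).mp (h1.trans h4)
  · -- length estimate
    have hpq : p + q = b - a + 2 * β := by rw [hp, hq]; ring
    have h1 : √((b - a + 2 * β) ^ 2 + 4 * (r ^ 2 - 1)) ≤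
        √(p ^ 2 + (r ^ 2 - 1)) + √(q ^ 2 + (r ^ 2 - 1)) := by
      rw [← hpq]
      apply Real.sqrt_le_iff.mpr
      refine ⟨by positivity, ?_⟩
      have e1 := Real.sq_sqrt (by positivity : 0 ≤ p ^ 2 + (r ^ 2 - 1))
      have e2 := Real.sq_sqrt (by positivity : 0 ≤ q ^ 2 + (r ^ 2 - 1))
      have e3 : p * q + (r ^ 2 - 1) ≤ √(p ^ 2 + (r ^ 2 - 1)) * √(q ^ 2 + (r ^ 2 - 1)) := by
        rw [← Real.sqrt_mul (by positivity)]
        apply Real.le_sqrt_of_sq_le
        nlinarith [sq_nonneg (p - q), mul_nonneg hR (sq_nonneg (p - q))]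
      nlinarith
    have h2 : √((b - a + σ) ^ 2 + 4 * (r ^ 2 - 1)) - σ ≤
        √((b - a + 2 * β) ^ 2 + 4 * (r ^ 2 - 1)) - 2 * β := by
      -- monotone
      have hX : 0 ≤ b - a + 2 * β := by rw [← hpq]; linarith
      set X := b - a + 2 * β with hXdef
      have hXσ : b - a + σ = X + (σ - 2 * β) := by rw [hXdef]; ring
      rw [hXσ]
      have hη : 0 ≤ σ - 2 * β := by linarith
      set η := σ - 2 * β with hηdef
      have : √((X + η) ^ 2 + 4 * (r ^ 2 - 1)) ≤ √(X ^ 2 + 4 * (r ^ 2 - 1)) + η := by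
        apply Real.sqrt_le_iff.mpr
        refine ⟨by positivity, ?_⟩
        have e1 := Real.sq_sqrt (by positivity : 0 ≤ X ^ 2 + 4 * (r ^ 2 - 1))
        have e2 : X ≤ √(X ^ 2 + 4 * (r ^ 2 - 1)) := by
          apply Real.le_sqrt_of_sq_le; linarith
        nlinarith
      linarith
    have h3 : b + δ - (a - δ') = √(p ^ 2 + (r ^ 2 - 1)) + √(q ^ 2 + (r ^ 2 - 1)) - 2 * β := by
      rw [hδ, hδ']; linarith
    linarith

end Pool.Agent.Helper934.BP
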