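import Mathlib
import Pool.Agent.Helper934.BPErosion

open MeasureTheory Set Metric
open scoped Pointwise

namespace Pool.Agent.Helper934.BP

variable {k n : ℕ}

/-- the point with coordinates `(t, y)` in the orthonormal basis `B` -/
noncomputable def mk (B : OrthonormalBasis (Fin (k+1)) ℝ (EuclideanSpace ℝ (Fin (k+1))))
    (y : Fin k → ℝ) (t : ℝ) : EuclideanSpace ℝ (Fin (k+1)) :=
  B.repr.symm (WithLp.toLp 2 (Fin.cons t y : Fin (k+1) → ℝ))

lemma continuous_mk (B : OrthonormalBasis (Fin (k+1)) ℝ (EuclideanSpace ℝ (Fin (k+1)))) :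
    Continuous (fun p : ℝ × (Fin k → ℝ) => mk B p.2 p.1) := by
  unfold mk
  have h1 : Continuous (fun p : ℝ × (Fin k → ℝ) => (Fin.cons p.1 p.2 : Fin (k+1) → ℝ)) := by
    apply continuous_pi
    intro i
    refine Fin.cases ?_ ?_ i
    · simpa using continuous_fst
    · intro j
      simp only [Fin.cons_succ]
      fun_prop
  have h2 : Continuous (fun f : Fin (k+1) → ℝ => (WithLp.toLp 2 f : EuclideanSpace ℝ (Fin (k+1)))) :=
    PiLp.continuous_toLp 2 _
  exact B.repr.symm.continuous.comp (h2.comp h1)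

lemma mk_eq (B : OrthonormalBasis (Fin (k+1)) ℝ (EuclideanSpace ℝ (Fin (k+1))))
    (y : Fin k → ℝ) (t : ℝ) : mk B y t = mk B y 0 + t • B 0 := by
  have h : B 0 = B.repr.symm (EuclideanSpace.single 0 1) := by
    simp
  rw [h]
  unfold mk
  rw [← map_smul, ← map_add]
  congr 1
  ext i
  refine Fin.cases ?_ ?_ i
  · simp
  · intro j
    simp

lemma mk_add (B : OrthonormalBasis (Fin (k+1)) ℝ (EuclideanSpace ℝ (Fin (k+1))))
    (y : Fin k → ℝ) (t s : ℝ) : mk B y (t + s) = mk B y t + s • B 0 := by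
  rw [mk_eq B y (t+s), mk_eq B y t]; module

/-- the measurable equivalence given by coordinates -/
noncomputable def coordEquiv (B : OrthonormalBasis (Fin (k+1)) ℝ (EuclideanSpace ℝ (Fin (k+1)))) :
    EuclideanSpace ℝ (Fin (k+1)) ≃ᵐ ℝ × (Fin k → ℝ) :=
  (B.repr.toMeasurableEquiv.trans (MeasurableEquiv.toLp 2 (Fin (k+1) → ℝ)).symm).trans
    (MeasurableEquiv.piFinSuccAbove (fun _ : Fin (k+1) => ℝ) 0)

lemma coordEquiv_mp (B : OrthonormalBasis (Fin (k+1)) ℝ (EuclideanSpace ℝ (Fin (k+1)))) :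
    MeasurePreserving (coordEquiv B) volume volume := by
  have mp1 := B.measurePreserving_repr
  have mp2 := EuclideanSpace.volume_preserving_symm_measurableEquiv_toLp (Fin (k+1))
  have mp3 := volume_preserving_piFinSuccAbove (fun _ : Fin (k+1) => ℝ) 0
  exact mp3.comp (mp2.comp mp1)

lemma coordEquiv_symm (B : OrthonormalBasis (Fin (k+1)) ℝ (EuclideanSpace ℝ (Fin (k+1))))
    (p : ℝ × (Fin k → ℝ)) : (coordEquiv B).symm p = mk B p.2 p.1 := by
  apply (coordEquiv B).injective
  rw [MeasurableEquiv.apply_symm_apply]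
  have h : coordEquiv B (mk B p.2 p.1) =
      ((B.repr (mk B p.2 p.1)) 0, fun j : Fin k => (B.repr (mk B p.2 p.1)) j.succ) := rfl
  rw [h]
  unfold mk
  rw [LinearIsometryEquiv.apply_symm_apply]
  ext
  · simp
  · simp

/-- chord of `S` over `y` -/
def slice (B : OrthonormalBasis (Fin (k+1)) ℝ (EuclideanSpace ℝ (Fin (k+1))))
    (S : Set (EuclideanSpace ℝ (Fin (k+1)))) (y : Fin k → ℝ) : Set ℝ := {t | mk B y t ∈ S}

/-- shadow of `S` in direction `B 0` -/
def shadowSet (B : OrthonormalBasis (Fin (k+1)) ℝ (EuclideanSpace ℝ (Fin (k+1))))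
    (S : Set (EuclideanSpace ℝ (Fin (k+1)))) : Set (Fin k → ℝ) := {y | ∃ t, mk B y t ∈ S}

/-- area of the shadow -/
noncomputable def shadow (B : OrthonormalBasis (Fin (k+1)) ℝ (EuclideanSpace ℝ (Fin (k+1))))
    (S : Set (EuclideanSpace ℝ (Fin (k+1)))) : ℝ := (volume (shadowSet B S)).toReal

lemma volume_eq (B : OrthonormalBasis (Fin (k+1)) ℝ (EuclideanSpace ℝ (Fin (k+1))))
    (S : Set (EuclideanSpace ℝ (Fin (k+1)))) (hS : MeasurableSet S) :
    volume S = ∫⁻ y, volume (slice B S y) := by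
  have h1 : volume S = volume ((coordEquiv B).symm ⁻¹' S) :=
    ((coordEquiv_mp B).symm.measure_preimage hS.nullMeasurableSet).symm
  have h2 : MeasurableSet ((coordEquiv B).symm ⁻¹' S) := (coordEquiv B).symm.measurable hS
  rw [h1, Measure.volume_eq_prod, Measure.prod_apply_symm h2]
  apply lintegral_congr
  intro y
  congr 1
  ext t
  simp only [mem_preimage, coordEquiv_symm]
  rfl

lemma measurable_slice (B : OrthonormalBasis (Fin (k+1)) ℝ (EuclideanSpace ℝ (Fin (k+1))))
    (S : Set (EuclideanSpace ℝ (Fin (k+1)))) (hS : MeasurableSet S) :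
    Measurable (fun y => volume (slice B S y)) := by
  have h2 : MeasurableSet ((coordEquiv B).symm ⁻¹' S) := (coordEquiv B).symm.measurable hS
  have h3 := measurable_measure_prodMk_right (μ := (volume : Measure ℝ)) h2
  convert h3 using 1
  ext y
  congr 1
  ext t
  simp only [mem_preimage, coordEquiv_symm]
  rfl

lemma shadowSet_eq_image (B : OrthonormalBasis (Fin (k+1)) ℝ (EuclideanSpace ℝ (Fin (k+1))))
    (S : Set (EuclideanSpace ℝ (Fin (k+1)))) :
    shadowSet B S = (fun x => (fun j : Fin k => (B.repr x) j.succ)) '' S := by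
  ext y
  constructor
  · rintro ⟨t, ht⟩
    refine ⟨_, ht, ?_⟩
    ext j
    simp [mk]
  · rintro ⟨x, hx, rfl⟩
    refine ⟨(B.repr x) 0, ?_⟩
    have : mk B (fun j => (B.repr x) j.succ) ((B.repr x) 0) = x := by
      unfold mk
      rw [LinearIsometryEquiv.symm_apply_eq]
      ext i
      refine Fin.cases ?_ ?_ i
      · simp
      · intro j; simp
    rw [this]; exact hx

lemma isCompact_shadowSet (B : OrthonormalBasis (Fin (k+1)) ℝ (EuclideanSpace ℝ (Fin (k+1))))
    {S : Set (EuclideanSpace ℝ (Fin (k+1)))} (hS : IsCompact S) : IsCompact (shadowSet B S) := by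
  rw [shadowSet_eq_image]
  apply hS.image
  apply continuous_pi
  intro j
  have : Continuous fun x : EuclideanSpace ℝ (Fin (k+1)) => B.repr x := B.repr.continuous
  fun_prop

lemma slice_Icc (B : OrthonormalBasis (Fin (k+1)) ℝ (EuclideanSpace ℝ (Fin (k+1))))
    {S : Set (EuclideanSpace ℝ (Fin (k+1)))} (hS : IsCompact S) (hc : Convex ℝ S)
    {y : Fin k → ℝ} (hy : y ∈ shadowSet B S) : ∃ a b, a ≤ b ∧ slice B S y = Icc a b := by
  have hcont : Continuous (fun t : ℝ => mk B y t) :=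
    (continuous_mk B).comp (by fun_prop : Continuous fun t : ℝ => ((t, y) : ℝ × (Fin k → ℝ)))
  have hclosed : IsClosed (slice B S y) := hS.isClosed.preimage hcont
  have hconv : Convex ℝ (slice B S y) := by
    intro t ht s hs a b ha hb hab
    have := hc ht hs ha hb hab
    show mk B y (a • t + b • s) ∈ S
    convert this using 1
    rw [mk_eq B y (a • t + b • s), mk_eq B y t, mk_eq B y s]
    simp only [smul_eq_mul]
    have hb' : b = 1 - a := by linarith
    subst hb'
    module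
  obtain ⟨R, hR⟩ := hS.isBounded.subset_closedBall 0
  have hbdd : Bornology.IsBounded (slice B S y) := by
    rw [Metric.isBounded_iff_subset_closedBall 0]
    refine ⟨R + ‖mk B y 0‖, ?_⟩
    intro t ht
    have h1 := hR ht
    rw [mem_closedBall, dist_zero_right] at h1 ⊢
    have h2 : t • B 0 = mk B y t - mk B y 0 := by rw [mk_eq B y t]; abel
    have h3 : ‖t • B 0‖ ≤ ‖mk B y t‖ + ‖mk B y 0‖ := by rw [h2]; exact norm_sub_le _ _
    rw [norm_smul, B.orthonormal.norm_eq_one 0, mul_one] at h3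
    linarith
  have hcomp : IsCompact (slice B S y) := Metric.isCompact_of_isClosed_isBounded hclosed hbdd
  obtain ⟨t, ht⟩ := hy
  have hconn : IsConnected (slice B S y) := ⟨⟨t, ht⟩, hconv.isPreconnected⟩
  have := eq_Icc_of_connected_compact hconn hcomp
  refine ⟨_, _, ?_, this⟩
  have h3 : (Icc (sInf (slice B S y)) (sSup (slice B S y))).Nonempty := by
    rw [← this]; exact ⟨t, ht⟩
  exact nonempty_Icc.mp h3

lemma slice_eq_empty (B : OrthonormalBasis (Fin (k+1)) ℝ (EuclideanSpace ℝ (Fin (k+1))))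
    {S : Set (EuclideanSpace ℝ (Fin (k+1)))}
    {y : Fin k → ℝ} (hy : y ∉ shadowSet B S) : slice B S y = ∅ := by
  ext t
  simp only [mem_empty_iff_false, iff_false]
  intro ht
  exact hy ⟨t, ht⟩

lemma isClosed_er {d : ℕ} {S : Set (EuclideanSpace ℝ (Fin d))} (hS : IsClosed S)
    (e : EuclideanSpace ℝ (Fin d)) (τ : ℝ) : IsClosed (er S e τ) := by
  have h1 : IsClosed {x : EuclideanSpace ℝ (Fin d) | x + (τ / 2) • e ∈ S} :=
    hS.preimage (by fun_prop)
  have h2 : IsClosed {x : EuclideanSpace ℝ (Fin d) | x - (τ / 2) • e ∈ S} :=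
    hS.preimage (by fun_prop)
  exact h1.inter h2

lemma slice_er (B : OrthonormalBasis (Fin (k+1)) ℝ (EuclideanSpace ℝ (Fin (k+1))))
    (S : Set (EuclideanSpace ℝ (Fin (k+1)))) (y : Fin k → ℝ) (τ : ℝ) :
    slice B (er S (B 0) τ) y = {t | t + τ / 2 ∈ slice B S y ∧ t - τ / 2 ∈ slice B S y} := by
  ext t
  simp only [slice, er, mem_ofPred_eq]
  rw [mk_add, sub_eq_add_neg t (τ/2), mk_add, neg_smul, ← sub_eq_add_neg]

/-- chord length -/
noncomputable def L (B : OrthonormalBasis (Fin (k+1)) ℝ (EuclideanSpace ℝ (Fin (k+1))))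
    (S : Set (EuclideanSpace ℝ (Fin (k+1)))) (y : Fin k → ℝ) : ℝ := (volume (slice B S y)).toReal

lemma L_nonneg (B : OrthonormalBasis (Fin (k+1)) ℝ (EuclideanSpace ℝ (Fin (k+1))))
    (S : Set (EuclideanSpace ℝ (Fin (k+1)))) (y : Fin k → ℝ) : 0 ≤ L B S y :=
  ENNReal.toReal_nonneg

lemma measurable_L (B : OrthonormalBasis (Fin (k+1)) ℝ (EuclideanSpace ℝ (Fin (k+1))))
    (S : Set (EuclideanSpace ℝ (Fin (k+1)))) (hS : MeasurableSet S) : Measurable (L B S) :=
  (measurable_slice B S hS).ennreal_toReal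

lemma L_of_Icc {B : OrthonormalBasis (Fin (k+1)) ℝ (EuclideanSpace ℝ (Fin (k+1)))}
    {S : Set (EuclideanSpace ℝ (Fin (k+1)))} {y : Fin k → ℝ} {a b : ℝ} (hab : a ≤ b)
    (h : slice B S y = Icc a b) : L B S y = b - a := by
  rw [L, h, Real.volume_Icc, ENNReal.toReal_ofReal (by linarith)]

lemma L_zero {B : OrthonormalBasis (Fin (k+1)) ℝ (EuclideanSpace ℝ (Fin (k+1)))}
    {S : Set (EuclideanSpace ℝ (Fin (k+1)))} {y : Fin k → ℝ} (hy : y ∉ shadowSet B S) :
    L B S y = 0 := by
  rw [L, slice_eq_empty B hy]; simp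

lemma slice_subset_Icc_of_ball (B : OrthonormalBasis (Fin (k+1)) ℝ (EuclideanSpace ℝ (Fin (k+1))))
    {S : Set (EuclideanSpace ℝ (Fin (k+1)))} {R : ℝ} (hS : S ⊆ closedBall 0 R)
    (y : Fin k → ℝ) : slice B S y ⊆ Icc (-R) R := by
  intro t ht
  have h1 := hS ht
  rw [mem_closedBall, dist_zero_right] at h1
  have h2 : |inner ℝ (B 0) (mk B y t)| ≤ ‖B 0‖ * ‖mk B y t‖ := abs_real_inner_le_norm _ _
  rw [B.orthonormal.norm_eq_one 0, one_mul] at h2
  have h3 : inner ℝ (B 0) (mk B y t) = t := by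
    rw [← B.repr_apply_apply]
    simp [mk]
  rw [h3] at h2
  exact abs_le.mp (h2.trans h1)

lemma L_le_two (B : OrthonormalBasis (Fin (k+1)) ℝ (EuclideanSpace ℝ (Fin (k+1))))
    {S : Set (EuclideanSpace ℝ (Fin (k+1)))} (hS : S ⊆ closedBall 0 1)
    (y : Fin k → ℝ) : L B S y ≤ 2 := by
  have h := measure_mono (μ := volume) (slice_subset_Icc_of_ball B hS y)
  rw [Real.volume_Icc] at h
  have := ENNReal.toReal_mono (by simp) h
  rw [ENNReal.toReal_ofReal (by norm_num)] at this
  rw [L]; linarith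

lemma volume_slice_ne_top (B : OrthonormalBasis (Fin (k+1)) ℝ (EuclideanSpace ℝ (Fin (k+1))))
    {S : Set (EuclideanSpace ℝ (Fin (k+1)))} (hS : IsCompact S) (y : Fin k → ℝ) :
    volume (slice B S y) ≠ ⊤ := by
  obtain ⟨R, hR⟩ := hS.isBounded.subset_closedBall 0
  have h := measure_mono (μ := volume) (slice_subset_Icc_of_ball B hR y)
  exact ne_top_of_le_ne_top (by simp) h

lemma volume_real_eq (B : OrthonormalBasis (Fin (k+1)) ℝ (EuclideanSpace ℝ (Fin (k+1))))
    {S : Set (EuclideanSpace ℝ (Fin (k+1)))} (hS : IsCompact S) :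
    (volume S).toReal = ∫ y, L B S y := by
  rw [volume_eq B S hS.measurableSet]
  unfold L
  rw [integral_toReal (measurable_slice B S hS.measurableSet).aemeasurable]
  exact Filter.Eventually.of_forall fun y => lt_top_iff_ne_top.mpr (volume_slice_ne_top B hS y)

lemma integrable_L (B : OrthonormalBasis (Fin (k+1)) ℝ (EuclideanSpace ℝ (Fin (k+1))))
    {S : Set (EuclideanSpace ℝ (Fin (k+1)))} (hS : IsCompact S) :
    Integrable (L B S) := by
  apply integrable_toReal_of_lintegral_ne_top (measurable_slice B S hS.measurableSet).aemeasurable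
  rw [← volume_eq B S hS.measurableSet]
  exact hS.measure_ne_top

lemma volume_real_eq_set (B : OrthonormalBasis (Fin (k+1)) ℝ (EuclideanSpace ℝ (Fin (k+1))))
    {S : Set (EuclideanSpace ℝ (Fin (k+1)))} (hS : IsCompact S) {D : Set (Fin k → ℝ)}
    (hD : shadowSet B S ⊆ D) :
    (volume S).toReal = ∫ y in D, L B S y := by
  rw [volume_real_eq B hS]
  rw [setIntegral_eq_integral_of_forall_compl_eq_zero]
  intro y hy
  exact L_zero (fun h => hy (hD h))

lemma L_er (B : OrthonormalBasis (Fin (k+1)) ℝ (EuclideanSpace ℝ (Fin (k+1))))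
    {S : Set (EuclideanSpace ℝ (Fin (k+1)))} (hS : IsCompact S) (hc : Convex ℝ S)
    (y : Fin k → ℝ) {τ : ℝ} (hτ : 0 ≤ τ) : L B (er S (B 0) τ) y = max (L B S y - τ) 0 := by
  by_cases hy : y ∈ shadowSet B S
  · obtain ⟨a, b, hab, h⟩ := slice_Icc B hS hc hy
    have h1 : slice B (er S (B 0) τ) y = Icc (a + τ / 2) (b - τ / 2) := by
      rw [slice_er, h]
      ext t
      simp only [mem_ofPred_eq, mem_Icc]
      constructor
      · rintro ⟨⟨h1, h2⟩, h3, h4⟩
        constructor <;> linarith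
      · rintro ⟨h1, h2⟩
        refine ⟨⟨?_, ?_⟩, ?_, ?_⟩ <;> linarith
    rw [L_of_Icc hab h, L, h1, Real.volume_Icc]
    rcases le_or_gt (b - a - τ) 0 with h2 | h2
    · rw [max_eq_right h2, ENNReal.ofReal_of_nonpos (by linarith)]; simp
    · rw [max_eq_left h2.le, ENNReal.toReal_ofReal (by linarith)]; ring
  · have h1 : slice B (er S (B 0) τ) y = ∅ := by
      rw [slice_er, slice_eq_empty B hy]; simp
    rw [L, h1, L_zero hy]
    simp [hτ]

lemma isCompact_er {S : Set (EuclideanSpace ℝ (Fin (k+1)))} (hS : IsCompact S)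
    (e : EuclideanSpace ℝ (Fin (k+1))) (τ : ℝ) : IsCompact (er S e τ) := by
  have h1 : IsClosed (er S e τ) := isClosed_er hS.isClosed e τ
  have h2 : er S e τ ⊆ (fun x => x - (τ / 2) • e) '' S := by
    intro x hx
    exact ⟨x + (τ/2) • e, hx.1, by simp⟩
  exact (hS.image (by fun_prop)).of_isClosed_subset h1 h2

lemma shadowSet_er_subset (B : OrthonormalBasis (Fin (k+1)) ℝ (EuclideanSpace ℝ (Fin (k+1))))
    (S : Set (EuclideanSpace ℝ (Fin (k+1)))) (τ : ℝ) :
    shadowSet B (er S (B 0) τ) ⊆ shadowSet B S := by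
  rintro y ⟨t, ht⟩
  exact ⟨t + τ/2, by rw [mk_add]; exact ht.1⟩

/-- volume of the erosion as an integral over the shadow -/
lemma volume_er (B : OrthonormalBasis (Fin (k+1)) ℝ (EuclideanSpace ℝ (Fin (k+1))))
    {S : Set (EuclideanSpace ℝ (Fin (k+1)))} (hS : IsCompact S) (hc : Convex ℝ S)
    {τ : ℝ} (hτ : 0 ≤ τ) :
    (volume (er S (B 0) τ)).toReal = ∫ y in shadowSet B S, max (L B S y - τ) 0 := by
  rw [volume_real_eq_set B (isCompact_er hS _ _) (shadowSet_er_subset B S τ)]
  apply integral_congr_ae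
  exact Filter.Eventually.of_forall fun y => L_er B hS hc y hτ

lemma volume_le_er_add (B : OrthonormalBasis (Fin (k+1)) ℝ (EuclideanSpace ℝ (Fin (k+1))))
    {S : Set (EuclideanSpace ℝ (Fin (k+1)))} (hS : IsCompact S) (hc : Convex ℝ S)
    {τ : ℝ} (hτ : 0 ≤ τ) :
    (volume S).toReal ≤ (volume (er S (B 0) τ)).toReal + τ * shadow B S := by
  have hD := isCompact_shadowSet B hS
  have hfin : volume (shadowSet B S) ≠ ⊤ := hD.measure_ne_top
  rw [volume_er B hS hc hτ, volume_real_eq_set B hS (Subset.refl _)]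
  have h1 : τ * shadow B S = ∫ y in shadowSet B S, τ := by
    rw [setIntegral_const, shadow, smul_eq_mul, measureReal_def, mul_comm]
  have hint : IntegrableOn (fun y => max (L B S y - τ) 0) (shadowSet B S) := by
    have : ∀ y, max (L B S y - τ) 0 = L B (er S (B 0) τ) y := fun y => (L_er B hS hc y hτ).symm
    simp only [this]
    exact (integrable_L B (isCompact_er hS _ _)).integrableOn
  rw [h1, ← integral_add hint (integrableOn_const hfin)]
  apply integral_mono (integrable_L B hS).integrableOn (hint.add (integrableOn_const hfin))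
  intro y
  show L B S y ≤ max (L B S y - τ) 0 + τ
  have := le_max_left (L B S y - τ) 0
  linarith

end Pool.Agent.Helper934.BP
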