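import Mathlib
import Pool.Agent.Helper934.BPFubini

open MeasureTheory Set Metric
open scoped Pointwise

namespace Pool.Agent.Helper934.BP

variable {k n : ℕ}

/-- pointwise representation inequality for `1/(ℓ+s)` -/
lemma inv_repr {s ℓ T : ℝ} (hs : 0 < s) (hℓ : 0 ≤ ℓ) (hT : 0 ≤ T) :
    ∫ τ in (0:ℝ)..T, 2 * max (ℓ - τ) 0 / (s + τ) ^ 3 ≤ 1 / (ℓ + s) - 1 / s + ℓ / s ^ 2 := by
  set m := min T ℓ with hm
  have hm0 : 0 ≤ m := le_min hT hℓ
  have hmT : m ≤ T := min_le_left _ _
  have hmℓ : m ≤ ℓ := min_le_right _ _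
  have hcont : ∀ a b : ℝ, 0 ≤ a → a ≤ b →
      IntervalIntegrable (fun τ : ℝ => 2 * max (ℓ - τ) 0 / (s + τ) ^ 3) volume a b := by
    intro a b ha hab
    apply ContinuousOn.intervalIntegrable
    rw [uIcc_of_le hab]
    apply ContinuousOn.div
    · fun_prop
    · fun_prop
    · intro x hx
      have : 0 < s + x := by linarith [hx.1]
      positivity
  have hsplit : ∫ τ in (0:ℝ)..T, 2 * max (ℓ - τ) 0 / (s + τ) ^ 3 =
      (∫ τ in (0:ℝ)..m, 2 * max (ℓ - τ) 0 / (s + τ) ^ 3) +
      ∫ τ in m..T, 2 * max (ℓ - τ) 0 / (s + τ) ^ 3 :=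
    (intervalIntegral.integral_add_adjacent_intervals (hcont 0 m le_rfl hm0)
      (hcont m T hm0 hmT)).symm
  have hsecond : ∫ τ in m..T, 2 * max (ℓ - τ) 0 / (s + τ) ^ 3 = 0 := by
    rcases le_total T ℓ with h | h
    · have : m = T := min_eq_left h
      rw [this]; simp
    · have hmeq : m = ℓ := min_eq_right h
      rw [hmeq]
      have : ∫ τ in ℓ..T, 2 * max (ℓ - τ) 0 / (s + τ) ^ 3 = ∫ τ in ℓ..T, (0:ℝ) := by
        apply intervalIntegral.integral_congr
        intro x hx
        rw [uIcc_of_le h] at hx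
        show 2 * max (ℓ - x) 0 / (s + x) ^ 3 = 0
        rw [max_eq_right (by linarith [hx.1])]; simp
      rw [this]; simp
  have hfirst : ∫ τ in (0:ℝ)..m, 2 * max (ℓ - τ) 0 / (s + τ) ^ 3 =
      ((m - ℓ) / (s + m) ^ 2 + 1 / (s + m)) - ((0 - ℓ) / (s + 0) ^ 2 + 1 / (s + 0)) := by
    have hder : ∀ x ∈ uIcc (0:ℝ) m, HasDerivAt
        (fun x : ℝ => (x - ℓ) / (s + x) ^ 2 + 1 / (s + x))
        (2 * max (ℓ - x) 0 / (s + x) ^ 3) x := by
      intro x hx
      rw [uIcc_of_le hm0] at hx
      have hsx : s + x ≠ 0 := by linarith [hx.1]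
      rw [max_eq_left (by linarith [hx.2])]
      have h1 : HasDerivAt (fun x : ℝ => x - ℓ) 1 x := (hasDerivAt_id' x).sub_const ℓ
      have h2 : HasDerivAt (fun x : ℝ => s + x) 1 x := (hasDerivAt_id' x).const_add s
      have h3 : HasDerivAt (fun x : ℝ => (s + x) ^ 2) (2 * (s + x)) x := by
        have := h2.fun_pow 2
        simpa using this
      have h4 := (h1.fun_div h3 (pow_ne_zero 2 hsx)).fun_add
        ((hasDerivAt_const x (1:ℝ)).fun_div h2 hsx)
      have h5 : (1 * (s + x) ^ 2 - (x - ℓ) * (2 * (s + x))) / ((s + x) ^ 2) ^ 2 +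
          (0 * (s + x) - 1 * 1) / (s + x) ^ 2 = 2 * (ℓ - x) / (s + x) ^ 3 := by
        field_simp
        ring
      rw [← h5]
      exact h4
    exact intervalIntegral.integral_eq_sub_of_hasDerivAt hder (hcont 0 m le_rfl hm0)
  rw [hsplit, hsecond, hfirst]
  have hX : 0 < s + m := by linarith
  have hXℓ : 0 < ℓ + s := by linarith
  have key : (m - ℓ) / (s + m) ^ 2 + 1 / (s + m) ≤ 1 / (ℓ + s) := by
    rw [div_add_div _ _ (by positivity) hX.ne', div_le_div_iff₀ (by positivity) hXℓ]
    have hδ : 0 ≤ ℓ - m := by linarith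
    have e : ℓ + s = (s + m) + (ℓ - m) := by ring
    rw [e]
    nlinarith [mul_nonneg hX.le (sq_nonneg (ℓ - m)), pow_pos hX 3]
  have e2 : (0 - ℓ) / (s + 0) ^ 2 + 1 / (s + 0) = -(ℓ / s ^ 2) + 1 / s := by
    simp only [zero_sub, add_zero]; ring
  rw [e2]
  linarith

/-- square root lower bound -/
lemma sqrt_lower {X σ r : ℝ} (hσ : 0 < σ) (hX : σ ≤ X) (hr : 1 ≤ r) (hr2 : r ≤ 2) :
    4 * (r - 1) / X - 18 * (r - 1) ^ 2 / σ ^ 3 ≤ √(X ^ 2 + 4 * (r ^ 2 - 1)) - X := by
  have hX0 : 0 < X := by linarith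
  set R := r ^ 2 - 1 with hR
  have hR0 : 0 ≤ R := by rw [hR]; nlinarith
  have hR1 : 2 * (r - 1) ≤ R := by rw [hR]; nlinarith
  have hR2 : R ≤ 3 * (r - 1) := by rw [hR]; nlinarith
  have h1 : 2 * R / X - 2 * R ^ 2 / X ^ 3 ≤ √(X ^ 2 + 4 * R) - X := by
    have hle : X + 2 * R / X - 2 * R ^ 2 / X ^ 3 ≤ √(X ^ 2 + 4 * R) := by
      by_cases hc : R ≤ 2 * X ^ 2
      · apply Real.le_sqrt_of_sq_le
        have e : (X + 2 * R / X - 2 * R ^ 2 / X ^ 3) ^ 2 =
            X ^ 2 + 4 * R - (4 * R ^ 3 / X ^ 6) * (2 * X ^ 2 - R) := by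
          field_simp
          ring
        rw [e]
        have : 0 ≤ (4 * R ^ 3 / X ^ 6) * (2 * X ^ 2 - R) := by
          apply mul_nonneg
          · positivity
          · linarith
        linarith
      · push Not at hc
        have : X + 2 * R / X - 2 * R ^ 2 / X ^ 3 ≤ 0 := by
          have e : X + 2 * R / X - 2 * R ^ 2 / X ^ 3 =
            -((2 * R ^ 2 - 2 * R * X ^ 2 - X ^ 4) / X ^ 3) := by
            field_simp
            ring
          rw [e, neg_nonpos]
          apply div_nonneg _ (by positivity)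
          nlinarith [sq_nonneg X, mul_pos hX0 hX0]
        exact this.trans (Real.sqrt_nonneg _)
    linarith
  have h2 : 4 * (r - 1) / X ≤ 2 * R / X := by
    apply div_le_div_of_nonneg_right _ hX0.le
    linarith
  have h3 : 2 * R ^ 2 / X ^ 3 ≤ 18 * (r - 1) ^ 2 / σ ^ 3 := by
    apply div_le_div₀ (by positivity) _ (by positivity) (pow_le_pow_left₀ hσ.le hX 3)
    nlinarith
  linarith

/-- Lower bound for the integral of `1/(L+s)` over the shadow. -/
lemma key_int (B : OrthonormalBasis (Fin (k+1)) ℝ (EuclideanSpace ℝ (Fin (k+1))))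
    {S : Set (EuclideanSpace ℝ (Fin (k+1)))} (hS : IsCompact S) (hc : Convex ℝ S)
    {s T : ℝ} (hs : 0 < s) (hT : 0 ≤ T) (g : ℝ → ℝ) (hg : Continuous g)
    (hgS : ∀ τ ∈ Ioo (0:ℝ) T, g τ ≤ (volume (er S (B 0) τ)).toReal) :
    shadow B S / s - (volume S).toReal / s ^ 2 + ∫ τ in (0:ℝ)..T, 2 * g τ / (s + τ) ^ 3 ≤
      ∫ y in shadowSet B S, 1 / (L B S y + s) := by
  set D := shadowSet B S with hD
  have hDc : IsCompact D := isCompact_shadowSet B hS
  have hfin : volume D ≠ ⊤ := hDc.measure_ne_top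
  have : IsFiniteMeasure (volume.restrict D) := ⟨by
    rw [Measure.restrict_apply_univ]; exact lt_top_iff_ne_top.mpr hfin⟩
  have hLm : Measurable (L B S) := measurable_L B S hS.measurableSet
  have hL0 : ∀ y, 0 ≤ L B S y := L_nonneg B S
  -- bound on L
  obtain ⟨R, hR⟩ := hS.isBounded.subset_closedBall 0
  -- the two-variable function
  let F : (Fin k → ℝ) → ℝ → ℝ := fun y τ => 2 * max (L B S y - τ) 0 / (s + τ) ^ 3
  have hLint : IntegrableOn (L B S) D := (integrable_L B hS).integrableOn
  have hFm : Measurable (Function.uncurry F) := by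
    apply Measurable.div
    · apply Measurable.const_mul
      exact ((hLm.comp measurable_fst).sub measurable_snd).max measurable_const
    · exact (measurable_const.add measurable_snd).pow_const 3
  have hFint : Integrable (Function.uncurry F)
      ((volume.restrict D).prod (volume.restrict (Ioc 0 T))) := by
    have hdom : Integrable (fun p : (Fin k → ℝ) × ℝ => (2 / s ^ 3) * L B S p.1)
        ((volume.restrict D).prod (volume.restrict (Ioc 0 T))) := by
      have : IsFiniteMeasure (volume.restrict (Ioc 0 T)) := ⟨by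
        rw [Measure.restrict_apply_univ, Real.volume_Ioc]; exact ENNReal.ofReal_lt_top⟩
      exact (hLint.comp_fst (volume.restrict (Ioc 0 T))).const_mul _
    apply hdom.mono hFm.aestronglyMeasurable
    have hae : ∀ᵐ p ∂((volume.restrict D).prod (volume.restrict (Ioc 0 T))), p.2 ∈ Ioc 0 T := by
      have h1 : ∀ᵐ t ∂(volume.restrict (Ioc 0 T)), t ∈ Ioc 0 T := by
        exact ae_restrict_mem measurableSet_Ioc
      exact Measure.quasiMeasurePreserving_snd.ae h1
    filter_upwards [hae] with p hp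
    have h1 : 0 ≤ max (L B S p.1 - p.2) 0 := le_max_right _ _
    have hsp : 0 < s + p.2 := by linarith [hp.1]
    have h2 : max (L B S p.1 - p.2) 0 ≤ L B S p.1 := by
      apply max_le
      · linarith [hp.1]
      · exact hL0 _
    show ‖2 * max (L B S p.1 - p.2) 0 / (s + p.2) ^ 3‖ ≤ ‖(2 / s ^ 3) * L B S p.1‖
    rw [Real.norm_of_nonneg (by positivity), Real.norm_of_nonneg (mul_nonneg (by positivity) (hL0 _))]
    rw [div_mul_eq_mul_div]
    apply div_le_div₀ (by have := hL0 p.1; positivity) (by linarith) (by positivity)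
    apply pow_le_pow_left₀ hs.le
    linarith [hp.1]
  -- integrate the pointwise inequality
  have hptw : ∀ y, 1 / s - L B S y / s ^ 2 + ∫ τ in (0:ℝ)..T, F y τ ≤ 1 / (L B S y + s) := by
    intro y
    have := inv_repr (s := s) (ℓ := L B S y) (T := T) hs (hL0 y) hT
    show 1 / s - L B S y / s ^ 2 + ∫ τ in (0:ℝ)..T, 2 * max (L B S y - τ) 0 / (s + τ) ^ 3 ≤ _
    linarith
  have hinner_int : Integrable (fun y => ∫ τ in (0:ℝ)..T, F y τ) (volume.restrict D) := by
    simp only [intervalIntegral.integral_of_le hT]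
    exact hFint.integral_prod_left
  have hconst : Integrable (fun _ : Fin k → ℝ => 1 / s) (volume.restrict D) :=
    integrable_const _
  have hL2 : Integrable (fun y => L B S y / s ^ 2) (volume.restrict D) :=
    Integrable.div_const hLint _
  have hrhs : Integrable (fun y => 1 / (L B S y + s)) (volume.restrict D) := by
    apply (integrable_const (1 / s)).mono
    · exact (measurable_const.div (hLm.add measurable_const)).aestronglyMeasurable
    · refine Filter.Eventually.of_forall fun y => ?_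
      have := hL0 y
      rw [Real.norm_of_nonneg (by positivity), Real.norm_of_nonneg (by positivity)]
      apply one_div_le_one_div_of_le hs
      linarith
  have hI : ∫ y in D, (1 / s - L B S y / s ^ 2 + ∫ τ in (0:ℝ)..T, F y τ) ≤
      ∫ y in D, 1 / (L B S y + s) :=
    integral_mono ((hconst.sub hL2).add hinner_int) hrhs hptw
  have hsplit : ∫ y in D, (1 / s - L B S y / s ^ 2 + ∫ τ in (0:ℝ)..T, F y τ) =
      shadow B S / s - (volume S).toReal / s ^ 2 + ∫ y in D, ∫ τ in (0:ℝ)..T, F y τ := by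
    have e1 := integral_add (μ := volume.restrict D) (f := fun y => 1 / s - L B S y / s ^ 2)
      (g := fun y => ∫ τ in (0:ℝ)..T, F y τ) (hconst.sub hL2) hinner_int
    rw [e1, integral_sub hconst hL2]
    congr 1
    rw [setIntegral_const, integral_div, ← volume_real_eq_set B hS (Subset.refl _)]
    congr 1
    rw [shadow, measureReal_def, smul_eq_mul, ← hD]; ring
  have hswap : ∫ y in D, ∫ τ in (0:ℝ)..T, F y τ = ∫ τ in (0:ℝ)..T, ∫ y in D, F y τ := by
    simp only [intervalIntegral.integral_of_le hT]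
    exact integral_integral_swap hFint
  have hval : ∀ τ ∈ Ioo (0:ℝ) T, 2 * g τ / (s + τ) ^ 3 ≤ ∫ y in D, F y τ := by
    intro τ hτ
    have hsp : 0 < s + τ := by linarith [hτ.1]
    have : ∫ y in D, F y τ = 2 / (s + τ) ^ 3 * (volume (er S (B 0) τ)).toReal := by
      rw [volume_er B hS hc hτ.1.le, ← integral_const_mul]
      apply integral_congr_ae
      refine Filter.Eventually.of_forall fun y => ?_
      show 2 * max (L B S y - τ) 0 / (s + τ) ^ 3 = _
      ring
    rw [this]
    have h1 := hgS τ hτ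
    have h2 : 2 * g τ / (s + τ) ^ 3 = 2 / (s + τ) ^ 3 * g τ := by ring
    rw [h2]
    exact mul_le_mul_of_nonneg_left h1 (by positivity)
  have hmono : ∫ τ in (0:ℝ)..T, 2 * g τ / (s + τ) ^ 3 ≤ ∫ τ in (0:ℝ)..T, ∫ y in D, F y τ := by
    apply intervalIntegral.integral_mono_on_of_le_Ioo hT
    · apply ContinuousOn.intervalIntegrable
      rw [uIcc_of_le hT]
      apply ContinuousOn.div
      · fun_prop
      · fun_prop
      · intro x hx
        have : 0 < s + x := by linarith [hx.1]
        positivity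
    · rw [intervalIntegrable_iff_integrableOn_Ioc_of_le hT]
      exact hFint.integral_prod_right
    · exact hval
  rw [hsplit, hswap] at hI
  linarith

/-- growth of the volume in the radius, seen from direction `B 0` -/
lemma growth (B : OrthonormalBasis (Fin (k+1)) ℝ (EuclideanSpace ℝ (Fin (k+1))))
    (u : Fin n → EuclideanSpace ℝ (Fin (k+1))) (w : Fin n → ℝ) (hw : ∀ i, 0 ≤ w i)
    {r σ : ℝ} (hr : 1 ≤ r) (hr2 : r ≤ 2) (hσ : 0 < σ)
    (hβ : ∑ i, w i * |inner ℝ (B 0) (u i)| ≤ σ) :
    V u w + (r - 1) * (4 * ∫ y in shadowSet B (K u w 1), 1 / (L B (K u w 1) y + σ)) -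
      18 * (r - 1) ^ 2 / σ ^ 3 * shadow B (K u w 1) ≤ (volume (K u w r)).toReal := by
  set S := K u w 1 with hSdef
  have hS : IsCompact S := isCompact_K u w 1
  have hc : Convex ℝ S := convex_K u w 1
  set D := shadowSet B S with hD
  have hDc : IsCompact D := isCompact_shadowSet B hS
  have hfin : volume D ≠ ⊤ := hDc.measure_ne_top
  have hLm : Measurable (L B S) := measurable_L B S hS.measurableSet
  have hL0 : ∀ y, 0 ≤ L B S y := L_nonneg B S
  have hSr : IsCompact (K u w r) := isCompact_K u w r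
  have hcr : Convex ℝ (K u w r) := convex_K u w r
  have hpt : ∀ y ∈ D, L B S y + (4 * (r - 1) / (L B S y + σ) - 18 * (r - 1) ^ 2 / σ ^ 3) ≤
      L B (K u w r) y := by
    intro y hy
    obtain ⟨a, b, hab, h⟩ := slice_Icc B hS hc hy
    have hline : {t : ℝ | mk B y 0 + t • B 0 ∈ K u w 1} = Icc a b := by
      rw [← h]
      ext t
      simp only [slice, mem_ofPred_eq]
      rw [mk_eq B y t]
    obtain ⟨a', b', hab', hsub, hlen⟩ := chord_ext u w hw (B 0) (mk B y 0)
      (B.orthonormal.norm_eq_one 0) a b hab hline r hr σ hβ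
    have hsub' : Icc a' b' ⊆ slice B (K u w r) y := by
      intro t ht
      have := hsub ht
      simp only [mem_ofPred_eq] at this
      show mk B y t ∈ K u w r
      rw [mk_eq B y t]; exact this
    have hLr : b' - a' ≤ L B (K u w r) y := by
      have h1 := measure_mono (μ := volume) hsub'
      rw [Real.volume_Icc] at h1
      have h2 := ENNReal.toReal_mono (volume_slice_ne_top B hSr y) h1
      rw [ENNReal.toReal_ofReal (by linarith)] at h2
      exact h2
    have hLS : L B S y = b - a := L_of_Icc hab h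
    have h3 := sqrt_lower (X := L B S y + σ) (σ := σ) (r := r) hσ (by linarith [hL0 y]) hr hr2
    rw [hLS] at h3 ⊢
    linarith
  have hintr : IntegrableOn (L B (K u w r)) D := (integrable_L B hSr).integrableOn
  have hint1 : IntegrableOn (L B S) D := (integrable_L B hS).integrableOn
  have : IsFiniteMeasure (volume.restrict D) := ⟨by
    rw [Measure.restrict_apply_univ]; exact lt_top_iff_ne_top.mpr hfin⟩
  have hinv : Integrable (fun y => 1 / (L B S y + σ)) (volume.restrict D) := by
    apply (integrable_const (1 / σ)).mono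
    · exact (measurable_const.div (hLm.add measurable_const)).aestronglyMeasurable
    · refine Filter.Eventually.of_forall fun y => ?_
      have := hL0 y
      rw [Real.norm_of_nonneg (by positivity), Real.norm_of_nonneg (by positivity)]
      apply one_div_le_one_div_of_le hσ
      linarith
  have hinv2 : Integrable (fun y => 4 * (r - 1) / (L B S y + σ)) (volume.restrict D) := by
    have := hinv.const_mul (4 * (r - 1))
    refine this.congr (Filter.Eventually.of_forall fun y => ?_)
    show 4 * (r - 1) * (1 / (L B S y + σ)) = 4 * (r - 1) / (L B S y + σ)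
    ring
  have hconst : Integrable (fun _ : Fin k → ℝ => 18 * (r - 1) ^ 2 / σ ^ 3) (volume.restrict D) :=
    integrable_const _
  have hle1 : ∫ y in D, (L B S y + (4 * (r - 1) / (L B S y + σ) - 18 * (r - 1) ^ 2 / σ ^ 3)) ≤
      ∫ y in D, L B (K u w r) y := by
    apply setIntegral_mono_on (hint1.add (hinv2.sub hconst)) hintr hDc.measurableSet hpt
  have hle2 : ∫ y in D, L B (K u w r) y ≤ (volume (K u w r)).toReal := by
    rw [volume_real_eq B hSr]
    apply setIntegral_le_integral (integrable_L B hSr)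
    exact Filter.Eventually.of_forall fun y => L_nonneg B _ y
  have heq : ∫ y in D, (L B S y + (4 * (r - 1) / (L B S y + σ) - 18 * (r - 1) ^ 2 / σ ^ 3)) =
      V u w + (r - 1) * (4 * ∫ y in D, 1 / (L B S y + σ)) -
        18 * (r - 1) ^ 2 / σ ^ 3 * shadow B S := by
    have e1 := integral_add (μ := volume.restrict D) (f := L B S)
      (g := fun y => 4 * (r - 1) / (L B S y + σ) - 18 * (r - 1) ^ 2 / σ ^ 3)
      hint1 (hinv2.sub hconst)
    have e2 := integral_sub (μ := volume.restrict D) (f := fun y => 4 * (r - 1) / (L B S y + σ))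
      (g := fun _ => 18 * (r - 1) ^ 2 / σ ^ 3) hinv2 hconst
    rw [e1, e2, ← volume_real_eq_set B hS (Subset.refl _), setIntegral_const]
    have e3 : ∫ y in D, 4 * (r - 1) / (L B S y + σ) =
        (r - 1) * (4 * ∫ y in D, 1 / (L B S y + σ)) := by
      rw [← integral_const_mul, ← integral_const_mul]
      apply integral_congr_ae
      refine Filter.Eventually.of_forall fun y => ?_
      show 4 * (r - 1) / (L B S y + σ) = (r - 1) * (4 * (1 / (L B S y + σ)))
      ring
    rw [e3, shadow, measureReal_def, smul_eq_mul, V, ← hD]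
    ring
  linarith

/-- The direction inequality. -/
lemma direction (B : OrthonormalBasis (Fin (k+1)) ℝ (EuclideanSpace ℝ (Fin (k+1))))
    (u : Fin n → EuclideanSpace ℝ (Fin (k+1))) (w : Fin n → ℝ) (hw : ∀ i, 0 ≤ w i)
    {r σ s T : ℝ} (hr : 1 ≤ r) (hr2 : r ≤ 2) (hσ : 0 < σ) (hσs : σ ≤ s) (hT : 0 ≤ T)
    (hβ : ∑ i, w i * |inner ℝ (B 0) (u i)| ≤ σ) (g : ℝ → ℝ) (hg : Continuous g)
    (hgS : ∀ τ ∈ Ioo (0:ℝ) T, g τ ≤ (volume (er (K u w 1) (B 0) τ)).toReal) :
    V u w + (r - 1) * (4 * (shadow B (K u w 1) / s - V u w / s ^ 2 +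
      (∫ τ in (0:ℝ)..T, 2 * g τ / (s + τ) ^ 3) +
      (s - σ) * shadow B (K u w 1) / (2 + s) ^ 2)) -
      18 * (r - 1) ^ 2 / σ ^ 3 * shadow B (K u w 1) ≤ (volume (K u w r)).toReal := by
  have hs : 0 < s := lt_of_lt_of_le hσ hσs
  have h1 := growth B u w hw hr hr2 hσ hβ
  have hS : IsCompact (K u w 1) := isCompact_K u w 1
  have h2 := key_int B hS (convex_K u w 1) hs hT g hg hgS
  set S := K u w 1 with hSdef
  set D := shadowSet B S with hD
  have hDc : IsCompact D := isCompact_shadowSet B hS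
  have hfin : volume D ≠ ⊤ := hDc.measure_ne_top
  have hLm : Measurable (L B S) := measurable_L B S hS.measurableSet
  have hL0 : ∀ y, 0 ≤ L B S y := L_nonneg B S
  have hL2 : ∀ y, L B S y ≤ 2 := L_le_two B (K_subset_closedBall u w 1)
  have : IsFiniteMeasure (volume.restrict D) := ⟨by
    rw [Measure.restrict_apply_univ]; exact lt_top_iff_ne_top.mpr hfin⟩
  have hinv : ∀ c : ℝ, 0 < c → Integrable (fun y => 1 / (L B S y + c)) (volume.restrict D) := by
    intro c hc
    apply (integrable_const (1 / c)).mono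
    · exact (measurable_const.div (hLm.add measurable_const)).aestronglyMeasurable
    · refine Filter.Eventually.of_forall fun y => ?_
      have := hL0 y
      rw [Real.norm_of_nonneg (by positivity), Real.norm_of_nonneg (by positivity)]
      apply one_div_le_one_div_of_le hc
      linarith
  have h3 : (∫ y in D, 1 / (L B S y + s)) + (s - σ) * shadow B S / (2 + s) ^ 2 ≤
      ∫ y in D, 1 / (L B S y + σ) := by
    have e1 : (s - σ) * shadow B S / (2 + s) ^ 2 = ∫ _ in D, (s - σ) / (2 + s) ^ 2 := by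
      rw [setIntegral_const, shadow, measureReal_def, smul_eq_mul, ← hD]; ring
    have e2 := integral_add (μ := volume.restrict D) (f := fun y => 1 / (L B S y + s))
      (g := fun _ => (s - σ) / (2 + s) ^ 2) (hinv s hs) (integrable_const _)
    rw [e1, ← e2]
    apply integral_mono ((hinv s hs).add (integrable_const _)) (hinv σ hσ)
    intro y
    show 1 / (L B S y + s) + (s - σ) / (2 + s) ^ 2 ≤ 1 / (L B S y + σ)
    have a0 := hL0 y
    have a2 := hL2 y
    have : 1 / (L B S y + σ) - 1 / (L B S y + s) = (s - σ) / ((L B S y + σ) * (L B S y + s)) := by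
      rw [div_sub_div _ _ (by positivity) (by positivity)]
      congr 1; ring
    have h4 : (s - σ) / (2 + s) ^ 2 ≤ (s - σ) / ((L B S y + σ) * (L B S y + s)) := by
      apply div_le_div_of_nonneg_left (by linarith) (by positivity)
      nlinarith
    linarith
  have hV : (volume S).toReal = V u w := rfl
  rw [hV] at h2
  have h5 : 0 ≤ r - 1 := by linarith
  have h6 : (r - 1) * (4 * (shadow B S / s - V u w / s ^ 2 +
      (∫ τ in (0:ℝ)..T, 2 * g τ / (s + τ) ^ 3) +
      (s - σ) * shadow B S / (2 + s) ^ 2)) ≤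
      (r - 1) * (4 * ∫ y in D, 1 / (L B S y + σ)) := by
    apply mul_le_mul_of_nonneg_left _ h5
    linarith
  linarith

end Pool.Agent.Helper934.BP
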