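import Mathlib
import Pool.Agent.Helper934.BPDirection

open MeasureTheory Set Metric Filter Topology
open scoped Pointwise

namespace Pool.Agent.Helper934.BP

variable {k n : ℕ}

lemma shadow_nonneg (B : OrthonormalBasis (Fin (k+1)) ℝ (EuclideanSpace ℝ (Fin (k+1))))
    (S : Set (EuclideanSpace ℝ (Fin (k+1)))) : 0 ≤ shadow B S := ENNReal.toReal_nonneg

lemma shadow_mono (B : OrthonormalBasis (Fin (k+1)) ℝ (EuclideanSpace ℝ (Fin (k+1))))
    {S S' : Set (EuclideanSpace ℝ (Fin (k+1)))} (hS' : IsCompact S') (h : S ⊆ S') :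
    shadow B S ≤ shadow B S' := by
  apply ENNReal.toReal_mono (isCompact_shadowSet B hS').measure_ne_top
  apply measure_mono
  rintro y ⟨t, ht⟩
  exact ⟨t, h ht⟩

/-- Increment lemma. -/
lemma increment (u : Fin n → EuclideanSpace ℝ (Fin (k+1)))
    (Bs : Fin n → OrthonormalBasis (Fin (k+1)) ℝ (EuclideanSpace ℝ (Fin (k+1))))
    (hB : ∀ i, Bs i 0 = u i) (w w' : Fin n → ℝ) (hw : ∀ i, 0 ≤ w i) (hww : ∀ i, w i ≤ w' i) :
    V u w ≤ V u w' + ∑ i, (w' i - w i) * shadow (Bs i) (K u w 1) := by
  classical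
  have key : ∀ T : Finset (Fin n), V u w ≤ V u (fun i => if i ∈ T then w' i else w i) +
      ∑ i ∈ T, (w' i - w i) * shadow (Bs i) (K u w 1) := by
    intro T
    induction T using Finset.induction_on with
    | empty => simp
    | insert i T hi ih =>
      set wT : Fin n → ℝ := fun j => if j ∈ T then w' j else w j with hwT
      have hwT0 : ∀ j, 0 ≤ wT j := by
        intro j
        simp only [hwT]
        split_ifs
        · exact (hw j).trans (hww j)
        · exact hw j
      have hwTle : ∀ j, w j ≤ wT j := by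
        intro j
        simp only [hwT]
        split_ifs
        · exact hww j
        · exact le_rfl
      have hτ : 0 ≤ w' i - w i := by linarith [hww i]
      have heq : (fun j => if j ∈ insert i T then w' j else w j) =
          wT + Pi.single i (w' i - w i) := by
        ext j
        by_cases hji : j = i
        · subst hji
          simp [hwT, hi]
        · simp [hwT, hji]
      have h1 := volume_le_er_add (Bs i) (isCompact_K u wT 1) (convex_K u wT 1) hτ
      have h2 : (volume (er (K u wT 1) (Bs i 0) (w' i - w i))).toReal ≤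
          V u (wT + Pi.single i (w' i - w i)) := by
        apply ENNReal.toReal_mono (volume_K_ne_top _ _ _)
        apply measure_mono
        rw [hB]
        exact er_subset_K_add u wT 1 i _ hτ (hwT0 i)
      have h3 : shadow (Bs i) (K u wT 1) ≤ shadow (Bs i) (K u w 1) :=
        shadow_mono _ (isCompact_K u w 1) (K_anti_w hw hwTle)
      rw [heq, Finset.sum_insert hi]
      have h4 : V u wT = (volume (K u wT 1)).toReal := rfl
      have h5 : (w' i - w i) * shadow (Bs i) (K u wT 1) ≤
          (w' i - w i) * shadow (Bs i) (K u w 1) := mul_le_mul_of_nonneg_left h3 hτ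
      linarith
  have := key Finset.univ
  simpa using this

lemma V_anti (u : Fin n → EuclideanSpace ℝ (Fin (k+1))) {w w' : Fin n → ℝ}
    (hw : ∀ i, 0 ≤ w i) (hww : ∀ i, w i ≤ w' i) : V u w' ≤ V u w :=
  ENNReal.toReal_mono (volume_K_ne_top _ _ _) (measure_mono (K_anti_w hw hww))

lemma V_nonneg (u : Fin n → EuclideanSpace ℝ (Fin (k+1))) (w : Fin n → ℝ) : 0 ≤ V u w :=
  ENNReal.toReal_nonneg

/-- left continuity of the shadow -/
lemma shadow_tendsto (B : OrthonormalBasis (Fin (k+1)) ℝ (EuclideanSpace ℝ (Fin (k+1))))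
    (u : Fin n → EuclideanSpace ℝ (Fin (k+1))) (w : Fin n → ℝ) (hw : ∀ i, 0 ≤ w i)
    (r : ℕ → ℝ) (hr1 : ∀ m, 1 ≤ r m) (hranti : Antitone r) (hr : Tendsto r atTop (𝓝 1)) :
    Tendsto (fun m => shadow B (K u (fun i => w i / r m) 1)) atTop (𝓝 (shadow B (K u w 1))) := by
  set S : ℕ → Set (EuclideanSpace ℝ (Fin (k+1))) := fun m => K u (fun i => w i / r m) 1 with hSdef
  have hr0 : ∀ m, 0 < r m := fun m => lt_of_lt_of_le one_pos (hr1 m)
  have hScomp : ∀ m, IsCompact (S m) := fun m => isCompact_K _ _ _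
  have hSanti : Antitone S := by
    intro m m' hmm
    apply K_anti_w
    · intro i; exact div_nonneg (hw i) (hr0 m).le
    · intro i
      exact div_le_div_of_nonneg_left (hw i) (hr0 m') (hranti hmm)
  have hSinter : ⋂ m, S m = K u w 1 := by
    apply Subset.antisymm
    · intro x hx ε hε
      have h1 : ∀ m, ‖x + ∑ i, (ε i * (w i / r m / 2)) • u i‖ ≤ 1 := by
        intro m
        exact (mem_iInter.mp hx m) ε hε
      have h2 : Tendsto (fun m => ‖x + ∑ i, (ε i * (w i / r m / 2)) • u i‖) atTop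
          (𝓝 ‖x + ∑ i, (ε i * (w i / 1 / 2)) • u i‖) := by
        apply Tendsto.norm
        apply Tendsto.add tendsto_const_nhds
        apply tendsto_finsetSum
        intro i _
        apply Tendsto.smul_const
        apply Tendsto.const_mul
        apply Tendsto.div_const
        exact Tendsto.div tendsto_const_nhds hr one_ne_zero
      have h3 := le_of_tendsto' h2 h1
      simpa using h3
    · intro x hx
      rw [mem_iInter]
      intro m
      have : K u w 1 ⊆ S m := by
        apply K_anti_w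
        · intro i; exact div_nonneg (hw i) (hr0 m).le
        · intro i; exact div_le_self (hw i) (hr1 m)
      exact this hx
  have hDanti : Antitone (fun m => shadowSet B (S m)) := by
    intro m m' hmm
    rintro y ⟨t, ht⟩
    exact ⟨t, hSanti hmm ht⟩
  have hDinter : ⋂ m, shadowSet B (S m) = shadowSet B (K u w 1) := by
    apply Subset.antisymm
    · intro y hy
      have hne : (⋂ m, slice B (S m) y).Nonempty := by
        apply IsCompact.nonempty_iInter_of_sequence_nonempty_isCompact_isClosed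
        · intro m t ht
          exact hSanti (Nat.le_succ m) ht
        · intro m
          exact mem_iInter.mp hy m
        · obtain ⟨a, b, _, h⟩ := slice_Icc B (hScomp 0) (convex_K _ _ _) (mem_iInter.mp hy 0)
          rw [h]; exact isCompact_Icc
        · intro m
          obtain ⟨a, b, _, h⟩ := slice_Icc B (hScomp m) (convex_K _ _ _) (mem_iInter.mp hy m)
          rw [h]; exact isClosed_Icc
      obtain ⟨t, ht⟩ := hne
      refine ⟨t, ?_⟩
      rw [← hSinter]
      rw [mem_iInter] at ht ⊢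
      exact ht
    · rintro y ⟨t, ht⟩
      rw [← hSinter] at ht
      rw [mem_iInter] at ht ⊢
      exact fun m => ⟨t, ht m⟩
  have hmeas := tendsto_measure_iInter_atTop (μ := volume) (s := fun m => shadowSet B (S m))
    (fun m => (isCompact_shadowSet B (hScomp m)).measurableSet.nullMeasurableSet) hDanti
    ⟨0, (isCompact_shadowSet B (hScomp 0)).measure_ne_top⟩
  rw [hDinter] at hmeas
  exact (ENNReal.tendsto_toReal (isCompact_shadowSet B (isCompact_K u w 1)).measure_ne_top).comp hmeas

/-- The fundamental differential inequality. -/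
theorem main_ineq (u : Fin n → EuclideanSpace ℝ (Fin (k+1)))
    (Bs : Fin n → OrthonormalBasis (Fin (k+1)) ℝ (EuclideanSpace ℝ (Fin (k+1))))
    (hB : ∀ i, Bs i 0 = u i) (w : Fin n → ℝ) (hw : ∀ i, 0 ≤ w i) (s T : ℝ)
    (hs : 0 < s) (hsum : ∑ i, w i = s) (hT : 0 ≤ T) (σ : Fin n → ℝ) (hσ : ∀ i, 0 < σ i)
    (hσs : ∀ i, σ i ≤ s) (hβ : ∀ i, ∑ j, w j * |inner ℝ (u i) (u j)| ≤ σ i)
    (g : ℝ → ℝ) (hg : Continuous g)
    (hgS : ∀ i, ∀ τ ∈ Ioo (0:ℝ) T, g τ ≤ (volume (er (K u w 1) (u i) τ)).toReal) :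
    4 * (∑ i, w i * (shadow (Bs i) (K u w 1) / s - V u w / s ^ 2 +
      (∫ τ in (0:ℝ)..T, 2 * g τ / (s + τ) ^ 3) +
      (s - σ i) * shadow (Bs i) (K u w 1) / (2 + s) ^ 2)) ≤
    s * ((k + 1 : ℝ) * V u w + ∑ i, w i * shadow (Bs i) (K u w 1)) := by
  set G : ℝ := ∫ τ in (0:ℝ)..T, 2 * g τ / (s + τ) ^ 3 with hG
  set A : Fin n → ℝ := fun i => shadow (Bs i) (K u w 1) with hA
  set X : Fin n → ℝ := fun i => A i / s - V u w / s ^ 2 + G + (s - σ i) * A i / (2 + s) ^ 2
    with hX
  set C : ℝ := ∑ i, w i * (18 / σ i ^ 3 * A i) with hC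
  let r : ℕ → ℝ := fun m => 1 + 1 / ((m : ℝ) + 1)
  have hr1 : ∀ m, 1 < r m := by
    intro m
    have : (0:ℝ) < 1 / ((m : ℝ) + 1) := by positivity
    show 1 < 1 + 1 / ((m : ℝ) + 1)
    linarith
  have hr2 : ∀ m, r m ≤ 2 := by
    intro m
    have : 1 / ((m : ℝ) + 1) ≤ 1 := by
      rw [div_le_one (by positivity)]; linarith [(Nat.cast_nonneg m : (0:ℝ) ≤ m)]
    show 1 + 1 / ((m : ℝ) + 1) ≤ 2
    linarith
  have hranti : Antitone r := by
    intro m m' hmm
    show 1 + 1 / ((m' : ℝ) + 1) ≤ 1 + 1 / ((m : ℝ) + 1)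
    have : (m : ℝ) ≤ m' := by exact_mod_cast hmm
    gcongr
  have hrlim : Tendsto r atTop (𝓝 1) := by
    have h1 : Tendsto (fun m : ℕ => 1 / ((m : ℝ) + 1)) atTop (𝓝 0) :=
      tendsto_one_div_add_atTop_nhds_zero_nat
    have h2 := h1.const_add 1
    rw [add_zero] at h2
    exact h2
  have hA0 : ∀ i, 0 ≤ A i := fun i => shadow_nonneg _ _
  have hV0 : 0 ≤ V u w := V_nonneg u w
  let W : ℕ → ℝ := fun m => ∑ j, w j * shadow (Bs j) (K u (fun i => w i / r m) 1)
  have hWlim : Tendsto W atTop (𝓝 (∑ j, w j * A j)) := by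
    apply tendsto_finsetSum
    intro j _
    exact (shadow_tendsto (Bs j) u w hw r (fun m => (hr1 m).le) hranti hrlim).const_mul _
  -- inequality for each m
  have hstep : ∀ m, 4 * (∑ i, w i * X i) - (r m - 1) * C ≤
      s * ((∑ j ∈ Finset.range (k + 1), r m ^ j) * V u w + r m ^ k * W m) := by
    intro m
    have hrm1 := hr1 m
    have hrm0 : 0 < r m := by linarith
    have hinc := increment u Bs hB (fun i => w i / r m) w
      (fun i => div_nonneg (hw i) hrm0.le) (fun i => div_le_self (hw i) hrm1.le)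
    have hinc' : V u (fun i => w i / r m) ≤ V u w + (1 - 1 / r m) * W m := by
      have : ∑ i, (w i - w i / r m) * shadow (Bs i) (K u (fun i => w i / r m) 1) =
          (1 - 1 / r m) * W m := by
        show _ = (1 - 1 / r m) * ∑ j, w j * shadow (Bs j) (K u (fun i => w i / r m) 1)
        rw [Finset.mul_sum]
        apply Finset.sum_congr rfl
        intro i _
        ring
      linarith
    have hscale := volume_K_scale u w hrm0
    have hdir : ∀ i, V u w + (r m - 1) * (4 * X i) - (r m - 1) ^ 2 * (18 / σ i ^ 3 * A i) ≤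
        r m ^ (k + 1) * (V u w + (1 - 1 / r m) * W m) := by
      intro i
      have h := direction (Bs i) u w hw hrm1.le (hr2 m) (hσ i) (hσs i) hT
        (by rw [hB]; exact hβ i) g hg (by rw [hB]; exact hgS i)
      rw [hscale] at h
      have h2 : r m ^ (k + 1) * V u (fun i => w i / r m) ≤
          r m ^ (k + 1) * (V u w + (1 - 1 / r m) * W m) :=
        mul_le_mul_of_nonneg_left hinc' (by positivity)
      have h3 : 18 * (r m - 1) ^ 2 / σ i ^ 3 * shadow (Bs i) (K u w 1) =
          (r m - 1) ^ 2 * (18 / σ i ^ 3 * A i) := by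
        show 18 * (r m - 1) ^ 2 / σ i ^ 3 * shadow (Bs i) (K u w 1) =
          (r m - 1) ^ 2 * (18 / σ i ^ 3 * shadow (Bs i) (K u w 1))
        ring
      rw [h3] at h
      exact h.trans h2
    have hsum2 : ∑ i, w i * (V u w + (r m - 1) * (4 * X i) -
        (r m - 1) ^ 2 * (18 / σ i ^ 3 * A i)) ≤
        ∑ i, w i * (r m ^ (k + 1) * (V u w + (1 - 1 / r m) * W m)) :=
      Finset.sum_le_sum fun i _ => mul_le_mul_of_nonneg_left (hdir i) (hw i)
    rw [← Finset.sum_mul, hsum] at hsum2
    have hlhs : ∑ i, w i * (V u w + (r m - 1) * (4 * X i) -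
        (r m - 1) ^ 2 * (18 / σ i ^ 3 * A i)) =
        s * V u w + (r m - 1) * (4 * ∑ i, w i * X i) - (r m - 1) ^ 2 * C := by
      rw [hC, ← hsum, Finset.sum_mul, Finset.mul_sum, Finset.mul_sum, Finset.mul_sum,
        ← Finset.sum_add_distrib, ← Finset.sum_sub_distrib]
      apply Finset.sum_congr rfl
      intro i _
      ring
    rw [hlhs] at hsum2
    have hgeom : (∑ j ∈ Finset.range (k + 1), r m ^ j) * (r m - 1) = r m ^ (k + 1) - 1 :=
      geom_sum_mul (r m) (k + 1)
    have hpow : r m ^ (k + 1) * (1 - 1 / r m) = r m ^ k * (r m - 1) := by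
      field_simp
      ring
    have hpos : 0 < r m - 1 := by linarith
    -- divide by r - 1
    have hfin : (r m - 1) * (4 * (∑ i, w i * X i) - (r m - 1) * C) ≤
        (r m - 1) * (s * ((∑ j ∈ Finset.range (k + 1), r m ^ j) * V u w + r m ^ k * W m)) := by
      have e1 : s * (r m ^ (k + 1) * (V u w + (1 - 1 / r m) * W m)) =
          s * (r m ^ (k + 1) * V u w) + s * ((r m ^ (k + 1) * (1 - 1 / r m)) * W m) := by ring
      rw [e1, hpow] at hsum2
      have e2 : r m ^ (k + 1) = (∑ j ∈ Finset.range (k + 1), r m ^ j) * (r m - 1) + 1 := by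
        linarith
      rw [e2] at hsum2
      nlinarith
    exact le_of_mul_le_mul_left hfin hpos
  have hl : Tendsto (fun m => 4 * (∑ i, w i * X i) - (r m - 1) * C) atTop
      (𝓝 (4 * (∑ i, w i * X i) - (1 - 1) * C)) :=
    tendsto_const_nhds.sub ((hrlim.sub_const 1).mul_const C)
  have hrr : Tendsto (fun m => s * ((∑ j ∈ Finset.range (k + 1), r m ^ j) * V u w +
      r m ^ k * W m)) atTop
      (𝓝 (s * ((∑ j ∈ Finset.range (k + 1), (1:ℝ) ^ j) * V u w + (1:ℝ) ^ k *
        ∑ j, w j * A j))) := by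
    apply Tendsto.const_mul
    apply Tendsto.add
    · apply Tendsto.mul_const
      apply tendsto_finsetSum
      intro j _
      exact hrlim.pow j
    · exact (hrlim.pow k).mul hWlim
  have := le_of_tendsto_of_tendsto' hl hrr hstep
  simpa using this

end Pool.Agent.Helper934.BP
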