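import Mathlib
import Pool.Agent.Helper934.BPDefs

open MeasureTheory Set intervalIntegral

namespace Pool.Agent.Helper934.BP

noncomputable def gfun (k : ℕ) (t : ℝ) : ℝ := kap k * (Real.sqrt (1 - t ^ 2)) ^ k

theorem ballk_closed (k : ℕ) (r : ℝ) : IsClosed {y : Fin k → ℝ | ∑ i, y i ^ 2 ≤ r} :=
  isClosed_le (by fun_prop) continuous_const

theorem ballk_lt_top (k : ℕ) : volume {y : Fin k → ℝ | ∑ i, y i ^ 2 ≤ 1} < ⊤ := by
  refine lt_of_le_of_lt (measure_mono (t := Set.Icc (fun _ => (-1 : ℝ)) (fun _ => 1)) ?_)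
    isCompact_Icc.measure_lt_top
  intro y hy
  have hy' : ∑ i, y i ^ 2 ≤ 1 := hy
  have h1 : ∀ i, y i ^ 2 ≤ 1 := fun i =>
    (Finset.single_le_sum (f := fun i => y i ^ 2) (fun _ _ => sq_nonneg _)
      (Finset.mem_univ i)).trans hy'
  constructor
  · intro i
    have := h1 i
    simp only
    nlinarith
  · intro i
    have := h1 i
    simp only
    nlinarith

theorem kap_pos (k : ℕ) : 0 < kap k := by
  unfold kap
  apply ENNReal.toReal_pos _ (ballk_lt_top k).ne
  apply ne_of_gt
  have hopen : IsOpen {y : Fin k → ℝ | ∑ i, y i ^ 2 < 1} :=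
    isOpen_lt (by fun_prop) continuous_const
  have h1 : 0 < volume {y : Fin k → ℝ | ∑ i, y i ^ 2 < 1} :=
    hopen.measure_pos volume ⟨0, by simp⟩
  refine lt_of_lt_of_le h1 (measure_mono ?_)
  intro y hy
  have hy' : ∑ i, y i ^ 2 < 1 := hy
  exact hy'.le

theorem ofReal_kap (k : ℕ) :
    ENNReal.ofReal (kap k) = volume {y : Fin k → ℝ | ∑ i, y i ^ 2 ≤ 1} :=
  ENNReal.ofReal_toReal (ballk_lt_top k).ne

open Pointwise in
theorem ballk_scale {k : ℕ} (hk : 1 ≤ k) (t : ℝ) :
    volume {y : Fin k → ℝ | ∑ i, y i ^ 2 ≤ 1 - t ^ 2} = ENNReal.ofReal (gfun k t) := by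
  unfold gfun
  by_cases h : 0 < 1 - t ^ 2
  · set ρ := Real.sqrt (1 - t ^ 2) with hρ
    have hρ0 : 0 < ρ := Real.sqrt_pos.mpr h
    have hρ2 : ρ ^ 2 = 1 - t ^ 2 := Real.sq_sqrt h.le
    have hset : {y : Fin k → ℝ | ∑ i, y i ^ 2 ≤ 1 - t ^ 2} =
        ρ • {y : Fin k → ℝ | ∑ i, y i ^ 2 ≤ 1} := by
      ext y
      rw [Set.mem_smul_set_iff_inv_smul_mem₀ hρ0.ne']
      simp only [Set.mem_ofPred_eq, Pi.smul_apply, smul_eq_mul, mul_pow]
      rw [← Finset.mul_sum, ← hρ2, inv_pow, inv_mul_le_iff₀ (by positivity), mul_one]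
    rw [hset, Measure.addHaar_smul, Module.finrank_fin_fun, ← ofReal_kap,
      abs_of_nonneg (by positivity), ← ENNReal.ofReal_mul (by positivity), mul_comm]
  · have h0 : Real.sqrt (1 - t ^ 2) = 0 := Real.sqrt_eq_zero_of_nonpos (by linarith)
    rw [h0, zero_pow (by omega), mul_zero, ENNReal.ofReal_zero]
    have : NeZero k := ⟨by omega⟩
    refine measure_mono_null (t := {(0 : Fin k → ℝ)}) ?_ ?_
    · intro y hy
      have hy' : ∑ i, y i ^ 2 ≤ 1 - t ^ 2 := hy
      have h2 : ∑ i, y i ^ 2 ≤ 0 := by linarith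
      have h3 : ∑ i, y i ^ 2 = 0 := le_antisymm h2 (Finset.sum_nonneg (fun _ _ => sq_nonneg _))
      rw [Finset.sum_eq_zero_iff_of_nonneg (fun _ _ => sq_nonneg _)] at h3
      rw [Set.mem_singleton_iff]
      funext i
      have := h3 i (Finset.mem_univ i)
      simpa using this
    · exact measure_singleton _

theorem slab_volume {k : ℕ} (hk : 1 ≤ k) (e : EuclideanSpace ℝ (Fin (k+1))) (he : ‖e‖ = 1)
    (J : Set ℝ) (hJ : MeasurableSet J) :
    volume ({x : EuclideanSpace ℝ (Fin (k+1)) | inner ℝ e x ∈ J} ∩ Metric.closedBall 0 1) =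
      ∫⁻ t in J, ENNReal.ofReal (gfun k t) := by
  obtain ⟨b, hb⟩ := Orthonormal.exists_orthonormalBasis_extension_of_card_eq (𝕜 := ℝ)
    (E := EuclideanSpace ℝ (Fin (k+1))) (ι := Fin (k+1)) (by simp)
    (v := fun _ => e) (s := {0}) (by
      constructor
      · intro i; simpa using he
      · intro i j hij
        exact absurd (Subsingleton.elim i j) hij)
  have hb0 : b 0 = e := hb 0 (by simp)
  have mp1 := b.measurePreserving_repr
  have mp2 := EuclideanSpace.volume_preserving_symm_measurableEquiv_toLp (Fin (k+1))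
  have mp3 := volume_preserving_piFinSuccAbove (fun _ : Fin (k+1) => ℝ) 0
  have mp := mp3.comp (mp2.comp mp1)
  set D : Set (ℝ × (Fin k → ℝ)) := {q | q.1 ∈ J ∧ ∑ i, q.2 i ^ 2 ≤ 1 - q.1 ^ 2} with hD
  have hDm : MeasurableSet D := by
    apply MeasurableSet.inter
    · exact measurable_fst hJ
    · have hc : IsClosed {q : ℝ × (Fin k → ℝ) | ∑ i, q.2 i ^ 2 ≤ 1 - q.1 ^ 2} :=
        isClosed_le (by fun_prop) (by fun_prop)
      exact hc.measurableSet
  have hpre : {x : EuclideanSpace ℝ (Fin (k+1)) | inner ℝ e x ∈ J} ∩ Metric.closedBall 0 1 =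
      ((⇑(MeasurableEquiv.piFinSuccAbove (fun _ : Fin (k+1) => ℝ) 0) ∘
        ⇑(MeasurableEquiv.toLp 2 (Fin (k+1) → ℝ)).symm ∘ ⇑b.repr)) ⁻¹' D := by
    ext x
    have hn : ‖x‖ ^ 2 = (inner ℝ e x) ^ 2 + ∑ i : Fin k, ((b.repr x).ofLp i.succ) ^ 2 := by
      rw [← b.repr.norm_map x, EuclideanSpace.norm_sq_eq, Fin.sum_univ_succ]
      rw [b.repr_apply_apply, hb0]
      simp only [Real.norm_eq_abs, sq_abs]
    have h1 : ((⇑(MeasurableEquiv.piFinSuccAbove (fun _ : Fin (k+1) => ℝ) 0) ∘
        ⇑(MeasurableEquiv.toLp 2 (Fin (k+1) → ℝ)).symm ∘ ⇑b.repr) x) =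
        (inner ℝ e x, fun i : Fin k => (b.repr x).ofLp i.succ) := by
      rw [← hb0, ← b.repr_apply_apply]
      rfl
    rw [Set.mem_preimage, h1, Set.mem_inter_iff, Metric.mem_closedBall, dist_zero_right]
    simp only [hD, Set.mem_ofPred_eq]
    constructor
    · rintro ⟨h2, h3⟩
      refine ⟨h2, ?_⟩
      have : ‖x‖ ^ 2 ≤ 1 := by nlinarith [norm_nonneg x]
      linarith
    · rintro ⟨h2, h3⟩
      refine ⟨h2, ?_⟩
      have : ‖x‖ ^ 2 ≤ 1 := by linarith
      nlinarith [norm_nonneg x]
  rw [hpre, mp.measure_preimage hDm.nullMeasurableSet]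
  rw [Measure.volume_eq_prod, Measure.prod_apply hDm, ← lintegral_indicator hJ]
  apply lintegral_congr
  intro t
  by_cases ht : t ∈ J
  · rw [Set.indicator_of_mem ht, ← ballk_scale hk t]
    congr 1
    ext y
    simp [hD, ht]
  · rw [Set.indicator_of_notMem ht]
    have : Prod.mk t ⁻¹' D = ∅ := by
      ext y
      simp [hD, ht]
    rw [this, measure_empty]


theorem gfun_continuous (k : ℕ) : Continuous (gfun k) := by
  unfold gfun; fun_prop

theorem gfun_nonneg (k : ℕ) (t : ℝ) : 0 ≤ gfun k t := by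
  unfold gfun
  have := (kap_pos k).le
  positivity

theorem gfun_neg (k : ℕ) (t : ℝ) : gfun k (-t) = gfun k t := by
  unfold gfun; rw [neg_sq]

theorem gfun_zero {k : ℕ} (hk : 1 ≤ k) {t : ℝ} (ht : 1 ≤ |t|) : gfun k t = 0 := by
  unfold gfun
  have h1 : 1 ≤ t ^ 2 := by
    rw [← sq_abs]; nlinarith
  rw [Real.sqrt_eq_zero_of_nonpos (by linarith), zero_pow (by omega), mul_zero]

theorem gfun_integrable {k : ℕ} (hk : 1 ≤ k) : Integrable (gfun k) := by
  apply (gfun_continuous k).integrable_of_hasCompactSupport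
  apply HasCompactSupport.intro (K := Set.Icc (-1) 1) isCompact_Icc
  intro t ht
  apply gfun_zero hk
  by_contra hcon
  push Not at hcon
  rw [abs_lt] at hcon
  exact ht ⟨hcon.1.le, hcon.2.le⟩

theorem slab_toReal {k : ℕ} (J : Set ℝ) :
    (∫⁻ t in J, ENNReal.ofReal (gfun k t)).toReal = ∫ t in J, gfun k t := by
  rw [integral_eq_lintegral_of_nonneg_ae]
  · exact Filter.Eventually.of_forall (fun t => gfun_nonneg k t)
  · exact (gfun_continuous k).aestronglyMeasurable

theorem gfun_strict {k : ℕ} (hk : 1 ≤ k) {s t : ℝ} (hs : 0 ≤ s) (hs1 : s < 1) (h : s < |t|) :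
    gfun k t < gfun k s := by
  by_cases ht : |t| < 1
  · unfold gfun
    apply mul_lt_mul_of_pos_left _ (kap_pos k)
    apply pow_lt_pow_left₀ _ (Real.sqrt_nonneg _) (by omega)
    apply Real.sqrt_lt_sqrt
    · have : t ^ 2 < 1 := by rw [← sq_abs]; nlinarith [abs_nonneg t]
      linarith
    · have : s ^ 2 < t ^ 2 := by rw [← sq_abs t]; nlinarith [abs_nonneg t]
      linarith
  · push Not at ht
    rw [gfun_zero hk ht]
    unfold gfun
    have h1 : 0 < 1 - s ^ 2 := by nlinarith
    have := kap_pos k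
    have := Real.sqrt_pos.mpr h1
    positivity

theorem gfun_anti {k : ℕ} {s t : ℝ} (h : |t| ≤ s) :
    gfun k s ≤ gfun k t := by
  unfold gfun
  apply mul_le_mul_of_nonneg_left _ (kap_pos k).le
  apply pow_le_pow_left₀ (Real.sqrt_nonneg _)
  apply Real.sqrt_le_sqrt
  have : t ^ 2 ≤ s ^ 2 := by rw [← sq_abs t]; nlinarith [abs_nonneg t]
  linarith

/-- Part 1: volume of the unit ball minus a centred slab. -/
theorem lens_volume {k : ℕ} (hk : 1 ≤ k) (e : EuclideanSpace ℝ (Fin (k+1))) (he : ‖e‖ = 1)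
    (s : ℝ) (hs : 0 ≤ s) (hs2 : s ≤ 2) :
    (volume (Metric.closedBall (0 : EuclideanSpace ℝ (Fin (k+1))) 1 \
      {x | |inner ℝ e x| ≤ s / 2})).toReal = kap k * lensf k s := by
  have hJ : MeasurableSet {t : ℝ | s / 2 < |t|} := by
    exact measurableSet_lt measurable_const (by fun_prop)
  have hset : (Metric.closedBall (0 : EuclideanSpace ℝ (Fin (k+1))) 1 \
      {x | |inner ℝ e x| ≤ s / 2}) =
      {x : EuclideanSpace ℝ (Fin (k+1)) | inner ℝ e x ∈ {t : ℝ | s / 2 < |t|}} ∩
        Metric.closedBall 0 1 := by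
    ext x
    simp only [Set.mem_sdiff, Set.mem_ofPred_eq, not_le, Set.mem_inter_iff]
    tauto
  rw [hset, slab_volume hk e he _ hJ, slab_toReal]
  have hsplit : {t : ℝ | s / 2 < |t|} = Set.Ioi (s / 2) ∪ Set.Iio (-(s / 2)) := by
    ext t
    simp only [Set.mem_ofPred_eq, Set.mem_union, Set.mem_Ioi, Set.mem_Iio]
    rw [lt_abs]
    constructor
    · rintro (h | h)
      · exact Or.inl h
      · right; linarith
    · rintro (h | h)
      · exact Or.inl h
      · right; linarith
  have hint := gfun_integrable hk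
  rw [hsplit, setIntegral_union _ measurableSet_Iio hint.integrableOn hint.integrableOn]
  · have h2 : ∫ t in Set.Iio (-(s / 2)), gfun k t = ∫ t in Set.Ioi (s / 2), gfun k t := by
      rw [← integral_Iic_eq_integral_Iio, ← integral_comp_neg_Ioi]
      apply MeasureTheory.integral_congr_ae
      exact Filter.Eventually.of_forall (fun t => gfun_neg k t)
    rw [h2]
    have h3 : ∫ t in Set.Ioi (s / 2), gfun k t = ∫ t in (s / 2)..1, gfun k t := by
      rw [intervalIntegral.integral_of_le (by linarith),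
        ← Set.Ioc_union_Ioi_eq_Ioi (by linarith : s / 2 ≤ 1),
        setIntegral_union (Set.Ioc_disjoint_Ioi le_rfl) measurableSet_Ioi hint.integrableOn
          hint.integrableOn]
      have h4 : ∫ t in Set.Ioi (1 : ℝ), gfun k t = 0 := by
        apply setIntegral_eq_zero_of_forall_eq_zero
        intro t ht
        apply gfun_zero hk
        rw [Set.mem_Ioi] at ht
        exact (le_abs_self t).trans' ht.le
      rw [h4, add_zero]
    rw [h3]
    have h5 : ∫ x in s..2, kap k * prof k x = kap k * lensf k s := by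
      unfold lensf
      rw [intervalIntegral.integral_const_mul]
    rw [← h5]
    have h6 := intervalIntegral.integral_comp_div (a := s) (b := 2) (gfun k)
      (two_ne_zero : (2 : ℝ) ≠ 0)
    rw [div_self two_ne_zero, smul_eq_mul] at h6
    have h7 : ∫ x in s..2, kap k * prof k x = ∫ x in s..2, gfun k (x / 2) := by
      apply intervalIntegral.integral_congr
      intro x _
      simp only [prof, gfun]
      rw [show (x / 2) ^ 2 = x ^ 2 / 4 by ring]
    rw [h7, h6]
    ring
  · rw [Set.disjoint_left]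
    intro t h1 h2
    rw [Set.mem_Ioi] at h1
    rw [Set.mem_Iio] at h2
    linarith

/-- Part 2: among unions of parallel slabs of total width `s`, only the centred slab is optimal. -/
theorem parallel_case {k n : ℕ} (hk : 1 ≤ k) (hn : 1 ≤ n) (e : EuclideanSpace ℝ (Fin (k+1)))
    (he : ‖e‖ = 1) (c w : Fin n → ℝ) (hw : ∀ i, 0 < w i) (hs : ∑ i, w i < 2)
    (h : volume ({x : EuclideanSpace ℝ (Fin (k+1)) | |inner ℝ e x| ≤ (∑ i, w i) / 2} ∩
        Metric.closedBall 0 1) ≤
      volume ((⋃ i, {x : EuclideanSpace ℝ (Fin (k+1)) |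
        c i ≤ inner ℝ e x ∧ inner ℝ e x ≤ c i + w i}) ∩ Metric.closedBall 0 1)) :
    (⋃ i, {x : EuclideanSpace ℝ (Fin (k+1)) | c i ≤ inner ℝ e x ∧ inner ℝ e x ≤ c i + w i}) =
      {x : EuclideanSpace ℝ (Fin (k+1)) | |inner ℝ e x| ≤ (∑ i, w i) / 2} := by
  set s := ∑ i, w i with hsdef
  have hne : (Finset.univ : Finset (Fin n)).Nonempty := ⟨⟨0, by omega⟩, Finset.mem_univ _⟩
  have hs0 : 0 < s := Finset.sum_pos (fun i _ => hw i) hne
  set J : Set ℝ := ⋃ i, Set.Icc (c i) (c i + w i) with hJdef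
  set I : Set ℝ := Set.Icc (-(s / 2)) (s / 2) with hIdef
  have hJclosed : IsClosed J := isClosed_iUnion_of_finite (fun i => isClosed_Icc)
  have hJm : MeasurableSet J := hJclosed.measurableSet
  have hIm : MeasurableSet I := measurableSet_Icc
  have hpreJ : (⋃ i, {x : EuclideanSpace ℝ (Fin (k+1)) |
      c i ≤ inner ℝ e x ∧ inner ℝ e x ≤ c i + w i}) =
      {x : EuclideanSpace ℝ (Fin (k+1)) | inner ℝ e x ∈ J} := by
    ext x
    simp only [hJdef, Set.mem_iUnion, Set.mem_ofPred_eq, Set.mem_Icc]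
  have hpreI : {x : EuclideanSpace ℝ (Fin (k+1)) | |inner ℝ e x| ≤ s / 2} =
      {x : EuclideanSpace ℝ (Fin (k+1)) | inner ℝ e x ∈ I} := by
    ext x
    simp only [hIdef, Set.mem_ofPred_eq, Set.mem_Icc, abs_le]
  rw [hpreJ, hpreI] at h ⊢
  rw [slab_volume hk e he _ hIm, slab_volume hk e he _ hJm] at h
  have hint := gfun_integrable hk
  have hfin : ∀ A : Set ℝ, ∫⁻ t in A, ENNReal.ofReal (gfun k t) ≠ ⊤ := by
    intro A
    exact (hint.integrableOn (s := A)).lintegral_lt_top.ne
  have h1 : ∫ t in I, gfun k t ≤ ∫ t in J, gfun k t := by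
    rw [← slab_toReal, ← slab_toReal]
    exact ENNReal.toReal_mono (hfin _) h
  -- measures of the differences
  have hIvol : volume I = ENNReal.ofReal s := by
    rw [hIdef, Real.volume_Icc]; congr 1; ring
  have hJvol : volume J ≤ ENNReal.ofReal s := by
    calc volume J ≤ ∑ i, volume (Set.Icc (c i) (c i + w i)) := measure_iUnion_fintype_le _ _
      _ = ∑ i, ENNReal.ofReal (w i) := by
          apply Finset.sum_congr rfl
          intro i _
          rw [Real.volume_Icc]; congr 1; ring
      _ = ENNReal.ofReal s := by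
          rw [hsdef, ENNReal.ofReal_sum_of_nonneg (fun i _ => (hw i).le)]
  have hdJ : volume J = volume (J ∩ I) + volume (J \ I) := (measure_inter_add_sdiff J hIm).symm
  have hdI : volume I = volume (I ∩ J) + volume (I \ J) := (measure_inter_add_sdiff I hJm).symm
  have hcomm : J ∩ I = I ∩ J := Set.inter_comm _ _
  have hIJfin : volume (I ∩ J) ≠ ⊤ := by
    apply ne_top_of_le_ne_top _ (measure_mono Set.inter_subset_left)
    rw [hIvol]; exact ENNReal.ofReal_ne_top
  have hle : volume (J \ I) ≤ volume (I \ J) := by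
    have h2 : volume (I ∩ J) + volume (J \ I) ≤ volume (I ∩ J) + volume (I \ J) := by
      rw [← hdI, ← hcomm, ← hdJ, hIvol]; exact hJvol
    exact (ENNReal.add_le_add_iff_left hIJfin).mp h2
  have hIJ2 : volume (I \ J) ≠ ⊤ := by
    apply ne_top_of_le_ne_top _ (measure_mono Set.sdiff_subset)
    rw [hIvol]; exact ENNReal.ofReal_ne_top
  have hJI2 : volume (J \ I) ≠ ⊤ := ne_top_of_le_ne_top hIJ2 hle
  -- integrals
  set c0 := gfun k (s / 2) with hc0
  have hc0pos : 0 < c0 := by
    have := gfun_strict hk (s := s / 2) (t := 1) (by linarith) (by linarith) (by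
      rw [abs_one]; linarith)
    rw [gfun_zero hk (by simp)] at this
    exact this
  have e1 : ∫ t in J, gfun k t = (∫ t in J ∩ I, gfun k t) + ∫ t in J \ I, gfun k t :=
    (integral_inter_add_sdiff hIm hint.integrableOn).symm
  have e2 : ∫ t in I, gfun k t = (∫ t in I ∩ J, gfun k t) + ∫ t in I \ J, gfun k t :=
    (integral_inter_add_sdiff hJm hint.integrableOn).symm
  have h3 : ∫ t in I \ J, gfun k t ≤ ∫ t in J \ I, gfun k t := by
    rw [e1, e2, hcomm] at h1
    linarith
  have hJIm : MeasurableSet (J \ I) := MeasurableSet.diff hJm hIm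
  have hIJm : MeasurableSet (I \ J) := MeasurableSet.diff hIm hJm
  have h4 : c0 * volume.real (I \ J) ≤ ∫ t in I \ J, gfun k t := by
    have : ∫ t in I \ J, c0 ≤ ∫ t in I \ J, gfun k t := by
      apply setIntegral_mono_on (integrableOn_const hIJ2) hint.integrableOn hIJm
      intro t ht
      apply gfun_anti
      rw [abs_le]
      exact ht.1
    rw [setIntegral_const, smul_eq_mul, mul_comm] at this
    exact this
  have hstrict : ∀ t ∈ J \ I, gfun k t < c0 := by
    intro t ht
    apply gfun_strict hk (by linarith) (by linarith)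
    by_contra hcon
    push Not at hcon
    exact ht.2 (abs_le.mp hcon)
  have h5 : ∫ t in J \ I, gfun k t ≤ c0 * volume.real (J \ I) := by
    have : ∫ t in J \ I, gfun k t ≤ ∫ t in J \ I, c0 := by
      apply setIntegral_mono_on hint.integrableOn (integrableOn_const hJI2) hJIm
      intro t ht
      exact (hstrict t ht).le
    rw [setIntegral_const, smul_eq_mul, mul_comm] at this
    exact this
  have h6 : volume.real (J \ I) ≤ volume.real (I \ J) := ENNReal.toReal_mono hIJ2 hle
  have h7 : c0 * volume.real (J \ I) ≤ c0 * volume.real (I \ J) :=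
    mul_le_mul_of_nonneg_left h6 hc0pos.le
  have h8 : ∫ t in J \ I, gfun k t = c0 * volume.real (J \ I) := by linarith
  have h9 : volume (J \ I) = 0 := by
    by_contra hcon
    have hpos : 0 < volume (J \ I) := pos_iff_ne_zero.mpr hcon
    have hci : Integrable (fun _ : ℝ => c0) (volume.restrict (J \ I)) :=
      integrableOn_const (μ := volume) (s := J \ I) (C := c0) hJI2
    have hgi : Integrable (fun t : ℝ => gfun k t) (volume.restrict (J \ I)) :=
      hint.integrableOn
    have h10 : ∫ t in J \ I, (c0 - gfun k t) = 0 := by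
      rw [MeasureTheory.integral_sub hci hgi, setIntegral_const, smul_eq_mul, h8]
      ring
    have h11 : 0 < ∫ t in J \ I, (c0 - gfun k t) := by
      rw [setIntegral_pos_iff_support_of_nonneg_ae]
      · apply lt_of_lt_of_le hpos
        apply measure_mono
        intro t ht
        refine ⟨?_, ht⟩
        rw [Function.mem_support]
        have := hstrict t ht
        intro h0
        linarith
      · rw [Filter.EventuallyLE, ae_restrict_iff' hJIm]
        exact Filter.Eventually.of_forall (fun t ht => by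
          have := hstrict t ht
          simp only [Pi.zero_apply]
          linarith)
      · exact hci.sub hgi
    linarith
  have h12 : volume (I \ J) = 0 := by
    have h13 : volume.real (J \ I) = 0 := by
      unfold Measure.real
      rw [h9]; rfl
    rw [h13, mul_zero] at h8
    have h14 : c0 * volume.real (I \ J) ≤ 0 := by linarith
    have h15 : volume.real (I \ J) ≤ 0 := by
      by_contra hcon
      push Not at hcon
      have := mul_pos hc0pos hcon
      linarith
    have h16 : volume.real (I \ J) = 0 := le_antisymm h15 ENNReal.toReal_nonneg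
    exact (ENNReal.toReal_eq_zero_iff _).mp h16 |>.resolve_right hIJ2
  -- topological part
  have htop : ∀ a b : ℝ, a < b → ∀ U : Set ℝ, IsOpen U → ∀ t ∈ Set.Icc a b, t ∈ U →
      0 < volume (Set.Icc a b ∩ U) := by
    intro a b hab U hU t ht htU
    rw [← closure_Ioo hab.ne, mem_closure_iff] at ht
    obtain ⟨z, hz1, hz2⟩ := ht U hU htU
    have h17 : 0 < volume (Set.Ioo a b ∩ U) :=
      (isOpen_Ioo.inter hU).measure_pos volume ⟨z, hz2, hz1⟩
    exact lt_of_lt_of_le h17 (measure_mono (Set.inter_subset_inter_left _ Set.Ioo_subset_Icc_self))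
  have hIJ : I = J := by
    apply Set.Subset.antisymm
    · intro t ht
      by_contra hcon
      have := htop (-(s / 2)) (s / 2) (by linarith) Jᶜ hJclosed.isOpen_compl t ht hcon
      rw [← hIdef, ← Set.sdiff_eq, h12] at this
      exact lt_irrefl _ this
    · intro t ht
      by_contra hcon
      obtain ⟨i, hi⟩ := Set.mem_iUnion.mp ht
      have h18 := htop (c i) (c i + w i) (by linarith [hw i]) Iᶜ
        isClosed_Icc.isOpen_compl t hi hcon
      have h19 : volume (Set.Icc (c i) (c i + w i) ∩ Iᶜ) ≤ volume (J \ I) := by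
        apply measure_mono
        intro z hz
        exact ⟨Set.mem_iUnion.mpr ⟨i, hz.1⟩, hz.2⟩
      rw [h9] at h19
      exact absurd h18 (not_lt.mpr h19)
  rw [hIJ]

end Pool.Agent.Helper934.BP
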