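import Mathlib
import Pool.Agent.Helper934.BPDefs

open MeasureTheory Set intervalIntegral

namespace Pool.Agent.Helper934.BP


lemma prof_cont (k : ℕ) : Continuous (prof k) := by
  unfold prof
  fun_prop

lemma prof_nonneg (k : ℕ) (t : ℝ) : 0 ≤ prof k t := by
  unfold prof; positivity

lemma lensf_hasDerivAt (k : ℕ) (t : ℝ) : HasDerivAt (lensf k) (-prof k t) t :=
  intervalIntegral.integral_hasDerivAt_left ((prof_cont k).intervalIntegrable _ _)
    ((prof_cont k).stronglyMeasurable.stronglyMeasurableAtFilter) (prof_cont k).continuousAt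

lemma lensf_cont (k : ℕ) : Continuous (lensf k) :=
  continuous_iff_continuousAt.mpr fun t => (lensf_hasDerivAt k t).continuousAt

lemma lensf_two (k : ℕ) : lensf k 2 = 0 := by
  unfold lensf; simp

lemma lensf_antitone (k : ℕ) : Antitone (lensf k) := by
  apply antitone_of_deriv_nonpos
  · exact fun t => (lensf_hasDerivAt k t).differentiableAt
  · intro t
    rw [(lensf_hasDerivAt k t).deriv]
    linarith [prof_nonneg k t]

lemma lensf_nonneg (k : ℕ) {t : ℝ} (ht : t ≤ 2) : 0 ≤ lensf k t := by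
  rw [← lensf_two k]
  exact lensf_antitone k ht

/-- the width function `√(1 - t²/4)` -/
noncomputable def ww (t : ℝ) : ℝ := Real.sqrt (1 - t ^ 2 / 4)

lemma ww_pos {t : ℝ} (ht : t ∈ Ioo (0:ℝ) 2) : 0 < ww t := by
  unfold ww
  apply Real.sqrt_pos.mpr
  have h1 := ht.1
  have h2 := ht.2
  nlinarith

lemma ww_sq {t : ℝ} (ht : t ∈ Ioo (0:ℝ) 2) : ww t ^ 2 = 1 - t ^ 2 / 4 := by
  unfold ww
  apply Real.sq_sqrt
  have h1 := ht.1
  have h2 := ht.2
  nlinarith

lemma ww_hasDerivAt {t : ℝ} (ht : t ∈ Ioo (0:ℝ) 2) : HasDerivAt ww (-t / (4 * ww t)) t := by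
  have hpos := ww_pos ht
  have h0 : 1 - t ^ 2 / 4 ≠ 0 := by
    rw [← ww_sq ht]; positivity
  have h1 : HasDerivAt (fun t : ℝ => 1 - t ^ 2 / 4) (-(2 * t / 4)) t := by
    have := ((hasDerivAt_pow 2 t).div_const 4).const_sub 1
    simpa using this
  have h2 := h1.sqrt h0
  have e : -(2 * t / 4) / (2 * Real.sqrt (1 - t ^ 2 / 4)) = -t / (4 * ww t) := by
    unfold ww
    have : Real.sqrt (1 - t ^ 2 / 4) ≠ 0 := hpos.ne'
    field_simp
  rw [e] at h2
  exact h2

lemma prof_eq (k : ℕ) (t : ℝ) : prof k t = ww t ^ k := rfl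

lemma prof_hasDerivAt (k : ℕ) {t : ℝ} (ht : t ∈ Ioo (0:ℝ) 2) :
    HasDerivAt (prof k) (-(k * t / (4 - t ^ 2)) * prof k t) t := by
  have hpos := ww_pos ht
  have hsq := ww_sq ht
  have h4 : 4 - t ^ 2 = 4 * ww t ^ 2 := by rw [hsq]; ring
  have h1 := (ww_hasDerivAt ht).pow k
  have e : (k : ℝ) * ww t ^ (k - 1) * (-t / (4 * ww t)) = -(k * t / (4 - t ^ 2)) * prof k t := by
    rw [h4, prof_eq]
    rcases Nat.eq_zero_or_pos k with hk | hk
    · subst hk; simp
    · obtain ⟨m, rfl⟩ : ∃ m, k = m + 1 := ⟨k - 1, by omega⟩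
      simp only [Nat.add_sub_cancel]
      field_simp
      ring
  rw [e] at h1
  exact h1

/-- derivative of the tail integral -/
lemma tail_hasDerivAt {g : ℝ → ℝ} (hg : Continuous g) {t : ℝ} (ht : t ∈ Ioo (0:ℝ) 2) :
    HasDerivAt (fun x => ∫ y in x..2, g y / y ^ 3) (-(g t / t ^ 3)) t := by
  have ht0 := ht.1
  have hcont : ∀ x : ℝ, 0 < x → ContinuousAt (fun y => g y / y ^ 3) x := by
    intro x hx
    exact hg.continuousAt.div (continuous_pow 3).continuousAt (by positivity)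
  apply intervalIntegral.integral_hasDerivAt_left
  · apply ContinuousOn.intervalIntegrable
    intro x hx
    rw [uIcc_of_le ht.2.le] at hx
    exact (hcont x (ht0.trans_le hx.1)).continuousWithinAt
  · have : Measurable fun y => g y / y ^ 3 := hg.measurable.div (measurable_id.pow_const 3)
    exact this.stronglyMeasurable.stronglyMeasurableAtFilter
  · exact hcont t ht0

lemma tail_contOn {g : ℝ → ℝ} (hg : Continuous g) {t : ℝ} (ht : t ∈ Ioo (0:ℝ) 2) :
    ContinuousOn (fun x => ∫ y in x..2, g y / y ^ 3) (Icc t 2) := by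
  have ht0 := ht.1
  have h1 : ContinuousOn (fun y => g y / y ^ 3) (Icc t 2) := by
    intro x hx
    have hx0 : 0 < x := ht0.trans_le hx.1
    exact (hg.continuousAt.div (continuous_pow 3).continuousAt (by positivity)).continuousWithinAt
  have hint : IntervalIntegrable (fun y => g y / y ^ 3) volume t 2 := by
    apply ContinuousOn.intervalIntegrable
    rwa [uIcc_of_le ht.2.le]
  have h2 := intervalIntegral.continuousOn_primitive_interval_left (μ := volume)
    (f := fun y => g y / y ^ 3) (a := t) (b := 2) (by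
      rw [uIcc_of_le ht.2.le]
      exact (intervalIntegrable_iff_integrableOn_Icc_of_le ht.2.le).mp hint)
  rw [uIcc_of_le ht.2.le] at h2
  exact h2

/-- Part 1: the explicit identity satisfied by `lensf`. -/
theorem lensf_identity (k : ℕ) (hk : 1 ≤ k) (t : ℝ) (ht : t ∈ Ioo (0:ℝ) 2) :
    prof k t * ((4 - t ^ 2) / t) =
      ((k : ℝ) + 1 + 4 / t ^ 2) * lensf k t - 8 * ∫ y in t..2, lensf k y / y ^ 3 := by
  obtain ⟨G, hG⟩ : ∃ G : ℝ → ℝ, G = fun t => prof k t * ((4 - t ^ 2) / t) -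
      ((k : ℝ) + 1 + 4 / t ^ 2) * lensf k t + 8 * ∫ y in t..2, lensf k y / y ^ 3 := ⟨_, rfl⟩
  have ht0 := ht.1
  have hder : ∀ x ∈ Ioo (0:ℝ) 2, HasDerivAt G 0 x := by
    intro x hx
    have hx0 : x ≠ 0 := hx.1.ne'
    have hx4 : 4 - x ^ 2 ≠ 0 := by
      have := hx.1; have := hx.2; nlinarith
    have d1 : HasDerivAt (fun t : ℝ => (4 - t ^ 2) / t) (((-(2 * x)) * x - (4 - x ^ 2) * 1) / x ^ 2) x := by
      have h1 : HasDerivAt (fun t : ℝ => 4 - t ^ 2) (-(2 * x)) x := by
        simpa using (hasDerivAt_pow 2 x).const_sub 4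
      exact h1.div (hasDerivAt_id x) hx0
    have d2 := (prof_hasDerivAt k hx).mul d1
    have d3 : HasDerivAt (fun t : ℝ => (k : ℝ) + 1 + 4 / t ^ 2) (-(4 * (2 * x)) / (x ^ 2) ^ 2) x := by
      have h1 : HasDerivAt (fun t : ℝ => 4 / t ^ 2) ((0 * x ^ 2 - 4 * (2 * x)) / (x ^ 2) ^ 2) x := by
        have := (hasDerivAt_const x (4:ℝ)).fun_div (hasDerivAt_pow 2 x) (by positivity)
        simpa using this
      have := h1.const_add ((k : ℝ) + 1)
      simpa using this
    have d4 := d3.mul (lensf_hasDerivAt k x)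
    have d5 := (tail_hasDerivAt (lensf_cont k) hx).const_mul 8
    have d6 := (d2.sub d4).add d5
    have e : -(k * x / (4 - x ^ 2)) * prof k x * ((4 - x ^ 2) / x) +
        prof k x * (((-(2 * x)) * x - (4 - x ^ 2) * 1) / x ^ 2) -
        (-(4 * (2 * x)) / (x ^ 2) ^ 2 * lensf k x + ((k : ℝ) + 1 + 4 / x ^ 2) * -prof k x) +
        8 * -(lensf k x / x ^ 3) = 0 := by
      field_simp
      ring
    rw [e] at d6
    rw [hG]
    exact d6
  have hcontG : ContinuousOn G (Icc t 2) := by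
    rw [hG]
    apply ContinuousOn.add
    · apply ContinuousOn.sub
      · apply ContinuousOn.mul (prof_cont k).continuousOn
        apply ContinuousOn.div (by fun_prop) (by fun_prop)
        intro x hx
        exact (ht0.trans_le hx.1).ne'
      · apply ContinuousOn.mul _ (lensf_cont k).continuousOn
        apply ContinuousOn.add (by fun_prop)
        apply ContinuousOn.div (by fun_prop) (by fun_prop)
        intro x hx
        have := ht0.trans_le hx.1
        positivity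
    · exact (tail_contOn (lensf_cont k) ht).const_mul 8 |>.congr (fun x _ => rfl)
  obtain ⟨c, hc, hc2⟩ := exists_hasDerivAt_eq_slope G (fun _ => 0) ht.2 hcontG (fun x hx =>
    hder x ⟨ht0.trans hx.1, hx.2⟩)
  have h1 : G 2 - G t = 0 := by
    have h2 : (2 : ℝ) - t ≠ 0 := by linarith [ht.2]
    field_simp at hc2
    linarith
  have h3 : G 2 = 0 := by
    rw [hG]
    simp only [lensf_two, intervalIntegral.integral_same]
    norm_num
  rw [h3, hG] at h1
  simp only at h1
  linarith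

/-- the multiplier -/
noncomputable def mu (k : ℕ) (t : ℝ) : ℝ := t / ww t ^ (k + 2)

/-- the weight -/
noncomputable def rho (k : ℕ) (t : ℝ) : ℝ := mu k t * (t / (4 - t ^ 2))

lemma mu_pos (k : ℕ) {t : ℝ} (ht : t ∈ Ioo (0:ℝ) 2) : 0 < mu k t :=
  div_pos ht.1 (pow_pos (ww_pos ht) _)

lemma four_pos {t : ℝ} (ht : t ∈ Ioo (0:ℝ) 2) : 0 < 4 - t ^ 2 := by
  have := ht.1; have := ht.2; nlinarith

lemma rho_pos (k : ℕ) {t : ℝ} (ht : t ∈ Ioo (0:ℝ) 2) : 0 < rho k t :=
  mul_pos (mu_pos k ht) (div_pos ht.1 (four_pos ht))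

lemma mu_hasDerivAt (k : ℕ) {t : ℝ} (ht : t ∈ Ioo (0:ℝ) 2) :
    HasDerivAt (mu k) (((k : ℝ) + 1 + 4 / t ^ 2) * rho k t) t := by
  have hpos := ww_pos ht
  have hsq := ww_sq ht
  have ht0 := ht.1
  have h4 : 4 - t ^ 2 = 4 * ww t ^ 2 := by rw [hsq]; ring
  have h1 := (ww_hasDerivAt ht).pow (k + 2)
  have h2 := (hasDerivAt_id t).div h1 (pow_pos hpos _).ne'
  have e : (1 * (ww ^ (k + 2)) t - id t * (((k + 2 : ℕ) : ℝ) * ww t ^ (k + 2 - 1) * (-t / (4 * ww t)))) /
      (ww ^ (k + 2)) t ^ 2 = ((k : ℝ) + 1 + 4 / t ^ 2) * rho k t := by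
    unfold rho mu
    simp only [Pi.pow_apply, id_eq]
    have e0 : k + 2 - 1 = k + 1 := rfl
    have e1 : (4 : ℝ) = 4 * ww t ^ 2 + t ^ 2 := by rw [hsq]; ring
    rw [e0, h4]
    push_cast
    have e2 : (k : ℝ) + 1 + 4 / t ^ 2 = k + 2 + 4 * ww t ^ 2 / t ^ 2 := by
      field_simp
      linarith
    rw [e2]
    field_simp
    ring
  rw [e] at h2
  exact h2

lemma mu_contOn (k : ℕ) : ContinuousOn (mu k) (Ioo 0 2) := fun _ ht =>
  (mu_hasDerivAt k ht).continuousAt.continuousWithinAt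

lemma rho_contOn (k : ℕ) : ContinuousOn (rho k) (Ioo 0 2) := by
  unfold rho
  apply (mu_contOn k).mul
  apply ContinuousOn.div (by fun_prop) (by fun_prop)
  intro x hx
  exact (four_pos hx).ne'

/-- the tail term -/
noncomputable def tl (g : ℝ → ℝ) (x : ℝ) : ℝ := 8 * ∫ y in x..2, g y / y ^ 3

lemma tl_contOn {g : ℝ → ℝ} (hg : Continuous g) : ContinuousOn (tl g) (Ioo 0 2) := fun _ ht =>
  ((tail_hasDerivAt hg ht).const_mul 8).continuousAt.continuousWithinAt

lemma rt_contOn (k : ℕ) {g : ℝ → ℝ} (hg : Continuous g) :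
    ContinuousOn (fun x => rho k x * tl g x) (Ioo 0 2) := (rho_contOn k).mul (tl_contOn hg)

lemma Icc_sub {a b : ℝ} (ha : 0 < a) (hb : b < 2) : Icc a b ⊆ Ioo 0 2 := fun _ hx =>
  ⟨ha.trans_le hx.1, hx.2.trans_lt hb⟩

lemma rt_int (k : ℕ) {g : ℝ → ℝ} (hg : Continuous g) {a b : ℝ} (ha : a ∈ Ioo (0:ℝ) 2)
    (hb : b ∈ Ioo (0:ℝ) 2) :
    IntervalIntegrable (fun x => rho k x * tl g x) volume a b := by
  apply ContinuousOn.intervalIntegrable
  apply (rt_contOn k hg).mono
  intro x hx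
  rw [mem_uIcc] at hx
  rcases hx with h | h
  · exact ⟨ha.1.trans_le h.1, h.2.trans_lt hb.2⟩
  · exact ⟨hb.1.trans_le h.1, h.2.trans_lt ha.2⟩

lemma rt_hasDerivAt (k : ℕ) {g : ℝ → ℝ} (hg : Continuous g) {a x : ℝ} (ha : a ∈ Ioo (0:ℝ) 2)
    (hx : x ∈ Ioo (0:ℝ) 2) :
    HasDerivAt (fun u => ∫ y in a..u, rho k y * tl g y) (rho k x * tl g x) x := by
  apply intervalIntegral.integral_hasDerivAt_right (rt_int k hg ha hx)
  · exact ContinuousOn.stronglyMeasurableAtFilter isOpen_Ioo (rt_contOn k hg) x hx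
  · exact (rt_contOn k hg).continuousAt (isOpen_Ioo.mem_nhds hx)

lemma comparison (k : ℕ) (v A g : ℝ → ℝ) (hg : Continuous g) (hcont : ContinuousOn v (Ioo 0 2))
    (h1 : ∀ t ∈ Ioo (0:ℝ) 2, ∀ t' ∈ Ioo (0:ℝ) 2, t ≤ t' → v t - v t' ≤ (t' - t) * A t)
    (h2 : ∀ t ∈ Ioo (0:ℝ) 2, A t * ((4 - t ^ 2) / t) ≤
      ((k : ℝ) + 1 + 4 / t ^ 2) * v t - 8 * ∫ y in t..2, g y / y ^ 3)
    {a b : ℝ} (ha : 0 < a) (hab : a ≤ b) (hb : b < 2) :
    mu k a * v a + ∫ x in a..b, rho k x * tl g x ≤ mu k b * v b := by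
  have hsub := Icc_sub ha hb
  have ha' : a ∈ Ioo (0:ℝ) 2 := ⟨ha, hab.trans_lt hb⟩
  have key : ∀ ⦃x⦄, x ∈ Icc a b → -(mu k x * v x) ≤
      -(mu k a * v a) - ∫ y in a..x, rho k y * tl g y := by
    apply image_le_of_liminf_slope_right_le_deriv_boundary
      (f := fun x => -(mu k x * v x))
      (B := fun x => -(mu k a * v a) - ∫ y in a..x, rho k y * tl g y)
      (B' := fun x => -(rho k x * tl g x))
    · exact (((mu_contOn k).mul hcont).mono hsub).neg
    · simp
    · intro x hx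
      exact ((rt_hasDerivAt k hg ha' (hsub hx)).continuousAt.continuousWithinAt).const_sub _
        |> fun h => h
    · intro x hx
      have := (rt_hasDerivAt k hg ha' (hsub (Ico_subset_Icc_self hx))).const_sub (-(mu k a * v a))
      exact this.hasDerivWithinAt
    · intro x hx r hr
      have hx' := hsub (Ico_subset_Icc_self hx)
      have hmux := mu_pos k hx'
      -- the limit bound
      have hlim : Filter.Tendsto (fun z => -(slope (mu k) x z) * v z + mu k x * A x)
          (nhdsWithin x (Ioi x))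
          (nhds (-(((k : ℝ) + 1 + 4 / x ^ 2) * rho k x) * v x + mu k x * A x)) := by
        have e1 : Filter.Tendsto (slope (mu k) x) (nhdsWithin x (Ioi x))
            (nhds (((k : ℝ) + 1 + 4 / x ^ 2) * rho k x)) :=
          ((hasDerivAt_iff_tendsto_slope.mp (mu_hasDerivAt k hx')).mono_left
            (nhdsWithin_mono x (fun z hz => (ne_of_gt hz : z ≠ x))))
        have e2 : Filter.Tendsto v (nhdsWithin x (Ioi x)) (nhds (v x)) :=
          ((hcont.continuousAt (isOpen_Ioo.mem_nhds hx')).tendsto).mono_left nhdsWithin_le_nhds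
        exact (e1.neg.mul e2).add_const _
      have hbound : -(((k : ℝ) + 1 + 4 / x ^ 2) * rho k x) * v x + mu k x * A x < r := by
        have h3 := h2 x hx'
        have h4 := four_pos hx'
        have h5 := hx'.1
        have h6 : mu k x * A x ≤ rho k x * (((k : ℝ) + 1 + 4 / x ^ 2) * v x - tl g x) := by
          have h7 := mul_le_mul_of_nonneg_left h3 (rho_pos k hx').le
          have h8 : rho k x * (A x * ((4 - x ^ 2) / x)) = mu k x * A x := by
            unfold rho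
            field_simp
          rw [h8] at h7
          exact h7
        linarith
      have hev : ∀ᶠ z in nhdsWithin x (Ioi x), slope (fun x => -(mu k x * v x)) x z < r := by
        have h9 := hlim.eventually (gt_mem_nhds hbound)
        have h10 : ∀ᶠ z in nhdsWithin x (Ioi x), z ∈ Ioo x 2 :=
          Ioo_mem_nhdsGT hx'.2
        filter_upwards [h9, h10] with z hz hz2
        refine lt_of_le_of_lt ?_ hz
        have hz' : z ∈ Ioo (0:ℝ) 2 := ⟨hx'.1.trans hz2.1, hz2.2⟩
        have hzx : 0 < z - x := sub_pos.mpr hz2.1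
        have h11 := h1 x hx' z hz' hz2.1.le
        rw [slope_def_field, slope_def_field]
        have h12 : (-(mu k z * v z) - -(mu k x * v x)) / (z - x) =
            -((mu k z - mu k x) / (z - x)) * v z + mu k x * ((v x - v z) / (z - x)) := by
          field_simp
          ring
        rw [h12]
        have h13 : (v x - v z) / (z - x) ≤ A x := by
          rw [div_le_iff₀ hzx]; linarith
        have := mul_le_mul_of_nonneg_left h13 hmux.le
        linarith
      exact hev.frequently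
  have := key (right_mem_Icc.mpr hab)
  linarith

/-- equality for the lens function -/
lemma lens_eq (k : ℕ) (hk : 1 ≤ k) {a b : ℝ} (ha : 0 < a) (hab : a ≤ b) (hb : b < 2) :
    ∫ x in a..b, rho k x * tl (lensf k) x = mu k b * lensf k b - mu k a * lensf k a := by
  have hsub := Icc_sub ha hb
  apply intervalIntegral.integral_eq_sub_of_hasDerivAt (f := fun x => mu k x * lensf k x)
  · intro x hx
    rw [uIcc_of_le hab] at hx
    have hx' := hsub hx
    have h1 := (mu_hasDerivAt k hx').mul (lensf_hasDerivAt k x)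
    have h2 := lensf_identity k hk x hx'
    have h4 := four_pos hx'
    have h5 := hx'.1
    have e : ((k : ℝ) + 1 + 4 / x ^ 2) * rho k x * lensf k x + mu k x * -prof k x =
        rho k x * tl (lensf k) x := by
      have h6 : mu k x * prof k x = rho k x * (prof k x * ((4 - x ^ 2) / x)) := by
        unfold rho
        field_simp
      unfold tl
      rw [mul_neg, h6, h2]
      ring
    rw [e] at h1
    exact h1
  · exact rt_int k (lensf_cont k) ⟨ha, hab.trans_lt hb⟩ ⟨ha.trans_le hab, hb⟩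

lemma prof_anti (k : ℕ) {x y : ℝ} (hx : 0 ≤ x) (hxy : x ≤ y) : prof k y ≤ prof k x := by
  unfold prof
  apply pow_le_pow_left₀ (Real.sqrt_nonneg _)
  apply Real.sqrt_le_sqrt
  nlinarith

lemma lens_le (k : ℕ) {t : ℝ} (ht : t ∈ Ioo (0:ℝ) 2) : lensf k t ≤ (2 - t) * prof k t := by
  unfold lensf
  calc ∫ x in t..2, prof k x ≤ ∫ x in t..2, prof k t := by
        apply intervalIntegral.integral_mono_on ht.2.le ((prof_cont k).intervalIntegrable _ _)
          (_root_.intervalIntegrable_const)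
        intro x hx
        exact prof_anti k ht.1.le hx.1
    _ = (2 - t) * prof k t := by simp

lemma mu_lens_le (k : ℕ) {t : ℝ} (ht : t ∈ Ioo (0:ℝ) 2) : mu k t * lensf k t ≤ 4 := by
  have hpos := ww_pos ht
  have hsq := ww_sq ht
  have h1 := ht.1
  have h2 := ht.2
  have h3 : lensf k t ≤ 2 * ww t ^ (k + 2) := by
    refine (lens_le k ht).trans ?_
    rw [prof_eq, pow_add, hsq]
    have h4 : 0 ≤ ww t ^ k := by positivity
    have h5 : 2 - t ≤ 2 * (1 - t ^ 2 / 4) := by nlinarith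
    nlinarith
  calc mu k t * lensf k t ≤ mu k t * (2 * ww t ^ (k + 2)) :=
        mul_le_mul_of_nonneg_left h3 (mu_pos k ht).le
    _ = 2 * t := by unfold mu; field_simp
    _ ≤ 4 := by linarith

lemma lens_zero_pos (k : ℕ) : 0 < lensf k 0 := by
  unfold lensf
  apply intervalIntegral.intervalIntegral_pos_of_pos_on ((prof_cont k).intervalIntegrable _ _)
  · intro x hx
    rw [prof_eq]
    exact pow_pos (ww_pos hx) k
  · norm_num

lemma tail_int {g : ℝ → ℝ} (hg : Continuous g) {x y : ℝ} (hx : 0 < x) (hy : 0 < y) :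
    IntervalIntegrable (fun y => g y / y ^ 3) volume x y := by
  apply ContinuousOn.intervalIntegrable
  intro z hz
  have hz0 : 0 < z := by
    rw [mem_uIcc] at hz
    rcases hz with h | h
    · exact hx.trans_le h.1
    · exact hy.trans_le h.1
  exact (hg.continuousAt.div (continuous_pow 3).continuousAt (by positivity)).continuousWithinAt

lemma tl_lin {f g : ℝ → ℝ} (hf : Continuous f) (hg : Continuous g) (c d : ℝ) {x : ℝ}
    (hx : x ∈ Ioo (0:ℝ) 2) : tl (fun y => c * f y + d * g y) x = c * tl f x + d * tl g x := by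
  unfold tl
  have e : ∀ y : ℝ, (c * f y + d * g y) / y ^ 3 = c * (f y / y ^ 3) + d * (g y / y ^ 3) := by
    intro y; ring
  simp only [e]
  rw [intervalIntegral.integral_add ((tail_int hf hx.1 (by norm_num)).const_mul c)
    ((tail_int hg hx.1 (by norm_num)).const_mul d), intervalIntegral.integral_const_mul,
    intervalIntegral.integral_const_mul]
  ring

lemma tl_nonneg {g : ℝ → ℝ} (hg0 : ∀ y, 0 ≤ g y) {x : ℝ} (hx : x ∈ Ioo (0:ℝ) 2) :
    0 ≤ tl g x := by
  unfold tl
  apply mul_nonneg (by norm_num)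
  apply intervalIntegral.integral_nonneg hx.2.le
  intro y hy
  have : 0 < y := hx.1.trans_le hy.1
  exact div_nonneg (hg0 y) (by positivity)

lemma tl_pos {g : ℝ → ℝ} (hg : Continuous g) (hg0 : ∀ y, 0 ≤ g y) {x s : ℝ}
    (hx : 0 < x) (hxs : x < s) (hs : s < 2) (hpos : ∀ y ∈ Ioo x s, 0 < g y) :
    0 < tl g x := by
  unfold tl
  apply mul_pos (by norm_num)
  rw [← intervalIntegral.integral_add_adjacent_intervals
    (tail_int hg hx (hx.trans hxs)) (tail_int hg (hx.trans hxs) (by norm_num))]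
  apply add_pos_of_pos_of_nonneg
  · apply intervalIntegral.intervalIntegral_pos_of_pos_on (tail_int hg hx (hx.trans hxs))
    · intro y hy
      have : 0 < y := hx.trans hy.1
      exact div_pos (hpos y hy) (by positivity)
    · exact hxs
  · apply intervalIntegral.integral_nonneg hs.le
    intro y hy
    have : 0 < y := (hx.trans hxs).trans_le hy.1
    exact div_nonneg (hg0 y) (by positivity)

/-- one bootstrapping step -/
lemma improve {ι : Type*} (k : ℕ) (hk : 1 ≤ k) (κ C : ℝ) (hκ : 0 < κ) (hC : 0 < C)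
    (v A : ι → ℝ → ℝ)
    (hcont : ∀ i, ContinuousOn (v i) (Ioo 0 2))
    (hv0 : ∀ i, ∀ t ∈ Ioo (0:ℝ) 2, κ * lensf k 0 - C * t ≤ v i t)
    (h1 : ∀ i, ∀ t ∈ Ioo (0:ℝ) 2, ∀ t' ∈ Ioo (0:ℝ) 2, t ≤ t' →
      v i t - v i t' ≤ (t' - t) * A i t)
    (h2 : ∀ g : ℝ → ℝ, Continuous g → (∀ i, ∀ t ∈ Ioo (0:ℝ) 2, g t ≤ v i t) →
      ∀ i, ∀ t ∈ Ioo (0:ℝ) 2,
        A i t * ((4 - t ^ 2) / t) ≤
          ((k : ℝ) + 1 + 4 / t ^ 2) * v i t - 8 * ∫ y in t..2, g y / y ^ 3)
    (θ : ℝ) (hθ0 : 0 ≤ θ) (hθ1 : θ < 1)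
    (hP : ∀ i, ∀ t ∈ Ioo (0:ℝ) 2, θ * (κ * lensf k t) ≤ v i t) :
    ∃ θ', θ < θ' ∧ θ' ≤ 1 ∧ ∀ i, ∀ t ∈ Ioo (0:ℝ) 2, θ' * (κ * lensf k t) ≤ v i t := by
  obtain ⟨kd, hkd⟩ : ∃ kd, kd = κ * lensf k 0 := ⟨_, rfl⟩
  have hkd0 : 0 < kd := by rw [hkd]; exact mul_pos hκ (lens_zero_pos k)
  have hlkd : ∀ t : ℝ, 0 ≤ t → κ * lensf k t ≤ kd := by
    intro t ht
    rw [hkd]
    exact mul_le_mul_of_nonneg_left (lensf_antitone k ht) hκ.le
  obtain ⟨η, hη⟩ : ∃ η, η = (1 - θ) / 2 := ⟨_, rfl⟩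
  have hη0 : 0 < η := by rw [hη]; linarith
  obtain ⟨s0, hs0⟩ : ∃ s0, s0 = min 1 ((1 - θ) * kd / (2 * C)) := ⟨_, rfl⟩
  have hs0pos : 0 < s0 := by
    rw [hs0]
    apply lt_min one_pos
    apply div_pos (mul_pos (by linarith) hkd0) (by positivity)
  have hs01 : s0 ≤ 1 := by rw [hs0]; exact min_le_left _ _
  have hs0C : C * s0 ≤ (1 - θ) * kd / 2 := by
    have : s0 ≤ (1 - θ) * kd / (2 * C) := by rw [hs0]; exact min_le_right _ _
    calc C * s0 ≤ C * ((1 - θ) * kd / (2 * C)) := mul_le_mul_of_nonneg_left this hC.le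
      _ = (1 - θ) * kd / 2 := by field_simp
  obtain ⟨b, hb⟩ : ∃ b : ℝ → ℝ, b = fun y => kd * max 0 (1 - y / s0) := ⟨_, rfl⟩
  have hbc : Continuous b := by rw [hb]; fun_prop
  have hb0 : ∀ y, 0 ≤ b y := by
    intro y; rw [hb]; exact mul_nonneg hkd0.le (le_max_left _ _)
  have hbpos : ∀ y, y < s0 → 0 < b y := by
    intro y hy
    rw [hb]
    apply mul_pos hkd0
    apply lt_max_of_lt_right
    have : y / s0 < 1 := by rw [div_lt_one hs0pos]; exact hy
    linarith
  have hbzero : ∀ y, s0 ≤ y → b y = 0 := by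
    intro y hy
    rw [hb]
    have : 1 ≤ y / s0 := by rw [le_div_iff₀ hs0pos]; linarith
    simp only
    rw [max_eq_left (by linarith), mul_zero]
  have hble : ∀ y, 0 ≤ y → b y ≤ kd := by
    intro y hy
    rw [hb]
    have : 0 ≤ y / s0 := by positivity
    have h3 : max 0 (1 - y / s0) ≤ 1 := max_le (by norm_num) (by linarith)
    calc kd * max 0 (1 - y / s0) ≤ kd * 1 := mul_le_mul_of_nonneg_left h3 hkd0.le
      _ = kd := mul_one _
  -- lower bound near zero
  have hnear : ∀ i, ∀ t ∈ Ioo (0:ℝ) 2, t ≤ s0 → (1 + θ) / 2 * kd ≤ v i t := by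
    intro i t ht hts
    have h3 := hv0 i t ht
    rw [← hkd] at h3
    have h4 : C * t ≤ C * s0 := mul_le_mul_of_nonneg_left hts hC.le
    linarith
  obtain ⟨g, hg⟩ : ∃ g : ℝ → ℝ, g = fun y => (θ * κ) * lensf k y + η * b y := ⟨_, rfl⟩
  have hgc : Continuous g := by
    rw [hg]
    exact ((lensf_cont k).const_mul _).add (hbc.const_mul _)
  have hgv : ∀ i, ∀ t ∈ Ioo (0:ℝ) 2, g t ≤ v i t := by
    intro i t ht
    rcases le_or_gt t s0 with h | h
    · refine le_trans ?_ (hnear i t ht h)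
      rw [hg]
      have h3 := hlkd t ht.1.le
      have h4 := hble t ht.1.le
      have h5 : θ * (κ * lensf k t) ≤ θ * kd := mul_le_mul_of_nonneg_left h3 hθ0
      have h6 : η * b t ≤ η * kd := mul_le_mul_of_nonneg_left h4 hη0.le
      rw [hη] at h6
      simp only
      rw [hη]
      linarith
    · rw [hg]
      simp only
      rw [hbzero t h.le, mul_zero, add_zero, mul_assoc]
      exact hP i t ht
  have h2g := h2 g hgc hgv
  obtain ⟨c2, hc2⟩ : ∃ c2, c2 = ∫ x in (s0 / 4)..(s0 / 2), rho k x * tl b x := ⟨_, rfl⟩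
  have hin : ∀ x : ℝ, 0 < x → x ≤ s0 → x ∈ Ioo (0:ℝ) 2 := fun x h3 h4 => ⟨h3, by linarith⟩
  have hc2pos : 0 < c2 := by
    rw [hc2]
    apply intervalIntegral.intervalIntegral_pos_of_pos_on
      (rt_int k hbc (hin _ (by positivity) (by linarith)) (hin _ (by positivity) (by linarith)))
    · intro x hx
      have h3 : 0 < x := by linarith [hx.1]
      have h4 : x < s0 := by linarith [hx.2]
      exact mul_pos (rho_pos k (hin x h3 h4.le))
        (tl_pos hbc hb0 h3 h4 (by linarith) (fun y hy => hbpos y hy.2))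
    · linarith
  refine ⟨min ((1 + θ) / 2) (θ + η * c2 / (4 * κ)), ?_, ?_, ?_⟩
  · apply lt_min (by linarith)
    have : 0 < η * c2 / (4 * κ) := by positivity
    linarith
  · exact (min_le_left _ _).trans (by linarith)
  · intro i t ht
    have hlt0 := lensf_nonneg k ht.2.le
    rcases le_or_gt t s0 with h | h
    · have h3 := hnear i t ht h
      calc min ((1 + θ) / 2) (θ + η * c2 / (4 * κ)) * (κ * lensf k t)
          ≤ (1 + θ) / 2 * (κ * lensf k t) :=
            mul_le_mul_of_nonneg_right (min_le_left _ _) (mul_nonneg hκ.le hlt0)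
        _ ≤ (1 + θ) / 2 * kd := mul_le_mul_of_nonneg_left (hlkd t ht.1.le) (by linarith)
        _ ≤ v i t := h3
    · have ha : s0 / 4 ∈ Ioo (0:ℝ) 2 := hin _ (by positivity) (by linarith)
      have hb2 : s0 / 2 ∈ Ioo (0:ℝ) 2 := hin _ (by positivity) (by linarith)
      have hcomp := comparison k (v i) (A i) g hgc (hcont i) (h1 i) (h2g i) ha.1
        (by linarith : s0 / 4 ≤ t) ht.2
      have hle := lens_eq k hk ha.1 (by linarith : s0 / 4 ≤ t) ht.2
      have hsplit : ∫ x in (s0 / 4)..t, rho k x * tl g x =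
          (θ * κ) * (∫ x in (s0 / 4)..t, rho k x * tl (lensf k) x) +
            η * ∫ x in (s0 / 4)..t, rho k x * tl b x := by
        rw [← intervalIntegral.integral_const_mul, ← intervalIntegral.integral_const_mul,
          ← intervalIntegral.integral_add ((rt_int k (lensf_cont k) ha ht).const_mul _)
            ((rt_int k hbc ha ht).const_mul _)]
        apply intervalIntegral.integral_congr
        intro x hx
        rw [uIcc_of_le (by linarith)] at hx
        have hx' : x ∈ Ioo (0:ℝ) 2 := ⟨ha.1.trans_le hx.1, hx.2.trans_lt ht.2⟩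
        simp only
        rw [hg, tl_lin (lensf_cont k) hbc (θ * κ) η hx']
        ring
      have hc2le : c2 ≤ ∫ x in (s0 / 4)..t, rho k x * tl b x := by
        rw [← intervalIntegral.integral_add_adjacent_intervals (rt_int k hbc ha hb2)
          (rt_int k hbc hb2 ht), ← hc2]
        have : 0 ≤ ∫ x in (s0 / 2)..t, rho k x * tl b x := by
          apply intervalIntegral.integral_nonneg (by linarith)
          intro x hx
          have hx' : x ∈ Ioo (0:ℝ) 2 := ⟨hb2.1.trans_le hx.1, hx.2.trans_lt ht.2⟩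
          exact mul_nonneg (rho_pos k hx').le (tl_nonneg hb0 hx')
        linarith
      have hPa := hP i _ ha
      have hmua := mu_pos k ha
      have hmut := mu_pos k ht
      rw [hsplit, hle] at hcomp
      have h3 : mu k (s0 / 4) * (θ * (κ * lensf k (s0 / 4))) ≤ mu k (s0 / 4) * v i (s0 / 4) :=
        mul_le_mul_of_nonneg_left hPa hmua.le
      have h4 : η * c2 ≤ η * ∫ x in (s0 / 4)..t, rho k x * tl b x :=
        mul_le_mul_of_nonneg_left hc2le hη0.le
      have h5 : mu k t * (θ * (κ * lensf k t)) + η * c2 ≤ mu k t * v i t := by linarith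
      have h6 := mu_lens_le k ht
      have h7 : η * c2 / 4 * (mu k t * lensf k t) ≤ η * c2 := by
        have h8 : η * c2 / 4 * (mu k t * lensf k t) ≤ η * c2 / 4 * 4 :=
          mul_le_mul_of_nonneg_left h6 (by positivity)
        linarith
      have h9 : mu k t * ((θ + η * c2 / (4 * κ)) * (κ * lensf k t)) ≤ mu k t * v i t := by
        have e : mu k t * ((θ + η * c2 / (4 * κ)) * (κ * lensf k t)) =
            mu k t * (θ * (κ * lensf k t)) + η * c2 / 4 * (mu k t * lensf k t) := by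
          field_simp
        rw [e]
        linarith
      have h10 := le_of_mul_le_mul_left h9 hmut
      refine le_trans ?_ h10
      exact mul_le_mul_of_nonneg_right (min_le_right _ _) (mul_nonneg hκ.le hlt0)

/-- Part 2: bootstrapping. -/
theorem boot {ι : Type*} (k : ℕ) (hk : 1 ≤ k) (κ C : ℝ) (hκ : 0 < κ) (hC : 0 < C)
    (v A : ι → ℝ → ℝ)
    (hcont : ∀ i, ContinuousOn (v i) (Ioo 0 2))
    (hpos : ∀ i, ∀ t ∈ Ioo (0:ℝ) 2, 0 ≤ v i t)
    (hv0 : ∀ i, ∀ t ∈ Ioo (0:ℝ) 2, κ * lensf k 0 - C * t ≤ v i t)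
    (h1 : ∀ i, ∀ t ∈ Ioo (0:ℝ) 2, ∀ t' ∈ Ioo (0:ℝ) 2, t ≤ t' →
      v i t - v i t' ≤ (t' - t) * A i t)
    (h2 : ∀ g : ℝ → ℝ, Continuous g → (∀ i, ∀ t ∈ Ioo (0:ℝ) 2, g t ≤ v i t) →
      ∀ i, ∀ t ∈ Ioo (0:ℝ) 2,
        A i t * ((4 - t ^ 2) / t) ≤
          ((k : ℝ) + 1 + 4 / t ^ 2) * v i t - 8 * ∫ y in t..2, g y / y ^ 3) :
    ∀ i, ∀ t ∈ Ioo (0:ℝ) 2, κ * lensf k t ≤ v i t := by
  obtain ⟨S, hS⟩ : ∃ S : Set ℝ, S = {θ | 0 ≤ θ ∧ θ ≤ 1 ∧
    ∀ i, ∀ t ∈ Ioo (0:ℝ) 2, θ * (κ * lensf k t) ≤ v i t} := ⟨_, rfl⟩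
  have h0S : (0 : ℝ) ∈ S := by
    rw [hS]
    exact ⟨le_refl _, zero_le_one, fun i t ht => by rw [zero_mul]; exact hpos i t ht⟩
  have hbdd : BddAbove S := ⟨1, fun θ hθ => by rw [hS] at hθ; exact hθ.2.1⟩
  have hΘ0 : 0 ≤ sSup S := le_csSup hbdd h0S
  have hΘ1 : sSup S ≤ 1 := csSup_le ⟨0, h0S⟩ (fun θ hθ => by rw [hS] at hθ; exact hθ.2.1)
  have hΘP : ∀ i, ∀ t ∈ Ioo (0:ℝ) 2, sSup S * (κ * lensf k t) ≤ v i t := by
    intro i t ht
    have hl0 : 0 ≤ κ * lensf k t := mul_nonneg hκ.le (lensf_nonneg k ht.2.le)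
    rcases hl0.eq_or_lt with h | h
    · rw [← h, mul_zero]; exact hpos i t ht
    · rw [← le_div_iff₀ h]
      apply csSup_le ⟨0, h0S⟩
      intro θ hθ
      rw [hS] at hθ
      rw [le_div_iff₀ h]
      exact hθ.2.2 i t ht
  rcases hΘ1.eq_or_lt with h | h
  · intro i t ht
    have := hΘP i t ht
    rwa [h, one_mul] at this
  · obtain ⟨θ', hθ', hθ'1, hP'⟩ := improve k hk κ C hκ hC v A hcont hv0 h1 h2 (sSup S) hΘ0 h hΘP
    have : θ' ∈ S := by
      rw [hS]
      exact ⟨hΘ0.trans hθ'.le, hθ'1, hP'⟩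
    exact absurd (le_csSup hbdd this) (not_le.mpr hθ')

/-- Part 3: strictness. -/
theorem strict (k : ℕ) (hk : 1 ≤ k) (κ : ℝ) (hκ : 0 < κ) (v A : ℝ → ℝ) (s : ℝ)
    (hs : s ∈ Ioo (0:ℝ) 2)
    (hcont : ContinuousOn v (Ioo 0 2))
    (hge : ∀ t ∈ Ioo (0:ℝ) 2, κ * lensf k t ≤ v t)
    (h1 : ∀ t ∈ Ioo (0:ℝ) 2, ∀ t' ∈ Ioo (0:ℝ) 2, t ≤ t' → v t - v t' ≤ (t' - t) * A t)
    (h2 : ∀ t ∈ Ioo (0:ℝ) 2, A t * ((4 - t ^ 2) / t) <
      ((k : ℝ) + 1 + 4 / t ^ 2) * v t - 8 * ∫ y in t..2, κ * lensf k y / y ^ 3) :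
    κ * lensf k s < v s := by
  by_contra hcon
  rw [not_lt] at hcon
  have hgc : Continuous fun y => κ * lensf k y := (lensf_cont k).const_mul κ
  have htl : ∀ x ∈ Ioo (0:ℝ) 2, tl (fun y => κ * lensf k y) x = κ * tl (lensf k) x := by
    intro x hx
    have := tl_lin (lensf_cont k) (lensf_cont k) κ 0 hx
    simpa using this
  -- equality on `(0, s]`
  have heq : ∀ a : ℝ, 0 < a → a ≤ s → v a = κ * lensf k a := by
    intro a ha has
    have ha' : a ∈ Ioo (0:ℝ) 2 := ⟨ha, has.trans_lt hs.2⟩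
    have hcomp := comparison k v A (fun y => κ * lensf k y) hgc hcont h1
      (fun t ht => (h2 t ht).le) ha has hs.2
    have hle := lens_eq k hk ha has hs.2
    have hsplit : ∫ x in a..s, rho k x * tl (fun y => κ * lensf k y) x =
        κ * ∫ x in a..s, rho k x * tl (lensf k) x := by
      rw [← intervalIntegral.integral_const_mul]
      apply intervalIntegral.integral_congr
      intro x hx
      rw [uIcc_of_le has] at hx
      have hx' : x ∈ Ioo (0:ℝ) 2 := ⟨ha.trans_le hx.1, hx.2.trans_lt hs.2⟩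
      simp only
      rw [htl x hx']
      ring
    rw [hsplit, hle] at hcomp
    have hmus := mu_pos k hs
    have hmua := mu_pos k ha'
    have h3 : mu k s * v s ≤ mu k s * (κ * lensf k s) := mul_le_mul_of_nonneg_left hcon hmus.le
    have h4 : mu k a * v a ≤ mu k a * (κ * lensf k a) := by linarith
    exact le_antisymm (le_of_mul_le_mul_left h4 hmua) (hge a ha')
  obtain ⟨t0, ht0⟩ : ∃ t0, t0 = s / 2 := ⟨_, rfl⟩
  have hs0 := hs.1
  have hs2 := hs.2
  have ht0' : t0 ∈ Ioo (0:ℝ) 2 := ⟨by rw [ht0]; linarith, by rw [ht0]; linarith⟩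
  have hstep : ∀ h : ℝ, 0 < h → h ≤ s / 2 → κ * prof k (t0 + h) ≤ A t0 := by
    intro h hh0 hh1
    have hth : t0 + h ∈ Ioo (0:ℝ) 2 := ⟨by linarith [ht0'.1], by rw [ht0]; linarith⟩
    have h3 := h1 t0 ht0' (t0 + h) hth (by linarith)
    rw [heq t0 ht0'.1 (by rw [ht0]; linarith), heq (t0 + h) hth.1 (by rw [ht0]; linarith)] at h3
    have h4 : h * prof k (t0 + h) ≤ lensf k t0 - lensf k (t0 + h) := by
      have h5 : lensf k t0 - lensf k (t0 + h) = ∫ x in t0..(t0 + h), prof k x := by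
        unfold lensf
        rw [sub_eq_iff_eq_add, intervalIntegral.integral_add_adjacent_intervals
          ((prof_cont k).intervalIntegrable _ _) ((prof_cont k).intervalIntegrable _ _)]
      rw [h5]
      calc h * prof k (t0 + h) = ∫ x in t0..(t0 + h), prof k (t0 + h) := by simp
        _ ≤ ∫ x in t0..(t0 + h), prof k x := by
            apply intervalIntegral.integral_mono_on (by linarith)
              (_root_.intervalIntegrable_const) ((prof_cont k).intervalIntegrable _ _)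
            intro x hx
            exact prof_anti k (ht0'.1.le.trans hx.1) hx.2
    have h6 : h * (κ * prof k (t0 + h)) ≤ h * A t0 := by
      have := mul_le_mul_of_nonneg_left h4 hκ.le
      have e : t0 + h - t0 = h := by ring
      rw [e] at h3
      linarith
    exact le_of_mul_le_mul_left h6 hh0
  have hlim : κ * prof k t0 ≤ A t0 := by
    have h3 : Filter.Tendsto (fun h : ℝ => κ * prof k (t0 + h)) (nhdsWithin 0 (Ioi 0))
        (nhds (κ * prof k (t0 + 0))) := by
      have : Continuous fun h : ℝ => κ * prof k (t0 + h) :=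
        ((prof_cont k).comp (continuous_const.add continuous_id)).const_mul κ
      exact this.continuousAt.tendsto.mono_left nhdsWithin_le_nhds
    rw [add_zero] at h3
    apply le_of_tendsto h3
    filter_upwards [Ioo_mem_nhdsGT (show (0:ℝ) < s / 2 by linarith)] with h hh
    exact hstep h hh.1 hh.2.le
  have h3 := h2 t0 ht0'
  have h4 := lensf_identity k hk t0 ht0'
  have h5 : 8 * ∫ y in t0..2, κ * lensf k y / y ^ 3 = κ * (8 * ∫ y in t0..2, lensf k y / y ^ 3) :=
    htl t0 ht0'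
  rw [h5, heq t0 ht0'.1 (by rw [ht0]; linarith)] at h3
  have h6 : A t0 * ((4 - t0 ^ 2) / t0) < κ * prof k t0 * ((4 - t0 ^ 2) / t0) := by
    have : κ * prof k t0 * ((4 - t0 ^ 2) / t0) = κ * (prof k t0 * ((4 - t0 ^ 2) / t0)) := by ring
    rw [this, h4]
    linarith
  have h7 : 0 < (4 - t0 ^ 2) / t0 := div_pos (four_pos ht0') ht0'.1
  exact absurd (lt_of_mul_lt_mul_right h6 h7.le) (not_lt.mpr hlim)

end Pool.Agent.Helper934.BP
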