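import Mathlib
import Pool.Agent.Helper934.BPLimit
import Pool.Agent.Helper934.BPBang
import Pool.Agent.Helper934.BPPar
import Pool.Agent.Helper934.BPReal

open MeasureTheory Set Metric Filter Topology
open scoped Pointwise

namespace Pool.Agent.Helper934.BP

variable {k n : ℕ}

lemma exists_basis (e : EuclideanSpace ℝ (Fin (k+1))) (he : ‖e‖ = 1) :
    ∃ B : OrthonormalBasis (Fin (k+1)) ℝ (EuclideanSpace ℝ (Fin (k+1))), B 0 = e := by
  have hcard : Module.finrank ℝ (EuclideanSpace ℝ (Fin (k+1))) = Fintype.card (Fin (k+1)) := by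
    simp
  have horth : Orthonormal ℝ (({0} : Set (Fin (k+1))).domRestrict (fun _ => e)) := by
    rw [orthonormal_iff_ite]
    rintro ⟨i, hi⟩ ⟨j, hj⟩
    simp only [mem_singleton_iff] at hi hj
    subst hi; subst hj
    simp [Set.domRestrict, he]
  obtain ⟨B, hB⟩ := horth.exists_orthonormalBasis_extension_of_card_eq hcard
  exact ⟨B, hB 0 rfl⟩

/-- volume of the unit ball -/
lemma volume_ball_eq (hk : 1 ≤ k) :
    (volume (closedBall (0 : EuclideanSpace ℝ (Fin (k+1))) 1)).toReal = kap k * lensf k 0 := by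
  have he : ‖(EuclideanSpace.single 0 1 : EuclideanSpace ℝ (Fin (k+1)))‖ = 1 := by simp
  set e : EuclideanSpace ℝ (Fin (k+1)) := EuclideanSpace.single 0 1
  have h1 := lens_volume hk e he 0 le_rfl (by norm_num)
  rw [← h1]
  congr 1
  have hnull : volume ({x : EuclideanSpace ℝ (Fin (k+1)) | inner ℝ e x ∈ ({0} : Set ℝ)} ∩
      closedBall 0 1) = 0 := by
    rw [slab_volume hk e he {0} (measurableSet_singleton 0)]
    simp
  apply le_antisymm
  · have hsub : closedBall (0 : EuclideanSpace ℝ (Fin (k+1))) 1 ⊆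
        (closedBall 0 1 \ {x | |inner ℝ e x| ≤ 0 / 2}) ∪
        ({x : EuclideanSpace ℝ (Fin (k+1)) | inner ℝ e x ∈ ({0} : Set ℝ)} ∩ closedBall 0 1) := by
      intro x hx
      by_cases h : inner ℝ e x = (0:ℝ)
      · right; exact ⟨h, hx⟩
      · left
        refine ⟨hx, ?_⟩
        simp only [mem_ofPred_eq, zero_div, not_le]
        exact abs_pos.mpr h
    refine (measure_mono hsub).trans ((measure_union_le _ _).trans ?_)
    rw [hnull, add_zero]
  · exact measure_mono sdiff_subset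

/-- shadows of subsets of the unit ball -/
lemma shadow_le_kap (B : OrthonormalBasis (Fin (k+1)) ℝ (EuclideanSpace ℝ (Fin (k+1))))
    {S : Set (EuclideanSpace ℝ (Fin (k+1)))} (hS : S ⊆ closedBall 0 1) :
    shadow B S ≤ kap k := by
  apply ENNReal.toReal_mono (ballk_lt_top k).ne
  apply measure_mono
  rintro y ⟨t, ht⟩
  have h1 := hS ht
  rw [mem_closedBall, dist_zero_right] at h1
  have h2 : ‖mk B y t‖ = ‖(WithLp.toLp 2 (Fin.cons t y : Fin (k+1) → ℝ) :
      EuclideanSpace ℝ (Fin (k+1)))‖ := by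
    unfold mk
    exact B.repr.symm.norm_map _
  rw [h2] at h1
  have h3 : ‖(WithLp.toLp 2 (Fin.cons t y : Fin (k+1) → ℝ) :
      EuclideanSpace ℝ (Fin (k+1)))‖ ^ 2 ≤ 1 := by
    have := norm_nonneg (WithLp.toLp 2 (Fin.cons t y : Fin (k+1) → ℝ) :
      EuclideanSpace ℝ (Fin (k+1)))
    nlinarith
  rw [EuclideanSpace.norm_sq_eq, Fin.sum_univ_succ] at h3
  simp only [Real.norm_eq_abs, sq_abs, Fin.cons_zero, Fin.cons_succ] at h3
  show ∑ i, y i ^ 2 ≤ 1
  nlinarith [sq_nonneg t]

/-- `V ≤ 2 * shadow` -/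
lemma V_le_two_shadow (B : OrthonormalBasis (Fin (k+1)) ℝ (EuclideanSpace ℝ (Fin (k+1))))
    (u : Fin n → EuclideanSpace ℝ (Fin (k+1))) (w : Fin n → ℝ) :
    V u w ≤ 2 * shadow B (K u w 1) := by
  have h := volume_le_er_add B (isCompact_K u w 1) (convex_K u w 1) (τ := 2) (by norm_num)
  have h0 : (volume (er (K u w 1) (B 0) 2)).toReal = 0 := by
    rw [volume_er B (isCompact_K u w 1) (convex_K u w 1) (by norm_num)]
    have : ∀ y, max (L B (K u w 1) y - 2) 0 = 0 := by
      intro y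
      apply max_eq_right
      linarith [L_le_two B (K_subset_closedBall u w 1) y]
    simp [this]
  rw [h0] at h
  have : V u w = (volume (K u w 1)).toReal := rfl
  linarith

/-- A configuration of unit vectors with weights summing to one. -/
structure Cfg (k : ℕ) where
  n : ℕ
  u : Fin n → EuclideanSpace ℝ (Fin (k+1))
  hu : ∀ i, ‖u i‖ = 1
  l : Fin n → ℝ
  hl : ∀ i, 0 ≤ l i
  hsum : ∑ i, l i = 1

/-- a choice of bases -/
noncomputable def Cfg.Bs (c : Cfg k) (i : Fin c.n) :
    OrthonormalBasis (Fin (k+1)) ℝ (EuclideanSpace ℝ (Fin (k+1))) :=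
  Classical.choose (exists_basis (c.u i) (c.hu i))

lemma Cfg.hBs (c : Cfg k) (i : Fin c.n) : c.Bs i 0 = c.u i :=
  Classical.choose_spec (exists_basis (c.u i) (c.hu i))

noncomputable def Cfg.v (c : Cfg k) (t : ℝ) : ℝ := V c.u (fun i => t * c.l i)

noncomputable def Cfg.A (c : Cfg k) (t : ℝ) : ℝ :=
  ∑ i, c.l i * shadow (c.Bs i) (K c.u (fun i => t * c.l i) 1)

lemma Cfg.A_nonneg (c : Cfg k) (t : ℝ) : 0 ≤ c.A t :=
  Finset.sum_nonneg fun i _ => mul_nonneg (c.hl i) (shadow_nonneg _ _)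

lemma Cfg.A_le (c : Cfg k) (t : ℝ) : c.A t ≤ kap k := by
  calc c.A t ≤ ∑ i, c.l i * kap k := by
        apply Finset.sum_le_sum
        intro i _
        exact mul_le_mul_of_nonneg_left (shadow_le_kap _ (K_subset_closedBall _ _ _)) (c.hl i)
    _ = kap k := by rw [← Finset.sum_mul, c.hsum, one_mul]

lemma Cfg.inc (c : Cfg k) {t t' : ℝ} (ht : 0 ≤ t) (htt : t ≤ t') :
    c.v t - c.v t' ≤ (t' - t) * c.A t := by
  have h := increment c.u c.Bs c.hBs (fun i => t * c.l i) (fun i => t' * c.l i)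
    (fun i => mul_nonneg ht (c.hl i)) (fun i => mul_le_mul_of_nonneg_right htt (c.hl i))
  have h2 : ∑ i, (t' * c.l i - t * c.l i) * shadow (c.Bs i) (K c.u (fun i => t * c.l i) 1) =
      (t' - t) * c.A t := by
    unfold Cfg.A
    rw [Finset.mul_sum]
    apply Finset.sum_congr rfl
    intro i _
    ring
  rw [h2] at h
  show V c.u (fun i => t * c.l i) - V c.u (fun i => t' * c.l i) ≤ _
  linarith

lemma Cfg.anti (c : Cfg k) {t t' : ℝ} (ht : 0 ≤ t) (htt : t ≤ t') : c.v t' ≤ c.v t :=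
  V_anti c.u (fun i => mul_nonneg ht (c.hl i)) (fun i => mul_le_mul_of_nonneg_right htt (c.hl i))

lemma Cfg.v_zero (c : Cfg k) (hk : 1 ≤ k) : c.v 0 = kap k * lensf k 0 := by
  unfold Cfg.v V
  have : (fun i => (0:ℝ) * c.l i) = 0 := by ext i; simp
  rw [this, K_zero, volume_ball_eq hk]

lemma Cfg.cont (c : Cfg k) : ContinuousOn c.v (Ioo 0 2) := by
  have hlip : ∀ t ∈ Ioo (0:ℝ) 2, ∀ t' ∈ Ioo (0:ℝ) 2, |c.v t - c.v t'| ≤ kap k * |t - t'| := by
    intro t ht t' ht'
    wlog h : t ≤ t' generalizing t t'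
    · have := this t' ht' t ht (le_of_not_ge h)
      rw [abs_sub_comm, abs_sub_comm t t']
      exact this
    · have h1 := c.inc ht.1.le h
      have h2 := c.anti ht.1.le h
      have h3 := c.A_le t
      rw [abs_of_nonneg (by linarith), abs_of_nonpos (by linarith)]
      have : (t' - t) * c.A t ≤ (t' - t) * kap k :=
        mul_le_mul_of_nonneg_left h3 (by linarith)
      linarith
  have : LipschitzOnWith (Real.toNNReal (kap k)) c.v (Ioo 0 2) := by
    apply LipschitzOnWith.of_dist_le_mul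
    intro x hx y hy
    rw [Real.dist_eq, Real.dist_eq, Real.coe_toNNReal _ (kap_pos k).le]
    exact hlip x hx y hy
  exact this.continuousOn

/-- bordered configuration -/
noncomputable def Cfg.border (c : Cfg k) (i : Fin c.n) (t τ : ℝ) (ht : 0 < t) (hτ : 0 ≤ τ) :
    Cfg k where
  n := c.n + 1
  u := Fin.cons (c.u i) c.u
  hu := by
    intro j
    refine Fin.cases ?_ ?_ j
    · simpa using c.hu i
    · intro j; simpa using c.hu j
  l := fun j => (Fin.cons τ (fun j => t * c.l j) : Fin (c.n + 1) → ℝ) j / (t + τ)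
  hl := by
    intro j
    apply div_nonneg _ (by linarith)
    refine Fin.cases ?_ ?_ j
    · simpa using hτ
    · intro j; simpa using mul_nonneg ht.le (c.hl j)
  hsum := by
    rw [← Finset.sum_div, Fin.sum_univ_succ]
    simp only [Fin.cons_zero, Fin.cons_succ]
    rw [← Finset.mul_sum, c.hsum, mul_one, add_comm, div_self (by linarith)]

lemma Cfg.border_v (c : Cfg k) (i : Fin c.n) (t τ : ℝ) (ht : 0 < t) (hτ : 0 ≤ τ) :
    (c.border i t τ ht hτ).v (t + τ) ≤
      (volume (er (K c.u (fun j => t * c.l j) 1) (c.u i) τ)).toReal := by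
  have heq : (fun j => (t + τ) * (c.border i t τ ht hτ).l j) =
      (Fin.cons τ (fun j => t * c.l j) : Fin (c.n + 1) → ℝ) := by
    ext j
    show (t + τ) * ((Fin.cons τ (fun j => t * c.l j) : Fin (c.n + 1) → ℝ) j / (t + τ)) = _
    have : t + τ ≠ 0 := by linarith
    field_simp
  unfold Cfg.v V
  rw [heq]
  apply ENNReal.toReal_mono (isCompact_er (isCompact_K _ _ _) _ _).measure_ne_top
  apply measure_mono
  exact K_cons_subset c.u (fun j => t * c.l j) 1 (c.u i) τ

/-- differential inequality for a configuration, with the strictness term -/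
lemma Cfg.ineq (c : Cfg k) (g : ℝ → ℝ) (hg : Continuous g)
    (hgv : ∀ c : Cfg k, ∀ t ∈ Ioo (0:ℝ) 2, g t ≤ c.v t) {t : ℝ} (ht : t ∈ Ioo (0:ℝ) 2)
    (σ : Fin c.n → ℝ) (hσ : ∀ i, 0 < σ i) (hσs : ∀ i, σ i ≤ t)
    (hβ : ∀ i, ∑ j, (t * c.l j) * |inner ℝ (c.u i) (c.u j)| ≤ σ i) :
    c.A t * ((4 - t ^ 2) / t) +
      4 * (∑ i, c.l i * ((t - σ i) * shadow (c.Bs i) (K c.u (fun j => t * c.l j) 1) /
        (2 + t) ^ 2)) ≤
      ((k : ℝ) + 1 + 4 / t ^ 2) * c.v t - 8 * ∫ y in t..2, g y / y ^ 3 := by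
  have ht0 := ht.1
  have h := main_ineq c.u c.Bs c.hBs (fun j => t * c.l j)
    (fun j => mul_nonneg ht0.le (c.hl j)) t (2 - t) ht0
    (by rw [← Finset.mul_sum, c.hsum, mul_one]) (by linarith [ht.2]) σ hσ hσs hβ
    (fun τ => g (t + τ)) (by fun_prop)
    (by
      intro i τ hτ
      have h1 := hgv (c.border i t τ ht0 hτ.1.le) (t + τ)
        ⟨by linarith [hτ.1], by linarith [hτ.2]⟩
      exact h1.trans (c.border_v i t τ ht0 hτ.1.le))
  have hint : ∫ τ in (0:ℝ)..(2 - t), 2 * g (t + τ) / (t + τ) ^ 3 =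
      2 * ∫ y in t..2, g y / y ^ 3 := by
    rw [← intervalIntegral.integral_const_mul]
    have := intervalIntegral.integral_comp_add_left (a := 0) (b := 2 - t)
      (fun y => 2 * (g y / y ^ 3)) t
    simp only [add_zero, add_sub_cancel] at this
    rw [← this]
    congr 1
    ext τ
    ring
  rw [hint] at h
  set G := ∫ y in t..2, g y / y ^ 3 with hG
  set S := fun i => shadow (c.Bs i) (K c.u (fun j => t * c.l j) 1) with hS
  have hA : c.A t = ∑ i, c.l i * S i := rfl
  have hv : V c.u (fun j => t * c.l j) = c.v t := rfl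
  rw [hv] at h
  have e1 : ∑ i, t * c.l i * (S i / t - c.v t / t ^ 2 + 2 * G + (t - σ i) * S i / (2 + t) ^ 2) =
      c.A t - c.v t / t + 2 * t * G + t * ∑ i, c.l i * ((t - σ i) * S i / (2 + t) ^ 2) := by
    have : ∀ i, t * c.l i * (S i / t - c.v t / t ^ 2 + 2 * G + (t - σ i) * S i / (2 + t) ^ 2) =
        c.l i * S i + c.l i * (-(c.v t / t) + 2 * t * G) +
        t * (c.l i * ((t - σ i) * S i / (2 + t) ^ 2)) := by
      intro i
      field_simp
      ring
    rw [Finset.sum_congr rfl fun i _ => this i, Finset.sum_add_distrib, Finset.sum_add_distrib,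
      ← Finset.sum_mul, c.hsum, ← Finset.mul_sum, hA]
    ring
  have e2 : ∑ i, t * c.l i * S i = t * c.A t := by
    rw [hA, Finset.mul_sum]
    apply Finset.sum_congr rfl
    intro i _
    ring
  have h' : 4 * (c.A t - c.v t / t + 2 * t * G + t * ∑ i, c.l i * ((t - σ i) * S i / (2 + t) ^ 2)) ≤
      t * (((k : ℝ) + 1) * c.v t + t * c.A t) := by
    rw [← e1, ← e2]
    exact h
  set E := ∑ i, c.l i * ((t - σ i) * S i / (2 + t) ^ 2) with hE
  -- divide by t
  have h2 : t * (c.A t * ((4 - t ^ 2) / t) + 4 * E) ≤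
      t * (((k : ℝ) + 1 + 4 / t ^ 2) * c.v t - 8 * G) := by
    have e3 : t * (c.A t * ((4 - t ^ 2) / t) + 4 * E) = c.A t * (4 - t ^ 2) + 4 * t * E := by
      field_simp
    have e4 : t * (((k : ℝ) + 1 + 4 / t ^ 2) * c.v t - 8 * G) =
        t * ((k : ℝ) + 1) * c.v t + 4 * (c.v t / t) - 8 * t * G := by
      field_simp
    rw [e3, e4]
    linarith
  exact le_of_mul_le_mul_left h2 ht0

/-- The volume inequality for normalised configurations. -/
theorem Cfg.lower (hk : 1 ≤ k) (c : Cfg k) {t : ℝ} (ht : t ∈ Ioo (0:ℝ) 2) :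
    kap k * lensf k t ≤ c.v t := by
  refine boot (ι := Cfg k) k hk (kap k) (kap k) (kap_pos k) (kap_pos k) Cfg.v Cfg.A
    (fun c => c.cont) (fun c t _ => V_nonneg _ _) ?_ ?_ ?_ c t ht
  · intro c t ht
    have h1 := c.inc le_rfl ht.1.le
    rw [c.v_zero hk] at h1
    have h2 := c.A_le 0
    have : (t - 0) * c.A 0 ≤ kap k * t := by
      rw [sub_zero, mul_comm]
      exact mul_le_mul_of_nonneg_right h2 ht.1.le
    linarith
  · intro c t ht t' _ htt
    exact c.inc ht.1.le htt
  · intro g hg hgv c t ht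
    have h := c.ineq g hg hgv ht (fun _ => t) (fun _ => ht.1) (fun _ => le_rfl) (by
      intro i
      calc ∑ j, (t * c.l j) * |inner ℝ (c.u i) (c.u j)| ≤ ∑ j, (t * c.l j) * 1 := by
            apply Finset.sum_le_sum
            intro j _
            apply mul_le_mul_of_nonneg_left _ (mul_nonneg ht.1.le (c.hl j))
            have := abs_real_inner_le_norm (c.u i) (c.u j)
            rwa [c.hu i, c.hu j, one_mul] at this
        _ = t := by simp only [mul_one]; rw [← Finset.mul_sum, c.hsum, mul_one])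
    simpa using h

end Pool.Agent.Helper934.BP
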