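import Mathlib
import Pool.Agent.Helper934.BPMain

open MeasureTheory Set Metric Filter Topology

namespace Pool.Agent.Helper934.BP

variable {k n : ℕ}

lemma prof_continuous (k : ℕ) : Continuous (prof k) := by
  unfold prof; fun_prop

lemma lensf_pos (k : ℕ) {t : ℝ} (ht : t ∈ Ioo (0:ℝ) 2) : 0 < lensf k t := by
  unfold lensf
  apply intervalIntegral.intervalIntegral_pos_of_pos_on
    ((prof_continuous k).intervalIntegrable _ _) _ ht.2
  intro x hx
  unfold prof
  apply pow_pos
  apply Real.sqrt_pos.mpr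
  have h1 : 0 < x := ht.1.trans hx.1
  have h2 := hx.2
  nlinarith

/-- Strict inequality when two of the directions are not parallel. -/
theorem Cfg.strict_lower (hk : 1 ≤ k) (c : Cfg k) {s : ℝ} (hs : s ∈ Ioo (0:ℝ) 2)
    (hl : ∀ i, 0 < c.l i) (i j : Fin c.n) (hij : |inner ℝ (c.u i) (c.u j)| < 1) :
    kap k * lensf k s < c.v s := by
  refine strict k hk (kap k) (kap_pos k) c.v c.A s hs c.cont
    (fun t ht => c.lower hk ht) (fun t ht t' _ htt => c.inc ht.1.le htt) ?_
  intro t ht
  have hle1 : ∀ i j, |inner ℝ (c.u i) (c.u j)| ≤ 1 := by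
    intro i j
    have := abs_real_inner_le_norm (c.u i) (c.u j)
    rwa [c.hu i, c.hu j, one_mul] at this
  set σ : Fin c.n → ℝ := fun i => ∑ j, (t * c.l j) * |inner ℝ (c.u i) (c.u j)| with hσdef
  have htl : ∀ j, 0 < t * c.l j := fun j => mul_pos ht.1 (hl j)
  have hσpos : ∀ i, 0 < σ i := by
    intro i
    have h1 : (t * c.l i) * |inner ℝ (c.u i) (c.u i)| ≤ σ i :=
      Finset.single_le_sum (f := fun j => (t * c.l j) * |inner ℝ (c.u i) (c.u j)|)
        (fun j _ => mul_nonneg (htl j).le (abs_nonneg _)) (Finset.mem_univ i)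
    rw [real_inner_self_eq_norm_sq, c.hu i] at h1
    norm_num at h1
    exact (htl i).trans_le h1
  have hσle : ∀ i, σ i ≤ t := by
    intro i
    calc σ i ≤ ∑ j, (t * c.l j) * 1 := by
          apply Finset.sum_le_sum
          intro j _
          exact mul_le_mul_of_nonneg_left (hle1 i j) (htl j).le
      _ = t := by simp only [mul_one]; rw [← Finset.mul_sum, c.hsum, mul_one]
  have hσlt : σ i < t := by
    calc σ i < ∑ j, (t * c.l j) * 1 := by
          apply Finset.sum_lt_sum
          · intro j _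
            exact mul_le_mul_of_nonneg_left (hle1 i j) (htl j).le
          · exact ⟨j, Finset.mem_univ j, mul_lt_mul_of_pos_left hij (htl j)⟩
      _ = t := by simp only [mul_one]; rw [← Finset.mul_sum, c.hsum, mul_one]
  have h := c.ineq (fun t => kap k * lensf k t) ((lensf_cont k).const_smul (kap k))
    (fun c t ht => c.lower hk ht) ht σ hσpos hσle (fun i => le_rfl)
  have hvpos : 0 < c.v t :=
    lt_of_lt_of_le (mul_pos (kap_pos k) (lensf_pos k ht)) (c.lower hk ht)
  have hSpos : ∀ i, 0 < shadow (c.Bs i) (K c.u (fun j => t * c.l j) 1) := by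
    intro i
    have := V_le_two_shadow (c.Bs i) c.u (fun j => t * c.l j)
    have h2 : V c.u (fun j => t * c.l j) = c.v t := rfl
    rw [h2] at this
    linarith
  have hextra : 0 < ∑ i, c.l i * ((t - σ i) * shadow (c.Bs i) (K c.u (fun j => t * c.l j) 1) /
      (2 + t) ^ 2) := by
    apply Finset.sum_pos'
    · intro i _
      apply mul_nonneg (hl i).le
      apply div_nonneg _ (by positivity)
      exact mul_nonneg (by linarith [hσle i]) (hSpos i).le
    · refine ⟨i, Finset.mem_univ i, ?_⟩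
      apply mul_pos (hl i)
      apply div_pos _ (by have := ht.1; positivity)
      exact mul_pos (by linarith) (hSpos i)
  linarith

/-- configuration attached to widths -/
noncomputable def mkCfg (u : Fin n → EuclideanSpace ℝ (Fin (k+1))) (hu : ∀ i, ‖u i‖ = 1)
    (w : Fin n → ℝ) (hw : ∀ i, 0 < w i) (hs : 0 < ∑ i, w i) : Cfg k where
  n := n
  u := u
  hu := hu
  l := fun i => w i / ∑ i, w i
  hl := fun i => div_nonneg (hw i).le hs.le
  hsum := by rw [← Finset.sum_div, div_self hs.ne']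

lemma mkCfg_v (u : Fin n → EuclideanSpace ℝ (Fin (k+1))) (hu : ∀ i, ‖u i‖ = 1)
    (w : Fin n → ℝ) (hw : ∀ i, 0 < w i) (hs : 0 < ∑ i, w i) :
    (mkCfg u hu w hw hs).v (∑ i, w i) = V u w := by
  unfold Cfg.v
  have : (fun i => (∑ i, w i) * (mkCfg u hu w hw hs).l i) = w := by
    ext i
    show (∑ i, w i) * (w i / ∑ i, w i) = w i
    field_simp
  rw [this]
  rfl

/-- closed slab -/
def slabP (u : Fin n → EuclideanSpace ℝ (Fin (k+1))) (a w : Fin n → ℝ) :
    Set (EuclideanSpace ℝ (Fin (k+1))) :=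
  ⋃ i, {x : EuclideanSpace ℝ (Fin (k+1)) | a i ≤ inner ℝ (u i) x ∧ inner ℝ (u i) x ≤ a i + w i}

lemma measurable_slabP (u : Fin n → EuclideanSpace ℝ (Fin (k+1))) (a w : Fin n → ℝ) :
    MeasurableSet (slabP u a w) := by
  apply MeasurableSet.iUnion
  intro i
  have e1 : IsClosed {x : EuclideanSpace ℝ (Fin (k+1)) | a i ≤ inner ℝ (u i) x} :=
    isClosed_le continuous_const (by fun_prop)
  have e2 : IsClosed {x : EuclideanSpace ℝ (Fin (k+1)) | inner ℝ (u i) x ≤ a i + w i} :=
    isClosed_le (by fun_prop) continuous_const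
  exact (e1.inter e2).measurableSet

lemma volume_K_le (hk : 1 ≤ k) (u : Fin n → EuclideanSpace ℝ (Fin (k+1))) (a w : Fin n → ℝ)
    (hu : ∀ i, ‖u i‖ = 1) (hw : ∀ i, 0 < w i) :
    volume (K u w 1) ≤ volume (closedBall (0 : EuclideanSpace ℝ (Fin (k+1))) 1 \ slabP u a w) := by
  have h1 := bang_volume (d := k + 1) (by omega) u a w hu (fun i => (hw i).le)
  refine h1.trans ?_
  set N : Set (EuclideanSpace ℝ (Fin (k+1))) := ⋃ i,
    (({x : EuclideanSpace ℝ (Fin (k+1)) | inner ℝ (u i) x ∈ ({a i} : Set ℝ)} ∩ closedBall 0 1) ∪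
     ({x : EuclideanSpace ℝ (Fin (k+1)) | inner ℝ (u i) x ∈ ({a i + w i} : Set ℝ)} ∩
      closedBall 0 1)) with hN
  have hN0 : volume N = 0 := by
    rw [hN, measure_iUnion_null_iff]
    intro i
    rw [measure_union_null_iff]
    constructor
    · rw [slab_volume hk (u i) (hu i) _ (measurableSet_singleton _)]; simp
    · rw [slab_volume hk (u i) (hu i) _ (measurableSet_singleton _)]; simp
  have hsub : (closedBall (0 : EuclideanSpace ℝ (Fin (k+1))) 1 \
      ⋃ i, {x : EuclideanSpace ℝ (Fin (k+1)) |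
        a i < inner ℝ (u i) x ∧ inner ℝ (u i) x < a i + w i}) ⊆
      (closedBall (0 : EuclideanSpace ℝ (Fin (k+1))) 1 \ slabP u a w) ∪ N := by
    intro x hx
    by_cases h : x ∈ slabP u a w
    · right
      obtain ⟨i, hi⟩ := mem_iUnion.mp h
      have h2 := hx.2
      rw [mem_iUnion] at h2
      push Not at h2
      have h3 := h2 i
      simp only [mem_ofPred_eq, not_and, not_lt] at h3 hi
      rw [hN, mem_iUnion]
      refine ⟨i, ?_⟩
      rcases eq_or_lt_of_le hi.1 with h4 | h4
      · left; exact ⟨h4.symm, hx.1⟩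
      · right; exact ⟨le_antisymm hi.2 (h3 h4), hx.1⟩
    · left; exact ⟨hx.1, h⟩
  refine (measure_mono hsub).trans ((measure_union_le _ _).trans ?_)
  rw [hN0, add_zero]

lemma compare_compl {X Y : Set (EuclideanSpace ℝ (Fin (k+1)))} (hX : MeasurableSet X)
    (hY : MeasurableSet Y) :
    volume (X ∩ closedBall 0 1) ≤ volume (Y ∩ closedBall 0 1) ↔
    volume (closedBall (0 : EuclideanSpace ℝ (Fin (k+1))) 1 \ Y) ≤
      volume (closedBall (0 : EuclideanSpace ℝ (Fin (k+1))) 1 \ X) := by
  have h1 := measure_inter_add_sdiff (μ := volume)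
    (closedBall (0 : EuclideanSpace ℝ (Fin (k+1))) 1) hX
  have h2 := measure_inter_add_sdiff (μ := volume)
    (closedBall (0 : EuclideanSpace ℝ (Fin (k+1))) 1) hY
  have hfin : volume (closedBall (0 : EuclideanSpace ℝ (Fin (k+1))) 1) ≠ ⊤ :=
    measure_closedBall_lt_top.ne
  rw [inter_comm X, inter_comm Y]
  have f1 : volume (closedBall 0 1 ∩ X) ≠ ⊤ := ne_top_of_le_ne_top hfin (measure_mono inter_subset_left)
  have f2 : volume (closedBall 0 1 ∩ Y) ≠ ⊤ := ne_top_of_le_ne_top hfin (measure_mono inter_subset_left)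
  have f3 : volume (closedBall 0 1 \ X) ≠ ⊤ := ne_top_of_le_ne_top hfin (measure_mono sdiff_subset)
  have f4 : volume (closedBall 0 1 \ Y) ≠ ⊤ := ne_top_of_le_ne_top hfin (measure_mono sdiff_subset)
  have e1 := congrArg ENNReal.toReal h1
  have e2 := congrArg ENNReal.toReal h2
  rw [ENNReal.toReal_add f1 f3] at e1
  rw [ENNReal.toReal_add f2 f4] at e2
  rw [← ENNReal.toReal_le_toReal f1 f2, ← ENNReal.toReal_le_toReal f4 f3]
  constructor <;> intro h <;> linarith

lemma measurable_slab (e : EuclideanSpace ℝ (Fin (k+1))) (s : ℝ) :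
    MeasurableSet {x : EuclideanSpace ℝ (Fin (k+1)) | |inner ℝ e x| ≤ s / 2} := by
  have h1 : IsClosed {x : EuclideanSpace ℝ (Fin (k+1)) | |inner ℝ e x| ≤ s / 2} :=
    isClosed_le (by fun_prop) continuous_const
  exact h1.measurableSet

/-- upper bound for every tuple -/
lemma upper (hk : 1 ≤ k) (u : Fin n → EuclideanSpace ℝ (Fin (k+1))) (a w : Fin n → ℝ)
    (hu : ∀ i, ‖u i‖ = 1) (hw : ∀ i, 0 < w i) (hs0 : 0 < ∑ i, w i) (hs : ∑ i, w i < 2)
    (e : EuclideanSpace ℝ (Fin (k+1))) (he : ‖e‖ = 1) :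
    volume (slabP u a w ∩ closedBall 0 1) ≤
      volume ({x : EuclideanSpace ℝ (Fin (k+1)) | |inner ℝ e x| ≤ (∑ i, w i) / 2} ∩
        closedBall 0 1) := by
  rw [compare_compl (measurable_slabP u a w) (measurable_slab e _)]
  refine le_trans ?_ (volume_K_le hk u a w hu hw)
  have f1 : volume (closedBall (0 : EuclideanSpace ℝ (Fin (k+1))) 1 \
      {x | |inner ℝ e x| ≤ (∑ i, w i) / 2}) ≠ ⊤ :=
    ne_top_of_le_ne_top measure_closedBall_lt_top.ne (measure_mono sdiff_subset)
  rw [← ENNReal.toReal_le_toReal f1 (volume_K_ne_top u w 1),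
    lens_volume hk e he _ hs0.le hs.le]
  have h := (mkCfg u hu w hw hs0).lower hk (t := ∑ i, w i) ⟨hs0, hs⟩
  rw [mkCfg_v] at h
  exact h

/-- consecutive intervals -/
lemma consecutive (hn : 1 ≤ n) (w : Fin n → ℝ) : ∃ b : Fin n → ℝ,
    ∀ τ : ℝ, |τ| ≤ (∑ i, w i) / 2 → ∃ i, b i ≤ τ ∧ τ ≤ b i + w i := by
  let w' : ℕ → ℝ := fun m => if h : m < n then w ⟨m, h⟩ else 0
  let S : ℕ → ℝ := fun m => -(∑ i, w i) / 2 + ∑ j ∈ Finset.range m, w' j
  have hSn : S n = (∑ i, w i) / 2 := by
    have : ∑ j ∈ Finset.range n, w' j = ∑ i, w i := by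
      rw [Finset.sum_range]
      apply Finset.sum_congr rfl
      intro i _
      show (if h : (i : ℕ) < n then w ⟨i, h⟩ else 0) = w i
      rw [dif_pos i.2]
    show -(∑ i, w i) / 2 + ∑ j ∈ Finset.range n, w' j = _
    rw [this]; ring
  have hS0 : S 0 = -(∑ i, w i) / 2 := by
    show -(∑ i, w i) / 2 + ∑ j ∈ Finset.range 0, w' j = _
    simp
  have hSs : ∀ m, S (m + 1) = S m + w' m := by
    intro m
    show -(∑ i, w i) / 2 + ∑ j ∈ Finset.range (m + 1), w' j =
      -(∑ i, w i) / 2 + ∑ j ∈ Finset.range m, w' j + w' m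
    rw [Finset.sum_range_succ]; ring
  refine ⟨fun i => S i, ?_⟩
  intro τ hτ
  have hτ1 := (abs_le.mp hτ).1
  have hτ2 := (abs_le.mp hτ).2
  -- smallest m ≥ 1 with τ ≤ S m
  have hex : ∃ m, τ ≤ S (m + 1) := by
    refine ⟨n - 1, ?_⟩
    rw [Nat.sub_add_cancel hn, hSn]; exact hτ2
  classical
  set m := Nat.find hex with hm
  have hmspec : τ ≤ S (m + 1) := Nat.find_spec hex
  have hmlt : m < n := by
    have : m ≤ n - 1 := Nat.find_min' hex (by rw [Nat.sub_add_cancel hn, hSn]; exact hτ2)
    omega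
  have hlow : S m ≤ τ := by
    rcases Nat.eq_zero_or_pos m with h0 | hpos
    · rw [h0, hS0]; linarith
    · have := Nat.find_min hex (m := m - 1) (by omega)
      rw [Nat.sub_add_cancel hpos] at this
      push Not at this
      exact this.le
  refine ⟨⟨m, hmlt⟩, hlow, ?_⟩
  have h2 : w' m = w ⟨m, hmlt⟩ := by
    show (if h : m < n then w ⟨m, h⟩ else 0) = _
    rw [dif_pos hmlt]
  rw [hSs, h2] at hmspec
  exact hmspec

/-- The full statement in dimension `k+1`. -/
theorem full (hk : 1 ≤ k) (hn : 1 ≤ n) (w : Fin n → ℝ) (hw : ∀ i, 0 < w i)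
    (hs : ∑ i, w i < 2) (u : Fin n → EuclideanSpace ℝ (Fin (k+1))) (a : Fin n → ℝ)
    (hu : ∀ i, ‖u i‖ = 1) :
    (∀ (v : Fin n → EuclideanSpace ℝ (Fin (k+1))) (b : Fin n → ℝ), (∀ i, ‖v i‖ = 1) →
        volume (slabP v b w ∩ closedBall 0 1) ≤ volume (slabP u a w ∩ closedBall 0 1)) ↔
      ∃ e : EuclideanSpace ℝ (Fin (k+1)), ‖e‖ = 1 ∧
        slabP u a w = {x : EuclideanSpace ℝ (Fin (k+1)) | |inner ℝ e x| ≤ (∑ i, w i) / 2} := by
  have hs0 : 0 < ∑ i, w i := by
    apply Finset.sum_pos (fun i _ => hw i)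
    exact ⟨⟨0, hn⟩, Finset.mem_univ _⟩
  constructor
  · intro hopt
    -- comparison with the consecutive slabs
    set e0 : EuclideanSpace ℝ (Fin (k+1)) := EuclideanSpace.single 0 1 with he0
    have he0n : ‖e0‖ = 1 := by simp [he0]
    obtain ⟨b, hb⟩ := consecutive hn w
    have h1 := hopt (fun _ => e0) b (fun _ => he0n)
    have hsub : {x : EuclideanSpace ℝ (Fin (k+1)) | |inner ℝ e0 x| ≤ (∑ i, w i) / 2} ⊆
        slabP (fun _ => e0) b w := by
      intro x hx
      obtain ⟨i, hi⟩ := hb _ hx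
      exact mem_iUnion.mpr ⟨i, hi⟩
    have h2 : volume ({x : EuclideanSpace ℝ (Fin (k+1)) | |inner ℝ e0 x| ≤ (∑ i, w i) / 2} ∩
        closedBall 0 1) ≤ volume (slabP u a w ∩ closedBall 0 1) :=
      (measure_mono (inter_subset_inter_left _ hsub)).trans h1
    -- hence equality in the volume inequality
    have h3 : V u w ≤ kap k * lensf k (∑ i, w i) := by
      rw [← lens_volume hk e0 he0n _ hs0.le hs.le]
      apply ENNReal.toReal_mono
      · exact ne_top_of_le_ne_top measure_closedBall_lt_top.ne (measure_mono sdiff_subset)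
      · refine (volume_K_le hk u a w hu hw).trans ?_
        exact (compare_compl (measurable_slab e0 _) (measurable_slabP u a w)).mp h2
    -- all directions parallel
    have hpar : ∀ i j, 1 ≤ |inner ℝ (u i) (u j)| := by
      intro i j
      by_contra hlt
      push Not at hlt
      have := (mkCfg u hu w hw hs0).strict_lower hk (s := ∑ i, w i) ⟨hs0, hs⟩
        (fun i => div_pos (hw i) hs0) i j hlt
      rw [mkCfg_v] at this
      linarith
    set e : EuclideanSpace ℝ (Fin (k+1)) := u ⟨0, hn⟩ with he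
    have hen : ‖e‖ = 1 := hu _
    have hpm : ∀ j, u j = e ∨ u j = -e := by
      intro j
      have h4 := hpar ⟨0, hn⟩ j
      rw [← he] at h4
      rcases le_abs.mp h4 with h5 | h5
      · left
        have h6 : inner ℝ e (u j) = 1 := by
          apply le_antisymm _ h5
          have := real_inner_le_norm e (u j)
          rwa [hen, hu j, one_mul] at this
        exact ((inner_eq_one_iff_of_norm_eq_one hen (hu j)).mp h6).symm
      · right
        have h6 : inner ℝ e (-(u j)) = 1 := by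
          rw [inner_neg_right]
          apply le_antisymm _ h5
          have := (abs_le.mp (abs_real_inner_le_norm e (u j))).1
          rw [hen, hu j, one_mul] at this
          linarith
        have h7 := (inner_eq_one_iff_of_norm_eq_one hen (by rw [norm_neg]; exact hu j)).mp h6
        rw [h7, neg_neg]
    classical
    let c : Fin n → ℝ := fun j => if u j = e then a j else -(a j + w j)
    have hslab : slabP u a w = ⋃ i, {x : EuclideanSpace ℝ (Fin (k+1)) |
        c i ≤ inner ℝ e x ∧ inner ℝ e x ≤ c i + w i} := by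
      unfold slabP
      apply iUnion_congr
      intro j
      ext x
      simp only [mem_ofPred_eq, c]
      by_cases h : u j = e
      · rw [if_pos h, h]
      · rw [if_neg h]
        have h8 : u j = -e := (hpm j).resolve_left h
        rw [h8, inner_neg_left]
        constructor
        · rintro ⟨h9, h10⟩
          constructor <;> linarith
        · rintro ⟨h9, h10⟩
          constructor <;> linarith
    refine ⟨e, hen, ?_⟩
    rw [hslab]
    apply parallel_case hk hn e hen c w hw hs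
    rw [← hslab]
    refine le_trans ?_ h2
    rw [compare_compl (measurable_slab e _) (measurable_slab e0 _)]
    have f1 : volume (closedBall (0 : EuclideanSpace ℝ (Fin (k+1))) 1 \
      {x | |inner ℝ e0 x| ≤ (∑ i, w i) / 2}) ≠ ⊤ :=
      ne_top_of_le_ne_top measure_closedBall_lt_top.ne (measure_mono sdiff_subset)
    have f2 : volume (closedBall (0 : EuclideanSpace ℝ (Fin (k+1))) 1 \
      {x | |inner ℝ e x| ≤ (∑ i, w i) / 2}) ≠ ⊤ :=
      ne_top_of_le_ne_top measure_closedBall_lt_top.ne (measure_mono sdiff_subset)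
    rw [← ENNReal.toReal_le_toReal f1 f2, lens_volume hk e0 he0n _ hs0.le hs.le,
      lens_volume hk e hen _ hs0.le hs.le]
  · rintro ⟨e, hen, hU⟩ v b hv
    rw [hU]
    exact upper hk v b w hv hw hs0 hs e hen

end Pool.Agent.Helper934.BP
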