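import Mathlib

open Finset

namespace Pool.Agent.Results.MP_3a3582_co.BoundedRank

/-- `A` is dissociated: there is no nonempty `B ⊆ A` with signs `ε b ∈ {1, -1}` (`b ∈ B`) such that
`∑ b ∈ B, ε b • b = 0`. -/
def Dissociated {G : Type*} [AddCommGroup G] (A : Finset G) : Prop :=
  ¬ ∃ B : Finset G, B ⊆ A ∧ B.Nonempty ∧
    ∃ ε : G → ℤ, (∀ b ∈ B, ε b = 1 ∨ ε b = -1) ∧ ∑ b ∈ B, ε b • b = 0

/-- `τ(G)`: the largest size of a dissociated subset of `G`. -/
noncomputable def tau (G : Type*) [AddCommGroup G] : ℕ :=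
  sSup {m : ℕ | ∃ A : Finset G, Dissociated A ∧ A.card = m}

section basic
variable {G : Type*} [AddCommGroup G]

lemma Dissociated.inj {A : Finset G} (hA : Dissociated A) {S T : Finset G}
    (hS : S ⊆ A) (hT : T ⊆ A) (h : ∑ x ∈ S, x = ∑ x ∈ T, x) : S = T := by
  classical
  by_contra hne
  apply hA
  refine ⟨(S \ T) ∪ (T \ S), ?_, ?_, fun b => if b ∈ S then 1 else -1, ?_, ?_⟩
  · intro x hx
    rcases Finset.mem_union.mp hx with hx | hx
    · exact hS (Finset.mem_sdiff.mp hx).1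
    · exact hT (Finset.mem_sdiff.mp hx).1
  · by_contra hemp
    rw [Finset.not_nonempty_iff_eq_empty, Finset.union_eq_empty, Finset.sdiff_eq_empty_iff_subset,
      Finset.sdiff_eq_empty_iff_subset] at hemp
    exact hne (Finset.Subset.antisymm hemp.1 hemp.2)
  · intro b _
    by_cases hb : b ∈ S
    · left; simp [hb]
    · right; simp [hb]
  · rw [Finset.sum_union (disjoint_sdiff_sdiff)]
    have h1 : ∑ b ∈ S \ T, (if b ∈ S then (1 : ℤ) else -1) • b = ∑ b ∈ S \ T, b := by
      refine Finset.sum_congr rfl fun b hb => ?_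
      simp [(Finset.mem_sdiff.mp hb).1]
    have h2 : ∑ b ∈ T \ S, (if b ∈ S then (1 : ℤ) else -1) • b = - ∑ b ∈ T \ S, b := by
      rw [← Finset.sum_neg_distrib]
      refine Finset.sum_congr rfl fun b hb => ?_
      simp [(Finset.mem_sdiff.mp hb).2]
    rw [h1, h2, ← sub_eq_add_neg, sub_eq_zero]
    exact Finset.sum_sdiff_eq_sum_sdiff_iff.mpr h

lemma Dissociated.two_pow_le [Fintype G] {A : Finset G} (hA : Dissociated A) :
    2 ^ A.card ≤ Fintype.card G := by
  classical
  rw [← Finset.card_powerset, ← Finset.card_univ]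
  refine Finset.card_le_card_of_injOn (fun S => ∑ x ∈ S, x) (fun _ _ => Finset.mem_univ _) ?_
  intro S hS T hT h
  exact hA.inj (Finset.mem_powerset.mp (by simpa using hS))
    (Finset.mem_powerset.mp (by simpa using hT)) h

lemma bddAbove_set [Fintype G] :
    BddAbove {m : ℕ | ∃ A : Finset G, Dissociated A ∧ A.card = m} := by
  refine ⟨Fintype.card G, ?_⟩
  rintro m ⟨A, _, rfl⟩
  exact Finset.card_le_univ A

lemma nonempty_set : {m : ℕ | ∃ A : Finset G, Dissociated A ∧ A.card = m}.Nonempty := by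
  refine ⟨0, ∅, ?_, rfl⟩
  rintro ⟨B, hB, hne, _⟩
  exact hne.ne_empty (Finset.subset_empty.mp hB)

lemma exists_tau [Fintype G] : ∃ A : Finset G, Dissociated A ∧ A.card = tau G :=
  Nat.sSup_mem (nonempty_set (G := G)) bddAbove_set

lemma le_tau [Fintype G] {A : Finset G} (hA : Dissociated A) : A.card ≤ tau G :=
  le_csSup bddAbove_set ⟨A, hA, rfl⟩

lemma two_pow_tau_le [Fintype G] : 2 ^ tau G ≤ Fintype.card G := by
  obtain ⟨A, hA, hc⟩ := exists_tau (G := G)
  rw [← hc]
  exact hA.two_pow_le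

/-- A family with pairwise distinct subset sums gives a dissociated set. -/
lemma card_le_tau_of_injective [Fintype G] {ι : Type*} [Fintype ι] (v : ι → G)
    (hv : Function.Injective fun S : Finset ι => ∑ i ∈ S, v i) : Fintype.card ι ≤ tau G := by
  classical
  have hinj : Function.Injective v := by
    intro i j hij
    have := @hv {i} {j} (by simpa using hij)
    simpa using this
  have hcard : (Finset.univ.image v).card = Fintype.card ι := by
    rw [Finset.card_image_of_injective _ hinj, Finset.card_univ]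
  rw [← hcard]
  apply le_tau
  rintro ⟨B, hB, hne, ε, hε, hsum⟩
  set P : Finset ι := Finset.univ.filter fun i => v i ∈ B ∧ ε (v i) = 1 with hP
  set M : Finset ι := Finset.univ.filter fun i => v i ∈ B ∧ ε (v i) = -1 with hM
  have hBeq : B = (P ∪ M).image v := by
    ext x
    simp only [hP, hM, Finset.mem_image, Finset.mem_union, Finset.mem_filter, Finset.mem_univ,
      true_and]
    constructor
    · intro hx
      obtain ⟨i, _, hi⟩ := Finset.mem_image.mp (hB hx)
      refine ⟨i, ?_, hi⟩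
      rcases hε x hx with h | h
      · left; rw [hi]; exact ⟨hx, h⟩
      · right; rw [hi]; exact ⟨hx, h⟩
    · rintro ⟨i, h | h, rfl⟩
      · exact h.1
      · exact h.1
  have hdisj : Disjoint P M := by
    rw [Finset.disjoint_left]
    intro i hi hi'
    have h1 := (Finset.mem_filter.mp hi).2.2
    have h2 := (Finset.mem_filter.mp hi').2.2
    omega
  rw [hBeq, Finset.sum_image (fun x _ y _ h => hinj h), Finset.sum_union hdisj] at hsum
  have h1 : ∑ x ∈ P, ε (v x) • v x = ∑ x ∈ P, v x := by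
    refine Finset.sum_congr rfl fun i hi => ?_
    rw [(Finset.mem_filter.mp hi).2.2, one_smul]
  have h2 : ∑ x ∈ M, ε (v x) • v x = - ∑ x ∈ M, v x := by
    rw [← Finset.sum_neg_distrib]
    refine Finset.sum_congr rfl fun i hi => ?_
    rw [(Finset.mem_filter.mp hi).2.2, neg_smul, one_smul]
  rw [h1, h2, ← sub_eq_add_neg, sub_eq_zero] at hsum
  have hPM : P = M := hv hsum
  rw [hPM, disjoint_self] at hdisj
  have : M = ∅ := hdisj
  rw [hPM, this] at hBeq
  simp at hBeq
  exact hne.ne_empty hBeq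

end basic

/-- A family of `k` elements `(v i, w i)` of `K × ℤ` with pairwise distinct subset sums such that
subset sums with the same first coordinate are at distance less than `W`. -/
def Pack (K : Type) [AddCommGroup K] (ι : Type) (W : ℕ) : Prop :=
  ∃ (v : ι → K) (w : ι → ℤ), ∀ S T : Finset ι, ∑ i ∈ S, v i = ∑ i ∈ T, v i →
    |∑ i ∈ S, w i - ∑ i ∈ T, w i| < W ∧ (∑ i ∈ S, w i = ∑ i ∈ T, w i → S = T)

lemma Pack.map {K K' : Type} [AddCommGroup K] [AddCommGroup K'] {ι : Type} {W : ℕ}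
    (h : Pack K ι W) (e : K ≃+ K') : Pack K' ι W := by
  obtain ⟨v, w, hvw⟩ := h
  refine ⟨fun i => e (v i), w, fun S T hST => hvw S T ?_⟩
  rw [← map_sum, ← map_sum] at hST
  exact e.injective hST

lemma Pack.card_le_tau {K G : Type} [AddCommGroup K] [AddCommGroup G] [Fintype G] {ι : Type}
    [Fintype ι] {W c : ℕ} (h : Pack K ι W) (hW : W ≤ c) (e : G ≃+ K × ZMod c) :
    Fintype.card ι ≤ tau G := by
  obtain ⟨v, w, hvw⟩ := h
  refine card_le_tau_of_injective (fun i => e.symm (v i, (w i : ZMod c))) ?_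
  intro S T hST
  have h0 : ∑ i ∈ S, (v i, (w i : ZMod c)) = ∑ i ∈ T, (v i, (w i : ZMod c)) := by
    apply e.symm.injective
    rw [map_sum, map_sum]
    exact hST
  have h1 : ∑ i ∈ S, v i = ∑ i ∈ T, v i := by
    have := congrArg Prod.fst h0
    simpa [Prod.fst_sum] using this
  have h2 : ((∑ i ∈ S, w i : ℤ) : ZMod c) = ((∑ i ∈ T, w i : ℤ) : ZMod c) := by
    have := congrArg Prod.snd h0
    simpa [Prod.snd_sum] using this
  obtain ⟨h3, h4⟩ := hvw S T h1
  apply h4
  rw [ZMod.intCast_eq_intCast_iff_dvd_sub] at h2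
  have h5 : |∑ i ∈ T, w i - ∑ i ∈ S, w i| < (c : ℤ) := by
    rw [abs_sub_comm]
    exact lt_of_lt_of_le h3 (by exact_mod_cast hW)
  have := Int.eq_zero_of_abs_lt_dvd h2 h5
  omega

lemma sum_two_pow_bounds {s : ℕ} (R : Finset (Fin s)) :
    0 ≤ ∑ j ∈ R, (2 : ℤ) ^ (j : ℕ) ∧ ∑ j ∈ R, (2 : ℤ) ^ (j : ℕ) ≤ 2 ^ s - 1 := by
  constructor
  · exact Finset.sum_nonneg fun _ _ => by positivity
  · have h : ∑ j ∈ R, (2 : ℤ) ^ (j : ℕ) ≤ ∑ j : Fin s, (2 : ℤ) ^ (j : ℕ) :=
      Finset.sum_le_sum_of_subset_of_nonneg (Finset.subset_univ _) fun _ _ _ => by positivity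
    refine h.trans ?_
    rw [Fin.sum_univ_eq_sum_range (fun i => (2 : ℤ) ^ i) s]
    have := geom_sum_mul (2 : ℤ) s
    linarith

lemma sum_two_pow_inj {s : ℕ} {R R' : Finset (Fin s)}
    (h : ∑ j ∈ R, (2 : ℤ) ^ (j : ℕ) = ∑ j ∈ R', (2 : ℤ) ^ (j : ℕ)) : R = R' := by
  have h1 : ∑ j ∈ R, 2 ^ (j : ℕ) = ∑ j ∈ R', 2 ^ (j : ℕ) := by exact_mod_cast h
  have h2 := Finset.geomSum_injective (n := 2) le_rfl
    (a₁ := R.map Fin.valEmbedding) (a₂ := R'.map Fin.valEmbedding) (by simpa using h1)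
  exact Finset.map_injective _ h2

lemma pack_base (K : Type) [AddCommGroup K] (m : ℕ) : Pack K (Fin m) (2 ^ m) := by
  refine ⟨fun _ => 0, fun i => 2 ^ (i : ℕ), fun S T _ => ⟨?_, fun h => sum_two_pow_inj h⟩⟩
  have h1 := sum_two_pow_bounds S
  have h2 := sum_two_pow_bounds T
  rw [abs_lt]
  push_cast
  constructor <;> linarith [h1.1, h1.2, h2.1, h2.2]


lemma pack_step {K : Type} [AddCommGroup K] {ι : Type} {W : ℕ} (h : Pack K ι W) (a s : ℕ)
    (ha : 1 ≤ a) : Pack (K × ZMod a) (ι ⊕ Fin s) (((2 ^ s - 1) / a + 1) * (W + s)) := by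
  classical
  obtain ⟨v, w, hvw⟩ := h
  set T : ℤ := (W : ℤ) + s with hT
  have ha' : (0 : ℤ) < a := by exact_mod_cast ha
  refine ⟨Sum.elim (fun i => (v i, 0)) (fun j => (0, ((2 : ℤ) ^ (j : ℕ) : ℤ))),
    Sum.elim w (fun j => 2 ^ (j : ℕ) * T / a), fun S S' hSS => ?_⟩
  rw [← Finset.toLeft_disjSum_toRight (u := S), ← Finset.toLeft_disjSum_toRight (u := S')] at hSS ⊢
  set A := S.toLeft
  set R := S.toRight
  set A' := S'.toLeft
  set R' := S'.toRight
  simp only [Finset.sum_disjSum, Sum.elim_inl, Sum.elim_inr] at hSS ⊢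
  have h1 : ∑ i ∈ A, v i = ∑ i ∈ A', v i := by
    have := congrArg Prod.fst hSS
    simpa [Prod.fst_sum] using this
  have h2 : ((∑ j ∈ R, (2 : ℤ) ^ (j : ℕ) : ℤ) : ZMod a) = ((∑ j ∈ R', (2 : ℤ) ^ (j : ℕ) : ℤ) : ZMod a) := by
    have := congrArg Prod.snd hSS
    simpa [Prod.snd_sum] using this
  obtain ⟨h3, h4⟩ := hvw A A' h1
  rw [ZMod.intCast_eq_intCast_iff_dvd_sub] at h2
  obtain ⟨q, hq⟩ := h2
  -- remainders
  have hrem : ∀ Q : Finset (Fin s), (0 ≤ T * ∑ j ∈ Q, (2 : ℤ) ^ (j : ℕ) -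
      a * ∑ j ∈ Q, (2 : ℤ) ^ (j : ℕ) * T / a) ∧ (T * ∑ j ∈ Q, (2 : ℤ) ^ (j : ℕ) -
      a * ∑ j ∈ Q, (2 : ℤ) ^ (j : ℕ) * T / a) ≤ a * s := by
    intro Q
    have e1 : T * ∑ j ∈ Q, (2 : ℤ) ^ (j : ℕ) - a * ∑ j ∈ Q, (2 : ℤ) ^ (j : ℕ) * T / a =
        ∑ j ∈ Q, ((2 : ℤ) ^ (j : ℕ) * T) % a := by
      rw [Finset.mul_sum, Finset.mul_sum, ← Finset.sum_sub_distrib]
      refine Finset.sum_congr rfl fun j _ => ?_
      have := Int.emod_add_mul_ediv ((2 : ℤ) ^ (j : ℕ) * T) a
      linarith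
    rw [e1]
    constructor
    · exact Finset.sum_nonneg fun j _ => Int.emod_nonneg _ ha'.ne'
    · calc ∑ j ∈ Q, ((2 : ℤ) ^ (j : ℕ) * T) % a ≤ ∑ j ∈ Q, (a : ℤ) :=
            Finset.sum_le_sum fun j _ => (Int.emod_lt_of_pos _ ha').le
        _ = Q.card * a := by simp
        _ ≤ s * a := by
            have : Q.card ≤ s := by simpa using Finset.card_le_univ Q
            have : (Q.card : ℤ) ≤ s := by exact_mod_cast this
            exact mul_le_mul_of_nonneg_right this ha'.le
        _ = a * s := mul_comm _ _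
  set N := ∑ j ∈ R, (2 : ℤ) ^ (j : ℕ) with hN
  set N' := ∑ j ∈ R', (2 : ℤ) ^ (j : ℕ) with hN'
  set x := ∑ j ∈ R, (2 : ℤ) ^ (j : ℕ) * T / a with hx
  set x' := ∑ j ∈ R', (2 : ℤ) ^ (j : ℕ) * T / a with hx'
  set y := ∑ i ∈ A, w i with hy
  set y' := ∑ i ∈ A', w i with hy'
  have r1 := hrem R
  have r2 := hrem R'
  rw [← hN, ← hx] at r1
  rw [← hN', ← hx'] at r2
  have b1 := sum_two_pow_bounds R
  have b2 := sum_two_pow_bounds R'
  rw [← hN] at b1
  rw [← hN'] at b2
  -- the difference of the new parts is `T q` up to `s`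
  have hd1 : T * q - s ≤ x' - x := by
    have : (a : ℤ) * (T * q - s) ≤ a * (x' - x) := by nlinarith [r1.1, r1.2, r2.1, r2.2, hq]
    exact le_of_mul_le_mul_left this ha'
  have hd2 : x' - x ≤ T * q + s := by
    have : (a : ℤ) * (x' - x) ≤ a * (T * q + s) := by nlinarith [r1.1, r1.2, r2.1, r2.2, hq]
    exact le_of_mul_le_mul_left this ha'
  -- bound on `q`
  have h2s : ((2 ^ s - 1 : ℕ) : ℤ) = 2 ^ s - 1 := by
    have : 1 ≤ 2 ^ s := Nat.one_le_two_pow
    push_cast [Nat.cast_sub this]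
    ring
  have hqb : |q| ≤ (((2 ^ s - 1) / a : ℕ) : ℤ) := by
    rw [Int.natCast_div, h2s]
    apply Int.le_ediv_of_mul_le ha'
    have e : |q| * a = |N' - N| := by
      rw [hq, abs_mul, abs_of_pos ha', mul_comm]
    rw [e, abs_le]
    constructor <;> linarith [b1.1, b1.2, b2.1, b2.2]
  set Q : ℤ := (((2 ^ s - 1) / a : ℕ) : ℤ) with hQ
  have hT0 : 0 ≤ T := by rw [hT]; positivity
  rw [abs_lt] at h3
  have hqb' := abs_le.mp hqb
  have m1 : T * q ≤ T * Q := mul_le_mul_of_nonneg_left hqb'.2 hT0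
  have m2 : -(T * Q) ≤ T * q := by
    have := mul_le_mul_of_nonneg_left hqb'.1 hT0
    linarith
  constructor
  · have e : ((((2 ^ s - 1) / a + 1) * (W + s) : ℕ) : ℤ) = T * Q + T := by
      rw [hQ, hT]
      push_cast
      ring
    rw [e, abs_lt]
    constructor <;> linarith [h3.1, h3.2]
  · intro h
    have hq0 : q = 0 := by
      by_contra hne
      rcases lt_or_gt_of_ne hne with hlt | hgt
      · have : q ≤ -1 := by omega
        have : T * q ≤ T * (-1) := mul_le_mul_of_nonneg_left this hT0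
        linarith [h3.1, h3.2]
      · have : 1 ≤ q := by omega
        have : T * 1 ≤ T * q := mul_le_mul_of_nonneg_left this hT0
        linarith [h3.1, h3.2]
    have hNN : N = N' := by
      rw [hq0, mul_zero] at hq
      linarith
    have hRR : R = R' := sum_two_pow_inj hNN
    have hxx : x = x' := by rw [hx, hx', hRR]
    have hyy : y = y' := by linarith
    rw [h4 hyy, hRR]

/-- Splitting off the last factor of a product. -/
def snocEquiv {r : ℕ} (n : Fin (r + 1) → ℕ) :
    ((∀ i : Fin r, ZMod (n i.castSucc)) × ZMod (n (Fin.last r))) ≃+ (∀ i, ZMod (n i)) where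
  toFun p := Fin.snoc (α := fun i => ZMod (n i)) p.1 p.2
  invFun f := (fun i => f i.castSucc, f (Fin.last r))
  left_inv p := by
    ext <;> simp
  right_inv f := by
    funext i
    refine Fin.lastCases ?_ (fun i => ?_) i <;> simp
  map_add' p q := by
    funext i
    refine Fin.lastCases ?_ (fun i => ?_) i <;> simp

lemma packs (L : ℕ) (hL : 1 ≤ L) (m : ℕ) : ∀ (r : ℕ) (n s : Fin r → ℕ), (∀ i, 1 ≤ n i) →
    (∀ i, L * n i ≤ 2 ^ (s i)) → (∀ i, L * s i ≤ 2 ^ m) →
    ∃ (ι : Type) (_ : Fintype ι) (W : ℕ), Fintype.card ι = m + ∑ i, s i ∧ 2 ^ m ≤ W ∧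
      (W : ℝ) * ∏ i, (n i : ℝ) ≤ (1 + 1 / (L : ℝ)) ^ (2 * r) * 2 ^ (m + ∑ i, s i) ∧
      Pack (∀ i, ZMod (n i)) ι W := by
  intro r
  induction r with
  | zero =>
    intro n s _ _ _
    refine ⟨Fin m, inferInstance, 2 ^ m, by simp, le_rfl, by simp, pack_base _ m⟩
  | succ r ih =>
    intro n s hn hs hsm
    obtain ⟨ι, hι, W, hcard, hW, hWP, hpack⟩ := ih (fun i => n i.castSucc) (fun i => s i.castSucc)
      (fun i => hn _) (fun i => hs _) (fun i => hsm _)
    set a := n (Fin.last r) with ha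
    set t := s (Fin.last r) with ht
    refine ⟨ι ⊕ Fin t, inferInstance, ((2 ^ t - 1) / a + 1) * (W + t), ?_, ?_, ?_, ?_⟩
    · rw [Fintype.card_sum, hcard, Fintype.card_fin, Fin.sum_univ_castSucc]
      ring
    · calc 2 ^ m ≤ W := hW
        _ ≤ 1 * (W + t) := by omega
        _ ≤ _ := Nat.mul_le_mul_right _ (Nat.le_add_left 1 _)
    · rw [Fin.prod_univ_castSucc, Fin.sum_univ_castSucc, ← ha, ← ht]
      have ha1 : 1 ≤ a := hn _
      have hLa : L * a ≤ 2 ^ t := hs _
      have hLt : L * t ≤ 2 ^ m := hsm _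
      have hL0 : (0 : ℝ) < L := by exact_mod_cast hL
      set P : ℝ := ∏ i : Fin r, (n i.castSucc : ℝ) with hP
      have hP0 : 0 ≤ P := Finset.prod_nonneg fun _ _ => Nat.cast_nonneg _
      set X : ℝ := (1 + 1 / (L : ℝ)) with hX
      have hX0 : 0 ≤ X := by positivity
      have e1 : ((((2 ^ t - 1) / a + 1 : ℕ) : ℝ)) * a ≤ 2 ^ t * X := by
        have h1 : ((2 ^ t - 1) / a + 1) * a ≤ 2 ^ t + a := by
          have := Nat.div_mul_le_self (2 ^ t - 1) a
          have : ((2 ^ t - 1) / a + 1) * a = (2 ^ t - 1) / a * a + a := by ring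
          omega
        have h2 : ((((2 ^ t - 1) / a + 1 : ℕ) : ℝ)) * a ≤ 2 ^ t + a := by exact_mod_cast h1
        have h3 : (L : ℝ) * a ≤ 2 ^ t := by exact_mod_cast hLa
        have h4 : (a : ℝ) ≤ 2 ^ t * (1 / (L : ℝ)) := by
          rw [mul_one_div, le_div_iff₀ hL0]
          linarith
        rw [hX]
        linarith
      have e2 : ((W + t : ℕ) : ℝ) ≤ W * X := by
        have h3 : (L : ℝ) * t ≤ W := by exact_mod_cast hLt.trans hW
        have h4 : (t : ℝ) ≤ W * (1 / (L : ℝ)) := by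
          rw [mul_one_div, le_div_iff₀ hL0]
          linarith
        rw [hX]
        push_cast
        linarith
      calc (((((2 ^ t - 1) / a + 1) * (W + t) : ℕ)) : ℝ) * (P * a)
          = ((((2 ^ t - 1) / a + 1 : ℕ) : ℝ) * a) * (((W + t : ℕ) : ℝ) * P) := by
            push_cast
            ring
        _ ≤ (2 ^ t * X) * ((W * X) * P) := by
            refine mul_le_mul e1 (mul_le_mul_of_nonneg_right e2 hP0) (by positivity) (by positivity)
        _ = X ^ 2 * 2 ^ t * (W * P) := by ring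
        _ ≤ X ^ 2 * 2 ^ t * (X ^ (2 * r) * 2 ^ (m + ∑ i : Fin r, s i.castSucc)) :=
            mul_le_mul_of_nonneg_left hWP (by positivity)
        _ = X ^ (2 * (r + 1)) * 2 ^ (m + (∑ i : Fin r, s i.castSucc + t)) := by
            rw [← add_assoc, pow_add (2 : ℝ) _ t]
            ring
    · exact (pack_step hpack a t (hn _)).map (snocEquiv n)

lemma two_pow_clog_le {x : ℕ} (hx : 1 ≤ x) : 2 ^ Nat.clog 2 x ≤ 2 * x := by
  rcases Nat.eq_or_lt_of_le hx with h | h
  · rw [← h]
    simp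
  · have h1 := Nat.pow_pred_clog_lt_self (b := 2) (by norm_num) h
    have h2 : 0 < Nat.clog 2 x := Nat.clog_pos (by norm_num) h
    have h3 : 2 ^ Nat.clog 2 x = 2 * 2 ^ (Nat.clog 2 x).pred := by
      rw [← pow_succ']
      congr 1
      exact (Nat.succ_pred_eq_of_pos h2).symm
    omega

theorem lower (r : ℕ) (n : Fin (r + 1) → ℕ) (L k : ℕ) (hn : ∀ i, 1 ≤ n i) (hL : 1 ≤ L)
    (h1 : (1 + 1 / (L : ℝ)) ^ (2 * r) * 2 ^ k ≤ ((∏ i, n i : ℕ) : ℝ))
    (h2 : ∏ i, n i < 2 ^ (k + 2)) (h3 : 2 * (2 * L) ^ (r + 1) * k ≤ n (Fin.last r))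
    (G : Type) [AddCommGroup G] [Fintype G] (e : G ≃+ ∀ i, ZMod (n i)) : k ≤ tau G := by
  rcases Nat.eq_zero_or_pos k with rfl | hk
  · exact Nat.zero_le _
  set s : Fin r → ℕ := fun i => Nat.clog 2 (L * n i.castSucc) with hs
  set P : ℕ := ∏ i : Fin r, n i.castSucc with hP
  set c : ℕ := n (Fin.last r) with hc
  have hN : ∏ i, n i = P * c := Fin.prod_univ_castSucc n
  have hLn : ∀ i : Fin r, 1 ≤ L * n i.castSucc := fun i => Nat.mul_pos hL (hn _)
  have hSg : 2 ^ (∑ i, s i) ≤ (2 * L) ^ r * P := by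
    calc 2 ^ (∑ i, s i) = ∏ i, 2 ^ s i := (Finset.prod_pow_eq_pow_sum _ _ _).symm
      _ ≤ ∏ i : Fin r, (2 * L) * n i.castSucc := by
          refine Finset.prod_le_prod' fun i _ => ?_
          rw [mul_assoc]
          exact two_pow_clog_le (hLn i)
      _ = (2 * L) ^ r * P := by
          rw [Finset.prod_mul_distrib, Finset.prod_const, Finset.card_univ, Fintype.card_fin]
  have key : L * k * 2 ^ (∑ i, s i) < 2 ^ k := by
    have a1 : 4 * (L * k * 2 ^ (∑ i, s i)) ≤ P * c := by
      calc 4 * (L * k * 2 ^ (∑ i, s i)) ≤ 4 * (L * k * ((2 * L) ^ r * P)) := by gcongr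
        _ = P * (2 * (2 * L) ^ (r + 1) * k) := by ring
        _ ≤ P * c := Nat.mul_le_mul_left _ h3
    have a2 : P * c < 4 * 2 ^ k := by
      rw [← hN]
      calc ∏ i, n i < 2 ^ (k + 2) := h2
        _ = 4 * 2 ^ k := by ring
    omega
  have hLk : 1 ≤ L * k := Nat.mul_pos hL hk
  have hlt : ∑ i, s i < k := by
    have : 2 ^ (∑ i, s i) < 2 ^ k := lt_of_le_of_lt (Nat.le_mul_of_pos_left _ hLk) key
    exact (Nat.pow_lt_pow_iff_right (by norm_num)).mp this
  set m := k - ∑ i, s i with hm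
  have hmk : m + ∑ i, s i = k := by omega
  have hm2 : L * k ≤ 2 ^ m := by
    have : L * k * 2 ^ (∑ i, s i) ≤ 2 ^ m * 2 ^ (∑ i, s i) := by
      rw [← pow_add, hmk]
      exact key.le
    exact Nat.le_of_mul_le_mul_right this (by positivity)
  obtain ⟨ι, hι, W, hcard, -, hWP, hpack⟩ := packs L hL m r (fun i => n i.castSucc) s
    (fun i => hn _) (fun i => Nat.le_pow_clog (by norm_num) _) (fun i => by
      have : s i ≤ ∑ i, s i := Finset.single_le_sum (fun _ _ => Nat.zero_le _) (Finset.mem_univ i)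
      calc L * s i ≤ L * k := Nat.mul_le_mul_left _ (by omega)
        _ ≤ 2 ^ m := hm2)
  rw [hmk] at hcard hWP
  have hP0 : 0 < P := Finset.prod_pos fun i _ => hn _
  have hWc : W ≤ c := by
    have b1 : (W : ℝ) * P ≤ (c : ℝ) * P := by
      have : ((∏ i : Fin r, (n i.castSucc : ℝ))) = (P : ℝ) := by rw [hP]; push_cast; rfl
      rw [this] at hWP
      calc (W : ℝ) * P ≤ _ := hWP
        _ ≤ ((∏ i, n i : ℕ) : ℝ) := h1
        _ = (c : ℝ) * P := by rw [hN]; push_cast; ring
    have b2 : (W : ℝ) ≤ c := le_of_mul_le_mul_right b1 (by exact_mod_cast hP0)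
    exact_mod_cast b2
  rw [← hcard]
  exact hpack.card_le_tau hWc (e.trans (snocEquiv n).symm)

/-- In a group of odd order the subset sums of a dissociated set miss an element of every coset
of the subgroup generated by an element of the set. -/
lemma odd_bound {G : Type} [AddCommGroup G] [Fintype G] (hodd : Odd (Fintype.card G))
    {A : Finset G} (hA : Dissociated A) (hne : A.Nonempty) :
    2 ^ A.card + Fintype.card G / AddMonoid.exponent G ≤ Fintype.card G := by
  classical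
  obtain ⟨a, ha⟩ := hne
  set H := AddSubgroup.zmultiples a with hH
  have haH : a ∈ H := AddSubgroup.mem_zmultiples a
  set Z : Finset G := A.powerset.image (fun S => ∑ x ∈ S, x) with hZ
  have hZcard : Z.card = 2 ^ A.card := by
    rw [hZ, Finset.card_image_of_injOn, Finset.card_powerset]
    intro S hS T hT h
    exact hA.inj (Finset.mem_powerset.mp (by simpa using hS))
      (Finset.mem_powerset.mp (by simpa using hT)) h
  -- every coset contains an element outside `Z`
  have hcoset : ∀ x : G, ∃ y, y - x ∈ H ∧ y ∉ Z := by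
    intro x
    by_contra hcon
    push Not at hcon
    set F : Finset G := Finset.univ.filter fun y => y - x ∈ H with hF
    set Z0 : Finset G := (A.erase a).powerset.image (fun S => ∑ x ∈ S, x) with hZ0
    have hFcard : F.card = Nat.card H := by
      rw [Nat.card_eq_fintype_card, ← Finset.card_univ (α := H)]
      symm
      refine Finset.card_bij (fun (h : H) _ => x + (h : G)) ?_ ?_ ?_
      · intro h _
        simp [hF, h.2]
      · intro h _ h' _ hh
        simpa using hh
      · intro y hy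
        exact ⟨⟨y - x, (Finset.mem_filter.mp hy).2⟩, Finset.mem_univ _, by simp⟩
    have hFodd : Odd F.card := by
      rw [hFcard]
      refine Odd.of_dvd_nat ?_ (AddSubgroup.card_addSubgroup_dvd_card H)
      rwa [Nat.card_eq_fintype_card]
    have hbij : (F.filter (· ∈ Z0)).card = (F.filter (· ∉ Z0)).card := by
      refine Finset.card_bij (fun y _ => y + a) ?_ ?_ ?_
      · intro y hy
        rw [Finset.mem_filter] at hy ⊢
        obtain ⟨hyF, hyZ⟩ := hy
        rw [hF, Finset.mem_filter] at hyF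
        refine ⟨?_, ?_⟩
        · rw [hF, Finset.mem_filter]
          refine ⟨Finset.mem_univ _, ?_⟩
          have : y + a - x = (y - x) + a := by abel
          rw [this]
          exact H.add_mem hyF.2 haH
        · intro hcon'
          obtain ⟨S, hS, hSy⟩ := Finset.mem_image.mp hyZ
          obtain ⟨T, hT, hTy⟩ := Finset.mem_image.mp hcon'
          rw [Finset.mem_powerset] at hS hT
          have haS : a ∉ S := fun h => (Finset.mem_erase.mp (hS h)).1 rfl
          have haT : a ∉ T := fun h => (Finset.mem_erase.mp (hT h)).1 rfl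
          have : insert a S = T := by
            refine hA.inj (Finset.insert_subset ha (hS.trans (Finset.erase_subset _ _)))
              (hT.trans (Finset.erase_subset _ _)) ?_
            rw [Finset.sum_insert haS, hTy, ← hSy]
            exact add_comm _ _
          exact haT (this ▸ Finset.mem_insert_self _ _)
      · intro y _ y' _ h
        exact add_right_cancel h
      · intro y hy
        rw [Finset.mem_filter] at hy
        obtain ⟨hyF, hyZ⟩ := hy
        have hyH := (Finset.mem_filter.mp hyF).2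
        obtain ⟨S, hS, hSy⟩ := Finset.mem_image.mp (hcon y hyH)
        rw [Finset.mem_powerset] at hS
        have haS : a ∈ S := by
          by_contra haS
          apply hyZ
          refine Finset.mem_image.mpr ⟨S, Finset.mem_powerset.mpr ?_, hSy⟩
          intro z hz
          refine Finset.mem_erase.mpr ⟨?_, hS hz⟩
          rintro rfl
          exact haS hz
        refine ⟨y - a, ?_, by abel⟩
        rw [Finset.mem_filter]
        refine ⟨?_, ?_⟩
        · rw [hF, Finset.mem_filter]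
          refine ⟨Finset.mem_univ _, ?_⟩
          have : y - a - x = (y - x) - a := by abel
          rw [this]
          exact H.sub_mem hyH haH
        · refine Finset.mem_image.mpr ⟨S.erase a,
            Finset.mem_powerset.mpr (Finset.erase_subset_erase _ hS), ?_⟩
          have := Finset.sum_erase_add S (fun x => x) haS
          have h5 : ∑ x ∈ S, x = y := hSy
          have h6 : ∑ x ∈ S.erase a, x + a = ∑ x ∈ S, x := this
          rw [h5] at h6
          exact eq_sub_of_add_eq h6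
    have hsum := Finset.card_filter_add_card_filter_not (s := F) (· ∈ Z0)
    rw [← hsum, hbij] at hFodd
    rw [Nat.odd_iff] at hFodd
    omega
  -- count the cosets
  have hquot : Nat.card (G ⧸ H) ≤ (Zᶜ).card := by
    have hsurj : Function.Surjective (fun y : (Zᶜ : Finset G) => (QuotientAddGroup.mk (y : G) : G ⧸ H)) := by
      intro q
      obtain ⟨x, rfl⟩ := QuotientAddGroup.mk_surjective q
      obtain ⟨y, hyH, hyZ⟩ := hcoset x
      refine ⟨⟨y, Finset.mem_compl.mpr hyZ⟩, ?_⟩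
      simp only
      rw [eq_comm, QuotientAddGroup.eq]
      rwa [neg_add_eq_sub]
    have := Nat.card_le_card_of_surjective _ hsurj
    rwa [Nat.card_eq_fintype_card (α := (Zᶜ : Finset G)), Fintype.card_coe] at this
  have hcard : Fintype.card G = Nat.card (G ⧸ H) * Nat.card H := by
    rw [← Nat.card_eq_fintype_card]
    exact AddSubgroup.card_eq_card_quotient_mul_card_addSubgroup H
  have hHexp : Nat.card H ≤ AddMonoid.exponent G := by
    rw [hH, Nat.card_zmultiples]
    exact Nat.le_of_dvd (Nat.pos_of_ne_zero (AddMonoid.exponent_ne_zero_of_finite))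
      (AddMonoid.addOrder_dvd_exponent a)
  have hdiv : Fintype.card G / AddMonoid.exponent G ≤ Nat.card (G ⧸ H) := by
    calc Fintype.card G / AddMonoid.exponent G ≤ Fintype.card G / Nat.card H :=
          Nat.div_le_div_left hHexp Nat.card_pos
      _ = Nat.card (G ⧸ H) := by
          rw [hcard, Nat.mul_div_cancel _ Nat.card_pos]
  have hcompl : (Zᶜ).card = Fintype.card G - 2 ^ A.card := by
    rw [Finset.card_compl, hZcard]
  have h2 := hA.two_pow_le
  omega

lemma exponent_le {r : ℕ} {n : Fin (r + 1) → ℕ} (hdvd : ∀ i, n i ∣ n (Fin.last r))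
    (hn : ∀ i, 1 ≤ n i) {G : Type} [AddCommGroup G] [Fintype G] (e : G ≃+ ∀ i, ZMod (n i)) :
    AddMonoid.exponent G ≤ n (Fin.last r) := by
  refine Nat.le_of_dvd (hn _) (AddMonoid.exponent_dvd_of_forall_nsmul_eq_zero fun g => ?_)
  apply e.injective
  rw [map_nsmul, map_zero]
  funext i
  obtain ⟨d, hd⟩ := hdvd i
  rw [Pi.smul_apply, hd, mul_comm, mul_smul]
  simp

/-- `(n_0, …, n_r)` is a type: `2 ≤ n_i` and `n_i ∣ n_j` for `i ≤ j`. -/
def IsType {r : ℕ} (n : Fin (r + 1) → ℕ) : Prop :=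
  (∀ i, 2 ≤ n i) ∧ ∀ i j : Fin (r + 1), i ≤ j → n i ∣ n j

lemma IsType.one_le {r : ℕ} {n : Fin (r + 1) → ℕ} (h : IsType n) (i : Fin (r + 1)) : 1 ≤ n i :=
  le_trans (by norm_num) (h.1 i)

/-- The statement for one group. -/
theorem explicit (r : ℕ) (n : Fin (r + 1) → ℕ) (hn : IsType n) (L : ℕ) (hL : 1 ≤ L)
    (hL2 : (1 + 1 / (L : ℝ)) ^ (2 * r) ≤ 2)
    (G : Type) [AddCommGroup G] [Fintype G] (e : G ≃+ ∀ i, ZMod (n i))
    (h3 : 2 * (2 * L) ^ (r + 1) * Nat.log 2 (Fintype.card G) ≤ n (Fin.last r)) :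
    (tau G = Nat.log 2 (Fintype.card G) ∨ tau G + 1 = Nat.log 2 (Fintype.card G)) ∧
    ((1 + 1 / (L : ℝ)) ^ (2 * r) * 2 ^ Nat.log 2 (Fintype.card G) ≤ Fintype.card G →
      tau G = Nat.log 2 (Fintype.card G)) ∧
    (Odd (Fintype.card G) → Fintype.card G < 2 ^ Nat.log 2 (Fintype.card G) +
        ∏ i : Fin r, n i.castSucc → tau G + 1 = Nat.log 2 (Fintype.card G)) := by
  have hne : ∀ i, NeZero (n i) := fun i => ⟨by have := hn.one_le i; omega⟩
  have hcard : Fintype.card G = ∏ i, n i := by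
    rw [Fintype.card_congr e.toEquiv, Fintype.card_pi]
    exact Finset.prod_congr rfl fun i _ => ZMod.card (n i)
  have hG0 : Fintype.card G ≠ 0 := Fintype.card_ne_zero
  set k := Nat.log 2 (Fintype.card G) with hk
  have hk1 : 2 ^ k ≤ Fintype.card G := Nat.pow_log_le_self 2 hG0
  have hk2 : Fintype.card G < 2 ^ (k + 1) := Nat.lt_pow_succ_log_self (by norm_num) _
  have hup : tau G ≤ k := Nat.le_log_of_pow_le (by norm_num) two_pow_tau_le
  have hlow1 : k - 1 ≤ tau G := by
    rcases Nat.eq_zero_or_pos k with h0 | h0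
    · omega
    · refine lower r n L (k - 1) hn.one_le hL ?_ ?_ ?_ G e
      · rw [← hcard]
        calc (1 + 1 / (L : ℝ)) ^ (2 * r) * 2 ^ (k - 1) ≤ 2 * 2 ^ (k - 1) :=
              mul_le_mul_of_nonneg_right hL2 (by positivity)
          _ = 2 ^ k := by
              rw [← pow_succ']
              congr 1
              omega
          _ ≤ _ := by exact_mod_cast hk1
      · rw [← hcard]
        calc Fintype.card G < 2 ^ (k + 1) := hk2
          _ = 2 ^ (k - 1 + 2) := by congr 1; omega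
      · exact (Nat.mul_le_mul_left _ (Nat.sub_le _ _)).trans h3
  have hlow2 : (1 + 1 / (L : ℝ)) ^ (2 * r) * 2 ^ k ≤ Fintype.card G → k ≤ tau G := by
    intro h
    refine lower r n L k hn.one_le hL ?_ ?_ h3 G e
    · rw [← hcard]
      exact h
    · rw [← hcard]
      exact hk2.trans_le (Nat.pow_le_pow_right (by norm_num) (by omega))
  refine ⟨by omega, fun h => le_antisymm hup (hlow2 h), fun hodd hlt => ?_⟩
  have hne' : tau G ≠ k := by
    intro heq
    obtain ⟨A, hA, hAc⟩ := exists_tau (G := G)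
    have hcG : 2 ≤ Fintype.card G := by
      rw [hcard]
      calc 2 ≤ n (Fin.last r) := hn.1 _
        _ ≤ ∏ i, n i := Nat.le_of_dvd (Finset.prod_pos fun i _ => hn.one_le i)
            (Finset.dvd_prod_of_mem n (Finset.mem_univ _))
    have hkpos : 0 < k := by
      rw [hk]
      exact Nat.log_pos (by norm_num) hcG
    have hAne : A.Nonempty := by
      rw [← Finset.card_pos]
      omega
    have hb := odd_bound hodd hA hAne
    rw [hAc, heq] at hb
    have hexp := exponent_le (fun i => hn.2 i _ (Fin.le_last i)) hn.one_le e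
    have hexp0 : 0 < AddMonoid.exponent G :=
      Nat.pos_of_ne_zero AddMonoid.exponent_ne_zero_of_finite
    have h6 : ∏ i : Fin r, n i.castSucc ≤ Fintype.card G / AddMonoid.exponent G := by
      rw [Nat.le_div_iff_mul_le hexp0, hcard, Fin.prod_univ_castSucc]
      exact Nat.mul_le_mul_left _ hexp
    omega
  omega

lemma eventually_log (M r : ℕ) : ∃ n₀ : ℕ, ∀ N : ℕ, n₀ ≤ N → (M * Nat.log 2 N) ^ (r + 1) ≤ N := by
  have h := (Real.isLittleO_pow_log_id_atTop (n := r + 1)).def
    (c := (Real.log 2 / (M + 1)) ^ (r + 1)) (by positivity)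
  have h' := tendsto_natCast_atTop_atTop (R := ℝ) |>.eventually h
  obtain ⟨n₀, hn₀⟩ := Filter.eventually_atTop.mp h'
  refine ⟨max n₀ 1, fun N hN => ?_⟩
  have h1 := hn₀ N (le_trans (le_max_left _ _) hN)
  have hN1 : 1 ≤ N := le_trans (le_max_right _ _) hN
  have hNr : (1 : ℝ) ≤ N := by exact_mod_cast hN1
  have hlog0 : 0 ≤ Real.log N := Real.log_nonneg hNr
  have hl2 : 0 < Real.log 2 := Real.log_pos (by norm_num)
  rw [Real.norm_of_nonneg (by positivity), id, Real.norm_of_nonneg (by positivity)] at h1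
  have h2 : (Nat.log 2 N : ℝ) ≤ Real.log N / Real.log 2 := by
    have := Real.natLog_le_logb N 2
    simpa [Real.logb] using this
  have h3 : (((M * Nat.log 2 N) ^ (r + 1) : ℕ) : ℝ) ≤ N := by
    push_cast
    calc ((M : ℝ) * (Nat.log 2 N : ℝ)) ^ (r + 1)
        ≤ (((M : ℝ) + 1) * (Real.log N / Real.log 2)) ^ (r + 1) := by
          gcongr
          linarith
      _ = (((M : ℝ) + 1) / Real.log 2) ^ (r + 1) * Real.log N ^ (r + 1) := by
          rw [← mul_pow]
          congr 1
          ring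
      _ ≤ (((M : ℝ) + 1) / Real.log 2) ^ (r + 1) *
            ((Real.log 2 / (M + 1)) ^ (r + 1) * N) :=
          mul_le_mul_of_nonneg_left h1 (by positivity)
      _ = N := by
          rw [← mul_assoc, ← mul_pow]
          have : ((M : ℝ) + 1) / Real.log 2 * (Real.log 2 / (M + 1)) = 1 := by
            field_simp
          rw [this, one_pow, one_mul]
  exact_mod_cast h3

theorem result :
    (∀ (r : ℕ) (n : Fin (r + 1) → ℕ), IsType n → ∀ L : ℕ, 1 ≤ L →
      (1 + 1 / (L : ℝ)) ^ (2 * r) ≤ 2 →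
      ∀ (G : Type) [AddCommGroup G] [Fintype G], (G ≃+ ∀ i, ZMod (n i)) →
      2 * (2 * L) ^ (r + 1) * Nat.log 2 (Fintype.card G) ≤ n (Fin.last r) →
      (tau G = Nat.log 2 (Fintype.card G) ∨ tau G + 1 = Nat.log 2 (Fintype.card G)) ∧
      ((1 + 1 / (L : ℝ)) ^ (2 * r) * 2 ^ Nat.log 2 (Fintype.card G) ≤ Fintype.card G →
        tau G = Nat.log 2 (Fintype.card G)) ∧
      (Odd (Fintype.card G) → Fintype.card G < 2 ^ Nat.log 2 (Fintype.card G) +
          ∏ i : Fin r, n i.castSucc → tau G + 1 = Nat.log 2 (Fintype.card G))) ∧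
    (∀ (r : ℕ) (ε : ℝ), 0 < ε → ∃ n₀ : ℕ, ∀ n : Fin (r + 1) → ℕ, IsType n →
      ∀ (G : Type) [AddCommGroup G] [Fintype G], (G ≃+ ∀ i, ZMod (n i)) →
      n₀ ≤ Fintype.card G →
      (tau G = Nat.log 2 (Fintype.card G) ∨ tau G + 1 = Nat.log 2 (Fintype.card G)) ∧
      ((1 + ε) * 2 ^ Nat.log 2 (Fintype.card G) ≤ Fintype.card G →
        tau G = Nat.log 2 (Fintype.card G)) ∧
      (Odd (Fintype.card G) → Fintype.card G < 2 ^ Nat.log 2 (Fintype.card G) +
          ∏ i : Fin r, n i.castSucc → tau G + 1 = Nat.log 2 (Fintype.card G))) := by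
  refine ⟨fun r n hn L hL hL2 G _ _ e h3 => explicit r n hn L hL hL2 G e h3, ?_⟩
  intro r ε hε
  -- choose `L`
  have hε' : (1 : ℝ) < 1 + min ε 1 := by
    have : 0 < min ε 1 := lt_min hε one_pos
    linarith
  have hlim : Filter.Tendsto (fun L : ℕ => (1 + 1 / (L : ℝ)) ^ (2 * r)) Filter.atTop (nhds 1) := by
    have h1 : Filter.Tendsto (fun L : ℕ => (1 : ℝ) / (L : ℝ)) Filter.atTop (nhds 0) :=
      tendsto_one_div_atTop_nhds_zero_nat
    have h2 := (h1.const_add 1).pow (2 * r)
    simpa using h2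
  obtain ⟨L, hL⟩ := ((hlim.eventually_lt_const hε').and (Filter.eventually_ge_atTop 1)).exists
  have hLle : (1 + 1 / (L : ℝ)) ^ (2 * r) ≤ 1 + ε :=
    hL.1.le.trans (by linarith [min_le_left ε 1])
  have hL2 : (1 + 1 / (L : ℝ)) ^ (2 * r) ≤ 2 :=
    hL.1.le.trans (by linarith [min_le_right ε 1])
  obtain ⟨n₀, hn₀⟩ := eventually_log (2 * (2 * L) ^ (r + 1)) r
  refine ⟨n₀, fun n hn G _ _ e hG => ?_⟩
  have hne : ∀ i, NeZero (n i) := fun i => ⟨by have := hn.one_le i; omega⟩
  have hcard : Fintype.card G = ∏ i, n i := by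
    rw [Fintype.card_congr e.toEquiv, Fintype.card_pi]
    exact Finset.prod_congr rfl fun i _ => ZMod.card (n i)
  have hle : Fintype.card G ≤ n (Fin.last r) ^ (r + 1) := by
    rw [hcard]
    calc ∏ i, n i ≤ ∏ _i : Fin (r + 1), n (Fin.last r) :=
          Finset.prod_le_prod' fun i _ => Nat.le_of_dvd (hn.one_le _) (hn.2 i _ (Fin.le_last i))
      _ = n (Fin.last r) ^ (r + 1) := by simp
  have h3 : 2 * (2 * L) ^ (r + 1) * Nat.log 2 (Fintype.card G) ≤ n (Fin.last r) := by
    have := (hn₀ _ hG).trans hle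
    exact (Nat.pow_le_pow_iff_left (by omega)).mp this
  obtain ⟨p1, p2, p3⟩ := explicit r n hn L hL.2 hL2 G e h3
  refine ⟨p1, fun h => p2 (le_trans ?_ h), p3⟩
  exact mul_le_mul_of_nonneg_right hLle (by positivity)

end Pool.Agent.Results.MP_3a3582_co.BoundedRank
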