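import Pool.Agent.Helper934.BRank

open Finset
open Pool.Agent.Results.MP_3a3582_co.BoundedRank

namespace Pool.Agent.Results.MP_3a3582_co.Thin

lemma fiber_card {G Q : Type} [AddCommGroup G] [Fintype G] [AddCommGroup Q] [Fintype Q]
    [DecidableEq Q] (ψ : G →+ Q) (hψ : Function.Surjective ψ) (j : Q) :
    Fintype.card Q * (Finset.univ.filter fun g => ψ g = j).card = Fintype.card G := by
  classical
  have h1 : Fintype.card G = ∑ i : Q, (Finset.univ.filter fun g : G => ψ g = i).card := by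
    rw [← Finset.card_univ]
    exact Finset.card_eq_sum_card_fiberwise (fun _ _ => Finset.mem_coe.mpr (Finset.mem_univ _))
  have h2 : ∀ i : Q, (Finset.univ.filter fun g : G => ψ g = i).card =
      (Finset.univ.filter fun g : G => ψ g = j).card := by
    intro i
    obtain ⟨a, ha⟩ := hψ i
    obtain ⟨b, hb⟩ := hψ j
    refine Finset.card_bij (fun g _ => g - a + b) ?_ ?_ ?_
    · intro g hg
      rw [Finset.mem_filter] at hg ⊢
      refine ⟨Finset.mem_univ _, ?_⟩
      rw [map_add, map_sub, hg.2, ha, hb]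
      abel
    · intro g _ g' _ h
      simpa using h
    · intro g hg
      rw [Finset.mem_filter] at hg
      refine ⟨g - b + a, ?_, by abel⟩
      rw [Finset.mem_filter]
      refine ⟨Finset.mem_univ _, ?_⟩
      rw [map_add, map_sub, hg.2, ha, hb]
      abel
  rw [h1, Finset.sum_congr rfl fun i _ => h2 i, Finset.sum_const, Finset.card_univ, smul_eq_mul]

lemma fiber_bound {G Q : Type} [AddCommGroup G] [Fintype G] [AddCommGroup Q] [Fintype Q]
    [DecidableEq Q] (ψ : G →+ Q) (hψ : Function.Surjective ψ) {A : Finset G}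
    (hA : Dissociated A) (j : Q) :
    Fintype.card Q * (((A.filter fun a => ψ a ≠ 0).powerset.filter fun S => ψ (∑ x ∈ S, x) = j).card *
      2 ^ (A.filter fun a => ψ a = 0).card) ≤ Fintype.card G := by
  classical
  rw [← fiber_card ψ hψ j]
  refine Nat.mul_le_mul_left _ ?_
  rw [← Finset.card_powerset, ← Finset.card_product]
  refine Finset.card_le_card_of_injOn (fun p => ∑ x ∈ p.1, x + ∑ x ∈ p.2, x) ?_ ?_
  · rintro ⟨S, T⟩ hp
    rw [Finset.mem_coe, Finset.mem_product, Finset.mem_filter, Finset.mem_powerset,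
      Finset.mem_powerset] at hp
    obtain ⟨⟨hS, hSj⟩, hT⟩ := hp
    rw [Finset.mem_coe, Finset.mem_filter]
    refine ⟨Finset.mem_univ _, ?_⟩
    simp only
    rw [map_add, hSj, map_sum, Finset.sum_eq_zero, add_zero]
    intro x hx
    exact (Finset.mem_filter.mp (hT hx)).2
  · rintro ⟨S, T⟩ hp ⟨S', T'⟩ hp' h
    rw [Finset.mem_coe, Finset.mem_product, Finset.mem_filter, Finset.mem_powerset,
      Finset.mem_powerset] at hp hp'
    obtain ⟨⟨hS, -⟩, hT⟩ := hp
    obtain ⟨⟨hS', -⟩, hT'⟩ := hp'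
    simp only at hS hT hS' hT' h
    have hd : ∀ {U V : Finset G}, U ⊆ A.filter (fun a => ψ a ≠ 0) →
        V ⊆ A.filter (fun a => ψ a = 0) → Disjoint U V := by
      intro U V hU hV
      rw [Finset.disjoint_left]
      intro x hx hx'
      exact (Finset.mem_filter.mp (hU hx)).2 (Finset.mem_filter.mp (hV hx')).2
    rw [← Finset.sum_union (hd hS hT), ← Finset.sum_union (hd hS' hT')] at h
    have hU := hA.inj (Finset.union_subset (hS.trans (Finset.filter_subset _ _))
      (hT.trans (Finset.filter_subset _ _))) (Finset.union_subset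
      (hS'.trans (Finset.filter_subset _ _)) (hT'.trans (Finset.filter_subset _ _))) h
    have e1 : ∀ {U V : Finset G}, U ⊆ A.filter (fun a => ψ a ≠ 0) →
        V ⊆ A.filter (fun a => ψ a = 0) → (U ∪ V).filter (fun a => ψ a ≠ 0) = U := by
      intro U V hU hV
      ext x
      rw [Finset.mem_filter, Finset.mem_union]
      constructor
      · rintro ⟨h | h, hx⟩
        · exact h
        · exact absurd (Finset.mem_filter.mp (hV h)).2 hx
      · intro h
        exact ⟨Or.inl h, (Finset.mem_filter.mp (hU h)).2⟩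
    have e2 : ∀ {U V : Finset G}, U ⊆ A.filter (fun a => ψ a ≠ 0) →
        V ⊆ A.filter (fun a => ψ a = 0) → (U ∪ V).filter (fun a => ψ a = 0) = V := by
      intro U V hU hV
      ext x
      rw [Finset.mem_filter, Finset.mem_union]
      constructor
      · rintro ⟨h | h, hx⟩
        · exact absurd hx (Finset.mem_filter.mp (hU h)).2
        · exact h
      · intro h
        exact ⟨Or.inr h, (Finset.mem_filter.mp (hV h)).2⟩
    rw [Prod.mk.injEq]
    constructor
    · rw [← e1 hS hT, ← e1 hS' hT', hU]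
    · rw [← e2 hS hT, ← e2 hS' hT', hU]

/-- If `G` maps onto a group of odd order `> 1`, the number of missed elements is at least the
number of subset sums of the part of `A` in the kernel. -/
lemma odd_quotient {G Q : Type} [AddCommGroup G] [Fintype G] [AddCommGroup Q] [Fintype Q]
    [DecidableEq Q] (hodd : Odd (Fintype.card Q)) (hone : 1 < Fintype.card Q)
    (ψ : G →+ Q) (hψ : Function.Surjective ψ) {A : Finset G} (hA : Dissociated A) :
    2 ^ A.card + 2 ^ (A.filter fun a => ψ a = 0).card ≤ Fintype.card G := by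
  classical
  set m := (A.filter fun a => ψ a = 0).card with hm
  set A₁ := A.filter fun a => ψ a ≠ 0 with hA₁
  set q := Fintype.card Q with hq
  have hcard : A.card = A₁.card + m := by
    rw [hA₁, hm, add_comm]
    exact (Finset.card_filter_add_card_filter_not (s := A) (fun a => ψ a = 0)).symm
  -- the largest fibre
  obtain ⟨h, hh⟩ : q ∣ Fintype.card G := ⟨_, (fiber_card ψ hψ 0).symm⟩
  have hq0 : 0 < q := by omega
  have hM : ∀ j : Q, (A₁.powerset.filter fun S => ψ (∑ x ∈ S, x) = j).card ≤ h / 2 ^ m := by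
    intro j
    have := fiber_bound ψ hψ hA j
    rw [hh] at this
    have := Nat.le_of_mul_le_mul_left this hq0
    exact (Nat.le_div_iff_mul_le (by positivity)).mpr this
  have hsum : 2 ^ A₁.card = ∑ j : Q, (A₁.powerset.filter fun S => ψ (∑ x ∈ S, x) = j).card := by
    rw [← Finset.card_powerset]
    exact Finset.card_eq_sum_card_fiberwise (fun _ _ => Finset.mem_coe.mpr (Finset.mem_univ _))
  have hle : 2 ^ A₁.card ≤ q * (h / 2 ^ m) := by
    rw [hsum]
    calc ∑ j : Q, (A₁.powerset.filter fun S => ψ (∑ x ∈ S, x) = j).card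
        ≤ ∑ _j : Q, h / 2 ^ m := Finset.sum_le_sum fun j _ => hM j
      _ = q * (h / 2 ^ m) := by rw [Finset.sum_const, Finset.card_univ, smul_eq_mul]
  have hne : 2 ^ A₁.card ≠ q * (h / 2 ^ m) := by
    intro heq
    have hdvd : q ∣ 2 ^ A₁.card := ⟨_, heq⟩
    obtain ⟨i, -, hi⟩ := (Nat.dvd_prime_pow Nat.prime_two).mp hdvd
    rcases Nat.eq_zero_or_pos i with h0 | h0
    · rw [h0, pow_zero] at hi
      omega
    · rw [hi] at hodd
      have : Even (2 ^ i) := (Nat.even_pow.mpr ⟨even_two, h0.ne'⟩)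
      exact (Nat.not_even_iff_odd.mpr hodd) this
  have hlt : 2 ^ A₁.card + 1 ≤ q * (h / 2 ^ m) := by omega
  calc 2 ^ A.card + 2 ^ m = (2 ^ A₁.card + 1) * 2 ^ m := by rw [hcard, pow_add]; ring
    _ ≤ (q * (h / 2 ^ m)) * 2 ^ m := Nat.mul_le_mul_right _ hlt
    _ = q * (h / 2 ^ m * 2 ^ m) := by ring
    _ ≤ q * h := Nat.mul_le_mul_left _ (Nat.div_mul_le_self _ _)
    _ = Fintype.card G := hh.symm

/-- The functional `v ↦ y · v`. -/
def dot {p R : ℕ} (y : Fin R → ZMod p) : (Fin R → ZMod p) →+ ZMod p where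
  toFun v := ∑ i, y i * v i
  map_zero' := by simp
  map_add' u v := by
    rw [← Finset.sum_add_distrib]
    exact Finset.sum_congr rfl fun i _ => mul_add _ _ _

lemma dot_surj {p R : ℕ} [Fact p.Prime] {y : Fin R → ZMod p} (hy : y ≠ 0) :
    Function.Surjective (dot y) := by
  classical
  obtain ⟨i, hi⟩ := Function.ne_iff.mp hy
  intro z
  refine ⟨Pi.single i ((y i)⁻¹ * z), ?_⟩
  show ∑ j, y j * (Pi.single i ((y i)⁻¹ * z) : Fin R → ZMod p) j = z
  rw [Finset.sum_eq_single i]
  · rw [Pi.single_eq_same, ← mul_assoc, mul_inv_cancel₀ hi, one_mul]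
  · intro j _ hj
    rw [Pi.single_eq_of_ne hj, mul_zero]
  · intro h
    exact absurd (Finset.mem_univ _) h

lemma dot_kernel {p R : ℕ} [Fact p.Prime] (v : Fin (R + 1) → ZMod p) :
    p ^ R ≤ (Finset.univ.filter fun y : Fin (R + 1) → ZMod p => dot y v = 0).card := by
  classical
  by_cases hv : v = 0
  · have : (Finset.univ.filter fun y : Fin (R + 1) → ZMod p => dot y v = 0) = Finset.univ := by
      rw [Finset.filter_true_of_mem]
      intro y _
      rw [hv, map_zero]
    rw [this, Finset.card_univ, Fintype.card_fun, ZMod.card, Fintype.card_fin]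
    exact Nat.pow_le_pow_right (Fact.out (p := p.Prime)).pos (Nat.le_succ _)
  · have h := fiber_card (dot v) (dot_surj hv) 0
    rw [Fintype.card_fun, ZMod.card, Fintype.card_fin, pow_succ'] at h
    have h2 := Nat.eq_of_mul_eq_mul_left (Fact.out (p := p.Prime)).pos h
    rw [← h2]
    refine Finset.card_le_card fun y hy => ?_
    rw [Finset.mem_filter] at hy ⊢
    refine ⟨Finset.mem_univ _, ?_⟩
    have hcomm : dot y v = dot v y := by
      show ∑ i, y i * v i = ∑ i, v i * y i
      exact Finset.sum_congr rfl fun i _ => mul_comm (y i) (v i)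
    rw [hcomm]
    exact hy.2

lemma exists_functional {G : Type} [AddCommGroup G] [Fintype G] {p R : ℕ} [Fact p.Prime]
    (φ : G →+ (Fin (R + 1) → ZMod p)) (A : Finset G) :
    ∃ y : Fin (R + 1) → ZMod p, y ≠ 0 ∧
      A.card * (p ^ R - 1) ≤ (p ^ (R + 1) - 1) * (A.filter fun a => dot y (φ a) = 0).card := by
  classical
  set Y : Finset (Fin (R + 1) → ZMod p) := Finset.univ.erase 0 with hY
  have hYc : Y.card = p ^ (R + 1) - 1 := by
    rw [hY, Finset.card_erase_of_mem (Finset.mem_univ _), Finset.card_univ, Fintype.card_fun,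
      ZMod.card, Fintype.card_fin]
  have hsum : A.card * (p ^ R - 1) ≤ ∑ y ∈ Y, (A.filter fun a => dot y (φ a) = 0).card := by
    have h1 : ∑ y ∈ Y, (A.filter fun a => dot y (φ a) = 0).card =
        ∑ a ∈ A, (Y.filter fun y => dot y (φ a) = 0).card := by
      simp_rw [Finset.card_filter]
      exact Finset.sum_comm
    rw [h1]
    calc A.card * (p ^ R - 1) = ∑ _a ∈ A, (p ^ R - 1) := by
          rw [Finset.sum_const, smul_eq_mul]
      _ ≤ _ := Finset.sum_le_sum fun a _ => ?_
    have h2 := dot_kernel (φ a)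
    have h3 : (Y.filter fun y => dot y (φ a) = 0) =
        (Finset.univ.filter fun y : Fin (R + 1) → ZMod p => dot y (φ a) = 0).erase 0 := by
      rw [hY, Finset.filter_erase]
    have h0 : (0 : Fin (R + 1) → ZMod p) ∈
        (Finset.univ.filter fun y : Fin (R + 1) → ZMod p => dot y (φ a) = 0) := by
      rw [Finset.mem_filter]
      refine ⟨Finset.mem_univ _, ?_⟩
      show ∑ i, (0 : Fin (R + 1) → ZMod p) i * φ a i = 0
      simp
    rw [h3, Finset.card_erase_of_mem h0]
    omega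
  by_contra hcon
  push Not at hcon
  have hYne : Y.Nonempty := by
    rw [← Finset.card_pos, hYc]
    have : 1 < p ^ (R + 1) := Nat.one_lt_pow (Nat.succ_ne_zero _) (Fact.out (p := p.Prime)).one_lt
    omega
  have h4 : ∑ y ∈ Y, (p ^ (R + 1) - 1) * (A.filter fun a => dot y (φ a) = 0).card <
      ∑ _y ∈ Y, A.card * (p ^ R - 1) :=
    Finset.sum_lt_sum_of_nonempty hYne fun y hy => hcon y (Finset.ne_of_mem_erase hy)
  rw [← Finset.mul_sum, Finset.sum_const, smul_eq_mul, hYc] at h4
  have := Nat.mul_le_mul_left (p ^ (R + 1) - 1) hsum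
  omega

theorem thin {G : Type} [AddCommGroup G] [Fintype G] {p R : ℕ} (hp : p.Prime) (hp2 : p ≠ 2)
    (φ : G →+ (Fin (R + 1) → ZMod p)) (hφ : Function.Surjective φ) {A : Finset G}
    (hA : Dissociated A) : ∃ m : ℕ, A.card * (p ^ R - 1) ≤ (p ^ (R + 1) - 1) * m ∧
      2 ^ A.card + 2 ^ m ≤ Fintype.card G := by
  have : Fact p.Prime := ⟨hp⟩
  obtain ⟨y, hy, hle⟩ := exists_functional φ A
  refine ⟨_, hle, ?_⟩
  refine odd_quotient (Q := ZMod p) ?_ ?_ ((dot y).comp φ) ((dot_surj hy).comp hφ) hA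
  · rw [ZMod.card]
    exact hp.odd_of_ne_two hp2
  · rw [ZMod.card]
    exact hp.one_lt

/-- The upper bound in terms of the `p`-rank. -/
theorem thin_real {G : Type} [AddCommGroup G] [Fintype G] {p R : ℕ} (hp : p.Prime) (hp2 : p ≠ 2)
    (φ : G →+ (Fin (R + 1) → ZMod p)) (hφ : Function.Surjective φ) :
    (2 : ℝ) ^ (tau G) + (2 : ℝ) ^ ((tau G : ℝ) * (((p : ℝ) ^ R - 1) / ((p : ℝ) ^ (R + 1) - 1))) ≤
      Fintype.card G := by
  obtain ⟨A, hA, hAc⟩ := exists_tau (G := G)
  obtain ⟨m, hm, hle⟩ := thin hp hp2 φ hφ hA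
  rw [hAc] at hm hle
  have hp1 : (1 : ℝ) < p := by exact_mod_cast hp.one_lt
  have hpR : (1 : ℝ) < (p : ℝ) ^ (R + 1) := one_lt_pow₀ hp1 (Nat.succ_ne_zero _)
  have h1 : (tau G : ℝ) * ((p : ℝ) ^ R - 1) ≤ ((p : ℝ) ^ (R + 1) - 1) * m := by
    have e1 : ((p ^ R - 1 : ℕ) : ℝ) = (p : ℝ) ^ R - 1 := by
      rw [Nat.cast_sub (Nat.one_le_pow _ _ hp.pos)]
      push_cast
      ring
    have e2 : ((p ^ (R + 1) - 1 : ℕ) : ℝ) = (p : ℝ) ^ (R + 1) - 1 := by
      rw [Nat.cast_sub (Nat.one_le_pow _ _ hp.pos)]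
      push_cast
      ring
    rw [← e1, ← e2]
    exact_mod_cast hm
  have h2 : (tau G : ℝ) * (((p : ℝ) ^ R - 1) / ((p : ℝ) ^ (R + 1) - 1)) ≤ m := by
    rw [mul_div_assoc', div_le_iff₀ (by linarith)]
    linarith
  have h3 : (2 : ℝ) ^ ((tau G : ℝ) * (((p : ℝ) ^ R - 1) / ((p : ℝ) ^ (R + 1) - 1))) ≤
      (2 : ℝ) ^ m :=
    (Real.rpow_le_rpow_of_exponent_le (by norm_num : (1 : ℝ) ≤ 2) h2).trans_eq
      (Real.rpow_natCast 2 m)
  have h4 : (2 : ℝ) ^ (tau G) + (2 : ℝ) ^ m ≤ Fintype.card G := by exact_mod_cast hle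
  linarith

end Pool.Agent.Results.MP_3a3582_co.Thin
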