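import Pool.Agent.Helper934.AA5
import Pool.Agent.Helper934.UB1

open Finset
open Pool.Agent.Results.MP_3a3582_co.BoundedRank

namespace Pool.Agent.Results.MP_3a3582_co.AlmostAll

/-- If `p` divides the `(j + 1)`-st largest entry, the group maps onto `ℤ_p^{j+1}`. -/
lemma exists_surj (L : List ℕ) (hL : IsTypeList L) (p : ℕ) (hp : p.Prime) (j : ℕ)
    (hj : j < L.length) (hdvd : p ∣ L.get ⟨j, hj⟩) :
    ∃ φ : Grp L →+ (Fin (j + 1) → ZMod p), Function.Surjective φ := by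
  have : Fact p.Prime := ⟨hp⟩
  have hall : ∀ i : Fin (j + 1), p ∣ L.get (Fin.castLE hj i) := by
    intro i
    rcases Nat.lt_or_ge i.val j with h | h
    · have h1 : L.get ⟨j, hj⟩ ∣ L.get (Fin.castLE hj i) :=
        List.pairwise_iff_get.mp hL.2 (Fin.castLE hj i) ⟨j, hj⟩ h
      exact hdvd.trans h1
    · have h1 : i.val = j := by omega
      have h2 : Fin.castLE hj i = ⟨j, hj⟩ := Fin.ext h1
      rw [h2]
      exact hdvd
  refine ⟨{ toFun := fun f i => ZMod.castHom (hall i) (ZMod p) (f (Fin.castLE hj i))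
            map_zero' := by
              funext i
              exact map_zero _
            map_add' := fun f g => by
              funext i
              exact map_add _ _ _ }, ?_⟩
  intro y
  refine ⟨fun i => if h : i.val < j + 1 then (((y ⟨i.val, h⟩).val : ℕ) : ZMod (L.get i)) else 0, ?_⟩
  funext i
  show ZMod.castHom (hall i) (ZMod p)
    (if h : (Fin.castLE hj i).val < j + 1 then
      (((y ⟨(Fin.castLE hj i).val, h⟩).val : ℕ) : ZMod (L.get (Fin.castLE hj i))) else 0) = y i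
  have h1 : (Fin.castLE hj i).val < j + 1 := i.2
  rw [dif_pos h1, map_natCast]
  exact ZMod.natCast_zmod_val _

/-- The values for bounded rank. -/
theorem dichotomy (R : ℕ) (hR : 1 ≤ R) (δ : ℝ) (hδ : 0 < δ) : ∃ n₀ : ℕ, ∀ L : List ℕ,
    IsTypeList L → L.length ≤ R → n₀ ≤ L.prod →
    (tau (Grp L) = Nat.log 2 L.prod ∨ tau (Grp L) + 1 = Nat.log 2 L.prod) ∧
    (2 ^ Nat.log 2 L.prod + (L.prod : ℝ) ^ (1 - 1 / (R : ℝ) ^ 2 + δ) ≤ (L.prod : ℝ) →
      tau (Grp L) = Nat.log 2 L.prod) ∧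
    (∀ (p j : ℕ) (hj : j < L.length), p.Prime → p ≠ 2 → p ∣ L.get ⟨j, hj⟩ →
      (L.prod : ℝ) < 2 ^ Nat.log 2 L.prod +
        (2 : ℝ) ^ ((Nat.log 2 L.prod : ℝ) * (((p : ℝ) ^ j - 1) / ((p : ℝ) ^ (j + 1) - 1))) →
      tau (Grp L) + 1 = Nat.log 2 L.prod) := by
  obtain ⟨n₀, hn₀⟩ := fixed_rank_power R hR δ hδ
  refine ⟨n₀, fun L hL hlen hN => ?_⟩
  obtain ⟨h1, h2⟩ := hn₀ L hL hlen hN
  refine ⟨h1, h2, ?_⟩
  intro p j hj hp hp2 hdvd hlt
  rcases h1 with h1 | h1
  · exfalso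
    have hne : ∀ i : Fin L.length, NeZero (L.get i) := fun i =>
      ⟨by have := hL.1 _ (List.get_mem L i); omega⟩
    have hcard : Fintype.card (Grp L) = L.prod := by
      rw [Fintype.card_pi, ← prod_get]
      exact Finset.prod_congr rfl fun i _ => ZMod.card _
    obtain ⟨φ, hφ⟩ := exists_surj L hL p hp j hj hdvd
    have h3 := Thin.thin_real hp hp2 φ hφ
    rw [h1, hcard] at h3
    linarith
  · exact h1

end Pool.Agent.Results.MP_3a3582_co.AlmostAll
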