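import Pool.Agent.Helper934.BRank

open Finset
open Pool.Agent.Results.MP_3a3582_co.BoundedRank

namespace Pool.Agent.Results.MP_3a3582_co.LargeFactors

lemma pack_extend {K : Type} [AddCommGroup K] {ι : Type} {W : ℕ} (h : Pack K ι W) (f : ℕ) :
    Pack K (ι ⊕ Fin f) (2 ^ f * W) := by
  classical
  obtain ⟨v, w, hvw⟩ := h
  refine ⟨Sum.elim v (fun _ => 0), Sum.elim w (fun j => 2 ^ (j : ℕ) * (W : ℤ)),
    fun S S' hSS => ?_⟩
  rw [← Finset.toLeft_disjSum_toRight (u := S), ← Finset.toLeft_disjSum_toRight (u := S')] at hSS ⊢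
  set A := S.toLeft
  set R := S.toRight
  set A' := S'.toLeft
  set R' := S'.toRight
  simp only [Finset.sum_disjSum, Sum.elim_inl, Sum.elim_inr, Finset.sum_const_zero, add_zero]
    at hSS ⊢
  obtain ⟨h3, h4⟩ := hvw A A' hSS
  rw [← Finset.sum_mul, ← Finset.sum_mul]
  set N := ∑ j ∈ R, (2 : ℤ) ^ (j : ℕ) with hN
  set N' := ∑ j ∈ R', (2 : ℤ) ^ (j : ℕ) with hN'
  set y := ∑ i ∈ A, w i with hy
  set y' := ∑ i ∈ A', w i with hy'
  have b1 := sum_two_pow_bounds R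
  have b2 := sum_two_pow_bounds R'
  rw [← hN] at b1
  rw [← hN'] at b2
  rw [abs_lt] at h3
  have hW0 : (0 : ℤ) ≤ W := Int.natCast_nonneg _
  constructor
  · rw [abs_lt]
    push_cast
    have m1 : (N - N') * W ≤ (2 ^ f - 1) * W := mul_le_mul_of_nonneg_right (by linarith) hW0
    have m2 : -(2 ^ f - 1) * (W : ℤ) ≤ (N - N') * W :=
      mul_le_mul_of_nonneg_right (by linarith) hW0
    constructor <;> linarith
  · intro h
    have hNN : N = N' := by
      by_contra hne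
      rcases lt_or_gt_of_ne hne with hlt | hgt
      · have : (N - N') * (W : ℤ) ≤ (-1) * W := mul_le_mul_of_nonneg_right (by linarith) hW0
        linarith
      · have : 1 * (W : ℤ) ≤ (N - N') * W := mul_le_mul_of_nonneg_right (by linarith) hW0
        linarith
    have hyy : y = y' := by
      rw [hNN] at h
      linarith
    rw [h4 hyy, sum_two_pow_inj hNN]

/-- Rounding: for digits `2^j`, the sums of `⌊2^j T / a⌋` follow `T / a` times the sums of `2^j`
up to the number of digits. -/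
lemma rem_bounds {s : ℕ} (T : ℤ) (a : ℕ) (ha : 1 ≤ a) (Q : Finset (Fin s)) :
    (0 ≤ T * ∑ j ∈ Q, (2 : ℤ) ^ (j : ℕ) - a * ∑ j ∈ Q, (2 : ℤ) ^ (j : ℕ) * T / a) ∧
    (T * ∑ j ∈ Q, (2 : ℤ) ^ (j : ℕ) - a * ∑ j ∈ Q, (2 : ℤ) ^ (j : ℕ) * T / a) ≤ a * s := by
  have ha' : (0 : ℤ) < a := by exact_mod_cast ha
  have e1 : T * ∑ j ∈ Q, (2 : ℤ) ^ (j : ℕ) - a * ∑ j ∈ Q, (2 : ℤ) ^ (j : ℕ) * T / a =
      ∑ j ∈ Q, ((2 : ℤ) ^ (j : ℕ) * T) % a := by
    rw [Finset.mul_sum, Finset.mul_sum, ← Finset.sum_sub_distrib]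
    refine Finset.sum_congr rfl fun j _ => ?_
    have := Int.emod_add_mul_ediv ((2 : ℤ) ^ (j : ℕ) * T) a
    linarith
  rw [e1]
  constructor
  · exact Finset.sum_nonneg fun j _ => Int.emod_nonneg _ ha'.ne'
  · calc ∑ j ∈ Q, ((2 : ℤ) ^ (j : ℕ) * T) % a ≤ ∑ j ∈ Q, (a : ℤ) :=
          Finset.sum_le_sum fun j _ => (Int.emod_lt_of_pos _ ha').le
      _ = Q.card * a := by simp
      _ ≤ s * a := by
          have : Q.card ≤ s := by simpa using Finset.card_le_univ Q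
          have : (Q.card : ℤ) ≤ s := by exact_mod_cast this
          exact mul_le_mul_of_nonneg_right this ha'.le
      _ = a * s := mul_comm _ _

lemma pack_chain {K : Type} [AddCommGroup K] {ι : Type} {W : ℕ} (h : Pack K ι W)
    (c Q m s : ℕ) (hQ : 1 ≤ Q) (hc : Q * (W + s) ≤ c) :
    Pack (K × ZMod c) (ι ⊕ (Fin m ⊕ Fin s)) (((2 ^ s - 1) / Q + 1) * (2 ^ m + s)) := by
  classical
  obtain ⟨v, w, hvw⟩ := h
  set T : ℤ := (2 : ℤ) ^ m + s with hT
  have hQ' : (0 : ℤ) < Q := by exact_mod_cast hQ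
  refine ⟨Sum.elim (fun i => (v i, ((w i : ℤ) : ZMod c)))
      (Sum.elim (fun _ => (0, 0)) (fun j => (0, (((2 : ℤ) ^ (j : ℕ) * (c : ℤ) / Q : ℤ) : ZMod c)))),
    Sum.elim (fun _ => 0) (Sum.elim (fun i => 2 ^ (i : ℕ)) (fun j => 2 ^ (j : ℕ) * T / Q)),
    fun S S' hSS => ?_⟩
  rw [← Finset.toLeft_disjSum_toRight (u := S), ← Finset.toLeft_disjSum_toRight (u := S'),
    ← Finset.toLeft_disjSum_toRight (u := S.toRight),
    ← Finset.toLeft_disjSum_toRight (u := S'.toRight)] at hSS ⊢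
  set A := S.toLeft
  set B := S.toRight.toLeft
  set R := S.toRight.toRight
  set A' := S'.toLeft
  set B' := S'.toRight.toLeft
  set R' := S'.toRight.toRight
  simp only [Finset.sum_disjSum, Sum.elim_inl, Sum.elim_inr, Finset.sum_const_zero, zero_add]
    at hSS ⊢
  have h1 : ∑ i ∈ A, v i = ∑ i ∈ A', v i := by
    have := congrArg Prod.fst hSS
    simpa [Prod.fst_sum] using this
  set x := ∑ j ∈ R, (2 : ℤ) ^ (j : ℕ) * (c : ℤ) / Q with hx
  set x' := ∑ j ∈ R', (2 : ℤ) ^ (j : ℕ) * (c : ℤ) / Q with hx'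
  set y := ∑ i ∈ A, w i with hy
  set y' := ∑ i ∈ A', w i with hy'
  have h2 : ((y + x : ℤ) : ZMod c) = ((y' + x' : ℤ) : ZMod c) := by
    have := congrArg Prod.snd hSS
    rw [hy, hx, hy', hx']
    simpa [Prod.snd_sum] using this
  obtain ⟨h3, h4⟩ := hvw A A' h1
  rw [← hy, ← hy'] at h3 h4
  rw [ZMod.intCast_eq_intCast_iff_dvd_sub] at h2
  obtain ⟨z, hz⟩ := h2
  set N := ∑ j ∈ R, (2 : ℤ) ^ (j : ℕ) with hN
  set N' := ∑ j ∈ R', (2 : ℤ) ^ (j : ℕ) with hN'
  set u := ∑ j ∈ R, (2 : ℤ) ^ (j : ℕ) * T / Q with hu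
  set u' := ∑ j ∈ R', (2 : ℤ) ^ (j : ℕ) * T / Q with hu'
  set b := ∑ j ∈ B, (2 : ℤ) ^ (j : ℕ) with hb
  set b' := ∑ j ∈ B', (2 : ℤ) ^ (j : ℕ) with hb'
  have r1 := rem_bounds (c : ℤ) Q hQ R
  have r2 := rem_bounds (c : ℤ) Q hQ R'
  have q1 := rem_bounds T Q hQ R
  have q2 := rem_bounds T Q hQ R'
  rw [← hN, ← hx] at r1
  rw [← hN', ← hx'] at r2
  rw [← hN, ← hu] at q1
  rw [← hN', ← hu'] at q2
  have b1 := sum_two_pow_bounds R
  have b2 := sum_two_pow_bounds R'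
  have d1 := sum_two_pow_bounds B
  have d2 := sum_two_pow_bounds B'
  rw [← hN] at b1
  rw [← hN'] at b2
  rw [← hb] at d1
  rw [← hb'] at d2
  have hc' : (Q : ℤ) * (W + s) ≤ c := by exact_mod_cast hc
  have h3' := abs_lt.mp h3
  -- `N' - N = Q z`
  have hNz : N' - N = Q * z := by
    have e : (c : ℤ) * (N' - N - Q * z) = (c * N' - Q * x') - (c * N - Q * x) - Q * (y' - y) := by
      have : (c : ℤ) * z = y' + x' - (y + x) := hz.symm
      calc (c : ℤ) * (N' - N - Q * z) = c * N' - c * N - Q * (c * z) := by ring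
        _ = _ := by rw [this]; ring
    have hlt : |(c : ℤ) * (N' - N - Q * z)| < c := by
      rw [e, abs_lt]
      have k1 : (Q : ℤ) * (y' - y) ≤ Q * (W - 1) := mul_le_mul_of_nonneg_left (by linarith) hQ'.le
      have k2 : (Q : ℤ) * (-(W - 1)) ≤ Q * (y' - y) :=
        mul_le_mul_of_nonneg_left (by linarith) hQ'.le
      constructor
      · nlinarith
      · nlinarith
    have hz0 : N' - N - Q * z = 0 := by
      by_contra hne
      have h1' : (1 : ℤ) ≤ |N' - N - Q * z| := Int.one_le_abs hne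
      have hc0 : (0 : ℤ) ≤ c := Int.natCast_nonneg _
      rw [abs_mul, abs_of_nonneg hc0] at hlt
      have := mul_le_mul_of_nonneg_left h1' hc0
      linarith
    linarith
  -- the third coordinate
  have hd1 : T * z - s ≤ u' - u := by
    have : (Q : ℤ) * (T * z - s) ≤ Q * (u' - u) := by nlinarith [q1.1, q1.2, q2.1, q2.2, hNz]
    exact le_of_mul_le_mul_left this hQ'
  have hd2 : u' - u ≤ T * z + s := by
    have : (Q : ℤ) * (u' - u) ≤ Q * (T * z + s) := by nlinarith [q1.1, q1.2, q2.1, q2.2, hNz]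
    exact le_of_mul_le_mul_left this hQ'
  have h2s : ((2 ^ s - 1 : ℕ) : ℤ) = 2 ^ s - 1 := by
    have : 1 ≤ 2 ^ s := Nat.one_le_two_pow
    push_cast [Nat.cast_sub this]
    ring
  have hqb : |z| ≤ (((2 ^ s - 1) / Q : ℕ) : ℤ) := by
    rw [Int.natCast_div, h2s]
    apply Int.le_ediv_of_mul_le hQ'
    have e : |z| * Q = |N' - N| := by
      rw [hNz, abs_mul, abs_of_pos hQ', mul_comm]
    rw [e, abs_le]
    constructor <;> linarith [b1.1, b1.2, b2.1, b2.2]
  set F : ℤ := (((2 ^ s - 1) / Q : ℕ) : ℤ) with hF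
  have hT0 : 0 ≤ T := by rw [hT]; positivity
  have hqb' := abs_le.mp hqb
  have m1 : T * z ≤ T * F := mul_le_mul_of_nonneg_left hqb'.2 hT0
  have m2 : -(T * F) ≤ T * z := by
    have := mul_le_mul_of_nonneg_left hqb'.1 hT0
    linarith
  constructor
  · have e : ((((2 ^ s - 1) / Q + 1) * (2 ^ m + s) : ℕ) : ℤ) = T * F + T := by
      rw [hF, hT]
      push_cast
      ring
    rw [e, abs_lt]
    constructor <;> linarith [h3'.1, h3'.2]
  · intro h
    have hz0 : z = 0 := by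
      by_contra hne
      rcases lt_or_gt_of_ne hne with hlt | hgt
      · have : z ≤ -1 := by omega
        have : T * z ≤ T * (-1) := mul_le_mul_of_nonneg_left this hT0
        linarith
      · have : 1 ≤ z := by omega
        have : T * 1 ≤ T * z := mul_le_mul_of_nonneg_left this hT0
        linarith
    have hNN : N = N' := by
      rw [hz0, mul_zero] at hNz
      linarith
    have hRR : R = R' := sum_two_pow_inj hNN
    have hxx : x = x' := by rw [hx, hx', hRR]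
    have huu : u = u' := by rw [hu, hu', hRR]
    have hyy : y = y' := by
      rw [hz0, mul_zero] at hz
      linarith
    have hbb : b = b' := by linarith
    rw [h4 hyy, hRR, sum_two_pow_inj hbb]

lemma Pack.two_pow_le {K : Type} [AddCommGroup K] [Fintype K] {ι : Type} [Fintype ι] {W : ℕ}
    (h : Pack K ι W) (hW : 1 ≤ W) : 2 ^ Fintype.card ι ≤ Fintype.card K * W := by
  classical
  have : NeZero W := ⟨by omega⟩
  obtain ⟨v, w, hvw⟩ := h
  have hinj : Function.Injective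
      (fun S : Finset ι => (∑ i ∈ S, v i, ((∑ i ∈ S, w i : ℤ) : ZMod W))) := by
    intro S T hST
    obtain ⟨h1, h2⟩ := Prod.ext_iff.mp hST
    simp only at h1 h2
    obtain ⟨h3, h4⟩ := hvw S T h1
    apply h4
    rw [ZMod.intCast_eq_intCast_iff_dvd_sub] at h2
    rw [abs_sub_comm] at h3
    have := Int.eq_zero_of_abs_lt_dvd h2 h3
    omega
  have := Fintype.card_le_of_injective _ hinj
  simpa [ZMod.card] using this

lemma chain_one (L E m₀ : ℕ) (hL : 1 ≤ L) (hE : 1 ≤ E) (hm1 : L * E ≤ 2 ^ m₀)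
    (hm2 : 2 ^ m₀ ≤ 2 * (L * E)) {K : Type} [AddCommGroup K] {ι : Type} [Fintype ι] {W : ℕ}
    (hpack : Pack K ι W) (hW1 : L * E ≤ W) (d : ℕ) (hWE : L * (W + E) ≤ d)
    (hd2 : 2 * d ≤ 2 ^ E) :
    ∃ (ι' : Type) (_ : Fintype ι') (W' e : ℕ), Fintype.card ι' = Fintype.card ι + e ∧
      L * E ≤ W' ∧ W' ≤ 6 * L ^ 2 * E ∧
      (W' : ℝ) * d ≤ (1 + 1 / (L : ℝ)) ^ 4 * 2 ^ e * W ∧ Pack (K × ZMod d) ι' W' := by
  set Q := d / (W + E) with hQ
  set s := Nat.clog 2 (L * Q) with hs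
  have hWE0 : 0 < W + E := by omega
  have hQL : L ≤ Q := (Nat.le_div_iff_mul_le hWE0).mpr hWE
  have hQ1 : 1 ≤ Q := hL.trans hQL
  have hQd : Q * (W + E) ≤ d := Nat.div_mul_le_self _ _
  have hdQ : d < (Q + 1) * (W + E) := by
    have := Nat.lt_div_mul_add (a := d) hWE0
    calc d < d / (W + E) * (W + E) + (W + E) := this
      _ = (Q + 1) * (W + E) := by rw [hQ]; ring
  have hs1 : L * Q ≤ 2 ^ s := Nat.le_pow_clog (by norm_num) _
  have hs2 : 2 ^ s ≤ 2 * (L * Q) := two_pow_clog_le (Nat.mul_pos hL hQ1)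
  have hsE : s ≤ E := by
    have h1 : L * Q ≤ d := by
      calc L * Q ≤ (W + E) * Q := Nat.mul_le_mul_right _ (by
            have : L * 1 ≤ L * E := Nat.mul_le_mul_left _ hE
            omega)
        _ = Q * (W + E) := mul_comm _ _
        _ ≤ d := hQd
    have h2 : 2 ^ s ≤ 2 ^ E := by omega
    exact (Nat.pow_le_pow_iff_right (by norm_num)).mp h2
  have hQs : Q * (W + s) ≤ d := (Nat.mul_le_mul_left _ (by omega)).trans hQd
  refine ⟨ι ⊕ (Fin m₀ ⊕ Fin s), inferInstance, ((2 ^ s - 1) / Q + 1) * (2 ^ m₀ + s), m₀ + s,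
    by simp, ?_, ?_, ?_, pack_chain hpack d Q m₀ s hQ1 hQs⟩
  · calc L * E ≤ 2 ^ m₀ := hm1
      _ ≤ 1 * (2 ^ m₀ + s) := by omega
      _ ≤ _ := Nat.mul_le_mul_right _ (Nat.le_add_left 1 _)
  · have h1 : (2 ^ s - 1) / Q + 1 ≤ 2 * L := by
      have : (2 ^ s - 1) / Q < 2 * L := by
        rw [Nat.div_lt_iff_lt_mul hQ1]
        have : 0 < 2 ^ s := by positivity
        have : 2 * L * Q = 2 * (L * Q) := by ring
        omega
      omega
    calc ((2 ^ s - 1) / Q + 1) * (2 ^ m₀ + s) ≤ 2 * L * (2 * (L * E) + L * E) := by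
          refine Nat.mul_le_mul h1 (Nat.add_le_add hm2 (hsE.trans ?_))
          exact Nat.le_mul_of_pos_left _ hL
      _ = 6 * L ^ 2 * E := by ring
  · have hL0 : (0 : ℝ) < L := by exact_mod_cast hL
    set X : ℝ := (1 + 1 / (L : ℝ)) with hX
    have hX0 : 0 ≤ X := by positivity
    have e1 : ((((2 ^ s - 1) / Q + 1 : ℕ) : ℝ)) * Q ≤ 2 ^ s * X := by
      have h1 : ((2 ^ s - 1) / Q + 1) * Q ≤ 2 ^ s + Q := by
        have := Nat.div_mul_le_self (2 ^ s - 1) Q
        have : ((2 ^ s - 1) / Q + 1) * Q = (2 ^ s - 1) / Q * Q + Q := by ring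
        omega
      have h2 : ((((2 ^ s - 1) / Q + 1 : ℕ) : ℝ)) * Q ≤ 2 ^ s + Q := by exact_mod_cast h1
      have h3 : (L : ℝ) * Q ≤ 2 ^ s := by exact_mod_cast hs1
      have h4 : (Q : ℝ) ≤ 2 ^ s * (1 / (L : ℝ)) := by
        rw [mul_one_div, le_div_iff₀ hL0]
        linarith
      rw [hX]
      linarith
    have e2 : ((2 ^ m₀ + s : ℕ) : ℝ) ≤ 2 ^ m₀ * X := by
      have h3 : (L : ℝ) * s ≤ 2 ^ m₀ := by
        exact_mod_cast (Nat.mul_le_mul_left L hsE).trans hm1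
      have h4 : (s : ℝ) ≤ 2 ^ m₀ * (1 / (L : ℝ)) := by
        rw [mul_one_div, le_div_iff₀ hL0]
        linarith
      rw [hX]
      push_cast
      linarith
    have e3 : (d : ℝ) ≤ Q * (W * X) * X := by
      have g1 : (d : ℝ) ≤ ((Q : ℝ) + 1) * (W + E) := by exact_mod_cast hdQ.le
      have g2 : ((Q : ℝ) + 1) ≤ Q * X := by
        have : (L : ℝ) ≤ Q := by exact_mod_cast hQL
        have : (1 : ℝ) ≤ Q * (1 / (L : ℝ)) := by
          rw [mul_one_div, le_div_iff₀ hL0]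
          linarith
        rw [hX]
        linarith
      have g3 : ((W : ℝ) + E) ≤ W * X := by
        have : (L : ℝ) * E ≤ W := by exact_mod_cast hW1
        have : (E : ℝ) ≤ W * (1 / (L : ℝ)) := by
          rw [mul_one_div, le_div_iff₀ hL0]
          linarith
        rw [hX]
        linarith
      calc (d : ℝ) ≤ ((Q : ℝ) + 1) * (W + E) := g1
        _ ≤ (Q * X) * (W * X) := mul_le_mul g2 g3 (by positivity) (by positivity)
        _ = Q * (W * X) * X := by ring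
    calc (((((2 ^ s - 1) / Q + 1) * (2 ^ m₀ + s) : ℕ)) : ℝ) * d
        = (((2 ^ s - 1) / Q + 1 : ℕ) : ℝ) * ((2 ^ m₀ + s : ℕ) : ℝ) * d := by
          push_cast
          ring
      _ ≤ (((2 ^ s - 1) / Q + 1 : ℕ) : ℝ) * (2 ^ m₀ * X) * (Q * (W * X) * X) := by
          refine mul_le_mul (mul_le_mul_of_nonneg_left e2 (by positivity)) e3 (by positivity)
            (by positivity)
      _ = ((((2 ^ s - 1) / Q + 1 : ℕ) : ℝ) * Q) * (2 ^ m₀ * X ^ 3 * W) := by ring
      _ ≤ (2 ^ s * X) * (2 ^ m₀ * X ^ 3 * W) := mul_le_mul_of_nonneg_right e1 (by positivity)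
      _ = X ^ 4 * 2 ^ (m₀ + s) * W := by
          rw [pow_add (2 : ℝ) m₀ s]
          ring

lemma packsK (L : ℕ) (hL : 1 ≤ L) {K : Type} [AddCommGroup K] {ι₀ : Type} [Fintype ι₀] {W₀ : ℕ}
    (h₀ : Pack K ι₀ W₀) : ∀ (t : ℕ) (a s : Fin t → ℕ), (∀ i, 1 ≤ a i) →
    (∀ i, L * a i ≤ 2 ^ (s i)) → (∀ i, 2 ^ (s i) ≤ 2 * (L * a i)) → (∀ i, L * s i ≤ W₀) →
    ∃ (ι : Type) (_ : Fintype ι) (W : ℕ), Fintype.card ι = Fintype.card ι₀ + ∑ i, s i ∧ W₀ ≤ W ∧
      W ≤ (4 * L) ^ t * W₀ ∧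
      (W : ℝ) * ∏ i, (a i : ℝ) ≤ (1 + 1 / (L : ℝ)) ^ (2 * t) * (W₀ * 2 ^ (∑ i, s i)) ∧
      Pack (K × ∀ i, ZMod (a i)) ι W := by
  intro t
  induction t with
  | zero =>
    intro a s _ _ _ _
    exact ⟨ι₀, inferInstance, W₀, by simp, le_rfl, by simp, by simp,
      h₀.map (AddEquiv.prodUnique (M := K) (N := ∀ i : Fin 0, ZMod (a i))).symm⟩
  | succ t ih =>
    intro a' s' hn hs hs2 hsm
    obtain ⟨ι, hι, W, hcard, hW, hWup, hWP, hpack⟩ := ih (fun i => a' i.castSucc)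
      (fun i => s' i.castSucc) (fun i => hn _) (fun i => hs _) (fun i => hs2 _) (fun i => hsm _)
    set a := a' (Fin.last t) with ha
    set s := s' (Fin.last t) with hs'
    have hLa : L * a ≤ 2 ^ s := hs _
    have hLa2 : 2 ^ s ≤ 2 * (L * a) := hs2 _
    have hLt : L * s ≤ W₀ := hsm _
    have ha1 : 1 ≤ a := hn _
    refine ⟨ι ⊕ Fin s, inferInstance, ((2 ^ s - 1) / a + 1) * (W + s), ?_, ?_, ?_, ?_, ?_⟩
    · rw [Fintype.card_sum, hcard, Fintype.card_fin, Fin.sum_univ_castSucc]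
      ring
    · calc W₀ ≤ W := hW
        _ ≤ 1 * (W + s) := by omega
        _ ≤ _ := Nat.mul_le_mul_right _ (Nat.le_add_left 1 _)
    · have h1 : (2 ^ s - 1) / a + 1 ≤ 2 * L := by
        have : (2 ^ s - 1) / a < 2 * L := by
          rw [Nat.div_lt_iff_lt_mul ha1]
          have : 0 < 2 ^ s := by positivity
          have : 2 * L * a = 2 * (L * a) := by ring
          omega
        omega
      have h2 : s ≤ W := by
        have : s ≤ L * s := Nat.le_mul_of_pos_left _ hL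
        omega
      calc ((2 ^ s - 1) / a + 1) * (W + s) ≤ 2 * L * (W + W) :=
            Nat.mul_le_mul h1 (by omega)
        _ = 4 * L * W := by ring
        _ ≤ 4 * L * ((4 * L) ^ t * W₀) := Nat.mul_le_mul_left _ hWup
        _ = (4 * L) ^ (t + 1) * W₀ := by ring
    · rw [Fin.prod_univ_castSucc, Fin.sum_univ_castSucc, ← ha, ← hs']
      have hL0 : (0 : ℝ) < L := by exact_mod_cast hL
      set P : ℝ := ∏ i : Fin t, (a' i.castSucc : ℝ) with hP
      have hP0 : 0 ≤ P := Finset.prod_nonneg fun _ _ => Nat.cast_nonneg _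
      set X : ℝ := (1 + 1 / (L : ℝ)) with hX
      have hX0 : 0 ≤ X := by positivity
      have e1 : ((((2 ^ s - 1) / a + 1 : ℕ) : ℝ)) * a ≤ 2 ^ s * X := by
        have h1 : ((2 ^ s - 1) / a + 1) * a ≤ 2 ^ s + a := by
          have := Nat.div_mul_le_self (2 ^ s - 1) a
          have : ((2 ^ s - 1) / a + 1) * a = (2 ^ s - 1) / a * a + a := by ring
          omega
        have h2 : ((((2 ^ s - 1) / a + 1 : ℕ) : ℝ)) * a ≤ 2 ^ s + a := by exact_mod_cast h1
        have h3 : (L : ℝ) * a ≤ 2 ^ s := by exact_mod_cast hLa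
        have h4 : (a : ℝ) ≤ 2 ^ s * (1 / (L : ℝ)) := by
          rw [mul_one_div, le_div_iff₀ hL0]
          linarith
        rw [hX]
        linarith
      have e2 : ((W + s : ℕ) : ℝ) ≤ W * X := by
        have h3 : (L : ℝ) * s ≤ W := by exact_mod_cast hLt.trans hW
        have h4 : (s : ℝ) ≤ W * (1 / (L : ℝ)) := by
          rw [mul_one_div, le_div_iff₀ hL0]
          linarith
        rw [hX]
        push_cast
        linarith
      calc (((((2 ^ s - 1) / a + 1) * (W + s) : ℕ)) : ℝ) * (P * a)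
          = ((((2 ^ s - 1) / a + 1 : ℕ) : ℝ) * a) * (((W + s : ℕ) : ℝ) * P) := by
            push_cast
            ring
        _ ≤ (2 ^ s * X) * ((W * X) * P) := by
            refine mul_le_mul e1 (mul_le_mul_of_nonneg_right e2 hP0) (by positivity) (by positivity)
        _ = X ^ 2 * 2 ^ s * (W * P) := by ring
        _ ≤ X ^ 2 * 2 ^ s * (X ^ (2 * t) * (W₀ * 2 ^ (∑ i : Fin t, s' i.castSucc))) :=
            mul_le_mul_of_nonneg_left hWP (by positivity)
        _ = X ^ (2 * (t + 1)) * (W₀ * 2 ^ (∑ i : Fin t, s' i.castSucc + s)) := by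
            rw [pow_add (2 : ℝ) _ s]
            ring
    · exact ((pack_step hpack a s (hn _)).map AddEquiv.prodAssoc).map
        (AddEquiv.prodCongr (AddEquiv.refl K) (snocEquiv a'))

/-- Splitting off the last factor of a product of groups. -/
def snocEquivM {r : ℕ} (M : Fin (r + 1) → Type) [∀ i, AddCommGroup (M i)] :
    ((∀ i : Fin r, M i.castSucc) × M (Fin.last r)) ≃+ (∀ i, M i) where
  toFun p := Fin.snoc (α := M) p.1 p.2
  invFun f := (fun i => f i.castSucc, f (Fin.last r))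
  left_inv p := by
    ext <;> simp
  right_inv f := by
    funext i
    refine Fin.lastCases ?_ (fun i => ?_) i <;> simp
  map_add' p q := by
    funext i
    refine Fin.lastCases ?_ (fun i => ?_) i <;> simp

/-- A cyclic factor together with `t` further cyclic factors. -/
abbrev Blk {t : ℕ} (a : Fin t → ℕ) (c : ℕ) : Type := (∀ j, ZMod (a j)) × ZMod c

lemma clog_le {L E x : ℕ} (hx : 1 ≤ L * x) (h : 2 * (L * x) ≤ 2 ^ E) :
    Nat.clog 2 (L * x) ≤ E := by
  have g1 := two_pow_clog_le hx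
  exact (Nat.pow_le_pow_iff_right (by norm_num)).mp (g1.trans h)

lemma chain_all (t L E m₀ : ℕ) (hL : 1 ≤ L) (hE : 1 ≤ E) (hm1 : L * E ≤ 2 ^ m₀)
    (hm2 : 2 ^ m₀ ≤ 2 * (L * E)) : ∀ (l : ℕ) (a : Fin l → Fin t → ℕ) (c : Fin l → ℕ),
    (∀ i j, 1 ≤ a i j) → (∀ i j, 2 * (L * a i j) ≤ 2 ^ E) →
    (∀ i, 7 * L ^ 3 * E * (4 * L) ^ t ≤ c i) → (∀ i, 2 * c i ≤ 2 ^ E) →
    ∃ (ι : Type) (_ : Fintype ι) (W : ℕ), L * E ≤ W ∧ W ≤ 6 * L ^ 2 * E ∧
      (W : ℝ) * ∏ i, ((∏ j, (a i j : ℝ)) * (c i : ℝ)) ≤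
        (1 + 1 / (L : ℝ)) ^ ((2 * t + 4) * l) * 2 ^ (Fintype.card ι) ∧
      Pack (∀ i, Blk (a i) (c i)) ι W := by
  intro l
  induction l with
  | zero =>
    intro a c _ _ _ _
    refine ⟨Fin m₀, inferInstance, 2 ^ m₀, hm1, ?_, by simp, pack_base _ m₀⟩
    calc 2 ^ m₀ ≤ 2 * (L * E) := hm2
      _ ≤ 6 * (L * L * E) := by
          have : L * E ≤ L * L * E := Nat.mul_le_mul_right _ (Nat.le_mul_of_pos_left _ hL)
          omega
      _ = 6 * L ^ 2 * E := by ring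
  | succ l ih =>
    intro a c ha haE hc hcE
    obtain ⟨ι, hι, W, hW1, hW2, hWP, hpack⟩ := ih (fun i => a i.castSucc) (fun i => c i.castSucc)
      (fun i j => ha _ _) (fun i j => haE _ _) (fun i => hc _) (fun i => hcE _)
    set d := c (Fin.last l) with hd
    set b := a (Fin.last l) with hb
    have hLb : ∀ j, 1 ≤ L * b j := fun j => Nat.mul_pos hL (ha _ _)
    obtain ⟨ι₂, hι₂, V, hcard₂, hV1, hV2, hVP, hpack₂⟩ := packsK L hL hpack t b
      (fun j => Nat.clog 2 (L * b j)) (fun j => ha _ _) (fun j => Nat.le_pow_clog (by norm_num) _)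
      (fun j => two_pow_clog_le (hLb j))
      (fun j => (Nat.mul_le_mul_left L (clog_le (hLb j) (haE _ _))).trans hW1)
    have hVE : L * (V + E) ≤ d := by
      calc L * (V + E) ≤ L * ((4 * L) ^ t * (6 * L ^ 2 * E) + (4 * L) ^ t * (L ^ 2 * E)) := by
            refine Nat.mul_le_mul_left _ (Nat.add_le_add (hV2.trans (Nat.mul_le_mul_left _ hW2)) ?_)
            calc E ≤ L ^ 2 * E := Nat.le_mul_of_pos_left _ (by positivity)
              _ ≤ (4 * L) ^ t * (L ^ 2 * E) := Nat.le_mul_of_pos_left _ (by positivity)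
        _ = 7 * L ^ 3 * E * (4 * L) ^ t := by ring
        _ ≤ d := hc _
    obtain ⟨ι₃, hι₃, U, e, hcard₃, hU1, hU2, hUP, hpack₃⟩ := chain_one L E m₀ hL hE hm1 hm2 hpack₂
      (hW1.trans hV1) d hVE (hcE _)
    refine ⟨ι₃, hι₃, U, hU1, hU2, ?_, ?_⟩
    · rw [Fin.prod_univ_castSucc, ← hd, ← hb, hcard₃, hcard₂]
      set P : ℝ := ∏ i : Fin l, ((∏ j, (a i.castSucc j : ℝ)) * (c i.castSucc : ℝ)) with hP
      set B : ℝ := ∏ j, (b j : ℝ) with hB
      have hP0 : 0 ≤ P := by positivity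
      have hB0 : 0 ≤ B := by positivity
      set X : ℝ := (1 + 1 / (L : ℝ)) with hX
      have hX0 : 0 ≤ X := by positivity
      set Sg := ∑ j, Nat.clog 2 (L * b j) with hSg
      calc (U : ℝ) * (P * (B * d)) = (U * d) * (P * B) := by ring
        _ ≤ (X ^ 4 * 2 ^ e * V) * (P * B) := mul_le_mul_of_nonneg_right hUP (by positivity)
        _ = (X ^ 4 * 2 ^ e * P) * (V * B) := by ring
        _ ≤ (X ^ 4 * 2 ^ e * P) * (X ^ (2 * t) * (W * 2 ^ Sg)) :=
            mul_le_mul_of_nonneg_left hVP (by positivity)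
        _ = (X ^ (2 * t + 4) * 2 ^ e * 2 ^ Sg) * (W * P) := by ring
        _ ≤ (X ^ (2 * t + 4) * 2 ^ e * 2 ^ Sg) * (X ^ ((2 * t + 4) * l) * 2 ^ Fintype.card ι) :=
            mul_le_mul_of_nonneg_left hWP (by positivity)
        _ = X ^ ((2 * t + 4) * (l + 1)) * 2 ^ (Fintype.card ι + Sg + e) := by
            rw [pow_add (2 : ℝ) _ e, pow_add (2 : ℝ) _ Sg]
            ring
    · exact (hpack₃.map AddEquiv.prodAssoc).map (snocEquivM fun i => Blk (a i) (c i))

end Pool.Agent.Results.MP_3a3582_co.LargeFactors
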