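import Pool.Agent.Helper934.LF1

open Finset
open Pool.Agent.Results.MP_3a3582_co.BoundedRank

namespace Pool.Agent.Results.MP_3a3582_co.LargeFactors

theorem lowerL (t l : ℕ) (a : Fin (l + 1) → Fin t → ℕ) (c : Fin (l + 1) → ℕ) (L E k : ℕ)
    (ha : ∀ i j, 1 ≤ a i j) (hL : 1 ≤ L) (hE : 1 ≤ E)
    (hc : ∀ i, 24 * L ^ 3 * E * (4 * L) ^ t ≤ c i)
    (h1 : (1 + 1 / (L : ℝ)) ^ ((2 * t + 4) * (l + 1)) * 2 ^ k ≤
      ((∏ i, ((∏ j, a i j) * c i) : ℕ) : ℝ))
    (h2 : ∏ i, ((∏ j, a i j) * c i) < 2 ^ (k + 2))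
    (hE2 : 2 * ∏ i, ((∏ j, a i j) * c i) ≤ 2 ^ E)
    (G : Type) [AddCommGroup G] [Fintype G] (e : G ≃+ ∀ i, Blk (a i) (c i)) : k ≤ tau G := by
  classical
  have hL3 : 0 < 24 * L ^ 3 * E * (4 * L) ^ t := by positivity
  have hc1 : ∀ i, 1 ≤ c i := fun i => le_trans hL3 (hc i)
  have hAi : ∀ i, 0 < ∏ j, a i j := fun i => Finset.prod_pos fun j _ => ha i j
  have hBi : ∀ i, 0 < (∏ j, a i j) * c i := fun i => Nat.mul_pos (hAi i) (hc1 i)
  set N : ℕ := ∏ i, ((∏ j, a i j) * c i) with hN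
  have hN0 : 0 < N := Finset.prod_pos fun i _ => hBi i
  set A : ℕ := ∏ j, a (Fin.last l) j with hA
  set C : ℕ := ∏ i : Fin l, ((∏ j, a i.castSucc j) * c i.castSucc) with hC
  set cl : ℕ := c (Fin.last l) with hcl
  have hprod : N = C * (A * cl) := Fin.prod_univ_castSucc _
  have hA0 : 0 < A := hAi _
  have hC0 : 0 < C := Finset.prod_pos fun i _ => hBi _
  have hcl0 : 0 < cl := hc1 _
  have hLc : ∀ i, L ≤ c i := fun i => by
    calc L ≤ (24 * L ^ 2 * E * (4 * L) ^ t) * L := Nat.le_mul_of_pos_left _ (by positivity)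
      _ = 24 * L ^ 3 * E * (4 * L) ^ t := by ring
      _ ≤ c i := hc _
  have hBN : ∀ i, (∏ j, a i j) * c i ≤ N := fun i => Nat.le_of_dvd hN0
    (Finset.dvd_prod_of_mem (fun i => (∏ j, a i j) * c i) (Finset.mem_univ i))
  have haE : ∀ i j, 2 * (L * a i j) ≤ 2 ^ E := fun i j => by
    refine le_trans (Nat.mul_le_mul_left 2 ?_) hE2
    calc L * a i j ≤ c i * ∏ j, a i j := Nat.mul_le_mul (hLc i)
          (Nat.le_of_dvd (hAi i) (Finset.dvd_prod_of_mem _ (Finset.mem_univ j)))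
      _ = (∏ j, a i j) * c i := mul_comm _ _
      _ ≤ N := hBN i
  have hcE : ∀ i, 2 * c i ≤ 2 ^ E := fun i => by
    refine le_trans (Nat.mul_le_mul_left 2 ?_) hE2
    exact (Nat.le_mul_of_pos_left _ (hAi i)).trans (hBN i)
  have hLE : 1 ≤ L * E := Nat.mul_pos hL hE
  obtain ⟨ι₁, hι₁, W₁, hW1, hW2, hWP, hpack₁⟩ := chain_all t L E (Nat.clog 2 (L * E)) hL hE
    (Nat.le_pow_clog (by norm_num) _) (two_pow_clog_le hLE) l (fun i => a i.castSucc)
    (fun i => c i.castSucc) (fun i j => ha _ _) (fun i j => haE _ _)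
    (fun i => by
      calc 7 * L ^ 3 * E * (4 * L) ^ t ≤ 24 * L ^ 3 * E * (4 * L) ^ t := by gcongr; norm_num
        _ ≤ c i.castSucc := hc _)
    (fun i => hcE _)
  set d := Fintype.card ι₁ with hd
  set b := a (Fin.last l) with hb
  set s : Fin t → ℕ := fun j => Nat.clog 2 (L * b j) with hs
  have hLb : ∀ j, 1 ≤ L * b j := fun j => Nat.mul_pos hL (ha _ _)
  have hsE : ∀ j, s j ≤ E := fun j => clog_le (hLb j) (haE _ _)
  set Sg := ∑ j, s j with hSg
  have hSgle : 2 ^ Sg ≤ (2 * L) ^ t * A := by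
    calc 2 ^ (∑ j, s j) = ∏ j, 2 ^ s j := (Finset.prod_pow_eq_pow_sum _ _ _).symm
      _ ≤ ∏ j : Fin t, (2 * L) * b j := by
          refine Finset.prod_le_prod' fun j _ => ?_
          rw [mul_assoc]
          exact two_pow_clog_le (hLb j)
      _ = (2 * L) ^ t * A := by
          rw [Finset.prod_mul_distrib, Finset.prod_const, Finset.card_univ, Fintype.card_fin]
  have hne : ∀ i, NeZero (c i) := fun i => ⟨by have := hc1 i; omega⟩
  have hne' : ∀ i j, NeZero (a i j) := fun i j => ⟨by have := ha i j; omega⟩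
  have hdle : 2 ^ d ≤ C * (6 * L ^ 2 * E) := by
    have g1 := Pack.two_pow_le hpack₁ (hLE.trans hW1)
    have g2 : Fintype.card (∀ i : Fin l, Blk (a i.castSucc) (c i.castSucc)) = C := by
      rw [Fintype.card_pi]
      refine Finset.prod_congr rfl fun i _ => ?_
      rw [Fintype.card_prod, Fintype.card_pi, ZMod.card]
      congr 1
      exact Finset.prod_congr rfl fun j _ => ZMod.card _
    rw [g2] at g1
    exact g1.trans (Nat.mul_le_mul_left _ hW2)
  have hlt : d + Sg < k := by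
    have g1 : 4 * 2 ^ (d + Sg) ≤ C * (A * cl) := by
      calc 4 * 2 ^ (d + Sg) = 4 * (2 ^ d * 2 ^ Sg) := by rw [pow_add]
        _ ≤ 4 * ((C * (6 * L ^ 2 * E)) * ((2 * L) ^ t * A)) := by gcongr
        _ = C * (A * (24 * L ^ 2 * E * (2 * L) ^ t)) := by ring
        _ ≤ C * (A * cl) := by
            gcongr
            calc 24 * L ^ 2 * E * (2 * L) ^ t ≤ 24 * L ^ 2 * E * (4 * L) ^ t := by
                  gcongr
                  omega
              _ ≤ 24 * L ^ 2 * E * (4 * L) ^ t * L := Nat.le_mul_of_pos_right _ hL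
              _ = 24 * L ^ 3 * E * (4 * L) ^ t := by ring
              _ ≤ cl := hc _
    have g2 : C * (A * cl) < 4 * 2 ^ k := by
      rw [← hprod]
      calc N < 2 ^ (k + 2) := h2
        _ = 4 * 2 ^ k := by ring
    have g3 : 2 ^ (d + Sg) < 2 ^ k := by omega
    exact (Nat.pow_lt_pow_iff_right (by norm_num)).mp g3
  set f := k - (d + Sg) with hf
  have hfk : d + f + Sg = k := by omega
  obtain ⟨ι, hι, W, hcard, -, -, hWA, hpack⟩ := packsK L hL (pack_extend hpack₁ f) t b s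
    (fun j => ha _ _) (fun j => Nat.le_pow_clog (by norm_num) _)
    (fun j => two_pow_clog_le (hLb j)) (fun j => by
      calc L * s j ≤ L * E := Nat.mul_le_mul_left _ (hsE j)
        _ ≤ W₁ := hW1
        _ ≤ 2 ^ f * W₁ := Nat.le_mul_of_pos_left _ (by positivity))
  have hcardk : Fintype.card ι = k := by
    rw [hcard, Fintype.card_sum, Fintype.card_fin, ← hd, ← hSg, hfk]
  set X : ℝ := (1 + 1 / (L : ℝ)) with hX
  have hX1 : 1 ≤ X := by
    rw [hX]
    have : (0 : ℝ) ≤ 1 / L := by positivity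
    linarith
  have hX0 : 0 ≤ X := by positivity
  have hAr : (∏ j, (b j : ℝ)) = A := by rw [hA]; push_cast; rfl
  have hCr : (∏ i : Fin l, ((∏ j, (a i.castSucc j : ℝ)) * (c i.castSucc : ℝ))) = C := by
    rw [hC]; push_cast; rfl
  rw [hAr] at hWA
  rw [hCr] at hWP
  have hWc : W ≤ cl := by
    have b1 : (W : ℝ) * (A * C) ≤ (cl : ℝ) * (A * C) := by
      calc (W : ℝ) * (A * C) = (W * A) * C := by ring
        _ ≤ (X ^ (2 * t) * (((2 ^ f * W₁ : ℕ) : ℝ) * 2 ^ Sg)) * C :=
            mul_le_mul_of_nonneg_right hWA (by positivity)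
        _ = X ^ (2 * t) * 2 ^ f * 2 ^ Sg * (W₁ * C) := by push_cast; ring
        _ ≤ X ^ (2 * t) * 2 ^ f * 2 ^ Sg * (X ^ ((2 * t + 4) * l) * 2 ^ d) :=
            mul_le_mul_of_nonneg_left hWP (by positivity)
        _ = X ^ ((2 * t + 4) * l + 2 * t) * 2 ^ k := by
            rw [← hfk, pow_add (2 : ℝ), pow_add (2 : ℝ), pow_add X]
            ring
        _ ≤ X ^ ((2 * t + 4) * (l + 1)) * 2 ^ k := by
            refine mul_le_mul_of_nonneg_right (pow_le_pow_right₀ hX1 ?_) (by positivity)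
            ring_nf
            omega
        _ ≤ (N : ℝ) := h1
        _ = (cl : ℝ) * (A * C) := by rw [hprod]; push_cast; ring
    have b2 : (W : ℝ) ≤ cl := le_of_mul_le_mul_right b1 (by positivity)
    exact_mod_cast b2
  rw [← hcardk]
  exact hpack.card_le_tau hWc ((e.trans (snocEquivM fun i => Blk (a i) (c i)).symm).trans
    AddEquiv.prodAssoc.symm)

/-! ### products with 2-groups -/

lemma Dissociated.fam_inj {G : Type} [AddCommGroup G] {A : Finset G} (hA : Dissociated A) :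
    Function.Injective fun S : Finset A => ∑ i ∈ S, (i : G) := by
  classical
  intro S T hST
  have h := hA.inj (S := S.map (Function.Embedding.subtype _))
    (T := T.map (Function.Embedding.subtype _)) (by intro x hx; simp at hx; exact hx.1)
    (by intro x hx; simp at hx; exact hx.1) (by simpa using hST)
  exact Finset.map_injective _ h

lemma tau_prod_ge (G₁ G₂ : Type) [AddCommGroup G₁] [AddCommGroup G₂] [Fintype G₁] [Fintype G₂] :
    tau G₁ + tau G₂ ≤ tau (G₁ × G₂) := by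
  classical
  obtain ⟨A₁, hA₁, hc₁⟩ := exists_tau (G := G₁)
  obtain ⟨A₂, hA₂, hc₂⟩ := exists_tau (G := G₂)
  have h := card_le_tau_of_injective (G := G₁ × G₂) (ι := A₁ ⊕ A₂)
    (Sum.elim (fun x => ((x : G₁), 0)) (fun y => (0, (y : G₂)))) (by
      intro S T hST
      simp only at hST
      rw [← Finset.toLeft_disjSum_toRight (u := S), ← Finset.toLeft_disjSum_toRight (u := T)]
        at hST ⊢
      simp only [Finset.sum_disjSum, Sum.elim_inl, Sum.elim_inr] at hST
      have h1 : ∑ i ∈ S.toLeft, (i : G₁) = ∑ i ∈ T.toLeft, (i : G₁) := by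
        have := congrArg Prod.fst hST
        simpa [Prod.fst_sum] using this
      have h2 : ∑ i ∈ S.toRight, (i : G₂) = ∑ i ∈ T.toRight, (i : G₂) := by
        have := congrArg Prod.snd hST
        simpa [Prod.snd_sum] using this
      rw [Dissociated.fam_inj hA₁ h1, Dissociated.fam_inj hA₂ h2])
  simpa [hc₁, hc₂] using h

lemma tau_congr_le {G G' : Type} [AddCommGroup G] [AddCommGroup G'] [Fintype G] [Fintype G']
    (e : G ≃+ G') : tau G ≤ tau G' := by
  classical
  obtain ⟨A, hA, hc⟩ := exists_tau (G := G)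
  have h := card_le_tau_of_injective (G := G') (ι := A) (fun x => e (x : G)) (by
    intro S T hST
    simp only at hST
    rw [← map_sum, ← map_sum] at hST
    exact Dissociated.fam_inj hA (e.injective hST))
  simpa [hc] using h

lemma tau_zmod_two_pow (b : ℕ) : b ≤ tau (ZMod (2 ^ b)) := by
  have h := (pack_base PUnit b).card_le_tau (G := ZMod (2 ^ b)) (c := 2 ^ b) le_rfl
    (AddEquiv.uniqueProd (M := ZMod (2 ^ b)) (N := PUnit)).symm
  simpa using h

lemma tau_two_group : ∀ (u : ℕ) (b : Fin u → ℕ), ∑ i, b i ≤ tau (∀ i, ZMod (2 ^ b i)) := by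
  intro u
  induction u with
  | zero => intro b; simp
  | succ u ih =>
    intro b
    rw [Fin.sum_univ_castSucc]
    calc ∑ i : Fin u, b i.castSucc + b (Fin.last u)
        ≤ tau (∀ i : Fin u, ZMod (2 ^ b i.castSucc)) + tau (ZMod (2 ^ b (Fin.last u))) :=
          Nat.add_le_add (ih _) (tau_zmod_two_pow _)
      _ ≤ tau ((∀ i : Fin u, ZMod (2 ^ b i.castSucc)) × ZMod (2 ^ b (Fin.last u))) :=
          tau_prod_ge _ _
      _ ≤ tau (∀ i, ZMod (2 ^ b i)) := tau_congr_le (snocEquivM fun i => ZMod (2 ^ b i))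

end Pool.Agent.Results.MP_3a3582_co.LargeFactors
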