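import Pool.Agent.Results.MP_3a3582_co.LargeFactors

open Finset
open Pool.Agent.Results.MP_3a3582_co.BoundedRank

namespace Pool.Agent.Results.MP_3a3582_co.LargeFactors

theorem large (ε : ℝ) (hε : 0 < ε) : ∃ n₀ : ℕ, ∀ (u l : ℕ) (b : Fin u → ℕ)
    (c : Fin (l + 1) → ℕ), n₀ ≤ ∏ i, c i → (∀ i, Nat.log 2 (∏ i, c i) ^ 5 ≤ c i) →
    ∀ (G : Type) [AddCommGroup G] [Fintype G],
    (G ≃+ (∀ i, ZMod (2 ^ b i)) × (∀ i, ZMod (c i))) →
    (tau G = Nat.log 2 (Fintype.card G) ∨ tau G + 1 = Nat.log 2 (Fintype.card G)) ∧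
    ((1 + ε) * 2 ^ Nat.log 2 (Fintype.card G) ≤ Fintype.card G →
      tau G = Nat.log 2 (Fintype.card G)) := by
  obtain ⟨n₀, hn₀⟩ := result 0 ε hε
  refine ⟨n₀, fun u l b c hN hc G _ _ e => ?_⟩
  have h := hn₀ u l b (fun _ _ => 1) c (fun _ _ => le_rfl) (by simpa using hN)
    (by simpa using hc) G
    (e.trans (AddEquiv.prodCongr (AddEquiv.refl _)
      (AddEquiv.piCongrRight fun i => AddEquiv.uniqueProd.symm)))
  exact ⟨h.1, h.2.1⟩

end Pool.Agent.Results.MP_3a3582_co.LargeFactors
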