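import Pool.Agent.Helper934.PG3

open Finset
open Pool.Agent.Results.MP_3a3582_co.BoundedRank
open Pool.Agent.Results.MP_3a3582_co.ThreeTwo

namespace Pool.Agent.Results.MP_3a3582_co.OddP

section monomials
variable {ι : Type} [Fintype ι] [DecidableEq ι] (B : Type) [CommRing B]

/-- Monomials in the signs. -/
def mo (e : ι → ℕ) : (ι → ZMod 3) → B := fun c => ∏ a, ((sgn (c a) : ℤ) : B) ^ e a

/-- Functions of degree at most `D`. -/
def Dg (D : ℕ) : Submodule B ((ι → ZMod 3) → B) :=
  Submodule.span B (Set.range fun e : {e : ι → ℕ // ∑ a, e a ≤ D} => mo B e.1)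

lemma mo_mem {D : ℕ} {e : ι → ℕ} (h : ∑ a, e a ≤ D) : mo B e ∈ Dg B D :=
  Submodule.subset_span ⟨⟨e, h⟩, rfl⟩

lemma mo_mul (e e' : ι → ℕ) : mo B e * mo B e' = mo B (e + e') := by
  funext c
  rw [Pi.mul_apply]
  unfold mo
  rw [← Finset.prod_mul_distrib]
  exact Finset.prod_congr rfl fun a _ => by rw [Pi.add_apply, pow_add]

lemma mo_zero : mo B (0 : ι → ℕ) = 1 := by
  funext c
  unfold mo
  simp

lemma mo_single (a : ι) (n : ℕ) (c : ι → ZMod 3) :
    mo B (Pi.single a n) c = ((sgn (c a) : ℤ) : B) ^ n := by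
  unfold mo
  rw [Finset.prod_eq_single a]
  · rw [Pi.single_eq_same]
  · intro b _ hb
    rw [Pi.single_eq_of_ne hb, pow_zero]
  · intro h
    exact absurd (Finset.mem_univ _) h

lemma sum_single (a : ι) (n : ℕ) : ∑ b, (Pi.single a n : ι → ℕ) b = n := by
  rw [Finset.sum_eq_single a]
  · rw [Pi.single_eq_same]
  · intro b _ hb
    rw [Pi.single_eq_of_ne hb]
  · intro h
    exact absurd (Finset.mem_univ _) h

lemma mul_mem_Dg {s t : ℕ} {f g : (ι → ZMod 3) → B} (hf : f ∈ Dg B s) (hg : g ∈ Dg B t) :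
    f * g ∈ Dg B (s + t) := by
  unfold Dg at hf
  induction hf using Submodule.span_induction with
  | mem f hf =>
    obtain ⟨⟨y, hy⟩, rfl⟩ := hf
    unfold Dg at hg
    induction hg using Submodule.span_induction with
    | mem g hg =>
      obtain ⟨⟨z, hz⟩, rfl⟩ := hg
      simp only
      rw [mo_mul]
      refine mo_mem B ?_
      have : ∑ a, (y + z) a = ∑ a, y a + ∑ a, z a := by
        rw [← Finset.sum_add_distrib]
        rfl
      rw [this]
      exact Nat.add_le_add hy hz
    | zero =>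
      rw [mul_zero]
      exact Submodule.zero_mem _
    | add x x' _ _ h1 h2 =>
      rw [mul_add]
      exact Submodule.add_mem _ h1 h2
    | smul r x _ h =>
      rw [mul_smul_comm]
      exact Submodule.smul_mem _ _ h
  | zero =>
    rw [zero_mul]
    exact Submodule.zero_mem _
  | add x x' _ _ h1 h2 =>
    rw [add_mul]
    exact Submodule.add_mem _ h1 h2
  | smul r x _ h =>
    rw [smul_mul_assoc]
    exact Submodule.smul_mem _ _ h

lemma prod_mem_Dg {κ : Type} [DecidableEq κ] (J : Finset κ) (m : κ → ℕ)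
    (f : κ → (ι → ZMod 3) → B) (hf : ∀ a ∈ J, f a ∈ Dg B (m a)) :
    ∏ a ∈ J, f a ∈ Dg B (∑ a ∈ J, m a) := by
  induction J using Finset.induction_on with
  | empty =>
    rw [Finset.prod_empty, ← mo_zero]
    exact mo_mem B (by simp)
  | insert a J ha ih =>
    rw [Finset.prod_insert ha, Finset.sum_insert ha]
    exact mul_mem_Dg B (hf a (Finset.mem_insert_self _ _))
      (ih fun b hb => hf b (Finset.mem_insert_of_mem hb))

/-- The filtered span with respect to an element `y`. -/
def Fl (y : B) : Submodule B ((ι → ZMod 3) → B) :=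
  Submodule.span B (Set.range fun p : {p : ℕ × (ι → ℕ) // ∑ a, p.2 a ≤ p.1} =>
    y ^ p.1.1 • mo B p.1.2)

lemma fl_mem (y : B) (j : ℕ) (e : ι → ℕ) (h : ∑ a, e a ≤ j) : y ^ j • mo B e ∈ Fl B y :=
  Submodule.subset_span ⟨⟨(j, e), h⟩, rfl⟩

lemma mul_mem_Fl (y : B) {f g : (ι → ZMod 3) → B} (hf : f ∈ Fl B y) (hg : g ∈ Fl B y) :
    f * g ∈ Fl B y := by
  unfold Fl at hf
  induction hf using Submodule.span_induction with
  | mem f hf =>
    obtain ⟨⟨⟨j, e⟩, he⟩, rfl⟩ := hf
    unfold Fl at hg
    induction hg using Submodule.span_induction with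
    | mem g hg =>
      obtain ⟨⟨⟨j', e'⟩, he'⟩, rfl⟩ := hg
      simp only at he he' ⊢
      rw [smul_mul_smul_comm, mo_mul, ← pow_add]
      refine fl_mem B y _ _ ?_
      have : ∑ a, (e + e') a = ∑ a, e a + ∑ a, e' a := by
        rw [← Finset.sum_add_distrib]
        rfl
      rw [this]
      exact Nat.add_le_add he he'
    | zero =>
      rw [mul_zero]
      exact Submodule.zero_mem _
    | add x x' _ _ h1 h2 =>
      rw [mul_add]
      exact Submodule.add_mem _ h1 h2
    | smul r x _ h =>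
      rw [mul_smul_comm]
      exact Submodule.smul_mem _ _ h
  | zero =>
    rw [zero_mul]
    exact Submodule.zero_mem _
  | add x x' _ _ h1 h2 =>
    rw [add_mul]
    exact Submodule.add_mem _ h1 h2
  | smul r x _ h =>
    rw [smul_mul_assoc]
    exact Submodule.smul_mem _ _ h

lemma prod_mem_Fl (y : B) (J : Finset ι) (f : ι → (ι → ZMod 3) → B)
    (hf : ∀ a ∈ J, f a ∈ Fl B y) : ∏ a ∈ J, f a ∈ Fl B y := by
  induction J using Finset.induction_on with
  | empty =>
    rw [Finset.prod_empty, ← mo_zero]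
    have := fl_mem (ι := ι) B y 0 0 (by simp)
    rwa [pow_zero, one_smul] at this
  | insert a J ha ih =>
    rw [Finset.prod_insert ha]
    exact mul_mem_Fl B y (hf a (Finset.mem_insert_self _ _))
      (ih fun b hb => hf b (Finset.mem_insert_of_mem hb))

lemma fl_le (y : B) (q : ℕ) (hy : y ^ q = 0) : Fl (ι := ι) B y ≤ Dg B (q - 1) := by
  unfold Fl
  rw [Submodule.span_le]
  rintro _ ⟨⟨⟨j, e⟩, he⟩, rfl⟩
  simp only at he ⊢
  rcases le_or_gt q j with h | h
  · have : y ^ j = 0 := by
      rw [← Nat.add_sub_cancel' h, pow_add, hy, zero_mul]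
    rw [this, zero_smul]
    exact Submodule.zero_mem _
  · exact Submodule.smul_mem _ _ (mo_mem B (by omega))

end monomials

section functional
variable {ι : Type} [Fintype ι] [DecidableEq ι] {F B : Type} [Field F] [CommRing B] [Algebra F B]

lemma functional_mem (Λ : B →ₗ[F] F) {s : ℕ} {Q : (ι → ZMod 3) → B} (hQ : Q ∈ Dg B s) (b : B) :
    (fun c => Λ (b * Q c)) ∈ Dg F s := by
  unfold Dg at hQ
  induction hQ using Submodule.span_induction generalizing b with
  | mem Q hQ =>
    obtain ⟨⟨y, hy⟩, rfl⟩ := hQ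
    have h1 : ∀ c : ι → ZMod 3, mo B y c = algebraMap F B (mo F y c) := by
      intro c
      unfold mo
      rw [map_prod]
      refine Finset.prod_congr rfl fun a _ => ?_
      rw [map_pow, map_intCast]
    have h2 : (fun c : ι → ZMod 3 => Λ (b * mo B y c)) = Λ b • mo F y := by
      funext c
      rw [h1, Pi.smul_apply, smul_eq_mul, mul_comm b, ← Algebra.smul_def, map_smul, smul_eq_mul,
        mul_comm]
    simp only
    rw [h2]
    exact Submodule.smul_mem _ _ (mo_mem F hy)
  | zero =>
    have : (fun c : ι → ZMod 3 => Λ (b * (0 : (ι → ZMod 3) → B) c)) = 0 := by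
      funext c
      simp
    rw [this]
    exact Submodule.zero_mem _
  | add x x' _ _ h1 h2 =>
    have : (fun c : ι → ZMod 3 => Λ (b * (x + x') c)) =
        (fun c => Λ (b * x c)) + fun c => Λ (b * x' c) := by
      funext c
      rw [Pi.add_apply, Pi.add_apply, mul_add, map_add]
    rw [this]
    exact Submodule.add_mem _ (h1 b) (h2 b)
  | smul r x _ h =>
    have : (fun c : ι → ZMod 3 => Λ (b * (r • x) c)) = fun c => Λ ((b * r) * x c) := by
      funext c
      rw [Pi.smul_apply, smul_eq_mul, mul_assoc]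
    rw [this]
    exact h (b * r)

end functional

/-- The indicator of the vanishing of a signed sum in a cyclic `p`-group of order `q`. -/
lemma cyclic_mem {ι : Type} [Fintype ι] [DecidableEq ι] (p n : ℕ) [Fact p.Prime] (hp2 : p ≠ 2)
    (κ : ι → ZMod (p ^ n)) :
    (fun c : ι → ZMod 3 => if ∑ a, sgn (c a) • κ a = 0 then (1 : ZMod p) else 0) ∈
      Dg (ZMod p) (p ^ n - 1) := by
  classical
  have hq : NeZero (p ^ n) := ⟨pow_ne_zero _ (Fact.out (p := p.Prime)).ne_zero⟩
  set B := AddMonoidAlgebra (ZMod p) (ZMod (p ^ n)) with hB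
  set x : B := AddMonoidAlgebra.single (1 : ZMod (p ^ n)) (1 : ZMod p) with hx
  have hxg : ∀ g : ZMod (p ^ n), (AddMonoidAlgebra.single g (1 : ZMod p) : B) = x ^ g.val := by
    intro g
    rw [hx, AddMonoidAlgebra.single_pow, one_pow]
    congr 1
    rw [nsmul_eq_mul, mul_one, ZMod.natCast_zmod_val]
  have hdvd : ∀ g : ZMod (p ^ n), ∃ h : B, AddMonoidAlgebra.single g (1 : ZMod p) =
      1 + (x - 1) * h := by
    intro g
    have h1 := sub_dvd_pow_sub_pow x 1 g.val
    rw [one_pow] at h1
    obtain ⟨h, hh⟩ := h1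
    refine ⟨h, ?_⟩
    rw [hxg, ← hh]
    ring
  choose H hH using hdvd
  have hchar : CharP B p :=
    charP_of_injective_algebraMap (FaithfulSMul.algebraMap_injective (ZMod p) B) p
  have hnil : (x - 1) ^ (p ^ n) = 0 := by
    rw [sub_pow_char_pow, one_pow, hx, AddMonoidAlgebra.single_pow, one_pow, nsmul_eq_mul, mul_one,
      ZMod.natCast_self]
    exact sub_self _
  -- one half
  obtain ⟨h, hh⟩ : ∃ h : B, 2 * h = 1 := by
    have h2 : (2 : ZMod p) ≠ 0 := by
      have : ((2 : ℕ) : ZMod p) ≠ 0 := by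
        rw [Ne, ZMod.natCast_eq_zero_iff]
        intro hd
        exact hp2 ((Nat.prime_dvd_prime_iff_eq Fact.out Nat.prime_two).mp hd)
      exact_mod_cast this
    refine ⟨algebraMap (ZMod p) B (2 : ZMod p)⁻¹, ?_⟩
    have : (2 : B) = algebraMap (ZMod p) B 2 := by rw [map_ofNat]
    rw [this, ← map_mul, mul_inv_cancel₀ h2, map_one]
  set X : ZMod (p ^ n) → B := fun g => AddMonoidAlgebra.single g (1 : ZMod p) with hX
  have hXinv : ∀ g, X g * X (-g) = 1 := by
    intro g
    rw [hX]
    simp only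
    rw [AddMonoidAlgebra.single_mul_single, add_neg_cancel, mul_one]
    rfl
  -- the factors
  have hfac : ∀ (g : ZMod (p ^ n)) (t : ZMod 3), X (sgn t • g) =
      1 + (h * (H g * X (-g) * (X g + 1))) * ((x - 1) * ((sgn t : ℤ) : B)) +
        (h * (H g * H g * X (-g))) * ((x - 1) ^ 2 * ((sgn t : ℤ) : B) ^ 2) := by
    intro g t
    have e1 : X g = 1 + (x - 1) * H g := hH g
    have e2 := hXinv g
    have ht : t = 0 ∨ t = 1 ∨ t = 2 := by
      have : ∀ t : ZMod 3, t = 0 ∨ t = 1 ∨ t = 2 := by decide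
      exact this t
    rcases ht with rfl | rfl | rfl
    · rw [sgn_zero, zero_smul]
      have : X 0 = 1 := rfl
      rw [this]
      push_cast
      ring
    · have hs : sgn 1 = 1 := by decide
      rw [hs, one_smul]
      push_cast
      have e3 : (x - 1) * H g = X g - 1 := by rw [e1]; ring
      calc X g = 1 + (X g - 1) := by ring
        _ = 1 + 2 * h * (X g - 1) := by rw [hh]; ring
        _ = 1 + h * ((X g - 1) * (X g * X (-g)) * 2) := by rw [e2]; ring
        _ = 1 + (h * ((X g - 1) * X (-g) * (X g + 1))) +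
            (h * ((X g - 1) * (X g - 1) * X (-g))) := by ring
        _ = _ := by rw [← e3]; ring
    · have hs : sgn 2 = -1 := by decide
      rw [hs, neg_smul, one_smul]
      push_cast
      have e3 : (x - 1) * H g = X g - 1 := by rw [e1]; ring
      linear_combination (h * X (-g) * (2 - (x - 1) * H g)) * e3 + e2 + (X (-g) * (X g - 1)) * hh
  -- the product
  set Q : (ι → ZMod 3) → B := fun c => ∏ a, X (sgn (c a) • κ a) with hQ
  have hQmem : Q ∈ Dg B (p ^ n - 1) := by
    refine fl_le B (x - 1) (p ^ n) hnil ?_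
    have h1 : Q = ∏ a, fun c : ι → ZMod 3 => X (sgn (c a) • κ a) := by
      funext c
      rw [Finset.prod_apply]
    rw [h1]
    refine prod_mem_Fl B (x - 1) Finset.univ _ fun a _ => ?_
    have h2 : (fun c : ι → ZMod 3 => X (sgn (c a) • κ a)) =
        (x - 1) ^ 0 • mo B 0 +
        (h * (H (κ a) * X (-κ a) * (X (κ a) + 1))) • ((x - 1) ^ 1 • mo B (Pi.single a 1)) +
        (h * (H (κ a) * H (κ a) * X (-κ a))) • ((x - 1) ^ 2 • mo B (Pi.single a 2)) := by
      funext c
      rw [hfac]
      simp only [Pi.add_apply, Pi.smul_apply, smul_eq_mul, mo_single, mo_zero, Pi.one_apply,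
        pow_zero, pow_one, one_mul]
    rw [h2]
    refine Submodule.add_mem _ (Submodule.add_mem _ ?_ ?_) ?_
    · exact fl_mem B _ 0 0 (by simp)
    · exact Submodule.smul_mem _ _ (fl_mem B _ 1 _ (by rw [sum_single]))
    · exact Submodule.smul_mem _ _ (fl_mem B _ 2 _ (by rw [sum_single]))
  have hQval : ∀ c, Q c = AddMonoidAlgebra.single (∑ a, sgn (c a) • κ a) (1 : ZMod p) := by
    intro c
    rw [hQ]
    simp only
    have h1 : ∀ S : Finset ι, ∏ a ∈ S, X (sgn (c a) • κ a) =
        (AddMonoidAlgebra.single (∑ a ∈ S, sgn (c a) • κ a) (1 : ZMod p) : B) := by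
      intro S
      induction S using Finset.induction_on with
      | empty =>
        rw [Finset.prod_empty, Finset.sum_empty]
        rfl
      | insert a S ha ih =>
        rw [Finset.prod_insert ha, Finset.sum_insert ha, ih, hX]
        simp only
        rw [AddMonoidAlgebra.single_mul_single, mul_one]
    exact h1 Finset.univ
  set Λ : B →ₗ[ZMod p] ZMod p :=
    { toFun := fun f => f.coeff 0
      map_add' := fun f g => rfl
      map_smul' := fun r f => rfl } with hΛ
  have h3 := functional_mem Λ hQmem 1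
  have h4 : (fun c : ι → ZMod 3 => Λ (1 * Q c)) =
      fun c : ι → ZMod 3 => if ∑ a, sgn (c a) • κ a = 0 then (1 : ZMod p) else 0 := by
    funext c
    rw [one_mul, hQval]
    show (AddMonoidAlgebra.single (∑ a, sgn (c a) • κ a) (1 : ZMod p) : B).coeff 0 = _
    simp [Finsupp.single_apply]
  rwa [h4] at h3

end Pool.Agent.Results.MP_3a3582_co.OddP
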