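import Pool.Agent.Helper934.OD1

open Finset
open Pool.Agent.Results.MP_3a3582_co.BoundedRank
open Pool.Agent.Results.MP_3a3582_co.ThreeTwo

namespace Pool.Agent.Results.MP_3a3582_co.OddP

lemma cyclic_mem' {ι : Type} [Fintype ι] [DecidableEq ι] (p q : ℕ) [Fact p.Prime] (hp2 : p ≠ 2)
    (hq : ∃ n, q = p ^ n) (κ : ι → ZMod q) :
    (fun c : ι → ZMod 3 => if ∑ a, sgn (c a) • κ a = 0 then (1 : ZMod p) else 0) ∈
      Dg (ZMod p) (q - 1) := by
  obtain ⟨n, rfl⟩ := hq
  exact cyclic_mem p n hp2 κ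

/-- The weights. -/
def wgt (F : Type) [Field F] (t : ZMod 3) : F := if t = 0 then -2 else 1

lemma sum_wgt {F : Type} [Field F] (g : ZMod 3 → F) :
    ∑ t : ZMod 3, wgt F t * g t = -2 * g 0 + g 1 + g 2 := by
  have h : (Finset.univ : Finset (ZMod 3)) = {0, 1, 2} := by decide
  rw [h, Finset.sum_insert (by decide), Finset.sum_insert (by decide), Finset.sum_singleton]
  unfold wgt
  rw [if_pos rfl, if_neg (by decide), if_neg (by decide)]
  ring

lemma sum_mo {ι : Type} [Fintype ι] [DecidableEq ι] {F : Type} [Field F] (e : ι → ℕ)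
    (h : ∑ a, e a < 2 * Fintype.card ι) :
    ∑ c : ι → ZMod 3, (∏ a, wgt F (c a)) * mo F e c = 0 := by
  obtain ⟨a₀, ha₀⟩ : ∃ a, e a ≤ 1 := by
    by_contra hcon
    push Not at hcon
    have : ∑ _a : ι, 2 ≤ ∑ a, e a := Finset.sum_le_sum fun a _ => hcon a
    rw [Finset.sum_const, Finset.card_univ, smul_eq_mul] at this
    omega
  have h1 : ∑ c : ι → ZMod 3, (∏ a, wgt F (c a)) * mo F e c =
      ∏ a, ∑ t : ZMod 3, wgt F t * ((sgn t : ℤ) : F) ^ e a := by
    rw [Finset.prod_univ_sum, Fintype.piFinset_univ]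
    refine Finset.sum_congr rfl fun c _ => ?_
    unfold mo
    rw [← Finset.prod_mul_distrib]
  rw [h1]
  refine Finset.prod_eq_zero (Finset.mem_univ a₀) ?_
  rw [sum_wgt]
  have hs0 : sgn 0 = 0 := by decide
  have hs1 : sgn 1 = 1 := by decide
  have hs2 : sgn 2 = -1 := by decide
  rw [hs0, hs1, hs2]
  interval_cases e a₀
  · push_cast
    ring
  · push_cast
    ring

lemma sum_Dg {ι : Type} [Fintype ι] [DecidableEq ι] {F : Type} [Field F] {D : ℕ}
    (hD : D < 2 * Fintype.card ι) {f : (ι → ZMod 3) → F} (hf : f ∈ Dg F D) :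
    ∑ c : ι → ZMod 3, (∏ a, wgt F (c a)) * f c = 0 := by
  unfold Dg at hf
  induction hf using Submodule.span_induction with
  | mem f hf =>
    obtain ⟨⟨e, he⟩, rfl⟩ := hf
    exact sum_mo e (lt_of_le_of_lt he hD)
  | zero => simp
  | add x x' _ _ h1 h2 =>
    have : ∑ c : ι → ZMod 3, (∏ a, wgt F (c a)) * (x + x') c =
        ∑ c : ι → ZMod 3, (∏ a, wgt F (c a)) * x c +
        ∑ c : ι → ZMod 3, (∏ a, wgt F (c a)) * x' c := by
      rw [← Finset.sum_add_distrib]
      exact Finset.sum_congr rfl fun c _ => by rw [Pi.add_apply, mul_add]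
    rw [this, h1, h2, add_zero]
  | smul r x _ h =>
    have : ∑ c : ι → ZMod 3, (∏ a, wgt F (c a)) * (r • x) c =
        r * ∑ c : ι → ZMod 3, (∏ a, wgt F (c a)) * x c := by
      rw [Finset.mul_sum]
      refine Finset.sum_congr rfl fun c _ => ?_
      rw [Pi.smul_apply, smul_eq_mul]
      ring
    rw [this, h, mul_zero]

/-- The upper bound for odd `p`-groups. -/
theorem upperOdd (p : ℕ) [Fact p.Prime] (hp2 : p ≠ 2) {G : Type} [AddCommGroup G] {κ : Type}
    [Fintype κ] (q : κ → ℕ) (hq : ∀ i, ∃ n, q i = p ^ n) (π : ∀ i, G →+ ZMod (q i))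
    (hπ : ∀ g, (∀ i, π i g = 0) → g = 0) {A : Finset G} (hA : Dissociated A) :
    2 * A.card ≤ ∑ i, (q i - 1) := by
  classical
  set ι := {x // x ∈ A} with hι
  have hcard : Fintype.card ι = A.card := Fintype.card_coe A
  set P : (ι → ZMod 3) → ZMod p := ∏ i, fun c : ι → ZMod 3 =>
    if ∑ a : ι, sgn (c a) • π i a.1 = 0 then (1 : ZMod p) else 0 with hP
  have hPmem : P ∈ Dg (ZMod p) (∑ i, (q i - 1)) :=
    prod_mem_Dg (ZMod p) Finset.univ (fun i => q i - 1) _ fun i _ =>
      cyclic_mem' p (q i) hp2 (hq i) fun a : ι => π i a.1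
  have hP0 : P 0 = 1 := by
    rw [hP, Finset.prod_apply]
    refine Finset.prod_eq_one fun i _ => ?_
    rw [if_pos]
    refine Finset.sum_eq_zero fun a _ => ?_
    rw [Pi.zero_apply, sgn_zero, zero_smul]
  have hPC : ∀ c, c ≠ 0 → P c = 0 := by
    intro c hne
    have h1 : ∑ a : ι, sgn (c a) • a.1 ≠ 0 := fun h => hne (signed_ne hA c h)
    obtain ⟨i, hi⟩ : ∃ i, π i (∑ a : ι, sgn (c a) • a.1) ≠ 0 := by
      by_contra hcon
      push Not at hcon
      exact h1 (hπ _ hcon)
    rw [hP, Finset.prod_apply]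
    refine Finset.prod_eq_zero (Finset.mem_univ i) ?_
    rw [if_neg]
    intro h
    apply hi
    rw [map_sum, ← h]
    exact Finset.sum_congr rfl fun a _ => map_zsmul _ _ _
  by_contra hcon
  push Not at hcon
  rw [← hcard] at hcon
  have h2 := sum_Dg hcon hPmem
  rw [Finset.sum_eq_single (0 : ι → ZMod 3)] at h2
  · rw [hP0, mul_one] at h2
    have h3 : ∀ a : ι, wgt (ZMod p) ((0 : ι → ZMod 3) a) = -2 := fun a => by
      unfold wgt
      rw [Pi.zero_apply, if_pos rfl]
    rw [Finset.prod_congr rfl fun a _ => h3 a, Finset.prod_const] at h2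
    have h4 : (-2 : ZMod p) = 0 := by
      by_contra h5
      exact pow_ne_zero _ h5 h2
    have h5 : ((2 : ℕ) : ZMod p) = 0 := by
      have : (2 : ZMod p) = 0 := by linear_combination -h4
      exact_mod_cast this
    rw [ZMod.natCast_eq_zero_iff] at h5
    exact hp2 ((Nat.prime_dvd_prime_iff_eq Fact.out Nat.prime_two).mp h5)
  · intro c _ hc
    rw [hPC c hc, mul_zero]
  · intro h
    exact absurd (Finset.mem_univ _) h

end Pool.Agent.Results.MP_3a3582_co.OddP
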