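import Pool.Agent.Helper934.TT3

open Finset
open Pool.Agent.Results.MP_3a3582_co.BoundedRank

namespace Pool.Agent.Results.MP_3a3582_co.ThreeTwo

lemma tau_le_of_equiv {G G' : Type} [AddCommGroup G] [Fintype G] [AddCommGroup G'] [Fintype G']
    (e : G ≃+ G') : tau G ≤ tau G' := by
  classical
  obtain ⟨A, hA, hc⟩ := exists_tau (G := G)
  rw [← hc, ← Fintype.card_coe A]
  refine card_le_tau_of_injective (fun a : {x // x ∈ A} => e a.1) ?_
  intro S T h
  simp only at h
  rw [← map_sum, ← map_sum] at h
  have h1 := e.injective h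
  have h2 := hA.inj (S := S.map (Function.Embedding.subtype _))
    (T := T.map (Function.Embedding.subtype _))
    (by
      intro x hx
      obtain ⟨a, -, rfl⟩ := Finset.mem_map.mp hx
      exact a.2)
    (by
      intro x hx
      obtain ⟨a, -, rfl⟩ := Finset.mem_map.mp hx
      exact a.2)
    (by
      rw [Finset.sum_map, Finset.sum_map]
      exact h1)
  exact Finset.map_injective _ h2

lemma tau_eq_of_equiv {G G' : Type} [AddCommGroup G] [Fintype G] [AddCommGroup G'] [Fintype G']
    (e : G ≃+ G') : tau G = tau G' :=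
  le_antisymm (tau_le_of_equiv e) (tau_le_of_equiv e.symm)

theorem exact32 (r : ℕ) :
    IsGreatest {t : ℕ | 3 ^ (t - r) ≤ 2 * t + 1} (tau ((Fin r → ZMod 3) × ZMod 2)) := by
  constructor
  · have he := tau_eq_of_equiv (AddEquiv.prodCongr (AddEquiv.refl (Fin r → ZMod 3))
      (LinearEquiv.funUnique (Fin 1) ℤ (ZMod 2)).toAddEquiv.symm)
    rw [he]
    obtain ⟨A, hA, hc⟩ := exists_tau (G := (Fin r → ZMod 3) × (Fin 1 → ZMod 2))
    have : Fact (Nat.Prime 2) := ⟨Nat.prime_two⟩
    have h := upper 2 (by norm_num) r 1 hA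
    rw [hc] at h
    simp only [Set.mem_ofPred_eq]
    simpa [Finset.sum_range_succ, mul_comm, add_comm] using h
  · intro t ht
    simp only [Set.mem_ofPred_eq] at ht
    rcases le_or_gt t r with h | h
    · exact h.trans (by simpa using lower32 r 0 (by simp))
    · have := lower32 r (t - r) (by
        rw [Nat.add_sub_cancel' h.le]
        exact ht)
      rwa [Nat.add_sub_cancel' h.le] at this

end Pool.Agent.Results.MP_3a3582_co.ThreeTwo
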