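import Pool.Agent.Helper934.OD2
import Pool.Agent.Helper934.TT4

open Finset
open Pool.Agent.Results.MP_3a3582_co.BoundedRank

namespace Pool.Agent.Results.MP_3a3582_co.OddP

/-- Seven elements of `ℤ₃³ × ℤ₉`: first part. -/
def bu : Fin 7 → ZMod 3 × ZMod 3 × ZMod 3 :=
  ![(0, 0, 1), (0, 1, 0), (0, 0, 0), (1, 0, 0), (1, 0, 1), (1, 2, 2), (0, 2, 1)]

/-- Seven elements of `ℤ₃³ × ℤ₉`: second part. -/
def bw : Fin 7 → ZMod 9 := ![8, 7, 1, 1, 5, 2, 4]

lemma base_inj : ∀ S T : Finset (Fin 7), ∑ a ∈ S, bu a = ∑ a ∈ T, bu a →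
    ∑ a ∈ S, bw a = ∑ a ∈ T, bw a → S = T := by
  decide +kernel

/-- The coordinates of `bu`. -/
def bc (a : Fin 7) (b : Fin 3) : ZMod 3 := ![(bu a).1, (bu a).2.1, (bu a).2.2] b

lemma base_inj' (S T : Finset (Fin 7)) (h : ∀ b, ∑ a ∈ S, bc a b = ∑ a ∈ T, bc a b)
    (h' : ∑ a ∈ S, bw a = ∑ a ∈ T, bw a) : S = T := by
  refine base_inj S T ?_ h'
  have h0 := h 0
  have h1 := h 1
  have h2 := h 2
  simp only [bc, Matrix.cons_val_zero, Matrix.cons_val_one, Matrix.cons_val] at h0 h1 h2
  refine Prod.ext ?_ (Prod.ext ?_ ?_)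
  · rw [Prod.fst_sum, Prod.fst_sum]
    exact h0
  · rw [Prod.snd_sum, Prod.snd_sum, Prod.fst_sum, Prod.fst_sum]
    exact h1
  · rw [Prod.snd_sum, Prod.snd_sum, Prod.snd_sum, Prod.snd_sum]
    exact h2

/-- The index set of the big dissociated set. -/
abbrev Ix (s m : ℕ) : Type := (Fin s × Fin 7) ⊕ Fin m

lemma sum_split {s m : ℕ} {M : Type} [AddCommMonoid M] (S : Finset (Ix s m)) (g : Ix s m → M) :
    ∑ x ∈ S, g x = ∑ i, ∑ a, (if Sum.inl (i, a) ∈ S then g (Sum.inl (i, a)) else 0) +
      ∑ j, (if Sum.inr j ∈ S then g (Sum.inr j) else 0) := by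
  classical
  have h : ∑ x ∈ S, g x = ∑ x, if x ∈ S then g x else 0 := by
    rw [Finset.sum_ite_mem, Finset.univ_inter]
  rw [h, Fintype.sum_sum_type, Fintype.sum_prod_type]

/-- The elements. -/
def el (s m : ℕ) : Ix s m → (((Fin s × Fin 3) ⊕ Fin m → ZMod 3) × (Fin s → ZMod 9))
  | Sum.inl (i, a) => (Sum.elim (fun x => if x.1 = i then bc a x.2 else 0) (fun _ => 0),
      fun i' => if i' = i then bw a else 0)
  | Sum.inr j => (Sum.elim (fun _ => 0) (fun j' => if j' = j then 1 else 0), fun _ => 0)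

lemma lower9 (s m : ℕ) : 7 * s + m ≤
    tau (((Fin s × Fin 3) ⊕ Fin m → ZMod 3) × (Fin s → ZMod 9)) := by
  classical
  have h := card_le_tau_of_injective (el s m) ?_
  · rw [Fintype.card_sum, Fintype.card_prod, Fintype.card_fin, Fintype.card_fin,
      Fintype.card_fin] at h
    omega
  intro S T hST
  simp only at hST
  have h1 := congrArg Prod.fst hST
  have h2 := congrArg Prod.snd hST
  rw [Prod.fst_sum, Prod.fst_sum] at h1
  rw [Prod.snd_sum, Prod.snd_sum] at h2
  -- the blocks
  have hblock : ∀ i : Fin s, (Finset.univ.filter fun a : Fin 7 => (Sum.inl (i, a) : Ix s m) ∈ S) =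
      Finset.univ.filter fun a : Fin 7 => (Sum.inl (i, a) : Ix s m) ∈ T := by
    intro i
    refine base_inj' _ _ ?_ ?_
    · intro b
      have h3 := congrFun h1 (Sum.inl (i, b))
      have e : ∀ U : Finset (Ix s m), (∑ x ∈ U, (el s m x).1) (Sum.inl (i, b)) =
          ∑ a ∈ Finset.univ.filter (fun a : Fin 7 => (Sum.inl (i, a) : Ix s m) ∈ U), bc a b := by
        intro U
        rw [Finset.sum_apply, sum_split U]
        have z : ∑ j : Fin m, (if (Sum.inr j : Ix s m) ∈ U then
            (el s m (Sum.inr j)).1 (Sum.inl (i, b)) else 0) = 0 :=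
          Finset.sum_eq_zero fun j _ => by simp [el]
        rw [z, add_zero, Finset.sum_eq_single i]
        · rw [Finset.sum_filter]
          refine Finset.sum_congr rfl fun a _ => ?_
          simp [el]
        · intro i' _ hi'
          refine Finset.sum_eq_zero fun a _ => ?_
          simp [el, Ne.symm hi']
        · intro hh
          exact absurd (Finset.mem_univ _) hh
      rw [e, e] at h3
      exact h3
    · have h3 := congrFun h2 i
      have e : ∀ U : Finset (Ix s m), (∑ x ∈ U, (el s m x).2) i =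
          ∑ a ∈ Finset.univ.filter (fun a : Fin 7 => (Sum.inl (i, a) : Ix s m) ∈ U), bw a := by
        intro U
        rw [Finset.sum_apply, sum_split U]
        have z : ∑ j : Fin m, (if (Sum.inr j : Ix s m) ∈ U then
            (el s m (Sum.inr j)).2 i else 0) = 0 :=
          Finset.sum_eq_zero fun j _ => by simp [el]
        rw [z, add_zero, Finset.sum_eq_single i]
        · rw [Finset.sum_filter]
          refine Finset.sum_congr rfl fun a _ => ?_
          simp [el]
        · intro i' _ hi'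
          refine Finset.sum_eq_zero fun a _ => ?_
          simp [el, Ne.symm hi']
        · intro hh
          exact absurd (Finset.mem_univ _) hh
      rw [e, e] at h3
      exact h3
  have htail : ∀ j : Fin m, ((Sum.inr j : Ix s m) ∈ S ↔ (Sum.inr j : Ix s m) ∈ T) := by
    intro j
    have h3 := congrFun h1 (Sum.inr j)
    have e : ∀ U : Finset (Ix s m), (∑ x ∈ U, (el s m x).1) (Sum.inr j) =
        if (Sum.inr j : Ix s m) ∈ U then 1 else 0 := by
      intro U
      rw [Finset.sum_apply, sum_split U]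
      have z : ∑ i : Fin s, ∑ a : Fin 7, (if (Sum.inl (i, a) : Ix s m) ∈ U then
          (el s m (Sum.inl (i, a))).1 (Sum.inr j) else 0) = 0 :=
        Finset.sum_eq_zero fun i _ => Finset.sum_eq_zero fun a _ => by simp [el]
      rw [z, zero_add, Finset.sum_eq_single j]
      · simp [el]
      · intro j' _ hj'
        simp [el, Ne.symm hj']
      · intro hh
        exact absurd (Finset.mem_univ _) hh
    rw [e, e] at h3
    by_cases hS : (Sum.inr j : Ix s m) ∈ S <;> by_cases hT : (Sum.inr j : Ix s m) ∈ T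
    · exact ⟨fun _ => hT, fun _ => hS⟩
    · rw [if_pos hS, if_neg hT] at h3
      exact absurd h3 (by decide)
    · rw [if_neg hS, if_pos hT] at h3
      exact absurd h3 (by decide)
    · exact ⟨fun h => absurd h hS, fun h => absurd h hT⟩
  ext x
  rcases x with ⟨i, a⟩ | j
  · have h3 := hblock i
    have h4 : a ∈ (Finset.univ.filter fun a : Fin 7 => (Sum.inl (i, a) : Ix s m) ∈ S) ↔
        a ∈ Finset.univ.filter fun a : Fin 7 => (Sum.inl (i, a) : Ix s m) ∈ T := by rw [h3]
    simpa using h4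
  · exact htail j

/-- The value for `ℤ₃ʳ × ℤ₉ˢ`, `r ≥ 3 s`. -/
theorem exact39 (r s : ℕ) (h : 3 * s ≤ r) :
    tau ((Fin r → ZMod 3) × (Fin s → ZMod 9)) = r + 4 * s := by
  apply le_antisymm
  · obtain ⟨A, hA, hc⟩ := exists_tau (G := (Fin r → ZMod 3) × (Fin s → ZMod 9))
    have : Fact (Nat.Prime 3) := ⟨Nat.prime_three⟩
    have h1 := upperOdd 3 (by norm_num) (κ := Fin r ⊕ Fin s)
      (Sum.elim (fun _ => 3) (fun _ => 9))
      (by
        rintro (i | i)
        · exact ⟨1, rfl⟩
        · exact ⟨2, rfl⟩)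
      (fun i => match i with
        | Sum.inl i => (Pi.evalAddMonoidHom (fun _ : Fin r => ZMod 3) i).comp
            (AddMonoidHom.fst (Fin r → ZMod 3) (Fin s → ZMod 9))
        | Sum.inr i => (Pi.evalAddMonoidHom (fun _ : Fin s => ZMod 9) i).comp
            (AddMonoidHom.snd (Fin r → ZMod 3) (Fin s → ZMod 9)))
      (by
        intro g hg
        refine Prod.ext ?_ ?_
        · funext i
          exact hg (Sum.inl i)
        · funext i
          exact hg (Sum.inr i)) hA
    rw [hc, Fintype.sum_sum_type] at h1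
    simp at h1
    omega
  · have e1 : Fin r ≃ (Fin s × Fin 3) ⊕ Fin (r - 3 * s) := by
      refine Fintype.equivOfCardEq ?_
      rw [Fintype.card_sum, Fintype.card_prod, Fintype.card_fin, Fintype.card_fin,
        Fintype.card_fin, Fintype.card_fin]
      omega
    have h2 := ThreeTwo.tau_eq_of_equiv (AddEquiv.prodCongr
      (AddEquiv.arrowCongr e1 (AddEquiv.refl (ZMod 3))) (AddEquiv.refl (Fin s → ZMod 9)))
    rw [h2]
    have h3 := lower9 s (r - 3 * s)
    omega

end Pool.Agent.Results.MP_3a3582_co.OddP
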