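import Pool.Agent.Helper934.TT2

open Finset
open Pool.Agent.Results.MP_3a3582_co.BoundedRank
open Pool.Agent.Results.MP_3a3582_co.ThreeTwo

namespace Pool.Agent.Results.MP_3a3582_co.PGroup

section monomials
variable {ι : Type} [Fintype ι] [DecidableEq ι] (B : Type) [CommRing B]

/-- Indicator monomials. -/
def mon (y : ι → ZMod 3) : (ι → ZMod 3) → B := fun c =>
  ∏ a, if y a = 0 then 1 else if c a = y a then 1 else 0

/-- The span of the monomials of weight at most `s`. -/
def V (s : ℕ) : Submodule B ((ι → ZMod 3) → B) :=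
  Submodule.span B (Set.range fun y : {y : ι → ZMod 3 // wt y ≤ s} => mon B y.1)

lemma mon_mem {s : ℕ} {y : ι → ZMod 3} (hy : wt y ≤ s) : mon B y ∈ V B s :=
  Submodule.subset_span ⟨⟨y, hy⟩, rfl⟩

lemma mon_zero : mon B (0 : ι → ZMod 3) = 1 := by
  funext c
  unfold mon
  simp

lemma one_mem_V (s : ℕ) : (1 : (ι → ZMod 3) → B) ∈ V B s := by
  rw [← mon_zero]
  exact mon_mem B (by rw [wt_zero]; exact Nat.zero_le _)

lemma V_mono {s t : ℕ} (h : s ≤ t) : V (ι := ι) B s ≤ V B t := by
  unfold V
  rw [Submodule.span_le]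
  rintro _ ⟨⟨y, hy⟩, rfl⟩
  exact mon_mem B (hy.trans h)

lemma mon_mul {s t : ℕ} {y z : ι → ZMod 3} (hy : wt y ≤ s) (hz : wt z ≤ t) :
    mon B y * mon B z ∈ V B (s + t) := by
  by_cases hcon : ∃ a, y a ≠ 0 ∧ z a ≠ 0 ∧ y a ≠ z a
  · obtain ⟨a, h1, h2, h3⟩ := hcon
    have : mon B y * mon B z = 0 := by
      funext c
      rw [Pi.mul_apply, Pi.zero_apply]
      unfold mon
      rw [← Finset.prod_mul_distrib]
      refine Finset.prod_eq_zero (Finset.mem_univ a) ?_
      rw [if_neg h1, if_neg h2]
      by_cases hc : c a = y a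
      · rw [if_pos hc, if_neg (by rw [hc]; exact h3), mul_zero]
      · rw [if_neg hc, zero_mul]
    rw [this]
    exact Submodule.zero_mem _
  · push Not at hcon
    have : mon B y * mon B z = mon B (fun a => if y a = 0 then z a else y a) := by
      funext c
      rw [Pi.mul_apply]
      unfold mon
      rw [← Finset.prod_mul_distrib]
      refine Finset.prod_congr rfl fun a _ => ?_
      by_cases h1 : y a = 0
      · simp [h1]
      · by_cases h2 : z a = 0
        · simp [h1, h2]
        · have h3 := hcon a h1 h2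
          by_cases h4 : c a = y a
          · simp [h1, h4, ← h3]
          · simp [h1, h4]
    rw [this]
    refine mon_mem B (le_trans ?_ (Nat.add_le_add hy hz))
    unfold wt
    refine (Finset.card_le_card ?_).trans (Finset.card_union_le _ _)
    intro a ha
    rw [Finset.mem_union, Finset.mem_filter, Finset.mem_filter]
    have h1 : (if y a = 0 then z a else y a) ≠ 0 := (Finset.mem_filter.mp ha).2
    by_cases h2 : y a = 0
    · right
      rw [if_pos h2] at h1
      exact ⟨Finset.mem_univ _, h1⟩
    · left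
      exact ⟨Finset.mem_univ _, h2⟩

lemma mul_mem_V {s t : ℕ} {f g : (ι → ZMod 3) → B} (hf : f ∈ V B s) (hg : g ∈ V B t) :
    f * g ∈ V B (s + t) := by
  unfold V at hf
  induction hf using Submodule.span_induction with
  | mem f hf =>
    obtain ⟨⟨y, hy⟩, rfl⟩ := hf
    unfold V at hg
    induction hg using Submodule.span_induction with
    | mem g hg =>
      obtain ⟨⟨z, hz⟩, rfl⟩ := hg
      exact mon_mul B hy hz
    | zero =>
      rw [mul_zero]
      exact Submodule.zero_mem _
    | add x x' _ _ h1 h2 =>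
      rw [mul_add]
      exact Submodule.add_mem _ h1 h2
    | smul r x _ h =>
      rw [mul_smul_comm]
      exact Submodule.smul_mem _ _ h
  | zero =>
    rw [zero_mul]
    exact Submodule.zero_mem _
  | add x x' _ _ h1 h2 =>
    rw [add_mul]
    exact Submodule.add_mem _ h1 h2
  | smul r x _ h =>
    rw [smul_mul_assoc]
    exact Submodule.smul_mem _ _ h

lemma prod_mem_V {κ : Type} [DecidableEq κ] (J : Finset κ) (m : κ → ℕ)
    (f : κ → (ι → ZMod 3) → B) (hf : ∀ a ∈ J, f a ∈ V B (m a)) :
    ∏ a ∈ J, f a ∈ V B (∑ a ∈ J, m a) := by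
  induction J using Finset.induction_on with
  | empty =>
    rw [Finset.prod_empty]
    exact one_mem_V B _
  | insert a J ha ih =>
    rw [Finset.prod_insert ha, Finset.sum_insert ha]
    exact mul_mem_V B (hf a (Finset.mem_insert_self _ _))
      (ih fun b hb => hf b (Finset.mem_insert_of_mem hb))

lemma coord_mem_V (a : ι) (g : ZMod 3 → B) : (fun c : ι → ZMod 3 => g (c a)) ∈ V B 1 := by
  have hm : ∀ t : ZMod 3, t ≠ 0 → ∀ c : ι → ZMod 3,
      mon B (Pi.single a t) c = if c a = t then 1 else 0 := by
    intro t ht c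
    unfold mon
    rw [Finset.prod_eq_single a]
    · rw [Pi.single_eq_same, if_neg ht]
    · intro b _ hb
      rw [Pi.single_eq_of_ne hb, if_pos rfl]
    · intro h
      exact absurd (Finset.mem_univ _) h
  have key : (fun c : ι → ZMod 3 => g (c a)) =
      g 0 • (1 : (ι → ZMod 3) → B) + (g 1 - g 0) • mon B (Pi.single a 1) +
      (g 2 - g 0) • mon B (Pi.single a 2) := by
    funext c
    simp only [Pi.add_apply, Pi.smul_apply, Pi.one_apply, smul_eq_mul]
    rw [hm 1 (by decide), hm 2 (by decide)]
    have ht : c a = 0 ∨ c a = 1 ∨ c a = 2 := by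
      have : ∀ t : ZMod 3, t = 0 ∨ t = 1 ∨ t = 2 := by decide
      exact this _
    have h01 : (0 : ZMod 3) ≠ 1 := by decide
    have h02 : (0 : ZMod 3) ≠ 2 := by decide
    have h12 : (1 : ZMod 3) ≠ 2 := by decide
    rcases ht with h | h | h
    · rw [h, if_neg h01, if_neg h02]
      ring
    · rw [h, if_pos rfl, if_neg h12]
      ring
    · rw [h, if_neg h12.symm, if_pos rfl]
      ring
  rw [key]
  refine Submodule.add_mem _ (Submodule.add_mem _ ?_ ?_) ?_
  · exact Submodule.smul_mem _ _ (one_mem_V B 1)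
  · exact Submodule.smul_mem _ _ (mon_mem B (wt_single a 1))
  · exact Submodule.smul_mem _ _ (mon_mem B (wt_single a 2))

/-- Translation invariance. -/
lemma translate_mem {s : ℕ} {P : (ι → ZMod 3) → B} (hP : P ∈ V B s) (c₀ : ι → ZMod 3) :
    (fun c => P (c - c₀)) ∈ V B s := by
  unfold V at hP
  induction hP using Submodule.span_induction with
  | mem P hP =>
    obtain ⟨⟨y, hy⟩, rfl⟩ := hP
    have h1 : (fun c : ι → ZMod 3 => mon B y (c - c₀)) =
        ∏ a ∈ Finset.univ.filter (fun a => y a ≠ 0), fun c : ι → ZMod 3 =>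
          (fun t : ZMod 3 => if t - c₀ a = y a then (1 : B) else 0) (c a) := by
      funext c
      rw [Finset.prod_apply, Finset.prod_filter]
      unfold mon
      refine Finset.prod_congr rfl fun a _ => ?_
      by_cases h : y a = 0
      · rw [if_pos h, if_neg (not_not.mpr h)]
      · rw [if_neg h, if_pos h, Pi.sub_apply]
    simp only
    rw [h1]
    refine V_mono B hy ?_
    have h2 : wt y = ∑ a ∈ Finset.univ.filter (fun a => y a ≠ 0), 1 := by
      unfold wt
      rw [Finset.card_eq_sum_ones]
    rw [h2]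
    exact prod_mem_V B _ (fun _ => 1) _ fun a _ =>
      coord_mem_V B a fun t : ZMod 3 => if t - c₀ a = y a then (1 : B) else 0
  | zero => exact Submodule.zero_mem _
  | add x x' _ _ h1 h2 => exact Submodule.add_mem _ h1 h2
  | smul r x _ h => exact Submodule.smul_mem _ r h

end monomials

/-- If a function spanned by monomials of weight at most `s` is the indicator of `0` on the
subgroup `C`, then `C` has at most as many elements as the Hamming ball of radius `s`. -/
lemma card_le_ball' {ι : Type} [Fintype ι] [DecidableEq ι] (F : Type) [Field F] (s : ℕ)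
    (C : AddSubgroup (ι → ZMod 3)) (P : (ι → ZMod 3) → F) (hP : P ∈ V F s) (h0 : P 0 = 1)
    (hC : ∀ c ∈ C, c ≠ 0 → P c = 0) :
    Nat.card C ≤ Nat.card {y : ι → ZMod 3 // wt y ≤ s} := by
  classical
  have : Fintype C := Fintype.ofFinite _
  set res : ((ι → ZMod 3) → F) →ₗ[F] (C → F) := LinearMap.funLeft F F Subtype.val with hres
  set U : Submodule F (C → F) := (V F s).map res with hU
  have hmem : ∀ c₀ : C, (Pi.single c₀ (1 : F) : C → F) ∈ U := by
    intro c₀
    refine ⟨fun c => P (c - c₀.1), translate_mem F hP c₀.1, ?_⟩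
    funext c
    show P (c.1 - c₀.1) = _
    by_cases hcc : c = c₀
    · rw [hcc, Pi.single_eq_same, sub_self, h0]
    · rw [Pi.single_eq_of_ne hcc, hC]
      · exact C.sub_mem c.2 c₀.2
      · intro h
        apply hcc
        apply Subtype.ext
        rwa [sub_eq_zero] at h
  have htop : U = ⊤ := by
    rw [eq_top_iff]
    intro f _
    have : f = ∑ c : C, f c • (Pi.single c (1 : F) : C → F) := by
      funext c
      rw [Finset.sum_apply, Finset.sum_eq_single c]
      · rw [Pi.smul_apply, Pi.single_eq_same, smul_eq_mul, mul_one]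
      · intro b _ hb
        rw [Pi.smul_apply, Pi.single_eq_of_ne (Ne.symm hb), smul_zero]
      · intro h
        exact absurd (Finset.mem_univ _) h
    rw [this]
    exact Submodule.sum_mem _ fun c _ => Submodule.smul_mem _ _ (hmem c)
  have h1 : Module.finrank F (V (ι := ι) F s) ≤ Fintype.card {y : ι → ZMod 3 // wt y ≤ s} :=
    finrank_range_le_card _
  have h2 : Module.finrank F U ≤ Module.finrank F (V (ι := ι) F s) :=
    Submodule.finrank_map_le _ _
  rw [htop, finrank_top, Module.finrank_pi] at h2
  rw [Nat.card_eq_fintype_card, Nat.card_eq_fintype_card]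
  exact h2.trans h1

end Pool.Agent.Results.MP_3a3582_co.PGroup
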