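import Pool.Agent.Helper934.PG1

open Finset
open Pool.Agent.Results.MP_3a3582_co.BoundedRank
open Pool.Agent.Results.MP_3a3582_co.ThreeTwo

namespace Pool.Agent.Results.MP_3a3582_co.PGroup

section functional
variable {ι : Type} [Fintype ι] [DecidableEq ι] {F B : Type} [Field F] [CommRing B] [Algebra F B]

lemma functional_mem (Λ : B →ₗ[F] F) {s : ℕ} {Q : (ι → ZMod 3) → B} (hQ : Q ∈ V B s) (b : B) :
    (fun c => Λ (b * Q c)) ∈ V F s := by
  unfold V at hQ
  induction hQ using Submodule.span_induction generalizing b with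
  | mem Q hQ =>
    obtain ⟨⟨y, hy⟩, rfl⟩ := hQ
    have h1 : ∀ c : ι → ZMod 3, mon B y c = algebraMap F B (mon F y c) := by
      intro c
      unfold mon
      rw [map_prod]
      refine Finset.prod_congr rfl fun a _ => ?_
      split_ifs <;> simp
    have h2 : (fun c : ι → ZMod 3 => Λ (b * mon B y c)) = Λ b • mon F y := by
      funext c
      rw [h1, Pi.smul_apply, smul_eq_mul, mul_comm b, ← Algebra.smul_def, map_smul, smul_eq_mul,
        mul_comm]
    simp only
    rw [h2]
    exact Submodule.smul_mem _ _ (mon_mem F hy)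
  | zero =>
    have : (fun c : ι → ZMod 3 => Λ (b * (0 : (ι → ZMod 3) → B) c)) = 0 := by
      funext c
      simp
    rw [this]
    exact Submodule.zero_mem _
  | add x x' _ _ h1 h2 =>
    have : (fun c : ι → ZMod 3 => Λ (b * (x + x') c)) =
        (fun c => Λ (b * x c)) + fun c => Λ (b * x' c) := by
      funext c
      rw [Pi.add_apply, Pi.add_apply, mul_add, map_add]
    rw [this]
    exact Submodule.add_mem _ (h1 b) (h2 b)
  | smul r x _ h =>
    have : (fun c : ι → ZMod 3 => Λ (b * (r • x) c)) = fun c => Λ ((b * r) * x c) := by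
      funext c
      rw [Pi.smul_apply, smul_eq_mul, mul_assoc]
    rw [this]
    exact h (b * r)

end functional

/-- The indicator of the vanishing of a signed sum in a cyclic `p`-group of order `q`. -/
lemma cyclic_mem {ι : Type} [Fintype ι] [DecidableEq ι] (p n : ℕ) [Fact p.Prime]
    (κ : ι → ZMod (p ^ n)) :
    (fun c : ι → ZMod 3 => if ∑ a, sgn (c a) • κ a = 0 then (1 : ZMod p) else 0) ∈
      V (ZMod p) (p ^ n - 1) := by
  classical
  have hq : NeZero (p ^ n) := ⟨pow_ne_zero _ (Fact.out (p := p.Prime)).ne_zero⟩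
  set B := AddMonoidAlgebra (ZMod p) (ZMod (p ^ n)) with hB
  set x : B := AddMonoidAlgebra.single (1 : ZMod (p ^ n)) (1 : ZMod p) with hx
  have hxg : ∀ g : ZMod (p ^ n), (AddMonoidAlgebra.single g (1 : ZMod p) : B) = x ^ g.val := by
    intro g
    rw [hx, AddMonoidAlgebra.single_pow, one_pow]
    congr 1
    rw [nsmul_eq_mul, mul_one, ZMod.natCast_zmod_val]
  have hdvd : ∀ g : ZMod (p ^ n), ∃ h : B, AddMonoidAlgebra.single g (1 : ZMod p) =
      1 + (x - 1) * h := by
    intro g
    have h1 := sub_dvd_pow_sub_pow x 1 g.val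
    rw [one_pow] at h1
    obtain ⟨h, hh⟩ := h1
    refine ⟨h, ?_⟩
    rw [hxg, ← hh]
    ring
  choose H hH using hdvd
  have hchar : CharP B p :=
    charP_of_injective_algebraMap (FaithfulSMul.algebraMap_injective (ZMod p) B) p
  have hnil : (x - 1) ^ (p ^ n) = 0 := by
    rw [sub_pow_char_pow, one_pow, hx, AddMonoidAlgebra.single_pow, one_pow, nsmul_eq_mul, mul_one,
      ZMod.natCast_self]
    exact sub_self _
  -- the product
  set Q : (ι → ZMod 3) → B := fun c => ∏ a, (1 + (x - 1) * H (sgn (c a) • κ a)) with hQ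
  have hQmem : Q ∈ V B (p ^ n - 1) := by
    have h1 : Q = ∑ J ∈ (Finset.univ : Finset ι).powerset,
        ∏ a ∈ J, fun c : ι → ZMod 3 => (x - 1) * H (sgn (c a) • κ a) := by
      funext c
      rw [Finset.sum_apply, hQ]
      simp only
      rw [Finset.prod_one_add]
      refine Finset.sum_congr rfl fun J _ => ?_
      rw [Finset.prod_apply]
    rw [h1]
    refine Submodule.sum_mem _ fun J _ => ?_
    rcases le_or_gt (p ^ n) J.card with hJ | hJ
    · have : (∏ a ∈ J, fun c : ι → ZMod 3 => (x - 1) * H (sgn (c a) • κ a)) = 0 := by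
        funext c
        rw [Finset.prod_apply, Finset.prod_mul_distrib, Finset.prod_const, Pi.zero_apply,
          ← Nat.add_sub_cancel' hJ, pow_add, hnil, zero_mul, zero_mul]
      rw [this]
      exact Submodule.zero_mem _
    · have h2 := prod_mem_V B J (fun _ => 1)
        (fun a => fun c : ι → ZMod 3 => (x - 1) * H (sgn (c a) • κ a)) (fun a _ =>
          coord_mem_V B a fun t => (x - 1) * H (sgn t • κ a))
      refine V_mono B ?_ h2
      rw [Finset.sum_const, smul_eq_mul, mul_one]
      omega
  -- the functional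
  have hQval : ∀ c, Q c = AddMonoidAlgebra.single (∑ a, sgn (c a) • κ a) (1 : ZMod p) := by
    intro c
    rw [hQ]
    simp only
    have h1 : ∀ S : Finset ι, ∏ a ∈ S, (1 + (x - 1) * H (sgn (c a) • κ a)) =
        (AddMonoidAlgebra.single (∑ a ∈ S, sgn (c a) • κ a) (1 : ZMod p) : B) := by
      intro S
      induction S using Finset.induction_on with
      | empty =>
        rw [Finset.prod_empty, Finset.sum_empty]
        rfl
      | insert a S ha ih =>
        rw [Finset.prod_insert ha, Finset.sum_insert ha, ih, ← hH,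
          AddMonoidAlgebra.single_mul_single, mul_one]
    exact h1 Finset.univ
  set Λ : B →ₗ[ZMod p] ZMod p :=
    { toFun := fun f => f.coeff 0
      map_add' := fun f g => rfl
      map_smul' := fun r f => rfl } with hΛ
  have h3 := functional_mem Λ hQmem 1
  have h4 : (fun c : ι → ZMod 3 => Λ (1 * Q c)) =
      fun c : ι → ZMod 3 => if ∑ a, sgn (c a) • κ a = 0 then (1 : ZMod p) else 0 := by
    funext c
    rw [one_mul, hQval]
    show (AddMonoidAlgebra.single (∑ a, sgn (c a) • κ a) (1 : ZMod p) : B).coeff 0 = _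
    simp [Finsupp.single_apply]
  rwa [h4] at h3

end Pool.Agent.Results.MP_3a3582_co.PGroup
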