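import Pool.Agent.Helper934.PG2

open Finset
open Pool.Agent.Results.MP_3a3582_co.BoundedRank
open Pool.Agent.Results.MP_3a3582_co.ThreeTwo

namespace Pool.Agent.Results.MP_3a3582_co.PGroup

theorem upperK (p : ℕ) [Fact p.Prime] (r s : ℕ) (e : Fin s → ℕ)
    {A : Finset ((Fin r → ZMod 3) × (∀ i, ZMod (p ^ e i)))} (hA : Dissociated A) :
    3 ^ (A.card - r) ≤ ∑ j ∈ Finset.range (∑ i, (p ^ e i - 1) + 1), A.card.choose j * 2 ^ j := by
  classical
  set ι := {x // x ∈ A} with hι
  have hcard : Fintype.card ι = A.card := Fintype.card_coe A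
  -- relations
  set T : (ι → ZMod 3) →+ (Fin r → ZMod 3) :=
    { toFun := fun c i => ∑ a, c a * a.1.1 i
      map_zero' := by
        funext i
        simp
      map_add' := fun c d => by
        funext i
        rw [Pi.add_apply, ← Finset.sum_add_distrib]
        exact Finset.sum_congr rfl fun a _ => by rw [Pi.add_apply, add_mul] } with hT
  set P : (ι → ZMod 3) → ZMod p := ∏ i, fun c : ι → ZMod 3 =>
    if ∑ a : ι, sgn (c a) • a.1.2 i = 0 then (1 : ZMod p) else 0 with hP
  have hPmem : P ∈ V (ZMod p) (∑ i, (p ^ e i - 1)) := by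
    refine prod_mem_V (ZMod p) Finset.univ (fun i => p ^ e i - 1) _ fun i _ => ?_
    exact cyclic_mem p (e i) fun a : ι => a.1.2 i
  have hP0 : P 0 = 1 := by
    rw [hP, Finset.prod_apply]
    refine Finset.prod_eq_one fun i _ => ?_
    rw [if_pos]
    refine Finset.sum_eq_zero fun a _ => ?_
    rw [Pi.zero_apply, sgn_zero, zero_smul]
  have hPC : ∀ c ∈ T.ker, c ≠ 0 → P c = 0 := by
    intro c hc hne
    have h1 : ∑ a : ι, sgn (c a) • a.1 ≠ 0 := fun h => hne (signed_ne hA c h)
    have h2 : (∑ a : ι, sgn (c a) • a.1).1 = 0 := by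
      rw [Prod.fst_sum]
      funext i
      rw [Finset.sum_apply]
      have h3 : T c i = 0 := by
        have : T c = 0 := hc
        rw [this]
        rfl
      rw [Pi.zero_apply, ← h3]
      refine Finset.sum_congr rfl fun a _ => ?_
      rw [Prod.smul_fst, Pi.smul_apply, zsmul_eq_mul, sgn_cast]
    have h4 : (∑ a : ι, sgn (c a) • a.1).2 ≠ 0 := by
      intro h
      exact h1 (Prod.ext h2 h)
    obtain ⟨i, hi⟩ := Function.ne_iff.mp h4
    rw [hP, Finset.prod_apply]
    refine Finset.prod_eq_zero (Finset.mem_univ i) ?_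
    rw [if_neg]
    intro h
    apply hi
    rw [Prod.snd_sum, Finset.sum_apply, Pi.zero_apply, ← h]
    rfl
  have hball := card_le_ball' (ZMod p) (∑ i, (p ^ e i - 1)) T.ker P hPmem hP0 hPC
  rw [ball_card, hcard] at hball
  refine le_trans ?_ hball
  -- the size of the kernel
  have hV : Nat.card (ι → ZMod 3) = 3 ^ A.card := by
    rw [Nat.card_eq_fintype_card, Fintype.card_fun, ZMod.card, hcard]
  have hker : Nat.card (ι → ZMod 3) = Nat.card ((ι → ZMod 3) ⧸ T.ker) * Nat.card T.ker :=
    AddSubgroup.card_eq_card_quotient_mul_card_addSubgroup _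
  have hrange : Nat.card ((ι → ZMod 3) ⧸ T.ker) ≤ 3 ^ r := by
    have h6 : Nat.card ((ι → ZMod 3) ⧸ T.ker) ≤ Nat.card (Fin r → ZMod 3) :=
      Nat.card_le_card_of_injective _ (QuotientAddGroup.kerLift_injective T)
    rwa [Nat.card_eq_fintype_card (α := Fin r → ZMod 3), Fintype.card_fun, ZMod.card,
      Fintype.card_fin] at h6
  rw [hV] at hker
  rcases le_or_gt r A.card with hr | hr
  · have h7 : 3 ^ (A.card - r) * 3 ^ r ≤ Nat.card T.ker * 3 ^ r := by
      rw [← pow_add, Nat.sub_add_cancel hr, hker, mul_comm]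
      exact Nat.mul_le_mul_left _ hrange
    exact Nat.le_of_mul_le_mul_right h7 (by positivity)
  · rw [Nat.sub_eq_zero_of_le hr.le, pow_zero]
    exact Nat.card_pos

end Pool.Agent.Results.MP_3a3582_co.PGroup
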