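import Mathlib

/-!
Definitions for multiple plank coverings of convex bodies in Euclidean space.
-/

namespace Pool.Agent.Helper934.PlankDefs

/-- A convex body: a compact convex set with nonempty interior. -/
def IsConvexBody {d : ℕ} (K : Set (EuclideanSpace ℝ (Fin d))) : Prop :=
  IsCompact K ∧ Convex ℝ K ∧ (interior K).Nonempty

/-- Width of `K` in direction `u`: for a unit vector `u` this is the distance between the two
supporting hyperplanes of `K` orthogonal to `u`. -/
noncomputable def widthIn {d : ℕ} (K : Set (EuclideanSpace ℝ (Fin d)))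
    (u : EuclideanSpace ℝ (Fin d)) : ℝ :=
  sSup ((fun x => inner ℝ x u) '' K) - sInf ((fun x => inner ℝ x u) '' K)

/-- Minimal width of `K`: the infimum of the widths over all unit directions. -/
noncomputable def minWidth {d : ℕ} (K : Set (EuclideanSpace ℝ (Fin d))) : ℝ :=
  sInf {w : ℝ | ∃ u : EuclideanSpace ℝ (Fin d), ‖u‖ = 1 ∧ w = widthIn K u}

/-- Inradius of `K`: the supremum of the radii of closed balls contained in `K`. -/
noncomputable def inradius {d : ℕ} (K : Set (EuclideanSpace ℝ (Fin d))) : ℝ :=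
  sSup {r : ℝ | 0 ≤ r ∧ ∃ c : EuclideanSpace ℝ (Fin d), Metric.closedBall c r ⊆ K}

/-- The plank `{x : a ≤ x · θ ≤ b}`. -/
def plank {d : ℕ} (θ : EuclideanSpace ℝ (Fin d)) (a b : ℝ) : Set (EuclideanSpace ℝ (Fin d)) :=
  {x | a ≤ inner ℝ x θ ∧ inner ℝ x θ ≤ b}

/-- The planks with unit normals `θ i` and offsets `a i ≤ b i`, `i < m`, form a `k`-fold covering
of `K`: every point of `K` lies in at least `k` of them. -/
def IsFoldCover {d m : ℕ} (K : Set (EuclideanSpace ℝ (Fin d))) (k : ℕ)
    (θ : Fin m → EuclideanSpace ℝ (Fin d)) (a b : Fin m → ℝ) : Prop :=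
  (∀ i, ‖θ i‖ = 1) ∧ (∀ i, a i ≤ b i) ∧
    ∀ x ∈ K, k ≤ Nat.card {i : Fin m // x ∈ plank (θ i) (a i) (b i)}

/-- `c_K(k)`: the infimum of (total width of the planks) / (minimal width of `K`) over all
`k`-fold coverings of `K` by finitely many planks. -/
noncomputable def coverConst {d : ℕ} (K : Set (EuclideanSpace ℝ (Fin d))) (k : ℕ) : ℝ :=
  sInf {c : ℝ | ∃ (m : ℕ) (θ : Fin m → EuclideanSpace ℝ (Fin d)) (a b : Fin m → ℝ),
    IsFoldCover K k θ a b ∧ c = (∑ i, (b i - a i)) / minWidth K}

/-- `c_d(k)`: the infimum of `c_K(k)` over all convex bodies `K` in dimension `d`. -/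
noncomputable def coverConstDim (d k : ℕ) : ℝ :=
  sInf {c : ℝ | ∃ K : Set (EuclideanSpace ℝ (Fin d)), IsConvexBody K ∧ c = coverConst K k}

end Pool.Agent.Helper934.PlankDefs
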