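import Mathlib
import Pool.Agent.Helper934.PlankDefs

open MeasureTheory Metric Set Filter Topology

namespace Pool.Agent.Helper934.PlankCore

open Pool.Agent.Helper934.PlankDefs

/-- area of a planar annulus region in coordinates -/
lemma annulus_area (c C : ℝ) (hcC : c ≤ C) :
    volume {y : Fin 2 → ℝ | c ≤ y 0 ^ 2 + y 1 ^ 2 ∧ y 0 ^ 2 + y 1 ^ 2 ≤ C} ≤
      ENNReal.ofReal (Real.pi * (C - c)) := by
  -- transfer to Euclidean plane
  have hvp := (EuclideanSpace.volume_preserving_symm_measurableEquiv_toLp (Fin 2))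
  set S : Set (Fin 2 → ℝ) := {y : Fin 2 → ℝ | c ≤ y 0 ^ 2 + y 1 ^ 2 ∧ y 0 ^ 2 + y 1 ^ 2 ≤ C} with hS
  have hmeas : MeasurableSet S := by
    have h1 : Measurable (fun y : Fin 2 → ℝ => y 0 ^ 2 + y 1 ^ 2) := by fun_prop
    exact (measurableSet_le measurable_const h1).inter (measurableSet_le h1 measurable_const)
  have hpre : volume S = volume ((MeasurableEquiv.toLp 2 (Fin 2 → ℝ)).symm ⁻¹' S) := by
    rw [hvp.measure_preimage hmeas.nullMeasurableSet]
  rw [hpre]
  have hset : ((MeasurableEquiv.toLp 2 (Fin 2 → ℝ)).symm ⁻¹' S) =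
      {x : EuclideanSpace ℝ (Fin 2) | c ≤ ‖x‖ ^ 2 ∧ ‖x‖ ^ 2 ≤ C} := by
    ext x
    simp only [mem_preimage, hS, mem_ofPred_eq, EuclideanSpace.norm_sq_eq, Fin.sum_univ_two,
      Real.norm_eq_abs, sq_abs]
    rfl
  rw [hset]
  by_cases hC : C < 0
  · have : {x : EuclideanSpace ℝ (Fin 2) | c ≤ ‖x‖ ^ 2 ∧ ‖x‖ ^ 2 ≤ C} = ∅ := by
      ext x
      simp only [mem_ofPred_eq, mem_empty_iff_false, iff_false, not_and, not_le]
      intro _
      nlinarith [sq_nonneg ‖x‖]
    rw [this]; simp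
  push Not at hC
  have hball : ∀ r : ℝ, 0 ≤ r → volume (closedBall (0 : EuclideanSpace ℝ (Fin 2)) (Real.sqrt r)) =
      ENNReal.ofReal (Real.pi * r) := by
    intro r hr
    rw [EuclideanSpace.volume_closedBall_fin_two]
    rw [← ENNReal.ofReal_pow (Real.sqrt_nonneg r), Real.sq_sqrt hr]
    rw [← ENNReal.ofReal_mul' Real.pi_pos.le, mul_comm]
  by_cases hc : c ≤ 0
  · calc volume {x : EuclideanSpace ℝ (Fin 2) | c ≤ ‖x‖ ^ 2 ∧ ‖x‖ ^ 2 ≤ C}
        ≤ volume (closedBall (0 : EuclideanSpace ℝ (Fin 2)) (Real.sqrt C)) := by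
          apply measure_mono
          intro x hx
          simp only [mem_ofPred_eq] at hx
          simp only [mem_closedBall, dist_zero_right]
          exact Real.le_sqrt_of_sq_le hx.2
      _ = ENNReal.ofReal (Real.pi * C) := hball C hC
      _ ≤ ENNReal.ofReal (Real.pi * (C - c)) := by
          apply ENNReal.ofReal_le_ofReal
          nlinarith [Real.pi_pos]
  · push Not at hc
    have hsub : ball (0 : EuclideanSpace ℝ (Fin 2)) (Real.sqrt c) ⊆
        closedBall (0 : EuclideanSpace ℝ (Fin 2)) (Real.sqrt C) := by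
      apply (ball_subset_closedBall).trans
      exact closedBall_subset_closedBall (Real.sqrt_le_sqrt hcC)
    calc volume {x : EuclideanSpace ℝ (Fin 2) | c ≤ ‖x‖ ^ 2 ∧ ‖x‖ ^ 2 ≤ C}
        ≤ volume (closedBall (0 : EuclideanSpace ℝ (Fin 2)) (Real.sqrt C) \
            ball (0 : EuclideanSpace ℝ (Fin 2)) (Real.sqrt c)) := by
          apply measure_mono
          intro x hx
          simp only [mem_ofPred_eq] at hx
          simp only [Set.mem_sdiff, mem_closedBall, dist_zero_right, mem_ball, not_lt]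
          exact ⟨Real.le_sqrt_of_sq_le hx.2, Real.sqrt_le_iff.mpr ⟨norm_nonneg x, hx.1⟩⟩
      _ = volume (closedBall (0 : EuclideanSpace ℝ (Fin 2)) (Real.sqrt C)) -
            volume (ball (0 : EuclideanSpace ℝ (Fin 2)) (Real.sqrt c)) := by
          rw [measure_sdiff hsub measurableSet_ball.nullMeasurableSet]
          exact measure_ball_lt_top.ne
      _ = ENNReal.ofReal (Real.pi * C) - ENNReal.ofReal (Real.pi * c) := by
          rw [hball C hC]
          congr 1
          rw [← Measure.addHaar_closedBall_eq_addHaar_ball, hball c hc.le]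
      _ = ENNReal.ofReal (Real.pi * (C - c)) := by
          rw [← ENNReal.ofReal_sub _ (by positivity)]
          congr 1; ring
      _ ≤ _ := le_rfl

/-- The shell-plank estimate in dimension three. -/
lemma shell_plank (θ : EuclideanSpace ℝ (Fin 3)) (hθ : ‖θ‖ = 1) (a b r ρ : ℝ)
    (hrρ : r ^ 2 ≤ ρ ^ 2) :
    volume ({x : EuclideanSpace ℝ (Fin 3) | a ≤ inner ℝ x θ ∧ inner ℝ x θ ≤ b} ∩
      {x | r ^ 2 ≤ ‖x‖ ^ 2 ∧ ‖x‖ ^ 2 ≤ ρ ^ 2}) ≤
      ENNReal.ofReal (Real.pi * (ρ ^ 2 - r ^ 2)) * ENNReal.ofReal (b - a) := by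
  -- orthonormal basis with first vector θ
  obtain ⟨B, hB⟩ : ∃ B : OrthonormalBasis (Fin 3) ℝ (EuclideanSpace ℝ (Fin 3)), B 0 = θ := by
    have hcard : Module.finrank ℝ (EuclideanSpace ℝ (Fin 3)) = Fintype.card (Fin 3) := by simp
    have horth : Orthonormal ℝ (({0} : Set (Fin 3)).domRestrict (fun _ => θ)) := by
      rw [orthonormal_iff_ite]
      rintro ⟨i, hi⟩ ⟨j, hj⟩
      simp only [mem_singleton_iff] at hi hj
      subst hi; subst hj
      simp [Set.domRestrict, hθ]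
    obtain ⟨B, hB⟩ := horth.exists_orthonormalBasis_extension_of_card_eq hcard
    exact ⟨B, hB 0 rfl⟩
  set S : Set (EuclideanSpace ℝ (Fin 3)) :=
    {x : EuclideanSpace ℝ (Fin 3) | a ≤ inner ℝ x θ ∧ inner ℝ x θ ≤ b} ∩
      {x | r ^ 2 ≤ ‖x‖ ^ 2 ∧ ‖x‖ ^ 2 ≤ ρ ^ 2} with hS
  -- the coordinate set
  set S1 : Set (ℝ × (Fin 2 → ℝ)) :=
    {p | a ≤ p.1 ∧ p.1 ≤ b ∧ r ^ 2 - p.1 ^ 2 ≤ p.2 0 ^ 2 + p.2 1 ^ 2 ∧
      p.2 0 ^ 2 + p.2 1 ^ 2 ≤ ρ ^ 2 - p.1 ^ 2} with hS1
  have hmeas1 : MeasurableSet S1 := by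
    have e1 : Measurable (fun p : ℝ × (Fin 2 → ℝ) => p.1) := measurable_fst
    have e2 : Measurable (fun p : ℝ × (Fin 2 → ℝ) => p.2 0 ^ 2 + p.2 1 ^ 2) := by fun_prop
    have e3 : Measurable (fun p : ℝ × (Fin 2 → ℝ) => r ^ 2 - p.1 ^ 2) := by fun_prop
    have e4 : Measurable (fun p : ℝ × (Fin 2 → ℝ) => ρ ^ 2 - p.1 ^ 2) := by fun_prop
    have : S1 = {p | a ≤ p.1} ∩ ({p | p.1 ≤ b} ∩ ({p | r ^ 2 - p.1 ^ 2 ≤ p.2 0 ^ 2 + p.2 1 ^ 2} ∩
        {p | p.2 0 ^ 2 + p.2 1 ^ 2 ≤ ρ ^ 2 - p.1 ^ 2})) := by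
      ext p; simp [hS1]
    rw [this]
    exact (measurableSet_le measurable_const e1).inter ((measurableSet_le e1 measurable_const).inter
      ((measurableSet_le e3 e2).inter (measurableSet_le e2 e4)))
  -- measure preserving map
  have mp1 := B.measurePreserving_repr
  have mp2 := EuclideanSpace.volume_preserving_symm_measurableEquiv_toLp (Fin 3)
  have mp3 := volume_preserving_piFinSuccAbove (fun _ : Fin 3 => ℝ) 0
  have mp := mp3.comp (mp2.comp mp1)
  have hpre : S = (⇑(MeasurableEquiv.piFinSuccAbove (fun _ : Fin 3 => ℝ) 0) ∘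
      ⇑(MeasurableEquiv.toLp 2 (Fin 3 → ℝ)).symm ∘ ⇑B.repr) ⁻¹' S1 := by
    ext x
    have hnorm : ‖x‖ ^ 2 = (B.repr x) 0 ^ 2 + ((B.repr x) 1 ^ 2 + (B.repr x) 2 ^ 2) := by
      have : ‖x‖ = ‖B.repr x‖ := by simp
      rw [this, EuclideanSpace.norm_sq_eq, Fin.sum_univ_three]
      simp only [Real.norm_eq_abs, sq_abs]
      ring
    have hinner : inner ℝ x θ = (B.repr x) 0 := by
      rw [B.repr_apply_apply, hB, real_inner_comm]
    have h0 : ((MeasurableEquiv.piFinSuccAbove (fun _ : Fin 3 => ℝ) 0)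
        ((MeasurableEquiv.toLp 2 (Fin 3 → ℝ)).symm (B.repr x))).1 = (B.repr x) 0 := rfl
    have h1 : ((MeasurableEquiv.piFinSuccAbove (fun _ : Fin 3 => ℝ) 0)
        ((MeasurableEquiv.toLp 2 (Fin 3 → ℝ)).symm (B.repr x))).2 0 = (B.repr x) 1 := rfl
    have h2 : ((MeasurableEquiv.piFinSuccAbove (fun _ : Fin 3 => ℝ) 0)
        ((MeasurableEquiv.toLp 2 (Fin 3 → ℝ)).symm (B.repr x))).2 1 = (B.repr x) 2 := rfl
    simp only [hS, hS1, mem_inter_iff, mem_ofPred_eq, mem_preimage, Function.comp_apply, hnorm,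
      hinner, h0, h1, h2]
    constructor
    · rintro ⟨⟨h1, h2⟩, h3, h4⟩
      exact ⟨h1, h2, by linarith, by linarith⟩
    · rintro ⟨h1, h2, h3, h4⟩
      exact ⟨⟨h1, h2⟩, by linarith, by linarith⟩
  have hvol : volume S = volume S1 := by
    rw [hpre]
    exact mp.measure_preimage hmeas1.nullMeasurableSet
  rw [hvol, Measure.volume_eq_prod, Measure.prod_apply hmeas1]
  calc ∫⁻ t, volume (Prod.mk t ⁻¹' S1)
      ≤ ∫⁻ t, (Icc a b).indicator (fun _ => ENNReal.ofReal (Real.pi * (ρ ^ 2 - r ^ 2))) t := by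
        apply lintegral_mono
        intro t
        by_cases ht : t ∈ Icc a b
        · rw [indicator_of_mem ht]
          have : Prod.mk t ⁻¹' S1 ⊆ {y : Fin 2 → ℝ | r ^ 2 - t ^ 2 ≤ y 0 ^ 2 + y 1 ^ 2 ∧
              y 0 ^ 2 + y 1 ^ 2 ≤ ρ ^ 2 - t ^ 2} := by
            intro y hy
            simp only [hS1, mem_preimage, mem_ofPred_eq] at hy
            exact ⟨hy.2.2.1, hy.2.2.2⟩
          refine (measure_mono this).trans ?_
          refine (annulus_area _ _ (by linarith)).trans ?_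
          apply le_of_eq; congr 1; ring
        · rw [indicator_of_notMem ht]
          have : Prod.mk t ⁻¹' S1 = ∅ := by
            ext y
            simp only [hS1, mem_preimage, mem_ofPred_eq, mem_empty_iff_false, iff_false]
            intro hy
            exact ht ⟨hy.1, hy.2.1⟩
          show volume (Prod.mk t ⁻¹' S1) ≤ 0
          rw [this]; simp
    _ = ENNReal.ofReal (Real.pi * (ρ ^ 2 - r ^ 2)) * ENNReal.ofReal (b - a) := by
        rw [lintegral_indicator measurableSet_Icc, setLIntegral_const, Real.volume_Icc]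

lemma measurableSet_plank {d : ℕ} (θ : EuclideanSpace ℝ (Fin d)) (a b : ℝ) :
    MeasurableSet (plank θ a b) := by
  have h : Measurable (fun x : EuclideanSpace ℝ (Fin d) => inner ℝ x θ) := by fun_prop
  exact (measurableSet_le measurable_const h).inter (measurableSet_le h measurable_const)

/-- counting inequality -/
lemma count_measure {d m : ℕ} (S : Set (EuclideanSpace ℝ (Fin d))) (hS : MeasurableSet S) (k : ℕ)
    (θ : Fin m → EuclideanSpace ℝ (Fin d)) (a b : Fin m → ℝ)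
    (h : ∀ x ∈ S, k ≤ Nat.card {i : Fin m // x ∈ plank (θ i) (a i) (b i)}) :
    (k : ENNReal) * volume S ≤ ∑ i, volume (plank (θ i) (a i) (b i) ∩ S) := by
  classical
  calc (k : ENNReal) * volume S = ∫⁻ _ in S, (k : ENNReal) := by
        rw [setLIntegral_const]
    _ ≤ ∫⁻ x in S, ∑ i, (plank (θ i) (a i) (b i)).indicator (fun _ => (1 : ENNReal)) x := by
        apply setLIntegral_mono' hS
        intro x hx
        have := h x hx
        rw [Nat.card_eq_fintype_card, Fintype.card_subtype] at this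
        calc (k : ENNReal) ≤ ((Finset.univ.filter
              (fun i => x ∈ plank (θ i) (a i) (b i))).card : ENNReal) := by exact_mod_cast this
          _ = ∑ i, (plank (θ i) (a i) (b i)).indicator (fun _ => (1 : ENNReal)) x := by
              rw [Finset.card_filter]
              push_cast
              apply Finset.sum_congr rfl
              intro i _
              by_cases hi : x ∈ plank (θ i) (a i) (b i)
              · simp [hi]
              · simp [hi]
    _ = ∑ i, ∫⁻ x in S, (plank (θ i) (a i) (b i)).indicator (fun _ => (1 : ENNReal)) x := by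
        rw [lintegral_finsetSum]
        intro i _
        exact measurable_const.indicator (measurableSet_plank _ _ _)
    _ = ∑ i, volume (plank (θ i) (a i) (b i) ∩ S) := by
        apply Finset.sum_congr rfl
        intro i _
        rw [lintegral_indicator (measurableSet_plank _ _ _), setLIntegral_const, one_mul,
          Measure.restrict_apply (measurableSet_plank _ _ _)]

/-- A `k`-fold plank covering of a three dimensional ball of radius `ρ` has total width
at least `2 ρ k` (centre at the origin). -/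
lemma ball3_zero {m : ℕ} (ρ : ℝ) (hρ : 0 < ρ) (k : ℕ)
    (θ : Fin m → EuclideanSpace ℝ (Fin 3)) (a b : Fin m → ℝ) (hθ : ∀ i, ‖θ i‖ = 1)
    (hab : ∀ i, a i ≤ b i)
    (h : ∀ x ∈ closedBall (0 : EuclideanSpace ℝ (Fin 3)) ρ,
      k ≤ Nat.card {i : Fin m // x ∈ plank (θ i) (a i) (b i)}) :
    2 * ρ * k ≤ ∑ i, (b i - a i) := by
  set W := ∑ i, (b i - a i) with hW
  have hW0 : 0 ≤ W := Finset.sum_nonneg (fun i _ => sub_nonneg.mpr (hab i))
  have key : ∀ r : ℝ, 0 < r → r < ρ →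
      (k : ℝ) * (4 / 3 * (ρ ^ 2 + ρ * r + r ^ 2)) ≤ (ρ + r) * W := by
    intro r hr hrρ
    set S : Set (EuclideanSpace ℝ (Fin 3)) := {x | r ^ 2 ≤ ‖x‖ ^ 2 ∧ ‖x‖ ^ 2 ≤ ρ ^ 2} with hS
    have hSm : MeasurableSet S := by
      have h1 : Measurable (fun x : EuclideanSpace ℝ (Fin 3) => ‖x‖ ^ 2) := by fun_prop
      exact (measurableSet_le measurable_const h1).inter (measurableSet_le h1 measurable_const)
    have hc := count_measure S hSm k θ a b (by
      intro x hx
      apply h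
      simp only [mem_closedBall, dist_zero_right]
      exact le_of_sq_le_sq hx.2 hρ.le)
    have hrr : r ^ 2 ≤ ρ ^ 2 := by nlinarith
    have hup : ∑ i, volume (plank (θ i) (a i) (b i) ∩ S) ≤
        ENNReal.ofReal (Real.pi * (ρ ^ 2 - r ^ 2) * W) := by
      calc ∑ i, volume (plank (θ i) (a i) (b i) ∩ S)
          ≤ ∑ i, ENNReal.ofReal (Real.pi * (ρ ^ 2 - r ^ 2)) * ENNReal.ofReal (b i - a i) :=
            Finset.sum_le_sum (fun i _ => shell_plank (θ i) (hθ i) (a i) (b i) r ρ hrr)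
        _ = ENNReal.ofReal (Real.pi * (ρ ^ 2 - r ^ 2) * W) := by
            rw [← Finset.mul_sum, ← ENNReal.ofReal_sum_of_nonneg
              (fun i _ => sub_nonneg.mpr (hab i)), ← ENNReal.ofReal_mul]
            have := Real.pi_pos
            nlinarith
    have hlow : ENNReal.ofReal (4 / 3 * Real.pi * (ρ ^ 3 - r ^ 3)) ≤ volume S := by
      have hsub : ball (0 : EuclideanSpace ℝ (Fin 3)) r ⊆ closedBall 0 ρ :=
        ball_subset_closedBall.trans (closedBall_subset_closedBall hrρ.le)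
      have e1 : closedBall (0 : EuclideanSpace ℝ (Fin 3)) ρ \ ball 0 r ⊆ S := by
        intro x hx
        simp only [Set.mem_sdiff, mem_closedBall, dist_zero_right, mem_ball, not_lt] at hx
        exact ⟨by nlinarith [norm_nonneg x, hx.2], by nlinarith [norm_nonneg x, hx.1]⟩
      refine le_trans ?_ (measure_mono e1)
      rw [measure_sdiff hsub measurableSet_ball.nullMeasurableSet measure_ball_lt_top.ne,
        EuclideanSpace.volume_ball_fin_three, EuclideanSpace.volume_closedBall_fin_three,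
        ← ENNReal.ofReal_pow hρ.le, ← ENNReal.ofReal_pow hr.le,
        ← ENNReal.ofReal_mul (by positivity), ← ENNReal.ofReal_mul (by positivity),
        ← ENNReal.ofReal_sub _ (by positivity)]
      apply ENNReal.ofReal_le_ofReal
      apply le_of_eq; ring
    have h3 : (k : ENNReal) * ENNReal.ofReal (4 / 3 * Real.pi * (ρ ^ 3 - r ^ 3)) ≤
        ENNReal.ofReal (Real.pi * (ρ ^ 2 - r ^ 2) * W) :=
      (mul_le_mul_right hlow _).trans (hc.trans hup)
    have hpi := Real.pi_pos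
    have hcube : 0 ≤ ρ ^ 3 - r ^ 3 := by
      have : r ^ 3 ≤ ρ ^ 3 := pow_le_pow_left₀ hr.le hrρ.le 3
      linarith
    have hnn : 0 ≤ Real.pi * (ρ ^ 2 - r ^ 2) * W :=
      mul_nonneg (mul_nonneg hpi.le (by linarith)) hW0
    rw [show (k : ENNReal) = ENNReal.ofReal (k : ℝ) by simp,
      ← ENNReal.ofReal_mul (by positivity), ENNReal.ofReal_le_ofReal_iff hnn] at h3
    have hpos : 0 < Real.pi * (ρ - r) := mul_pos hpi (by linarith)
    have h4 : Real.pi * (ρ - r) * ((k : ℝ) * (4 / 3 * (ρ ^ 2 + ρ * r + r ^ 2))) ≤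
        Real.pi * (ρ - r) * ((ρ + r) * W) := by
      calc _ = (k : ℝ) * (4 / 3 * Real.pi * (ρ ^ 3 - r ^ 3)) := by ring
        _ ≤ _ := h3
        _ = _ := by ring
    exact le_of_mul_le_mul_left h4 hpos
  -- pass to the limit
  have hlim : (k : ℝ) * (4 / 3 * (ρ ^ 2 + ρ * ρ + ρ ^ 2)) ≤ (ρ + ρ) * W := by
    have c1 : Tendsto (fun r : ℝ => (k : ℝ) * (4 / 3 * (ρ ^ 2 + ρ * r + r ^ 2))) (𝓝[<] ρ)
        (𝓝 ((k : ℝ) * (4 / 3 * (ρ ^ 2 + ρ * ρ + ρ ^ 2)))) := by
      apply tendsto_nhdsWithin_of_tendsto_nhds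
      have : Continuous (fun r : ℝ => (k : ℝ) * (4 / 3 * (ρ ^ 2 + ρ * r + r ^ 2))) := by fun_prop
      exact this.tendsto ρ
    have c2 : Tendsto (fun r : ℝ => (ρ + r) * W) (𝓝[<] ρ) (𝓝 ((ρ + ρ) * W)) := by
      apply tendsto_nhdsWithin_of_tendsto_nhds
      have : Continuous (fun r : ℝ => (ρ + r) * W) := by fun_prop
      exact this.tendsto ρ
    apply le_of_tendsto_of_tendsto c1 c2
    have : Ioo 0 ρ ∈ 𝓝[<] ρ := Ioo_mem_nhdsLT hρ
    filter_upwards [this] with r hr
    exact key r hr.1 hr.2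
  have : 2 * ρ * (2 * ρ * k) ≤ 2 * ρ * W := by nlinarith
  exact le_of_mul_le_mul_left this (by linarith)

/-- Translated version. -/
lemma ball3 {m : ℕ} (g : EuclideanSpace ℝ (Fin 3)) (ρ : ℝ) (hρ : 0 < ρ) (k : ℕ)
    (θ : Fin m → EuclideanSpace ℝ (Fin 3)) (a b : Fin m → ℝ) (hθ : ∀ i, ‖θ i‖ = 1)
    (hab : ∀ i, a i ≤ b i)
    (h : ∀ x ∈ closedBall g ρ, k ≤ Nat.card {i : Fin m // x ∈ plank (θ i) (a i) (b i)}) :
    2 * ρ * k ≤ ∑ i, (b i - a i) := by
  have := ball3_zero ρ hρ k θ (fun i => a i - inner ℝ g (θ i)) (fun i => b i - inner ℝ g (θ i)) hθ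
    (fun i => by simpa using hab i) (by
      intro x hx
      have h1 := h (x + g) (by
        simp only [mem_closedBall, dist_zero_right] at hx
        simpa [mem_closedBall, dist_eq_norm] using hx)
      refine h1.trans (le_of_eq ?_)
      apply Nat.card_congr
      apply Equiv.subtypeEquivRight
      intro i
      simp only [plank, mem_ofPred_eq, inner_add_left]
      constructor
      · rintro ⟨h1, h2⟩; exact ⟨by linarith, by linarith⟩
      · rintro ⟨h1, h2⟩; exact ⟨by linarith, by linarith⟩)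
  simpa using this

/-- The planar version, by lifting planks and the disc to space. -/
lemma ball2 {m : ℕ} (g : EuclideanSpace ℝ (Fin 2)) (ρ : ℝ) (hρ : 0 < ρ) (k : ℕ)
    (θ : Fin m → EuclideanSpace ℝ (Fin 2)) (a b : Fin m → ℝ) (hθ : ∀ i, ‖θ i‖ = 1)
    (hab : ∀ i, a i ≤ b i)
    (h : ∀ x ∈ closedBall g ρ, k ≤ Nat.card {i : Fin m // x ∈ plank (θ i) (a i) (b i)}) :
    2 * ρ * k ≤ ∑ i, (b i - a i) := by
  have hin : ∀ (x : EuclideanSpace ℝ (Fin 3)) (t : EuclideanSpace ℝ (Fin 2)),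
      inner ℝ x (!₂[t 0, t 1, 0] : EuclideanSpace ℝ (Fin 3)) =
      inner ℝ (!₂[x 0, x 1] : EuclideanSpace ℝ (Fin 2)) t := by
    intro x t
    simp [PiLp.inner_apply, Fin.sum_univ_three, Fin.sum_univ_two]
  apply ball3 (!₂[g 0, g 1, 0] : EuclideanSpace ℝ (Fin 3)) ρ hρ k
    (fun i => (!₂[θ i 0, θ i 1, 0] : EuclideanSpace ℝ (Fin 3))) a b ?_ hab
  · intro x hx
    have h1 := h (!₂[x 0, x 1] : EuclideanSpace ℝ (Fin 2)) (by
      rw [mem_closedBall, EuclideanSpace.dist_eq] at hx ⊢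
      refine le_trans (Real.sqrt_le_sqrt ?_) hx
      simp only [Fin.sum_univ_two, Fin.sum_univ_three]
      simp only [Matrix.cons_val_zero, Matrix.cons_val_one, Matrix.cons_val]
      have : 0 ≤ dist (x.ofLp 2) 0 ^ 2 := sq_nonneg _
      linarith)
    refine h1.trans (le_of_eq ?_)
    apply Nat.card_congr
    apply Equiv.subtypeEquivRight
    intro i
    simp only [plank, mem_ofPred_eq, hin]
  · intro i
    have h2 := hθ i
    rw [EuclideanSpace.norm_eq] at h2 ⊢
    rw [← h2]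
    congr 1
    simp [Fin.sum_univ_three, Fin.sum_univ_two]

end Pool.Agent.Helper934.PlankCore
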