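import Mathlib
import Pool.Agent.Helper934.PlankDefs

open MeasureTheory Metric Set Filter Topology

namespace Pool.Agent.Helper934.PlankSupp

open Pool.Agent.Helper934.PlankDefs

variable {d : ℕ}

/-- support function -/
noncomputable def supp (K : Set (EuclideanSpace ℝ (Fin d))) (u : EuclideanSpace ℝ (Fin d)) : ℝ :=
  sSup ((fun x => inner ℝ x u) '' K)

lemma cont_inner (u : EuclideanSpace ℝ (Fin d)) :
    Continuous (fun x : EuclideanSpace ℝ (Fin d) => inner ℝ x u) := by fun_prop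

lemma le_supp {K : Set (EuclideanSpace ℝ (Fin d))} (hK : IsCompact K)
    {x : EuclideanSpace ℝ (Fin d)} (hx : x ∈ K) (u : EuclideanSpace ℝ (Fin d)) :
    inner ℝ x u ≤ supp K u :=
  le_csSup (hK.image (cont_inner u)).bddAbove (mem_image_of_mem _ hx)

lemma supp_le {K : Set (EuclideanSpace ℝ (Fin d))} (hne : K.Nonempty)
    {u : EuclideanSpace ℝ (Fin d)} {c : ℝ} (h : ∀ x ∈ K, inner ℝ x u ≤ c) : supp K u ≤ c := by
  apply csSup_le (hne.image _)
  rintro _ ⟨x, hx, rfl⟩
  exact h x hx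

lemma exists_supp {K : Set (EuclideanSpace ℝ (Fin d))} (hK : IsCompact K) (hne : K.Nonempty)
    (u : EuclideanSpace ℝ (Fin d)) : ∃ x ∈ K, inner ℝ x u = supp K u := by
  obtain ⟨x, hx, hx'⟩ := hK.exists_isMaxOn hne (cont_inner u).continuousOn
  exact ⟨x, hx, le_antisymm (le_supp hK hx u) (supp_le hne (fun y hy => hx' hy))⟩

lemma supp_zero {K : Set (EuclideanSpace ℝ (Fin d))} (hK : IsCompact K) (hne : K.Nonempty) :
    supp K 0 = 0 := by
  obtain ⟨x, _, h⟩ := exists_supp hK hne 0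
  rw [← h]; simp

lemma supp_smul {K : Set (EuclideanSpace ℝ (Fin d))} (hK : IsCompact K) (hne : K.Nonempty)
    {c : ℝ} (hc : 0 ≤ c) (u : EuclideanSpace ℝ (Fin d)) : supp K (c • u) = c * supp K u := by
  apply le_antisymm
  · apply supp_le hne
    intro x hx
    rw [inner_smul_right]
    exact mul_le_mul_of_nonneg_left (le_supp hK hx u) hc
  · obtain ⟨x, hx, h⟩ := exists_supp hK hne u
    rw [← h, ← inner_smul_right]
    exact le_supp hK hx _

lemma supp_add {K : Set (EuclideanSpace ℝ (Fin d))} (hK : IsCompact K) (hne : K.Nonempty)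
    (u v : EuclideanSpace ℝ (Fin d)) : supp K (u + v) ≤ supp K u + supp K v := by
  apply supp_le hne
  intro x hx
  rw [inner_add_right]
  exact add_le_add (le_supp hK hx u) (le_supp hK hx v)

lemma supp_sum {ι : Type*} {K : Set (EuclideanSpace ℝ (Fin d))} (hK : IsCompact K)
    (hne : K.Nonempty) (s : Finset ι) (v : ι → EuclideanSpace ℝ (Fin d)) :
    supp K (∑ i ∈ s, v i) ≤ ∑ i ∈ s, supp K (v i) := by
  classical
  induction s using Finset.induction_on with
  | empty => simp [supp_zero hK hne]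
  | insert a s ha ih =>
    rw [Finset.sum_insert ha, Finset.sum_insert ha]
    exact (supp_add hK hne _ _).trans (by linarith)

lemma widthIn_eq {K : Set (EuclideanSpace ℝ (Fin d))} (hK : IsCompact K) (hne : K.Nonempty)
    (u : EuclideanSpace ℝ (Fin d)) : widthIn K u = supp K u + supp K (-u) := by
  have h : sInf ((fun x => inner ℝ x u) '' K) = - supp K (-u) := by
    apply le_antisymm
    · obtain ⟨x, hx, h⟩ := exists_supp hK hne (-u)
      rw [← h, inner_neg_right, neg_neg]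
      exact csInf_le (hK.image (cont_inner u)).bddBelow (mem_image_of_mem _ hx)
    · apply le_csInf (hne.image _)
      rintro _ ⟨x, hx, rfl⟩
      have := le_supp hK hx (-u)
      rw [inner_neg_right] at this
      simp only
      linarith
  unfold widthIn
  rw [h]
  simp [supp]

lemma widthIn_nonneg {K : Set (EuclideanSpace ℝ (Fin d))} (hK : IsCompact K) (hne : K.Nonempty)
    (u : EuclideanSpace ℝ (Fin d)) : 0 ≤ widthIn K u := by
  rw [widthIn_eq hK hne, ← supp_zero hK hne]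
  have := supp_add hK hne u (-u)
  simpa using this

lemma minWidth_le {K : Set (EuclideanSpace ℝ (Fin d))} (hK : IsCompact K) (hne : K.Nonempty)
    (u : EuclideanSpace ℝ (Fin d)) (hu : ‖u‖ = 1) : minWidth K ≤ widthIn K u := by
  apply csInf_le
  · refine ⟨0, ?_⟩
    rintro _ ⟨v, _, rfl⟩
    exact widthIn_nonneg hK hne v
  · exact ⟨u, hu, rfl⟩

lemma minWidth_mul_le {K : Set (EuclideanSpace ℝ (Fin d))} (hK : IsCompact K) (hne : K.Nonempty)
    (u : EuclideanSpace ℝ (Fin d)) : minWidth K * ‖u‖ ≤ supp K u + supp K (-u) := by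
  by_cases hu : u = 0
  · subst hu; simp [supp_zero hK hne]
  have hpos : 0 < ‖u‖ := norm_pos_iff.mpr hu
  have h1 := minWidth_le hK hne (‖u‖⁻¹ • u) (by rw [norm_smul, norm_inv, norm_norm]; field_simp)
  rw [widthIn_eq hK hne, ← smul_neg, supp_smul hK hne (by positivity),
    supp_smul hK hne (by positivity)] at h1
  calc minWidth K * ‖u‖ ≤ (‖u‖⁻¹ * supp K u + ‖u‖⁻¹ * supp K (-u)) * ‖u‖ :=
        mul_le_mul_of_nonneg_right h1 hpos.le
    _ = _ := by field_simp

/-- If the inequalities `⟨c,n⟩ + r ≤ h_K(n)` hold for all unit `n`, then the ball is inside. -/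
lemma ball_subset_of_supp {K : Set (EuclideanSpace ℝ (Fin d))} (hK : IsCompact K)
    (hconv : Convex ℝ K) (hne : K.Nonempty) (c : EuclideanSpace ℝ (Fin d)) (r : ℝ)
    (h : ∀ n : EuclideanSpace ℝ (Fin d), ‖n‖ = 1 → inner ℝ c n + r ≤ supp K n) :
    closedBall c r ⊆ K := by
  intro y hy
  by_contra hyK
  obtain ⟨f, s, hf1, hf2⟩ := geometric_hahn_banach_closed_point hconv hK.isClosed hyK
  set w : EuclideanSpace ℝ (Fin d) := (InnerProductSpace.toDual ℝ _).symm f with hw
  have hfw : ∀ x, f x = inner ℝ x w := by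
    intro x
    rw [real_inner_comm, hw, InnerProductSpace.toDual_symm_apply]
  have hw0 : w ≠ 0 := by
    intro h0
    obtain ⟨x, hx⟩ := hne
    have e1 := hf1 x hx
    rw [hfw, h0, inner_zero_right] at e1
    rw [hfw, h0, inner_zero_right] at hf2
    linarith
  have hpos : 0 < ‖w‖ := norm_pos_iff.mpr hw0
  have h1 := h (‖w‖⁻¹ • w) (by rw [norm_smul, norm_inv, norm_norm]; field_simp)
  rw [supp_smul hK hne (by positivity), inner_smul_right] at h1
  have h2 : supp K w ≤ s := supp_le hne (fun x hx => by rw [← hfw]; exact (hf1 x hx).le)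
  have h3 : inner ℝ y w ≤ inner ℝ c w + ‖w‖ * r := by
    have e : inner ℝ y w = inner ℝ c w + inner ℝ (y - c) w := by rw [← inner_add_left]; simp
    rw [e]
    have := real_inner_le_norm (y - c) w
    have hyr : ‖y - c‖ ≤ r := by rwa [mem_closedBall, dist_eq_norm] at hy
    nlinarith
  rw [hfw] at hf2
  have h4 : inner ℝ c w + ‖w‖ * r ≤ supp K w := by
    have := mul_le_mul_of_nonneg_left h1 hpos.le
    calc inner ℝ c w + ‖w‖ * r = ‖w‖ * (‖w‖⁻¹ * inner ℝ c w + r) := by field_simp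
      _ ≤ ‖w‖ * (‖w‖⁻¹ * supp K w) := this
      _ = supp K w := by field_simp
  linarith

/-- Separation: a finite system of affine inequalities without solution in `K`. -/
lemma exists_weights {ι : Type*} [Fintype ι] {K : Set (EuclideanSpace ℝ (Fin d))}
    (hK : IsCompact K) (hconv : Convex ℝ K) (hne : K.Nonempty)
    (n : ι → EuclideanSpace ℝ (Fin d)) (β : ι → ℝ)
    (h : ∀ c ∈ K, ∃ i, β i < inner ℝ c (n i)) :
    ∃ l : ι → ℝ, (∀ i, 0 ≤ l i) ∧ ∑ i, l i = 1 ∧
      ∀ c ∈ K, ∑ i, l i * β i < inner ℝ c (∑ i, l i • n i) := by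
  classical
  let G : EuclideanSpace ℝ (Fin d) → (ι → ℝ) := fun c i => β i - inner ℝ c (n i)
  have hGcont : Continuous G := by
    apply continuous_pi
    intro i
    exact continuous_const.sub (cont_inner (n i))
  have hGc : Convex ℝ (G '' K) := by
    rintro _ ⟨x, hx, rfl⟩ _ ⟨y, hy, rfl⟩ a b ha hb hab
    refine ⟨a • x + b • y, hconv hx hy ha hb hab, ?_⟩
    ext i
    simp only [G, Pi.add_apply, Pi.smul_apply, smul_eq_mul, inner_add_left, inner_smul_left]
    simp only [conj_trivial]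
    have : β i = a * β i + b * β i := by rw [← add_mul, hab, one_mul]
    linarith
  have hO : IsClosed {y : ι → ℝ | ∀ i, 0 ≤ y i} := by
    have : {y : ι → ℝ | ∀ i, 0 ≤ y i} = ⋂ i, {y : ι → ℝ | 0 ≤ y i} := by ext; simp
    rw [this]
    exact isClosed_iInter (fun i => isClosed_le continuous_const (continuous_apply i))
  have hOc : Convex ℝ {y : ι → ℝ | ∀ i, 0 ≤ y i} := by
    intro x hx y hy a b ha hb _ i
    simp only [Pi.add_apply, Pi.smul_apply, smul_eq_mul]
    have := hx i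
    have := hy i
    positivity
  have hdisj : Disjoint (G '' K) {y : ι → ℝ | ∀ i, 0 ≤ y i} := by
    rw [Set.disjoint_left]
    rintro _ ⟨c, hc, rfl⟩ hy
    obtain ⟨i, hi⟩ := h c hc
    have := hy i
    simp only [G] at this
    linarith
  obtain ⟨f, s, t, hs, hst, ht⟩ := geometric_hahn_banach_compact_closed hGc
    (hK.image hGcont) hOc hO hdisj
  have ht0 : t < 0 := by
    have := ht 0 (by simp)
    simpa using this
  set l0 : ι → ℝ := fun i => f (Pi.single i 1) with hl0
  have hf : ∀ y : ι → ℝ, f y = ∑ i, l0 i * y i := by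
    intro y
    have : y = ∑ i, y i • (Pi.single i (1 : ℝ) : ι → ℝ) := by
      ext j
      simp [Finset.sum_apply, Pi.single_apply]
    conv_lhs => rw [this]
    rw [map_sum]
    apply Finset.sum_congr rfl
    intro i _
    rw [map_smul, smul_eq_mul, mul_comm]
  have hl0nn : ∀ i, 0 ≤ l0 i := by
    intro i
    by_contra hneg
    push Not at hneg
    have hmem : (fun j => if j = i then t / l0 i else 0 : ι → ℝ) ∈ {y : ι → ℝ | ∀ i, 0 ≤ y i} := by
      intro j
      by_cases hj : j = i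
      · simp only [hj, if_true]
        exact (div_pos_of_neg_of_neg ht0 hneg).le
      · simp [hj]
    have := ht _ hmem
    rw [hf] at this
    simp only [mul_ite, mul_zero, Finset.sum_ite_eq', Finset.mem_univ, if_true] at this
    rw [mul_div_cancel₀ _ hneg.ne] at this
    exact lt_irrefl _ this
  set L := ∑ i, l0 i with hL
  have hLpos : 0 < L := by
    rcases (Finset.sum_nonneg (fun i _ => hl0nn i) : 0 ≤ ∑ i, l0 i).lt_or_eq with h1 | h1
    · exact h1
    · exfalso
      have hz : ∀ i, l0 i = 0 := by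
        intro i
        exact (Finset.sum_eq_zero_iff_of_nonneg (fun i _ => hl0nn i)).mp h1.symm i
          (Finset.mem_univ i)
      obtain ⟨c, hc⟩ := hne
      have := hs _ (mem_image_of_mem G hc)
      rw [hf] at this
      simp only [hz, zero_mul, Finset.sum_const_zero] at this
      linarith
  refine ⟨fun i => l0 i / L, fun i => div_nonneg (hl0nn i) hLpos.le, ?_, ?_⟩
  · rw [← Finset.sum_div, ← hL, div_self hLpos.ne']
  · intro c hc
    have h1 := hs _ (mem_image_of_mem G hc)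
    rw [hf] at h1
    have h2 : ∑ i, l0 i * β i < ∑ i, l0 i * inner ℝ c (n i) := by
      have : ∑ i, l0 i * (G c i) = ∑ i, l0 i * β i - ∑ i, l0 i * inner ℝ c (n i) := by
        rw [← Finset.sum_sub_distrib]
        apply Finset.sum_congr rfl
        intro i _
        simp only [G]; ring
      linarith
    have e1 : ∑ i, l0 i / L * β i = (∑ i, l0 i * β i) / L := by
      rw [Finset.sum_div]
      apply Finset.sum_congr rfl
      intro i _; ring
    have e2 : inner ℝ c (∑ i, (l0 i / L) • n i) = (∑ i, l0 i * inner ℝ c (n i)) / L := by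
      rw [inner_sum, Finset.sum_div]
      apply Finset.sum_congr rfl
      intro i _
      rw [inner_smul_right]; ring
    rw [e1, e2]
    exact div_lt_div_of_pos_right h2 hLpos

/-- The certificate: if no ball of radius `r` fits in `K`, there are `d+1` vectors. -/
lemma certificate {K : Set (EuclideanSpace ℝ (Fin d))}
    (hK : IsCompact K) (hconv : Convex ℝ K) (hne : K.Nonempty) (r : ℝ)
    (h : ¬ ∃ c, closedBall c r ⊆ K) :
    ∃ v : Fin (d + 1) → EuclideanSpace ℝ (Fin d), ∑ i, ‖v i‖ = 1 ∧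
      ∑ i, supp K (v i) + supp K (-∑ i, v i) < r := by
  classical
  let F : {n : EuclideanSpace ℝ (Fin d) // ‖n‖ = 1} → Set (EuclideanSpace ℝ (Fin d)) :=
    fun n => {c | c ∈ K ∧ inner ℝ c n.1 ≤ supp K n.1 - r}
  have hFconv : ∀ i, Convex ℝ (F i) := by
    rintro ⟨n, hn⟩ x hx y hy a b ha hb hab
    refine ⟨hconv hx.1 hy.1 ha hb hab, ?_⟩
    rw [inner_add_left, inner_smul_left, inner_smul_left]
    simp only [conj_trivial]
    have h1 := mul_le_mul_of_nonneg_left hx.2 ha
    have h2 := mul_le_mul_of_nonneg_left hy.2 hb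
    calc _ ≤ a * (supp K n - r) + b * (supp K n - r) := add_le_add h1 h2
      _ = supp K n - r := by rw [← add_mul, hab, one_mul]
  have hFcomp : ∀ i, IsCompact (F i) := by
    rintro ⟨n, hn⟩
    have : F ⟨n, hn⟩ = K ∩ {c | inner ℝ c n ≤ supp K n - r} := by ext; simp [F]
    rw [this]
    exact hK.inter_right (isClosed_le (cont_inner n) continuous_const)
  have hempty : ¬ (⋂ i, F i).Nonempty := by
    rintro ⟨c, hc⟩
    rw [mem_iInter] at hc
    apply h
    refine ⟨c, ball_subset_of_supp hK hconv hne c r ?_⟩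
    intro n hn
    have := (hc ⟨n, hn⟩).2
    simp only at this
    linarith
  have hnot := mt (Convex.helly_theorem_compact' (𝕜 := ℝ) hFconv hFcomp) hempty
  push Not at hnot
  obtain ⟨I, hIcard, hI⟩ := hnot
  have hfr : Module.finrank ℝ (EuclideanSpace ℝ (Fin d)) = d := by simp
  rw [hfr] at hIcard
  -- weights
  obtain ⟨l, hl0, hl1, hl⟩ := exists_weights (ι := I) hK hconv hne (fun i => (i.1.1))
    (fun i => supp K i.1.1 - r) (by
      intro c hc
      by_contra hcon
      push Not at hcon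
      have hcI : c ∈ ⋂ i ∈ I, F i := by
        rw [mem_iInter₂]
        intro i hi
        exact ⟨hc, hcon ⟨i, hi⟩⟩
      rw [hI] at hcI
      exact hcI)
  -- embed in Fin (d+1)
  have hcard' : Fintype.card I ≤ Fintype.card (Fin (d + 1)) := by simpa using hIcard
  obtain ⟨e⟩ := Function.Embedding.nonempty_of_card_le hcard'
  set v : Fin (d + 1) → EuclideanSpace ℝ (Fin d) := fun j =>
    ∑ i : I, if e i = j then l i • i.1.1 else 0 with hv
  have hve : ∀ i : I, v (e i) = l i • i.1.1 := by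
    intro i
    simp only [hv]
    rw [Finset.sum_eq_single i]
    · simp
    · intro b _ hb
      rw [if_neg]
      intro hbe
      exact hb (e.injective hbe)
    · simp
  have hvne : ∀ j, (∀ i : I, e i ≠ j) → v j = 0 := by
    intro j hj
    simp only [hv]
    apply Finset.sum_eq_zero
    intro i _
    rw [if_neg (hj i)]
  have hsum : ∀ (β : Type) [AddCommMonoid β] (g : EuclideanSpace ℝ (Fin d) → β), g 0 = 0 →
      ∑ j, g (v j) = ∑ i : I, g (l i • i.1.1) := by
    intro β _ g hg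
    have : ∑ i : I, g (l i • i.1.1) = ∑ j ∈ Finset.univ.map e, g (v j) := by
      rw [Finset.sum_map]
      apply Finset.sum_congr rfl
      intro i _
      rw [hve]
    rw [this]
    symm
    apply Finset.sum_subset (Finset.subset_univ _)
    intro j _ hj
    rw [hvne j, hg]
    intro i hi
    apply hj
    rw [Finset.mem_map]
    exact ⟨i, Finset.mem_univ i, hi⟩
  refine ⟨v, ?_, ?_⟩
  · rw [hsum ℝ (fun x => ‖x‖) (by simp)]
    refine Eq.trans ?_ hl1
    apply Finset.sum_congr rfl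
    intro i _
    rw [norm_smul, i.1.2, mul_one, Real.norm_eq_abs, abs_of_nonneg (hl0 i)]
  · rw [hsum ℝ (fun x => supp K x) (supp_zero hK hne), hsum _ (fun x => x) rfl]
    obtain ⟨c, hc, hc2⟩ := exists_supp hK hne (-∑ i : I, l i • i.1.1)
    have h1 := hl c hc
    have e1 : ∑ i : I, supp K (l i • i.1.1) = ∑ i : I, l i * supp K i.1.1 := by
      apply Finset.sum_congr rfl
      intro i _
      rw [supp_smul hK hne (hl0 i)]
    have e2 : ∑ i : I, l i * (supp K i.1.1 - r) = ∑ i : I, l i * supp K i.1.1 - r := by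
      have : ∑ i : I, l i * (supp K i.1.1 - r) = ∑ i : I, (l i * supp K i.1.1 - l i * r) := by
        apply Finset.sum_congr rfl
        intro i _; ring
      rw [this, Finset.sum_sub_distrib, ← Finset.sum_mul, hl1, one_mul]
    rw [inner_neg_right] at hc2
    rw [e1, ← hc2]
    rw [e2] at h1
    linarith

lemma supp_sub_le {K : Set (EuclideanSpace ℝ (Fin d))} (hK : IsCompact K) (hne : K.Nonempty)
    {M : ℝ} (hM : ∀ x ∈ K, ‖x‖ ≤ M) (u v : EuclideanSpace ℝ (Fin d)) :
    supp K u - supp K v ≤ M * ‖u - v‖ := by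
  have h1 : supp K u ≤ supp K (u - v) + supp K v := by
    have := supp_add hK hne (u - v) v
    simpa using this
  have h2 : supp K (u - v) ≤ M * ‖u - v‖ := by
    apply supp_le hne
    intro x hx
    exact (real_inner_le_norm x _).trans (mul_le_mul_of_nonneg_right (hM x hx) (norm_nonneg _))
  linarith

lemma continuous_supp {K : Set (EuclideanSpace ℝ (Fin d))} (hK : IsCompact K)
    (hne : K.Nonempty) : Continuous (supp K) := by
  obtain ⟨M, hM⟩ := hK.isBounded.exists_norm_le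
  have hM0 : 0 ≤ M := by
    obtain ⟨x, hx⟩ := hne
    exact (norm_nonneg x).trans (hM x hx)
  have : LipschitzWith (Real.toNNReal M) (supp K) := by
    apply LipschitzWith.of_dist_le_mul
    intro u v
    rw [Real.dist_eq, Real.coe_toNNReal M hM0, abs_le, dist_eq_norm]
    constructor
    · have := supp_sub_le hK hne hM v u
      rw [norm_sub_rev] at this
      linarith
    · exact supp_sub_le hK hne hM u v
  exact this.continuous

/-- Certificate at the critical radius. -/
lemma certificate_crit {K : Set (EuclideanSpace ℝ (Fin d))}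
    (hK : IsCompact K) (hconv : Convex ℝ K) (hne : K.Nonempty) (r : ℝ)
    (h : ∀ r' : ℝ, r < r' → ¬ ∃ c, closedBall c r' ⊆ K) :
    ∃ v : Fin (d + 1) → EuclideanSpace ℝ (Fin d), ∑ i, ‖v i‖ = 1 ∧
      ∑ i, supp K (v i) + supp K (-∑ i, v i) ≤ r := by
  let A : ℕ → Set (Fin (d + 1) → EuclideanSpace ℝ (Fin d)) := fun n =>
    {v | ∑ i, ‖v i‖ = 1 ∧ ∑ i, supp K (v i) + supp K (-∑ i, v i) ≤ r + 1 / ((n : ℝ) + 1)}
  have hs := continuous_supp hK hne
  have hclosed : ∀ n, IsClosed (A n) := by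
    intro n
    have hc2 : Continuous (fun v : Fin (d + 1) → EuclideanSpace ℝ (Fin d) =>
        ∑ i, supp K (v i) + supp K (-∑ i, v i)) := by
      apply Continuous.add
      · exact continuous_finsetSum _ (fun i _ => hs.comp (continuous_apply i))
      · exact hs.comp (by fun_prop)
    have hc1 : Continuous (fun v : Fin (d + 1) → EuclideanSpace ℝ (Fin d) => ∑ i, ‖v i‖) := by
      fun_prop
    have e : A n = {v | ∑ i, ‖v i‖ = 1} ∩
        {v | ∑ i, supp K (v i) + supp K (-∑ i, v i) ≤ r + 1 / ((n : ℝ) + 1)} := rfl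
    rw [e]
    exact (isClosed_eq hc1 continuous_const).inter (isClosed_le hc2 continuous_const)
  have hcomp : IsCompact (A 0) := by
    apply Metric.isCompact_of_isClosed_isBounded (hclosed 0)
    rw [isBounded_iff_forall_norm_le]
    refine ⟨1, fun v hv => ?_⟩
    rw [pi_norm_le_iff_of_nonneg zero_le_one]
    intro i
    rw [← hv.1]
    exact Finset.single_le_sum (fun i _ => norm_nonneg (v i)) (Finset.mem_univ i)
  have hnonempty : ∀ n, (A n).Nonempty := by
    intro n
    have hpos : (0 : ℝ) < 1 / ((n : ℝ) + 1) := by positivity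
    obtain ⟨v, hv1, hv2⟩ := certificate hK hconv hne (r + 1 / ((n : ℝ) + 1))
      (h _ (by linarith))
    exact ⟨v, hv1, hv2.le⟩
  have hanti : ∀ n, A (n + 1) ⊆ A n := by
    intro n v hv
    refine ⟨hv.1, hv.2.trans ?_⟩
    have : 1 / (((n + 1 : ℕ) : ℝ) + 1) ≤ 1 / ((n : ℝ) + 1) := by
      apply one_div_le_one_div_of_le (by positivity)
      push_cast; linarith
    linarith
  obtain ⟨v, hv⟩ := IsCompact.nonempty_iInter_of_sequence_nonempty_isCompact_isClosed A hanti
    hnonempty hcomp hclosed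
  rw [mem_iInter] at hv
  refine ⟨v, (hv 0).1, ?_⟩
  have hlim : Tendsto (fun n : ℕ => r + 1 / ((n : ℝ) + 1)) atTop (𝓝 (r + 0)) :=
    tendsto_const_nhds.add tendsto_one_div_add_atTop_nhds_zero_nat
  rw [add_zero] at hlim
  exact ge_of_tendsto' hlim (fun n => (hv n).2)

/-- For every subset `J` of the certificate vectors, minimal width times the norm of the partial
sum is less than `r`. -/
lemma partial_sum_lt {K : Set (EuclideanSpace ℝ (Fin d))}
    (hK : IsCompact K) (hne : K.Nonempty) {m : ℕ} (v : Fin m → EuclideanSpace ℝ (Fin d)) (r : ℝ)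
    (hv : ∑ i, supp K (v i) + supp K (-∑ i, v i) < r) (J : Finset (Fin m)) :
    minWidth K * ‖∑ i ∈ J, v i‖ < r := by
  classical
  refine lt_of_le_of_lt (minWidth_mul_le hK hne _) (lt_of_le_of_lt ?_ hv)
  have h1 := supp_sum hK hne J v
  have h2 : supp K (-∑ i ∈ J, v i) ≤ ∑ i ∈ Jᶜ, supp K (v i) + supp K (-∑ i, v i) := by
    have e : -∑ i ∈ J, v i = ∑ i ∈ Jᶜ, v i + (-∑ i, v i) := by
      rw [← Finset.sum_add_sum_compl J v]; abel
    rw [e]
    exact (supp_add hK hne _ _).trans (by linarith [supp_sum hK hne Jᶜ v])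
  have h3 := Finset.sum_add_sum_compl J (fun i => supp K (v i))
  linarith

/-- Blaschke: in the plane `w ≤ 3 r`. -/
lemma width_le_plane {K : Set (EuclideanSpace ℝ (Fin 2))}
    (hK : IsCompact K) (hconv : Convex ℝ K) (hne : K.Nonempty) (r : ℝ)
    (h : ¬ ∃ c, closedBall c r ⊆ K) : minWidth K ≤ 3 * r := by
  obtain ⟨v, hv1, hv2⟩ := certificate hK hconv hne r h
  have hJ : ∀ i, minWidth K * ‖v i‖ < r := by
    intro i
    have := partial_sum_lt hK hne v r hv2 {i}
    simpa using this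
  have : minWidth K * ∑ i, ‖v i‖ ≤ 3 * r := by
    rw [Fin.sum_univ_three]
    have h0 := hJ 0
    have h1 := hJ 1
    have h2 := hJ 2
    linarith
  rw [hv1] at this
  linarith

/-- Steinhagen in space: `w ^ 2 ≤ 12 r ^ 2`. -/
lemma width_le_space {K : Set (EuclideanSpace ℝ (Fin 3))}
    (hK : IsCompact K) (hconv : Convex ℝ K) (hne : K.Nonempty) (r : ℝ)
    (h : ¬ ∃ c, closedBall c r ⊆ K) (hw : 0 ≤ minWidth K) : minWidth K ^ 2 ≤ 12 * r ^ 2 := by
  obtain ⟨v, hv1, hv2⟩ := certificate hK hconv hne r h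
  have hJ : ∀ i j, i ≠ j → minWidth K ^ 2 * ‖v i + v j‖ ^ 2 ≤ r ^ 2 := by
    intro i j hij
    have := partial_sum_lt hK hne v r hv2 {i, j}
    rw [Finset.sum_pair hij] at this
    rw [← mul_pow]
    exact pow_le_pow_left₀ (by positivity) this.le 2
  have h01 := hJ 0 1 (by decide)
  have h02 := hJ 0 2 (by decide)
  have h03 := hJ 0 3 (by decide)
  have h12 := hJ 1 2 (by decide)
  have h13 := hJ 1 3 (by decide)
  have h23 := hJ 2 3 (by decide)
  have hs : ‖v 0‖ + ‖v 1‖ + ‖v 2‖ + ‖v 3‖ = 1 := by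
    rw [← hv1, Fin.sum_univ_four]
  have hid : ‖v 0 + v 1‖ ^ 2 + ‖v 0 + v 2‖ ^ 2 + ‖v 0 + v 3‖ ^ 2 + ‖v 1 + v 2‖ ^ 2 +
      ‖v 1 + v 3‖ ^ 2 + ‖v 2 + v 3‖ ^ 2 =
      2 * (‖v 0‖ ^ 2 + ‖v 1‖ ^ 2 + ‖v 2‖ ^ 2 + ‖v 3‖ ^ 2) +
        ‖v 0 + v 1 + v 2 + v 3‖ ^ 2 := by
    simp only [← real_inner_self_eq_norm_sq, inner_add_left, inner_add_right]
    ring
  have hcs : (1 : ℝ) ≤ 4 * (‖v 0‖ ^ 2 + ‖v 1‖ ^ 2 + ‖v 2‖ ^ 2 + ‖v 3‖ ^ 2) := by
    have : (‖v 0‖ + ‖v 1‖ + ‖v 2‖ + ‖v 3‖) ^ 2 = 1 := by rw [hs]; norm_num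
    nlinarith [sq_nonneg (‖v 0‖ - ‖v 1‖), sq_nonneg (‖v 0‖ - ‖v 2‖), sq_nonneg (‖v 0‖ - ‖v 3‖),
      sq_nonneg (‖v 1‖ - ‖v 2‖), sq_nonneg (‖v 1‖ - ‖v 3‖), sq_nonneg (‖v 2‖ - ‖v 3‖)]
  have htot : minWidth K ^ 2 * (‖v 0 + v 1‖ ^ 2 + ‖v 0 + v 2‖ ^ 2 + ‖v 0 + v 3‖ ^ 2 +
      ‖v 1 + v 2‖ ^ 2 + ‖v 1 + v 3‖ ^ 2 + ‖v 2 + v 3‖ ^ 2) ≤ 6 * r ^ 2 := by linarith
  have hlow : (1 : ℝ) / 2 ≤ ‖v 0 + v 1‖ ^ 2 + ‖v 0 + v 2‖ ^ 2 + ‖v 0 + v 3‖ ^ 2 +
      ‖v 1 + v 2‖ ^ 2 + ‖v 1 + v 3‖ ^ 2 + ‖v 2 + v 3‖ ^ 2 := by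
    rw [hid]
    have : 0 ≤ ‖v 0 + v 1 + v 2 + v 3‖ ^ 2 := sq_nonneg _
    linarith
  have h5 := mul_le_mul_of_nonneg_left hlow (sq_nonneg (minWidth K))
  linarith

end Pool.Agent.Helper934.PlankSupp
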