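import Mathlib
import Pool.Agent.Helper934.PlankDefs
import Pool.Agent.Helper934.PlankSupp

open MeasureTheory Metric Set Filter Topology

namespace Pool.Agent.Helper934.PlankUpper

open Pool.Agent.Helper934.PlankDefs Pool.Agent.Helper934.PlankSupp

variable {d : ℕ}

lemma count1 (N : ℕ) (y : ℝ) (h : y < N) :
    y ≤ (Nat.card {t : Fin N // (t : ℝ) ≤ y} : ℝ) := by
  by_cases hy : y < 0
  · exact hy.le.trans (Nat.cast_nonneg _)
  push Not at hy
  have hN : ⌊y⌋₊ + 1 ≤ N := by
    have : ⌊y⌋₊ < N := (Nat.floor_lt hy).mpr h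
    omega
  have hinj : Function.Injective (fun s : Fin (⌊y⌋₊ + 1) =>
      (⟨Fin.castLE hN s, by
        have : (s : ℕ) ≤ ⌊y⌋₊ := Nat.lt_succ_iff.mp s.2
        have h2 : ((s : ℕ) : ℝ) ≤ y := le_trans (by exact_mod_cast this) (Nat.floor_le hy)
        simpa using h2⟩ : {t : Fin N // (t : ℝ) ≤ y})) := by
    intro s t hst
    have := congrArg (fun z => (z.1 : ℕ)) hst
    exact Fin.ext this
  have hc := Nat.card_le_card_of_injective _ hinj
  rw [Nat.card_eq_fintype_card, Fintype.card_fin] at hc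
  calc y ≤ ((⌊y⌋₊ + 1 : ℕ) : ℝ) := by push_cast; exact (Nat.lt_floor_add_one y).le
    _ ≤ _ := by exact_mod_cast hc

lemma costsum (N : ℕ) (y : ℝ) : ∑ t : Fin N, (y - (t : ℝ)) ≤ (y + 1 / 2) ^ 2 / 2 := by
  have h : ∑ t : Fin N, (y - (t : ℝ)) = N * y - (N : ℝ) * (N - 1) / 2 := by
    rw [Fin.sum_univ_eq_sum_range (fun t => y - (t : ℝ)) N]
    induction N with
    | zero => simp
    | succ n ih =>
      rw [Finset.sum_range_succ, ih]
      push_cast
      ring
  rw [h]
  nlinarith [sq_nonneg (y + 1 / 2 - (N : ℝ))]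

/-- Transfer of a covering with an arbitrary finite index type. -/
lemma exists_fin {ι : Type*} [Fintype ι] (K : Set (EuclideanSpace ℝ (Fin d))) (k : ℕ)
    (θ : ι → EuclideanSpace ℝ (Fin d)) (a b : ι → ℝ) (hθ : ∀ i, ‖θ i‖ = 1)
    (hab : ∀ i, a i ≤ b i)
    (h : ∀ x ∈ K, k ≤ Nat.card {i : ι // x ∈ plank (θ i) (a i) (b i)}) :
    ∃ (m : ℕ) (θ' : Fin m → EuclideanSpace ℝ (Fin d)) (a' b' : Fin m → ℝ),
      IsFoldCover K k θ' a' b' ∧ ∑ i, (b' i - a' i) = ∑ i, (b i - a i) := by
  let e := (Fintype.equivFin ι).symm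
  refine ⟨Fintype.card ι, θ ∘ e, a ∘ e, b ∘ e, ⟨fun i => hθ _, fun i => hab _, ?_⟩, ?_⟩
  · intro x hx
    refine (h x hx).trans (le_of_eq ?_)
    exact (Nat.card_congr (e.subtypeEquiv (fun i => Iff.rfl))).symm
  · exact Equiv.sum_comp e (fun i => b i - a i)

lemma upper {K : Set (EuclideanSpace ℝ (Fin d))}
    (hK : IsCompact K) (hne : K.Nonempty) (r : ℝ) (hr : 0 < r)
    (v : Fin (d + 1) → EuclideanSpace ℝ (Fin d)) (hv1 : ∑ i, ‖v i‖ = 1)
    (hv2 : ∑ i, supp K (v i) + supp K (-∑ i, v i) ≤ r) :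
    ∃ C : ℝ, ∀ k : ℕ, 1 ≤ k → ∃ (m : ℕ) (θ : Fin m → EuclideanSpace ℝ (Fin d)) (a b : Fin m → ℝ),
      IsFoldCover K k θ a b ∧ ∑ i, (b i - a i) ≤ 2 * r * k + C := by
  classical
  set u : Fin (d + 2) → EuclideanSpace ℝ (Fin d) := Fin.cons (-∑ i, v i) v with hu
  have hu0 : ∑ j, u j = 0 := by
    rw [Fin.sum_univ_succ]; simp [hu]
  have huR : ∑ j, supp K (u j) ≤ r := by
    rw [Fin.sum_univ_succ]
    simp only [hu, Fin.cons_zero, Fin.cons_succ]
    linarith
  have huL : 1 ≤ ∑ j, ‖u j‖ := by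
    rw [Fin.sum_univ_succ]
    simp only [hu, Fin.cons_zero, Fin.cons_succ]
    have := norm_nonneg (-∑ i, v i)
    linarith
  clear_value u
  set L := ∑ j, ‖u j‖ with hL
  set R0 := ∑ j, supp K (u j) with hR0
  set R := r with hR
  have hRpos : 0 < R := hr
  have hR0R : R0 ≤ R := huR
  have hLpos : 0 < L := by linarith
  refine ⟨(d + 2) * R + ∑ j, R / (8 * ‖u j‖), ?_⟩
  intro k hk
  have hkpos : (0 : ℝ) < k := by exact_mod_cast hk
  set α := 2 * R / L with hα
  -- number of planks in direction j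
  set N : Fin (d + 2) → ℕ := fun j => if u j = 0 then 0 else ⌊2 * k * ‖u j‖ / L⌋₊ + 1 with hN
  set δ : Fin (d + 2) → ℝ := fun j => R / (k * ‖u j‖) with hδ
  have hNz : ∀ j, u j = 0 → N j = 0 := by
    intro j hj; simp [hN, hj]
  have hne0 : ∀ p : (Σ j, Fin (N j)), u p.1 ≠ 0 := by
    rintro ⟨j, t⟩ hj
    have h0 := hNz j hj
    have := t.2
    omega
  have hδpos : ∀ j, u j ≠ 0 → 0 < δ j := by
    intro j hj
    have : 0 < ‖u j‖ := norm_pos_iff.mpr hj
    simp only [hδ]; positivity
  have hyδ : ∀ j, u j ≠ 0 → (2 * k * ‖u j‖ / L) * δ j = α := by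
    intro j hj
    have : 0 < ‖u j‖ := norm_pos_iff.mpr hj
    simp only [hδ, hα]; field_simp
  obtain ⟨m, θ', a', b', hcov, hsum⟩ := exists_fin (ι := Σ j, Fin (N j)) K k
    (fun p => ‖u p.1‖⁻¹ • u p.1)
    (fun p => supp K (u p.1) / ‖u p.1‖ - (α - (p.2 : ℝ) * δ p.1))
    (fun p => supp K (u p.1) / ‖u p.1‖)
    (by
      intro p
      have : 0 < ‖u p.1‖ := norm_pos_iff.mpr (hne0 p)
      rw [norm_smul, norm_inv, norm_norm]; field_simp)
    (by
      rintro ⟨j, t⟩
      have hj := hne0 ⟨j, t⟩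
      simp only at hj ⊢
      have hδj := hδpos j hj
      have ht : ((t : ℕ) : ℝ) ≤ 2 * k * ‖u j‖ / L := by
        have h1 : (t : ℕ) < N j := t.2
        have h2 : N j = ⌊2 * k * ‖u j‖ / L⌋₊ + 1 := by simp [hN, hj]
        have h3 : (t : ℕ) ≤ ⌊2 * k * ‖u j‖ / L⌋₊ := by omega
        exact le_trans (by exact_mod_cast h3) (Nat.floor_le (by positivity))
      have := mul_le_mul_of_nonneg_right ht hδj.le
      rw [hyδ j hj] at this
      linarith)
    (by
      intro x hx
      -- the count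
      have hcard : Nat.card {p : (Σ j, Fin (N j)) // x ∈ plank (‖u p.1‖⁻¹ • u p.1)
          (supp K (u p.1) / ‖u p.1‖ - (α - (p.2 : ℝ) * δ p.1)) (supp K (u p.1) / ‖u p.1‖)} =
          ∑ j, Nat.card {t : Fin (N j) // x ∈ plank (‖u j‖⁻¹ • u j)
          (supp K (u j) / ‖u j‖ - (α - (t : ℝ) * δ j)) (supp K (u j) / ‖u j‖)} := by
        rw [← Nat.card_sigma]
        apply Nat.card_congr
        exact ⟨fun p => ⟨p.1.1, ⟨p.1.2, p.2⟩⟩, fun q => ⟨⟨q.1, q.2.1⟩, q.2.2⟩,
          by rintro ⟨⟨_, _⟩, _⟩; rfl, by rintro ⟨_, ⟨_, _⟩⟩; rfl⟩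
      have hreal : (k : ℝ) ≤ ((∑ j, Nat.card {t : Fin (N j) // x ∈ plank (‖u j‖⁻¹ • u j)
          (supp K (u j) / ‖u j‖ - (α - (t : ℝ) * δ j)) (supp K (u j) / ‖u j‖)} : ℕ) : ℝ) := by
        have hj : ∀ j, (k / R) * (α * ‖u j‖ - (supp K (u j) - inner ℝ x (u j))) ≤
            (Nat.card {t : Fin (N j) // x ∈ plank (‖u j‖⁻¹ • u j)
              (supp K (u j) / ‖u j‖ - (α - (t : ℝ) * δ j)) (supp K (u j) / ‖u j‖)} : ℝ) := by
          intro j
          by_cases hj : u j = 0
          · rw [hj, supp_zero hK hne]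
            simp
          have hnj : 0 < ‖u j‖ := norm_pos_iff.mpr hj
          set y := (k / R) * (α * ‖u j‖ - (supp K (u j) - inner ℝ x (u j))) with hy
          have hsx : 0 ≤ supp K (u j) - inner ℝ x (u j) := sub_nonneg.mpr (le_supp hK hx _)
          have hyN : y < N j := by
            have h2 : N j = ⌊2 * k * ‖u j‖ / L⌋₊ + 1 := by simp [hN, hj]
            rw [h2]
            have h3 : y ≤ 2 * k * ‖u j‖ / L := by
              have e : 2 * k * ‖u j‖ / L = (k / R) * (α * ‖u j‖) := by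
                simp only [hα]; field_simp
              rw [e, hy]
              apply mul_le_mul_of_nonneg_left _ (by positivity)
              linarith
            push_cast
            exact lt_of_le_of_lt h3 (Nat.lt_floor_add_one _)
          refine (count1 (N j) y hyN).trans (le_of_eq ?_)
          congr 1
          apply Nat.card_congr
          apply Equiv.subtypeEquivRight
          intro t
          simp only [plank, mem_ofPred_eq, inner_smul_right]
          have hδj := hδpos j hj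
          have e1 : y * δ j = α - (supp K (u j) - inner ℝ x (u j)) / ‖u j‖ := by
            simp only [hy, hδ]; field_simp
          have e2 : ‖u j‖⁻¹ * inner ℝ x (u j) = supp K (u j) / ‖u j‖ -
              (supp K (u j) - inner ℝ x (u j)) / ‖u j‖ := by field_simp; ring
          have hsx' : 0 ≤ (supp K (u j) - inner ℝ x (u j)) / ‖u j‖ := by positivity
          constructor
          · intro ht
            have := mul_le_mul_of_nonneg_right ht hδj.le
            exact ⟨by linarith, by linarith⟩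
          · rintro ⟨h1, _⟩
            have : (t : ℝ) * δ j ≤ y * δ j := by linarith
            exact le_of_mul_le_mul_right this hδj
        push_cast
        refine le_trans ?_ (Finset.sum_le_sum (fun j _ => hj j))
        rw [← Finset.mul_sum, Finset.sum_sub_distrib, ← Finset.mul_sum, Finset.sum_sub_distrib,
          ← inner_sum, hu0, inner_zero_right, ← hL, ← hR0]
        have e3 : α * L = 2 * R := by simp only [hα]; field_simp
        rw [e3]
        calc (k : ℝ) = (k / R) * R := by field_simp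
          _ ≤ _ := by
            apply mul_le_mul_of_nonneg_left _ (by positivity)
            linarith
      rw [hcard]
      exact_mod_cast hreal)
  refine ⟨m, θ', a', b', hcov, ?_⟩
  rw [hsum, Fintype.sum_sigma]
  have hj : ∀ j, ∑ t : Fin (N j), (supp K (u j) / ‖u j‖ -
      (supp K (u j) / ‖u j‖ - (α - (t : ℝ) * δ j))) ≤
      2 * R * k / L ^ 2 * ‖u j‖ + (R + R / (8 * ‖u j‖)) := by
    intro j
    by_cases hj : u j = 0
    · have h0 := hNz j hj
      have : ∑ t : Fin (N j), (supp K (u j) / ‖u j‖ -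
        (supp K (u j) / ‖u j‖ - (α - (t : ℝ) * δ j))) = 0 := by
        have : IsEmpty (Fin (N j)) := by rw [h0]; infer_instance
        exact Fintype.sum_empty _
      rw [this]
      positivity
    have hnj : 0 < ‖u j‖ := norm_pos_iff.mpr hj
    have hδj := hδpos j hj
    set y := 2 * k * ‖u j‖ / L with hy
    have e1 : ∑ t : Fin (N j), (supp K (u j) / ‖u j‖ -
        (supp K (u j) / ‖u j‖ - (α - (t : ℝ) * δ j))) = δ j * ∑ t : Fin (N j), (y - (t : ℝ)) := by
      rw [Finset.mul_sum]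
      apply Finset.sum_congr rfl
      intro t _
      have := hyδ j hj
      rw [← hy] at this
      linarith
    rw [e1]
    have h1 := mul_le_mul_of_nonneg_left (costsum (N j) y) hδj.le
    refine h1.trans ?_
    have e2 : δ j * ((y + 1 / 2) ^ 2 / 2) = 2 * R * k / L ^ 2 * ‖u j‖ + R / L +
        R / (8 * (k * ‖u j‖)) := by
      simp only [hy, hδ]; field_simp; ring
    rw [e2, add_assoc]
    have h2 : R / L ≤ R := div_le_self hRpos.le huL
    have h3 : R / (8 * (k * ‖u j‖)) ≤ R / (8 * ‖u j‖) := by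
      apply div_le_div_of_nonneg_left hRpos.le (by positivity)
      have hk1 : (1 : ℝ) ≤ k := by exact_mod_cast hk
      nlinarith
    linarith
  refine (Finset.sum_le_sum (fun j _ => hj j)).trans ?_
  rw [Finset.sum_add_distrib, ← Finset.mul_sum, ← hL, Finset.sum_add_distrib]
  have e4 : 2 * R * k / L ^ 2 * L = 2 * R * k / L := by field_simp
  have h5 : 2 * R * k / L ≤ 2 * r * k := by
    have : 2 * R * k / L ≤ 2 * R * k := div_le_self (by positivity) huL
    nlinarith
  rw [e4]
  simp only [Finset.sum_const, Finset.card_univ, Fintype.card_fin, nsmul_eq_mul]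
  push_cast
  linarith

end Pool.Agent.Helper934.PlankUpper
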