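import Mathlib
import Pool.Agent.Helper934.PlankDefs
import Pool.Agent.Helper934.PlankSupp
import Pool.Agent.Helper934.PlankUpper
import Pool.Agent.Helper934.PlankCore

open MeasureTheory Metric Set Filter Topology

namespace Pool.Agent.Helper934.PlankMain

open Pool.Agent.Helper934.PlankDefs Pool.Agent.Helper934.PlankSupp
  Pool.Agent.Helper934.PlankUpper Pool.Agent.Helper934.PlankCore

variable {d : ℕ}

lemma exists_unit (hd : 1 ≤ d) : ∃ e : EuclideanSpace ℝ (Fin d), ‖e‖ = 1 := by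
  refine ⟨EuclideanSpace.single ⟨0, hd⟩ 1, ?_⟩
  simp

lemma bddAbove_radii (hd : 1 ≤ d) {K : Set (EuclideanSpace ℝ (Fin d))} (hK : IsCompact K) :
    BddAbove {r : ℝ | 0 ≤ r ∧ ∃ c : EuclideanSpace ℝ (Fin d), closedBall c r ⊆ K} := by
  obtain ⟨M, hM⟩ := hK.isBounded.exists_norm_le
  obtain ⟨e, he⟩ := exists_unit hd
  refine ⟨M, ?_⟩
  rintro r ⟨hr, c, hc⟩
  have h1 := hM _ (hc (show c + r • e ∈ closedBall c r by
    simp [mem_closedBall, dist_eq_norm, norm_smul, he, abs_of_nonneg hr]))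
  have h2 := hM _ (hc (show c - r • e ∈ closedBall c r by
    simp [mem_closedBall, dist_eq_norm, norm_smul, he, abs_of_nonneg hr]))
  have h3 : ‖(2 * r) • e‖ ≤ 2 * M := by
    have : (2 * r) • e = (c + r • e) - (c - r • e) := by
      rw [two_mul, add_smul]; abel
    rw [this]
    exact (norm_sub_le _ _).trans (by linarith)
  rw [norm_smul, he, mul_one, Real.norm_eq_abs, abs_of_nonneg (by linarith)] at h3
  linarith

lemma ball_of_lt {K : Set (EuclideanSpace ℝ (Fin d))} (hb : IsConvexBody K)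
    {r : ℝ} (hr : r < inradius K) : ∃ c, closedBall c r ⊆ K := by
  have hne : {r : ℝ | 0 ≤ r ∧ ∃ c : EuclideanSpace ℝ (Fin d), closedBall c r ⊆ K}.Nonempty := by
    obtain ⟨c, hc⟩ := hb.2.2
    refine ⟨0, le_rfl, c, ?_⟩
    rw [closedBall_zero]
    exact singleton_subset_iff.mpr (interior_subset hc)
  obtain ⟨s, ⟨_, c, hc⟩, hs⟩ := exists_lt_of_lt_csSup hne hr
  exact ⟨c, (closedBall_subset_closedBall hs.le).trans hc⟩

lemma not_ball_of_gt (hd : 1 ≤ d) {K : Set (EuclideanSpace ℝ (Fin d))} (hb : IsConvexBody K)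
    (r : ℝ) (hr : inradius K < r) : ¬ ∃ c, closedBall c r ⊆ K := by
  rintro ⟨c, hc⟩
  have h0 : 0 ≤ inradius K := Real.sSup_nonneg (fun _ h => h.1)
  have := le_csSup (bddAbove_radii hd hb.1) (⟨by linarith, c, hc⟩ :
    r ∈ {r : ℝ | 0 ≤ r ∧ ∃ c : EuclideanSpace ℝ (Fin d), closedBall c r ⊆ K})
  unfold inradius at hr
  linarith

lemma inradius_pos (hd : 1 ≤ d) {K : Set (EuclideanSpace ℝ (Fin d))} (hb : IsConvexBody K) :
    0 < inradius K := by
  obtain ⟨c, hc⟩ := hb.2.2
  obtain ⟨ε, hε, hball⟩ := Metric.isOpen_iff.mp isOpen_interior c hc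
  have : ε / 2 ≤ inradius K := by
    apply le_csSup (bddAbove_radii hd hb.1)
    refine ⟨by linarith, c, ?_⟩
    exact (closedBall_subset_ball (by linarith)).trans (hball.trans interior_subset)
  linarith

lemma width_ge_of_ball {K : Set (EuclideanSpace ℝ (Fin d))} (hb : IsConvexBody K)
    {c : EuclideanSpace ℝ (Fin d)} {r : ℝ} (hr : 0 ≤ r) (hc : closedBall c r ⊆ K)
    (u : EuclideanSpace ℝ (Fin d)) (hu : ‖u‖ = 1) : 2 * r ≤ widthIn K u := by
  have hne : K.Nonempty := hb.2.2.mono interior_subset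
  rw [widthIn_eq hb.1 hne]
  have e : inner ℝ u u = (1 : ℝ) := by rw [real_inner_self_eq_norm_sq, hu]; norm_num
  have h1 := le_supp hb.1 (hc (show c + r • u ∈ closedBall c r by
    simp [mem_closedBall, dist_eq_norm, norm_smul, hu, abs_of_nonneg hr])) u
  have h2 := le_supp hb.1 (hc (show c - r • u ∈ closedBall c r by
    simp [mem_closedBall, dist_eq_norm, norm_smul, hu, abs_of_nonneg hr])) (-u)
  rw [inner_add_left, inner_smul_left, e] at h1
  rw [inner_neg_right, inner_sub_left, inner_smul_left, e] at h2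
  simp only [conj_trivial] at h1 h2
  linarith

lemma minWidth_ge (hd : 1 ≤ d) {K : Set (EuclideanSpace ℝ (Fin d))} (hb : IsConvexBody K) :
    2 * inradius K ≤ minWidth K := by
  obtain ⟨e, he⟩ := exists_unit hd
  refine le_csInf (show Set.Nonempty {w : ℝ | ∃ u : EuclideanSpace ℝ (Fin d), ‖u‖ = 1 ∧
    w = widthIn K u} from ⟨_, e, he, rfl⟩) ?_
  rintro _ ⟨u, hu, rfl⟩
  apply le_of_forall_lt
  intro x hx
  have hlt : max (x / 2) 0 < inradius K := max_lt (by linarith) (inradius_pos hd hb)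
  obtain ⟨s, hs1, hs2⟩ := exists_between hlt
  obtain ⟨c, hc⟩ := ball_of_lt hb hs2
  have h0 : 0 ≤ s := (le_max_right _ _).trans hs1.le
  have := width_ge_of_ball hb h0 hc u hu
  have := (le_max_left (x / 2) 0).trans_lt hs1
  linarith

lemma minWidth_pos (hd : 1 ≤ d) {K : Set (EuclideanSpace ℝ (Fin d))} (hb : IsConvexBody K) :
    0 < minWidth K := by
  have := minWidth_ge hd hb
  have := inradius_pos hd hb
  linarith

/-- The total width of a `k`-fold covering is at least `2 r k`, for `d = 2, 3`. -/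
lemma total_ge (hd : d = 2 ∨ d = 3) {K : Set (EuclideanSpace ℝ (Fin d))} (hb : IsConvexBody K)
    (k m : ℕ) (θ : Fin m → EuclideanSpace ℝ (Fin d)) (a b : Fin m → ℝ)
    (hc : IsFoldCover K k θ a b) : 2 * inradius K * k ≤ ∑ i, (b i - a i) := by
  have hd1 : 1 ≤ d := by omega
  have key : ∀ ρ : ℝ, 0 < ρ → ρ < inradius K → 2 * ρ * k ≤ ∑ i, (b i - a i) := by
    intro ρ h1 h2
    obtain ⟨g, hg⟩ := ball_of_lt hb h2
    rcases hd with rfl | rfl
    · exact ball2 g ρ h1 k θ a b hc.1 hc.2.1 (fun x hx => hc.2.2 x (hg hx))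
    · exact ball3 g ρ h1 k θ a b hc.1 hc.2.1 (fun x hx => hc.2.2 x (hg hx))
  have hpos := inradius_pos hd1 hb
  have c1 : Tendsto (fun r : ℝ => 2 * r * k) (𝓝[<] (inradius K)) (𝓝 (2 * inradius K * k)) := by
    apply tendsto_nhdsWithin_of_tendsto_nhds
    have : Continuous (fun r : ℝ => 2 * r * k) := by fun_prop
    exact this.tendsto _
  apply le_of_tendsto c1
  have : Ioo 0 (inradius K) ∈ 𝓝[<] (inradius K) := Ioo_mem_nhdsLT hpos
  filter_upwards [this] with r hr
  exact key r hr.1 hr.2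

/-- `k` copies of the plank cut out by the two supporting hyperplanes. -/
lemma trivial_cover {K : Set (EuclideanSpace ℝ (Fin d))} (hb : IsConvexBody K) (k : ℕ)
    (u : EuclideanSpace ℝ (Fin d)) (hu : ‖u‖ = 1) :
    IsFoldCover K k (fun _ : Fin k => u) (fun _ => -supp K (-u)) (fun _ => supp K u) := by
  have hne : K.Nonempty := hb.2.2.mono interior_subset
  refine ⟨fun _ => hu, fun _ => ?_, ?_⟩
  · have := widthIn_nonneg hb.1 hne u
    rw [widthIn_eq hb.1 hne] at this
    linarith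
  · intro x hx
    have h1 := le_supp hb.1 hx u
    have h2 := le_supp hb.1 hx (-u)
    rw [inner_neg_right] at h2
    have : ∀ _ : Fin k, x ∈ plank u (-supp K (-u)) (supp K u) := fun _ =>
      ⟨by linarith, h1⟩
    rw [Nat.card_congr (Equiv.subtypeUnivEquiv this)]
    simp

lemma bddBelow_cover {K : Set (EuclideanSpace ℝ (Fin d))} (hw : 0 ≤ minWidth K) (k : ℕ) :
    BddBelow {c : ℝ | ∃ (m : ℕ) (θ : Fin m → EuclideanSpace ℝ (Fin d)) (a b : Fin m → ℝ),
      IsFoldCover K k θ a b ∧ c = (∑ i, (b i - a i)) / minWidth K} := by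
  refine ⟨0, ?_⟩
  rintro _ ⟨m, θ, a, b, hc, rfl⟩
  exact div_nonneg (Finset.sum_nonneg (fun i _ => sub_nonneg.mpr (hc.2.1 i))) hw

lemma coverConst_le {K : Set (EuclideanSpace ℝ (Fin d))} (hw : 0 ≤ minWidth K) {k m : ℕ}
    {θ : Fin m → EuclideanSpace ℝ (Fin d)} {a b : Fin m → ℝ} (hc : IsFoldCover K k θ a b) :
    coverConst K k ≤ (∑ i, (b i - a i)) / minWidth K :=
  csInf_le (bddBelow_cover hw k) ⟨m, θ, a, b, hc, rfl⟩

lemma coverConst_nonneg {K : Set (EuclideanSpace ℝ (Fin d))} (hw : 0 ≤ minWidth K) (k : ℕ) :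
    0 ≤ coverConst K k := by
  apply Real.sInf_nonneg
  rintro _ ⟨m, θ, a, b, hc, rfl⟩
  exact div_nonneg (Finset.sum_nonneg (fun i _ => sub_nonneg.mpr (hc.2.1 i))) hw

/-- `c_K(k) ≤ k`. -/
lemma coverConst_le_self (hd : 1 ≤ d) {K : Set (EuclideanSpace ℝ (Fin d))} (hb : IsConvexBody K)
    (k : ℕ) : coverConst K k ≤ k := by
  have hw := minWidth_pos hd hb
  have hne : K.Nonempty := hb.2.2.mono interior_subset
  obtain ⟨e, he⟩ := exists_unit hd
  rcases Nat.eq_zero_or_pos k with rfl | hk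
  · have := coverConst_le hw.le (trivial_cover hb 0 e he)
    simpa using this
  have hkpos : (0 : ℝ) < k := by exact_mod_cast hk
  have h : coverConst K k * minWidth K / k ≤ minWidth K := by
    refine le_csInf (show Set.Nonempty {w : ℝ | ∃ u : EuclideanSpace ℝ (Fin d), ‖u‖ = 1 ∧
      w = widthIn K u} from ⟨_, e, he, rfl⟩) ?_
    rintro _ ⟨u, hu, rfl⟩
    have := coverConst_le hw.le (trivial_cover hb k u hu)
    rw [le_div_iff₀ hw] at this
    simp only [Finset.sum_const, Finset.card_univ, Fintype.card_fin, nsmul_eq_mul] at this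
    rw [div_le_iff₀ hkpos, widthIn_eq hb.1 hne]
    linarith
  rw [div_le_iff₀ hkpos, mul_comm] at h
  exact le_of_mul_le_mul_left h hw

lemma coverConst_ge (hd : d = 2 ∨ d = 3) {K : Set (EuclideanSpace ℝ (Fin d))}
    (hb : IsConvexBody K) (k : ℕ) : 2 * inradius K / minWidth K * k ≤ coverConst K k := by
  have hd1 : 1 ≤ d := by omega
  have hw := minWidth_pos hd1 hb
  obtain ⟨e, he⟩ := exists_unit hd1
  refine le_csInf (show Set.Nonempty {c : ℝ | ∃ (m : ℕ) (θ : Fin m → EuclideanSpace ℝ (Fin d))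
    (a b : Fin m → ℝ), IsFoldCover K k θ a b ∧ c = (∑ i, (b i - a i)) / minWidth K} from
    ⟨_, k, _, _, _, trivial_cover hb k e he, rfl⟩) ?_
  rintro _ ⟨m, θ, a, b, hc, rfl⟩
  have := total_ge hd hb k m θ a b hc
  rw [div_mul_eq_mul_div]
  exact div_le_div_of_nonneg_right this hw.le

lemma coverConst_upper (hd : 1 ≤ d) {K : Set (EuclideanSpace ℝ (Fin d))}
    (hb : IsConvexBody K) : ∃ C : ℝ, ∀ k : ℕ, 1 ≤ k →
      coverConst K k ≤ 2 * inradius K / minWidth K * k + C := by
  have hw := minWidth_pos hd hb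
  have hne : K.Nonempty := hb.2.2.mono interior_subset
  obtain ⟨v, hv1, hv2⟩ := certificate_crit hb.1 hb.2.1 hne (inradius K)
    (fun r' hr' => not_ball_of_gt hd hb r' hr')
  obtain ⟨C, hC⟩ := upper hb.1 hne (inradius K) (inradius_pos hd hb) v hv1 hv2
  refine ⟨C / minWidth K, fun k hk => ?_⟩
  obtain ⟨m, θ, a, b, hc, hsum⟩ := hC k hk
  refine (coverConst_le hw.le hc).trans ?_
  have : 2 * inradius K / minWidth K * k + C / minWidth K =
      (2 * inradius K * k + C) / minWidth K := by ring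
  rw [this]
  exact div_le_div_of_nonneg_right hsum hw.le

lemma tendsto_of_bounds (f : ℕ → ℝ) (L C : ℝ) (h1 : ∀ k : ℕ, 1 ≤ k → L * k ≤ f k)
    (h2 : ∀ k : ℕ, 1 ≤ k → f k ≤ L * k + C) :
    Tendsto (fun k : ℕ => f k / k) atTop (𝓝 L) := by
  have hu : Tendsto (fun k : ℕ => L + C / (k : ℝ)) atTop (𝓝 (L + 0)) :=
    tendsto_const_nhds.add (tendsto_const_div_atTop_nhds_zero_nat C)
  rw [add_zero] at hu
  apply tendsto_of_tendsto_of_tendsto_of_le_of_le' tendsto_const_nhds hu
  · filter_upwards [eventually_ge_atTop 1] with k hk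
    have : (0 : ℝ) < k := by exact_mod_cast hk
    rw [le_div_iff₀ this]
    exact h1 k hk
  · filter_upwards [eventually_ge_atTop 1] with k hk
    have : (0 : ℝ) < k := by exact_mod_cast hk
    rw [div_le_iff₀ this]
    have := h2 k hk
    calc f k ≤ L * k + C := this
      _ = (L + C / k) * k := by field_simp

/-- Centrally symmetric bodies: `w ≤ 2 r`. -/
lemma symm_width (hd : 1 ≤ d) {K : Set (EuclideanSpace ℝ (Fin d))} (hb : IsConvexBody K)
    (p : EuclideanSpace ℝ (Fin d)) (hp : ∀ x ∈ K, (2 : ℝ) • p - x ∈ K) :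
    minWidth K = 2 * inradius K := by
  have hw := minWidth_pos hd hb
  have hne : K.Nonempty := hb.2.2.mono interior_subset
  apply le_antisymm _ (minWidth_ge hd hb)
  have hball : closedBall p (minWidth K / 2) ⊆ K := by
    apply ball_subset_of_supp hb.1 hb.2.1 hne
    intro n hn
    have h1 := minWidth_le hb.1 hne n hn
    rw [widthIn_eq hb.1 hne] at h1
    have h2 : supp K (-n) ≤ supp K n - 2 * inner ℝ p n := by
      apply supp_le hne
      intro x hx
      have := le_supp hb.1 (hp x hx) n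
      rw [inner_sub_left, inner_smul_left] at this
      simp only [conj_trivial] at this
      rw [inner_neg_right]
      linarith
    linarith
  have := le_csSup (bddAbove_radii hd hb.1) (⟨by linarith, p, hball⟩ :
    minWidth K / 2 ∈ {r : ℝ | 0 ≤ r ∧ ∃ c : EuclideanSpace ℝ (Fin d), closedBall c r ⊆ K})
  unfold inradius
  linarith

end Pool.Agent.Helper934.PlankMain
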