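import Mathlib
import Pool.Agent.Helper934.PlankDefs
import Pool.Agent.Helper934.PlankSupp
import Pool.Agent.Helper934.PlankUpper
import Pool.Agent.Helper934.PlankCore
import Pool.Agent.Helper934.PlankMain

open MeasureTheory Metric Set Filter Topology

namespace Pool.Agent.Helper934.PlankExtremal

open Pool.Agent.Helper934.PlankDefs Pool.Agent.Helper934.PlankSupp
  Pool.Agent.Helper934.PlankUpper Pool.Agent.Helper934.PlankCore Pool.Agent.Helper934.PlankMain

/-- equilateral triangle with inradius `1` -/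
def tri : Set (EuclideanSpace ℝ (Fin 2)) :=
  {x | -1 ≤ x 1 ∧ -2 ≤ Real.sqrt 3 * x 0 - x 1 ∧ -2 ≤ -Real.sqrt 3 * x 0 - x 1}

/-- regular tetrahedron inscribed in a cube -/
def tet : Set (EuclideanSpace ℝ (Fin 3)) :=
  {x | -1 ≤ x 0 + x 1 + x 2 ∧ -1 ≤ x 0 - x 1 - x 2 ∧ -1 ≤ -x 0 + x 1 - x 2 ∧
    -1 ≤ -x 0 - x 1 + x 2}

lemma coord_le {d : ℕ} (x : EuclideanSpace ℝ (Fin d)) (i : Fin d) : |x i| ≤ ‖x‖ := by
  simpa using PiLp.norm_apply_le x i

lemma sqrt3_bounds : (17 / 10 : ℝ) < Real.sqrt 3 ∧ Real.sqrt 3 < 18 / 10 := by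
  constructor
  · rw [Real.lt_sqrt (by norm_num)]; norm_num
  · rw [Real.sqrt_lt' (by norm_num)]; norm_num

lemma sq3 : Real.sqrt 3 * Real.sqrt 3 = 3 := Real.mul_self_sqrt (by norm_num)

lemma tri_body : IsConvexBody tri := by
  obtain ⟨s1, s2⟩ := sqrt3_bounds
  refine ⟨?_, ?_, ?_⟩
  · apply Metric.isCompact_of_isClosed_isBounded
    · have e : tri = {x : EuclideanSpace ℝ (Fin 2) | -1 ≤ x 1} ∩
          ({x | -2 ≤ Real.sqrt 3 * x 0 - x 1} ∩ {x | -2 ≤ -Real.sqrt 3 * x 0 - x 1}) := rfl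
      rw [e]
      exact (isClosed_le continuous_const (by fun_prop)).inter
        ((isClosed_le continuous_const (by fun_prop)).inter
          (isClosed_le continuous_const (by fun_prop)))
    · rw [isBounded_iff_forall_norm_le]
      refine ⟨4, fun x hx => ?_⟩
      obtain ⟨h1, h2, h3⟩ := hx
      rw [EuclideanSpace.norm_eq, Real.sqrt_le_left (by norm_num)]
      simp only [Fin.sum_univ_two, Real.norm_eq_abs, sq_abs]
      have hy : x 1 ≤ 2 := by linarith
      have hxa : Real.sqrt 3 * x 0 ≤ 3 := by linarith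
      have hxb : -3 ≤ Real.sqrt 3 * x 0 := by linarith
      have : (Real.sqrt 3 * x 0) ^ 2 ≤ 9 := by nlinarith
      have e : (Real.sqrt 3 * x 0) ^ 2 = 3 * x 0 ^ 2 := by
        rw [mul_pow, sq (Real.sqrt 3), sq3]
      nlinarith
  · intro x hx y hy a b ha hb hab
    obtain ⟨h1, h2, h3⟩ := hx
    obtain ⟨g1, g2, g3⟩ := hy
    refine ⟨?_, ?_, ?_⟩
    · simp only [PiLp.add_apply, PiLp.smul_apply, smul_eq_mul]
      nlinarith
    · simp only [PiLp.add_apply, PiLp.smul_apply, smul_eq_mul]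
      nlinarith
    · simp only [PiLp.add_apply, PiLp.smul_apply, smul_eq_mul]
      nlinarith
  · refine ⟨0, ?_⟩
    rw [mem_interior]
    refine ⟨ball 0 (1 / 2), ?_, isOpen_ball, mem_ball_self (by norm_num)⟩
    intro x hx
    rw [mem_ball, dist_zero_right] at hx
    have h0 := coord_le x 0
    have h1 := coord_le x 1
    have h0' := abs_le.mp (h0.trans hx.le)
    have h1' := abs_le.mp (h1.trans hx.le)
    refine ⟨by linarith [h1'.1], ?_, ?_⟩
    · nlinarith [h0'.1, h0'.2, h1'.1, h1'.2]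
    · nlinarith [h0'.1, h0'.2, h1'.1, h1'.2]

lemma tri_inradius : inradius tri ≤ 1 := by
  obtain ⟨s1, s2⟩ := sqrt3_bounds
  apply Real.sSup_le _ (by norm_num)
  rintro r ⟨hr, c, hc⟩
  have m0 : (!₂[c 0, c 1 - r] : EuclideanSpace ℝ (Fin 2)) ∈ closedBall c r := by
    rw [mem_closedBall, EuclideanSpace.dist_eq, Real.sqrt_le_left hr]
    simp [Fin.sum_univ_two, Real.dist_eq]
  have m1 : (!₂[c 0 - r * (Real.sqrt 3 / 2), c 1 + r / 2] : EuclideanSpace ℝ (Fin 2)) ∈
      closedBall c r := by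
    rw [mem_closedBall, EuclideanSpace.dist_eq, Real.sqrt_le_left hr]
    simp only [Fin.sum_univ_two, Real.dist_eq, sq_abs]
    simp only [Matrix.cons_val_zero, Matrix.cons_val_one]
    have := sq3
    nlinarith
  have m2 : (!₂[c 0 + r * (Real.sqrt 3 / 2), c 1 + r / 2] : EuclideanSpace ℝ (Fin 2)) ∈
      closedBall c r := by
    rw [mem_closedBall, EuclideanSpace.dist_eq, Real.sqrt_le_left hr]
    simp only [Fin.sum_univ_two, Real.dist_eq, sq_abs]
    simp only [Matrix.cons_val_zero, Matrix.cons_val_one]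
    have := sq3
    nlinarith
  have h0 := (hc m0).1
  have h1 := (hc m1).2.1
  have h2 := (hc m2).2.2
  simp only [Matrix.cons_val_zero, Matrix.cons_val_one] at h0 h1 h2
  have := sq3
  nlinarith

lemma sqlt {a W : ℝ} (h1 : a ≤ W) (h2 : -a ≤ W) (h3 : W < 3) : a ^ 2 < 9 := by nlinarith

lemma tri_minWidth : 3 ≤ minWidth tri := by
  have hb := tri_body
  obtain ⟨s1, s2⟩ := sqrt3_bounds
  have hs := sq3
  have hne : tri.Nonempty := hb.2.2.mono interior_subset
  obtain ⟨e, he⟩ := exists_unit (d := 2) (by norm_num)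
  refine le_csInf (show Set.Nonempty {w : ℝ | ∃ u : EuclideanSpace ℝ (Fin 2), ‖u‖ = 1 ∧
    w = widthIn tri u} from ⟨_, e, he, rfl⟩) ?_
  rintro _ ⟨u, hu, rfl⟩
  have v0 : (!₂[0, 2] : EuclideanSpace ℝ (Fin 2)) ∈ tri := by
    refine ⟨?_, ?_, ?_⟩ <;> simp <;> norm_num
  have v1 : (!₂[Real.sqrt 3, -1] : EuclideanSpace ℝ (Fin 2)) ∈ tri := by
    refine ⟨?_, ?_, ?_⟩ <;> simp <;> nlinarith
  have v2 : (!₂[-Real.sqrt 3, -1] : EuclideanSpace ℝ (Fin 2)) ∈ tri := by
    refine ⟨?_, ?_, ?_⟩ <;> simp <;> nlinarith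
  rw [widthIn_eq hb.1 hne]
  have a0 := le_supp hb.1 v0 u
  have a1 := le_supp hb.1 v1 u
  have a2 := le_supp hb.1 v2 u
  have b0 := le_supp hb.1 v0 (-u)
  have b1 := le_supp hb.1 v1 (-u)
  have b2 := le_supp hb.1 v2 (-u)
  have hu2 : u 0 ^ 2 + u 1 ^ 2 = 1 := by
    have : ‖u‖ ^ 2 = 1 := by rw [hu]; norm_num
    rw [EuclideanSpace.norm_sq_eq] at this
    simpa [Fin.sum_univ_two] using this
  simp only [PiLp.inner_apply, Fin.sum_univ_two, Matrix.cons_val_zero, Matrix.cons_val_one,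
    RCLike.inner_apply, conj_trivial, PiLp.neg_apply] at a0 a1 a2 b0 b1 b2
  set p := u 0
  set q := u 1
  set s := Real.sqrt 3
  set W := supp tri u + supp tri (-u)
  have c01 : 3 * q - s * p ≤ W := by simp only [W]; linarith
  have c10 : -(3 * q - s * p) ≤ W := by simp only [W]; linarith
  have c02 : 3 * q + s * p ≤ W := by simp only [W]; linarith
  have c20 : -(3 * q + s * p) ≤ W := by simp only [W]; linarith
  have c12 : 2 * s * p ≤ W := by simp only [W]; linarith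
  have c21 : -(2 * s * p) ≤ W := by simp only [W]; linarith
  clear_value p q s W
  have hW0 : 0 ≤ W := by linarith
  by_contra hcon
  push Not at hcon
  have e1 : (3 * q - s * p) ^ 2 < 9 := sqlt c01 c10 hcon
  have e2 : (3 * q + s * p) ^ 2 < 9 := sqlt c02 c20 hcon
  have e3 : (2 * s * p) ^ 2 < 9 := sqlt c12 c21 hcon
  have x1 : (3 * q - s * p) ^ 2 = 9 * q ^ 2 + 3 * p ^ 2 - 6 * (s * (p * q)) := by
    calc (3 * q - s * p) ^ 2 = 9 * q ^ 2 + (s * s) * p ^ 2 - 6 * (s * (p * q)) := by ring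
      _ = _ := by rw [hs]
  have x2 : (3 * q + s * p) ^ 2 = 9 * q ^ 2 + 3 * p ^ 2 + 6 * (s * (p * q)) := by
    calc (3 * q + s * p) ^ 2 = 9 * q ^ 2 + (s * s) * p ^ 2 + 6 * (s * (p * q)) := by ring
      _ = _ := by rw [hs]
  have x3 : (2 * s * p) ^ 2 = 12 * p ^ 2 := by
    calc (2 * s * p) ^ 2 = 4 * (s * s) * p ^ 2 := by ring
      _ = _ := by rw [hs]; ring
  rw [x1] at e1
  rw [x2] at e2
  rw [x3] at e3
  have g1 : -(s * (p * q)) < p ^ 2 := by linarith
  have g2 : s * (p * q) < p ^ 2 := by linarith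
  have hsq : (s * (p * q)) ^ 2 = 3 * (p ^ 2 * q ^ 2) := by
    calc (s * (p * q)) ^ 2 = (s * s) * (p ^ 2 * q ^ 2) := by ring
      _ = _ := by rw [hs]
  have g3 : (s * (p * q)) ^ 2 ≤ (p ^ 2) ^ 2 := by
    rw [sq_le_sq]
    rw [abs_of_nonneg (sq_nonneg p), abs_le]
    exact ⟨by linarith, g2.le⟩
  by_cases hp : p = 0
  · rw [hp] at g2; simp at g2
  · have hp2 : 0 < p ^ 2 := by positivity
    rw [hsq] at g3
    have : 3 * q ^ 2 ≤ p ^ 2 := by
      have : p ^ 2 * (3 * q ^ 2) ≤ p ^ 2 * p ^ 2 := by linarith [sq (p ^ 2)]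
      exact le_of_mul_le_mul_left this hp2
    linarith

lemma tet_body : IsConvexBody tet := by
  refine ⟨?_, ?_, ?_⟩
  · apply Metric.isCompact_of_isClosed_isBounded
    · have e : tet = {x : EuclideanSpace ℝ (Fin 3) | -1 ≤ x 0 + x 1 + x 2} ∩
          ({x | -1 ≤ x 0 - x 1 - x 2} ∩ ({x | -1 ≤ -x 0 + x 1 - x 2} ∩
            {x | -1 ≤ -x 0 - x 1 + x 2})) := rfl
      rw [e]
      exact (isClosed_le continuous_const (by fun_prop)).inter
        ((isClosed_le continuous_const (by fun_prop)).inter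
          ((isClosed_le continuous_const (by fun_prop)).inter
            (isClosed_le continuous_const (by fun_prop))))
    · rw [isBounded_iff_forall_norm_le]
      refine ⟨2, fun x hx => ?_⟩
      obtain ⟨h1, h2, h3, h4⟩ := hx
      rw [EuclideanSpace.norm_eq, Real.sqrt_le_left (by norm_num)]
      simp only [Fin.sum_univ_three, Real.norm_eq_abs, sq_abs]
      have e0 : x 0 ^ 2 ≤ 1 := by
        rw [sq_le_one_iff_abs_le_one, abs_le]; constructor <;> linarith
      have e1 : x 1 ^ 2 ≤ 1 := by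
        rw [sq_le_one_iff_abs_le_one, abs_le]; constructor <;> linarith
      have e2 : x 2 ^ 2 ≤ 1 := by
        rw [sq_le_one_iff_abs_le_one, abs_le]; constructor <;> linarith
      linarith
  · intro x hx y hy a b ha hb hab
    obtain ⟨h1, h2, h3, h4⟩ := hx
    obtain ⟨g1, g2, g3, g4⟩ := hy
    have k1 := add_le_add (mul_le_mul_of_nonneg_left h1 ha) (mul_le_mul_of_nonneg_left g1 hb)
    have k2 := add_le_add (mul_le_mul_of_nonneg_left h2 ha) (mul_le_mul_of_nonneg_left g2 hb)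
    have k3 := add_le_add (mul_le_mul_of_nonneg_left h3 ha) (mul_le_mul_of_nonneg_left g3 hb)
    have k4 := add_le_add (mul_le_mul_of_nonneg_left h4 ha) (mul_le_mul_of_nonneg_left g4 hb)
    refine ⟨?_, ?_, ?_, ?_⟩ <;>
    · simp only [PiLp.add_apply, PiLp.smul_apply, smul_eq_mul]
      linarith
  · refine ⟨0, ?_⟩
    rw [mem_interior]
    refine ⟨ball 0 (1 / 3), ?_, isOpen_ball, mem_ball_self (by norm_num)⟩
    intro x hx
    rw [mem_ball, dist_zero_right] at hx
    have h0' := abs_le.mp ((coord_le x 0).trans hx.le)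
    have h1' := abs_le.mp ((coord_le x 1).trans hx.le)
    have h2' := abs_le.mp ((coord_le x 2).trans hx.le)
    refine ⟨?_, ?_, ?_, ?_⟩ <;> linarith [h0'.1, h0'.2, h1'.1, h1'.2, h2'.1, h2'.2]

lemma tet_inradius : inradius tet ≤ 1 / Real.sqrt 3 := by
  obtain ⟨s1, s2⟩ := sqrt3_bounds
  have hs := sq3
  have hpos : 0 < Real.sqrt 3 := by linarith
  apply Real.sSup_le _ (by positivity)
  rintro r ⟨hr, c, hc⟩
  set t := r / Real.sqrt 3 with ht
  have ht3 : 3 * t ^ 2 = r ^ 2 := by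
    rw [ht, div_pow, sq (Real.sqrt 3), sq3]; ring
  have m0 : (!₂[c 0 - t, c 1 - t, c 2 - t] : EuclideanSpace ℝ (Fin 3)) ∈ closedBall c r := by
    rw [mem_closedBall, EuclideanSpace.dist_eq, Real.sqrt_le_left hr]
    simp [Fin.sum_univ_three, Real.dist_eq]
    linarith
  have m1 : (!₂[c 0 - t, c 1 + t, c 2 + t] : EuclideanSpace ℝ (Fin 3)) ∈ closedBall c r := by
    rw [mem_closedBall, EuclideanSpace.dist_eq, Real.sqrt_le_left hr]
    simp [Fin.sum_univ_three, Real.dist_eq]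
    linarith
  have m2 : (!₂[c 0 + t, c 1 - t, c 2 + t] : EuclideanSpace ℝ (Fin 3)) ∈ closedBall c r := by
    rw [mem_closedBall, EuclideanSpace.dist_eq, Real.sqrt_le_left hr]
    simp [Fin.sum_univ_three, Real.dist_eq]
    linarith
  have m3 : (!₂[c 0 + t, c 1 + t, c 2 - t] : EuclideanSpace ℝ (Fin 3)) ∈ closedBall c r := by
    rw [mem_closedBall, EuclideanSpace.dist_eq, Real.sqrt_le_left hr]
    simp [Fin.sum_univ_three, Real.dist_eq]
    linarith
  have h0 := (hc m0).1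
  have h1 := (hc m1).2.1
  have h2 := (hc m2).2.2.1
  have h3 := (hc m3).2.2.2
  simp only [Matrix.cons_val_zero, Matrix.cons_val_one, Matrix.cons_val] at h0 h1 h2 h3
  have ht1 : t ≤ 1 / 3 := by linarith
  have : r = t * Real.sqrt 3 := by rw [ht]; field_simp
  rw [this, le_div_iff₀ hpos, mul_assoc, hs]
  linarith

lemma tet_minWidth : 2 ≤ minWidth tet := by
  have hb := tet_body
  have hne : tet.Nonempty := hb.2.2.mono interior_subset
  obtain ⟨e, he⟩ := exists_unit (d := 3) (by norm_num)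
  refine le_csInf (show Set.Nonempty {w : ℝ | ∃ u : EuclideanSpace ℝ (Fin 3), ‖u‖ = 1 ∧
    w = widthIn tet u} from ⟨_, e, he, rfl⟩) ?_
  rintro _ ⟨u, hu, rfl⟩
  have v0 : (!₂[1, 1, 1] : EuclideanSpace ℝ (Fin 3)) ∈ tet := by
    refine ⟨?_, ?_, ?_, ?_⟩ <;> simp
    norm_num
  have v1 : (!₂[1, -1, -1] : EuclideanSpace ℝ (Fin 3)) ∈ tet := by
    refine ⟨?_, ?_, ?_, ?_⟩ <;> simp
    norm_num
  have v2 : (!₂[-1, 1, -1] : EuclideanSpace ℝ (Fin 3)) ∈ tet := by
    refine ⟨?_, ?_, ?_, ?_⟩ <;> simp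
    norm_num
  have v3 : (!₂[-1, -1, 1] : EuclideanSpace ℝ (Fin 3)) ∈ tet := by
    refine ⟨?_, ?_, ?_, ?_⟩ <;> simp
    norm_num
  rw [widthIn_eq hb.1 hne]
  have a0 := le_supp hb.1 v0 u
  have a1 := le_supp hb.1 v1 u
  have a2 := le_supp hb.1 v2 u
  have a3 := le_supp hb.1 v3 u
  have b0 := le_supp hb.1 v0 (-u)
  have b1 := le_supp hb.1 v1 (-u)
  have b2 := le_supp hb.1 v2 (-u)
  have b3 := le_supp hb.1 v3 (-u)
  have hu2 : u 0 ^ 2 + u 1 ^ 2 + u 2 ^ 2 = 1 := by
    have : ‖u‖ ^ 2 = 1 := by rw [hu]; norm_num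
    rw [EuclideanSpace.norm_sq_eq] at this
    simpa [Fin.sum_univ_three] using this
  simp only [PiLp.inner_apply, Fin.sum_univ_three, Matrix.cons_val_zero, Matrix.cons_val_one,
    Matrix.cons_val, RCLike.inner_apply, conj_trivial, PiLp.neg_apply] at a0 a1 a2 a3 b0 b1 b2 b3
  set p := u 0
  set q := u 1
  set s := u 2
  set M := supp tet u
  set m := supp tet (-u)
  have e0 : 0 ≤ (M - (p + q + s)) * (m + (p + q + s)) :=
    mul_nonneg (by linarith) (by linarith)
  have e1 : 0 ≤ (M - (p - q - s)) * (m + (p - q - s)) :=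
    mul_nonneg (by linarith) (by linarith)
  have e2 : 0 ≤ (M - (-p + q - s)) * (m + (-p + q - s)) :=
    mul_nonneg (by linarith) (by linarith)
  have e3 : 0 ≤ (M - (-p - q + s)) * (m + (-p - q + s)) :=
    mul_nonneg (by linarith) (by linarith)
  have hMm : 0 ≤ M + m := by linarith
  clear_value p q s M m
  have hprod : 1 ≤ M * m := by
    have : (M - (p + q + s)) * (m + (p + q + s)) + (M - (p - q - s)) * (m + (p - q - s)) +
      (M - (-p + q - s)) * (m + (-p + q - s)) + (M - (-p - q + s)) * (m + (-p - q + s)) =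
      4 * (M * m) - 4 * (p ^ 2 + q ^ 2 + s ^ 2) := by ring
    rw [hu2] at this
    linarith
  have : 2 ^ 2 ≤ (M + m) ^ 2 := by nlinarith [sq_nonneg (M - m)]
  exact le_of_sq_le_sq this hMm

lemma bddBelow_dim (d k : ℕ) (hd : 1 ≤ d) :
    BddBelow {c : ℝ | ∃ K : Set (EuclideanSpace ℝ (Fin d)), IsConvexBody K ∧
      c = coverConst K k} := by
  refine ⟨0, ?_⟩
  rintro _ ⟨K, hK, rfl⟩
  exact coverConst_nonneg (minWidth_pos hd hK).le k

lemma dim2_ge (k : ℕ) : 2 / 3 * (k : ℝ) ≤ coverConstDim 2 k := by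
  refine le_csInf (show Set.Nonempty {c : ℝ | ∃ K : Set (EuclideanSpace ℝ (Fin 2)),
    IsConvexBody K ∧ c = coverConst K k} from ⟨_, tri, tri_body, rfl⟩) ?_
  rintro _ ⟨K, hK, rfl⟩
  refine le_trans ?_ (coverConst_ge (Or.inl rfl) hK k)
  apply mul_le_mul_of_nonneg_right _ (Nat.cast_nonneg k)
  have hw := minWidth_pos (by norm_num) hK
  have hne : K.Nonempty := hK.2.2.mono interior_subset
  have : minWidth K ≤ 3 * inradius K := by
    have hlim : Tendsto (fun r : ℝ => 3 * r) (𝓝[>] (inradius K)) (𝓝 (3 * inradius K)) := by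
      apply tendsto_nhdsWithin_of_tendsto_nhds
      have : Continuous (fun r : ℝ => 3 * r) := by fun_prop
      exact this.tendsto _
    apply ge_of_tendsto hlim
    filter_upwards [self_mem_nhdsWithin] with r hr
    exact width_le_plane hK.1 hK.2.1 hne r (not_ball_of_gt (by norm_num) hK r hr)
  rw [le_div_iff₀ hw]
  linarith

lemma dim3_ge (k : ℕ) : 1 / Real.sqrt 3 * (k : ℝ) ≤ coverConstDim 3 k := by
  refine le_csInf (show Set.Nonempty {c : ℝ | ∃ K : Set (EuclideanSpace ℝ (Fin 3)),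
    IsConvexBody K ∧ c = coverConst K k} from ⟨_, tet, tet_body, rfl⟩) ?_
  rintro _ ⟨K, hK, rfl⟩
  refine le_trans ?_ (coverConst_ge (Or.inr rfl) hK k)
  apply mul_le_mul_of_nonneg_right _ (Nat.cast_nonneg k)
  have hw := minWidth_pos (by norm_num) hK
  have hr := inradius_pos (by norm_num) hK
  have hne : K.Nonempty := hK.2.2.mono interior_subset
  have h12 : minWidth K ^ 2 ≤ 12 * inradius K ^ 2 := by
    have hlim : Tendsto (fun r : ℝ => 12 * r ^ 2) (𝓝[>] (inradius K))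
        (𝓝 (12 * inradius K ^ 2)) := by
      apply tendsto_nhdsWithin_of_tendsto_nhds
      have : Continuous (fun r : ℝ => 12 * r ^ 2) := by fun_prop
      exact this.tendsto _
    apply ge_of_tendsto hlim
    filter_upwards [self_mem_nhdsWithin] with r hr
    exact width_le_space hK.1 hK.2.1 hne r (not_ball_of_gt (by norm_num) hK r hr) hw.le
  have hs := sq3
  have hpos : 0 < Real.sqrt 3 := by have := sqrt3_bounds.1; linarith
  have h2 : minWidth K ≤ 2 * inradius K * Real.sqrt 3 := by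
    apply le_of_sq_le_sq _ (by positivity)
    calc minWidth K ^ 2 ≤ 12 * inradius K ^ 2 := h12
      _ = 4 * inradius K ^ 2 * (Real.sqrt 3 * Real.sqrt 3) := by rw [hs]; ring
      _ = (2 * inradius K * Real.sqrt 3) ^ 2 := by ring
  rw [div_le_div_iff₀ hpos hw]
  linarith

lemma dim2_upper : ∃ C : ℝ, ∀ k : ℕ, 1 ≤ k → coverConstDim 2 k ≤ 2 / 3 * (k : ℝ) + C := by
  obtain ⟨C, hC⟩ := coverConst_upper (by norm_num) tri_body
  refine ⟨C, fun k hk => ?_⟩
  refine (csInf_le (bddBelow_dim 2 k (by norm_num)) ⟨tri, tri_body, rfl⟩).trans ((hC k hk).trans ?_)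
  have hw := minWidth_pos (by norm_num) tri_body
  have h1 := tri_inradius
  have h2 := tri_minWidth
  have : 2 * inradius tri / minWidth tri ≤ 2 / 3 := by
    rw [div_le_div_iff₀ hw (by norm_num)]; linarith
  have := mul_le_mul_of_nonneg_right this (Nat.cast_nonneg (α := ℝ) k)
  linarith

lemma dim3_upper : ∃ C : ℝ, ∀ k : ℕ, 1 ≤ k →
    coverConstDim 3 k ≤ 1 / Real.sqrt 3 * (k : ℝ) + C := by
  obtain ⟨C, hC⟩ := coverConst_upper (by norm_num) tet_body
  refine ⟨C, fun k hk => ?_⟩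
  refine (csInf_le (bddBelow_dim 3 k (by norm_num)) ⟨tet, tet_body, rfl⟩).trans ((hC k hk).trans ?_)
  have hw := minWidth_pos (by norm_num) tet_body
  have h1 := tet_inradius
  have h2 := tet_minWidth
  have hpos : 0 < Real.sqrt 3 := by have := sqrt3_bounds.1; linarith
  have : 2 * inradius tet / minWidth tet ≤ 1 / Real.sqrt 3 := by
    rw [div_le_div_iff₀ hw hpos]
    have : inradius tet * Real.sqrt 3 ≤ 1 := by
      rw [le_div_iff₀ hpos] at h1
      exact h1
    linarith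
  have := mul_le_mul_of_nonneg_right this (Nat.cast_nonneg (α := ℝ) k)
  linarith

end Pool.Agent.Helper934.PlankExtremal
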