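import Mathlib

open MeasureTheory Set
open scoped ENNReal

namespace Pool.Agent.Helper934.Pr

/-- Even log-concave profile. -/
structure Prof (f : ℝ → ℝ) : Prop where
  cont : Continuous f
  even : ∀ r, f (-r) = f r
  one : f 0 = 1
  pos : ∀ r, 0 < f r
  le_one : ∀ r, f r ≤ 1
  anti : ∀ a b, 0 ≤ a → a ≤ b → f b ≤ f a
  ratio : ∀ a b d, 0 ≤ a → a ≤ b → 0 ≤ d → f (b + d) * f a ≤ f (a + d) * f b
  logc : ConvexOn ℝ univ (fun r => -Real.log (f r))
  tend : Filter.Tendsto f Filter.atTop (nhds 0)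

/-- `g` is the image of `f` under a contraction fixing zero. -/
def Dom (f g : ℝ → ℝ) : Prop :=
  ∃ T : ℝ → ℝ, T 0 = 0 ∧ ∀ a b, 0 ≤ a → a ≤ b →
    T a ≤ T b ∧ T b - T a ≤ b - a ∧ ∫ r in a..b, f r = ∫ r in (T a)..(T b), g r

/-- The exponential profile. -/
noncomputable def ex (c p r : ℝ) : ℝ := Real.exp (-(c * |r| ^ p))

/-- The supremum of a product of profiles over a fibre of a linear map. -/
noncomputable def SS {E : Type*} [AddCommGroup E] [Module ℝ E] {n : ℕ}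
    (T : (Fin n → ℝ) →ₗ[ℝ] E) (F : Fin n → ℝ → ℝ) (y : E) : ℝ≥0∞ :=
  ⨆ (x : Fin n → ℝ) (_ : T x = y), ∏ i, ENNReal.ofReal (F i (x i))

/-- The constant of the scaling formula. -/
noncomputable def CC (c p : ℝ) (k : ℕ) : ℝ≥0∞ :=
  ∫⁻ t in Ioo (0:ℝ) 1, ENNReal.ofReal ((-Real.log t / c) ^ ((k:ℝ) / p))


end Pool.Agent.Helper934.Pr
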