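import Mathlib
import Pool.Agent.Helper934.PrDefs

open MeasureTheory Set
open scoped ENNReal

namespace Pool.Agent.Helper934.Pr

theorem ex_cont (c p : ℝ) (hp : 1 ≤ p) : Continuous (ex c p) := by
  unfold ex
  refine Real.continuous_exp.comp (Continuous.neg (continuous_const.mul ?_))
  exact continuous_abs.rpow_const fun x => Or.inr (by linarith)

theorem ex_pos' (c p r : ℝ) : 0 < ex c p r := Real.exp_pos _

theorem ex_int (c p : ℝ) (hc : 0 < c) (hp : 1 ≤ p) : IntegrableOn (ex c p) (Ioi 0) := by
  have h := integrableOn_rpow_mul_exp_neg_mul_rpow (p := p) (s := 0) (b := c) (by norm_num)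
    (by linarith) hc
  refine h.congr_fun (fun x hx => ?_) measurableSet_Ioi
  have hx0 : (0:ℝ) < x := hx
  simp only [ex, Real.rpow_zero, one_mul, abs_of_pos hx0]
  congr 1
  ring

theorem ex_anti (c p : ℝ) (hc : 0 < c) (hp : 1 ≤ p) : AntitoneOn (ex c p) (Ici 0) := by
  intro a ha b hb hab
  have ha0 : (0:ℝ) ≤ a := ha
  have hb0 : (0:ℝ) ≤ b := hb
  simp only [ex, abs_of_nonneg ha0, abs_of_nonneg hb0]
  apply Real.exp_le_exp.2
  have := Real.rpow_le_rpow ha0 hab (by linarith : 0 ≤ p)
  nlinarith

theorem ex_dom (c p c' p' : ℝ) (hc : 0 < c) (hc' : 0 < c') (hp : 1 ≤ p) (hpp : p < p')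
    (hint : ∫ r in Ioi (0:ℝ), ex c p r = ∫ r in Ioi (0:ℝ), ex c' p' r) :
    Dom (ex c p) (ex c' p') := by
  have hp' : 1 ≤ p' := by linarith
  set f := ex c p with hf
  set g := ex c' p' with hg
  have hfc : Continuous f := ex_cont c p hp
  have hgc : Continuous g := ex_cont c' p' hp'
  have hfpos : ∀ r, 0 < f r := fun r => ex_pos' c p r
  have hgpos : ∀ r, 0 < g r := fun r => ex_pos' c' p' r
  have hfi : IntegrableOn f (Ioi 0) := ex_int c p hc hp
  have hgi : IntegrableOn g (Ioi 0) := ex_int c' p' hc' hp'
  have hga : AntitoneOn g (Ici 0) := ex_anti c' p' hc' hp'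
  let F : ℝ → ℝ := fun r => ∫ x in (0:ℝ)..r, f x
  let G : ℝ → ℝ := fun r => ∫ x in (0:ℝ)..r, g x
  have hF : ∀ r, HasDerivAt F (f r) r := fun r =>
    intervalIntegral.integral_hasDerivAt_right (hfc.intervalIntegrable _ _)
      (hfc.stronglyMeasurableAtFilter _ _) hfc.continuousAt
  have hG : ∀ r, HasDerivAt G (g r) r := fun r =>
    intervalIntegral.integral_hasDerivAt_right (hgc.intervalIntegrable _ _)
      (hgc.stronglyMeasurableAtFilter _ _) hgc.continuousAt
  have hFm : StrictMono F := strictMono_of_deriv_pos fun x => by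
    rw [(hF x).deriv]; exact hfpos x
  have hGm : StrictMono G := strictMono_of_deriv_pos fun x => by
    rw [(hG x).deriv]; exact hgpos x
  have hF0 : F 0 = 0 := by simp [F]
  have hG0 : G 0 = 0 := by simp [G]
  have hFc : Continuous F := continuous_iff_continuousAt.2 fun x => (hF x).continuousAt
  have hGc : Continuous G := continuous_iff_continuousAt.2 fun x => (hG x).continuousAt
  set I := ∫ r in Ioi (0:ℝ), f r with hI
  have hFt : Filter.Tendsto F Filter.atTop (nhds I) :=
    intervalIntegral_tendsto_integral_Ioi 0 hfi Filter.tendsto_id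
  have hGt : Filter.Tendsto G Filter.atTop (nhds I) := by
    rw [hint]
    exact intervalIntegral_tendsto_integral_Ioi 0 hgi Filter.tendsto_id
  have hFI : ∀ a, F a < I := fun a => by
    have h1 : F (a + 1) ≤ I := hFm.monotone.ge_of_tendsto hFt (a + 1)
    exact lt_of_lt_of_le (hFm (by linarith)) h1
  have hex : ∀ a : ℝ, 0 ≤ a → ∃ t, 0 ≤ t ∧ G t = F a := by
    intro a ha
    obtain ⟨M, hM, hM0⟩ := ((hGt.eventually (lt_mem_nhds (hFI a))).and
      (Filter.eventually_ge_atTop (0:ℝ))).exists
    have h1 : F a ∈ Icc (G 0) (G M) := by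
      rw [hG0]
      exact ⟨by rw [← hF0]; exact hFm.monotone ha, hM.le⟩
    obtain ⟨t, ht, htG⟩ := intermediate_value_Icc hM0 hGc.continuousOn h1
    exact ⟨t, ht.1, htG⟩
  choose! T hT0 hTG using hex
  have hTmono : ∀ a b, 0 ≤ a → a ≤ b → T a ≤ T b := by
    intro a b ha hab
    have h1 : G (T a) ≤ G (T b) := by
      rw [hTG a ha, hTG b (ha.trans hab)]
      exact hFm.monotone hab
    exact hGm.le_iff_le.1 h1

  have hp0 : 0 < p := by linarith
  have hp0' : 0 < p' := by linarith
  set α := p / p' with hα
  have hα0 : 0 < α := by positivity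
  have hα1 : α < 1 := by rw [hα, div_lt_one hp0']; exact hpp
  set κ := (c / c') ^ (1 / p') with hκ
  have hκ0 : 0 < κ := Real.rpow_pos_of_pos (by positivity) _
  have hρg : ∀ r, 0 ≤ r → g (κ * r ^ α) = f r := by
    intro r hr
    have h1 : 0 ≤ κ * r ^ α := by positivity
    simp only [hf, hg, ex, abs_of_nonneg hr, abs_of_nonneg h1]
    rw [Real.mul_rpow hκ0.le (by positivity), hκ, ← Real.rpow_mul (by positivity),
      ← Real.rpow_mul hr, one_div_mul_cancel hp0'.ne', Real.rpow_one, hα,
      div_mul_cancel₀ _ hp0'.ne']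
    congr 2
    field_simp
  let D : ℝ → ℝ := fun r => G (κ * r ^ α) - F r
  have hDd : ∀ r, 0 < r → HasDerivAt D (f r * (κ * (α * r ^ (α - 1)) - 1)) r := by
    intro r hr
    have h1 : HasDerivAt (fun r : ℝ => κ * r ^ α) (κ * (α * r ^ (α - 1))) r :=
      (Real.hasDerivAt_rpow_const (Or.inl hr.ne')).const_mul κ
    have h2 := (hG (κ * r ^ α)).comp r h1
    have h3 := h2.sub (hF r)
    refine h3.congr_deriv ?_
    rw [hρg r hr.le]; ring
  have hDc : ContinuousOn D (Ici 0) := by
    apply Continuous.continuousOn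
    exact (hGc.comp (continuous_const.mul (Real.continuous_rpow_const hα0.le))).sub hFc
  have hD0 : D 0 = 0 := by
    simp only [D]
    rw [Real.zero_rpow hα0.ne', mul_zero, hG0, hF0, sub_zero]
  have hDt : Filter.Tendsto D Filter.atTop (nhds 0) := by
    have h1 : Filter.Tendsto (fun r : ℝ => κ * r ^ α) Filter.atTop Filter.atTop :=
      (tendsto_rpow_atTop hα0).const_mul_atTop hκ0
    have h2 := (hGt.comp h1).sub hFt
    rwa [sub_self] at h2
  have hρ'anti : ∀ r s, 0 < r → r ≤ s → κ * (α * s ^ (α - 1)) ≤ κ * (α * r ^ (α - 1)) := by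
    intro r s hr hrs
    have := Real.rpow_le_rpow_of_nonpos hr hrs (by linarith : α - 1 ≤ 0)
    exact mul_le_mul_of_nonneg_left (mul_le_mul_of_nonneg_left this hα0.le) hκ0.le
  have hD : ∀ r, 0 ≤ r → 0 ≤ D r := by
    intro r hr
    rcases hr.eq_or_lt with h0 | h0
    · rw [← h0, hD0]
    by_cases hc1 : 1 ≤ κ * (α * r ^ (α - 1))
    · have hm : MonotoneOn D (Icc 0 r) := by
        apply monotoneOn_of_deriv_nonneg (convex_Icc 0 r) (hDc.mono fun x hx => hx.1)
        · intro x hx
          rw [interior_Icc] at hx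
          exact (hDd x hx.1).differentiableAt.differentiableWithinAt
        · intro x hx
          rw [interior_Icc] at hx
          rw [(hDd x hx.1).deriv]
          have := hρ'anti x r hx.1 hx.2.le
          exact mul_nonneg (hfpos x).le (by linarith)
      have := hm (left_mem_Icc.2 hr) (right_mem_Icc.2 hr) hr
      rwa [hD0] at this
    · push Not at hc1
      have hm : AntitoneOn D (Ici r) := by
        apply antitoneOn_of_deriv_nonpos (convex_Ici r) (hDc.mono fun x hx => hr.trans hx)
        · intro x hx
          rw [interior_Ici] at hx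
          exact (hDd x (h0.trans hx)).differentiableAt.differentiableWithinAt
        · intro x hx
          rw [interior_Ici] at hx
          rw [(hDd x (h0.trans hx)).deriv]
          have := hρ'anti r x h0 (le_of_lt hx)
          exact mul_nonpos_of_nonneg_of_nonpos (hfpos x).le (by linarith)
      refine le_of_tendsto hDt ?_
      filter_upwards [Filter.eventually_ge_atTop r] with x hx
      exact hm self_mem_Ici hx hx
  have hstar : ∀ r, 0 ≤ r → f r ≤ g (T r) := by
    intro r hr
    have h1 : T r ≤ κ * r ^ α := by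
      apply hGm.le_iff_le.1
      rw [hTG r hr]
      have := hD r hr
      simp only [D] at this
      linarith
    rw [← hρg r hr]
    exact hga (hT0 r hr) (by positivity : (0:ℝ) ≤ κ * r ^ α) h1
  refine ⟨T, ?_, ?_⟩
  · have h1 : G (T 0) = G 0 := by rw [hTG 0 le_rfl, hF0, hG0]
    exact hGm.injective h1
  intro a b ha hab
  refine ⟨hTmono a b ha hab, ?_, ?_⟩
  ·
    have hb := ha.trans hab
    set d := b - a with hd
    have hd0 : 0 ≤ d := by linarith
    let Ef : ℝ → ℝ := fun s => G (T a + s) - F (a + s)
    have hEc : Continuous Ef :=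
      (hGc.comp (continuous_const.add continuous_id)).sub
        (hFc.comp (continuous_const.add continuous_id))
    have hEd : ∀ s, HasDerivAt Ef (g (T a + s) - f (a + s)) s := by
      intro s
      have h1 : HasDerivAt (fun s => T a + s) 1 s := (hasDerivAt_id s).const_add (T a)
      have h2 : HasDerivAt (fun s => a + s) 1 s := (hasDerivAt_id s).const_add a
      have h3 := ((hG (T a + s)).comp s h1).sub ((hF (a + s)).comp s h2)
      refine h3.congr_deriv ?_
      ring
    have hE0 : Ef 0 = 0 := by
      simp only [Ef]; rw [add_zero, add_zero, hTG a ha, sub_self]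
    have hE : 0 ≤ Ef d := by
      by_contra hcon
      push Not at hcon
      let S : Set ℝ := Icc 0 d ∩ {s | 0 ≤ Ef s}
      have hSc : IsCompact S := isCompact_Icc.inter_right (isClosed_le continuous_const hEc)
      have hSn : S.Nonempty := ⟨0, ⟨left_mem_Icc.2 hd0, by
        show 0 ≤ Ef 0
        rw [hE0]⟩⟩
      have hs0 := hSc.sSup_mem hSn
      set s0 := sSup S with hs0d
      have hs0E : 0 ≤ Ef s0 := hs0.2
      have hneg : ∀ s, s0 < s → s ≤ d → Ef s < 0 := by
        intro s hs hsd
        by_contra h
        push Not at h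
        have : s ≤ s0 := le_csSup hSc.bddAbove ⟨⟨hs0.1.1.trans hs.le, hsd⟩, h⟩
        linarith
      have hm : MonotoneOn Ef (Icc s0 d) := by
        apply monotoneOn_of_deriv_nonneg (convex_Icc s0 d) hEc.continuousOn
        · intro x _
          exact (hEd x).differentiableAt.differentiableWithinAt
        · intro x hx
          rw [interior_Icc] at hx
          rw [(hEd x).deriv]
          have hx0 : 0 ≤ x := hs0.1.1.trans hx.1.le
          have h1 := hneg x hx.1 hx.2.le
          simp only [Ef] at h1
          rw [← hTG (a + x) (by linarith)] at h1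
          have h2 : T a + x < T (a + x) := hGm.lt_iff_lt.1 (by linarith)
          have h3 := hga (by have := hT0 a ha; exact (by linarith : (0:ℝ) ≤ T a + x))
            (hT0 (a + x) (by linarith)) h2.le
          have h4 := hstar (a + x) (by linarith)
          linarith
      have h1 := hm (left_mem_Icc.2 hs0.1.2) (right_mem_Icc.2 hs0.1.2) hs0.1.2
      linarith
    simp only [Ef] at hE
    have hab' : a + d = b := by rw [hd]; ring
    rw [hab', ← hTG b hb] at hE
    have h1 : T b ≤ T a + d := hGm.le_iff_le.1 (by linarith)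
    linarith
  · have hb := ha.trans hab
    have h1 : ∫ r in a..b, f r = F b - F a := by
      simp only [F]
      rw [intervalIntegral.integral_interval_sub_left (hfc.intervalIntegrable _ _)
        (hfc.intervalIntegrable _ _)]
    have h2 : ∫ r in (T a)..(T b), g r = G (T b) - G (T a) := by
      simp only [G]
      rw [intervalIntegral.integral_interval_sub_left (hgc.intervalIntegrable _ _)
        (hgc.intervalIntegrable _ _)]
    rw [h1, h2, hTG b hb, hTG a ha]

end Pool.Agent.Helper934.Pr
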