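import Mathlib
import Pool.Agent.Helper934.PrDefs

open MeasureTheory Set
open scoped ENNReal

namespace Pool.Agent.Helper934.Pr

theorem j2594_conv (p a b d : ℝ) (hp : 1 ≤ p) (ha : 0 ≤ a) (hab : a ≤ b) (hd : 0 ≤ d) :
    (a + d) ^ p + b ^ p ≤ (b + d) ^ p + a ^ p := by
  rcases (show 0 ≤ b + d - a by linarith).eq_or_lt with h0 | h0
  · have h1 : d = 0 := by linarith
    have h2 : b = a := by linarith
    rw [h1, h2, add_zero]
  · have hconv := (convexOn_rpow hp).2
    have h1 := hconv (x := a) (y := b + d) (mem_Ici.2 ha) (mem_Ici.2 (by linarith))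
      (a := (b - a) / (b + d - a)) (b := d / (b + d - a))
      (div_nonneg (by linarith) h0.le) (div_nonneg hd h0.le) (by field_simp; ring)
    have h2 := hconv (x := a) (y := b + d) (mem_Ici.2 ha) (mem_Ici.2 (by linarith))
      (a := d / (b + d - a)) (b := (b - a) / (b + d - a))
      (div_nonneg hd h0.le) (div_nonneg (by linarith) h0.le) (by field_simp; ring)
    simp only [smul_eq_mul] at h1 h2
    have e1 : (b - a) / (b + d - a) * a + d / (b + d - a) * (b + d) = a + d := by
      field_simp; ring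
    have e2 : d / (b + d - a) * a + (b - a) / (b + d - a) * (b + d) = b := by
      field_simp; ring
    rw [e1] at h1
    rw [e2] at h2
    have e3 : (b - a) / (b + d - a) + d / (b + d - a) = 1 := by field_simp; ring
    calc (a + d) ^ p + b ^ p ≤ ((b - a) / (b + d - a) * a ^ p + d / (b + d - a) * (b + d) ^ p) +
          (d / (b + d - a) * a ^ p + (b - a) / (b + d - a) * (b + d) ^ p) := add_le_add h1 h2
      _ = ((b - a) / (b + d - a) + d / (b + d - a)) * ((b + d) ^ p + a ^ p) := by ring
      _ = _ := by rw [e3, one_mul]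

theorem ex_prof (c p : ℝ) (hc : 0 < c) (hp : 1 ≤ p) : Prof (ex c p) := by
  have hp0 : 0 < p := by linarith
  constructor
  · unfold ex
    exact Real.continuous_exp.comp
      ((continuous_const.mul (continuous_abs.rpow_const fun _ => Or.inr hp0.le)).neg)
  · intro r
    unfold ex
    rw [abs_neg]
  · unfold ex
    rw [abs_zero, Real.zero_rpow hp0.ne']
    simp
  · intro r
    exact Real.exp_pos _
  · intro r
    unfold ex
    apply Real.exp_le_one_iff.2
    have : 0 ≤ c * |r| ^ p := by positivity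
    linarith
  · intro a b ha hab
    unfold ex
    apply Real.exp_le_exp.2
    rw [abs_of_nonneg ha, abs_of_nonneg (ha.trans hab)]
    have := Real.rpow_le_rpow ha hab hp0.le
    nlinarith
  · intro a b d ha hab hd
    unfold ex
    rw [← Real.exp_add, ← Real.exp_add]
    apply Real.exp_le_exp.2
    rw [abs_of_nonneg ha, abs_of_nonneg (ha.trans hab), abs_of_nonneg (by linarith : 0 ≤ b + d),
      abs_of_nonneg (by linarith : 0 ≤ a + d)]
    have := j2594_conv p a b d hp ha hab hd
    nlinarith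
  · refine ⟨convex_univ, fun x _ y _ a b ha hb hab => ?_⟩
    simp only [ex, Real.log_exp, neg_neg, smul_eq_mul]
    have h1 : |a * x + b * y| ≤ a * |x| + b * |y| := by
      refine (abs_add_le _ _).trans ?_
      rw [abs_mul, abs_mul, abs_of_nonneg ha, abs_of_nonneg hb]
    have h2 := Real.rpow_le_rpow (abs_nonneg _) h1 hp0.le
    have h3 := (convexOn_rpow hp).2 (x := |x|) (y := |y|) (mem_Ici.2 (abs_nonneg _))
      (mem_Ici.2 (abs_nonneg _)) ha hb hab
    simp only [smul_eq_mul] at h3
    have h4 := h2.trans h3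
    calc c * |a * x + b * y| ^ p ≤ c * (a * |x| ^ p + b * |y| ^ p) :=
          mul_le_mul_of_nonneg_left h4 hc.le
      _ = _ := by ring
  · unfold ex
    apply Real.tendsto_exp_neg_atTop_nhds_zero.comp
    apply Filter.Tendsto.const_mul_atTop hc
    exact (tendsto_rpow_atTop hp0).comp Filter.tendsto_abs_atTop_atTop

theorem ex_norm (p : ℝ) (hp : 1 ≤ p) : ∃ c : ℝ, 0 < c ∧ ∫ r in Ioi (0:ℝ), ex c p r = 1 / 2 ∧
    ∫⁻ r : ℝ, ENNReal.ofReal (ex c p r) = 1 := by
  have hp0 : 0 < p := by linarith
  have hΓ : 0 < Real.Gamma (1 / p + 1) := Real.Gamma_pos_of_pos (by positivity)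
  have hc : 0 < (2 * Real.Gamma (1 / p + 1)) ^ p := by positivity
  have h1 : ∫ r in Ioi (0:ℝ), ex ((2 * Real.Gamma (1 / p + 1)) ^ p) p r = 1 / 2 := by
    have h2 := integral_exp_neg_mul_rpow hp0 hc
    have h3 : ∫ r in Ioi (0:ℝ), ex ((2 * Real.Gamma (1 / p + 1)) ^ p) p r =
        ∫ x in Ioi (0:ℝ), Real.exp (-(2 * Real.Gamma (1 / p + 1)) ^ p * x ^ p) := by
      apply setIntegral_congr_fun measurableSet_Ioi
      intro x hx
      simp only [ex]
      rw [abs_of_pos (mem_Ioi.1 hx), neg_mul]
    rw [h3, h2, ← Real.rpow_mul (by positivity)]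
    have h4 : p * (-1 / p) = -1 := by field_simp
    rw [h4, Real.rpow_neg_one]
    field_simp
  have h5 : ∫ r : ℝ, ex ((2 * Real.Gamma (1 / p + 1)) ^ p) p r = 1 := by
    have h6 := integral_comp_abs
      (f := fun x => Real.exp (-((2 * Real.Gamma (1 / p + 1)) ^ p * x ^ p)))
    have h7 : ∫ r in Ioi (0:ℝ), ex ((2 * Real.Gamma (1 / p + 1)) ^ p) p r =
        ∫ x in Ioi (0:ℝ), Real.exp (-((2 * Real.Gamma (1 / p + 1)) ^ p * x ^ p)) := by
      apply setIntegral_congr_fun measurableSet_Ioi
      intro x hx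
      simp only [ex]
      rw [abs_of_pos (mem_Ioi.1 hx)]
    rw [← h7, h1] at h6
    simp only [ex]
    rw [h6]
    norm_num
  refine ⟨_, hc, h1, ?_⟩
  have h8 : Integrable (ex ((2 * Real.Gamma (1 / p + 1)) ^ p) p) := by
    by_contra hn
    rw [integral_undef hn] at h5
    norm_num at h5
  rw [← ofReal_integral_eq_lintegral_ofReal h8 (Filter.Eventually.of_forall fun r =>
    (Real.exp_pos _).le), h5, ENNReal.ofReal_one]

end Pool.Agent.Helper934.Pr
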