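import Mathlib
import Pool.Agent.Helper934.PrDefs

open MeasureTheory Set
open scoped ENNReal

namespace Pool.Agent.Helper934.Pr

/-- the transported level -/

noncomputable def osTau (T : ℝ → ℝ) (R Z : ℝ) : ℝ := min Z R + T (max (Z - R) 0)

theorem os_int (f : ℝ → ℝ) (hc : Continuous f) (h1 : f 0 = 1) (R Z : ℝ) (hR : 0 ≤ R)
    (hZ : 0 ≤ Z) :
    ∫ z in (0 : ℝ)..Z, f (max (z - R) 0) = min Z R + ∫ r in (0 : ℝ)..(max (Z - R) 0), f r := by
  have hA : ∀ W, 0 ≤ W → W ≤ R → ∫ z in (0 : ℝ)..W, f (max (z - R) 0) = W := by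
    intro W hW hWR
    have h2 : ∫ z in (0 : ℝ)..W, f (max (z - R) 0) = ∫ z in (0 : ℝ)..W, (1 : ℝ) := by
      apply intervalIntegral.integral_congr
      intro z hz
      rw [uIcc_of_le hW] at hz
      have : max (z - R) 0 = 0 := max_eq_right (by linarith [hz.2])
      simp only [this, h1]
    rw [h2]
    simp
  have hcont : Continuous (fun z => f (max (z - R) 0)) := by fun_prop
  rcases le_total Z R with h | h
  · rw [hA Z hZ h, min_eq_left h, max_eq_right (by linarith)]
    simp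
  · rw [min_eq_right h, max_eq_left (by linarith),
      ← intervalIntegral.integral_add_adjacent_intervals (b := R)
        (hcont.intervalIntegrable _ _) (hcont.intervalIntegrable _ _), hA R hR le_rfl]
    congr 1
    have h3 : ∫ z in R..Z, f (max (z - R) 0) = ∫ z in R..Z, f (z - R) := by
      apply intervalIntegral.integral_congr
      intro z hz
      rw [uIcc_of_le h] at hz
      have : max (z - R) 0 = z - R := max_eq_left (by linarith [hz.1])
      simp only [this]
    rw [h3, intervalIntegral.integral_comp_sub_right]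
    simp

theorem os_T (f g T : ℝ → ℝ) (hT0 : T 0 = 0)
    (hT : ∀ a b, 0 ≤ a → a ≤ b →
      T a ≤ T b ∧ T b - T a ≤ b - a ∧ ∫ r in a..b, f r = ∫ r in (T a)..(T b), g r)
    (a : ℝ) (ha : 0 ≤ a) : 0 ≤ T a ∧ T a ≤ a := by
  obtain ⟨h1, h2, -⟩ := hT 0 a le_rfl ha
  rw [hT0] at h1 h2
  exact ⟨h1, by linarith⟩

theorem os_tau_int (f g T : ℝ → ℝ) (hf : Prof f) (hg : Prof g) (hT0 : T 0 = 0)
    (hT : ∀ a b, 0 ≤ a → a ≤ b →
      T a ≤ T b ∧ T b - T a ≤ b - a ∧ ∫ r in a..b, f r = ∫ r in (T a)..(T b), g r)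
    (R Z : ℝ) (hR : 0 ≤ R) (hZ : 0 ≤ Z) :
    0 ≤ osTau T R Z ∧
    ∫ z in (0 : ℝ)..Z, f (max (z - R) 0) = ∫ z in (0 : ℝ)..(osTau T R Z), g (max (z - R) 0) := by
  have hm : 0 ≤ max (Z - R) 0 := le_max_right _ _
  obtain ⟨t1, t2⟩ := os_T f g T hT0 hT _ hm
  have htau : 0 ≤ osTau T R Z := add_nonneg (le_min hZ hR) t1
  refine ⟨htau, ?_⟩
  rw [os_int f hf.cont hf.one R Z hR hZ, os_int g hg.cont hg.one R _ hR htau]
  have h3 := (hT 0 (max (Z - R) 0) le_rfl hm).2.2
  rw [hT0] at h3
  rw [h3]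
  rcases le_total Z R with h | h
  · have e1 : max (Z - R) 0 = 0 := max_eq_right (by linarith)
    have e2 : osTau T R Z = Z := by
      unfold osTau
      rw [e1, hT0, min_eq_left h, add_zero]
    rw [e2, e1, hT0]
  · have e2 : osTau T R Z = R + T (max (Z - R) 0) := by
      unfold osTau
      rw [min_eq_right h]
    rw [e2, min_eq_right h, min_eq_right (by linarith)]
    congr 2
    rw [add_sub_cancel_left, max_eq_left t1]

theorem os_tau_mono (f g T : ℝ → ℝ)
    (hT : ∀ a b, 0 ≤ a → a ≤ b →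
      T a ≤ T b ∧ T b - T a ≤ b - a ∧ ∫ r in a..b, f r = ∫ r in (T a)..(T b), g r)
    (R Z1 Z2 : ℝ) (h12 : Z1 ≤ Z2) : osTau T R Z1 ≤ osTau T R Z2 := by
  unfold osTau
  have h1 : max (Z1 - R) 0 ≤ max (Z2 - R) 0 := max_le_max (by linarith) le_rfl
  have h2 := (hT _ _ (le_max_right (Z1 - R) 0) h1).1
  have h3 : min Z1 R ≤ min Z2 R := min_le_min h12 le_rfl
  linarith

theorem os_tau_R (f g T : ℝ → ℝ) (hT0 : T 0 = 0)
    (hT : ∀ a b, 0 ≤ a → a ≤ b →
      T a ≤ T b ∧ T b - T a ≤ b - a ∧ ∫ r in a..b, f r = ∫ r in (T a)..(T b), g r)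
    (R R' Z : ℝ) (hRR : R ≤ R') : osTau T R Z ≤ osTau T R' Z := by
  unfold osTau
  have h1 : max (Z - R') 0 ≤ max (Z - R) 0 := max_le_max (by linarith) le_rfl
  have h2 := (hT _ _ (le_max_right (Z - R') 0) h1).2.1
  have h3 : min Z R + max (Z - R) 0 = Z := by
    rcases le_total Z R with h | h
    · rw [min_eq_left h, max_eq_right (by linarith)]
      ring
    · rw [min_eq_right h, max_eq_left (by linarith)]
      ring
  have h4 : min Z R' + max (Z - R') 0 = Z := by
    rcases le_total Z R' with h | h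
    · rw [min_eq_left h, max_eq_right (by linarith)]
      ring
    · rw [min_eq_right h, max_eq_left (by linarith)]
      ring
  linarith

theorem os_lint (h : ℝ → ℝ) (hc : Continuous h) (hp : ∀ r, 0 < h r) (c a b : ℝ) (hc0 : 0 ≤ c)
    (hab : a ≤ b) :
    ∫⁻ z in Ioc a b, ENNReal.ofReal (c * h z) = ENNReal.ofReal (c * ∫ z in a..b, h z) := by
  rw [intervalIntegral.integral_of_le hab, ← integral_const_mul,
    ofReal_integral_eq_lintegral_ofReal]
  · exact (continuous_const.mul hc).integrableOn_Ioc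
  · exact Filter.Eventually.of_forall fun z => mul_nonneg hc0 (hp z).le

theorem os_transport (f g T : ℝ → ℝ) (hf : Prof f) (hg : Prof g) (hT0 : T 0 = 0)
    (hT : ∀ a b, 0 ≤ a → a ≤ b →
      T a ≤ T b ∧ T b - T a ≤ b - a ∧ ∫ r in a..b, f r = ∫ r in (T a)..(T b), g r)
    (R Z1 Z2 c : ℝ) (hR : 0 ≤ R) (hZ1 : 0 ≤ Z1) (h12 : Z1 ≤ Z2) (hc : 0 ≤ c) :
    ∫⁻ z in Ioc Z1 Z2, ENNReal.ofReal (c * f (max (z - R) 0)) =
      ∫⁻ z in Ioc (osTau T R Z1) (osTau T R Z2), ENNReal.ofReal (c * g (max (z - R) 0)) := by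
  have hfc : Continuous (fun z => f (max (z - R) 0)) := by
    have := hf.cont
    fun_prop
  have hgc : Continuous (fun z => g (max (z - R) 0)) := by
    have := hg.cont
    fun_prop
  rw [os_lint (fun z => f (max (z - R) 0)) hfc (fun r => hf.pos _) c Z1 Z2 hc h12,
    os_lint (fun z => g (max (z - R) 0)) hgc (fun r => hg.pos _) c _ _ hc
      (os_tau_mono f g T hT R Z1 Z2 h12)]
  congr 2
  rw [← intervalIntegral.integral_interval_sub_left (hfc.intervalIntegrable 0 Z2)
    (hfc.intervalIntegrable 0 Z1),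
    ← intervalIntegral.integral_interval_sub_left (hgc.intervalIntegrable 0 _)
    (hgc.intervalIntegrable 0 _),
    (os_tau_int f g T hf hg hT0 hT R Z2 hR (hZ1.trans h12)).2,
    (os_tau_int f g T hf hg hT0 hT R Z1 hR hZ1).2]

theorem os_ratio (f : ℝ → ℝ) (hf : Prof f) (c c' R R' z z' : ℝ) (hc : 0 ≤ c) (hRR : R ≤ R')
    (hzz : z ≤ z') (h : c * f (max (z - R) 0) < c' * f (max (z - R') 0)) :
    c * f (max (z' - R) 0) < c' * f (max (z' - R') 0) := by
  have hA : 0 ≤ c * f (max (z - R) 0) := mul_nonneg hc (hf.pos _).le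
  have hB : 0 < c' * f (max (z - R') 0) := hA.trans_lt h
  have hc' : 0 < c' := (pos_iff_pos_of_mul_pos hB).2 (hf.pos _)
  have ha0 : 0 ≤ max (z - R') 0 := le_max_right _ _
  have hab : max (z - R') 0 ≤ max (z - R) 0 := max_le_max (by linarith) le_rfl
  have hd : 0 ≤ max (z' - R') 0 - max (z - R') 0 := by
    have : max (z - R') 0 ≤ max (z' - R') 0 := max_le_max (by linarith) le_rfl
    linarith
  have h1 := hf.ratio (max (z - R') 0) (max (z - R) 0) _ ha0 hab hd
  have e1 : max (z - R') 0 + (max (z' - R') 0 - max (z - R') 0) = max (z' - R') 0 := by ring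
  rw [e1] at h1
  have h2 : max (z - R) 0 + (max (z' - R') 0 - max (z - R') 0) ≤ max (z' - R) 0 := by
    rcases le_total z' R' with h3 | h3
    · rw [max_eq_right (by linarith : z' - R' ≤ 0), max_eq_right (by linarith : z - R' ≤ 0)]
      have : max (z - R) 0 ≤ max (z' - R) 0 := max_le_max (by linarith) le_rfl
      linarith
    · rw [max_eq_left (by linarith : 0 ≤ z' - R'), max_eq_left (by linarith : 0 ≤ z' - R)]
      rcases le_total z R with h4 | h4
      · rw [max_eq_right (by linarith : z - R ≤ 0)]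
        have : 0 ≤ max (z - R') 0 := le_max_right _ _
        linarith
      · rw [max_eq_left (by linarith : 0 ≤ z - R)]
        have : z - R' ≤ max (z - R') 0 := le_max_left _ _
        linarith
  have h5 : 0 ≤ max (z - R) 0 + (max (z' - R') 0 - max (z - R') 0) := by
    have : 0 ≤ max (z - R) 0 := le_max_right _ _
    linarith
  have h6 := hf.anti _ _ h5 h2
  have h7 : f (max (z' - R) 0) * f (max (z - R') 0) ≤ f (max (z' - R') 0) * f (max (z - R) 0) :=
    (mul_le_mul_of_nonneg_right h6 (hf.pos _).le).trans h1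
  have hB' : 0 < c' * f (max (z' - R') 0) := mul_pos hc' (hf.pos _)
  have h8 : (c * f (max (z' - R) 0)) * (c' * f (max (z - R') 0)) ≤
      (c * f (max (z - R) 0)) * (c' * f (max (z' - R') 0)) := by
    have := mul_le_mul_of_nonneg_left h7 (mul_nonneg hc hc'.le)
    nlinarith
  have h9 : (c * f (max (z - R) 0)) * (c' * f (max (z' - R') 0)) <
      (c' * f (max (z - R') 0)) * (c' * f (max (z' - R') 0)) := mul_lt_mul_of_pos_right h hB'
  have h10 : (c * f (max (z' - R) 0)) * (c' * f (max (z - R') 0)) <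
      (c' * f (max (z' - R') 0)) * (c' * f (max (z - R') 0)) := by linarith
  exact lt_of_mul_lt_mul_right h10 hB.le

theorem oneside (f g T : ℝ → ℝ) (hf : Prof f) (hg : Prof g) (hT0 : T 0 = 0)
    (hT : ∀ a b, 0 ≤ a → a ≤ b →
      T a ≤ T b ∧ T b - T a ≤ b - a ∧ ∫ r in a..b, f r = ∫ r in (T a)..(T b), g r)
    (c R : ℕ → ℝ) (hc : ∀ l, 0 ≤ c l) (m : ℕ) (hR0 : 0 ≤ R 0)
    (hR : ∀ i j, i ≤ j → j ≤ m → R i ≤ R j) (Z : ℝ) (hZ : 0 ≤ Z) :
    ∫⁻ z in Ioc 0 Z, ⨆ l ∈ Finset.range (m + 1), ENNReal.ofReal (c l * f (max (z - R l) 0)) ≤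
      ∫⁻ z in Ioc 0 (min Z (R m) + T (max (Z - R m) 0)),
        ⨆ l ∈ Finset.range (m + 1), ENNReal.ofReal (c l * g (max (z - R l) 0)) := by
  change _ ≤ ∫⁻ z in Ioc 0 (osTau T (R m) Z),
        ⨆ l ∈ Finset.range (m + 1), ENNReal.ofReal (c l * g (max (z - R l) 0))
  induction m generalizing Z with
  | zero =>
    simp only [zero_add, Finset.range_one, Finset.mem_singleton, iSup_iSup_eq_left]
    rw [os_transport f g T hf hg hT0 hT (R 0) 0 Z (c 0) hR0 le_rfl hZ (hc 0)]
    have : osTau T (R 0) 0 = 0 := by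
      unfold osTau
      rw [min_eq_left hR0, max_eq_right (by linarith), hT0, add_zero]
    rw [this]
  | succ m ih =>
    have hRm : ∀ i j, i ≤ j → j ≤ m → R i ≤ R j := fun i j h1 h2 => hR i j h1 (by omega)
    have hR' : ∀ l ≤ m, R l ≤ R (m + 1) := fun l hl => hR l (m + 1) (by omega) le_rfl
    have hRpos : 0 ≤ R (m + 1) := hR0.trans (hR' 0 (Nat.zero_le _))

    have hsup : ∀ (u : ℝ → ℝ) (z : ℝ),
        (⨆ l ∈ Finset.range (m + 1 + 1), ENNReal.ofReal (c l * u (max (z - R l) 0))) =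
        max (ENNReal.ofReal (c (m + 1) * u (max (z - R (m + 1)) 0)))
          (⨆ l ∈ Finset.range (m + 1), ENNReal.ofReal (c l * u (max (z - R l) 0))) := by
      intro u z
      rw [Finset.range_add_one, Finset.iSup_insert]
    set D : Set ℝ := {z | (⨆ l ∈ Finset.range (m + 1), ENNReal.ofReal (c l * f (max (z - R l) 0))) <
      ENNReal.ofReal (c (m + 1) * f (max (z - R (m + 1)) 0))} with hD
    have hDup : ∀ z z', z ∈ D → z ≤ z' → z' ∈ D := by
      intro z z' hz hzz
      have hpos : (0 : ℝ≥0∞) < ENNReal.ofReal (c (m + 1) * f (max (z - R (m + 1)) 0)) :=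
        lt_of_le_of_lt zero_le hz
      rw [ENNReal.ofReal_pos] at hpos
      have hcpos : 0 < c (m + 1) := (pos_iff_pos_of_mul_pos hpos).2 (hf.pos _)
      have hpos' : 0 < c (m + 1) * f (max (z' - R (m + 1)) 0) := mul_pos hcpos (hf.pos _)
      change (⨆ l ∈ Finset.range (m + 1), ENNReal.ofReal (c l * f (max (z' - R l) 0))) <
        ENNReal.ofReal (c (m + 1) * f (max (z' - R (m + 1)) 0))
      rw [← Finset.sup_eq_iSup, Finset.sup_lt_iff (by
        rw [bot_eq_zero]
        exact ENNReal.ofReal_pos.2 hpos')]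
      intro l hl
      rw [ENNReal.ofReal_lt_ofReal_iff hpos']
      have h1 : ENNReal.ofReal (c l * f (max (z - R l) 0)) <
          ENNReal.ofReal (c (m + 1) * f (max (z - R (m + 1)) 0)) := by
        refine lt_of_le_of_lt ?_ hz
        exact le_iSup₂ (f := fun l (_ : l ∈ Finset.range (m + 1)) =>
          ENNReal.ofReal (c l * f (max (z - R l) 0))) l hl
      rw [ENNReal.ofReal_lt_ofReal_iff hpos] at h1
      rw [Finset.mem_range] at hl
      exact os_ratio f hf _ _ _ _ z z' (hc l) (hR' l (by omega)) hzz h1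

    set D' : Set ℝ := (D ∩ Ici 0) ∪ {Z} with hD'
    have hD'ne : D'.Nonempty := ⟨Z, Or.inr rfl⟩
    have hD'bd : BddBelow D' := ⟨0, by
      rintro z (hz | hz)
      · exact hz.2
      · rw [mem_singleton_iff] at hz
        rw [hz]
        exact hZ⟩
    set z0 := sInf D' with hz0
    have hz00 : 0 ≤ z0 := le_csInf hD'ne (by
      rintro z (hz | hz)
      · exact hz.2
      · rw [mem_singleton_iff] at hz
        rw [hz]
        exact hZ)
    have hz0Z : z0 ≤ Z := csInf_le hD'bd (Or.inr rfl)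
    have hlow : ∀ z, 0 ≤ z → z < z0 → z ∉ D := by
      intro z hz hzz hzD
      exact absurd (csInf_le hD'bd (Or.inl ⟨hzD, hz⟩)) (not_le.2 hzz)
    have hhigh : ∀ z, z0 < z → z ≤ Z → z ∈ D := by
      intro z hz hzZ
      obtain ⟨d, hd, hdz⟩ := exists_lt_of_csInf_lt hD'ne hz
      rcases hd with hd | hd
      · exact hDup d z hd.1 hdz.le
      · rw [mem_singleton_iff] at hd
        linarith
    have hsplit : ∀ (F : ℝ → ℝ≥0∞) (a b : ℝ), 0 ≤ a → a ≤ b →
        ∫⁻ z in Ioc 0 b, F z = (∫⁻ z in Ioc 0 a, F z) + ∫⁻ z in Ioc a b, F z := by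
      intro F a b ha hab
      rw [← lintegral_union measurableSet_Ioc (Ioc_disjoint_Ioc_of_le le_rfl),
        Ioc_union_Ioc_eq_Ioc ha hab]
    have htz0 : 0 ≤ osTau T (R (m + 1)) z0 :=
      (os_tau_int f g T hf hg hT0 hT (R (m + 1)) z0 hRpos hz00).1
    have htm : osTau T (R (m + 1)) z0 ≤ osTau T (R (m + 1)) Z :=
      os_tau_mono f g T hT _ _ _ hz0Z
    rw [hsplit _ z0 Z hz00 hz0Z, hsplit _ _ _ htz0 htm]
    refine add_le_add ?_ ?_
    · calc ∫⁻ z in Ioc 0 z0, ⨆ l ∈ Finset.range (m + 1 + 1),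
            ENNReal.ofReal (c l * f (max (z - R l) 0))
          = ∫⁻ z in Ioc 0 z0, ⨆ l ∈ Finset.range (m + 1),
            ENNReal.ofReal (c l * f (max (z - R l) 0)) := by
            rw [← restrict_Ioo_eq_restrict_Ioc]
            apply setLIntegral_congr_fun measurableSet_Ioo
            intro z hz
            simp only [hsup]
            apply max_eq_right
            exact not_lt.1 (hlow z hz.1.le hz.2)
        _ ≤ ∫⁻ z in Ioc 0 (osTau T (R m) z0), ⨆ l ∈ Finset.range (m + 1),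
            ENNReal.ofReal (c l * g (max (z - R l) 0)) := ih hRm z0 hz00
        _ ≤ ∫⁻ z in Ioc 0 (osTau T (R (m + 1)) z0), ⨆ l ∈ Finset.range (m + 1),
            ENNReal.ofReal (c l * g (max (z - R l) 0)) := by
            apply lintegral_mono_set
            exact Ioc_subset_Ioc_right (os_tau_R f g T hT0 hT _ _ _ (hR' m le_rfl))
        _ ≤ _ := by
            apply lintegral_mono
            intro z
            simp only [hsup]
            exact le_max_right _ _
    · calc ∫⁻ z in Ioc z0 Z, ⨆ l ∈ Finset.range (m + 1 + 1),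
            ENNReal.ofReal (c l * f (max (z - R l) 0))
          = ∫⁻ z in Ioc z0 Z, ENNReal.ofReal (c (m + 1) * f (max (z - R (m + 1)) 0)) := by
            apply setLIntegral_congr_fun measurableSet_Ioc
            intro z hz
            simp only [hsup]
            apply max_eq_left
            exact le_of_lt (hhigh z hz.1 hz.2)
        _ = ∫⁻ z in Ioc (osTau T (R (m + 1)) z0) (osTau T (R (m + 1)) Z),
            ENNReal.ofReal (c (m + 1) * g (max (z - R (m + 1)) 0)) :=
            os_transport f g T hf hg hT0 hT _ _ _ _ hRpos hz00 hz0Z (hc _)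
        _ ≤ _ := by
            apply lintegral_mono
            intro z
            simp only [hsup]
            exact le_max_left _ _

end Pool.Agent.Helper934.Pr
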