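import Mathlib
import Pool.Agent.Helper934.PrDefs
import Pool.Agent.Helper934.PrC

open MeasureTheory Set
open scoped ENNReal

namespace Pool.Agent.Helper934.Pr

/-- the supremum of a profile over a translated reflected set -/

noncomputable def ln_K (f : ℝ → ℝ) (I : Set ℝ) (z : ℝ) : ℝ≥0∞ :=
  ⨆ r : ℝ, ENNReal.ofReal (f r) * I.indicator (fun _ => (1:ℝ≥0∞)) (z - r)

theorem ln_K_empty (f : ℝ → ℝ) (z : ℝ) : ln_K f ∅ z = 0 := by simp [ln_K]

theorem ln_K_eq (f : ℝ → ℝ) (hf : Prof f) (I : Set ℝ) (hI : I.Nonempty) (ho : OrdConnected I)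
    (hb : Bornology.IsBounded I) (z : ℝ) :
    ln_K f I z = ENNReal.ofReal (f (max (max (z - sSup I) (sInf I - z)) 0)) := by
  have hba := hb.bddAbove
  have hbb := hb.bddBelow
  have hab : sInf I ≤ sSup I := csInf_le_csSup hI hbb hba
  apply le_antisymm
  · apply iSup_le
    intro r
    by_cases hr : z - r ∈ I
    · rw [indicator_of_mem hr, mul_one]
      apply ENNReal.ofReal_le_ofReal
      have e1 : f r = f |r| := by
        rcases abs_choice r with h | h
        · rw [h]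
        · rw [h, hf.even]
      rw [e1]
      apply hf.anti _ _ (le_max_right _ _)
      have h1 := le_csSup hba hr
      have h2 := csInf_le hbb hr
      refine max_le (max_le ?_ ?_) (abs_nonneg r)
      · linarith [le_abs_self r]
      · linarith [neg_le_abs r]
    · rw [indicator_of_notMem hr, mul_zero]
      exact bot_le
  · have hcl : ∀ u ∈ closure I, ENNReal.ofReal (f (z - u)) ≤ ln_K f I z := by
      intro u hu
      have hcf := hf.cont
      have hclosed : IsClosed {u : ℝ | ENNReal.ofReal (f (z - u)) ≤ ln_K f I z} :=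
        isClosed_le (ENNReal.continuous_ofReal.comp (by fun_prop)) continuous_const
      have hsub : I ⊆ {u : ℝ | ENNReal.ofReal (f (z - u)) ≤ ln_K f I z} := by
        intro v hv
        have := le_iSup (fun r : ℝ => ENNReal.ofReal (f r) *
          I.indicator (fun _ => (1:ℝ≥0∞)) (z - r)) (z - v)
        simp only [sub_sub_cancel, indicator_of_mem hv, mul_one] at this
        exact this
      exact closure_minimal hsub hclosed hu
    rcases lt_or_ge (sSup I) z with h1 | h1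
    · have e : max (max (z - sSup I) (sInf I - z)) 0 = z - sSup I := by
        rw [max_eq_left (show sInf I - z ≤ z - sSup I by linarith), max_eq_left (by linarith)]
      rw [e]
      exact hcl _ (csSup_mem_closure hI hba)
    · rcases lt_or_ge z (sInf I) with h2 | h2
      · have e : max (max (z - sSup I) (sInf I - z)) 0 = sInf I - z := by
          rw [max_eq_right (show z - sSup I ≤ sInf I - z by linarith), max_eq_left (by linarith)]
        rw [e, ← hf.even, neg_sub]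
        exact hcl _ (csInf_mem_closure hI hbb)
      · have e : max (max (z - sSup I) (sInf I - z)) 0 = 0 := by
          apply max_eq_right
          apply max_le <;> linarith
        rw [e]
        have h3 : z ∈ closure I := by
          rcases h1.eq_or_lt with h | h
          · rw [h]; exact csSup_mem_closure hI hba
          rcases h2.eq_or_lt with h' | h'
          · rw [← h']; exact csInf_mem_closure hI hbb
          obtain ⟨x, hx, hxz⟩ := exists_lt_of_csInf_lt hI h'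
          obtain ⟨y, hy, hyz⟩ := exists_lt_of_lt_csSup hI h
          exact subset_closure (ho.out hx hy ⟨hxz.le, hyz.le⟩)
        have := hcl z h3
        rwa [sub_self] at this

theorem ln_half (f g T : ℝ → ℝ) (hf : Prof f) (hg : Prof g) (hT0 : T 0 = 0)
    (hT : ∀ a b, 0 ≤ a → a ≤ b →
      T a ≤ T b ∧ T b - T a ≤ b - a ∧ ∫ r in a..b, f r = ∫ r in (T a)..(T b), g r)
    (c R : ℕ → ℝ) (hc : ∀ l, 0 ≤ c l) (m : ℕ) (hR0 : 0 ≤ R 0)
    (hR : ∀ i j, i ≤ j → j ≤ m → R i ≤ R j) :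
    ∫⁻ z in Ioi 0, ⨆ l ∈ Finset.range (m + 1), ENNReal.ofReal (c l * f (max (z - R l) 0)) ≤
      ∫⁻ z in Ioi 0, ⨆ l ∈ Finset.range (m + 1), ENNReal.ofReal (c l * g (max (z - R l) 0)) := by
  have hU : (Ioi (0:ℝ)) = ⋃ n : ℕ, Ioc (0:ℝ) n := by
    ext x
    simp only [mem_Ioi, mem_iUnion, mem_Ioc]
    constructor
    · intro h
      obtain ⟨n, hn⟩ := exists_nat_ge x
      exact ⟨n, h, hn⟩
    · rintro ⟨n, h, -⟩
      exact h
  have hdir : Directed (· ⊆ ·) fun n : ℕ => Ioc (0:ℝ) n := by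
    apply Monotone.directed_le
    intro a b hab
    apply Ioc_subset_Ioc_right
    exact_mod_cast hab
  conv_lhs => rw [hU]
  rw [setLIntegral_iUnion_of_directed _ hdir]
  apply iSup_le
  intro n
  refine (oneside f g T hf hg hT0 hT c R hc m hR0 hR n (Nat.cast_nonneg n)).trans ?_
  apply lintegral_mono_set
  intro x hx
  exact hx.1

theorem ln_shift (Φ : ℝ → ℝ≥0∞) (z₀ : ℝ) :
    ∫⁻ z in Ioi z₀, Φ (z - z₀) = ∫⁻ z in Ioi 0, Φ z := by
  rw [← lintegral_indicator measurableSet_Ioi, ← lintegral_indicator measurableSet_Ioi]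
  refine Eq.trans ?_ (lintegral_sub_right_eq_self ((Ioi (0:ℝ)).indicator Φ) z₀)
  apply lintegral_congr
  intro z
  by_cases hz : z₀ < z
  · rw [indicator_of_mem (show z ∈ Ioi z₀ from hz),
      indicator_of_mem (show z - z₀ ∈ Ioi (0:ℝ) from sub_pos.2 hz)]
  · rw [indicator_of_notMem (show z ∉ Ioi z₀ from hz),
      indicator_of_notMem (show z - z₀ ∉ Ioi (0:ℝ) from fun h => hz (sub_pos.1 h))]

theorem ln_reflect (Φ : ℝ → ℝ≥0∞) (z₀ : ℝ) :
    ∫⁻ z in Iic z₀, Φ (z₀ - z) = ∫⁻ z in Ioi 0, Φ z := by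
  rw [← setLIntegral_congr Iio_ae_eq_Iic]
  rw [← lintegral_indicator measurableSet_Iio, ← lintegral_indicator measurableSet_Ioi]
  refine Eq.trans ?_ (lintegral_sub_left_eq_self ((Ioi (0:ℝ)).indicator Φ) z₀)
  apply lintegral_congr
  intro z
  by_cases hz : z < z₀
  · rw [indicator_of_mem (show z ∈ Iio z₀ from hz),
      indicator_of_mem (show z₀ - z ∈ Ioi (0:ℝ) from sub_pos.2 hz)]
  · rw [indicator_of_notMem (show z ∉ Iio z₀ from hz),
      indicator_of_notMem (show z₀ - z ∉ Ioi (0:ℝ) from fun h => hz (sub_pos.1 h))]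

theorem ln_fin (f g : ℝ → ℝ) (hf : Prof f) (hg : Prof g) (hd : Dom f g) (m : ℕ) (c : ℕ → ℝ)
    (hc : ∀ l, 0 ≤ c l) (I : ℕ → Set ℝ) (ho : ∀ l ≤ m, OrdConnected (I l))
    (hb : ∀ l ≤ m, Bornology.IsBounded (I l)) (hmono : ∀ i j, i ≤ j → j ≤ m → I i ⊆ I j) :
    ∫⁻ z, ⨆ l ∈ Finset.range (m + 1), ENNReal.ofReal (c l) * ln_K f (I l) z ≤
      ∫⁻ z, ⨆ l ∈ Finset.range (m + 1), ENNReal.ofReal (c l) * ln_K g (I l) z := by
  classical
  obtain ⟨T, hT0, hT⟩ := hd
  by_cases hne : ∃ l, l ≤ m ∧ (I l).Nonempty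
  swap
  · push Not at hne
    have h0 : ∀ z, ⨆ l ∈ Finset.range (m + 1), ENNReal.ofReal (c l) * ln_K f (I l) z = 0 := by
      intro z
      rw [ENNReal.iSup_eq_zero]
      intro l
      rw [ENNReal.iSup_eq_zero]
      intro hl
      have h1 : I l = ∅ := hne l (by rw [Finset.mem_range] at hl; omega)
      rw [h1, ln_K_empty, mul_zero]
    simp only [h0, lintegral_zero]
    exact bot_le
  obtain ⟨z₀, hz₀⟩ : ∃ z₀, ∀ l ≤ m, (I l).Nonempty → z₀ ∈ I l := by
    obtain ⟨z₀, hz⟩ := (Nat.find_spec hne).2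
    refine ⟨z₀, fun l hl hln => ?_⟩
    exact hmono _ _ (Nat.find_min' hne ⟨hl, hln⟩) hl hz

  have hbase : ∀ l ≤ m, (I l).Nonempty → sInf (I l) ≤ z₀ ∧ z₀ ≤ sSup (I l) := fun l hl hln =>
    ⟨csInf_le (hb l hl).bddBelow (hz₀ l hl hln), le_csSup (hb l hl).bddAbove (hz₀ l hl hln)⟩
  set c' : ℕ → ℝ := fun l => if (I l).Nonempty then c l else 0 with hc'
  have hc'0 : ∀ l, 0 ≤ c' l := by
    intro l
    simp only [hc']
    split_ifs
    · exact hc l
    · exact le_rfl
  set R : ℕ → ℝ := fun l => if (I l).Nonempty then sSup (I l) - z₀ else 0 with hRd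
  set R' : ℕ → ℝ := fun l => if (I l).Nonempty then z₀ - sInf (I l) else 0 with hRd'
  have hR0 : ∀ l ≤ m, 0 ≤ R l := by
    intro l hl
    simp only [hRd]
    split_ifs with h
    · linarith [(hbase l hl h).2]
    · exact le_rfl
  have hR0' : ∀ l ≤ m, 0 ≤ R' l := by
    intro l hl
    simp only [hRd']
    split_ifs with h
    · linarith [(hbase l hl h).1]
    · exact le_rfl
  have hRm : ∀ i j, i ≤ j → j ≤ m → R i ≤ R j := by
    intro i j hij hj
    by_cases hi : (I i).Nonempty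
    · have hjn : (I j).Nonempty := hi.mono (hmono i j hij hj)
      simp only [hRd, if_pos hi, if_pos hjn]
      linarith [csSup_le_csSup (hb j hj).bddAbove hi (hmono i j hij hj)]
    · have : R i = 0 := by simp only [hRd, if_neg hi]
      rw [this]
      exact hR0 j hj
  have hRm' : ∀ i j, i ≤ j → j ≤ m → R' i ≤ R' j := by
    intro i j hij hj
    by_cases hi : (I i).Nonempty
    · have hjn : (I j).Nonempty := hi.mono (hmono i j hij hj)
      simp only [hRd', if_pos hi, if_pos hjn]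
      linarith [csInf_le_csInf (hb j hj).bddBelow hi (hmono i j hij hj)]
    · have : R' i = 0 := by simp only [hRd', if_neg hi]
      rw [this]
      exact hR0' j hj
  have key1 : ∀ (f : ℝ → ℝ), Prof f → ∀ z, z₀ < z → ∀ l ≤ m,
      ENNReal.ofReal (c l) * ln_K f (I l) z =
        ENNReal.ofReal (c' l * f (max ((z - z₀) - R l) 0)) := by
    intro f hf z hz l hl
    by_cases h : (I l).Nonempty
    · have hbl := hbase l hl h
      rw [ln_K_eq f hf (I l) h (ho l hl) (hb l hl) z, ← ENNReal.ofReal_mul (hc l)]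
      simp only [hc', hRd, if_pos h]
      congr 3
      rw [max_assoc, max_eq_right (show sInf (I l) - z ≤ 0 by linarith)]
      congr 1
      ring
    · have h1 : I l = ∅ := Set.not_nonempty_iff_eq_empty.1 h
      simp only [hc', if_neg h]
      rw [h1, ln_K_empty, mul_zero, zero_mul, ENNReal.ofReal_zero]
  have key2 : ∀ (f : ℝ → ℝ), Prof f → ∀ z, z ≤ z₀ → ∀ l ≤ m,
      ENNReal.ofReal (c l) * ln_K f (I l) z =
        ENNReal.ofReal (c' l * f (max ((z₀ - z) - R' l) 0)) := by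
    intro f hf z hz l hl
    by_cases h : (I l).Nonempty
    · have hbl := hbase l hl h
      rw [ln_K_eq f hf (I l) h (ho l hl) (hb l hl) z, ← ENNReal.ofReal_mul (hc l)]
      simp only [hc', hRd', if_pos h]
      congr 3
      rw [max_comm (z - sSup (I l)), max_assoc, max_eq_right (show z - sSup (I l) ≤ 0 by linarith)]
      congr 1
      ring
    · have h1 : I l = ∅ := Set.not_nonempty_iff_eq_empty.1 h
      simp only [hc', if_neg h]
      rw [h1, ln_K_empty, mul_zero, zero_mul, ENNReal.ofReal_zero]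
  have hsplit : ∀ (f : ℝ → ℝ), Prof f →
      ∫⁻ z, ⨆ l ∈ Finset.range (m + 1), ENNReal.ofReal (c l) * ln_K f (I l) z =
      (∫⁻ z in Ioi 0, ⨆ l ∈ Finset.range (m + 1), ENNReal.ofReal (c' l * f (max (z - R' l) 0))) +
      ∫⁻ z in Ioi 0, ⨆ l ∈ Finset.range (m + 1), ENNReal.ofReal (c' l * f (max (z - R l) 0)) := by
    intro f hf
    rw [← lintegral_add_compl _ (measurableSet_Iic (a := z₀)), compl_Iic]
    congr 1
    · rw [← ln_reflect _ z₀]
      apply setLIntegral_congr_fun measurableSet_Iic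
      intro z hz
      simp only
      refine iSup_congr fun l => iSup_congr fun hl => ?_
      exact key2 f hf z hz l (by rw [Finset.mem_range] at hl; omega)
    · rw [← ln_shift _ z₀]
      apply setLIntegral_congr_fun measurableSet_Ioi
      intro z hz
      simp only
      refine iSup_congr fun l => iSup_congr fun hl => ?_
      exact key1 f hf z hz l (by rw [Finset.mem_range] at hl; omega)
  rw [hsplit f hf, hsplit g hg]
  exact add_le_add
    (ln_half f g T hf hg hT0 hT c' R' hc'0 m (hR0' 0 (Nat.zero_le _)) hRm')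
    (ln_half f g T hf hg hT0 hT c' R hc'0 m (hR0 0 (Nat.zero_le _)) hRm)

/-- dyadic levels -/

noncomputable def ln_c (j l : ℕ) : ℝ := ((2 ^ j - l : ℕ) : ℝ) / 2 ^ j

/-- approximating sums -/

noncomputable def ln_H (f : ℝ → ℝ) (G : ℝ → ℝ≥0∞) (j : ℕ) (z : ℝ) : ℝ≥0∞ :=
  ⨆ l ∈ Finset.range (2 ^ j), ENNReal.ofReal (ln_c j l) *
    ln_K f {x | ENNReal.ofReal (ln_c j l) < G x} z

theorem ln_c_nonneg (j l : ℕ) : 0 ≤ ln_c j l := by unfold ln_c; positivity

theorem ln_c_pos {j l : ℕ} (h : l < 2 ^ j) : 0 < ln_c j l := by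
  unfold ln_c
  have : 0 < 2 ^ j - l := by omega
  positivity

theorem ln_c_double (j l : ℕ) : ln_c (j + 1) (2 * l) = ln_c j l := by
  unfold ln_c
  have : 2 ^ (j + 1) - 2 * l = 2 * (2 ^ j - l) := by
    rw [pow_succ]; omega
  rw [this, pow_succ]
  push_cast
  field_simp

theorem ln_c_anti (j : ℕ) {i l : ℕ} (h : i ≤ l) : ln_c j l ≤ ln_c j i := by
  unfold ln_c
  apply div_le_div_of_nonneg_right _ (by positivity)
  exact_mod_cast Nat.sub_le_sub_left h _

theorem ln_H_mono (f : ℝ → ℝ) (G : ℝ → ℝ≥0∞) (z : ℝ) : Monotone fun j => ln_H f G j z := by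
  apply monotone_nat_of_le_succ
  intro j
  unfold ln_H
  refine iSup_le fun l => iSup_le fun hl => ?_
  have h1 : 2 * l ∈ Finset.range (2 ^ (j + 1)) := by
    rw [Finset.mem_range] at hl ⊢
    rw [pow_succ]; omega
  have h2 := le_iSup₂ (f := fun (l : ℕ) (_ : l ∈ Finset.range (2 ^ (j + 1))) =>
    ENNReal.ofReal (ln_c (j + 1) l) * ln_K f {x | ENNReal.ofReal (ln_c (j + 1) l) < G x} z)
    (2 * l) h1
  simp only [ln_c_double] at h2
  exact h2

theorem ln_H_le (f : ℝ → ℝ) (G : ℝ → ℝ≥0∞) (j : ℕ) (z : ℝ) :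
    ln_H f G j z ≤ ⨆ r : ℝ, ENNReal.ofReal (f r) * G (z - r) := by
  unfold ln_H
  refine iSup_le fun l => iSup_le fun hl => ?_
  unfold ln_K
  rw [ENNReal.mul_iSup]
  apply iSup_mono
  intro r
  by_cases hr : z - r ∈ {x | ENNReal.ofReal (ln_c j l) < G x}
  · rw [indicator_of_mem hr, mul_one, mul_comm]
    exact mul_le_mul_right (le_of_lt hr) _
  · rw [indicator_of_notMem hr, mul_zero, mul_zero]
    exact bot_le

theorem ln_G_le (G : ℝ → ℝ≥0∞) (h1 : ∀ z, G z ≤ 1) (x : ℝ) :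
    G x ≤ ⨆ j : ℕ, ⨆ l ∈ Finset.range (2 ^ j), ENNReal.ofReal (ln_c j l) *
      ({x | ENNReal.ofReal (ln_c j l) < G x} : Set ℝ).indicator (fun _ => (1:ℝ≥0∞)) x := by
  apply le_of_forall_lt
  intro y hy
  have hGx : G x ≠ ⊤ := ne_top_of_le_ne_top ENNReal.one_ne_top (h1 x)
  have hyt : y ≠ ⊤ := ne_top_of_lt hy
  obtain ⟨γ, hγ⟩ : ∃ γ : ℝ, γ = (G x).toReal := ⟨_, rfl⟩
  obtain ⟨y', hy'⟩ : ∃ y' : ℝ, y' = y.toReal := ⟨_, rfl⟩
  have hy0 : 0 ≤ y' := by rw [hy']; exact ENNReal.toReal_nonneg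
  have hlt : y' < γ := by rw [hy', hγ]; exact (ENNReal.toReal_lt_toReal hyt hGx).2 hy
  have hγ1 : γ ≤ 1 := by
    rw [hγ]
    have := ENNReal.toReal_mono ENNReal.one_ne_top (h1 x)
    simpa using this
  obtain ⟨j, hj⟩ := pow_unbounded_of_one_lt (1 / (γ - y')) (show (1:ℝ) < 2 by norm_num)
  have hγy : 0 < γ - y' := by linarith
  rw [div_lt_iff₀ hγy] at hj
  have hγ0 : 0 < γ := by linarith
  have hpj : (0:ℝ) < 2 ^ j := by positivity
  have hceil := Nat.ceil_lt_add_one (show 0 ≤ γ * 2 ^ j by positivity)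
  have hceil2 := Nat.le_ceil (γ * 2 ^ j)
  have hceil3 : 0 < ⌈γ * 2 ^ j⌉₊ := Nat.ceil_pos.2 (by positivity)
  obtain ⟨k, hk⟩ : ∃ k : ℕ, ⌈γ * 2 ^ j⌉₊ = k + 1 := ⟨⌈γ * 2 ^ j⌉₊ - 1, by omega⟩
  rw [hk] at hceil hceil2
  push_cast at hceil hceil2
  have hk1 : (k:ℝ) < γ * 2 ^ j := by linarith
  have hk2 : y' * 2 ^ j < k := by nlinarith
  have hk0 : 0 < k := by
    have : (0:ℝ) < k := lt_of_le_of_lt (by positivity) hk2
    exact_mod_cast this
  have hkM : k < 2 ^ j := by
    have : (k:ℝ) < 2 ^ j := by nlinarith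
    exact_mod_cast this
  have hl : 2 ^ j - k < 2 ^ j := by omega
  have hcl : ln_c j (2 ^ j - k) = (k:ℝ) / 2 ^ j := by
    unfold ln_c
    rw [show 2 ^ j - (2 ^ j - k) = k by omega]
  have hmem : x ∈ ({x | ENNReal.ofReal (ln_c j (2 ^ j - k)) < G x} : Set ℝ) := by
    rw [mem_ofPred_eq, hcl, ENNReal.ofReal_lt_iff_lt_toReal (by positivity) hGx, ← hγ,
      div_lt_iff₀ hpj]
    exact hk1
  have hle := le_iSup (fun j : ℕ => ⨆ l ∈ Finset.range (2 ^ j), ENNReal.ofReal (ln_c j l) *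
      ({x | ENNReal.ofReal (ln_c j l) < G x} : Set ℝ).indicator (fun _ => (1:ℝ≥0∞)) x) j
  have hle2 := le_iSup₂ (f := fun (l : ℕ) (_ : l ∈ Finset.range (2 ^ j)) => ENNReal.ofReal (ln_c j l) *
      ({x | ENNReal.ofReal (ln_c j l) < G x} : Set ℝ).indicator (fun _ => (1:ℝ≥0∞)) x)
      (2 ^ j - k) (Finset.mem_range.2 hl)
  simp only [indicator_of_mem hmem, mul_one] at hle2
  refine lt_of_lt_of_le ?_ (hle2.trans hle)
  rw [hcl, ← ENNReal.ofReal_toReal hyt, ← hy']
  apply (ENNReal.ofReal_lt_ofReal_iff (by positivity)).2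
  rw [lt_div_iff₀ hpj]
  exact hk2

theorem ln_le_H (f : ℝ → ℝ) (G : ℝ → ℝ≥0∞) (h1 : ∀ z, G z ≤ 1) (z : ℝ) :
    ⨆ r : ℝ, ENNReal.ofReal (f r) * G (z - r) ≤ ⨆ j : ℕ, ln_H f G j z := by
  apply iSup_le
  intro r
  refine (mul_le_mul_right (ln_G_le G h1 (z - r)) _).trans ?_
  rw [ENNReal.mul_iSup]
  apply iSup_mono
  intro j
  rw [ENNReal.mul_iSup]
  unfold ln_H
  apply iSup_mono
  intro l
  rw [ENNReal.mul_iSup]
  apply iSup_mono
  intro hl
  rw [← mul_assoc, mul_comm (ENNReal.ofReal (f r)), mul_assoc]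
  apply mul_le_mul_right
  unfold ln_K
  exact le_iSup (fun r : ℝ => ENNReal.ofReal (f r) *
    ({x | ENNReal.ofReal (ln_c j l) < G x} : Set ℝ).indicator (fun _ => (1:ℝ≥0∞)) (z - r)) r

theorem ln_meas (f : ℝ → ℝ) (hf : Prof f) (G : ℝ → ℝ≥0∞)
    (hc : ∀ c : ℝ≥0∞, 0 < c → OrdConnected {z | c < G z})
    (hb : ∀ c : ℝ≥0∞, 0 < c → Bornology.IsBounded {z | c < G z}) (j : ℕ) :
    Measurable (ln_H f G j) := by
  unfold ln_H
  apply Measurable.iSup
  intro l
  apply Measurable.iSup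
  intro hl
  apply Measurable.const_mul
  have hcp : 0 < ENNReal.ofReal (ln_c j l) :=
    ENNReal.ofReal_pos.2 (ln_c_pos (Finset.mem_range.1 hl))
  by_cases hne : ({x | ENNReal.ofReal (ln_c j l) < G x} : Set ℝ).Nonempty
  · have : ln_K f {x | ENNReal.ofReal (ln_c j l) < G x} = fun z => ENNReal.ofReal
        (f (max (max (z - sSup {x | ENNReal.ofReal (ln_c j l) < G x})
          (sInf {x | ENNReal.ofReal (ln_c j l) < G x} - z)) 0)) := by
      funext z
      exact ln_K_eq f hf _ hne (hc _ hcp) (hb _ hcp) z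
    rw [this]
    have hcf := hf.cont
    exact (ENNReal.continuous_ofReal.comp (by fun_prop)).measurable
  · have : ({x | ENNReal.ofReal (ln_c j l) < G x} : Set ℝ) = ∅ := Set.not_nonempty_iff_eq_empty.1 hne
    rw [this]
    have : ln_K f ∅ = fun _ => 0 := by
      funext z
      exact ln_K_empty f z
    rw [this]
    exact measurable_const

theorem line (f g : ℝ → ℝ) (hf : Prof f) (hg : Prof g) (hd : Dom f g) (G : ℝ → ℝ≥0∞)
    (h1 : ∀ z, G z ≤ 1) (hc : ∀ c : ℝ≥0∞, 0 < c → OrdConnected {z | c < G z})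
    (hb : ∀ c : ℝ≥0∞, 0 < c → Bornology.IsBounded {z | c < G z}) :
    ∫⁻ z, ⨆ r : ℝ, ENNReal.ofReal (f r) * G (z - r) ≤
      ∫⁻ z, ⨆ r : ℝ, ENNReal.ofReal (g r) * G (z - r) := by
  calc ∫⁻ z, ⨆ r : ℝ, ENNReal.ofReal (f r) * G (z - r) ≤ ∫⁻ z, ⨆ j : ℕ, ln_H f G j z :=
        lintegral_mono fun z => ln_le_H f G h1 z
    _ = ⨆ j : ℕ, ∫⁻ z, ln_H f G j z := by
        apply lintegral_iSup (ln_meas f hf G hc hb)
        intro i j hij z
        exact ln_H_mono f G z hij
    _ ≤ ∫⁻ z, ⨆ r : ℝ, ENNReal.ofReal (g r) * G (z - r) := by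
        apply iSup_le
        intro j
        refine le_trans ?_ (lintegral_mono fun z => ln_H_le g G j z)
        have hm : 2 ^ j = (2 ^ j - 1) + 1 := by
          have : 0 < 2 ^ j := by positivity
          omega
        unfold ln_H
        rw [hm]
        have hpos : ∀ l ≤ 2 ^ j - 1, 0 < ENNReal.ofReal (ln_c j l) := by
          intro l hl
          exact ENNReal.ofReal_pos.2 (ln_c_pos (by omega))
        apply ln_fin f g hf hg hd (2 ^ j - 1) (fun l => ln_c j l) (fun l => ln_c_nonneg j l)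
          (fun l => {x | ENNReal.ofReal (ln_c j l) < G x})
        · intro l hl
          exact hc _ (hpos l hl)
        · intro l hl
          exact hb _ (hpos l hl)
        · intro i l hil hl x hx
          exact lt_of_le_of_lt (ENNReal.ofReal_le_ofReal (ln_c_anti j hil)) hx

end Pool.Agent.Helper934.Pr
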