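import Mathlib
import Pool.Agent.Helper934.PrDefs
import Pool.Agent.Helper934.PrD

open MeasureTheory Set
open scoped ENNReal

namespace Pool.Agent.Helper934.Pr

lemma step_sc_open {X : Type*} [TopologicalSpace X] [LocallyCompactSpace X]
    [SecondCountableTopology X] {s : Set X} (hs : IsOpen s) : IsSigmaCompact s := by
  rw [isSigmaCompact_iff_sigmaCompactSpace]
  have : LocallyCompactSpace s := hs.locallyCompactSpace
  infer_instance

lemma step_sc_meas {X : Type*} [TopologicalSpace X] [T2Space X] [MeasurableSpace X] [BorelSpace X]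
    {s : Set X} (hs : IsSigmaCompact s) : MeasurableSet s := by
  obtain ⟨K, hK, rfl⟩ := hs
  exact MeasurableSet.iUnion fun n => (hK n).measurableSet

lemma step_sc_image2 {X Y Z : Type*} [TopologicalSpace X] [TopologicalSpace Y]
    [TopologicalSpace Z] {s : Set X} {t : Set Y} (hs : IsSigmaCompact s) (ht : IsSigmaCompact t)
    {φ : X × Y → Z} (hφ : Continuous φ) : IsSigmaCompact (φ '' (s ×ˢ t)) := by
  obtain ⟨K, hK, rfl⟩ := hs
  obtain ⟨L, hL, rfl⟩ := ht
  have : φ '' ((⋃ n, K n) ×ˢ (⋃ n, L n)) = ⋃ p : ℕ × ℕ, φ '' (K p.1 ×ˢ L p.2) := by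
    ext z
    simp only [mem_image, mem_prod, mem_iUnion, Prod.exists]
    constructor
    · rintro ⟨x, y, ⟨⟨n, hn⟩, ⟨m, hm⟩⟩, rfl⟩
      exact ⟨n, m, x, y, ⟨hn, hm⟩, rfl⟩
    · rintro ⟨n, m, x, y, ⟨hn, hm⟩, rfl⟩
      exact ⟨x, y, ⟨⟨n, hn⟩, ⟨m, hm⟩⟩, rfl⟩
  rw [this]
  exact isSigmaCompact_iUnion_of_isCompact _ fun p => ((hK _).prod (hL _)).image hφ

lemma step_meas {E : Type*} [NormedAddCommGroup E] [NormedSpace ℝ E]
    [MeasurableSpace E] [BorelSpace E] {f : ℝ → ℝ} (hf : Continuous f) (w : E) (A : E → ℝ≥0∞)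
    (hm : ∀ c : ℝ≥0∞, 0 < c → IsSigmaCompact {y | c < A y}) :
    Measurable (fun y => ⨆ r : ℝ, ENNReal.ofReal (f r) * A (y - r • w)) := by
  apply measurable_of_Ioi
  intro τ
  have hset : (fun y => ⨆ r : ℝ, ENNReal.ofReal (f r) * A (y - r • w)) ⁻¹' (Ioi τ) =
      ⋃ q : ℚ, (fun p : ℝ × E => p.2 + p.1 • w) ''
        ({r : ℝ | τ < ENNReal.ofReal (f r) * (Real.toNNReal (q : ℝ) : ℝ≥0∞)} ×ˢ
          {y | (Real.toNNReal (q : ℝ) : ℝ≥0∞) < A y}) := by
    ext y
    simp only [mem_preimage, mem_Ioi, lt_iSup_iff, mem_iUnion, mem_image, mem_prod, Prod.exists,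
      Set.mem_ofPred_eq]
    constructor
    · rintro ⟨r, hr⟩
      have h0 : ENNReal.ofReal (f r) ≠ 0 := by
        intro h
        rw [h, zero_mul] at hr
        exact not_lt_bot hr
      have h1 : τ / ENNReal.ofReal (f r) < A (y - r • w) := by
        rw [ENNReal.div_lt_iff (Or.inl h0) (Or.inl ENNReal.ofReal_ne_top), mul_comm]
        exact hr
      obtain ⟨q, -, hq1, hq2⟩ := ENNReal.lt_iff_exists_rat_btwn.1 h1
      refine ⟨q, r, y - r • w, ⟨?_, hq2⟩, by abel⟩
      rw [ENNReal.div_lt_iff (Or.inl h0) (Or.inl ENNReal.ofReal_ne_top), mul_comm] at hq1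
      exact hq1
    · rintro ⟨q, r, a, ⟨h1, h2⟩, rfl⟩
      refine ⟨r, ?_⟩
      rw [add_sub_cancel_right]
      exact h1.trans_le (by gcongr)
  rw [hset]
  apply MeasurableSet.iUnion
  intro q
  by_cases hq : (0 : ℝ≥0∞) < (Real.toNNReal (q : ℝ) : ℝ≥0∞)
  · apply step_sc_meas
    apply step_sc_image2 _ (hm _ hq) (by fun_prop)
    apply step_sc_open
    have hc : Continuous (fun r : ℝ => ENNReal.ofReal (f r) * (Real.toNNReal (q : ℝ) : ℝ≥0∞)) :=
      ENNReal.continuous_mul_const ENNReal.coe_ne_top |>.comp (ENNReal.continuous_ofReal.comp hf)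
    exact isOpen_lt continuous_const hc
  · have hq0 : (Real.toNNReal (q : ℝ) : ℝ≥0∞) = 0 := by
      rwa [not_lt, nonpos_iff_eq_zero] at hq
    have : {r : ℝ | τ < ENNReal.ofReal (f r) * (Real.toNNReal (q : ℝ) : ℝ≥0∞)} = ∅ := by
      ext r
      simp [hq0]
    rw [this]
    simp

lemma step_zero {E : Type*} [NormedAddCommGroup E] [NormedSpace ℝ E] {f : ℝ → ℝ} (hf : Prof f)
    (A : E → ℝ≥0∞) (y : E) : ⨆ r : ℝ, ENNReal.ofReal (f r) * A (y - r • (0 : E)) = A y := by
  simp only [smul_zero, sub_zero]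
  apply le_antisymm
  · apply iSup_le
    intro r
    calc ENNReal.ofReal (f r) * A y ≤ 1 * A y := by
          gcongr
          rw [← ENNReal.ofReal_one]
          exact ENNReal.ofReal_le_ofReal (hf.le_one r)
      _ = A y := one_mul _
  · calc A y = ENNReal.ofReal (f 0) * A y := by rw [hf.one, ENNReal.ofReal_one, one_mul]
      _ ≤ _ := le_iSup (fun r => ENNReal.ofReal (f r) * A y) 0

theorem step {E : Type*} [NormedAddCommGroup E] [NormedSpace ℝ E] [FiniteDimensional ℝ E]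
    [MeasurableSpace E] [BorelSpace E] (μ : Measure E) [μ.IsAddHaarMeasure]
    (f g : ℝ → ℝ) (hf : Prof f) (hg : Prof g) (hd : Dom f g) (w : E) (A : E → ℝ≥0∞)
    (h1 : ∀ y, A y ≤ 1) (hc : ∀ c : ℝ≥0∞, 0 < c → Convex ℝ {y | c < A y})
    (hb : ∀ c : ℝ≥0∞, 0 < c → Bornology.IsBounded {y | c < A y})
    (hm : ∀ c : ℝ≥0∞, 0 < c → IsSigmaCompact {y | c < A y}) :
    ∫⁻ y, ⨆ r : ℝ, ENNReal.ofReal (f r) * A (y - r • w) ∂μ ≤
      ∫⁻ y, ⨆ r : ℝ, ENNReal.ofReal (g r) * A (y - r • w) ∂μ := by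
  by_cases hw : w = 0
  · subst hw
    apply le_of_eq
    apply lintegral_congr
    intro y
    rw [step_zero hf, step_zero hg]
  obtain ⟨φ, hφ⟩ := SeparatingDual.exists_eq_one (R := ℝ) hw
  have hinv : Function.RightInverse (ContinuousLinearMap.toSpanSingleton ℝ w) φ := by
    intro z
    rw [ContinuousLinearMap.toSpanSingleton_apply, map_smul, hφ, smul_eq_mul, mul_one]
  let e : E ≃L[ℝ] ℝ × φ.ker := ContinuousLinearEquiv.equivOfRightInverse φ _ hinv
  have he : ∀ (z : ℝ) (v : φ.ker), e.symm (z, v) = z • w + (v : E) := by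
    intro z v
    show (ContinuousLinearEquiv.equivOfRightInverse φ _ hinv).symm (z, v) = _
    rw [ContinuousLinearEquiv.equivOfRightInverse_symm_apply]
    rfl
  let em : E ≃ᵐ ℝ × φ.ker := e.toHomeomorph.toMeasurableEquiv
  let ν : Measure φ.ker := Measure.addHaar
  have hmu : (μ.map e).IsAddHaarMeasure := e.isAddHaarMeasure_map μ
  have hsm : μ.map e = Measure.addHaarScalarFactor (μ.map e)
      ((volume : Measure ℝ).prod ν) • ((volume : Measure ℝ).prod ν) :=
    Measure.isAddLeftInvariant_eq_smul _ _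
  set c := Measure.addHaarScalarFactor (μ.map e) ((volume : Measure ℝ).prod ν) with hc'
  have key : ∀ f : ℝ → ℝ, Prof f → ∫⁻ y, ⨆ r : ℝ, ENNReal.ofReal (f r) * A (y - r • w) ∂μ =
      c * ∫⁻ v, ∫⁻ z, ⨆ r : ℝ, ENNReal.ofReal (f r) * A ((z - r) • w + (v : E)) ∂volume ∂ν := by
    intro f hf
    have hmeas := step_meas hf.cont w A hm
    have h1 : ∫⁻ p, (⨆ r : ℝ, ENNReal.ofReal (f r) * A (e.symm p - r • w)) ∂(μ.map e) =
        ∫⁻ y, ⨆ r : ℝ, ENNReal.ofReal (f r) * A (y - r • w) ∂μ := by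
      have h2 := lintegral_map_equiv (μ := μ)
        (fun p => (⨆ r : ℝ, ENNReal.ofReal (f r) * A (e.symm p - r • w))) em
      have h3 : μ.map em = μ.map e := rfl
      rw [h3] at h2
      rw [h2]
      apply lintegral_congr
      intro y
      have h4 : e.symm (em y) = y := e.symm_apply_apply y
      simp only [h4]
    rw [← h1, hsm, lintegral_smul_measure]
    have hmeas2 : Measurable (fun p : ℝ × φ.ker =>
        (⨆ r : ℝ, ENNReal.ofReal (f r) * A (e.symm p - r • w))) :=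
      hmeas.comp e.symm.continuous.measurable
    rw [lintegral_prod_symm' _ hmeas2]
    rw [ENNReal.smul_def, smul_eq_mul]
    congr 1
    apply lintegral_congr
    intro v
    apply lintegral_congr
    intro z
    congr 1
    funext r
    rw [he]
    congr 2
    rw [sub_smul]
    abel
  rw [key f hf, key g hg]
  refine mul_le_mul_right (lintegral_mono fun v => ?_) _
  apply line f g hf hg hd (fun z => A (z • w + (v : E)))
  · intro z; exact h1 _
  · intro c hc0
    have hconv : Convex ℝ {z : ℝ | c < A (z • w + (v : E))} := by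
      intro x hx y hy a b ha hb hab
      have := hc c hc0 hx hy ha hb hab
      show c < A ((a • x + b • y) • w + (v : E))
      have h5 : (a • x + b • y) • w + (v : E) = a • (x • w + (v : E)) + b • (y • w + (v : E)) := by
        have h6 : (v : E) = a • (v : E) + b • (v : E) := by rw [← add_smul, hab, one_smul]
        rw [smul_eq_mul, smul_eq_mul]
        calc (a * x + b * y) • w + (v : E) = (a * x + b * y) • w + (a • (v : E) + b • (v : E)) := by
              rw [← h6]
          _ = _ := by module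
      rw [h5]
      exact this
    exact hconv.ordConnected
  · intro c hc0
    obtain ⟨R, hR⟩ := (hb c hc0).exists_norm_le
    have hwn : 0 < ‖w‖ := norm_pos_iff.2 hw
    rw [isBounded_iff_forall_norm_le]
    refine ⟨(R + ‖(v : E)‖) / ‖w‖, ?_⟩
    intro z hz
    have h5 := hR _ hz
    rw [le_div_iff₀ hwn, ← norm_smul]
    calc ‖z • w‖ = ‖(z • w + (v : E)) - (v : E)‖ := by rw [add_sub_cancel_right]
      _ ≤ ‖z • w + (v : E)‖ + ‖(v : E)‖ := norm_sub_le _ _
      _ ≤ R + ‖(v : E)‖ := by linarith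

end Pool.Agent.Helper934.Pr
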