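import Mathlib
import Pool.Agent.Helper934.PrDefs
import Pool.Agent.Helper934.PrE

open MeasureTheory Set
open scoped ENNReal

namespace Pool.Agent.Helper934.Pr

open Classical in

/-- the reduced supremum -/

noncomputable def j2598_A {E : Type*} [AddCommGroup E] [Module ℝ E] {n : ℕ}
    (T : (Fin n → ℝ) →ₗ[ℝ] E) (F : Fin n → ℝ → ℝ) (i : Fin n) (y : E) : ℝ≥0∞ :=
  ⨆ (x : Fin n → ℝ) (_ : T x = y ∧ x i = 0), ∏ j ∈ Finset.univ.erase i, ENNReal.ofReal (F j (x j))

theorem j2598_upd {E : Type*} [AddCommGroup E] [Module ℝ E] {n : ℕ}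
    (T : (Fin n → ℝ) →ₗ[ℝ] E) (x : Fin n → ℝ) (i : Fin n) (r : ℝ) :
    T (Function.update x i r) = T x + (r - x i) • T (Pi.single i 1) := by
  rw [← map_smul, ← map_add]
  congr 1
  ext j
  by_cases h : j = i
  · subst h; simp
  · simp [h]

theorem j2598_eq {E : Type*} [AddCommGroup E] [Module ℝ E] {n : ℕ}
    (T : (Fin n → ℝ) →ₗ[ℝ] E) (F : Fin n → ℝ → ℝ) (i : Fin n) (y : E) :
    SS T F y = ⨆ r : ℝ, ENNReal.ofReal (F i r) * j2598_A T F i (y - r • T (Pi.single i 1)) := by
  classical
  apply le_antisymm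
  · unfold SS
    apply iSup₂_le
    intro x hx
    apply le_iSup_of_le (x i)
    rw [← Finset.mul_prod_erase Finset.univ _ (Finset.mem_univ i)]
    gcongr
    unfold j2598_A
    apply le_iSup₂_of_le (Function.update x i 0) ⟨by
      rw [j2598_upd, hx, zero_sub, neg_smul, sub_eq_add_neg], by simp⟩
    apply le_of_eq
    apply Finset.prod_congr rfl
    intro j hj
    rw [Function.update_of_ne (Finset.ne_of_mem_erase hj)]
  · apply iSup_le
    intro r
    unfold j2598_A
    rw [ENNReal.mul_iSup]
    apply iSup_le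
    intro x
    rw [ENNReal.mul_iSup]
    apply iSup_le
    rintro ⟨hx, hxi⟩
    unfold SS
    apply le_iSup₂_of_le (Function.update x i r) (by
      rw [j2598_upd, hx, hxi, sub_zero, sub_add_cancel])
    rw [← Finset.mul_prod_erase Finset.univ _ (Finset.mem_univ i)]
    rw [Function.update_self]
    apply le_of_eq
    congr 1
    apply Finset.prod_congr rfl
    intro j hj
    rw [Function.update_of_ne (Finset.ne_of_mem_erase hj)]

theorem j2598_Aupd {E : Type*} [AddCommGroup E] [Module ℝ E] {n : ℕ}
    (T : (Fin n → ℝ) →ₗ[ℝ] E) (F : Fin n → ℝ → ℝ) (i : Fin n) (g : ℝ → ℝ) :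
    j2598_A T (Function.update F i g) i = j2598_A T F i := by
  classical
  funext y
  unfold j2598_A
  apply iSup_congr
  intro x
  apply iSup_congr
  intro _
  apply Finset.prod_congr rfl
  intro j hj
  rw [Function.update_of_ne (Finset.ne_of_mem_erase hj)]

theorem j2598_set {E : Type*} [AddCommGroup E] [Module ℝ E] {n : ℕ}
    (T : (Fin n → ℝ) →ₗ[ℝ] E) (F : Fin n → ℝ → ℝ) (i : Fin n) (c : ℝ≥0∞) :
    {y | c < j2598_A T F i y} =
      T '' {x | x i = 0 ∧ c < ∏ j ∈ Finset.univ.erase i, ENNReal.ofReal (F j (x j))} := by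
  classical
  ext y
  constructor
  · intro h
    have h' : c < ⨆ (x : Fin n → ℝ) (_ : T x = y ∧ x i = 0),
      ∏ j ∈ Finset.univ.erase i, ENNReal.ofReal (F j (x j)) := h
    obtain ⟨x, hx⟩ := lt_iSup_iff.1 h'
    obtain ⟨hx', hx''⟩ := lt_iSup_iff.1 hx
    exact ⟨x, ⟨hx'.2, hx''⟩, hx'.1⟩
  · rintro ⟨x, ⟨hx, hx'⟩, rfl⟩
    show c < ⨆ (x' : Fin n → ℝ) (_ : T x' = T x ∧ x' i = 0),
      ∏ j ∈ Finset.univ.erase i, ENNReal.ofReal (F j (x' j))
    exact hx'.trans_le (le_iSup₂_of_le x ⟨rfl, hx⟩ le_rfl)

theorem j2598_iff {n : ℕ} (F : Fin n → ℝ → ℝ) (hF : ∀ i, Prof (F i)) (i : Fin n) (c : ℝ≥0∞)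
    (hc : 0 < c) (hc' : c ≠ ⊤) (x : Fin n → ℝ) :
    c < ∏ j ∈ Finset.univ.erase i, ENNReal.ofReal (F j (x j)) ↔
      ∑ j ∈ Finset.univ.erase i, (-Real.log (F j (x j))) < -Real.log c.toReal := by
  have hp : 0 < ∏ j ∈ Finset.univ.erase i, F j (x j) := Finset.prod_pos (fun j _ => (hF j).pos _)
  rw [← ENNReal.ofReal_prod_of_nonneg (fun j _ => ((hF j).pos _).le),
    ← ENNReal.ofReal_toReal hc', ENNReal.ofReal_lt_ofReal_iff hp, ENNReal.toReal_ofReal ENNReal.toReal_nonneg,
    Finset.sum_neg_distrib, neg_lt_neg_iff, ← Real.log_prod (fun j _ => ((hF j).pos _).ne')]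
  exact (Real.log_lt_log_iff (ENNReal.toReal_pos hc.ne' hc') hp).symm

theorem chain1 {E : Type*} [NormedAddCommGroup E] [NormedSpace ℝ E] [FiniteDimensional ℝ E]
    [MeasurableSpace E] [BorelSpace E] (μ : Measure E) [μ.IsAddHaarMeasure] {n : ℕ}
    (T : (Fin n → ℝ) →ₗ[ℝ] E) (F : Fin n → ℝ → ℝ) (hF : ∀ i, Prof (F i)) (i : Fin n)
    (g : ℝ → ℝ) (hg : Prof g) (hd : Dom (F i) g) :
    ∫⁻ y, SS T F y ∂μ ≤ ∫⁻ y, SS T (Function.update F i g) y ∂μ := by
  classical
  have h1 : ∀ y, SS T F y = ⨆ r : ℝ, ENNReal.ofReal (F i r) *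
      j2598_A T F i (y - r • T (Pi.single i 1)) := j2598_eq T F i
  have h2 : ∀ y, SS T (Function.update F i g) y = ⨆ r : ℝ, ENNReal.ofReal (g r) *
      j2598_A T F i (y - r • T (Pi.single i 1)) := by
    intro y
    rw [j2598_eq T (Function.update F i g) i y, j2598_Aupd, Function.update_self]
  simp_rw [h1, h2]
  apply step μ (F i) g (hF i) hg hd
  · intro y
    unfold j2598_A
    apply iSup₂_le
    intro x _
    apply Finset.prod_le_one'
    intro j _
    exact ENNReal.ofReal_le_one.2 ((hF j).le_one _)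
  · intro c hc
    rw [j2598_set]
    apply Convex.linear_image
    by_cases hc' : c = ⊤
    · have : {x : Fin n → ℝ | x i = 0 ∧ c < ∏ j ∈ Finset.univ.erase i, ENNReal.ofReal (F j (x j))} = ∅ := by
        rw [Set.eq_empty_iff_forall_notMem]
        rintro x ⟨_, hx⟩
        rw [hc'] at hx
        exact not_top_lt hx
      rw [this]
      exact convex_empty
    · have h3 : ConvexOn ℝ univ (fun x : Fin n → ℝ => ∑ j ∈ Finset.univ.erase i, (-Real.log (F j (x j)))) := by
        have h4 : ∀ j, ConvexOn ℝ univ (fun x : Fin n → ℝ => -Real.log (F j (x j))) := by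
          intro j
          exact (hF j).logc.comp_linearMap (LinearMap.proj (R := ℝ) (φ := fun _ : Fin n => ℝ) j)
        refine ⟨convex_univ, ?_⟩
        intro x _ y _ a b ha hb hab
        simp only [smul_eq_mul, Finset.mul_sum]
        rw [← Finset.sum_add_distrib]
        apply Finset.sum_le_sum
        intro j _
        exact (h4 j).2 (mem_univ x) (mem_univ y) ha hb hab
      have h5 := h3.convex_lt (-Real.log c.toReal)
      have h6 : {x : Fin n → ℝ | x i = 0 ∧ c < ∏ j ∈ Finset.univ.erase i, ENNReal.ofReal (F j (x j))} =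
          {x : Fin n → ℝ | x i = 0} ∩ {x ∈ univ | ∑ j ∈ Finset.univ.erase i, (-Real.log (F j (x j))) < -Real.log c.toReal} := by
        ext x
        constructor
        · rintro ⟨hx, hx'⟩
          exact ⟨hx, mem_univ _, (j2598_iff F hF i c hc hc' x).1 hx'⟩
        · rintro ⟨hx, _, hx'⟩
          exact ⟨hx, (j2598_iff F hF i c hc hc' x).2 hx'⟩
      rw [h6]
      apply Convex.inter _ h5
      intro x hx y hy a b _ _ _
      have hx' : x i = 0 := hx
      have hy' : y i = 0 := hy
      show (a • x + b • y) i = 0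
      simp [hx', hy']
  · intro c hc
    rw [j2598_set]
    have hT : LipschitzWith _ (LinearMap.toContinuousLinearMap T) :=
      (LinearMap.toContinuousLinearMap T).lipschitz
    apply hT.isBounded_image
    by_cases hc' : c = ⊤
    · have : {x : Fin n → ℝ | x i = 0 ∧ c < ∏ j ∈ Finset.univ.erase i, ENNReal.ofReal (F j (x j))} = ∅ := by
        rw [Set.eq_empty_iff_forall_notMem]
        rintro x ⟨_, hx⟩
        rw [hc'] at hx
        exact not_top_lt hx
      rw [this]
      exact Bornology.isBounded_empty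
    · have hcp : 0 < c.toReal := ENNReal.toReal_pos hc.ne' hc'
      have h3 : ∀ j, ∃ R : ℝ, 0 ≤ R ∧ ∀ r, c.toReal < F j r → |r| ≤ R := by
        intro j
        have h4 := ((hF j).tend.eventually (gt_mem_nhds hcp)).exists_forall_of_atTop
        obtain ⟨R, hR⟩ := h4
        refine ⟨max R 0, le_max_right _ _, ?_⟩
        intro r hr
        by_contra hcon
        push Not at hcon
        have h5 := hR |r| ((le_max_left _ _).trans hcon.le)
        have h6 : F j |r| = F j r := by
          rcases abs_choice r with h | h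
          · rw [h]
          · rw [h, (hF j).even]
        rw [h6] at h5
        linarith
      choose R hR0 hR using h3
      apply Bornology.IsBounded.subset (Metric.isBounded_closedBall (x := (0 : Fin n → ℝ)) (r := ∑ j, R j))
      rintro x ⟨hx, hx'⟩
      rw [mem_closedBall_zero_iff, pi_norm_le_iff_of_nonneg (Finset.sum_nonneg (fun j _ => hR0 j))]
      intro j
      rw [Real.norm_eq_abs]
      by_cases hj : j = i
      · rw [hj, hx, abs_zero]
        exact Finset.sum_nonneg (fun j _ => hR0 j)
      · refine (hR j _ ?_).trans (Finset.single_le_sum (fun j _ => hR0 j) (Finset.mem_univ j))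
        have h7 : c < ENNReal.ofReal (F j (x j)) := by
          apply lt_of_lt_of_le hx'
          rw [← Finset.mul_prod_erase _ _ (Finset.mem_erase.2 ⟨hj, Finset.mem_univ j⟩)]
          apply mul_le_of_le_one_right zero_le
          apply Finset.prod_le_one'
          intro k _
          exact ENNReal.ofReal_le_one.2 ((hF k).le_one _)
        rw [← ENNReal.ofReal_toReal hc', ENNReal.ofReal_lt_ofReal_iff ((hF j).pos _)] at h7
        exact h7
  · intro c hc
    rw [j2598_set]
    apply IsSigmaCompact.image (LinearMap.continuous_of_finiteDimensional T)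
    have hop : IsOpen {x : Fin n → ℝ | c < ∏ j ∈ Finset.univ.erase i, ENNReal.ofReal (F j (x j))} := by
      have hco : Continuous (fun x : Fin n → ℝ => ∏ j ∈ Finset.univ.erase i, F j (x j)) := by
        apply continuous_finsetProd
        intro j _
        exact (hF j).cont.comp (continuous_apply j)
      have hco' : Continuous (fun x : Fin n → ℝ => ∏ j ∈ Finset.univ.erase i, ENNReal.ofReal (F j (x j))) := by
        have h8 : (fun x : Fin n → ℝ => ∏ j ∈ Finset.univ.erase i, ENNReal.ofReal (F j (x j))) =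
            fun x => ENNReal.ofReal (∏ j ∈ Finset.univ.erase i, F j (x j)) := by
          funext x
          rw [ENNReal.ofReal_prod_of_nonneg (fun j _ => ((hF j).pos _).le)]
        rw [h8]
        exact ENNReal.continuous_ofReal.comp hco
      exact isOpen_lt continuous_const hco'
    obtain ⟨K, hK1, _, hK3, _⟩ := hop.exists_iUnion_isClosed
    have h9 : {x : Fin n → ℝ | x i = 0 ∧ c < ∏ j ∈ Finset.univ.erase i, ENNReal.ofReal (F j (x j))} =
        ⋃ k, (K k ∩ {x | x i = 0}) := by
      rw [← Set.iUnion_inter, hK3]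
      ext x
      exact and_comm
    rw [h9]
    apply isSigmaCompact_iUnion
    intro k
    exact isSigmaCompact_univ.of_isClosed_subset
      ((hK1 k).inter (isClosed_eq (continuous_apply i) continuous_const)) (subset_univ _)

theorem chain {E : Type*} [NormedAddCommGroup E] [NormedSpace ℝ E] [FiniteDimensional ℝ E]
    [MeasurableSpace E] [BorelSpace E] (μ : Measure E) [μ.IsAddHaarMeasure] {n : ℕ}
    (T : (Fin n → ℝ) →ₗ[ℝ] E) (f g : ℝ → ℝ) (hf : Prof f) (hg : Prof g) (hd : Dom f g) :
    ∫⁻ y, SS T (fun _ => f) y ∂μ ≤ ∫⁻ y, SS T (fun _ => g) y ∂μ := by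
  classical
  have key : ∀ s : Finset (Fin n), ∫⁻ y, SS T (fun _ => f) y ∂μ ≤
      ∫⁻ y, SS T (fun j => if j ∈ s then g else f) y ∂μ := by
    intro s
    induction s using Finset.induction_on with
    | empty => simp
    | insert a s ha ih =>
      refine ih.trans ?_
      have h1 := chain1 μ T (fun j => if j ∈ s then g else f) (fun j => by
        show Prof (if j ∈ s then g else f)
        split_ifs
        · exact hg
        · exact hf) a g hg (by
        show Dom (if a ∈ s then g else f) g
        rw [if_neg ha]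
        exact hd)
      have h2 : Function.update (fun j => if j ∈ s then g else f) a g =
          fun j => if j ∈ insert a s then g else f := by
        funext j
        by_cases hj : j = a
        · subst hj; simp
        · rw [Function.update_of_ne hj]
          simp [Finset.mem_insert, hj]
      rw [h2] at h1
      exact h1
  have := key Finset.univ
  simpa using this

end Pool.Agent.Helper934.Pr
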