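import Mathlib
import Pool.Agent.Helper934.PrDefs

open MeasureTheory Set
open scoped ENNReal

namespace Pool.Agent.Helper934.Pr

theorem hG_prod {n : ℕ} (c p : ℝ) (x : Fin n → ℝ) :
    ∏ i, ENNReal.ofReal (ex c p (x i)) =
      ENNReal.ofReal (Real.exp (-(c * ∑ i, |x i| ^ p))) := by
  simp only [ex]
  rw [← ENNReal.ofReal_prod_of_nonneg (fun i _ => (Real.exp_pos _).le)]
  congr 1
  rw [← Real.exp_sum]
  congr 1
  rw [Finset.sum_neg_distrib, Finset.mul_sum]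

theorem hG_cont {n : ℕ} (p : ℝ) (hp : 1 ≤ p) : Continuous fun x : Fin n → ℝ => ∑ i, |x i| ^ p :=
  continuous_finsetSum _ fun i _ => (continuous_abs.comp (continuous_apply i)).rpow_const
    (fun _ => Or.inr (by linarith))

theorem hG_nonneg {n : ℕ} (p : ℝ) (x : Fin n → ℝ) : 0 ≤ ∑ i, |x i| ^ p :=
  Finset.sum_nonneg fun i _ => Real.rpow_nonneg (abs_nonneg _) _

theorem hG_compact {n : ℕ} (p : ℝ) (hp : 1 ≤ p) (s : ℝ) :
    IsCompact {x : Fin n → ℝ | ∑ i, |x i| ^ p ≤ s} := by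
  refine Metric.isCompact_of_isClosed_isBounded (isClosed_le (hG_cont p hp) continuous_const) ?_
  refine (Metric.isBounded_closedBall (x := (0 : Fin n → ℝ)) (r := max 1 s)).subset ?_
  intro x hx
  rw [mem_closedBall_zero_iff, pi_norm_le_iff_of_nonneg (le_trans zero_le_one (le_max_left _ _))]
  intro i
  have hx' : ∑ i, |x i| ^ p ≤ s := hx
  have h1 : |x i| ^ p ≤ s := (Finset.single_le_sum (f := fun i => |x i| ^ p)
    (fun i _ => Real.rpow_nonneg (abs_nonneg _) _) (Finset.mem_univ i)).trans hx'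
  rw [Real.norm_eq_abs]
  by_cases h : |x i| ≤ 1
  · exact h.trans (le_max_left _ _)
  · push Not at h
    refine le_trans ?_ (h1.trans (le_max_right _ _))
    calc |x i| = |x i| ^ (1:ℝ) := (Real.rpow_one _).symm
      _ ≤ |x i| ^ p := Real.rpow_le_rpow_of_exponent_le h.le hp

theorem hG_smul {n : ℕ} (p : ℝ) (l : ℝ) (hl : 0 < l) (x : Fin n → ℝ) :
    ∑ i, |(l • x) i| ^ p = l ^ p * ∑ i, |x i| ^ p := by
  rw [Finset.mul_sum]
  refine Finset.sum_congr rfl fun i _ => ?_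
  rw [Pi.smul_apply, smul_eq_mul, abs_mul, abs_of_pos hl, Real.mul_rpow hl.le (abs_nonneg _)]

open scoped Pointwise in

theorem hG_set {n : ℕ} (p : ℝ) (hp : 1 ≤ p) (s : ℝ) (hs : 0 < s) :
    {x : Fin n → ℝ | ∑ i, |x i| ^ p < s} = (s ^ (1 / p)) • {x : Fin n → ℝ | ∑ i, |x i| ^ p < 1} := by
  have hl : 0 < s ^ (1 / p) := Real.rpow_pos_of_pos hs _
  ext x
  rw [mem_smul_set_iff_inv_smul_mem₀ hl.ne']
  show (∑ i, |x i| ^ p < s) ↔ (∑ i, |((s ^ (1 / p))⁻¹ • x) i| ^ p < 1)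
  rw [hG_smul p _ (inv_pos.2 hl)]
  have h1 : ((s ^ (1 / p))⁻¹) ^ p = s⁻¹ := by
    rw [Real.inv_rpow hl.le, ← Real.rpow_mul hs.le, one_div, inv_mul_cancel₀ (by linarith),
      Real.rpow_one]
  rw [h1, inv_mul_lt_one₀ hs]

theorem hG_SS {E : Type*} [AddCommGroup E] [Module ℝ E] {n : ℕ}
    (T : (Fin n → ℝ) →ₗ[ℝ] E) (c p : ℝ) (y : E) :
    SS T (fun _ => ex c p) y =
      ⨆ (x : Fin n → ℝ) (_ : T x = y), ENNReal.ofReal (Real.exp (-(c * ∑ i, |x i| ^ p))) := by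
  unfold SS
  simp only [hG_prod]

theorem hG_SS_le {E : Type*} [AddCommGroup E] [Module ℝ E] {n : ℕ}
    (T : (Fin n → ℝ) →ₗ[ℝ] E) (c p : ℝ) (hc : 0 < c) (y : E) :
    SS T (fun _ => ex c p) y ≤ 1 := by
  rw [hG_SS]
  refine iSup₂_le fun x _ => ?_
  rw [ENNReal.ofReal_le_one]
  rw [Real.exp_le_one_iff]
  have := mul_nonneg hc.le (hG_nonneg p x)
  linarith

theorem hG_level {E : Type*} [AddCommGroup E] [Module ℝ E] {n : ℕ}
    (T : (Fin n → ℝ) →ₗ[ℝ] E) (c p : ℝ) (hc : 0 < c) (t : ℝ) (ht : 0 ≤ t) :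
    {y | t < (SS T (fun _ => ex c p) y).toReal} =
      T '' {x | t < Real.exp (-(c * ∑ i, |x i| ^ p))} := by
  ext y
  have hne : SS T (fun _ => ex c p) y ≠ ⊤ :=
    ne_top_of_le_ne_top ENNReal.one_ne_top (hG_SS_le T c p hc y)
  show t < (SS T (fun _ => ex c p) y).toReal ↔ _
  rw [← ENNReal.ofReal_lt_iff_lt_toReal ht hne, hG_SS]
  simp only [lt_iSup_iff, mem_image]
  constructor
  · rintro ⟨x, hx, h⟩
    exact ⟨x, (ENNReal.ofReal_lt_ofReal_iff (Real.exp_pos _)).1 h, hx⟩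
  · rintro ⟨x, h, hx⟩
    exact ⟨x, hx, (ENNReal.ofReal_lt_ofReal_iff (Real.exp_pos _)).2 h⟩

theorem hG_le_iff {n : ℕ} (c p : ℝ) (hc : 0 < c) (b : ℝ) (hb : 0 < b) (x : Fin n → ℝ) :
    b ≤ Real.exp (-(c * ∑ i, |x i| ^ p)) ↔ ∑ i, |x i| ^ p ≤ -Real.log b / c := by
  rw [← Real.log_le_iff_le_exp hb, le_div_iff₀ hc]
  constructor <;> intro h <;> linarith

theorem hG_lt_iff {n : ℕ} (c p : ℝ) (hc : 0 < c) (b : ℝ) (hb : 0 < b) (x : Fin n → ℝ) :
    b < Real.exp (-(c * ∑ i, |x i| ^ p)) ↔ ∑ i, |x i| ^ p < -Real.log b / c := by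
  rw [← Real.log_lt_iff_lt_exp hb, lt_div_iff₀ hc]
  constructor <;> intro h <;> linarith

theorem hG_levelmeas {E : Type*} [NormedAddCommGroup E] [NormedSpace ℝ E] [FiniteDimensional ℝ E]
    [MeasurableSpace E] [BorelSpace E] {n : ℕ}
    (T : (Fin n → ℝ) →ₗ[ℝ] E) (c p : ℝ) (hc : 0 < c) (hp : 1 ≤ p) (t : ℝ) (ht : 0 ≤ t) :
    MeasurableSet (T '' {x | t < Real.exp (-(c * ∑ i, |x i| ^ p))}) := by
  have hT : Continuous T := T.continuous_of_finiteDimensional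
  have h1 : {x : Fin n → ℝ | t < Real.exp (-(c * ∑ i, |x i| ^ p))} =
      ⋃ m : ℕ, {x : Fin n → ℝ | t + 1 / ((m:ℝ) + 1) ≤ Real.exp (-(c * ∑ i, |x i| ^ p))} := by
    ext x
    simp only [mem_iUnion]
    constructor
    · intro h
      have h' : t < Real.exp (-(c * ∑ i, |x i| ^ p)) := h
      obtain ⟨m, hm⟩ := exists_nat_one_div_lt (sub_pos.2 h')
      exact ⟨m, by show t + 1 / ((m:ℝ) + 1) ≤ _; linarith⟩
    · rintro ⟨m, hm⟩
      have hm' : t + 1 / ((m:ℝ) + 1) ≤ Real.exp (-(c * ∑ i, |x i| ^ p)) := hm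
      show t < _
      have : (0:ℝ) < 1 / ((m:ℝ) + 1) := by positivity
      linarith
  rw [h1, image_iUnion]
  refine MeasurableSet.iUnion fun m => ?_
  have h2 : {x : Fin n → ℝ | t + 1 / ((m:ℝ) + 1) ≤ Real.exp (-(c * ∑ i, |x i| ^ p))} =
      {x : Fin n → ℝ | ∑ i, |x i| ^ p ≤ -Real.log (t + 1 / ((m:ℝ) + 1)) / c} := by
    ext x
    exact hG_le_iff c p hc _ (by positivity) x
  rw [h2]
  exact ((hG_compact p hp _).image hT).isClosed.measurableSet

open scoped Pointwise in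

theorem hG_measure_eq {E : Type*} [NormedAddCommGroup E] [NormedSpace ℝ E] [FiniteDimensional ℝ E]
    [MeasurableSpace E] [BorelSpace E] (μ : Measure E) [μ.IsAddHaarMeasure] {n : ℕ}
    (T : (Fin n → ℝ) →ₗ[ℝ] E) (p : ℝ) (hp : 1 ≤ p) :
    μ (T '' {x | ∑ i, |x i| ^ p < 1}) = μ (T '' {x | ∑ i, |x i| ^ p ≤ 1}) := by
  apply le_antisymm
  · exact measure_mono (image_mono fun x (hx : ∑ i, |x i| ^ p < 1) => (show ∑ i, |x i| ^ p ≤ 1 from le_of_lt hx))
  · have h : ∀ m : ℕ, μ (T '' {x | ∑ i, |x i| ^ p ≤ 1}) ≤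
        ENNReal.ofReal |(1 + 1 / ((m:ℝ) + 1)) ^ Module.finrank ℝ E| *
          μ (T '' {x | ∑ i, |x i| ^ p < 1}) := by
      intro m
      rw [← Measure.addHaar_smul, ← image_smul_comm T _ _ (fun b => map_smul T _ b)]
      refine measure_mono (image_mono fun x hx => ?_)
      have hl : (0:ℝ) < 1 + 1 / ((m:ℝ) + 1) := by positivity
      have hl1 : (1:ℝ) < 1 + 1 / ((m:ℝ) + 1) := by
        have : (0:ℝ) < 1 / ((m:ℝ) + 1) := by positivity
        linarith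
      rw [mem_smul_set_iff_inv_smul_mem₀ hl.ne']
      show ∑ i, |((1 + 1 / ((m:ℝ) + 1))⁻¹ • x) i| ^ p < 1
      rw [hG_smul p _ (inv_pos.2 hl)]
      have hx' : ∑ i, |x i| ^ p ≤ 1 := hx
      have h3 : ((1 + 1 / ((m:ℝ) + 1))⁻¹) ^ p < 1 :=
        Real.rpow_lt_one (inv_pos.2 hl).le (inv_lt_one_of_one_lt₀ hl1) (by linarith)
      have h4 : 0 ≤ ((1 + 1 / ((m:ℝ) + 1))⁻¹) ^ p := Real.rpow_nonneg (inv_pos.2 hl).le _
      calc _ ≤ ((1 + 1 / ((m:ℝ) + 1))⁻¹) ^ p * 1 := mul_le_mul_of_nonneg_left hx' h4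
        _ < 1 := by rw [mul_one]; exact h3
    have hlim : Filter.Tendsto (fun m : ℕ =>
        ENNReal.ofReal |(1 + 1 / ((m:ℝ) + 1)) ^ Module.finrank ℝ E| *
          μ (T '' {x | ∑ i, |x i| ^ p < 1})) Filter.atTop
        (nhds (ENNReal.ofReal |(1 + (0:ℝ)) ^ Module.finrank ℝ E| *
          μ (T '' {x | ∑ i, |x i| ^ p < 1}))) := by
      refine ENNReal.Tendsto.mul_const ?_ (Or.inl (by simp))
      refine ENNReal.tendsto_ofReal ?_
      refine Filter.Tendsto.abs ?_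
      refine Filter.Tendsto.pow ?_ _
      exact tendsto_one_div_add_atTop_nhds_zero_nat.const_add 1
    have := ge_of_tendsto' hlim h
    simpa using this

theorem scaling {E : Type*} [NormedAddCommGroup E] [NormedSpace ℝ E] [FiniteDimensional ℝ E]
    [MeasurableSpace E] [BorelSpace E] (μ : Measure E) [μ.IsAddHaarMeasure] {n : ℕ}
    (T : (Fin n → ℝ) →ₗ[ℝ] E) (c p : ℝ) (hc : 0 < c) (hp : 1 ≤ p) :
    ∫⁻ y, SS T (fun _ => ex c p) y ∂μ =
      CC c p (Module.finrank ℝ E) * μ (T '' {x | ∑ i, |x i| ^ p ≤ 1}) := by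
  classical
  have hTc : Continuous T := T.continuous_of_finiteDimensional
  have hne : ∀ y, SS T (fun _ => ex c p) y ≠ ⊤ := fun y =>
    ne_top_of_le_ne_top ENNReal.one_ne_top (hG_SS_le T c p hc y)
  have hmeas : Measurable fun y => (SS T (fun _ => ex c p) y).toReal := by
    refine measurable_of_Ioi fun a => ?_
    by_cases ha : 0 ≤ a
    · have : (fun y => (SS T (fun _ => ex c p) y).toReal) ⁻¹' Ioi a =
          {y | a < (SS T (fun _ => ex c p) y).toReal} := rfl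
      rw [this, hG_level T c p hc a ha]
      exact hG_levelmeas T c p hc hp a ha
    · push Not at ha
      have : (fun y => (SS T (fun _ => ex c p) y).toReal) ⁻¹' Ioi a = univ := by
        ext y
        simp only [mem_preimage, mem_Ioi, mem_univ, iff_true]
        exact lt_of_lt_of_le ha ENNReal.toReal_nonneg
      rw [this]; exact MeasurableSet.univ
  have h1 : ∫⁻ y, SS T (fun _ => ex c p) y ∂μ =
      ∫⁻ y, ENNReal.ofReal ((SS T (fun _ => ex c p) y).toReal) ∂μ :=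
    lintegral_congr fun y => (ENNReal.ofReal_toReal (hne y)).symm
  rw [h1, lintegral_eq_lintegral_meas_lt μ (Filter.Eventually.of_forall fun y =>
    ENNReal.toReal_nonneg) hmeas.aemeasurable]
  have hM : μ (T '' {x | ∑ i, |x i| ^ p < 1}) = μ (T '' {x | ∑ i, |x i| ^ p ≤ 1}) :=
    hG_measure_eq μ T p hp
  have hMfin : μ (T '' {x | ∑ i, |x i| ^ p ≤ 1}) ≠ ⊤ :=
    ((hG_compact p hp 1).image hTc).measure_lt_top.ne
  have hsplit : Ioi (0:ℝ) = Ioo 0 1 ∪ Ici 1 := (Ioo_union_Ici_eq_Ioi zero_lt_one).symm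
  rw [hsplit, lintegral_union measurableSet_Ici (by
    rw [Set.disjoint_left]
    intro t ht ht'
    exact absurd ht.2 (not_lt.2 ht'))]
  have h0 : ∫⁻ t in Ici (1:ℝ), μ {a | t < (SS T (fun _ => ex c p) a).toReal} = 0 := by
    have : ∫⁻ t in Ici (1:ℝ), μ {a | t < (SS T (fun _ => ex c p) a).toReal} =
        ∫⁻ t in Ici (1:ℝ), 0 := by
      refine setLIntegral_congr_fun measurableSet_Ici fun t ht => ?_
      have hset : {a | t < (SS T (fun _ => ex c p) a).toReal} = ∅ := by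
        rw [Set.eq_empty_iff_forall_notMem]
        intro a ha
        have ha' : t < (SS T (fun _ => ex c p) a).toReal := ha
        have h2 : (SS T (fun _ => ex c p) a).toReal ≤ 1 :=
          ENNReal.toReal_le_of_le_ofReal zero_le_one (by simpa using hG_SS_le T c p hc a)
        have ht1 : (1:ℝ) ≤ t := ht
        linarith
      show μ {a | t < (SS T (fun _ => ex c p) a).toReal} = 0
      rw [hset, measure_empty]
    rw [this]; simp
  rw [h0, add_zero]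
  have h2 : ∫⁻ t in Ioo (0:ℝ) 1, μ {a | t < (SS T (fun _ => ex c p) a).toReal} =
      ∫⁻ t in Ioo (0:ℝ) 1, ENNReal.ofReal ((-Real.log t / c) ^ ((Module.finrank ℝ E : ℕ) / p)) *
        μ (T '' {x | ∑ i, |x i| ^ p ≤ 1}) := by
    refine setLIntegral_congr_fun measurableSet_Ioo fun t ht => ?_
    show μ {a | t < (SS T (fun _ => ex c p) a).toReal} = _
    rw [hG_level T c p hc t ht.1.le]
    have hs : 0 < -Real.log t / c := div_pos (neg_pos.2 (Real.log_neg ht.1 ht.2)) hc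
    have hset : {x : Fin n → ℝ | t < Real.exp (-(c * ∑ i, |x i| ^ p))} =
        {x : Fin n → ℝ | ∑ i, |x i| ^ p < -Real.log t / c} := by
      ext x; exact hG_lt_iff c p hc t ht.1 x
    rw [hset, hG_set p hp _ hs, image_smul_comm T _ _ (fun b => map_smul T _ b),
      Measure.addHaar_smul, hM]
    congr 2
    rw [abs_of_nonneg (by positivity), ← Real.rpow_natCast, ← Real.rpow_mul hs.le]
    congr 1
    ring
  rw [h2, lintegral_mul_const' _ _ hMfin]
  rfl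

end Pool.Agent.Helper934.Pr
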