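import Mathlib
import Pool.Agent.Helper934.PrA
import Pool.Agent.Helper934.PrB
import Pool.Agent.Helper934.PrF
import Pool.Agent.Helper934.PrG

open MeasureTheory Set
open scoped ENNReal

namespace Pool.Agent.Helper934.Pr

theorem SS_id {k : ℕ} (f : ℝ → ℝ) (y : Fin k → ℝ) :
    SS (LinearMap.id : (Fin k → ℝ) →ₗ[ℝ] (Fin k → ℝ)) (fun _ => f) y =
      ∏ i, ENNReal.ofReal (f (y i)) := by
  unfold SS
  apply le_antisymm
  · refine iSup₂_le ?_
    rintro x hx
    rw [LinearMap.id_apply] at hx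
    rw [hx]
  · exact le_iSup₂_of_le y rfl le_rfl

theorem prod_one {k : ℕ} (f : ℝ → ℝ) (hf : Prof f) (h1 : ∫⁻ r : ℝ, ENNReal.ofReal (f r) = 1) :
    ∫⁻ y : Fin k → ℝ, ∏ i, ENNReal.ofReal (f (y i)) = 1 := by
  have hint : Integrable f := by
    refine ⟨hf.cont.aestronglyMeasurable, ?_⟩
    rw [hasFiniteIntegral_iff_ofReal (Filter.Eventually.of_forall fun r => (hf.pos r).le), h1]
    exact ENNReal.one_lt_top
  have hI : ∫ r, f r = 1 := by
    have h2 := ofReal_integral_eq_lintegral_ofReal hint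
      (Filter.Eventually.of_forall fun r => (hf.pos r).le)
    rw [h1] at h2
    have h3 : (ENNReal.ofReal (∫ r, f r)).toReal = 1 := by rw [h2]; simp
    rwa [ENNReal.toReal_ofReal (integral_nonneg fun r => (hf.pos r).le)] at h3
  have hprod : Integrable (fun y : Fin k → ℝ => ∏ i, f (y i)) :=
    Integrable.fintype_prod (fun _ => hint)
  have h4 : ∫ y : Fin k → ℝ, ∏ i, f (y i) = 1 := by
    rw [integral_fintype_prod_volume_eq_prod (fun _ => f)]
    simp [hI]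
  have h5 := ofReal_integral_eq_lintegral_ofReal hprod
    (Filter.Eventually.of_forall fun y => Finset.prod_nonneg fun i _ => (hf.pos _).le)
  rw [h4, ENNReal.ofReal_one] at h5
  rw [h5]
  apply lintegral_congr
  intro y
  rw [ENNReal.ofReal_prod_of_nonneg (fun i _ => (hf.pos _).le)]

/-- the normalisation identity -/
theorem norm_id (k : ℕ) (c p : ℝ) (hc : 0 < c) (hp : 1 ≤ p)
    (h1 : ∫⁻ r : ℝ, ENNReal.ofReal (ex c p r) = 1) :
    CC c p k * volume {x : Fin k → ℝ | ∑ i, |x i| ^ p ≤ 1} = 1 := by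
  have h2 := scaling (volume : Measure (Fin k → ℝ)) LinearMap.id c p hc hp
  rw [Module.finrank_fin_fun] at h2
  have h3 : (LinearMap.id : (Fin k → ℝ) →ₗ[ℝ] (Fin k → ℝ)) '' {x : Fin k → ℝ | ∑ i, |x i| ^ p ≤ 1} =
      {x : Fin k → ℝ | ∑ i, |x i| ^ p ≤ 1} := by
    simp
  rw [h3] at h2
  rw [← h2, ← prod_one (k := k) (ex c p) (ex_prof c p hc hp) h1]
  apply lintegral_congr
  intro y
  rw [SS_id]

/-- main comparison -/
theorem main_ineq {E : Type*} [NormedAddCommGroup E] [NormedSpace ℝ E] [FiniteDimensional ℝ E]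
    [MeasurableSpace E] [BorelSpace E] (μ : Measure E) [μ.IsAddHaarMeasure] {n : ℕ}
    (T : (Fin n → ℝ) →ₗ[ℝ] E) (p q : ℝ) (hp : 1 ≤ p) (hpq : p ≤ q) :
    μ (T '' {x | ∑ i, |x i| ^ p ≤ 1}) /
        volume {x : Fin (Module.finrank ℝ E) → ℝ | ∑ i, |x i| ^ p ≤ 1} ≤
      μ (T '' {x | ∑ i, |x i| ^ q ≤ 1}) /
        volume {x : Fin (Module.finrank ℝ E) → ℝ | ∑ i, |x i| ^ q ≤ 1} := by
  rcases eq_or_lt_of_le hpq with rfl | hlt
  · exact le_rfl
  obtain ⟨c, hc, hcI, hcL⟩ := ex_norm p hp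
  obtain ⟨c', hc', hcI', hcL'⟩ := ex_norm q (hp.trans hpq)
  have hd : Dom (ex c p) (ex c' q) := ex_dom c p c' q hc hc' hp hlt (by rw [hcI, hcI'])
  have hch := chain μ T (ex c p) (ex c' q) (ex_prof c p hc hp) (ex_prof c' q hc' (hp.trans hpq)) hd
  rw [scaling μ T c p hc hp, scaling μ T c' q hc' (hp.trans hpq)] at hch
  have n1 := norm_id (Module.finrank ℝ E) c p hc hp hcL
  have n2 := norm_id (Module.finrank ℝ E) c' q hc' (hp.trans hpq) hcL'
  have e1 : CC c p (Module.finrank ℝ E) =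
      (volume {x : Fin (Module.finrank ℝ E) → ℝ | ∑ i, |x i| ^ p ≤ 1})⁻¹ :=
    ENNReal.eq_inv_of_mul_eq_one_left n1
  have e2 : CC c' q (Module.finrank ℝ E) =
      (volume {x : Fin (Module.finrank ℝ E) → ℝ | ∑ i, |x i| ^ q ≤ 1})⁻¹ :=
    ENNReal.eq_inv_of_mul_eq_one_left n2
  rw [e1, e2] at hch
  rw [ENNReal.div_eq_inv_mul, ENNReal.div_eq_inv_mul]
  exact hch

end Pool.Agent.Helper934.Pr
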