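import Pool.Agent.Helper934.UB1

open Finset
open Pool.Agent.Results.MP_3a3582_co.BoundedRank

namespace Pool.Agent.Results.MP_3a3582_co.ThreeTwo

section characters
variable {ι : Type} [Fintype ι] [DecidableEq ι] {F : Type} [Field F]

/-- Characters of `ι → ZMod 3`. -/
def ch (ψ : AddChar (ZMod 3) F) (y : ι → ZMod 3) : (ι → ZMod 3) → F := fun c => ψ (∑ a, y a * c a)

lemma ch_add_left (ψ : AddChar (ZMod 3) F) (y z : ι → ZMod 3) :
    ch ψ (y + z) = ch ψ y * ch ψ z := by
  funext c
  rw [Pi.mul_apply]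
  unfold ch
  rw [← AddChar.map_add_eq_mul, ← Finset.sum_add_distrib]
  congr 1
  exact Finset.sum_congr rfl fun a _ => by rw [Pi.add_apply, add_mul]

lemma ch_add_right (ψ : AddChar (ZMod 3) F) (y c d : ι → ZMod 3) :
    ch ψ y (c + d) = ch ψ y c * ch ψ y d := by
  unfold ch
  rw [← AddChar.map_add_eq_mul, ← Finset.sum_add_distrib]
  congr 1
  exact Finset.sum_congr rfl fun a _ => by rw [Pi.add_apply, mul_add]

lemma ch_single (ψ : AddChar (ZMod 3) F) (a : ι) (t : ZMod 3) (c : ι → ZMod 3) :
    ch ψ (Pi.single a t) c = ψ (t * c a) := by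
  unfold ch
  congr 1
  rw [Finset.sum_eq_single a]
  · rw [Pi.single_eq_same]
  · intro b _ hb
    rw [Pi.single_eq_of_ne hb, zero_mul]
  · intro h
    exact absurd (Finset.mem_univ _) h

/-- Number of nonzero coordinates. -/
def wt (y : ι → ZMod 3) : ℕ := (Finset.univ.filter fun a => y a ≠ 0).card

lemma wt_add (y z : ι → ZMod 3) : wt (y + z) ≤ wt y + wt z := by
  unfold wt
  refine (Finset.card_le_card ?_).trans (Finset.card_union_le _ _)
  intro a ha
  rw [Finset.mem_union, Finset.mem_filter, Finset.mem_filter]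
  by_contra hcon
  push Not at hcon
  have h1 : y a = 0 := by
    by_contra h
    exact absurd h (not_not.mpr (hcon.1 (Finset.mem_univ _)))
  have h2 : z a = 0 := by
    by_contra h
    exact absurd h (not_not.mpr (hcon.2 (Finset.mem_univ _)))
  exact (Finset.mem_filter.mp ha).2 (by rw [Pi.add_apply, h1, h2, add_zero])

lemma wt_zero : wt (0 : ι → ZMod 3) = 0 := by
  unfold wt
  rw [Finset.card_eq_zero, Finset.filter_eq_empty_iff]
  intro a _
  simp

lemma wt_single (a : ι) (t : ZMod 3) : wt (Pi.single a t : ι → ZMod 3) ≤ 1 := by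
  unfold wt
  rw [← Finset.card_singleton a]
  refine Finset.card_le_card fun b hb => ?_
  rw [Finset.mem_singleton]
  by_contra h
  exact (Finset.mem_filter.mp hb).2 (Pi.single_eq_of_ne h _)

/-- The span of the characters of weight at most `s`. -/
def W (ψ : AddChar (ZMod 3) F) (s : ℕ) : Submodule F ((ι → ZMod 3) → F) :=
  Submodule.span F (Set.range fun y : {y : ι → ZMod 3 // wt y ≤ s} => ch ψ y.1)

lemma ch_mem (ψ : AddChar (ZMod 3) F) {s : ℕ} {y : ι → ZMod 3} (hy : wt y ≤ s) : ch ψ y ∈ W ψ s :=
  Submodule.subset_span ⟨⟨y, hy⟩, rfl⟩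

lemma mul_mem_W (ψ : AddChar (ZMod 3) F) {s t : ℕ} {f g : (ι → ZMod 3) → F} (hf : f ∈ W ψ s)
    (hg : g ∈ W ψ t) : f * g ∈ W ψ (s + t) := by
  unfold W at hf
  induction hf using Submodule.span_induction with
  | mem f hf =>
    obtain ⟨⟨y, hy⟩, rfl⟩ := hf
    unfold W at hg
    induction hg using Submodule.span_induction with
    | mem g hg =>
      obtain ⟨⟨z, hz⟩, rfl⟩ := hg
      simp only
      rw [← ch_add_left]
      exact ch_mem ψ ((wt_add y z).trans (Nat.add_le_add hy hz))
    | zero =>
      rw [mul_zero]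
      exact Submodule.zero_mem _
    | add x x' _ _ h1 h2 =>
      rw [mul_add]
      exact Submodule.add_mem _ h1 h2
    | smul r x _ h =>
      rw [mul_smul_comm]
      exact Submodule.smul_mem _ _ h
  | zero =>
    rw [zero_mul]
    exact Submodule.zero_mem _
  | add x x' _ _ h1 h2 =>
    rw [add_mul]
    exact Submodule.add_mem _ h1 h2
  | smul r x _ h =>
    rw [smul_mul_assoc]
    exact Submodule.smul_mem _ _ h

lemma one_mem_W (ψ : AddChar (ZMod 3) F) (s : ℕ) : (1 : (ι → ZMod 3) → F) ∈ W ψ s := by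
  have h : ch ψ (0 : ι → ZMod 3) = 1 := by
    funext c
    unfold ch
    simp
  rw [← h]
  exact ch_mem ψ (by rw [wt_zero]; exact Nat.zero_le _)

lemma pow_mem_W (ψ : AddChar (ZMod 3) F) (n : ℕ) {f : (ι → ZMod 3) → F} (hf : f ∈ W ψ 1) :
    f ^ n ∈ W ψ n := by
  induction n with
  | zero =>
    rw [pow_zero]
    exact one_mem_W ψ 0
  | succ n ih =>
    rw [pow_succ]
    exact mul_mem_W ψ ih hf

lemma prod_mem_W (ψ : AddChar (ZMod 3) F) (m s : ℕ) (f : Fin s → (ι → ZMod 3) → F)
    (hf : ∀ i, f i ∈ W ψ m) : ∏ i, f i ∈ W ψ (s * m) := by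
  induction s with
  | zero =>
    rw [Finset.univ_eq_empty, Finset.prod_empty]
    exact one_mem_W ψ _
  | succ s ih =>
    rw [Fin.prod_univ_castSucc, Nat.succ_mul]
    exact mul_mem_W ψ (ih _ fun i => hf _) (hf _)

lemma coord_mem_W (ψ : AddChar (ZMod 3) F) (h3 : (3 : F) ≠ 0) (hψ : 1 + ψ 1 + ψ 2 = 0) (a : ι)
    (g : ZMod 3 → F) : (fun c : ι → ZMod 3 => g (c a)) ∈ W ψ 1 := by
  have e12 : ψ 1 * ψ 2 = 1 := by
    rw [← AddChar.map_add_eq_mul, show (1 : ZMod 3) + 2 = 0 by decide, AddChar.map_zero_eq_one]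
  have e11 : ψ 1 * ψ 1 = ψ 2 := by
    rw [← AddChar.map_add_eq_mul]
    rfl
  have e22 : ψ 2 * ψ 2 = ψ 1 := by
    rw [← AddChar.map_add_eq_mul]
    rfl
  have key : (fun c : ι → ZMod 3 => g (c a)) =
      ((g 0 + g 1 + g 2) / 3) • (1 : (ι → ZMod 3) → F) +
      ((g 0 + g 1 * ψ 2 + g 2 * ψ 1) / 3) • ch ψ (Pi.single a 1) +
      ((g 0 + g 1 * ψ 1 + g 2 * ψ 2) / 3) • ch ψ (Pi.single a 2) := by
    funext c
    simp only [Pi.add_apply, Pi.smul_apply, Pi.one_apply, ch_single, smul_eq_mul]
    have ht : c a = 0 ∨ c a = 1 ∨ c a = 2 := by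
      have : ∀ t : ZMod 3, t = 0 ∨ t = 1 ∨ t = 2 := by decide
      exact this _
    rcases ht with h | h | h
    · rw [h, mul_zero, mul_zero, AddChar.map_zero_eq_one]
      field_simp
      linear_combination (-(g 1 + g 2)) * hψ
    · rw [h, mul_one, mul_one]
      field_simp
      linear_combination (-(g 0 + g 2)) * hψ - 2 * g 1 * e12 - g 2 * e11 - g 2 * e22
    · rw [h, show (1 : ZMod 3) * 2 = 2 by decide, show (2 : ZMod 3) * 2 = 1 by decide]
      field_simp
      linear_combination (-(g 0 + g 1)) * hψ - 2 * g 2 * e12 - g 1 * e11 - g 1 * e22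
  rw [key]
  refine Submodule.add_mem _ (Submodule.add_mem _ ?_ ?_) ?_
  · exact Submodule.smul_mem _ _ (one_mem_W ψ 1)
  · exact Submodule.smul_mem _ _ (ch_mem ψ (wt_single a 1))
  · exact Submodule.smul_mem _ _ (ch_mem ψ (wt_single a 2))

/-- If a combination of characters of weight at most `s` is the indicator of `0` on the subgroup
`C`, then `C` has at most as many elements as the Hamming ball of radius `s`. -/
lemma card_le_ball (ψ : AddChar (ZMod 3) F) (s : ℕ) (C : AddSubgroup (ι → ZMod 3))
    (P : (ι → ZMod 3) → F) (hP : P ∈ W ψ s) (h0 : P 0 = 1) (hC : ∀ c ∈ C, c ≠ 0 → P c = 0) :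
    Nat.card C ≤ Nat.card {y : ι → ZMod 3 // wt y ≤ s} := by
  classical
  have : Fintype C := Fintype.ofFinite _
  set U : Submodule F (C → F) :=
    Submodule.span F (Set.range fun (y : {y : ι → ZMod 3 // wt y ≤ s}) (c : C) => ch ψ y.1 c.1)
    with hU
  have hmem : ∀ c₀ : C, (Pi.single c₀ (1 : F) : C → F) ∈ U := by
    intro c₀
    obtain ⟨q, hq⟩ := (Submodule.mem_span_range_iff_exists_fun F).mp hP
    have : (Pi.single c₀ (1 : F) : C → F) = ∑ y : {y : ι → ZMod 3 // wt y ≤ s},
        (q y * ch ψ y.1 (-c₀.1)) • (fun c : C => ch ψ y.1 c.1) := by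
      funext c
      rw [Finset.sum_apply]
      have e1 : ∀ y : {y : ι → ZMod 3 // wt y ≤ s},
          ((q y * ch ψ y.1 (-c₀.1)) • (fun c : C => ch ψ y.1 c.1)) c =
          q y • ch ψ y.1 (c.1 + -c₀.1) := by
        intro y
        rw [Pi.smul_apply, ch_add_right, smul_eq_mul, smul_eq_mul]
        ring
      rw [Finset.sum_congr rfl fun y _ => e1 y]
      have e2 : ∑ y : {y : ι → ZMod 3 // wt y ≤ s}, q y • ch ψ y.1 (c.1 + -c₀.1) =
          P (c.1 + -c₀.1) := by
        rw [← hq, Finset.sum_apply]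
        rfl
      rw [e2]
      by_cases hcc : c = c₀
      · rw [hcc, Pi.single_eq_same, add_neg_cancel, h0]
      · rw [Pi.single_eq_of_ne hcc, hC]
        · exact C.add_mem c.2 (C.neg_mem c₀.2)
        · intro h
          apply hcc
          apply Subtype.ext
          rwa [← sub_eq_add_neg, sub_eq_zero] at h
    rw [this]
    exact Submodule.sum_mem _ fun y _ => Submodule.smul_mem _ _ (Submodule.subset_span ⟨y, rfl⟩)
  have htop : U = ⊤ := by
    rw [eq_top_iff]
    intro f _
    have : f = ∑ c : C, f c • (Pi.single c (1 : F) : C → F) := by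
      funext c
      rw [Finset.sum_apply, Finset.sum_eq_single c]
      · rw [Pi.smul_apply, Pi.single_eq_same, smul_eq_mul, mul_one]
      · intro b _ hb
        rw [Pi.smul_apply, Pi.single_eq_of_ne (Ne.symm hb), smul_zero]
      · intro h
        exact absurd (Finset.mem_univ _) h
    rw [this]
    exact Submodule.sum_mem _ fun c _ => Submodule.smul_mem _ _ (hmem c)
  have h1 : Module.finrank F U ≤ Fintype.card {y : ι → ZMod 3 // wt y ≤ s} :=
    finrank_range_le_card _
  rw [htop, finrank_top, Module.finrank_pi] at h1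
  rw [Nat.card_eq_fintype_card, Nat.card_eq_fintype_card]
  exact h1

/-- The size of the Hamming ball. -/
lemma ball_card (s : ℕ) : Nat.card {y : ι → ZMod 3 // wt y ≤ s} =
    ∑ j ∈ Finset.range (s + 1), (Fintype.card ι).choose j * 2 ^ j := by
  classical
  rw [Nat.card_eq_fintype_card, Fintype.card_subtype]
  have h1 : (Finset.univ.filter fun y : ι → ZMod 3 => wt y ≤ s).card =
      ∑ j ∈ Finset.range (s + 1), (Finset.univ.filter fun y : ι → ZMod 3 => wt y = j).card := by
    rw [Finset.card_eq_sum_card_fiberwise (f := wt) (t := Finset.range (s + 1))]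
    · refine Finset.sum_congr rfl fun j hj => ?_
      congr 1
      rw [Finset.filter_filter]
      refine Finset.filter_congr fun y _ => ?_
      rw [Finset.mem_range] at hj
      constructor
      · exact fun h => h.2
      · exact fun h => ⟨by omega, h⟩
    · intro y hy
      rw [Finset.mem_coe, Finset.mem_filter] at hy
      rw [Finset.mem_coe, Finset.mem_range]
      omega
  rw [h1]
  refine Finset.sum_congr rfl fun j _ => ?_
  have h2 : (Finset.univ.filter fun y : ι → ZMod 3 => wt y = j).card =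
      ∑ J ∈ Finset.univ.powersetCard j, (Finset.univ.filter fun y : ι → ZMod 3 =>
        (Finset.univ.filter fun a => y a ≠ 0) = J).card := by
    rw [Finset.card_eq_sum_card_fiberwise
      (f := fun y : ι → ZMod 3 => Finset.univ.filter fun a => y a ≠ 0)
      (t := Finset.univ.powersetCard j)]
    · refine Finset.sum_congr rfl fun J hJ => ?_
      congr 1
      rw [Finset.filter_filter]
      refine Finset.filter_congr fun y _ => ?_
      constructor
      · exact fun h => h.2
      · intro h
        refine ⟨?_, h⟩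
        unfold wt
        rw [h]
        exact (Finset.mem_powersetCard.mp hJ).2
    · intro y hy
      rw [Finset.mem_coe, Finset.mem_filter] at hy
      rw [Finset.mem_coe, Finset.mem_powersetCard]
      exact ⟨Finset.subset_univ _, hy.2⟩
  rw [h2]
  have h3 : ∀ J ∈ Finset.univ.powersetCard j, (Finset.univ.filter fun y : ι → ZMod 3 =>
        (Finset.univ.filter fun a => y a ≠ 0) = J).card = 2 ^ j := by
    intro J hJ
    have hJc := (Finset.mem_powersetCard.mp hJ).2
    have : (Finset.univ.filter fun y : ι → ZMod 3 => (Finset.univ.filter fun a => y a ≠ 0) = J) =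
        Fintype.piFinset fun a => if a ∈ J then ({1, 2} : Finset (ZMod 3)) else {0} := by
      ext y
      rw [Finset.mem_filter, Fintype.mem_piFinset]
      constructor
      · rintro ⟨-, h⟩ a
        by_cases ha : a ∈ J
        · rw [if_pos ha]
          rw [← h, Finset.mem_filter] at ha
          have h3 : ∀ z : ZMod 3, z ≠ 0 → z ∈ ({1, 2} : Finset (ZMod 3)) := by decide
          exact h3 _ ha.2
        · rw [if_neg ha, Finset.mem_singleton]
          by_contra hne
          exact ha (by rw [← h, Finset.mem_filter]; exact ⟨Finset.mem_univ _, hne⟩)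
      · intro h
        refine ⟨Finset.mem_univ _, ?_⟩
        ext a
        rw [Finset.mem_filter]
        have h3 : ∀ z : ZMod 3, z ∈ ({1, 2} : Finset (ZMod 3)) → z ≠ 0 := by decide
        have h4 := h a
        constructor
        · rintro ⟨-, hne⟩
          by_contra ha
          rw [if_neg ha, Finset.mem_singleton] at h4
          exact hne h4
        · intro ha
          rw [if_pos ha] at h4
          exact ⟨Finset.mem_univ _, h3 _ h4⟩
    rw [this, Fintype.card_piFinset]
    have h5 : ∀ a : ι, (if a ∈ J then ({1, 2} : Finset (ZMod 3)) else {0}).card =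
        if a ∈ J then 2 else 1 := by
      intro a
      split_ifs
      · rfl
      · rfl
    rw [Finset.prod_congr rfl fun a _ => h5 a, Finset.prod_ite, Finset.prod_const_one, mul_one,
      Finset.prod_const, Finset.filter_mem_eq_inter, Finset.univ_inter, hJc]
  rw [Finset.sum_congr rfl h3, Finset.sum_const, Finset.card_powersetCard, Finset.card_univ,
    smul_eq_mul]

end characters

end Pool.Agent.Results.MP_3a3582_co.ThreeTwo
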