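import Pool.Agent.Helper934.TT1

open Finset
open Pool.Agent.Results.MP_3a3582_co.BoundedRank

namespace Pool.Agent.Results.MP_3a3582_co.ThreeTwo

/-- The representative in `{0, 1, -1}`. -/
def sgn (t : ZMod 3) : ℤ := if t = 0 then 0 else if t = 1 then 1 else -1

lemma sgn_cast (t : ZMod 3) : ((sgn t : ℤ) : ZMod 3) = t := by
  revert t
  decide

lemma sgn_ne {t : ZMod 3} (h : t ≠ 0) : sgn t = 1 ∨ sgn t = -1 := by
  unfold sgn
  rw [if_neg h]
  split_ifs
  · left; rfl
  · right; rfl

lemma sgn_zero : sgn 0 = 0 := by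
  unfold sgn
  rw [if_pos rfl]

/-- The signed sums of a dissociated set are nonzero. -/
lemma signed_ne {G : Type} [AddCommGroup G] {A : Finset G} (hA : Dissociated A)
    (c : {x // x ∈ A} → ZMod 3) (h : ∑ a, sgn (c a) • a.1 = 0) : c = 0 := by
  classical
  by_contra hne
  obtain ⟨a₀, ha₀⟩ := Function.ne_iff.mp hne
  apply hA
  set B : Finset G := (Finset.univ.filter fun a : {x // x ∈ A} => c a ≠ 0).map
    (Function.Embedding.subtype _) with hB
  have hmem : ∀ b, b ∈ B ↔ ∃ h : b ∈ A, c ⟨b, h⟩ ≠ 0 := by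
    intro b
    rw [hB, Finset.mem_map]
    constructor
    · rintro ⟨a, ha, rfl⟩
      exact ⟨a.2, (Finset.mem_filter.mp ha).2⟩
    · rintro ⟨h, hc⟩
      exact ⟨⟨b, h⟩, Finset.mem_filter.mpr ⟨Finset.mem_univ _, hc⟩, rfl⟩
  refine ⟨B, fun b hb => ((hmem b).mp hb).1, ⟨a₀.1, (hmem _).mpr ⟨a₀.2, ha₀⟩⟩,
    fun x => if h : x ∈ A then sgn (c ⟨x, h⟩) else 1, ?_, ?_⟩
  · intro b hb
    obtain ⟨h, hc⟩ := (hmem b).mp hb
    show (if h : b ∈ A then sgn (c ⟨b, h⟩) else 1) = 1 ∨
      (if h : b ∈ A then sgn (c ⟨b, h⟩) else 1) = -1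
    rw [dif_pos h]
    exact sgn_ne hc
  · rw [hB, Finset.sum_map]
    have h1 : ∑ a ∈ Finset.univ.filter (fun a : {x // x ∈ A} => c a ≠ 0),
        (if h : (Function.Embedding.subtype (fun x => x ∈ A)) a ∈ A then
          sgn (c ⟨(Function.Embedding.subtype (fun x => x ∈ A)) a, h⟩) else 1) •
          (Function.Embedding.subtype (fun x => x ∈ A)) a =
        ∑ a ∈ Finset.univ.filter (fun a : {x // x ∈ A} => c a ≠ 0), sgn (c a) • a.1 := by
      refine Finset.sum_congr rfl fun a _ => ?_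
      have : (Function.Embedding.subtype (fun x => x ∈ A)) a ∈ A := a.2
      rw [dif_pos this]
      rfl
    rw [h1, ← h]
    rw [Finset.sum_filter]
    refine Finset.sum_congr rfl fun a _ => ?_
    split_ifs with hc
    · rfl
    · push Not at hc
      rw [hc, sgn_zero, zero_smul]

/-- A field of characteristic `p` with a primitive cube root of unity. -/
lemma exists_field (p : ℕ) [Fact p.Prime] (hp3 : p ≠ 3) :
    ∃ (F : Type) (_ : Field F) (_ : Algebra (ZMod p) F) (ψ : AddChar (ZMod 3) F),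
      (3 : F) ≠ 0 ∧ 1 + ψ 1 + ψ 2 = 0 := by
  refine ⟨AlgebraicClosure (ZMod p), inferInstance, inferInstance, ?_⟩
  have h3 : (3 : AlgebraicClosure (ZMod p)) ≠ 0 := by
    have hch : CharP (AlgebraicClosure (ZMod p)) p :=
      charP_of_injective_algebraMap (algebraMap (ZMod p) (AlgebraicClosure (ZMod p))).injective p
    intro h
    have h' : ((3 : ℕ) : AlgebraicClosure (ZMod p)) = 0 := by exact_mod_cast h
    rw [CharP.cast_eq_zero_iff _ p] at h'
    exact hp3 ((Nat.prime_dvd_prime_iff_eq Fact.out Nat.prime_three).mp h')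
  obtain ⟨ω, hω⟩ := IsAlgClosed.exists_root
    (Polynomial.X ^ 2 + Polynomial.X + 1 : Polynomial (AlgebraicClosure (ZMod p)))
    (by
      have : (Polynomial.X ^ 2 + Polynomial.X + 1 :
          Polynomial (AlgebraicClosure (ZMod p))).degree = 2 := by
        compute_degree!
      rw [this]
      norm_num)
  have hω' : ω ^ 2 + ω + 1 = 0 := by
    simpa [Polynomial.IsRoot.def] using hω
  have hω3 : ω ^ 3 = 1 := by linear_combination (ω - 1) * hω'
  refine ⟨AddChar.zmodChar 3 hω3, h3, ?_⟩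
  rw [AddChar.zmodChar_apply, AddChar.zmodChar_apply]
  have e1 : (1 : ZMod 3).val = 1 := rfl
  have e2 : (2 : ZMod 3).val = 2 := rfl
  rw [e1, e2]
  linear_combination hω'

theorem upper (p : ℕ) [Fact p.Prime] (hp3 : p ≠ 3) (r s : ℕ)
    {A : Finset ((Fin r → ZMod 3) × (Fin s → ZMod p))} (hA : Dissociated A) :
    3 ^ (A.card - r) ≤ ∑ j ∈ Finset.range (s * (p - 1) + 1), A.card.choose j * 2 ^ j := by
  classical
  obtain ⟨F, _, _, ψ, h3, hψ⟩ := exists_field p hp3
  set ι := {x // x ∈ A} with hι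
  have hcard : Fintype.card ι = A.card := Fintype.card_coe A
  -- relations
  set T : (ι → ZMod 3) →+ (Fin r → ZMod 3) :=
    { toFun := fun c i => ∑ a, c a * a.1.1 i
      map_zero' := by
        funext i
        simp
      map_add' := fun c d => by
        funext i
        rw [Pi.add_apply, ← Finset.sum_add_distrib]
        exact Finset.sum_congr rfl fun a _ => by rw [Pi.add_apply, add_mul] } with hT
  -- the components of the signed sums
  set κ : Fin s → (ι → ZMod 3) → F := fun i c =>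
    ∑ a, algebraMap (ZMod p) F (sgn (c a) • a.1.2 i) with hκ
  have hκmem : ∀ i, κ i ∈ W ψ 1 := by
    intro i
    have : κ i = ∑ a : ι, fun c : ι → ZMod 3 => algebraMap (ZMod p) F (sgn (c a) • a.1.2 i) := by
      funext c
      rw [Finset.sum_apply]
    rw [this]
    exact Submodule.sum_mem _ fun a _ =>
      coord_mem_W ψ h3 hψ a fun t => algebraMap (ZMod p) F (sgn t • a.1.2 i)
  set P : (ι → ZMod 3) → F := ∏ i, (1 - κ i ^ (p - 1)) with hP
  have hPmem : P ∈ W ψ (s * (p - 1)) := by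
    refine prod_mem_W ψ (p - 1) s _ fun i => ?_
    exact Submodule.sub_mem _ (one_mem_W ψ _) (pow_mem_W ψ (p - 1) (hκmem i))
  have hp1 : p - 1 ≠ 0 := by
    have := (Fact.out (p := p.Prime)).two_le
    omega
  have hP0 : P 0 = 1 := by
    rw [hP, Finset.prod_apply]
    refine Finset.prod_eq_one fun i _ => ?_
    rw [Pi.sub_apply, Pi.one_apply, Pi.pow_apply]
    have : κ i 0 = 0 := by
      rw [hκ]
      simp only
      refine Finset.sum_eq_zero fun a _ => ?_
      rw [Pi.zero_apply, sgn_zero, zero_smul, map_zero]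
    rw [this, zero_pow hp1, sub_zero]
  have hPC : ∀ c ∈ T.ker, c ≠ 0 → P c = 0 := by
    intro c hc hne
    have h1 : ∑ a : ι, sgn (c a) • a.1 ≠ 0 := fun h => hne (signed_ne hA c h)
    have h2 : (∑ a : ι, sgn (c a) • a.1).1 = 0 := by
      rw [Prod.fst_sum]
      funext i
      rw [Finset.sum_apply]
      have h3 : T c i = 0 := by
        have : T c = 0 := hc
        rw [this]
        rfl
      rw [Pi.zero_apply, ← h3]
      refine Finset.sum_congr rfl fun a _ => ?_
      rw [Prod.smul_fst, Pi.smul_apply, zsmul_eq_mul, sgn_cast]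
    have h4 : (∑ a : ι, sgn (c a) • a.1).2 ≠ 0 := by
      intro h
      exact h1 (Prod.ext h2 h)
    obtain ⟨i, hi⟩ := Function.ne_iff.mp h4
    rw [hP, Finset.prod_apply]
    refine Finset.prod_eq_zero (Finset.mem_univ i) ?_
    rw [Pi.sub_apply, Pi.one_apply, Pi.pow_apply]
    have h5 : κ i c = algebraMap (ZMod p) F ((∑ a : ι, sgn (c a) • a.1).2 i) := by
      rw [hκ]
      simp only
      rw [← map_sum, Prod.snd_sum, Finset.sum_apply]
      rfl
    rw [h5, ← map_pow, ZMod.pow_card_sub_one_eq_one hi, map_one, sub_self]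
  have hball := card_le_ball ψ (s * (p - 1)) T.ker P hPmem hP0 hPC
  rw [ball_card, hcard] at hball
  refine le_trans ?_ hball
  -- the size of the kernel
  have hV : Nat.card (ι → ZMod 3) = 3 ^ A.card := by
    rw [Nat.card_eq_fintype_card, Fintype.card_fun, ZMod.card, hcard]
  have hker : Nat.card (ι → ZMod 3) = Nat.card ((ι → ZMod 3) ⧸ T.ker) * Nat.card T.ker :=
    AddSubgroup.card_eq_card_quotient_mul_card_addSubgroup _
  have hrange : Nat.card ((ι → ZMod 3) ⧸ T.ker) ≤ 3 ^ r := by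
    have h6 : Nat.card ((ι → ZMod 3) ⧸ T.ker) ≤ Nat.card (Fin r → ZMod 3) :=
      Nat.card_le_card_of_injective _ (QuotientAddGroup.kerLift_injective T)
    rwa [Nat.card_eq_fintype_card (α := Fin r → ZMod 3), Fintype.card_fun, ZMod.card,
      Fintype.card_fin] at h6
  rw [hV] at hker
  rcases le_or_gt r A.card with hr | hr
  · have h7 : 3 ^ (A.card - r) * 3 ^ r ≤ Nat.card T.ker * 3 ^ r := by
      rw [← pow_add, Nat.sub_add_cancel hr, hker, mul_comm]
      exact Nat.mul_le_mul_left _ hrange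
    exact Nat.le_of_mul_le_mul_right h7 (by positivity)
  · rw [Nat.sub_eq_zero_of_le hr.le, pow_zero]
    exact Nat.card_pos

end Pool.Agent.Results.MP_3a3582_co.ThreeTwo
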