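import Pool.Agent.Helper934.TT2

open Finset
open Pool.Agent.Results.MP_3a3582_co.BoundedRank

namespace Pool.Agent.Results.MP_3a3582_co.ThreeTwo

lemma neg_ne {d : ℕ} {v : Fin d → ZMod 3} (hv : v ≠ 0) : -v ≠ v := by
  obtain ⟨i, hi⟩ := Function.ne_iff.mp hv
  intro h
  have h1 := congrFun h i
  have h2 : ∀ z : ZMod 3, z ≠ 0 → -z ≠ z := by decide
  exact h2 _ hi h1

/-- Representatives of the nonzero vectors up to sign. -/
noncomputable def reps (d : ℕ) : Finset (Fin d → ZMod 3) :=
  Finset.univ.filter fun v => Fintype.equivFin (Fin d → ZMod 3) v <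
    Fintype.equivFin (Fin d → ZMod 3) (-v)

lemma two_mul_reps {d : ℕ} (S : Finset (Fin d → ZMod 3)) (h0 : (0 : Fin d → ZMod 3) ∉ S)
    (hS : ∀ v ∈ S, -v ∈ S) : 2 * ((reps d).filter (· ∈ S)).card = S.card := by
  classical
  have h1 : S = (reps d).filter (· ∈ S) ∪ ((reps d).filter (· ∈ S)).image (fun v => -v) := by
    ext v
    rw [Finset.mem_union, Finset.mem_image, Finset.mem_filter, reps, Finset.mem_filter]
    constructor
    · intro hv
      have hne : v ≠ 0 := fun h => h0 (h ▸ hv)
      have hne' : Fintype.equivFin (Fin d → ZMod 3) (-v) ≠ Fintype.equivFin (Fin d → ZMod 3) v :=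
        fun h => neg_ne hne ((Fintype.equivFin _).injective h)
      rcases lt_or_gt_of_ne hne' with h | h
      · right
        refine ⟨-v, ?_, neg_neg v⟩
        rw [Finset.mem_filter, Finset.mem_filter]
        exact ⟨⟨Finset.mem_univ _, by rw [neg_neg]; exact h⟩, hS v hv⟩
      · left
        exact ⟨⟨Finset.mem_univ _, h⟩, hv⟩
    · rintro (⟨-, hv⟩ | ⟨w, hw, rfl⟩)
      · exact hv
      · exact hS w (Finset.mem_filter.mp hw).2
  have hdisj : Disjoint ((reps d).filter (· ∈ S))
      (((reps d).filter (· ∈ S)).image (fun v => -v)) := by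
    rw [Finset.disjoint_left]
    intro v hv hv'
    obtain ⟨w, hw, rfl⟩ := Finset.mem_image.mp hv'
    have a1 := (Finset.mem_filter.mp (Finset.mem_filter.mp hv).1).2
    have a2 := (Finset.mem_filter.mp (Finset.mem_filter.mp hw).1).2
    rw [neg_neg] at a1
    exact absurd (a1.trans a2) (lt_irrefl _)
  have h2 : (((reps d).filter (· ∈ S)).image (fun v => -v)).card =
      ((reps d).filter (· ∈ S)).card :=
    Finset.card_image_of_injective _ neg_injective
  conv_rhs => rw [h1]
  rw [Finset.card_union_of_disjoint hdisj, h2, two_mul]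

lemma reps_card (d : ℕ) : 2 * (reps d).card + 1 = 3 ^ d := by
  classical
  have h := two_mul_reps (Finset.univ.erase (0 : Fin d → ZMod 3)) (Finset.notMem_erase _ _)
    (fun v hv => Finset.mem_erase.mpr ⟨fun h => (Finset.mem_erase.mp hv).1 (neg_eq_zero.mp h),
      Finset.mem_univ _⟩)
  have h1 : (reps d).filter (· ∈ Finset.univ.erase (0 : Fin d → ZMod 3)) = reps d := by
    rw [Finset.filter_true_of_mem]
    intro v hv
    refine Finset.mem_erase.mpr ⟨?_, Finset.mem_univ _⟩
    rintro rfl
    have := (Finset.mem_filter.mp hv).2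
    rw [neg_zero] at this
    exact lt_irrefl _ this
  rw [h1, Finset.card_erase_of_mem (Finset.mem_univ _), Finset.card_univ, Fintype.card_fun,
    ZMod.card, Fintype.card_fin] at h
  have : 0 < 3 ^ d := by positivity
  omega

/-- Every nonzero functional is nonzero at an odd number of the representatives. -/
lemma reps_odd {d : ℕ} {x : Fin d → ZMod 3} (hx : x ≠ 0) :
    Odd ((reps d).filter fun v => ∑ l, v l * x l ≠ 0).card := by
  classical
  have : Fact (Nat.Prime 3) := ⟨Nat.prime_three⟩
  cases d with
  | zero => exact absurd (Subsingleton.elim _ _) hx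
  | succ d =>
    set S : Finset (Fin (d + 1) → ZMod 3) := Finset.univ.filter fun v => ∑ l, v l * x l ≠ 0 with hS
    have h := two_mul_reps S (by rw [hS, Finset.mem_filter]; simp)
      (fun v hv => by
        rw [hS, Finset.mem_filter] at hv ⊢
        refine ⟨Finset.mem_univ _, ?_⟩
        have : ∑ l, (-v) l * x l = -∑ l, v l * x l := by
          rw [← Finset.sum_neg_distrib]
          exact Finset.sum_congr rfl fun l _ => by rw [Pi.neg_apply, neg_mul]
        rw [this]
        exact neg_ne_zero.mpr hv.2)
    have h1 : (reps (d + 1)).filter (· ∈ S) =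
        (reps (d + 1)).filter fun v => ∑ l, v l * x l ≠ 0 := by
      refine Finset.filter_congr fun v _ => ?_
      rw [hS, Finset.mem_filter]
      exact ⟨fun h => h.2, fun h => ⟨Finset.mem_univ _, h⟩⟩
    rw [h1] at h
    -- size of the kernel
    have h2 := Thin.fiber_card (Thin.dot x) (Thin.dot_surj hx) 0
    rw [Fintype.card_fun, ZMod.card, Fintype.card_fin, pow_succ'] at h2
    have h3 := Nat.eq_of_mul_eq_mul_left (by norm_num) h2
    have h4 : (Finset.univ.filter fun g : Fin (d + 1) → ZMod 3 => Thin.dot x g = 0) =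
        Finset.univ.filter fun v : Fin (d + 1) → ZMod 3 => ¬ (∑ l, v l * x l ≠ 0) := by
      refine Finset.filter_congr fun v _ => ?_
      have : Thin.dot x v = ∑ l, v l * x l := by
        show ∑ l, x l * v l = ∑ l, v l * x l
        exact Finset.sum_congr rfl fun l _ => mul_comm _ _
      rw [this, not_not]
    have h5 := Finset.card_filter_add_card_filter_not (s := (Finset.univ : Finset (Fin (d + 1) → ZMod 3)))
      (fun v => ∑ l, v l * x l ≠ 0)
    rw [← h4, h3, ← hS, Finset.card_univ, Fintype.card_fun, ZMod.card, Fintype.card_fin] at h5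
    have h6 : ((reps (d + 1)).filter fun v => ∑ l, v l * x l ≠ 0).card = 3 ^ d := by
      rw [pow_succ] at h5
      omega
    rw [h6]
    exact Odd.pow (by decide)

theorem lower32 (r d : ℕ) (h : 3 ^ d ≤ 2 * (r + d) + 1) :
    r + d ≤ tau ((Fin r → ZMod 3) × ZMod 2) := by
  classical
  have : Fact (Nat.Prime 3) := ⟨Nat.prime_three⟩
  have hreps : (reps d).card ≤ r + d := by
    have := reps_card d
    omega
  -- placing the representatives
  obtain ⟨j, hj⟩ : ∃ j : {x // x ∈ reps d} → Fin (r + d), Function.Injective j := by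
    have : Fintype.card {x // x ∈ reps d} ≤ Fintype.card (Fin (r + d)) := by
      rw [Fintype.card_coe, Fintype.card_fin]
      exact hreps
    exact ⟨_, (Function.Embedding.nonempty_of_card_le this).some.injective⟩
  set t : Fin (r + d) → (Fin d → ZMod 3) := fun i =>
    if h : ∃ a, j a = i then (h.choose).1 else 0 with ht
  set ε : Fin (r + d) → ZMod 2 := fun i => if ∃ a, j a = i then 1 else 0 with hε
  have htj : ∀ a, t (j a) = a.1 := by
    intro a
    have hex : ∃ b, j b = j a := ⟨a, rfl⟩
    have : t (j a) = (hex.choose).1 := by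
      rw [ht]
      simp only
      rw [dif_pos hex]
    rw [this, hj hex.choose_spec]
  -- the code
  set E : (Fin d → ZMod 3) →ₗ[ZMod 3] (Fin (r + d) → ZMod 3) :=
    { toFun := fun x i => ∑ l, t i l * x l
      map_add' := fun x y => by
        funext i
        rw [Pi.add_apply, ← Finset.sum_add_distrib]
        exact Finset.sum_congr rfl fun l _ => by rw [Pi.add_apply, mul_add]
      map_smul' := fun a x => by
        funext i
        rw [Pi.smul_apply, smul_eq_mul, Finset.mul_sum]
        refine Finset.sum_congr rfl fun l _ => ?_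
        rw [Pi.smul_apply, smul_eq_mul, RingHom.id_apply]
        ring } with hE
  have hodd : ∀ x, x ≠ 0 → Odd (Finset.univ.filter fun i => ε i = 1 ∧ E x i ≠ 0).card := by
    intro x hx
    have h1 := reps_odd hx
    have h2 : (Finset.univ.filter fun i => ε i = 1 ∧ E x i ≠ 0).card =
        ((reps d).filter fun v => ∑ l, v l * x l ≠ 0).card := by
      symm
      refine Finset.card_bij (fun v hv => j ⟨v, (Finset.mem_filter.mp hv).1⟩) ?_ ?_ ?_
      · intro v hv
        rw [Finset.mem_filter]
        refine ⟨Finset.mem_univ _, ?_, ?_⟩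
        · rw [hε]
          simp only
          rw [if_pos ⟨_, rfl⟩]
        · show ∑ l, t (j ⟨v, _⟩) l * x l ≠ 0
          rw [htj]
          exact (Finset.mem_filter.mp hv).2
      · intro v hv w hw hvw
        have := hj hvw
        simpa using this
      · intro i hi
        rw [Finset.mem_filter] at hi
        obtain ⟨-, hi1, hi2⟩ := hi
        have hex : ∃ a, j a = i := by
          by_contra hcon
          rw [hε] at hi1
          simp only at hi1
          rw [if_neg hcon] at hi1
          exact absurd hi1 (by decide)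
        obtain ⟨a, rfl⟩ := hex
        refine ⟨a.1, ?_, rfl⟩
        rw [Finset.mem_filter]
        refine ⟨a.2, ?_⟩
        have h3 : ∑ l, t (j a) l * x l ≠ 0 := hi2
        rwa [htj] at h3
    rw [h2]
    exact h1
  have hinj : Function.Injective E := by
    rw [← LinearMap.ker_eq_bot, LinearMap.ker_eq_bot']
    intro x hx
    by_contra hne
    have := hodd x hne
    rw [Finset.filter_false_of_mem] at this
    · simp at this
    · intro i _ h
      apply h.2
      rw [hx]
      rfl
  -- the quotient map
  have hfin : Module.finrank (ZMod 3) ((Fin (r + d) → ZMod 3) ⧸ LinearMap.range E) =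
      Module.finrank (ZMod 3) (Fin r → ZMod 3) := by
    have h1 := Submodule.finrank_quotient_add_finrank (LinearMap.range E)
    rw [LinearMap.finrank_range_of_inj hinj, Module.finrank_fin_fun, Module.finrank_fin_fun] at h1
    rw [Module.finrank_fin_fun]
    omega
  obtain ⟨e⟩ : Nonempty (((Fin (r + d) → ZMod 3) ⧸ LinearMap.range E) ≃ₗ[ZMod 3]
      (Fin r → ZMod 3)) := ⟨LinearEquiv.ofFinrankEq _ _ hfin⟩
  set Q : (Fin (r + d) → ZMod 3) →ₗ[ZMod 3] (Fin r → ZMod 3) :=
    e.toLinearMap.comp (Submodule.mkQ (LinearMap.range E)) with hQ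
  have hQker : ∀ y, Q y = 0 → ∃ x, E x = y := by
    intro y hy
    have h1 : Submodule.mkQ (LinearMap.range E) y = 0 := by
      apply e.injective
      rw [map_zero]
      exact hy
    rw [Submodule.mkQ_apply, Submodule.Quotient.mk_eq_zero] at h1
    exact h1
  have hfinal := card_le_tau_of_injective (G := (Fin r → ZMod 3) × ZMod 2)
    (fun i : Fin (r + d) => (Q (Pi.single i 1), ε i)) ?_
  · rwa [Fintype.card_fin] at hfinal
  intro S S' hSS
  simp only at hSS
  have h1 : ∑ i ∈ S, Q (Pi.single i 1) = ∑ i ∈ S', Q (Pi.single i 1) := by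
    have := congrArg Prod.fst hSS
    simpa [Prod.fst_sum] using this
  have h2 : ∑ i ∈ S, ε i = ∑ i ∈ S', ε i := by
    have := congrArg Prod.snd hSS
    simpa [Prod.snd_sum] using this
  set y : Fin (r + d) → ZMod 3 := ∑ i ∈ S, Pi.single i 1 - ∑ i ∈ S', Pi.single i 1 with hy
  have hyi : ∀ i, y i = (if i ∈ S then 1 else 0) - (if i ∈ S' then 1 else 0) := by
    intro i
    rw [hy, Pi.sub_apply, Finset.sum_apply, Finset.sum_apply]
    have hs : ∀ U : Finset (Fin (r + d)), ∑ c ∈ U, (Pi.single c (1 : ZMod 3) : Fin (r + d) → ZMod 3) i =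
        if i ∈ U then 1 else 0 := by
      intro U
      rw [← Finset.sum_ite_eq U i (fun _ => (1 : ZMod 3))]
      refine Finset.sum_congr rfl fun c _ => ?_
      rw [Pi.single_apply]
    rw [hs, hs]
  obtain ⟨x, hx⟩ := hQker y (by rw [hy, map_sub, map_sum, map_sum, h1, sub_self])
  by_cases hx0 : x = 0
  · rw [hx0, map_zero] at hx
    ext i
    have h3 := hyi i
    rw [← hx, Pi.zero_apply] at h3
    by_cases hi : i ∈ S <;> by_cases hi' : i ∈ S'
    · exact ⟨fun _ => hi', fun _ => hi⟩
    · rw [if_pos hi, if_neg hi'] at h3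
      simp at h3
    · rw [if_neg hi, if_pos hi'] at h3
      simp at h3
    · exact ⟨fun h => absurd h hi, fun h => absurd h hi'⟩
  · exfalso
    have h3 := hodd x hx0
    -- the parity of the symmetric difference
    have h4 : ((Finset.univ.filter fun i => ε i = 1 ∧ E x i ≠ 0).card : ZMod 2) =
        ∑ i ∈ S, ε i + ∑ i ∈ S', ε i := by
      rw [Finset.card_filter, Nat.cast_sum]
      have e1 : ∀ U : Finset (Fin (r + d)), ∑ i ∈ U, ε i = ∑ i, if i ∈ U then ε i else 0 := by
        intro U
        rw [Finset.sum_ite_mem, Finset.univ_inter]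
      rw [e1 S, e1 S', ← Finset.sum_add_distrib]
      refine Finset.sum_congr rfl fun i _ => ?_
      rw [hx, hyi i]
      have hz : ∀ z : ZMod 2, z = 0 ∨ z = 1 := by decide
      by_cases hi : i ∈ S <;> by_cases hi' : i ∈ S' <;> rcases hz (ε i) with h | h <;>
        simp [hi, hi', h] <;> decide
    rw [h2, ← two_mul, show (2 : ZMod 2) = 0 by decide, zero_mul] at h4
    rw [ZMod.natCast_eq_zero_iff_even] at h4
    exact (Nat.not_even_iff_odd.mpr h3) h4

end Pool.Agent.Results.MP_3a3582_co.ThreeTwo
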