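import Mathlib

/-!
Tensor calculus for ternary cubics: the Cayleyan type covariant, the Hessian, and the
equivariance of the resulting maps.
-/

open Matrix

namespace Pool.Agent.Helper934.Tc

variable {k : Type*} [CommRing k]

/-- Tensors of order three on `k^3`. -/
abbrev Ten (k : Type*) := Fin 3 → Matrix (Fin 3) (Fin 3) k

/-- Action of a matrix on tensors. -/
def act (g : Matrix (Fin 3) (Fin 3) k) (t : Ten k) : Ten k :=
  fun i => ∑ a, g i a • (g * t a * gᵀ)

/-- Symmetric tensors. -/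
def IsSym (t : Ten k) : Prop := ∀ i j l, t i j l = t j i l ∧ t i j l = t i l j

lemma act_apply (g : Matrix (Fin 3) (Fin 3) k) (t : Ten k) (i j l : Fin 3) :
    act g t i j l = ∑ a, ∑ b, ∑ c, g i a * g j b * g l c * t a b c := by
  simp only [act, Matrix.sum_apply, Matrix.smul_apply, Matrix.mul_apply, Matrix.transpose_apply,
    smul_eq_mul, Fin.sum_univ_three]
  ring

lemma act_one (t : Ten k) : act 1 t = t := by
  funext i
  simp [act, Matrix.one_apply]

lemma act_mul (g h : Matrix (Fin 3) (Fin 3) k) (t : Ten k) :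
    act (g * h) t = act g (act h t) := by
  funext i
  simp only [act]
  have : ∀ a, g * (∑ b, h a b • (h * t b * hᵀ)) * gᵀ
      = ∑ b, h a b • (g * h * t b * (g * h)ᵀ) := by
    intro a
    rw [Matrix.mul_sum, Matrix.sum_mul]
    refine Finset.sum_congr rfl fun b _ => ?_
    rw [Matrix.mul_smul, Matrix.smul_mul, Matrix.transpose_mul]
    simp only [Matrix.mul_assoc]
  simp only [this, Finset.smul_sum, smul_smul]
  rw [Finset.sum_comm]
  refine Finset.sum_congr rfl fun b _ => ?_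
  rw [← Finset.sum_smul, Matrix.mul_apply]

lemma act_smul (g : Matrix (Fin 3) (Fin 3) k) (c : k) (t : Ten k) :
    act g (c • t) = c • act g t := by
  funext i
  simp only [act, Pi.smul_apply, Finset.smul_sum, Matrix.mul_smul, Matrix.smul_mul]
  refine Finset.sum_congr rfl fun b _ => ?_
  rw [smul_comm]

lemma act_add (g : Matrix (Fin 3) (Fin 3) k) (s t : Ten k) :
    act g (s + t) = act g s + act g t := by
  funext i
  simp only [act, Pi.add_apply, Matrix.mul_add, Matrix.add_mul, smul_add, Finset.sum_add_distrib]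

lemma act_sub (g : Matrix (Fin 3) (Fin 3) k) (s t : Ten k) :
    act g (s - t) = act g s - act g t := by
  funext i
  simp only [act, Pi.sub_apply, Matrix.mul_sub, Matrix.sub_mul, smul_sub, Finset.sum_sub_distrib]

/-- The pairing between tensors. -/
def pr (p t : Ten k) : k := ∑ i, trace (p i * (t i)ᵀ)

lemma pr_act (g : Matrix (Fin 3) (Fin 3) k) (p t : Ten k) :
    pr p (act g t) = pr (act gᵀ p) t := by
  simp only [pr, act, Matrix.transpose_sum, Matrix.transpose_smul, Matrix.transpose_mul,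
    Matrix.transpose_transpose, Matrix.transpose_apply, Matrix.mul_sum, Matrix.mul_smul,
    Matrix.sum_mul, Matrix.smul_mul, Matrix.trace_sum, Matrix.trace_smul]
  rw [Finset.sum_comm]
  refine Finset.sum_congr rfl fun a _ => Finset.sum_congr rfl fun i _ => ?_
  congr 1
  rw [← Matrix.mul_assoc, ← Matrix.mul_assoc, Matrix.trace_mul_comm]
  simp only [Matrix.mul_assoc]

lemma pr_smul_left (c : k) (p t : Ten k) : pr (c • p) t = c * pr p t := by
  simp only [pr, Pi.smul_apply, Matrix.smul_mul, Matrix.trace_smul, smul_eq_mul, Finset.mul_sum]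

lemma pr_smul_right (c : k) (p t : Ten k) : pr p (c • t) = c * pr p t := by
  simp only [pr, Pi.smul_apply, Matrix.transpose_smul, Matrix.mul_smul, Matrix.trace_smul,
    smul_eq_mul, Finset.mul_sum]

/-- Alternating sum over the permutations of three indices. -/
def alt (τ : Fin 3 → Fin 3 → Fin 3 → k) : k :=
  τ 0 1 2 + τ 1 2 0 + τ 2 0 1 - τ 0 2 1 - τ 2 1 0 - τ 1 0 2

lemma alt_lin (g : Matrix (Fin 3) (Fin 3) k) (τ : Fin 3 → Fin 3 → Fin 3 → k) :
    alt (fun i j l => ∑ a, ∑ b, ∑ c, g i a * g j b * g l c * τ a b c) = g.det * alt τ := by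
  simp only [alt, Fin.sum_univ_three, Matrix.det_fin_three]
  ring

/-- The skew matrix of a vector. -/
def Ev (u : Fin 3 → k) : Matrix (Fin 3) (Fin 3) k :=
  !![0, u 2, -u 1; -u 2, 0, u 0; u 1, -u 0, 0]

/-- The skew matrix of a basis vector. -/
def E (p : Fin 3) : Matrix (Fin 3) (Fin 3) k := Ev (Pi.single p 1)

lemma Ev_eq (u : Fin 3 → k) : Ev u = ∑ p, u p • E p := by
  ext i j
  fin_cases i <;> fin_cases j <;> simp [Ev, E, Fin.sum_univ_three]

lemma Ev_conj (g : Matrix (Fin 3) (Fin 3) k) (p : Fin 3) :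
    gᵀ * Ev (fun i => g i p) * g = g.det • E p := by
  ext i j
  simp only [Matrix.mul_apply, Fin.sum_univ_three, Matrix.smul_apply, Matrix.det_fin_three,
    Matrix.transpose_apply, smul_eq_mul]
  fin_cases p <;> fin_cases i <;> fin_cases j <;> simp [Ev, E] <;> ring

/-- The basic trilinear trace. -/
def tr6 (A X B Y C Z : Matrix (Fin 3) (Fin 3) k) : k := trace (A * X * (B * Y) * (C * Z))

section tr6
variable {ι : Type*} (s : Finset ι) (a : ι → k) (A X B Y C Z : Matrix (Fin 3) (Fin 3) k)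
  (M : ι → Matrix (Fin 3) (Fin 3) k)

lemma tr6_1 : tr6 (∑ i ∈ s, a i • M i) X B Y C Z = ∑ i ∈ s, a i * tr6 (M i) X B Y C Z := by
  simp only [tr6, Matrix.sum_mul, Matrix.smul_mul, Matrix.trace_sum, Matrix.trace_smul, smul_eq_mul]

lemma tr6_2 : tr6 A (∑ i ∈ s, a i • M i) B Y C Z = ∑ i ∈ s, a i * tr6 A (M i) B Y C Z := by
  simp only [tr6, Matrix.sum_mul, Matrix.mul_sum, Matrix.smul_mul, Matrix.mul_smul,
    Matrix.trace_sum, Matrix.trace_smul, smul_eq_mul]

lemma tr6_3 : tr6 A X (∑ i ∈ s, a i • M i) Y C Z = ∑ i ∈ s, a i * tr6 A X (M i) Y C Z := by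
  simp only [tr6, Matrix.sum_mul, Matrix.mul_sum, Matrix.smul_mul, Matrix.mul_smul,
    Matrix.trace_sum, Matrix.trace_smul, smul_eq_mul]

lemma tr6_4 : tr6 A X B (∑ i ∈ s, a i • M i) C Z = ∑ i ∈ s, a i * tr6 A X B (M i) C Z := by
  simp only [tr6, Matrix.sum_mul, Matrix.mul_sum, Matrix.smul_mul, Matrix.mul_smul,
    Matrix.trace_sum, Matrix.trace_smul, smul_eq_mul]

lemma tr6_5 : tr6 A X B Y (∑ i ∈ s, a i • M i) Z = ∑ i ∈ s, a i * tr6 A X B Y (M i) Z := by
  simp only [tr6, Matrix.sum_mul, Matrix.mul_sum, Matrix.smul_mul, Matrix.mul_smul,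
    Matrix.trace_sum, Matrix.trace_smul, smul_eq_mul]

lemma tr6_6 : tr6 A X B Y C (∑ i ∈ s, a i • M i) = ∑ i ∈ s, a i * tr6 A X B Y C (M i) := by
  simp only [tr6, Matrix.mul_sum, Matrix.mul_smul,
    Matrix.trace_sum, Matrix.trace_smul, smul_eq_mul]

end tr6

lemma tr6_sumABC (A B C : Fin 3 → Matrix (Fin 3) (Fin 3) k) (a b c : Fin 3 → k)
    (X Y Z : Matrix (Fin 3) (Fin 3) k) :
    tr6 (∑ i, a i • A i) X (∑ i, b i • B i) Y (∑ i, c i • C i) Z
      = ∑ i, ∑ j, ∑ l, a i * b j * c l * tr6 (A i) X (B j) Y (C l) Z := by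
  rw [tr6_1]
  refine Finset.sum_congr rfl fun i _ => ?_
  rw [tr6_3, Finset.mul_sum]
  refine Finset.sum_congr rfl fun j _ => ?_
  rw [tr6_5, Finset.mul_sum, Finset.mul_sum]
  refine Finset.sum_congr rfl fun l _ => ?_
  ring

lemma tr6_sumXYZ (A B C : Matrix (Fin 3) (Fin 3) k) (a b c : Fin 3 → k)
    (X Y Z : Fin 3 → Matrix (Fin 3) (Fin 3) k) :
    tr6 A (∑ i, a i • X i) B (∑ i, b i • Y i) C (∑ i, c i • Z i)
      = ∑ i, ∑ j, ∑ l, a i * b j * c l * tr6 A (X i) B (Y j) C (Z l) := by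
  rw [tr6_2]
  refine Finset.sum_congr rfl fun i _ => ?_
  rw [tr6_4, Finset.mul_sum]
  refine Finset.sum_congr rfl fun j _ => ?_
  rw [tr6_6, Finset.mul_sum, Finset.mul_sum]
  refine Finset.sum_congr rfl fun l _ => ?_
  ring

lemma tr6_conj (g A X B Y C Z : Matrix (Fin 3) (Fin 3) k) :
    tr6 (g * A * gᵀ) X (g * B * gᵀ) Y (g * C * gᵀ) Z
      = tr6 A (gᵀ * X * g) B (gᵀ * Y * g) C (gᵀ * Z * g) := by
  simp only [tr6]
  have h1 : g * A * gᵀ * X * (g * B * gᵀ * Y) * (g * C * gᵀ * Z)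
      = g * (A * (gᵀ * X * g) * (B * (gᵀ * Y * g)) * (C * gᵀ * Z)) := by
    simp only [Matrix.mul_assoc]
  rw [h1, Matrix.trace_mul_comm]
  simp only [Matrix.mul_assoc]

lemma tr6_smul (A X B Y C Z : Matrix (Fin 3) (Fin 3) k) (d : k) :
    tr6 A (d • X) B (d • Y) C (d • Z) = d ^ 3 * tr6 A X B Y C Z := by
  simp only [tr6, Matrix.mul_smul, Matrix.smul_mul, Matrix.trace_smul, smul_eq_mul]
  ring

/-- The trilinear form of the Cayleyan covariant. -/
def P3 (t1 t2 t3 : Ten k) : Ten k :=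
  fun p q r => alt fun i j l => tr6 (t1 i) (E p) (t2 j) (E q) (t3 l) (E r)

lemma alt_sum3 {ι : Type*} (s : Finset ι) (c : ι → ι → ι → k)
    (τ : ι → ι → ι → Fin 3 → Fin 3 → Fin 3 → k) :
    alt (fun i j l => ∑ a ∈ s, ∑ b ∈ s, ∑ d ∈ s, c a b d * τ a b d i j l)
      = ∑ a ∈ s, ∑ b ∈ s, ∑ d ∈ s, c a b d * alt (τ a b d) := by
  simp only [alt, mul_add, mul_sub, Finset.sum_add_distrib, Finset.sum_sub_distrib]

lemma alt_mul (c : k) (τ : Fin 3 → Fin 3 → Fin 3 → k) :
    alt (fun i j l => c * τ i j l) = c * alt τ := by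
  simp only [alt]; ring

lemma P3_equiv (g : Matrix (Fin 3) (Fin 3) k) (t1 t2 t3 : Ten k) :
    act gᵀ (P3 (act g t1) (act g t2) (act g t3)) = g.det ^ 4 • P3 t1 t2 t3 := by
  funext p
  ext q r
  rw [act_apply]
  have h1 : (∑ a, ∑ b, ∑ c, gᵀ p a * gᵀ q b * gᵀ r c *
      P3 (act g t1) (act g t2) (act g t3) a b c)
      = alt (fun i j l => tr6 (act g t1 i) (Ev fun i => g i p) (act g t2 j) (Ev fun i => g i q)
          (act g t3 l) (Ev fun i => g i r)) := by
    simp only [P3, Matrix.transpose_apply]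
    rw [← alt_sum3 Finset.univ (fun a b c => g a p * g b q * g c r)
      (fun a b c i j l => tr6 (act g t1 i) (E a) (act g t2 j) (E b) (act g t3 l) (E c))]
    congr 1
    funext i j l
    rw [Ev_eq, Ev_eq (fun i => g i q), Ev_eq (fun i => g i r), tr6_sumXYZ]
  rw [h1]
  simp only [act, tr6_sumABC]
  rw [alt_lin g (fun a b c => tr6 (g * t1 a * gᵀ) (Ev fun i => g i p) (g * t2 b * gᵀ)
    (Ev fun i => g i q) (g * t3 c * gᵀ) (Ev fun i => g i r))]
  simp only [tr6_conj, Ev_conj, tr6_smul]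
  rw [alt_mul]
  simp only [Pi.smul_apply, Matrix.smul_apply, P3, smul_eq_mul]
  ring

/-- Six times the mixed discriminant. -/
def D6 (A B C : Matrix (Fin 3) (Fin 3) k) : k :=
  (A + B + C).det - (A + B).det - (A + C).det - (B + C).det + A.det + B.det + C.det

lemma D6_conj (g A B C : Matrix (Fin 3) (Fin 3) k) :
    D6 (g * A * gᵀ) (g * B * gᵀ) (g * C * gᵀ) = g.det ^ 2 * D6 A B C := by
  simp only [D6, ← Matrix.mul_add, ← Matrix.add_mul, Matrix.det_mul, Matrix.det_transpose]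
  ring

lemma D6_add1 (A A' B C : Matrix (Fin 3) (Fin 3) k) :
    D6 (A + A') B C = D6 A B C + D6 A' B C := by
  simp only [D6, Matrix.det_fin_three, Matrix.add_apply]
  ring

lemma D6_smul1 (c : k) (A B C : Matrix (Fin 3) (Fin 3) k) :
    D6 (c • A) B C = c * D6 A B C := by
  simp only [D6, Matrix.det_fin_three, Matrix.add_apply, Matrix.smul_apply, smul_eq_mul]
  ring

lemma D6_swap12 (A B C : Matrix (Fin 3) (Fin 3) k) : D6 A B C = D6 B A C := by
  simp only [D6, Matrix.det_fin_three, Matrix.add_apply]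
  ring

lemma D6_swap13 (A B C : Matrix (Fin 3) (Fin 3) k) : D6 A B C = D6 C B A := by
  simp only [D6, Matrix.det_fin_three, Matrix.add_apply]
  ring

lemma D6_sum1 {ι : Type*} (s : Finset ι) (a : ι → k) (M : ι → Matrix (Fin 3) (Fin 3) k)
    (B C : Matrix (Fin 3) (Fin 3) k) :
    D6 (∑ i ∈ s, a i • M i) B C = ∑ i ∈ s, a i * D6 (M i) B C := by
  classical
  induction s using Finset.induction_on with
  | empty =>
    simp only [Finset.sum_empty, D6, zero_add, Matrix.det_fin_three, Matrix.zero_apply]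
    ring
  | insert i s hi ih =>
    rw [Finset.sum_insert hi, Finset.sum_insert hi, D6_add1, D6_smul1, ih]

lemma D6_sum (A B C : Fin 3 → Matrix (Fin 3) (Fin 3) k) (a b c : Fin 3 → k) :
    D6 (∑ i, a i • A i) (∑ i, b i • B i) (∑ i, c i • C i)
      = ∑ i, ∑ j, ∑ l, a i * b j * c l * D6 (A i) (B j) (C l) := by
  rw [D6_sum1]
  refine Finset.sum_congr rfl fun i _ => ?_
  rw [D6_swap12, D6_sum1, Finset.mul_sum]
  refine Finset.sum_congr rfl fun j _ => ?_
  rw [D6_swap12, D6_swap13, D6_sum1, Finset.mul_sum, Finset.mul_sum]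
  refine Finset.sum_congr rfl fun l _ => ?_
  rw [D6_swap13]
  ring

/-- The Hessian covariant (as a tensor). -/
def Hs (t : Ten k) : Ten k := fun i j l => D6 (t i) (t j) (t l)

lemma Hs_equiv (g : Matrix (Fin 3) (Fin 3) k) (t : Ten k) :
    Hs (act g t) = g.det ^ 2 • act g (Hs t) := by
  funext i
  ext j l
  simp only [Hs, Pi.smul_apply, Matrix.smul_apply, smul_eq_mul, act_apply]
  have h := D6_sum (fun a => g * t a * gᵀ) (fun a => g * t a * gᵀ) (fun a => g * t a * gᵀ)
    (g i) (g j) (g l)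
  have h2 : D6 (act g t i) (act g t j) (act g t l) = _ := h
  rw [h2]
  simp only [D6_conj, Finset.mul_sum]
  refine Finset.sum_congr rfl fun a _ => Finset.sum_congr rfl fun b _ =>
    Finset.sum_congr rfl fun c _ => ?_
  ring

lemma Hs_sym (t : Ten k) : IsSym (Hs t) := by
  intro i j l
  refine ⟨D6_swap12 _ _ _, ?_⟩
  simp only [Hs]
  rw [D6_swap12, D6_swap13, D6_swap12]

end Pool.Agent.Helper934.Tc
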