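import Mathlib
import Pool.Agent.Helper934.TcBase

/-!
The equivariant map on ternary cubics and its value on the Hesse pencil.
-/

open Matrix

namespace Pool.Agent.Helper934.Tc

variable {k : Type*} [CommRing k]

lemma alt_mulR (c : k) (τ σ : Fin 3 → Fin 3 → Fin 3 → k) (h : ∀ i j l, τ i j l = c * σ i j l) :
    alt τ = c * alt σ := by
  rw [← alt_mul]
  congr 1
  funext i j l
  exact h i j l

lemma P3_smul (a b c : k) (t1 t2 t3 : Ten k) :
    P3 (a • t1) (b • t2) (c • t3) = (a * b * c) • P3 t1 t2 t3 := by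
  funext p
  ext q r
  simp only [P3, Pi.smul_apply, Matrix.smul_apply, smul_eq_mul]
  refine alt_mulR _ _ _ fun i j l => ?_
  simp only [tr6, Matrix.smul_mul, Matrix.mul_smul, Matrix.trace_smul, smul_eq_mul]
  ring

/-- The Cayleyan covariant. -/
def Pt (t : Ten k) : Ten k := P3 t t t

/-- Its polarisation. -/
def Bt (t h : Ten k) : Ten k := P3 h t t + P3 t h t + P3 t t h

/-- The invariant of degree four. -/
def Sv (t : Ten k) : k := pr (Pt t) t

/-- The invariant of degree six. -/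
def Tv (t : Ten k) : k := pr (Pt t) (Hs t)

/-- The covariant of degree five. -/
def Qt (t : Ten k) : Ten k := Bt t (Hs t)

/-- The equivariant map of degree nine. -/
def Nt (t : Ten k) : Ten k := (3 * Tv t) • Pt t - Sv t • Qt t

lemma Pt_act (g : Matrix (Fin 3) (Fin 3) k) (t : Ten k) :
    act gᵀ (Pt (act g t)) = g.det ^ 4 • Pt t := P3_equiv g t t t

lemma Bt_act (g : Matrix (Fin 3) (Fin 3) k) (t h : Ten k) :
    act gᵀ (Bt (act g t) (act g h)) = g.det ^ 4 • Bt t h := by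
  simp only [Bt, act_add, P3_equiv, smul_add]

lemma Bt_smul_right (c : k) (t h : Ten k) : Bt t (c • h) = c • Bt t h := by
  have h1 := P3_smul c 1 1 h t t
  have h2 := P3_smul 1 c 1 t h t
  have h3 := P3_smul 1 1 c t t h
  simp only [one_smul, mul_one, one_mul] at h1 h2 h3
  simp only [Bt, h1, h2, h3, smul_add]

lemma Sv_act (g : Matrix (Fin 3) (Fin 3) k) (t : Ten k) :
    Sv (act g t) = g.det ^ 4 * Sv t := by
  rw [Sv, pr_act, Pt_act, pr_smul_left, Sv]

lemma Tv_act (g : Matrix (Fin 3) (Fin 3) k) (t : Ten k) :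
    Tv (act g t) = g.det ^ 6 * Tv t := by
  rw [Tv, Hs_equiv, pr_smul_right, pr_act, Pt_act, pr_smul_left, Tv]
  ring

lemma Qt_act (g : Matrix (Fin 3) (Fin 3) k) (t : Ten k) :
    act gᵀ (Qt (act g t)) = g.det ^ 6 • Qt t := by
  rw [Qt, Hs_equiv, Bt_smul_right, act_smul, Bt_act, smul_smul, Qt]
  congr 1
  ring

lemma Nt_act (g : Matrix (Fin 3) (Fin 3) k) (t : Ten k) :
    act gᵀ (Nt (act g t)) = g.det ^ 10 • Nt t := by
  rw [Nt, act_sub, act_smul, act_smul, Pt_act, Qt_act, Tv_act, Sv_act, Nt, smul_sub, smul_smul,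
    smul_smul, smul_smul, smul_smul]
  congr 2 <;> ring

lemma Hs_smul (c : k) (t : Ten k) : Hs (c • t) = c ^ 3 • Hs t := by
  funext i
  ext j l
  simp only [Hs, Pi.smul_apply, Matrix.smul_apply, smul_eq_mul]
  rw [D6_smul1, D6_swap12, D6_smul1, D6_swap12, D6_swap13, D6_smul1, D6_swap13]
  ring

lemma Pt_smul (c : k) (t : Ten k) : Pt (c • t) = c ^ 3 • Pt t := by
  rw [Pt, P3_smul, Pt]
  congr 1
  ring

lemma Sv_smul (c : k) (t : Ten k) : Sv (c • t) = c ^ 4 * Sv t := by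
  rw [Sv, Pt_smul, pr_smul_left, pr_smul_right, Sv]
  ring

lemma Tv_smul (c : k) (t : Ten k) : Tv (c • t) = c ^ 6 * Tv t := by
  rw [Tv, Pt_smul, Hs_smul, pr_smul_left, pr_smul_right, Tv]
  ring

lemma Qt_smul (c : k) (t : Ten k) : Qt (c • t) = c ^ 5 • Qt t := by
  have h1 := P3_smul (c ^ 3) c c (Hs t) t t
  have h2 := P3_smul c (c ^ 3) c t (Hs t) t
  have h3 := P3_smul c c (c ^ 3) t t (Hs t)
  simp only [Qt, Bt, Hs_smul, h1, h2, h3, smul_add]
  congr 2 <;> congr 1 <;> ring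

lemma Nt_smul (c : k) (t : Ten k) : Nt (c • t) = c ^ 9 • Nt t := by
  rw [Nt, Tv_smul, Pt_smul, Sv_smul, Qt_smul, Nt, smul_sub, smul_smul, smul_smul, smul_smul,
    smul_smul]
  congr 2 <;> ring

/-- The Hesse pencil. -/
def w (a b : k) : Ten k :=
  ![!![a, 0, 0; 0, 0, b; 0, b, 0], !![0, 0, b; 0, a, 0; b, 0, 0], !![0, b, 0; b, 0, 0; 0, 0, a]]

lemma w_sym (a b : k) : IsSym (w a b) := by
  intro i j l
  fin_cases i <;> fin_cases j <;> fin_cases l <;> simp [w]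

lemma Hs_w (a b : k) : Hs (w a b) = w (-6 * a * b ^ 2) (a ^ 3 + 2 * b ^ 3) := by
  funext i
  ext j l
  fin_cases i <;> fin_cases j <;> fin_cases l <;>
    simp [Hs, D6, w, Matrix.det_fin_three] <;> ring

lemma P3_w (a b c d e f : k) (p q r : Fin 3) :
    (P3 (w a b) (w c d) (w e f) + P3 (w c d) (w e f) (w a b) + P3 (w e f) (w a b) (w c d)) p q r
      = w (6 * (a * c * f + a * d * e + b * c * e)) (3 * (a * c * e - 4 * b * d * f)) p q r := by
  fin_cases p <;> fin_cases q <;> fin_cases r <;>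
    simp [P3, alt, tr6, w, E, Ev, Matrix.trace_fin_three] <;> ring

lemma P3_w' (a b : k) (p q r : Fin 3) :
    P3 (w a b) (w a b) (w a b) p q r = w (6 * a ^ 2 * b) (a ^ 3 - 4 * b ^ 3) p q r := by
  fin_cases p <;> fin_cases q <;> fin_cases r <;>
    simp [P3, alt, tr6, w, E, Ev, Matrix.trace_fin_three] <;> ring

lemma Pt_w (a b : k) : Pt (w a b) = w (6 * a ^ 2 * b) (a ^ 3 - 4 * b ^ 3) := by
  funext p
  ext q r
  exact P3_w' a b p q r

lemma Bt_w (a b c d : k) :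
    Bt (w a b) (w c d) = w (6 * (2 * a * b * c + a ^ 2 * d)) (3 * (a ^ 2 * c - 4 * b ^ 2 * d)) := by
  have h : Bt (w a b) (w c d)
      = P3 (w c d) (w a b) (w a b) + P3 (w a b) (w a b) (w c d) + P3 (w a b) (w c d) (w a b) := by
    rw [Bt]
    abel
  rw [h]
  funext p
  ext q r
  rw [P3_w c d a b a b p q r]
  have e1 : 6 * (c * a * b + c * b * a + d * a * a) = 6 * (2 * a * b * c + a ^ 2 * d) := by ring
  have e2 : 3 * (c * a * a - 4 * d * b * b) = 3 * (a ^ 2 * c - 4 * b ^ 2 * d) := by ring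
  rw [e1, e2]

lemma pr_w (a b c d : k) : pr (w a b) (w c d) = 3 * a * c + 6 * b * d := by
  simp only [pr, Fin.sum_univ_three, Matrix.trace_fin_three, Matrix.mul_apply,
    Matrix.transpose_apply]
  simp [w]
  ring

lemma w_smul (c a b : k) : c • w a b = w (c * a) (c * b) := by
  funext p
  ext q r
  fin_cases p <;> fin_cases q <;> fin_cases r <;> simp [w]

lemma w_sub (a b c d : k) : w a b - w c d = w (a - c) (b - d) := by
  funext p
  ext q r
  fin_cases p <;> fin_cases q <;> fin_cases r <;> simp [w]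

lemma Sv_w (a b : k) : Sv (w a b) = 24 * (a ^ 3 * b - b ^ 4) := by
  rw [Sv, Pt_w, pr_w]
  ring

lemma Tv_w (a b : k) : Tv (w a b) = 6 * a ^ 6 - 120 * a ^ 3 * b ^ 3 - 48 * b ^ 6 := by
  rw [Tv, Pt_w, Hs_w, pr_w]
  ring

lemma Nt_w (a b : k) :
    Nt (w a b) = (18 * (a ^ 4 + 8 * a * b ^ 3) ^ 2) • w (-2 * b) a := by
  rw [Nt, Tv_w, Pt_w, Sv_w, Qt, Hs_w, Bt_w, w_smul, w_smul, w_smul, w_sub]
  congr 1 <;> ring

lemma Nt_Nt_w (a b : k) :
    (2 : k) • Nt (Nt (w a b)) = (-(Sv (Nt (w a b)) ^ 2 * Sv (w a b) ^ 2)) • w a b := by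
  have h1 : Sv (Nt (w a b)) = (18 * (a ^ 4 + 8 * a * b ^ 3) ^ 2) ^ 4 *
      (-24 * (a ^ 4 + 8 * a * b ^ 3)) := by
    rw [Nt_w, Sv_smul, Sv_w]
    congr 1
    ring
  have h2 : Nt (Nt (w a b)) = ((18 * (a ^ 4 + 8 * a * b ^ 3) ^ 2) ^ 9 *
      (18 * (-16 * (a ^ 3 * b - b ^ 4)) ^ 2) * (-2)) • w a b := by
    rw [Nt_w, Nt_smul, Nt_w, w_smul, w_smul, w_smul]
    congr 1 <;> ring
  rw [h1, h2, Sv_w, smul_smul]
  congr 1
  generalize a ^ 4 + 8 * a * b ^ 3 = e
  generalize a ^ 3 * b - b ^ 4 = u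
  ring

end Pool.Agent.Helper934.Tc
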