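import Mathlib
import Pool.Agent.Helper934.TcMap

/-!
Density of the orbits of the Hesse pencil in the space of ternary cubics.
-/

open Matrix

namespace Pool.Agent.Helper934.Tc

open Polynomial in
lemma chain_rule {ι k : Type*} [Fintype ι] [DecidableEq ι] [CommRing k] (P : MvPolynomial ι k)
    (γ : ι → k[X]) :
    derivative (MvPolynomial.aeval γ P)
      = ∑ i, MvPolynomial.aeval γ (MvPolynomial.pderiv i P) * derivative (γ i) := by
  induction P using MvPolynomial.induction_on with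
  | C a => simp
  | add p q hp hq =>
    simp only [map_add, hp, hq, add_mul, Finset.sum_add_distrib]
  | mul_X p j hp =>
    have h1 : ∀ i, MvPolynomial.aeval γ (MvPolynomial.pderiv i (p * MvPolynomial.X j)) *
        derivative (γ i) = MvPolynomial.aeval γ (MvPolynomial.pderiv i p) * derivative (γ i) * γ j
          + if i = j then MvPolynomial.aeval γ p * derivative (γ j) else 0 := by
      intro i
      rw [Derivation.leibniz, smul_eq_mul, smul_eq_mul, map_add, map_mul, map_mul,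
        MvPolynomial.aeval_X]
      by_cases hij : i = j
      · subst hij
        rw [MvPolynomial.pderiv_X_self, map_one, if_pos rfl]
        ring
      · rw [MvPolynomial.pderiv_X_of_ne (Ne.symm hij), map_zero, if_neg hij]
        ring
    rw [map_mul, MvPolynomial.aeval_X, derivative_mul, hp]
    simp only [h1]
    rw [Finset.sum_add_distrib, Finset.sum_ite_eq' Finset.univ j, if_pos (Finset.mem_univ j),
      Finset.sum_mul]

open Polynomial in
lemma poly_zero_of_derivs {k : Type*} [Field k] [CharZero k] (q : k[X])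
    (h : ∀ n, (derivative^[n] q).eval 0 = 0) : q = 0 := by
  ext n
  have h1 := h n
  rw [← coeff_zero_eq_eval_zero, coeff_iterate_derivative, zero_add, Nat.descFactorial_self,
    nsmul_eq_mul] at h1
  rw [coeff_zero]
  rcases mul_eq_zero.mp h1 with h2 | h2
  · exact absurd h2 (Nat.cast_ne_zero.mpr (Nat.factorial_ne_zero n))
  · exact h2

open Polynomial in
lemma poly_zero_of_dense {k : Type*} [Field k] [CharZero k] (q d : k[X]) (hd : d ≠ 0)
    (h : ∀ s, d.eval s ≠ 0 → q.eval s = 0) : q = 0 := by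
  have h1 : q * d = 0 := by
    apply Polynomial.funext
    intro s
    rw [eval_mul, eval_zero]
    by_cases hs : d.eval s = 0
    · rw [hs, mul_zero]
    · rw [h s hs, zero_mul]
  rcases mul_eq_zero.mp h1 with h2 | h2
  · exact h2
  · exact absurd h2 hd

/-- Index set of the coordinates of a tensor. -/
abbrev Ix := Fin 3 × Fin 3 × Fin 3

/-- The coordinates of a tensor. -/
def unc {R : Type*} (t : Ten R) : Ix → R := fun p => t p.1 p.2.1 p.2.2

section
variable {k : Type*} [Field k] [CharZero k]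

/-- The orbits of the Hesse pencil. -/
def DS (k : Type*) [Field k] : Set (Ten k) :=
  {t | ∃ g : Matrix (Fin 3) (Fin 3) k, g.det ≠ 0 ∧ ∃ b : k, 1 + 8 * b ^ 3 ≠ 0 ∧
    t = act g (w 1 b)}

/-- Polynomials vanishing on the orbits of the Hesse pencil. -/
def Van (P : MvPolynomial Ix k) : Prop := ∀ t ∈ DS k, MvPolynomial.eval (unc t) P = 0

open Polynomial in
lemma eval_aeval {ι k : Type*} [CommRing k] (P : MvPolynomial ι k) (γ : ι → k[X]) (s : k) :
    (MvPolynomial.aeval γ P).eval s = MvPolynomial.eval (fun i => (γ i).eval s) P := by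
  induction P using MvPolynomial.induction_on with
  | C a => simp
  | add p q hp hq => simp only [map_add, eval_add, hp, hq]
  | mul_X p j hp => simp only [map_mul, eval_mul, hp, MvPolynomial.aeval_X, MvPolynomial.eval_X]

open Polynomial in
lemma curve (P : MvPolynomial Ix k) (hP : Van P) (t0 t1 t2 t3 : Ten k) (d : k[X]) (hd : d ≠ 0)
    (h : ∀ s, d.eval s ≠ 0 → t0 + s • t1 + s ^ 2 • t2 + s ^ 3 • t3 ∈ DS k) :
    ∑ i, MvPolynomial.eval (unc t0) (MvPolynomial.pderiv i P) * unc t1 i = 0 := by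
  set γ : Ix → k[X] := fun i => C (unc t0 i) + C (unc t1 i) * X + C (unc t2 i) * X ^ 2
    + C (unc t3 i) * X ^ 3 with hγ
  have hev : ∀ s, (fun i => (γ i).eval s) = unc (t0 + s • t1 + s ^ 2 • t2 + s ^ 3 • t3) := by
    intro s
    funext i
    simp only [hγ, unc, eval_add, eval_mul, eval_C, eval_X, eval_pow, Pi.add_apply, Pi.smul_apply,
      Matrix.add_apply, Matrix.smul_apply, smul_eq_mul]
    ring
  have hq : MvPolynomial.aeval γ P = 0 := by
    refine poly_zero_of_dense _ d hd fun s hs => ?_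
    rw [eval_aeval, hev]
    exact hP _ (h s hs)
  have h1 := chain_rule P γ
  rw [hq, derivative_zero] at h1
  have h2 := congrArg (Polynomial.eval 0) h1
  rw [eval_zero, eval_finsetSum] at h2
  rw [h2]
  refine Finset.sum_congr rfl fun i _ => ?_
  rw [eval_mul, eval_aeval, hev]
  have h3 : t0 + (0 : k) • t1 + (0 : k) ^ 2 • t2 + (0 : k) ^ 3 • t3 = t0 := by
    simp
  rw [h3]
  congr 1
  simp [hγ]

/-- Action on the three slots separately. -/
def act3 (g1 g2 g3 : Matrix (Fin 3) (Fin 3) k) (t : Ten k) : Ten k :=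
  fun i j l => ∑ a, ∑ b, ∑ c, g1 i a * g2 j b * g3 l c * t a b c

/-- The infinitesimal action. -/
def Lie (e : Matrix (Fin 3) (Fin 3) k) (t : Ten k) : Ten k :=
  act3 e 1 1 t + act3 1 e 1 t + act3 1 1 e t

lemma Lie_apply (e : Matrix (Fin 3) (Fin 3) k) (t : Ten k) (i j l : Fin 3) :
    Lie e t i j l = ∑ a, e i a * t a j l + ∑ a, e j a * t i a l + ∑ a, e l a * t i j a := by
  simp [Lie, act3, Matrix.one_apply, Finset.sum_ite_eq, ite_mul, mul_ite]

lemma act_one_add (e : Matrix (Fin 3) (Fin 3) k) (t : Ten k) (s : k) :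
    act (1 + s • e) t = t + s • Lie e t + s ^ 2 • (act3 e e 1 t + act3 e 1 e t + act3 1 e e t)
      + s ^ 3 • act3 e e e t := by
  have h0 : act3 1 1 1 t = t := by
    funext i
    ext j l
    simp [act3, Matrix.one_apply, Finset.sum_ite_eq, ite_mul, mul_ite]
  nth_rewrite 2 [← h0]
  funext i
  ext j l
  rw [act_apply]
  simp only [act3, Lie, Pi.add_apply, Pi.smul_apply, Matrix.add_apply, Matrix.smul_apply,
    smul_eq_mul, Finset.mul_sum, ← Finset.sum_add_distrib, mul_add]
  refine Finset.sum_congr rfl fun a _ => Finset.sum_congr rfl fun b _ =>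
    Finset.sum_congr rfl fun c _ => ?_
  ring

/-- A symmetric tensor from its ten coordinates. -/
def sy (x0 x1 x2 x3 x4 x5 x6 x7 x8 x9 : k) : Ten k :=
  ![!![x0, x3, x4; x3, x5, x9; x4, x9, x6], !![x3, x5, x9; x5, x1, x7; x9, x7, x8],
    !![x4, x9, x6; x9, x7, x8; x6, x8, x2]]

lemma sym_eq_sy (u : Ten k) (h : IsSym u) :
    u = sy (u 0 0 0) (u 1 1 1) (u 2 2 2) (u 0 0 1) (u 0 0 2) (u 0 1 1) (u 0 2 2) (u 1 1 2)
      (u 1 2 2) (u 0 1 2) := by
  have a1 := (h 0 1 0).2
  have a2 := (h 0 2 0).2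
  have a3 := (h 0 2 1).2
  have a4 := (h 1 0 0).1
  have a5 := (h 1 0 1).1
  have a6 := (h 1 0 2).1
  have a7 := (h 1 1 0).2
  have a8 := (h 1 2 0).2
  have a9 := (h 1 2 1).2
  have b1 := (h 2 0 0).1
  have b2 := (h 2 0 1).1
  have b3 := (h 2 0 2).1
  have b4 := (h 2 1 0).1
  have b5 := (h 2 1 1).1
  have b6 := (h 2 1 2).1
  have b7 := (h 2 2 0).2
  have b8 := (h 2 2 1).2
  have a7' := (h 1 0 1).1
  funext i
  ext j l
  fin_cases i <;> fin_cases j <;> fin_cases l <;> simp [sy] <;> simp_all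

lemma sym_act (g : Matrix (Fin 3) (Fin 3) k) (t : Ten k) (h : IsSym t) : IsSym (act g t) := by
  intro i j l
  rw [act_apply, act_apply, act_apply]
  constructor
  · rw [Finset.sum_comm]
    refine Finset.sum_congr rfl fun a _ => Finset.sum_congr rfl fun b _ =>
      Finset.sum_congr rfl fun c _ => ?_
    rw [(h b a c).1]
    ring
  · refine Finset.sum_congr rfl fun a _ => ?_
    rw [Finset.sum_comm]
    refine Finset.sum_congr rfl fun b _ => Finset.sum_congr rfl fun c _ => ?_
    rw [(h a c b).2]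
    ring

lemma sym_add (s t : Ten k) (hs : IsSym s) (ht : IsSym t) : IsSym (s + t) := by
  intro i j l
  simp only [Pi.add_apply, Matrix.add_apply]
  exact ⟨by rw [(hs i j l).1, (ht i j l).1], by rw [(hs i j l).2, (ht i j l).2]⟩

lemma sym_sub (s t : Ten k) (hs : IsSym s) (ht : IsSym t) : IsSym (s - t) := by
  intro i j l
  simp only [Pi.sub_apply, Matrix.sub_apply]
  exact ⟨by rw [(hs i j l).1, (ht i j l).1], by rw [(hs i j l).2, (ht i j l).2]⟩

lemma sym_smul (c : k) (t : Ten k) (ht : IsSym t) : IsSym (c • t) := by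
  intro i j l
  simp only [Pi.smul_apply, Matrix.smul_apply]
  exact ⟨by rw [(ht i j l).1], by rw [(ht i j l).2]⟩

lemma span (u : Ten k) (hu : IsSym u) (b : k) :
    ∃ (e : Matrix (Fin 3) (Fin 3) k) (d : k),
      (3 * (1 + 8 * b ^ 3)) • u = Lie e (w 1 b) + d • w 0 1 := by
  rw [sym_eq_sy u hu]
  generalize u 0 0 0 = x0
  generalize u 1 1 1 = x1
  generalize u 2 2 2 = x2
  generalize u 0 0 1 = x3
  generalize u 0 0 2 = x4
  generalize u 0 1 1 = x5
  generalize u 0 2 2 = x6
  generalize u 1 1 2 = x7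
  generalize u 1 2 2 = x8
  generalize u 0 1 2 = x9
  refine ⟨!![(1 + 8 * b ^ 3) * x0, 3 * (x5 - 2 * b * x8 + 4 * b ^ 2 * x4),
      3 * (x6 - 2 * b * x7 + 4 * b ^ 2 * x3);
    3 * (x3 - 2 * b * x6 + 4 * b ^ 2 * x7), (1 + 8 * b ^ 3) * x1,
      3 * (x8 - 2 * b * x4 + 4 * b ^ 2 * x5);
    3 * (x4 - 2 * b * x5 + 4 * b ^ 2 * x8),
      3 * (x7 - 2 * b * x3 + 4 * b ^ 2 * x6), (1 + 8 * b ^ 3) * x2],
    3 * (1 + 8 * b ^ 3) * x9 - b * ((1 + 8 * b ^ 3) * (x0 + x1 + x2)), ?_⟩
  funext i
  ext j l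
  simp only [Pi.add_apply, Matrix.add_apply, Pi.smul_apply, Matrix.smul_apply, Lie_apply,
    Fin.sum_univ_three, smul_eq_mul]
  fin_cases i <;> fin_cases j <;> fin_cases l <;> simp [sy, w] <;> ring

/-- The derivative of a polynomial along a tensor. -/
noncomputable def Dd (u : Ten k) (P : MvPolynomial Ix k) : MvPolynomial Ix k :=
  ∑ i, MvPolynomial.C (unc u i) * MvPolynomial.pderiv i P

lemma eval_Dd (t u : Ten k) (P : MvPolynomial Ix k) :
    MvPolynomial.eval (unc t) (Dd u P)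
      = ∑ i, MvPolynomial.eval (unc t) (MvPolynomial.pderiv i P) * unc u i := by
  simp only [Dd, map_sum, map_mul, MvPolynomial.eval_C]
  exact Finset.sum_congr rfl fun i _ => mul_comm _ _

lemma eval_Dd_add (t u v : Ten k) (P : MvPolynomial Ix k) :
    MvPolynomial.eval (unc t) (Dd (u + v) P)
      = MvPolynomial.eval (unc t) (Dd u P) + MvPolynomial.eval (unc t) (Dd v P) := by
  simp only [eval_Dd, ← Finset.sum_add_distrib]
  refine Finset.sum_congr rfl fun i _ => ?_
  simp only [unc, Pi.add_apply, Matrix.add_apply]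
  ring

lemma eval_Dd_smul (t u : Ten k) (c : k) (P : MvPolynomial Ix k) :
    MvPolynomial.eval (unc t) (Dd (c • u) P) = c * MvPolynomial.eval (unc t) (Dd u P) := by
  simp only [eval_Dd, Finset.mul_sum]
  refine Finset.sum_congr rfl fun i _ => ?_
  simp only [unc, Pi.smul_apply, Matrix.smul_apply, smul_eq_mul]
  ring

lemma eval_Dd_curve (P : MvPolynomial Ix k) (hP : Van P) (t0 t1 t2 t3 : Ten k)
    (d : Polynomial k) (hd : d ≠ 0)
    (h : ∀ s, d.eval s ≠ 0 → t0 + s • t1 + s ^ 2 • t2 + s ^ 3 • t3 ∈ DS k) :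
    MvPolynomial.eval (unc t0) (Dd t1 P) = 0 := by
  rw [eval_Dd]
  exact curve P hP t0 t1 t2 t3 d hd h

lemma det_one_add_poly (e : Matrix (Fin 3) (Fin 3) k) :
    ∃ d : Polynomial k, d ≠ 0 ∧ ∀ s, d.eval s = (1 + s • e).det := by
  have key : ∀ s, (((1 : Matrix (Fin 3) (Fin 3) (Polynomial k))
      + (Polynomial.X : Polynomial k) • e.map Polynomial.C).det).eval s = (1 + s • e).det := by
    intro s
    simp only [Matrix.det_fin_three, Matrix.add_apply, Matrix.smul_apply, Matrix.map_apply,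
      Matrix.one_apply, smul_eq_mul, Polynomial.eval_add, Polynomial.eval_sub, Polynomial.eval_mul,
      Polynomial.eval_X, Polynomial.eval_C]
    simp
  refine ⟨_, ?_, key⟩
  intro h
  have h1 := key 0
  rw [h] at h1
  simp at h1

lemma van_Dd (P : MvPolynomial Ix k) (hP : Van P) (u : Ten k) (hu : IsSym u) : Van (Dd u P) := by
  rintro t ⟨g, hg, b, hb, rfl⟩
  have hinv : act g (act g⁻¹ u) = u := by
    rw [← act_mul, Matrix.mul_nonsing_inv g (isUnit_iff_ne_zero.mpr hg), act_one]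
  obtain ⟨e, d, hed⟩ := span (act g⁻¹ u) (sym_act _ _ hu) b
  have h3 : (3 * (1 + 8 * b ^ 3) : k) ≠ 0 := mul_ne_zero (by norm_num) hb
  refine (mul_eq_zero.mp ?_).resolve_left h3
  rw [← eval_Dd_smul, ← hinv, ← act_smul, hed, act_add, act_smul, eval_Dd_add, eval_Dd_smul]
  have h1 : MvPolynomial.eval (unc (act g (w 1 b))) (Dd (act g (Lie e (w 1 b))) P) = 0 := by
    obtain ⟨q, hq0, hq⟩ := det_one_add_poly e
    refine eval_Dd_curve P hP _ _ (act g (act3 e e 1 (w 1 b) + act3 e 1 e (w 1 b)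
      + act3 1 e e (w 1 b))) (act g (act3 e e e (w 1 b))) q hq0 fun s hs => ?_
    rw [← act_smul, ← act_smul, ← act_smul, ← act_add, ← act_add, ← act_add, ← act_one_add,
      ← act_mul]
    refine ⟨g * (1 + s • e), ?_, b, hb, rfl⟩
    rw [Matrix.det_mul, ← hq]
    exact mul_ne_zero hg hs
  have h2 : MvPolynomial.eval (unc (act g (w 1 b))) (Dd (act g (w 0 1)) P) = 0 := by
    refine eval_Dd_curve P hP _ _ 0 0 (1 + 8 * (Polynomial.C b + Polynomial.X) ^ 3) ?_
      fun s hs => ?_
    · intro h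
      have := congrArg (Polynomial.eval 0) h
      simp at this
      exact hb this
    · rw [smul_zero, smul_zero, add_zero, add_zero, ← act_smul, ← act_add]
      refine ⟨g, hg, b + s, ?_, ?_⟩
      · simpa using hs
      · congr 1
        rw [w_smul]
        funext i
        ext j l
        fin_cases i <;> fin_cases j <;> fin_cases l <;> simp [w]
  rw [h1, h2]
  ring

lemma base_mem : w (1 : k) 0 ∈ DS k :=
  ⟨1, by simp, 0, by simp, by rw [act_one]⟩

theorem dense (P : MvPolynomial Ix k) (hP : Van P) (v : Ten k) (hv : IsSym v) :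
    MvPolynomial.eval (unc v) P = 0 := by
  set t0 : Ten k := w 1 0 with ht0
  set u : Ten k := v - t0 with hu
  have hus : IsSym u := sym_sub _ _ hv (w_sym _ _)
  set γ : Ix → Polynomial k := fun i => Polynomial.C (unc t0 i) + Polynomial.C (unc u i) *
    Polynomial.X with hγ
  have h1 : ∀ Q : MvPolynomial Ix k, Polynomial.derivative (MvPolynomial.aeval γ Q)
      = MvPolynomial.aeval γ (Dd u Q) := by
    intro Q
    rw [chain_rule, Dd, map_sum]
    refine Finset.sum_congr rfl fun i _ => ?_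
    rw [map_mul, MvPolynomial.aeval_C, Polynomial.algebraMap_eq]
    simp [hγ]
    ring
  have h2 : ∀ (n : ℕ) (Q : MvPolynomial Ix k), Van Q →
      (Polynomial.derivative^[n] (MvPolynomial.aeval γ Q)).eval 0 = 0 := by
    intro n
    induction n with
    | zero =>
      intro Q hQ
      rw [Function.iterate_zero, id, eval_aeval]
      have h3 : (fun i => (γ i).eval 0) = unc t0 := by
        funext i
        simp [hγ]
      rw [h3]
      exact hQ _ base_mem
    | succ n ih =>
      intro Q hQ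
      rw [Function.iterate_succ_apply, h1]
      exact ih _ (van_Dd Q hQ u hus)
  have h3 : MvPolynomial.aeval γ P = 0 := poly_zero_of_derivs _ fun n => h2 n P hP
  have h4 := congrArg (Polynomial.eval 1) h3
  rw [eval_aeval, Polynomial.eval_zero] at h4
  have h5 : (fun i => (γ i).eval 1) = unc v := by
    funext i
    simp [hγ, hu, unc]
  rwa [h5] at h4

end

/-! ### Naturality -/

section nat
variable {A B : Type*} [CommRing A] [CommRing B] (φ : A →+* B)

/-- Base change of tensors. -/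
def tm (t : Ten A) : Ten B := fun i => (t i).map φ

lemma tm_apply (t : Ten A) (i j l : Fin 3) : tm φ t i j l = φ (t i j l) := rfl

lemma E_map (p : Fin 3) : (E p : Matrix (Fin 3) (Fin 3) A).map φ = E p := by
  ext i j
  fin_cases p <;> fin_cases i <;> fin_cases j <;> simp [E, Ev]

lemma tr6_map (X Y Z X' Y' Z' : Matrix (Fin 3) (Fin 3) A) :
    φ (tr6 X X' Y Y' Z Z') = tr6 (X.map φ) (X'.map φ) (Y.map φ) (Y'.map φ) (Z.map φ) (Z'.map φ) := by
  have h : ∀ M N : Matrix (Fin 3) (Fin 3) A, M.map φ * N.map φ = (M * N).map φ :=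
    fun M N => Matrix.map_mul.symm
  simp only [tr6, h, Matrix.trace_fin_three, Matrix.map_apply, map_add]

lemma P3_tm (t1 t2 t3 : Ten A) : P3 (tm φ t1) (tm φ t2) (tm φ t3) = tm φ (P3 t1 t2 t3) := by
  funext p
  ext q r
  rw [tm_apply]
  simp only [P3, alt, map_sub, map_add, tr6_map, E_map]
  rfl

lemma Hs_tm (t : Ten A) : Hs (tm φ t) = tm φ (Hs t) := by
  funext p
  ext q r
  rw [tm_apply]
  simp only [Hs, D6, Matrix.det_fin_three, Matrix.add_apply, tm_apply, map_sub, map_add, map_mul]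

lemma pr_tm (s t : Ten A) : pr (tm φ s) (tm φ t) = φ (pr s t) := by
  simp only [pr, Matrix.trace_fin_three, Matrix.mul_apply, Matrix.transpose_apply, tm_apply,
    map_sum, map_add, map_mul]

lemma tm_add (s t : Ten A) : tm φ (s + t) = tm φ s + tm φ t := by
  funext p
  ext q r
  simp [tm_apply]

lemma tm_sub (s t : Ten A) : tm φ (s - t) = tm φ s - tm φ t := by
  funext p
  ext q r
  simp [tm_apply]

lemma tm_smul (c : A) (t : Ten A) : tm φ (c • t) = φ c • tm φ t := by
  funext p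
  ext q r
  simp [tm_apply]

lemma Pt_tm (t : Ten A) : Pt (tm φ t) = tm φ (Pt t) := P3_tm φ t t t

lemma Sv_tm (t : Ten A) : Sv (tm φ t) = φ (Sv t) := by rw [Sv, Pt_tm, pr_tm, Sv]

lemma Tv_tm (t : Ten A) : Tv (tm φ t) = φ (Tv t) := by rw [Tv, Pt_tm, Hs_tm, pr_tm, Tv]

lemma Qt_tm (t : Ten A) : Qt (tm φ t) = tm φ (Qt t) := by
  rw [Qt, Hs_tm, Bt, P3_tm, P3_tm, P3_tm, ← tm_add, ← tm_add, Qt, Bt]

lemma Nt_tm (t : Ten A) : Nt (tm φ t) = tm φ (Nt t) := by
  rw [Nt, Tv_tm, Pt_tm, Sv_tm, Qt_tm, Nt, tm_sub, tm_smul, tm_smul, map_mul, map_ofNat]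

end nat

/-- The universal tensor. -/
noncomputable def tU (k : Type*) [CommRing k] : Ten (MvPolynomial Ix k) :=
  fun i j l => MvPolynomial.X (i, j, l)

lemma tm_tU {k : Type*} [CommRing k] (t : Ten k) : tm (MvPolynomial.eval (unc t)) (tU k) = t := by
  funext i
  ext j l
  rw [tm_apply, tU, MvPolynomial.eval_X]
  rfl

section final
variable {k : Type*} [Field k] [CharZero k]

lemma Nt_act' (g : Matrix (Fin 3) (Fin 3) k) (hg : g.det ≠ 0) (t : Ten k) :
    Nt (act g t) = g.det ^ 10 • act (g⁻¹)ᵀ (Nt t) := by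
  have h := congrArg (act (g⁻¹)ᵀ) (Nt_act g t)
  rw [← act_mul, ← Matrix.transpose_mul, Matrix.mul_nonsing_inv g (isUnit_iff_ne_zero.mpr hg),
    Matrix.transpose_one, act_one, act_smul] at h
  exact h

lemma NN_act (g : Matrix (Fin 3) (Fin 3) k) (hg : g.det ≠ 0) (t : Ten k) :
    Nt (Nt (act g t)) = g.det ^ 80 • act g (Nt (Nt t)) := by
  have hg' : ((g⁻¹)ᵀ).det ≠ 0 := by
    rw [Matrix.det_transpose, Matrix.det_nonsing_inv, Ring.inverse_eq_inv']
    exact inv_ne_zero hg
  have h2 : (((g⁻¹)ᵀ)⁻¹)ᵀ = g := by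
    rw [← Matrix.transpose_nonsing_inv, Matrix.transpose_transpose,
      Matrix.nonsing_inv_nonsing_inv g (isUnit_iff_ne_zero.mpr hg)]
  rw [Nt_act' g hg, Nt_smul, Nt_act' _ hg', h2, smul_smul, Matrix.det_transpose,
    Matrix.det_nonsing_inv, Ring.inverse_eq_inv']
  congr 1
  field_simp

lemma SN_act (g : Matrix (Fin 3) (Fin 3) k) (hg : g.det ≠ 0) (t : Ten k) :
    Sv (Nt (act g t)) = g.det ^ 36 * Sv (Nt t) := by
  rw [Nt_act' g hg, Sv_smul, Sv_act, Matrix.det_transpose, Matrix.det_nonsing_inv,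
    Ring.inverse_eq_inv']
  field_simp

theorem main_identity (t : Ten k) (ht : IsSym t) :
    (2 : k) • Nt (Nt t) = (-(Sv (Nt t) ^ 2 * Sv t ^ 2)) • t := by
  funext i
  ext j l
  set R : Ten (MvPolynomial Ix k) := (2 : MvPolynomial Ix k) • Nt (Nt (tU k))
    + (Sv (Nt (tU k)) ^ 2 * Sv (tU k) ^ 2) • tU k with hR
  have hev : ∀ s : Ten k, tm (MvPolynomial.eval (unc s)) R
      = (2 : k) • Nt (Nt s) + (Sv (Nt s) ^ 2 * Sv s ^ 2) • s := by
    intro s
    rw [hR, tm_add, tm_smul, tm_smul, map_mul, map_pow, map_pow, ← Sv_tm, ← Sv_tm, ← Nt_tm,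
      ← Nt_tm, tm_tU]
    simp
  have hvan : Van (R i j l) := by
    rintro s ⟨g, hg, b, hb, rfl⟩
    rw [← tm_apply, hev, NN_act g hg, SN_act g hg, Sv_act, smul_comm, ← act_smul, Nt_Nt_w, act_smul]
    simp only [Pi.add_apply, Matrix.add_apply, Pi.smul_apply, Matrix.smul_apply, smul_eq_mul]
    ring
  have h := dense _ hvan t ht
  rw [← tm_apply, hev] at h
  simp only [Pi.add_apply, Matrix.add_apply, Pi.smul_apply, Matrix.smul_apply, smul_eq_mul] at h ⊢
  linear_combination h

end final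

end Pool.Agent.Helper934.Tc
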